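import Pool.Agent.H389R2.NS.Defs

/-! Four arms in an annulus: the event. -/

set_option autoImplicit false

namespace H389NS

open H974 H12S Finset

/-- Two distinct open clusters cross the annulus between the squares of radius `d` and `k`
around `c`. -/
def A4a (c : ℤ × ℤ) (d k : ℕ) (F : Set Edg) : Prop :=
  ∃ u ∈ bdB c d, ∃ u' ∈ bdB c d,
    (∃ w ∈ bdB c k, Reach (F ∩ ↑(blk c k \ blk c d)) u w) ∧
    (∃ w ∈ bdB c k, Reach (F ∩ ↑(blk c k \ blk c d)) u' w) ∧
    ¬ Reach (F ∩ ↑(blk c k \ blk c d)) u u'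

end H389NS
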