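import Pool.Agent.H389R2.NS.Defs
import Pool.Agent.H12R2.Sep.Defs5

/-! Sums over disjoint blocks, inhomogeneous measure. -/

set_option autoImplicit false

namespace H389NS

open H974 H12S Finset

theorem BSp_Ex_congr_param {p q : Edg → ℝ} {S : Finset Edg} (h : ∀ e ∈ S, p e = q e)
    (f : Finset Edg → ℝ) : Ex p S f = Ex q S f := by
  unfold Ex
  apply Finset.sum_congr rfl
  intro F hF
  rw [Finset.mem_powerset] at hF
  have h1 : ∏ e ∈ F, p e = ∏ e ∈ F, q e := Finset.prod_congr rfl (fun e he => h e (hF he))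
  have h2 : ∏ e ∈ S \ F, (1 - p e) = ∏ e ∈ S \ F, (1 - q e) :=
    Finset.prod_congr rfl (fun e he => by rw [h e (Finset.mem_sdiff.mp he).1])
  rw [h1, h2]

/-- The test function of a block. -/
noncomputable def BSVp (p : Edg → ℝ) (S : Finset Edg) (c : ℤ × ℤ) (m : ℕ) (F : Finset Edg) : ℝ :=
  (Pr p S (BSU c m))⁻¹ * ind (BSU c m F) - (Pr p S (BSD c m))⁻¹ * ind (BSD c m F)

theorem BSVp_local (p : Edg → ℝ) (S : Finset Edg) (c : ℤ × ℤ) (m : ℕ) (F : Finset Edg) :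
    BSVp p S c m F = BSVp p S c m (F ∩ blk c (3 * m)) := by
  unfold BSVp
  rw [ind_congr (BSU_local c m F), ind_congr (BSD_local c m F)]

theorem BSVp_mean {p : Edg → ℝ} {S : Finset Edg} {c : ℤ × ℤ} {m : ℕ} (hU : 0 < Pr p S (BSU c m))
    (hD : 0 < Pr p S (BSD c m)) : Ex p S (BSVp p S c m) = 0 := by
  unfold BSVp
  rw [Ex_sub, Ex_mul_left, Ex_mul_left]
  change (Pr p S (BSU c m))⁻¹ * Pr p S (BSU c m) - (Pr p S (BSD c m))⁻¹ * Pr p S (BSD c m) = 0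
  rw [inv_mul_cancel₀ hU.ne', inv_mul_cancel₀ hD.ne']
  ring

theorem BSVp_sq {p : Edg → ℝ} (hp : Ok p) {S : Finset Edg} {c : ℤ × ℤ} {m : ℕ}
    (hU : 0 < Pr p S (BSU c m)) (hD : 0 < Pr p S (BSD c m)) :
    Ex p S (fun F => BSVp p S c m F * BSVp p S c m F) ≤
      (Pr p S (BSU c m))⁻¹ + (Pr p S (BSD c m))⁻¹ := by
  have key : ∀ F, F ⊆ S → BSVp p S c m F * BSVp p S c m F ≤
      ((Pr p S (BSU c m))⁻¹) ^ 2 * ind (BSU c m F) + ((Pr p S (BSD c m))⁻¹) ^ 2 * ind (BSD c m F) := by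
    intro F _
    have a1 := ind_sq (BSU c m F)
    have a2 := ind_sq (BSD c m F)
    have p1 : 0 ≤ (Pr p S (BSU c m))⁻¹ * (Pr p S (BSD c m))⁻¹ * (ind (BSU c m F) * ind (BSD c m F)) :=
      mul_nonneg (mul_nonneg (inv_nonneg.2 hU.le) (inv_nonneg.2 hD.le))
        (mul_nonneg (ind_nonneg _) (ind_nonneg _))
    unfold BSVp
    have e : ((Pr p S (BSU c m))⁻¹ * ind (BSU c m F) - (Pr p S (BSD c m))⁻¹ * ind (BSD c m F)) *
        ((Pr p S (BSU c m))⁻¹ * ind (BSU c m F) - (Pr p S (BSD c m))⁻¹ * ind (BSD c m F)) =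
        ((Pr p S (BSU c m))⁻¹) ^ 2 * (ind (BSU c m F) * ind (BSU c m F)) +
        ((Pr p S (BSD c m))⁻¹) ^ 2 * (ind (BSD c m F) * ind (BSD c m F)) -
        2 * ((Pr p S (BSU c m))⁻¹ * (Pr p S (BSD c m))⁻¹ *
          (ind (BSU c m F) * ind (BSD c m F))) := by ring
    rw [e, a1, a2]
    linarith
  refine (Ex_mono (hp) key).trans ?_
  rw [Ex_add, Ex_mul_left, Ex_mul_left]
  change ((Pr p S (BSU c m))⁻¹) ^ 2 * Pr p S (BSU c m) +
    ((Pr p S (BSD c m))⁻¹) ^ 2 * Pr p S (BSD c m) ≤ _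
  have e1 : ((Pr p S (BSU c m))⁻¹) ^ 2 * Pr p S (BSU c m) = (Pr p S (BSU c m))⁻¹ := by
    rw [sq, mul_assoc, inv_mul_cancel₀ hU.ne', mul_one]
  have e2 : ((Pr p S (BSD c m))⁻¹) ^ 2 * Pr p S (BSD c m) = (Pr p S (BSD c m))⁻¹ := by
    rw [sq, mul_assoc, inv_mul_cancel₀ hD.ne', mul_one]
  rw [e1, e2]

theorem BSp_infl {p : Edg → ℝ} (hp : Ok p) {S : Finset Edg} {I J : Set Vtx} {c : ℤ × ℤ}
    {m : ℕ} (hm : 1 ≤ m) (hU : 0 < Pr p S (BSU c m))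
    (hD : 0 < Pr p S (BSD c m)) (hIJ : ∀ v ∈ I ∪ J, BSfar c (3 * m) v) :
    Pr p S (fun F => BPv I J (blk c m) ↑F) ≤
      Ex p S (fun F => ind (Cn I J (↑F : Set Edg)) * BSVp p S c m F) := by
  classical
  set b := blk c m with hb
  have a1 : Pr p S (fun F => BPv I J b ↑F) =
      Pr p S (fun F => Cn I J ((↑F : Set Edg) ∪ ↑b)) -
        Pr p S (fun F => Cn I J ((↑F : Set Edg) \ ↑b)) := by
    unfold Pr
    rw [← Ex_sub]
    apply Ex_congr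
    intro F _
    by_cases k1 : Cn I J ((↑F : Set Edg) \ ↑b)
    · have k2 : Cn I J ((↑F : Set Edg) ∪ ↑b) :=
        BS_Cn_mono (fun e he => Or.inl he.1) k1
      rw [ind_of k1, ind_of k2, ind_not_of (fun h => h.2 k1)]
      ring
    · by_cases k2 : Cn I J ((↑F : Set Edg) ∪ ↑b)
      · rw [ind_not_of k1, ind_of k2, ind_of (show BPv I J b ↑F from ⟨k2, k1⟩)]
        ring
      · rw [ind_not_of k1, ind_not_of k2, ind_not_of (fun h => k2 h.1)]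
        ring
  have a2 : Pr p S (fun F => Cn I J ((↑F : Set Edg) ∪ ↑b)) ≤
      (Pr p S (BSU c m))⁻¹ * Pr p S (fun F => Cn I J (↑F : Set Edg) ∧ BSU c m F) := by
    have g1 : Pr p S (fun F => Cn I J ((↑F : Set Edg) ∪ ↑b)) * Pr p S (BSU c m) ≤
        Pr p S (fun F => Cn I J (↑F : Set Edg) ∧ BSU c m F) := by
      refine (Pr_harris (hp) (A := fun F => Cn I J ((↑F : Set Edg) ∪ ↑b)) (B := BSU c m)
        ?_ ?_).trans ?_
      · intro F G hFG _ hF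
        exact BS_Cn_mono (Set.union_subset_union_left _ (by exact_mod_cast hFG)) hF
      · intro F G hFG _ hF
        exact BSU_mono hFG hF
      · apply Pr_mono (hp)
        rintro F _ ⟨k1, k2⟩
        exact ⟨BS_cnU hm hIJ k2 k1, k2⟩
    rw [inv_mul_eq_div, le_div_iff₀ hU]
    exact g1
  have a3 : (Pr p S (BSD c m))⁻¹ * Pr p S (fun F => Cn I J (↑F : Set Edg) ∧ BSD c m F) ≤
      Pr p S (fun F => Cn I J ((↑F : Set Edg) \ ↑b)) := by
    have g1 : Pr p S (fun F => Cn I J (↑F : Set Edg) ∧ BSD c m F) ≤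
        Pr p S (fun F => Cn I J ((↑F : Set Edg) \ ↑b)) * Pr p S (BSD c m) := by
      refine le_trans ?_ (Pr_harris_decr (hp)
        (A := fun F => Cn I J ((↑F : Set Edg) \ ↑b)) (B := BSD c m) ?_ ?_)
      · apply Pr_mono (hp)
        rintro F _ ⟨k1, k2⟩
        exact ⟨BS_cnD hIJ k2 k1, k2⟩
      · intro F G hFG _ hF
        exact BS_Cn_mono (Set.sdiff_subset_sdiff_left (by exact_mod_cast hFG)) hF
      · intro F G hFG _ hF
        unfold BSD at hF ⊢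
        rw [not_not] at hF ⊢
        exact BS_crs_mono (by exact_mod_cast hFG) hF
    rw [inv_mul_eq_div, div_le_iff₀ hD]
    exact g1
  have a4 : Ex p S (fun F => ind (Cn I J (↑F : Set Edg)) * BSVp p S c m F) =
      (Pr p S (BSU c m))⁻¹ * Pr p S (fun F => Cn I J (↑F : Set Edg) ∧ BSU c m F) -
      (Pr p S (BSD c m))⁻¹ * Pr p S (fun F => Cn I J (↑F : Set Edg) ∧ BSD c m F) := by
    unfold Pr
    rw [← Ex_mul_left, ← Ex_mul_left, ← Ex_sub]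
    apply Ex_congr
    intro F _
    rw [ind_and, ind_and]
    unfold BSVp Pr
    ring
  rw [a1, a4]
  linarith

theorem BSp_sum {p : Edg → ℝ} {κ : ℝ} (hp : Ok p) (hκ : 0 < κ) (hκ2 : κ ≤ 1 / 2) {S : Finset Edg}
    {I J : Set Vtx} {T : Finset (ℤ × ℤ)} {ρ : ℤ × ℤ → ℕ} (hρ : ∀ c ∈ T, 1 ≤ ρ c)
    (hS : ∀ c ∈ T, blk c (3 * ρ c) ⊆ S)
    (hd : ∀ c ∈ T, ∀ c' ∈ T, c ≠ c' → Disjoint (blk c (3 * ρ c)) (blk c' (3 * ρ c')))
    (hIJ : ∀ c ∈ T, ∀ v ∈ I ∪ J, BSfar c (3 * ρ c) v)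
    (hU : ∀ c ∈ T, κ ^ 4 ≤ Pr p S (BSU c (ρ c))) (hD : ∀ c ∈ T, κ ^ 4 ≤ Pr p S (BSD c (ρ c))) :
    ∑ c ∈ T, Pr p S (fun F => BPv I J (blk c (ρ c)) ↑F) ≤ 2 * κ⁻¹ ^ 4 * Real.sqrt T.card := by
  have hk4 : 0 < κ ^ 4 := by positivity
  have hU' : ∀ c ∈ T, 0 < Pr p S (BSU c (ρ c)) := fun c hc => hk4.trans_le (hU c hc)
  have hD' : ∀ c ∈ T, 0 < Pr p S (BSD c (ρ c)) := fun c hc => hk4.trans_le (hD c hc)
  set f : Finset Edg → ℝ := fun F => ind (Cn I J (↑F : Set Edg)) with hf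
  set g : Finset Edg → ℝ := fun F => ∑ c ∈ T, BSVp p S c (ρ c) F with hg
  have b1 : ∑ c ∈ T, Pr p S (fun F => BPv I J (blk c (ρ c)) ↑F) ≤
      Ex p S (fun F => f F * g F) := by
    have e1 : Ex p S (fun F => f F * g F) =
        ∑ c ∈ T, Ex p S (fun F => f F * BSVp p S c (ρ c) F) := by
      rw [← Ex_sum]
      apply Ex_congr
      intro F _
      rw [hg, Finset.mul_sum]
    rw [e1]
    apply Finset.sum_le_sum
    intro c hc
    exact BSp_infl hp (hρ c hc) (hU' c hc) (hD' c hc) (hIJ c hc)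
  have b2 : Ex p S (fun F => (f F) ^ 2) ≤ 1 := by
    apply Ex_le_of_le (hp)
    intro F _
    have p1 := ind_nonneg (Cn I J (↑F : Set Edg))
    have p2 := ind_le_one (Cn I J (↑F : Set Edg))
    exact pow_le_one₀ p1 p2
  have b3 : Ex p S (fun F => (g F) ^ 2) =
      ∑ c ∈ T, Ex p S (fun F => BSVp p S c (ρ c) F * BSVp p S c (ρ c) F) := by
    have e1 : Ex p S (fun F => (g F) ^ 2) =
        ∑ c ∈ T, ∑ c' ∈ T, Ex p S (fun F => BSVp p S c (ρ c) F * BSVp p S c' (ρ c') F) := by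
      have e2 : ∀ F : Finset Edg, F ⊆ S → (g F) ^ 2 =
          ∑ c ∈ T, ∑ c' ∈ T, BSVp p S c (ρ c) F * BSVp p S c' (ρ c') F := by
        intro F _
        rw [hg, sq, Finset.sum_mul_sum]
      rw [Ex_congr e2, Ex_sum]
      apply Finset.sum_congr rfl
      intro c _
      rw [Ex_sum]
    rw [e1]
    apply Finset.sum_congr rfl
    intro c hc
    rw [Finset.sum_eq_single c]
    · intro c' hc' hne
      rw [Ex_mul_indep (hS c hc) (hS c' hc') (hd c hc c' hc' (Ne.symm hne))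
        (fun F _ => BSVp_local p S c (ρ c) F) (fun F _ => BSVp_local p S c' (ρ c') F),
        BSVp_mean (hU' c hc) (hD' c hc), zero_mul]
    · intro h; exact absurd hc h
  have b4 : Ex p S (fun F => (g F) ^ 2) ≤ T.card * (2 * κ⁻¹ ^ 4) := by
    rw [b3]
    have : ∀ c ∈ T, Ex p S (fun F => BSVp p S c (ρ c) F * BSVp p S c (ρ c) F) ≤
        2 * κ⁻¹ ^ 4 := by
      intro c hc
      refine (BSVp_sq hp (hU' c hc) (hD' c hc)).trans ?_
      have i1 : (Pr p S (BSU c (ρ c)))⁻¹ ≤ κ⁻¹ ^ 4 := by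
        rw [inv_pow]; exact inv_anti₀ hk4 (hU c hc)
      have i2 : (Pr p S (BSD c (ρ c)))⁻¹ ≤ κ⁻¹ ^ 4 := by
        rw [inv_pow]; exact inv_anti₀ hk4 (hD c hc)
      linarith
    refine (Finset.sum_le_sum this).trans ?_
    rw [Finset.sum_const, nsmul_eq_mul]
  have b5 := Ex_cs (hp) S f g
  have hg0 : 0 ≤ Ex p S (fun F => (g F) ^ 2) :=
    Ex_nonneg (hp) (fun F _ => sq_nonneg _)
  have b6 : (Ex p S (fun F => f F * g F)) ^ 2 ≤ T.card * (2 * κ⁻¹ ^ 4) := by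
    refine b5.trans ?_
    calc Ex p S (fun F => (f F) ^ 2) * Ex p S (fun F => (g F) ^ 2)
        ≤ 1 * Ex p S (fun F => (g F) ^ 2) := mul_le_mul_of_nonneg_right b2 hg0
      _ ≤ _ := by rw [one_mul]; exact b4
  refine b1.trans ?_
  have hinv : 1 ≤ κ⁻¹ ^ 4 := by
    apply one_le_pow₀
    rw [one_le_inv₀ hκ]
    linarith
  have hT0 : (0:ℝ) ≤ T.card := Nat.cast_nonneg _
  apply le_trans (le_abs_self _)
  apply abs_le_of_sq_le_sq _ (by positivity)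
  rw [mul_pow, Real.sq_sqrt hT0]
  refine b6.trans ?_
  nlinarith [mul_nonneg hT0 (show 0 ≤ κ⁻¹ ^ 4 by positivity)]

/-- BLK_p (cf. `H12S.blk_sum`). -/
theorem blk_sum_p {q κ : ℝ} {n : ℕ} (h : Win q κ n) {p : Edg → ℝ} (hp : Ok p) {S : Finset Edg}
    {I J : Set Vtx} {T : Finset (ℤ × ℤ)} {ρ : ℤ × ℤ → ℕ} (hρ : ∀ c ∈ T, 1 ≤ ρ c ∧ 2 * ρ c ≤ n)
    (hS : ∀ c ∈ T, blk c (3 * ρ c) ⊆ S) (hpq : ∀ c ∈ T, ∀ e ∈ blk c (3 * ρ c), p e = q)
    (hd : ∀ c ∈ T, ∀ c' ∈ T, c ≠ c' → Disjoint (blk c (3 * ρ c)) (blk c' (3 * ρ c')))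
    (hIJ : ∀ c ∈ T, ∀ v ∈ I ∪ J, ¬ (|v.1 - c.1| < 3 * ρ c ∧ |v.2 - c.2| < 3 * ρ c)) :
    ∑ c ∈ T, Pr p S (fun F => BPv I J (blk c (ρ c)) ↑F) ≤
      2 * κ⁻¹ ^ 4 * Real.sqrt T.card := by
  have e1 : ∀ c ∈ T, Pr p S (BSU c (ρ c)) = PQ q S (BSU c (ρ c)) := by
    intro c hc
    unfold PQ
    rw [Pr_local (hS c hc) (fun F _ => BSU_local c (ρ c) F),
      Pr_local (hS c hc) (fun F _ => BSU_local c (ρ c) F)]
    exact BSp_Ex_congr_param (fun e he => hpq c hc e he) _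
  have e2 : ∀ c ∈ T, Pr p S (BSD c (ρ c)) = PQ q S (BSD c (ρ c)) := by
    intro c hc
    unfold PQ
    rw [Pr_local (hS c hc) (fun F _ => BSD_local c (ρ c) F),
      Pr_local (hS c hc) (fun F _ => BSD_local c (ρ c) F)]
    exact BSp_Ex_congr_param (fun e he => hpq c hc e he) _
  apply BSp_sum hp h.kpos h.kle (fun c hc => (hρ c hc).1) hS hd
  · intro c hc v hv
    have := hIJ c hc v hv
    rw [not_and_or, abs_lt, abs_lt] at this
    unfold BSfar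
    push_cast
    omega
  · intro c hc
    rw [e1 c hc]
    refine (win_circ h (hρ c hc).1 (hρ c hc).2 c.1 c.2 S ?_).1
    have := hS c hc
    unfold blk at this
    push_cast at this
    exact this
  · intro c hc
    rw [e2 c hc]
    exact (win_blk h (hρ c hc).1 (hρ c hc).2 c.1 c.2 S).1

end H389NS
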