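import Pool.Agent.H389R2.NS.StA
import Pool.Agent.H12R2.Sep.Defs3

/-! Two-layer four-arm probabilities: definitions and simple properties. -/

set_option autoImplicit false

namespace H389NS

open H974 H12S Finset

/-- Two-layer four-arm probability: `x` is the correlation of the layers. -/
noncomputable def a42 (x : ℝ) (k : ℕ) : ℝ :=
  P2 (fun _ => x) (boxE k) (fun F => A4 (-k) k (-k) k (e0 true) ↑F)
      (fun F => A4 (-k) k (-k) k (e0 true) ↑F) +
    P2 (fun _ => x) (boxE k) (fun F => A4 (-k) k (-k) k (e0 false) ↑F)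
      (fun F => A4 (-k) k (-k) k (e0 false) ↑F)

namespace D0

theorem P2_nonneg {E : Type*} [DecidableEq E] {ρ : E → ℝ} {S : Finset E}
    (hρ : ∀ e ∈ S, 0 ≤ ρ e ∧ ρ e ≤ 1) (A B : Finset E → Prop) : 0 ≤ P2 ρ S A B := by
  unfold P2
  exact E2_nonneg hρ fun F F' _ _ => mul_nonneg (ind_nonneg _) (ind_nonneg _)

theorem P2_mono {E : Type*} [DecidableEq E] {ρ : E → ℝ} {S : Finset E}
    (hρ : ∀ e ∈ S, 0 ≤ ρ e ∧ ρ e ≤ 1) {A A' B B' : Finset E → Prop}
    (hA : ∀ F, F ⊆ S → A F → A' F) (hB : ∀ F, F ⊆ S → B F → B' F) :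
    P2 ρ S A B ≤ P2 ρ S A' B' := by
  unfold P2
  refine E2_mono hρ fun F F' hF hF' => ?_
  exact mul_le_mul (ind_mono (hA F hF)) (ind_mono (hB F' hF')) (ind_nonneg _) (ind_nonneg _)

theorem A4_inter {a b c d : ℤ} {e : Edg} {F : Finset Edg} {T : Finset Edg}
    (hT : RE a b c d ⊆ T) : A4 a b c d e (↑F : Set Edg) ↔ A4 a b c d e (↑(F ∩ T) : Set Edg) := by
  have h : ((↑(F ∩ T) : Set Edg) ∩ ↑(RE a b c d)) = (↑F : Set Edg) ∩ ↑(RE a b c d) := by
    ext x
    constructor
    · rintro ⟨h1, h2⟩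
      exact ⟨(Finset.mem_inter.mp (Finset.mem_coe.mp h1)).1, h2⟩
    · rintro ⟨h1, h2⟩
      exact ⟨Finset.mem_coe.mpr (Finset.mem_inter.mpr ⟨h1, hT h2⟩), h2⟩
  unfold A4
  rw [h]

theorem P2_congr_param {E : Type*} [DecidableEq E] {ρ ρ' : E → ℝ} {S : Finset E}
    (hρ : ∀ e ∈ S, ρ e = ρ' e) (A B : Finset E → Prop) : P2 ρ S A B = P2 ρ' S A B := by
  unfold P2
  exact E2_congr_param907 _ hρ

/-- transport by an injection -/
theorem E2_map {E E' : Type*} [DecidableEq E] [DecidableEq E'] (φ : E ↪ E') (ρ : E' → ℝ)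
    (S : Finset E) (h : Finset E' → Finset E' → ℝ) :
    E2 ρ (S.map φ) h = E2 (fun e => ρ (φ e)) S (fun F F' => h (F.map φ) (F'.map φ)) := by
  induction S using Finset.induction_on generalizing h with
  | empty => rw [Finset.map_empty, A6_empty, A6_empty, Finset.map_empty]
  | insert a S ha ih =>
    have ha' : φ a ∉ S.map φ := by
      rwa [Finset.mem_map' φ]
    rw [Finset.map_insert, A6_insert ρ ha', A6_insert _ ha, ih, ih, ih, ih]
    simp only [Finset.map_insert]

theorem P2_map {E E' : Type*} [DecidableEq E] [DecidableEq E'] (φ : E ↪ E') (ρ : E' → ℝ)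
    (S : Finset E) (A B : Finset E' → Prop) :
    P2 ρ (S.map φ) A B = P2 (fun e => ρ (φ e)) S (fun F => A (F.map φ)) (fun F => B (F.map φ)) := by
  unfold P2
  rw [E2_map]

/-- complement invariance -/
theorem E2_compl {E : Type*} [DecidableEq E] (ρ : E → ℝ)
    (S : Finset E) (h : Finset E → Finset E → ℝ) :
    E2 ρ S h = E2 ρ S (fun F F' => h (S \ F) (S \ F')) := by
  induction S using Finset.induction_on generalizing h with
  | empty => rw [A6_empty, A6_empty, Finset.sdiff_empty]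
  | insert a S ha ih =>
    have k1 : ∀ F, F ⊆ S → insert a S \ insert a F = S \ F := by
      intro F hF
      ext x
      simp only [Finset.mem_sdiff, Finset.mem_insert]
      constructor
      · rintro ⟨h1 | h1, h2⟩
        · exact absurd (Or.inl h1) h2
        · exact ⟨h1, fun h => h2 (Or.inr h)⟩
      · rintro ⟨h1, h2⟩
        refine ⟨Or.inr h1, ?_⟩
        rintro (h3 | h3)
        · exact ha (h3 ▸ h1)
        · exact h2 h3
    have k2 : ∀ F, F ⊆ S → insert a S \ F = insert a (S \ F) := by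
      intro F hF
      rw [Finset.insert_sdiff_of_notMem _ (fun h => ha (hF h))]
    rw [A6_insert ρ ha, A6_insert ρ ha, ih, ih h, ih (fun F F' => h (insert a F) F'),
      ih (fun F F' => h F (insert a F'))]
    have e1 : E2 ρ S (fun F F' => h (insert a S \ insert a F) (insert a S \ insert a F')) =
        E2 ρ S (fun F F' => h (S \ F) (S \ F')) :=
      E2_congr907 fun F F' hF hF' => by rw [k1 F hF, k1 F' hF']
    have e2 : E2 ρ S (fun F F' => h (insert a S \ F) (insert a S \ F')) =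
        E2 ρ S (fun F F' => h (insert a (S \ F)) (insert a (S \ F'))) :=
      E2_congr907 fun F F' hF hF' => by rw [k2 F hF, k2 F' hF']
    have e3 : E2 ρ S (fun F F' => h (insert a S \ insert a F) (insert a S \ F')) =
        E2 ρ S (fun F F' => h (S \ F) (insert a (S \ F'))) :=
      E2_congr907 fun F F' hF hF' => by rw [k1 F hF, k2 F' hF']
    have e4 : E2 ρ S (fun F F' => h (insert a S \ F) (insert a S \ insert a F')) =
        E2 ρ S (fun F F' => h (insert a (S \ F)) (S \ F')) :=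
      E2_congr907 fun F F' hF hF' => by rw [k2 F hF, k1 F' hF']
    rw [e1, e2, e3, e4]
    ring

theorem P2_compl {E : Type*} [DecidableEq E] (ρ : E → ℝ)
    (S : Finset E) (A B : Finset E → Prop) :
    P2 ρ S A B = P2 ρ S (fun F => A (S \ F)) (fun F => B (S \ F)) := by
  unfold P2
  rw [E2_compl]

end D0

open D0

theorem a42_nonneg {x : ℝ} (h0 : 0 ≤ x) (h1 : x ≤ 1) (k : ℕ) : 0 ≤ a42 x k :=
  add_nonneg (P2_nonneg (fun _ _ => ⟨h0, h1⟩) _ _) (P2_nonneg (fun _ _ => ⟨h0, h1⟩) _ _)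

theorem a42_le_two {x : ℝ} (h0 : 0 ≤ x) (h1 : x ≤ 1) (k : ℕ) : a42 x k ≤ 2 := by
  have hρ : ∀ e ∈ boxE k, 0 ≤ (fun _ : Edg => x) e ∧ (fun _ : Edg => x) e ≤ 1 :=
    fun _ _ => ⟨h0, h1⟩
  have ok : ∀ e : Edg, 0 ≤ (hp e : ℝ) ∧ (hp e : ℝ) ≤ 1 := by
    intro e; unfold hp; norm_num
  have k1 := P2_le_Pr hρ (fun F => A4 (-k) k (-k) k (e0 true) ↑F)
      (fun F => A4 (-k) k (-k) k (e0 true) ↑F)
  have k2 := P2_le_Pr hρ (fun F => A4 (-k) k (-k) k (e0 false) ↑F)
      (fun F => A4 (-k) k (-k) k (e0 false) ↑F)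
  have k3 := Pr_le_one ok (boxE k) (fun F => A4 (-k) k (-k) k (e0 true) ↑F)
  have k4 := Pr_le_one ok (boxE k) (fun F => A4 (-k) k (-k) k (e0 false) ↑F)
  unfold a42
  linarith

theorem a42_le_a4 {x : ℝ} (h0 : 0 ≤ x) (h1 : x ≤ 1) (k : ℕ) : a42 x k ≤ a4 (1/2) k := by
  have hρ : ∀ e ∈ boxE k, 0 ≤ (fun _ : Edg => x) e ∧ (fun _ : Edg => x) e ≤ 1 :=
    fun _ _ => ⟨h0, h1⟩
  have k1 := P2_le_Pr hρ (fun F => A4 (-k) k (-k) k (e0 true) ↑F)
      (fun F => A4 (-k) k (-k) k (e0 true) ↑F)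
  have k2 := P2_le_Pr hρ (fun F => A4 (-k) k (-k) k (e0 false) ↑F)
      (fun F => A4 (-k) k (-k) k (e0 false) ↑F)
  exact add_le_add k1 k2

theorem a42_anti {x : ℝ} (h0 : 0 ≤ x) (h1 : x ≤ 1) {j k : ℕ} (hj : 1 ≤ j) (h : j ≤ k) :
    a42 x k ≤ a42 x j := by
  have hsub : boxE j ⊆ boxE k := RE_subset (by omega) (by omega) (by omega) (by omega)
  have key : ∀ b, P2 (fun _ => x) (boxE k) (fun F => A4 (-k) k (-k) k (e0 b) ↑F)
      (fun F => A4 (-k) k (-k) k (e0 b) ↑F) ≤
      P2 (fun _ => x) (boxE j) (fun F => A4 (-j) j (-j) j (e0 b) ↑F)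
      (fun F => A4 (-j) j (-j) j (e0 b) ↑F) := by
    intro b
    rw [← P2_local (ρ := fun _ => x) hsub
      (A := fun F => A4 (-j) j (-j) j (e0 b) (↑F : Set Edg))
      (B := fun F => A4 (-j) j (-j) j (e0 b) (↑F : Set Edg))
      (fun F _ => A4_inter (Finset.Subset.refl _)) (fun F _ => A4_inter (Finset.Subset.refl _))]
    have he : e0 b ∈ RE (-j) j (-j) j := by
      unfold e0
      cases b
      · rw [mem_RE_false]; omega
      · rw [mem_RE_true]; omega
    exact P2_mono (fun _ _ => ⟨h0, h1⟩)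
      (fun F _ hF => A4_sub (by omega) (by omega) (by omega) (by omega) he hF)
      (fun F _ hF => A4_sub (by omega) (by omega) (by omega) (by omega) he hF)
  exact add_le_add (key true) (key false)

theorem a42_mono {x x' : ℝ} (h0 : 0 ≤ x) (h : x ≤ x') (h1 : x' ≤ 1) (k : ℕ) :
    a42 x k ≤ a42 x' k := by
  exact add_le_add (P2_mono_param (fun _ _ => h0) (fun _ _ => h) _)
    (P2_mono_param (fun _ _ => h0) (fun _ _ => h) _)

/-- Two-layer probabilities are continuous in the correlations. -/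
theorem P2_cont {E : Type*} [DecidableEq E] (ρ : ℝ → E → ℝ) (hρ : ∀ e, Continuous fun y => ρ y e)
    (S : Finset E) (A B : Finset E → Prop) : Continuous fun y => P2 (ρ y) S A B := by
  unfold P2 E2
  refine continuous_finsetSum _ fun F _ => continuous_finsetSum _ fun F' _ => ?_
  refine Continuous.mul ?_ continuous_const
  refine continuous_finsetProd _ fun e _ => ?_
  split_ifs
  · exact (continuous_const.add (hρ e)).div_const _
  · exact (continuous_const.sub (hρ e)).div_const _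

theorem a42_cont (k : ℕ) : Continuous fun x => a42 x k := by
  unfold a42
  exact (P2_cont (fun x _ => x) (fun _ => continuous_id) _ _ _).add
    (P2_cont (fun x _ => x) (fun _ => continuous_id) _ _ _)

/-- four arms in both layers around `e`: correlation `x` in the box around `e`. -/
theorem P2_A4e {ρ : Edg → ℝ} {S : Finset Edg} (hρ : ∀ e ∈ S, 0 ≤ ρ e ∧ ρ e ≤ 1) {k : ℕ} {e : Edg}
    {x : ℝ} (hS : ebx e k ⊆ S) (hx : ∀ e' ∈ ebx e k, ρ e' = x) :
    P2 ρ S (fun F => A4e k e ↑F) (fun F => A4e k e ↑F) ≤ a42 x k := by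
  have loc : ∀ F : Finset Edg, F ⊆ S → (A4e k e (↑F : Set Edg) ↔ A4e k e (↑(F ∩ ebx e k) : Set Edg)) :=
    fun F _ => A4_inter (Finset.Subset.refl _)
  rw [P2_local hS (A := fun F => A4e k e (↑F : Set Edg)) (B := fun F => A4e k e (↑F : Set Edg))
    loc loc, P2_congr_param (ρ' := fun _ => x) hx]
  have e2 : ebx e k = (trl e.1 e.2.1).mp (boxE k) := by
    unfold ebx boxE
    rw [trl_RE]
    congr 1 <;> ring
  have main : ∀ x : ℝ, 0 ≤ x ∧ x ≤ 1 →
      P2 (fun _ => x) (ebx e k) (fun F => A4e k e ↑F) (fun F => A4e k e ↑F) ≤ a42 x k := by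
    intro x hx0
    rw [e2]
    unfold LSym.mp
    rw [P2_map]
    have f1 : (trl e.1 e.2.1).φ (e0 e.2.2) = e := by
      obtain ⟨x, y, b⟩ := e
      unfold e0
      rw [trl_φ, zero_add, zero_add]
    have f2 : -(k:ℤ) + e.1 = e.1 - k := by ring
    have f3 : (k:ℤ) + e.1 = e.1 + k := by ring
    have f4 : -(k:ℤ) + e.2.1 = e.2.1 - k := by ring
    have f5 : (k:ℤ) + e.2.1 = e.2.1 + k := by ring
    have hmono : ∀ F : Finset Edg, F ⊆ boxE k →
        A4e k e (↑(F.map (trl e.1 e.2.1).φ.toEmbedding) : Set Edg) →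
        A4 (-k) k (-k) k (e0 e.2.2) (↑F : Set Edg) := by
      intro F _ hF
      apply LP_A4_trl (s := e.1) (t := e.2.1)
      unfold A4e at hF
      rw [f1, f2, f3, f4, f5]
      exact hF
    have e3 := P2_mono (ρ := fun _ : Edg => x) (S := boxE k) (fun _ _ => hx0) hmono hmono
    refine e3.trans ?_
    unfold a42
    have n1 : 0 ≤ P2 (fun _ => x) (boxE k) (fun F => A4 (-k) k (-k) k (e0 true) ↑F)
      (fun F => A4 (-k) k (-k) k (e0 true) ↑F) := P2_nonneg (fun _ _ => hx0) _ _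
    have n2 : 0 ≤ P2 (fun _ => x) (boxE k) (fun F => A4 (-k) k (-k) k (e0 false) ↑F)
      (fun F => A4 (-k) k (-k) k (e0 false) ↑F) := P2_nonneg (fun _ _ => hx0) _ _
    rcases e.2.2 with _ | _
    · linarith
    · linarith
  by_cases hne : (ebx e k).Nonempty
  · obtain ⟨e', he'⟩ := hne
    have hx0 : 0 ≤ x ∧ x ≤ 1 := by
      have := hρ e' (hS he')
      rwa [hx e' he'] at this
    exact main x hx0
  · rw [Finset.not_nonempty_iff_eq_empty] at hne
    have hb : boxE k = ∅ := by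
      rw [hne] at e2
      unfold LSym.mp at e2
      exact Finset.map_eq_empty.mp e2.symm
    have g1 : P2 (fun _ => x) (ebx e k) (fun F => A4e k e ↑F) (fun F => A4e k e ↑F) =
        P2 (fun _ => (0 : ℝ)) (ebx e k) (fun F => A4e k e ↑F) (fun F => A4e k e ↑F) := by
      apply P2_congr_param
      intro e' he'
      rw [hne] at he'
      exact absurd he' (Finset.notMem_empty _)
    have g2 : a42 x k = a42 0 k := by
      unfold a42
      rw [P2_congr_param (ρ := fun _ => x) (ρ' := fun _ => 0) (S := boxE k)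
        (fun e' he' => by rw [hb] at he'; exact absurd he' (Finset.notMem_empty _)),
        P2_congr_param (ρ := fun _ => x) (ρ' := fun _ => 0) (S := boxE k)
        (fun e' he' => by rw [hb] at he'; exact absurd he' (Finset.notMem_empty _))]
    rw [g1, g2]
    exact main 0 ⟨le_refl _, zero_le_one⟩

/-- The four-arm event of the dual configuration around the dual edge. -/
def A4d (k : ℕ) (e : Edg) (F : Finset Edg) : Prop :=
  A4e k (dl e) (↑(dmp (ebx e (k + 2) \ F)) : Set Edg)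

/-- the same for the dual configuration -/
theorem P2_A4d {ρ : Edg → ℝ} {S : Finset Edg} (hρ : ∀ e ∈ S, 0 ≤ ρ e ∧ ρ e ≤ 1) {k : ℕ} {e : Edg}
    {x : ℝ} (hS : ebx e (k + 2) ⊆ S) (hx : ∀ e' ∈ ebx e (k + 2), ρ e' = x) :
    P2 ρ S (A4d k e) (A4d k e) ≤ a42 x k := by
  have loc : ∀ F : Finset Edg, F ⊆ S → (A4d k e F ↔ A4d k e (F ∩ ebx e (k + 2))) := by
    intro F _
    unfold A4d
    have : ebx e (k + 2) \ (F ∩ ebx e (k + 2)) = ebx e (k + 2) \ F := by
      ext x
      simp only [Finset.mem_sdiff, Finset.mem_inter]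
      tauto
    rw [this]
  rw [P2_local hS loc loc, P2_congr_param (ρ' := fun _ => x) hx, P2_compl]
  have hx0 : 0 ≤ x ∧ x ≤ 1 := by
    have he' := mem_ebx (e := e) (k := k + 2) (by omega)
    have := hρ e (hS he')
    rwa [hx e he'] at this
  have h2 : P2 (fun _ => x) (ebx e (k + 2)) (fun F => A4d k e (ebx e (k + 2) \ F))
      (fun F => A4d k e (ebx e (k + 2) \ F)) ≤
      P2 (fun _ => x) (ebx e (k + 2)) (fun F => A4e k (dl e) (↑(F.map dl.toEmbedding) : Set Edg))
      (fun F => A4e k (dl e) (↑(F.map dl.toEmbedding) : Set Edg)) := by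
    have hm : ∀ F : Finset Edg, F ⊆ ebx e (k + 2) → A4d k e (ebx e (k + 2) \ F) →
        A4e k (dl e) (↑(F.map dl.toEmbedding) : Set Edg) := by
      intro F hF h
      unfold A4d at h
      rw [Finset.sdiff_sdiff_eq_self hF] at h
      exact h
    exact P2_mono (fun _ _ => hx0) hm hm
  refine h2.trans ?_
  have h3 := P2_map dl.toEmbedding (fun _ => x) (ebx e (k + 2))
    (fun F => A4e k (dl e) (↑F : Set Edg)) (fun F => A4e k (dl e) (↑F : Set Edg))
  rw [← h3]
  have hsub : ebx (dl e) k ⊆ (ebx e (k + 2)).map dl.toEmbedding := by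
    change ebx (dl e) k ⊆ dmp (ebx e (k + 2))
    unfold ebx
    rintro ⟨a, b, c⟩ h
    rw [mem_dmp]
    obtain ⟨x, y, d⟩ := e
    cases c <;> cases d <;>
      simp only [dl_t, dl_f, dls_t, dls_f, mem_RE_true, mem_RE_false] at h ⊢ <;> push_cast <;> omega
  exact P2_A4e (fun _ _ => hx0) hsub (fun _ _ => rfl)

end H389NS
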