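import Pool.Agent.H389R2.NS.D0
import Pool.Agent.H12R2.Sep.Exit5
import Pool.Agent.H12R2.Sep.WinHalf

/-! Exit lemma for two layers. -/

set_option autoImplicit false

namespace H389NS

open H974 H12S Finset
open H12S.EP2

theorem D1_mono {ρ : Edg → ℝ} {S : Finset Edg} (hρ : ∀ e ∈ S, 0 ≤ ρ e ∧ ρ e ≤ 1)
    {A A' B B' : Finset Edg → Prop} (hA : ∀ F, F ⊆ S → A F → A' F)
    (hB : ∀ F, F ⊆ S → B F → B' F) : P2 ρ S A B ≤ P2 ρ S A' B' := by
  unfold P2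
  apply E2_mono hρ
  intro F F' hF hF'
  exact mul_le_mul (ind_mono (hA F hF)) (ind_mono (hB F' hF')) (ind_nonneg _) (ind_nonneg _)

theorem D1_nonneg {ρ : Edg → ℝ} {S : Finset Edg} (hρ : ∀ e ∈ S, 0 ≤ ρ e ∧ ρ e ≤ 1)
    (A B : Finset Edg → Prop) : 0 ≤ P2 ρ S A B := by
  unfold P2
  apply E2_nonneg hρ
  intro F F' _ _
  exact mul_nonneg (ind_nonneg _) (ind_nonneg _)

theorem D1_biUnion {ρ : Edg → ℝ} {S : Finset Edg} (hρ : ∀ e ∈ S, 0 ≤ ρ e ∧ ρ e ≤ 1)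
    {ι : Type*} (T : Finset ι) (A : ι → Finset Edg → Prop) (B : Finset Edg → Prop) :
    P2 ρ S (fun F => ∃ i ∈ T, A i F) B ≤ ∑ i ∈ T, P2 ρ S (A i) B := by
  classical
  induction T using Finset.induction_on with
  | empty =>
    simp only [Finset.notMem_empty, false_and, exists_false, Finset.sum_empty]
    apply le_of_eq
    unfold P2 E2
    simp [ind_not_of]
  | insert a T ha ih =>
    rw [Finset.sum_insert ha]
    refine le_trans (D1_mono hρ (A' := fun F => A a F ∨ ∃ i ∈ T, A i F) (B' := B) ?_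
      (fun _ _ h => h)) ((P2_add_le hρ _ _ _).trans (add_le_add le_rfl ih))
    rintro F _ ⟨i, hi, hA⟩
    rcases Finset.mem_insert.mp hi with rfl | hi
    · exact Or.inl hA
    · exact Or.inr ⟨i, hi, hA⟩

/-- union bound in both layers -/
theorem D1_square {ρ : Edg → ℝ} {S : Finset Edg} (hρ : ∀ e ∈ S, 0 ≤ ρ e ∧ ρ e ≤ 1)
    {ι : Type*} (T : Finset ι) (A : ι → Finset Edg → Prop) :
    P2 ρ S (fun F => ∃ i ∈ T, A i F) (fun F => ∃ i ∈ T, A i F) ≤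
      T.card * ∑ i ∈ T, P2 ρ S (A i) (A i) := by
  refine (D1_biUnion hρ T A _).trans ?_
  have h1 : ∀ i ∈ T, P2 ρ S (A i) (fun F => ∃ j ∈ T, A j F) ≤
      ∑ j ∈ T, (P2 ρ S (A j) (A j) + P2 ρ S (A i) (A i)) / 2 := by
    intro i _
    rw [P2_comm]
    refine (D1_biUnion hρ T A _).trans (Finset.sum_le_sum fun j _ => ?_)
    have := P2_cs hρ (A j) (A i)
    linarith
  refine (Finset.sum_le_sum h1).trans (le_of_eq ?_)
  simp only [← Finset.sum_div, Finset.sum_add_distrib, Finset.sum_const, nsmul_eq_mul,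
    ← Finset.mul_sum]
  ring

/-- independence of the four arms in both layers and the bad event in the first layer -/
theorem D1_indep {x : ℝ} (h0 : 0 ≤ x) (h1 : x ≤ 1) {L m : ℕ} (hL : 2 ≤ L) (hm : 64 ≤ m)
    {e : Edg} (he : e ∈ boxE (m / 4)) {B : Finset Edg → Prop}
    (hB : ∀ F, B F ↔ B (F \ boxE (m / 2 - 1))) :
    P2 (fun _ => x) (SR L m) (fun F => A4 (-(2 * L * m : ℕ)) (2 * L * m : ℕ) (-m) m e ↑F ∧ B F)
      (fun F => A4 (-(2 * L * m : ℕ)) (2 * L * m : ℕ) (-m) m e ↑F) ≤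
      a42 x (m / 8) * PQ (1 / 2) (SR L m) B := by
  have hρ : ∀ e ∈ SR L m, 0 ≤ (fun _ : Edg => x) e ∧ (fun _ : Edg => x) e ≤ 1 :=
    fun _ _ => ⟨h0, h1⟩
  set k : ℕ := m / 8 with hk
  have hLm : m ≤ 2 * L * m := by
    have : m ≤ L * m := Nat.le_mul_of_pos_left _ (by omega)
    nlinarith
  obtain ⟨x', y, β⟩ := e
  have hxy : (-(m / 4 : ℕ) : ℤ) ≤ x' ∧ x' ≤ (m / 4 : ℕ) ∧ (-(m / 4 : ℕ) : ℤ) ≤ y ∧
      y ≤ (m / 4 : ℕ) := by
    unfold boxE at he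
    cases β
    · rw [mem_RE_false] at he
      omega
    · rw [mem_RE_true] at he
      omega
  have heR : ((x', y, β) : Edg) ∈ RE (x' - k) (x' + k) (y - k) (y + k) := by
    cases β
    · rw [mem_RE_false]
      omega
    · rw [mem_RE_true]
      omega
  have hRbox : ebx (x', y, β) k ⊆ boxE (m / 2 - 1) := by
    unfold boxE ebx
    exact RE_subset (by simp only; omega) (by simp only; omega) (by simp only; omega)
      (by simp only; omega)
  have hboxS : boxE (m / 2 - 1) ⊆ SR L m := by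
    unfold boxE SR
    exact RE_subset (by omega) (by omega) (by omega) (by omega)
  have hRS := hRbox.trans hboxS
  have hA4 : ∀ F : Finset Edg, A4 (-(2 * L * m : ℕ)) (2 * L * m : ℕ) (-m) m (x', y, β) ↑F →
      A4e k (x', y, β) ↑F := by
    intro F hF
    exact EP_A4_sub (by omega) (by omega) (by omega) (by omega) heR hF
  have hstep : P2 (fun _ => x) (SR L m)
      (fun F => A4 (-(2 * L * m : ℕ)) (2 * L * m : ℕ) (-m) m (x', y, β) ↑F ∧ B F)
      (fun F => A4 (-(2 * L * m : ℕ)) (2 * L * m : ℕ) (-m) m (x', y, β) ↑F) ≤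
      P2 (fun _ => x) (SR L m) (fun F => A4e k (x', y, β) ↑F ∧ B F)
        (fun F => A4e k (x', y, β) ↑F ∧ True) := by
    apply D1_mono hρ
    · rintro F - ⟨hF, hBF⟩
      exact ⟨hA4 F hF, hBF⟩
    · intro F _ hF
      exact ⟨hA4 F hF, trivial⟩
  refine hstep.trans ?_
  have hind := P2_indep (ρ := fun _ : Edg => x) (U := SR L m)
    (S := ebx (x', y, β) k) (T := SR L m \ boxE (m / 2 - 1))
    (A := fun F => A4e k (x', y, β) ↑F) (A' := fun F => A4e k (x', y, β) ↑F)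
    (B := B) (B' := fun _ => True) hRS Finset.sdiff_subset ?_ ?_ ?_ ?_ ?_
  · rw [hind]
    have hn : 0 ≤ a42 x k := a42_nonneg h0 h1 k
    exact mul_le_mul (P2_A4e hρ hRS (fun _ _ => rfl)) (P2_le_Pr hρ _ _) (D1_nonneg hρ _ _) hn
  · rw [Finset.disjoint_left]
    intro f hf hf'
    exact (Finset.mem_sdiff.1 hf').2 (hRbox hf)
  · intro F _
    apply A4e_local
    rw [Finset.coe_inter, Set.inter_assoc, Set.inter_self]
  · intro F _
    apply A4e_local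
    rw [Finset.coe_inter, Set.inter_assoc, Set.inter_self]
  · intro F hF
    have h2 : F ∩ (SR L m \ boxE (m / 2 - 1)) = F \ boxE (m / 2 - 1) := by
      ext f
      rw [Finset.mem_inter, Finset.mem_sdiff, Finset.mem_sdiff]
      constructor
      · rintro ⟨h3, -, h4⟩
        exact ⟨h3, h4⟩
      · rintro ⟨h3, h4⟩
        exact ⟨h3, hF h3, h4⟩
    rw [h2]
    exact hB F
  · intro F _
    exact Iff.rfl

/-- The end event, localised. -/
theorem D1_end (κ : ℝ) (hκ : 0 < κ) : ∃ C c : ℝ, 0 < C ∧ 0 < c ∧ ∀ (q : ℝ) (n : ℕ),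
    Win q κ n → ∀ m L : ℕ, 64 ≤ m → 2 ≤ L → 2 * m ≤ n → ∀ e : Edg,
      ∃ B : Finset Edg → Prop, (∀ F, B F ↔ B (F \ boxE (m / 2 - 1))) ∧
        (∀ F : Finset Edg, F ⊆ SR L m → (∃ u v : Vtx, |u.1| ≤ m ∧ |u.2| ≤ m ∧
          Reach ((↑F : Set Edg) \ {e}) u v ∧ (L * m : ℕ) ≤ |v.1|) → B F) ∧
        PQ q (SR L m) B ≤ C * Real.exp (-c * L) := by
  obtain ⟨C, c, hC, hc, h⟩ := win_end_of
    (fun {q κ n} h {m} hm hmn c1 c2 S => win_blk h hm hmn c1 c2 S) κ hκ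
  refine ⟨C, c, hC, hc, ?_⟩
  intro q n hw m L hm hL hmn e
  set S0 : Finset Edg := RE (-(L * m : ℕ)) (L * m : ℕ) (-m) m \ boxE (m / 2 - 1) with hS0
  set B : Finset Edg → Prop := fun F => ∃ u v : Vtx, |u.1| ≤ m ∧ (L * m : ℕ) ≤ |v.1| ∧
    |u.2| ≤ m ∧ Reach (↑(F ∩ S0) : Set Edg) u v with hBdef
  have hB : ∀ F, B F ↔ B (F \ boxE (m / 2 - 1)) := by
    intro F
    have h1 : F ∩ S0 = (F \ boxE (m / 2 - 1)) ∩ S0 := by
      ext f
      simp only [Finset.mem_inter, Finset.mem_sdiff, hS0]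
      tauto
    show (∃ u v : Vtx, |u.1| ≤ m ∧ (L * m : ℕ) ≤ |v.1| ∧ |u.2| ≤ m ∧
      Reach (↑(F ∩ S0) : Set Edg) u v) ↔ ∃ u v : Vtx, |u.1| ≤ m ∧ (L * m : ℕ) ≤ |v.1| ∧
      |u.2| ≤ m ∧ Reach (↑((F \ boxE (m / 2 - 1)) ∩ S0) : Set Edg) u v
    rw [← h1]
  have hN : ∃ N : ℕ, N = L * m := ⟨_, rfl⟩
  obtain ⟨N, hNdef⟩ := hN
  have hNm : 2 * m ≤ N := by rw [hNdef]; exact Nat.mul_le_mul_right _ hL
  have h2N : 2 * L * m = 2 * N := by rw [hNdef]; ring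
  have hS0S : S0 ⊆ SR L m := by
    rw [hS0]
    refine Finset.sdiff_subset.trans ?_
    unfold SR
    rw [h2N, ← hNdef]
    exact RE_subset (by omega) (by omega) (by omega) (by omega)
  have hcross : ∀ F : Finset Edg, F ⊆ SR L m → (∃ u v : Vtx, |u.1| ≤ m ∧ |u.2| ≤ m ∧
      Reach ((↑F : Set Edg) \ {e}) u v ∧ (L * m : ℕ) ≤ |v.1|) → B F := by
    rintro F hFS ⟨u, v, hu1, hu2, hr, hv⟩
    obtain ⟨x', y', hx', hy', hr'⟩ := WA_cross (F := (↑F : Set Edg) \ {e}) src tgt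
      (P := fun v : Vtx => |v.1| ≤ m ∧ |v.2| ≤ m) (Q := fun v : Vtx => (L * m : ℕ) ≤ |v.1|)
      hr ⟨hu1, hu2⟩ hv
    refine ⟨x', y', hx'.1, hy', hx'.2, ?_⟩
    have hr'' : Reach (((↑F : Set Edg) \ {e}) ∩ WA_T src tgt
      (fun v : Vtx => |v.1| ≤ m ∧ |v.2| ≤ m) (fun v : Vtx => ((L * m : ℕ) : ℤ) ≤ |v.1|)) x' y' := hr'
    refine hr''.mono ?_
    rintro f ⟨⟨hf1, -⟩, hf2, hf3⟩
    have hfS := hFS hf1
    rw [Finset.coe_inter]
    refine ⟨hf1, ?_⟩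
    rw [Finset.mem_coe, hS0, Finset.mem_sdiff]
    rw [← hNdef] at hf3 ⊢
    unfold SR at hfS
    rw [h2N] at hfS
    obtain ⟨x, y, _ | _⟩ := f
    · simp only [src_mk, tgt_false, abs_le, le_abs, not_and_or, not_or, not_le] at hf2 hf3
      rw [mem_RE_false] at hfS ⊢
      unfold boxE
      rw [mem_RE_false]
      omega
    · simp only [src_mk, tgt_true, abs_le, le_abs, not_and_or, not_or, not_le] at hf2 hf3
      rw [mem_RE_true] at hfS ⊢
      unfold boxE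
      rw [mem_RE_true]
      omega
  refine ⟨B, hB, hcross, ?_⟩
  have h3 : PQ q (SR L m) B = PQ q S0 B := by
    unfold PQ
    apply Pr_local hS0S
    intro F _
    show (∃ u v : Vtx, |u.1| ≤ m ∧ (L * m : ℕ) ≤ |v.1| ∧ |u.2| ≤ m ∧
      Reach (↑(F ∩ S0) : Set Edg) u v) ↔ ∃ u v : Vtx, |u.1| ≤ m ∧ (L * m : ℕ) ≤ |v.1| ∧
      |u.2| ≤ m ∧ Reach (↑(F ∩ S0 ∩ S0) : Set Edg) u v
    rw [Finset.inter_assoc, Finset.inter_self]
  rw [h3]
  refine le_trans ?_ (h q n hw m L (by omega) hmn S0 Finset.sdiff_subset)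
  apply Pr_mono hw.ok
  rintro F - ⟨u, v, hu, hv, hu2, hr⟩
  refine ⟨u, v, hu, hv, hu2, hr.mono ?_⟩
  rw [Finset.coe_inter]
  exact Set.inter_subset_left

/-- locality of `H3s` -/
theorem D1_H3s_local {σ : Bool} {m R r : ℕ} {x0 : ℤ} (hR : 2 * R ≤ m) (hm : 4 ≤ m)
    (F : Finset Edg) : H3s σ m x0 r R ↑F ↔ H3s σ m x0 r R ↑(F \ boxE (m / 2 - 1)) := by
  apply H3s_congr
  ext x
  simp only [Set.mem_inter_iff, Finset.mem_coe, Finset.mem_sdiff]
  constructor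
  · rintro ⟨hxF, hxH⟩
    exact ⟨⟨hxF, HB_notMem hR hm hxH⟩, hxH⟩
  · rintro ⟨⟨hxF, _⟩, hxH⟩
    exact ⟨hxF, hxH⟩

/-- The bad event. -/
theorem D1_bad (κ : ℝ) (hκ : 0 < κ) : ∃ C c : ℝ, 0 < C ∧ 0 < c ∧ ∀ (L : ℕ) (δ : ℝ), 2 ≤ L →
    0 < δ → ∃ M1 M2 N : ℕ, 64 ≤ M1 ∧ 8 * M1 ≤ M2 ∧
      ∀ (q : ℝ) (n : ℕ), Win q κ n → ∀ m : ℕ,
      M2 ≤ m → 4 * L * m ≤ n → ∀ e ∈ boxE (m / 4), ∃ B : Finset Edg → Prop,
        (∀ F, B F ↔ B (F \ boxE (m / 2 - 1))) ∧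
        PQ q (SR L m) B ≤ δ + C * Real.exp (-c * L) ∧
        ∀ F : Finset Edg, F ⊆ SR L m → A4 (-(2 * L * m : ℕ)) (2 * L * m : ℕ) (-m) m e ↑F →
          B F ∨ ∃ p ∈ prs L m (m / M2) N, Sev L m (m / M2) (m / M1) p.1.1
            (2 * (m / M2 : ℕ) * p.1.2) p.2.1 (2 * (m / M2 : ℕ) * p.2.2) e ↑F := by
  classical
  obtain ⟨C1, c1, hC1, hc1, H3⟩ := H3s_prob κ hκ
  obtain ⟨C2, c2, hC2, hc2, HE⟩ := D1_end κ hκ
  refine ⟨C2, c2, hC2, hc2, ?_⟩
  intro L δ hL hδ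
  obtain ⟨M1, hM1, hM1b⟩ := choose_M (4 * L) 10 C1 20 (by positivity) (by norm_num) hC1.le
    (by norm_num) hc1 (half_pos hδ) 64
  obtain ⟨M2, hM2, hM2b⟩ := choose_M (4 * L) 6 C1 (2 * M1) (by positivity) (by norm_num) hC1.le
    (by positivity) hc1 (half_pos hδ) (8 * M1)
  refine ⟨M1, M2, L * M2 + 1, hM1, hM2, ?_⟩
  intro q n hW m hm hn e he
  obtain ⟨h0, h1⟩ := win01 hW
  obtain ⟨r, hr⟩ : ∃ r : ℕ, r = m / M2 := ⟨_, rfl⟩
  obtain ⟨ρ, hρ⟩ : ∃ ρ : ℕ, ρ = m / M1 := ⟨_, rfl⟩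
  have hr1 : 1 ≤ r := by rw [hr]; exact (Nat.one_le_div_iff (by omega)).mpr hm
  have hρ1 : 1 ≤ ρ := by rw [hρ]; exact (Nat.one_le_div_iff (by omega)).mpr (by omega)
  have hmul1 : M1 * ρ ≤ m := by rw [hρ]; exact Nat.mul_div_le m M1
  have hmul2 : M2 * r ≤ m := by rw [hr]; exact Nat.mul_div_le m M2
  have hlt1 : m < M1 * ρ + M1 := by
    rw [hρ]
    have := Nat.div_add_mod m M1
    have := Nat.mod_lt m (show M1 > 0 by omega)
    omega
  have hlt2 : m < M2 * r + M2 := by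
    rw [hr]
    have := Nat.div_add_mod m M2
    have := Nat.mod_lt m (show M2 > 0 by omega)
    omega
  have h64 : 64 * ρ ≤ m := le_trans (Nat.mul_le_mul_right ρ hM1) hmul1
  have h8 : 8 * r ≤ ρ := by
    have : 8 * r * M1 ≤ m := by
      calc 8 * r * M1 = 8 * M1 * r := by ring
        _ ≤ M2 * r := Nat.mul_le_mul_right r hM2
        _ ≤ m := hmul2
    rw [hρ]
    exact (Nat.le_div_iff_mul_le (by omega)).mpr this
  have hm64 : 64 ≤ m := by omega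
  have hLm : 2 * m ≤ L * m := Nat.mul_le_mul_right m hL
  have hLm2 : 2 * L * m = 2 * (L * m) := by ring
  have hLm4 : 4 * L * m = 4 * (L * m) := by ring
  simp only [← hr, ← hρ]
  set K1 : Finset ℤ := (Icc (-((L * M2 + 1 : ℕ) : ℤ)) ((L * M2 + 1 : ℕ) : ℤ)).filter
    (fun k => |2 * r * k| ≤ (L * m : ℕ) + (r:ℤ)) with hK1
  set K2 : Finset ℤ := (Icc (-((L * M1 + 2 : ℕ) : ℤ)) ((L * M1 + 2 : ℕ) : ℤ)).filter
    (fun k => |4 * ρ * k| ≤ (L * m : ℕ) + 8 * (ρ:ℤ)) with hK2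
  have mK1 : ∀ k : ℤ, |2 * r * k| ≤ (L * m : ℕ) + (r:ℤ) → k ∈ K1 := by
    intro k hk
    rw [hK1, Finset.mem_filter]
    refine ⟨?_, hk⟩
    rw [Finset.mem_Icc, ← abs_le]
    rw [abs_mul, abs_of_nonneg (by positivity : (0:ℤ) ≤ 2 * r)] at hk
    by_contra hcon
    push Not at hcon
    have h3 : ((L * M2 + 2 : ℕ) : ℤ) ≤ |k| := by
      push_cast at hcon ⊢
      linarith
    have h4 : (2 * r : ℤ) * ((L * M2 + 2 : ℕ) : ℤ) ≤ 2 * r * |k| :=
      mul_le_mul_of_nonneg_left h3 (by positivity)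
    have h5 : L * m ≤ L * (M2 * r + M2) := Nat.mul_le_mul_left L hlt2.le
    have h6 : L * M2 ≤ L * M2 * r := Nat.le_mul_of_pos_right _ (by omega)
    have h7 : (2 * r : ℤ) * ((L * M2 + 2 : ℕ) : ℤ) ≤ (L * m : ℕ) + (r:ℤ) := h4.trans hk
    have h8' : 2 * r * (L * M2 + 2) ≤ L * m + r := by exact_mod_cast h7
    have h9 : 2 * r * (L * M2 + 2) = 2 * (L * M2 * r) + 4 * r := by ring
    have h10 : L * (M2 * r + M2) = L * M2 * r + L * M2 := by ring
    omega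
  have mK2 : ∀ k : ℤ, |4 * ρ * k| ≤ (L * m : ℕ) + 8 * (ρ:ℤ) → k ∈ K2 := by
    intro k hk
    rw [hK2, Finset.mem_filter]
    refine ⟨?_, hk⟩
    rw [Finset.mem_Icc, ← abs_le]
    rw [abs_mul, abs_of_nonneg (by positivity : (0:ℤ) ≤ 4 * ρ)] at hk
    by_contra hcon
    push Not at hcon
    have h3 : ((L * M1 + 3 : ℕ) : ℤ) ≤ |k| := by
      push_cast at hcon ⊢
      linarith
    have h4 : (4 * ρ : ℤ) * ((L * M1 + 3 : ℕ) : ℤ) ≤ 4 * ρ * |k| :=
      mul_le_mul_of_nonneg_left h3 (by positivity)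
    have h5 : L * m ≤ L * (M1 * ρ + M1) := Nat.mul_le_mul_left L hlt1.le
    have h6 : L * M1 ≤ L * M1 * ρ := Nat.le_mul_of_pos_right _ (by omega)
    have h7 : (4 * ρ : ℤ) * ((L * M1 + 3 : ℕ) : ℤ) ≤ (L * m : ℕ) + 8 * (ρ:ℤ) := h4.trans hk
    have h8' : 4 * ρ * (L * M1 + 3) ≤ L * m + 8 * ρ := by exact_mod_cast h7
    have h9 : 4 * ρ * (L * M1 + 3) = 4 * (L * M1 * ρ) + 12 * ρ := by ring
    have h10 : L * (M1 * ρ + M1) = L * M1 * ρ + L * M1 := by ring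
    omega
  obtain ⟨BE, hBE1, hBE2, hBE3⟩ := HE q n hW m L hm64 hL (by omega) e
  refine ⟨fun F => BE F ∨ ((∃ s ∈ (univ : Finset Bool) ×ˢ K1, H3s s.1 m (2 * r * s.2) r ρ ↑F) ∨
    (∃ s ∈ (univ : Finset Bool) ×ˢ K2, H3s s.1 m (4 * ρ * s.2) (8 * ρ) (m / 2) ↑F)), ?_, ?_, ?_⟩
  · intro F
    refine or_congr (hBE1 F) (or_congr ?_ ?_)
    · constructor
      · rintro ⟨s, hs, h⟩
        exact ⟨s, hs, (D1_H3s_local (by omega) (by omega) F).1 h⟩
      · rintro ⟨s, hs, h⟩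
        exact ⟨s, hs, (D1_H3s_local (by omega) (by omega) F).2 h⟩
    · constructor
      · rintro ⟨s, hs, h⟩
        exact ⟨s, hs, (D1_H3s_local (by omega) (by omega) F).1 h⟩
      · rintro ⟨s, hs, h⟩
        exact ⟨s, hs, (D1_H3s_local (by omega) (by omega) F).2 h⟩
  · -- small events
    have b3 : PQ q (SR L m) (fun F => ∃ s ∈ (univ : Finset Bool) ×ˢ K1,
        H3s s.1 m (2 * r * s.2) r ρ ↑F) ≤ δ / 2 := by
      refine (pr_biUnion h0 h1 (SR L m) _ _).trans ?_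
      have hterm : ∀ s ∈ (univ : Finset Bool) ×ˢ K1, PQ q (SR L m) (fun F =>
          H3s s.1 m (2 * r * s.2) r ρ ↑F) ≤ C1 * (2 * M1 / M2) ^ (1 + c1) := by
        rintro ⟨σ, k⟩ hs
        rw [Finset.mem_product, hK1, Finset.mem_filter] at hs
        obtain ⟨-, -, hk⟩ := hs
        refine (H3 q n hW r ρ hr1 (by omega) (by omega) σ m _ _ (HB_sub (by omega) ?_)).trans ?_
        · simp only at hk ⊢
          push_cast at hk ⊢
          have h3 : ((2 * m : ℕ) : ℤ) ≤ ((L * m : ℕ) : ℤ) := by exact_mod_cast hLm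
          push_cast at h3
          have h4 : (64 * ρ : ℤ) ≤ m := by exact_mod_cast h64
          have h5 : (8 * r : ℤ) ≤ ρ := by exact_mod_cast h8
          have h6 : (0:ℤ) ≤ r := by positivity
          have h7 : (0:ℤ) ≤ ρ := by positivity
          linarith
        · refine mul_le_mul_of_nonneg_left (ratio_le (by positivity) ?_ hc1) hC1.le
          have h3 : (r:ℝ) ≤ m / M2 := by rw [hr]; exact Nat.cast_div_le
          have h4 : (m:ℝ) / (2 * M1) ≤ ρ := by rw [hρ]; exact div_ge (by omega) (by omega)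
          have hM1p : (0:ℝ) < M1 := by exact_mod_cast (by omega : 0 < M1)
          have hM2p : (0:ℝ) < M2 := by exact_mod_cast (by omega : 0 < M2)
          have hmp : (0:ℝ) < m := by exact_mod_cast (by omega : 0 < m)
          have hρp : (0:ℝ) < ρ := by exact_mod_cast (by omega : 0 < ρ)
          calc (r:ℝ) / ρ ≤ (m / M2) / (m / (2 * M1)) :=
                div_le_div₀ (by positivity) h3 (by positivity) h4
            _ = 2 * M1 / M2 := by field_simp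
      refine (Finset.sum_le_sum hterm).trans ?_
      rw [Finset.sum_const, nsmul_eq_mul]
      have hcard : ((((univ : Finset Bool) ×ˢ K1).card : ℕ) : ℝ) ≤ 4 * L * M2 + 6 := by
        rw [Finset.card_product, Finset.card_univ, Fintype.card_bool]
        have h3 : K1.card ≤ 2 * (L * M2 + 1) + 1 := by
          refine (Finset.card_filter_le _ _).trans ?_
          rw [Int.card_Icc]
          omega
        calc (((2 * K1.card : ℕ)) : ℝ) ≤ ((2 * (2 * (L * M2 + 1) + 1) : ℕ) : ℝ) := by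
              exact_mod_cast Nat.mul_le_mul_left 2 h3
          _ = 4 * L * M2 + 6 := by push_cast; ring
      have hpos : 0 ≤ C1 * (2 * (M1:ℝ) / M2) ^ (1 + c1) := by positivity
      exact (mul_le_mul_of_nonneg_right hcard hpos).trans hM2b
    -- big events
    have b4 : PQ q (SR L m) (fun F => ∃ s ∈ (univ : Finset Bool) ×ˢ K2,
          H3s s.1 m (4 * ρ * s.2) (8 * ρ) (m / 2) ↑F) ≤ δ / 2 := by
      refine (pr_biUnion h0 h1 (SR L m) _ _).trans ?_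
      have hterm : ∀ s ∈ (univ : Finset Bool) ×ˢ K2, PQ q (SR L m) (fun F =>
            H3s s.1 m (4 * ρ * s.2) (8 * ρ) (m / 2) ↑F) ≤ C1 * (20 / M1) ^ (1 + c1) := by
        rintro ⟨σ, k⟩ hs
        rw [Finset.mem_product, hK2, Finset.mem_filter] at hs
        obtain ⟨-, -, hk⟩ := hs
        refine (H3 q n hW (8 * ρ) (m / 2) (by omega) (by omega) (by omega) σ m _ _
          (HB_sub (by omega) ?_)).trans ?_
        · simp only at hk ⊢
          have h2' : ((m / 2 : ℕ) : ℤ) ≤ m := by exact_mod_cast Nat.div_le_self m 2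
          have h3 : ((2 * m : ℕ) : ℤ) ≤ ((L * m : ℕ) : ℤ) := by exact_mod_cast hLm
          have h4 : (64 * ρ : ℤ) ≤ m := by exact_mod_cast h64
          have h7 : (0:ℤ) ≤ ρ := by positivity
          have h9 : ((2 * L * m : ℕ) : ℤ) = 2 * ((L * m : ℕ) : ℤ) := by push_cast; ring
          rw [h9]
          push_cast at hk h3 ⊢
          push_cast at h2'
          linarith
        · refine mul_le_mul_of_nonneg_left (ratio_le (by positivity) ?_ hc1) hC1.le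
          have h3 : (ρ:ℝ) ≤ m / M1 := by rw [hρ]; exact Nat.cast_div_le
          have h4 : (2:ℝ) / 5 * m ≤ ((m / 2 : ℕ) : ℝ) := by
            have h5 : 2 * m ≤ 5 * (m / 2) := by omega
            have h6 : (2:ℝ) * m ≤ 5 * ((m / 2 : ℕ) : ℝ) := by exact_mod_cast h5
            linarith
          have hM1p : (0:ℝ) < M1 := by exact_mod_cast (by omega : 0 < M1)
          have hmp : (0:ℝ) < m := by exact_mod_cast (by omega : 0 < m)
          have h5 : ((8 * ρ : ℕ) : ℝ) ≤ 8 * (m / M1) := by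
            push_cast
            linarith
          calc ((8 * ρ : ℕ) : ℝ) / ((m / 2 : ℕ) : ℝ) ≤ (8 * (m / M1)) / (2 / 5 * m) :=
                div_le_div₀ (by positivity) h5 (by positivity) h4
            _ = 20 / M1 := by field_simp; norm_num
      refine (Finset.sum_le_sum hterm).trans ?_
      rw [Finset.sum_const, nsmul_eq_mul]
      have hcard : ((((univ : Finset Bool) ×ˢ K2).card : ℕ) : ℝ) ≤ 4 * L * M1 + 10 := by
        rw [Finset.card_product, Finset.card_univ, Fintype.card_bool]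
        have h3 : K2.card ≤ 2 * (L * M1 + 2) + 1 := by
          refine (Finset.card_filter_le _ _).trans ?_
          rw [Int.card_Icc]
          omega
        calc (((2 * K2.card : ℕ)) : ℝ) ≤ ((2 * (2 * (L * M1 + 2) + 1) : ℕ) : ℝ) := by
              exact_mod_cast Nat.mul_le_mul_left 2 h3
          _ = 4 * L * M1 + 10 := by push_cast; ring
      have hpos : 0 ≤ C1 * (20 / (M1:ℝ)) ^ (1 + c1) := by positivity
      exact (mul_le_mul_of_nonneg_right hcard hpos).trans hM1b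
    have c2' := Pr_or_le (okq h0 h1) (SR L m) BE (fun F =>
      (∃ s ∈ (univ : Finset Bool) ×ˢ K1, H3s s.1 m (2 * r * s.2) r ρ ↑F) ∨
      (∃ s ∈ (univ : Finset Bool) ×ˢ K2, H3s s.1 m (4 * ρ * s.2) (8 * ρ) (m / 2) ↑F))
    have c3' := Pr_or_le (okq h0 h1) (SR L m) (fun F =>
      (∃ s ∈ (univ : Finset Bool) ×ˢ K1, H3s s.1 m (2 * r * s.2) r ρ ↑F)) (fun F =>
      (∃ s ∈ (univ : Finset Bool) ×ˢ K2, H3s s.1 m (4 * ρ * s.2) (8 * ρ) (m / 2) ↑F))
    have e1 : δ + C2 * Real.exp (-c2 * L) = C2 * Real.exp (-c2 * L) + (δ / 2 + δ / 2) := by ring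
    rw [e1]
    exact c2'.trans (add_le_add hBE3 (c3'.trans (add_le_add b3 b4)))
  · intro F hF hA
    by_contra hcon
    push Not at hcon
    obtain ⟨⟨hEnd, hS, hB⟩, hQ⟩ := hcon
    have hF' : (↑F : Set Edg) ⊆ ↑(RE (-(2 * L * m : ℕ)) (2 * L * m : ℕ) (-m) m) := by
      exact_mod_cast hF
    obtain ⟨σ, σ', k, k', hk, hk', hQe⟩ := exit_det2 hL hr1 h8 h64 he hF' hA
      (fun u v hu1 hu2 hr0 => by
        by_contra hc
        push Not at hc
        exact hEnd (hBE2 F hF ⟨u, v, hu1, hu2, hr0, hc⟩))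
      (fun σ k hk => hS (σ, k) (Finset.mem_product.mpr ⟨Finset.mem_univ _, mK1 k hk⟩))
      (fun σ k hk => hB (σ, k) (Finset.mem_product.mpr ⟨Finset.mem_univ _, mK2 k hk⟩))
    refine hQ ((σ, k), (σ', k')) ?_ hQe
    have m1 := mK1 k hk
    have m2 := mK1 k' hk'
    rw [hK1, Finset.mem_filter] at m1 m2
    unfold prs
    rw [Finset.mem_filter, Finset.mem_product, Finset.mem_product, Finset.mem_product]
    exact ⟨⟨⟨Finset.mem_univ _, m1.1⟩, ⟨Finset.mem_univ _, m2.1⟩⟩, hk, hk'⟩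

theorem prs_card (L m r N : ℕ) : (prs L m r N).card ≤ (2 * (2 * N + 1)) * (2 * (2 * N + 1)) := by
  unfold prs
  refine (Finset.card_filter_le _ _).trans ?_
  rw [Finset.card_product, Finset.card_product, Finset.card_univ, Fintype.card_bool,
    Int.card_Icc]
  have : ((N : ℤ) + 1 - (-(N:ℤ))).toNat = 2 * N + 1 := by omega
  rw [this]

theorem choose_L (C c : ℝ) (hC : 0 < C) (hc : 0 < c) : ∃ L : ℕ, 2 ≤ L ∧
    C * Real.exp (-c * L) ≤ 1 / (16384 * (L:ℝ) ^ 2) := by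
  have h1 := Real.tendsto_pow_mul_exp_neg_atTop_nhds_zero 2
  have h2 : Filter.Tendsto (fun L : ℕ => c * (L:ℝ)) Filter.atTop Filter.atTop :=
    tendsto_natCast_atTop_atTop.const_mul_atTop hc
  have h3 := (h1.comp h2).const_mul (16384 * C / c ^ 2)
  rw [mul_zero] at h3
  have h4 := (h3.eventually (gt_mem_nhds (zero_lt_one))).and (Filter.eventually_ge_atTop 2)
  obtain ⟨L, h5, h6⟩ := h4.exists
  refine ⟨L, h6, ?_⟩
  have hL : (0:ℝ) < L := by exact_mod_cast (by omega : 0 < L)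
  simp only [Function.comp_apply] at h5
  rw [le_div_iff₀ (by positivity)]
  have e1 : 16384 * C / c ^ 2 * ((c * (L:ℝ)) ^ 2 * Real.exp (-(c * L))) =
      C * Real.exp (-c * L) * (16384 * (L:ℝ) ^ 2) := by
    rw [neg_mul]
    field_simp
  rw [e1] at h5
  exact h5.le

/-- D1 -/
theorem two_exit : ∃ (L M1 M2 N : ℕ) (K : ℝ), 2 ≤ L ∧ 64 ≤ M1 ∧ 8 * M1 ≤ M2 ∧ 0 < K ∧
    ∀ m : ℕ, M2 ≤ m → ∀ x : ℝ, 0 ≤ x → x ≤ 1 → ∀ e ∈ boxE (m / 4),
      P2 (fun _ => x) (SR L m) (fun F => A4 (-(2 * L * m : ℕ)) (2 * L * m : ℕ) (-m) m e ↑F)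
          (fun F => A4 (-(2 * L * m : ℕ)) (2 * L * m : ℕ) (-m) m e ↑F) ≤
        K * (∑ p ∈ prs L m (m / M2) N, P2 (fun _ => x) (SR L m)
          (fun F => Sev L m (m / M2) (m / M1) p.1.1 (2 * (m / M2 : ℕ) * p.1.2) p.2.1
            (2 * (m / M2 : ℕ) * p.2.2) e ↑F)
          (fun F => Sev L m (m / M2) (m / M1) p.1.1 (2 * (m / M2 : ℕ) * p.1.2) p.2.1
            (2 * (m / M2 : ℕ) * p.2.2) e ↑F)) +
        1 / (4096 * (L:ℝ) ^ 2) * a42 x (m / 8) := by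
  obtain ⟨κ, hκ, hWin⟩ := win_half
  obtain ⟨C, c, hC, hc, H⟩ := D1_bad κ hκ
  obtain ⟨L, hL, hLe⟩ := choose_L C c hC hc
  have hLp : (0:ℝ) < L := by exact_mod_cast (by omega : 0 < L)
  obtain ⟨M1, M2, N, hM1, hM2, H⟩ := H L (1 / (16384 * (L:ℝ) ^ 2)) hL (by positivity)
  refine ⟨L, M1, M2, N, ((2 * (2 * N + 1)) * (2 * (2 * N + 1)) : ℕ), hL, hM1, hM2,
    by positivity, ?_⟩
  intro m hm x h0 h1 e he
  obtain ⟨B, hB1, hB2, hB3⟩ := H (1 / 2) (4 * L * m) (hWin _) m hm le_rfl e he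
  have hρ : ∀ e ∈ SR L m, 0 ≤ (fun _ : Edg => x) e ∧ (fun _ : Edg => x) e ≤ 1 :=
    fun _ _ => ⟨h0, h1⟩
  set A : Finset Edg → Prop := fun F => A4 (-(2 * L * m : ℕ)) (2 * L * m : ℕ) (-m) m e ↑F with hA
  set T : ((Bool × ℤ) × (Bool × ℤ)) → Finset Edg → Prop := fun p F =>
    Sev L m (m / M2) (m / M1) p.1.1 (2 * (m / M2 : ℕ) * p.1.2) p.2.1
            (2 * (m / M2 : ℕ) * p.2.2) e ↑F with hT
  set G : Finset Edg → Prop := fun F => A F ∧ ∃ p ∈ prs L m (m / M2) N, T p F with hG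
  set Bd : Finset Edg → Prop := fun F => A F ∧ B F with hBd
  have hm64 : 64 ≤ m := by omega
  have hbad : P2 (fun _ => x) (SR L m) Bd A ≤ a42 x (m / 8) * (1 / (8192 * (L:ℝ) ^ 2)) := by
    refine (D1_indep h0 h1 hL hm64 he hB1).trans ?_
    refine mul_le_mul_of_nonneg_left (hB2.trans ?_) (a42_nonneg h0 h1 _)
    have e1 : 1 / (8192 * (L:ℝ) ^ 2) = 1 / (16384 * (L:ℝ) ^ 2) + 1 / (16384 * (L:ℝ) ^ 2) := by
      field_simp
      norm_num
    rw [e1]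
    exact add_le_add le_rfl hLe
  have hcov : ∀ F : Finset Edg, F ⊆ SR L m → A F → (G F ∨ Bd F) := by
    intro F hF hAF
    rcases hB3 F hF hAF with h | h
    · exact Or.inr ⟨hAF, h⟩
    · exact Or.inl ⟨hAF, h⟩
  have s1 : P2 (fun _ => x) (SR L m) A A ≤
      P2 (fun _ => x) (SR L m) G A + P2 (fun _ => x) (SR L m) Bd A :=
    (D1_mono hρ hcov (fun _ _ h => h)).trans (P2_add_le hρ _ _ _)
  have s2 : P2 (fun _ => x) (SR L m) G A ≤
      P2 (fun _ => x) (SR L m) G G + P2 (fun _ => x) (SR L m) Bd A := by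
    rw [P2_comm]
    refine (D1_mono hρ hcov (fun _ _ h => h)).trans ((P2_add_le hρ _ _ _).trans ?_)
    refine add_le_add le_rfl (D1_mono hρ (fun _ _ h => h) (fun F _ h => h.1))
  have s3 : P2 (fun _ => x) (SR L m) G G ≤
      (((2 * (2 * N + 1)) * (2 * (2 * N + 1)) : ℕ) : ℝ) *
        ∑ p ∈ prs L m (m / M2) N, P2 (fun _ => x) (SR L m) (T p) (T p) := by
    refine (D1_mono hρ (A' := fun F => ∃ p ∈ prs L m (m / M2) N, T p F)
      (B' := fun F => ∃ p ∈ prs L m (m / M2) N, T p F) (fun F _ h => h.2)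
      (fun F _ h => h.2)).trans ((D1_square hρ _ T).trans ?_)
    refine mul_le_mul_of_nonneg_right ?_ (Finset.sum_nonneg fun p _ => D1_nonneg hρ _ _)
    exact_mod_cast prs_card L m (m / M2) N
  have e2 : 1 / (4096 * (L:ℝ) ^ 2) * a42 x (m / 8) =
      a42 x (m / 8) * (1 / (8192 * (L:ℝ) ^ 2)) + a42 x (m / 8) * (1 / (8192 * (L:ℝ) ^ 2)) := by
    field_simp
    ring
  rw [e2]
  linarith

end H389NS
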