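import Pool.Agent.H389R2.NS.Defs
import Pool.Agent.H12R2.Sep.Defs3
import Pool.Agent.H12R2.Sep.RectDual
import Pool.Agent.H12R2.Sep.Key1

/-! Environment: wires from the landing cells of the thin box to the sides of a large box. -/

set_option autoImplicit false

namespace H389NS

open H974 H12S Finset

/-- Height of the row of a wire. -/
def D2_yo (m : ℕ) (σ : Bool) : ℤ := if σ then (m:ℤ) + 1 else -(m:ℤ) - 1

/-- Height of the lower ends of the vertical edges of a wire. -/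
def D2_yv (m : ℕ) (σ : Bool) : ℤ := if σ then (m:ℤ) else -(m:ℤ) - 1

/-- A wire: the vertical edges out of a cell, and the row from `lo` to `hi`. -/
noncomputable def D2_W (m r : ℕ) (σ : Bool) (x lo hi : ℤ) : Finset Edg :=
  (RE lo hi (D2_yo m σ) (D2_yo m σ)) ∪
    (RE (x - r) (x + r) (D2_yv m σ) (D2_yv m σ + 1)).filter (fun e => e.2.2 = false)

theorem mem_D2_W_true {m r : ℕ} {σ : Bool} {x lo hi : ℤ} {u v : ℤ} :
    ((u, v, true) : Edg) ∈ D2_W m r σ x lo hi ↔ lo ≤ u ∧ u < hi ∧ v = D2_yo m σ := by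
  unfold D2_W
  rw [Finset.mem_union, mem_RE_true, Finset.mem_filter]
  simp only [Bool.true_eq_false, and_false, or_false]
  constructor
  · rintro ⟨h1, h2, h3, h4⟩; exact ⟨h1, h2, by omega⟩
  · rintro ⟨h1, h2, h3⟩; exact ⟨h1, h2, by omega, by omega⟩

theorem mem_D2_W_false {m r : ℕ} {σ : Bool} {x lo hi : ℤ} {u v : ℤ} :
    ((u, v, false) : Edg) ∈ D2_W m r σ x lo hi ↔
      x - r ≤ u ∧ u ≤ x + r ∧ v = D2_yv m σ := by
  unfold D2_W
  rw [Finset.mem_union, mem_RE_false, Finset.mem_filter, mem_RE_false]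
  constructor
  · rintro (⟨h1, h2, h3, h4⟩ | ⟨⟨h1, h2, h3, h4⟩, -⟩)
    · omega
    · exact ⟨h1, h2, by omega⟩
  · rintro ⟨h1, h2, h3⟩; exact Or.inr ⟨⟨h1, h2, by omega, by omega⟩, rfl⟩

theorem D2_row {F : Set Edg} {y : ℤ} (n : ℕ) : ∀ {x : ℤ},
    (∀ i : ℤ, x ≤ i → i < x + n → ((i, y, true) : Edg) ∈ F) → Reach F (x, y) (x + n, y) := by
  induction n with
  | zero =>
    intro x _
    have : ((x + ((0:ℕ):ℤ), y) : Vtx) = (x, y) := by simp
    rw [this]
    exact Reach.refl _ _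
  | succ n ih =>
    intro x h
    have h1 : Reach F (x, y) (x + n, y) := ih (fun i hi hi' => h i hi (by push_cast; omega))
    refine h1.trans (Adj.reach ⟨(x + n, y, true), h _ (by omega) (by push_cast; omega),
      Or.inl ⟨rfl, ?_⟩⟩)
    rw [tgt_true]
    push_cast
    congr 1
    ring

theorem D2_row' {F : Set Edg} {y x x' : ℤ} (hx : x ≤ x')
    (h : ∀ i : ℤ, x ≤ i → i < x' → ((i, y, true) : Edg) ∈ F) : Reach F (x, y) (x', y) := by
  have h1 := D2_row (F := F) (y := y) (x' - x).toNat (x := x) (fun i hi hi' => h i hi (by omega))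
  have h2 : x + ((x' - x).toNat : ℤ) = x' := by omega
  rwa [h2] at h1

theorem D2_up {F : Set Edg} {m r : ℕ} {σ : Bool} {x lo hi : ℤ}
    (hF : (↑(D2_W m r σ x lo hi) : Set Edg) ⊆ F) {u : Vtx} (hu : u ∈ cell σ m x r) :
    Reach F u (u.1, D2_yo m σ) := by
  obtain ⟨u1, u2⟩ := u
  rw [mem_cell] at hu
  refine Adj.reach ⟨(u1, D2_yv m σ, false), hF (Finset.mem_coe.2 (mem_D2_W_false.2
    ⟨?_, ?_, rfl⟩)), ?_⟩
  · have := hu.2; simp only at this; omega
  · have := hu.2; simp only at this; omega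
  · rw [src_mk, tgt_false]
    have h1 : u2 = sy σ m := hu.1
    have h2 : sy σ m = if σ then (m:ℤ) else -m := rfl
    rw [h2] at h1
    unfold D2_yv D2_yo
    cases σ
    · right
      simp only [Bool.false_eq_true, if_false] at h1 ⊢
      rw [h1]
      refine ⟨trivial, ?_⟩
      congr 1
      ring
    · left
      simp only [if_true] at h1 ⊢
      rw [h1]
      exact ⟨rfl, trivial⟩

theorem D2_cut {M m r : ℕ} {σ σ' : Bool} {x x' a b : ℤ} (ha : a = M + 1)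
    (h1 : |x| + r ≤ M) (h2 : |x'| + r ≤ M) (hsep : σ = σ' → x + r < x' - r)
    {F : Set Edg} (hF : F ⊆ ↑(RE (-(M:ℤ)) M (-(m:ℤ)) m))
    (hn : ¬ Cn (cell σ m x r) (cell σ' m x' r) F) {u v : Vtx}
    (hu : u ∈ lsd (-a) (-b) b)
    (h : Reach (F ∪ (↑(D2_W m r σ x (-a) (x + r)) ∪ ↑(D2_W m r σ' x' (x' - r) a))) u v) :
    v.1 = -a ∨ (v.2 = D2_yo m σ ∧ -a ≤ v.1 ∧ v.1 ≤ x + r) ∨
      ((-(M:ℤ) ≤ v.1 ∧ v.1 ≤ M ∧ -(m:ℤ) ≤ v.2 ∧ v.2 ≤ m) ∧
        ∃ c ∈ cell σ m x r, Reach F c v) := by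
  have hx := abs_le.1 (show |x| ≤ (M:ℤ) - r by linarith)
  have hx' := abs_le.1 (show |x'| ≤ (M:ℤ) - r by linarith)
  have hyo : D2_yo m σ = if σ then (m:ℤ) + 1 else -(m:ℤ) - 1 := rfl
  have hyo' : D2_yo m σ' = if σ' then (m:ℤ) + 1 else -(m:ℤ) - 1 := rfl
  have hyv : D2_yv m σ = if σ then (m:ℤ) else -(m:ℤ) - 1 := rfl
  have hyv' : D2_yv m σ' = if σ' then (m:ℤ) else -(m:ℤ) - 1 := rfl
  have hsy : ∀ τ : Bool, sy τ m = if τ then (m:ℤ) else -m := fun _ => rfl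
  induction h with
  | refl => exact Or.inl hu.1
  | @tail v w _ hs ih =>
    obtain ⟨e, he, hcase⟩ := hs
    rcases he with he | he | he
    · -- an edge of F
      have heR : e ∈ RE (-(M:ℤ)) M (-(m:ℤ)) m := Finset.mem_coe.1 (hF he)
      have hend : ((-(M:ℤ) ≤ v.1 ∧ v.1 ≤ M ∧ -(m:ℤ) ≤ v.2 ∧ v.2 ≤ m)) ∧
          ((-(M:ℤ) ≤ w.1 ∧ w.1 ≤ M ∧ -(m:ℤ) ≤ w.2 ∧ w.2 ≤ m)) := by
        obtain ⟨p, q, _ | _⟩ := e
        · rw [mem_RE_false] at heR
          rw [src_mk, tgt_false] at hcase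
          rcases hcase with ⟨e1, e2⟩ | ⟨e1, e2⟩ <;> rw [← e1, ← e2] <;> simp only <;> omega
        · rw [mem_RE_true] at heR
          rw [src_mk, tgt_true] at hcase
          rcases hcase with ⟨e1, e2⟩ | ⟨e1, e2⟩ <;> rw [← e1, ← e2] <;> simp only <;> omega
      rcases ih with ih | ih | ⟨-, c, hc, hcv⟩
      · omega
      · rw [hyo] at ih
        split_ifs at ih <;> omega
      · exact Or.inr (Or.inr ⟨hend.2, c, hc, hcv.tail ⟨e, he, hcase⟩⟩)
    · -- an edge of the left wire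
      obtain ⟨p, q, _ | _⟩ := e
      · have he' := mem_D2_W_false.1 (Finset.mem_coe.1 he)
        rw [src_mk, tgt_false] at hcase
        have key : ∀ z : Vtx, z = (p, q) ∨ z = (p, q + 1) → (z.2 = D2_yo m σ ∧ -a ≤ z.1 ∧
            z.1 ≤ x + r) ∨ z ∈ cell σ m x r := by
          intro z hz
          rw [mem_cell, hsy, hyo]
          rw [hyv] at he'
          rcases hz with rfl | rfl <;> simp only <;> split_ifs at he' ⊢ <;> omega
        have hw : w = (p, q) ∨ w = (p, q + 1) := by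
          rcases hcase with ⟨e1, e2⟩ | ⟨e1, e2⟩
          · exact Or.inr e2.symm
          · exact Or.inl e1.symm
        rcases key w hw with h3 | h3
        · exact Or.inr (Or.inl h3)
        · refine Or.inr (Or.inr ⟨?_, w, h3, Reach.refl _ _⟩)
          rw [mem_cell, hsy] at h3
          split_ifs at h3 <;> omega
      · have he' := mem_D2_W_true.1 (Finset.mem_coe.1 he)
        rw [src_mk, tgt_true] at hcase
        right; left
        rcases hcase with ⟨e1, e2⟩ | ⟨e1, e2⟩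
        · rw [← e2]; simp only; omega
        · rw [← e1]; simp only; omega
    · -- an edge of the right wire
      exfalso
      have hv : (v.2 = D2_yo m σ' ∧ x' - r ≤ v.1) ∨ v ∈ cell σ' m x' r := by
        obtain ⟨p, q, _ | _⟩ := e
        · have he' := mem_D2_W_false.1 (Finset.mem_coe.1 he)
          rw [src_mk, tgt_false] at hcase
          have hz : v = (p, q) ∨ v = (p, q + 1) := by
            rcases hcase with ⟨e1, e2⟩ | ⟨e1, e2⟩
            · exact Or.inl e1.symm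
            · exact Or.inr e2.symm
          rw [mem_cell, hsy, hyo']
          rw [hyv'] at he'
          rcases hz with rfl | rfl <;> simp only <;> split_ifs at he' ⊢ <;> omega
        · have he' := mem_D2_W_true.1 (Finset.mem_coe.1 he)
          rw [src_mk, tgt_true] at hcase
          left
          rcases hcase with ⟨e1, e2⟩ | ⟨e1, e2⟩
          · rw [← e1]; simp only; omega
          · rw [← e2]; simp only; omega
      rcases hv with hv | hv
      · rcases ih with ih | ih | ih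
        · omega
        · by_cases hs : σ = σ'
          · have := hsep hs
            omega
          · rw [hyo] at ih
            rw [hyo'] at hv
            cases σ <;> cases σ' <;> simp at hs <;> simp at ih hv <;> omega
        · rw [hyo'] at hv
          split_ifs at hv <;> omega
      · rcases ih with ih | ih | ⟨-, c, hc, hcv⟩
        · rw [mem_cell] at hv; omega
        · rw [mem_cell, hsy] at hv
          rw [hyo] at ih
          split_ifs at hv ih <;> omega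
        · exact hn ⟨c, hc, v, hv, hcv⟩

theorem D2_core {M m r : ℕ} {σ σ' : Bool} {x x' a b : ℤ} (ha : a = M + 1) (hb : b = m + 1)
    (h1 : |x| + r ≤ M) (h2 : |x'| + r ≤ M) (hsep : σ = σ' → x + r < x' - r)
    {F : Set Edg} (hF : F ⊆ ↑(RE (-(M:ℤ)) M (-(m:ℤ)) m)) :
    Cn (lsd (-a) (-b) b) (lsd a (-b) b)
      (F ∪ (↑(D2_W m r σ x (-a) (x + r)) ∪ ↑(D2_W m r σ' x' (x' - r) a))) ↔
    Cn (cell σ m x r) (cell σ' m x' r) F := by
  have hx := abs_le.1 (show |x| ≤ (M:ℤ) - r by linarith)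
  have hx' := abs_le.1 (show |x'| ≤ (M:ℤ) - r by linarith)
  have hyo : D2_yo m σ = if σ then (m:ℤ) + 1 else -(m:ℤ) - 1 := rfl
  have hyo' : D2_yo m σ' = if σ' then (m:ℤ) + 1 else -(m:ℤ) - 1 := rfl
  constructor
  · rintro ⟨u, hu, v, hv, huv⟩
    by_contra hn
    have hv1 : v.1 = a := hv.1
    rcases D2_cut ha h1 h2 hsep hF hn hu huv with h | h | h
    · omega
    · omega
    · omega
  · rintro ⟨u, hu, v, hv, huv⟩
    have hu' := hu
    have hv' := hv
    rw [mem_cell] at hu' hv'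
    refine ⟨(-a, D2_yo m σ), ?_, (a, D2_yo m σ'), ?_, ?_⟩
    · refine ⟨rfl, ?_, ?_⟩ <;> simp only <;> rw [hyo] <;> split_ifs <;> omega
    · refine ⟨rfl, ?_, ?_⟩ <;> simp only <;> rw [hyo'] <;> split_ifs <;> omega
    · have hL : (↑(D2_W m r σ x (-a) (x + r)) : Set Edg) ⊆
          F ∪ (↑(D2_W m r σ x (-a) (x + r)) ∪ ↑(D2_W m r σ' x' (x' - r) a)) :=
        fun z hz => Or.inr (Or.inl hz)
      have hR : (↑(D2_W m r σ' x' (x' - r) a) : Set Edg) ⊆
          F ∪ (↑(D2_W m r σ x (-a) (x + r)) ∪ ↑(D2_W m r σ' x' (x' - r) a)) :=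
        fun z hz => Or.inr (Or.inr hz)
      have r1 : Reach (F ∪ (↑(D2_W m r σ x (-a) (x + r)) ∪ ↑(D2_W m r σ' x' (x' - r) a)))
          (-a, D2_yo m σ) (u.1, D2_yo m σ) := by
        apply D2_row' (by omega)
        intro i hi hi'
        exact hL (Finset.mem_coe.2 (mem_D2_W_true.2 ⟨hi, by omega, rfl⟩))
      have r2 := (D2_up hL hu).symm
      have r3 := huv.mono (show F ⊆ F ∪ (↑(D2_W m r σ x (-a) (x + r)) ∪
        ↑(D2_W m r σ' x' (x' - r) a)) from fun z hz => Or.inl hz)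
      have r4 := D2_up hR hv
      have r5 : Reach (F ∪ (↑(D2_W m r σ x (-a) (x + r)) ∪ ↑(D2_W m r σ' x' (x' - r) a)))
          (v.1, D2_yo m σ') (a, D2_yo m σ') := by
        apply D2_row' (by omega)
        intro i hi hi'
        exact hR (Finset.mem_coe.2 (mem_D2_W_true.2 ⟨by omega, by omega, rfl⟩))
      exact (((r1.trans r2).trans r3).trans r4).trans r5

theorem D2_W_sub {M m r : ℕ} {σ : Bool} {x lo hi a b : ℤ} (ha : a = M + 1) (hb : b = m + 1)
    (h1 : |x| + r ≤ M) (hlo : -a ≤ lo) (hhi : hi ≤ a) :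
    D2_W m r σ x lo hi ⊆ RE (-a) a (-b) b := by
  have hx := abs_le.1 (show |x| ≤ (M:ℤ) - r by linarith)
  have hyo : D2_yo m σ = if σ then (m:ℤ) + 1 else -(m:ℤ) - 1 := rfl
  have hyv : D2_yv m σ = if σ then (m:ℤ) else -(m:ℤ) - 1 := rfl
  rintro ⟨p, q, _ | _⟩ he
  · rw [mem_D2_W_false, hyv] at he
    rw [mem_RE_false]
    split_ifs at he <;> omega
  · rw [mem_D2_W_true, hyo] at he
    rw [mem_RE_true]
    split_ifs at he <;> omega

theorem D2_W_disj {M m r : ℕ} {σ : Bool} {x lo hi : ℤ} :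
    Disjoint (RE (-(M:ℤ)) M (-(m:ℤ)) m) (D2_W m r σ x lo hi) := by
  have hyo : D2_yo m σ = if σ then (m:ℤ) + 1 else -(m:ℤ) - 1 := rfl
  have hyv : D2_yv m σ = if σ then (m:ℤ) else -(m:ℤ) - 1 := rfl
  rw [Finset.disjoint_left]
  rintro ⟨p, q, _ | _⟩ h he
  · rw [mem_D2_W_false, hyv] at he
    rw [mem_RE_false] at h
    split_ifs at he <;> omega
  · rw [mem_D2_W_true, hyo] at he
    rw [mem_RE_true] at h
    split_ifs at he <;> omega

theorem D2_Cn_symm {I J : Set Vtx} {F : Set Edg} : Cn I J F ↔ Cn J I F := by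
  constructor
  · rintro ⟨u, hu, v, hv, h⟩; exact ⟨v, hv, u, hu, h.symm⟩
  · rintro ⟨u, hu, v, hv, h⟩; exact ⟨v, hv, u, hu, h.symm⟩

theorem D2_pack {M m : ℕ} {a b : ℤ} (ha : a = M + 1) (hb : b = m + 1) (hM : m ≤ M)
    {O : Finset Edg} (hO : O ⊆ RE (-a) a (-b) b)
    (hd : Disjoint (RE (-(M:ℤ)) M (-(m:ℤ)) m) O) {I J : Set Vtx}
    (hIJ : (I = lsd (-a) (-b) b ∧ J = lsd a (-b) b) ∨
      (I = lsd a (-b) b ∧ J = lsd (-a) (-b) b)) :
    ∃ (p : Edg → ℝ) (I' J' : Set Vtx), DomN p (RE (-a) a (-b) b) I J I' J' m ∧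
      RE (-(M:ℤ)) M (-(m:ℤ)) m ∪ O ⊆ RE (-a) a (-b) b ∧
      (∀ e ∈ RE (-(M:ℤ)) M (-(m:ℤ)) m, p e = 1 / 2) ∧ (∀ e ∈ O, p e = 1) ∧
      (∀ e ∈ RE (-a) a (-b) b \ (RE (-(M:ℤ)) M (-(m:ℤ)) m ∪ O), p e = 0) := by
  classical
  have hsub : RE (-(M:ℤ)) M (-(m:ℤ)) m ⊆ RE (-a) a (-b) b :=
    RE_subset (by omega) (by omega) (by omega) (by omega)
  have hbox : boxE m ⊆ RE (-(M:ℤ)) M (-(m:ℤ)) m :=
    RE_subset (by omega) (by omega) (by omega) (by omega)
  have hf : ∀ v : Vtx, v ∈ I ∪ J → v.1 = -a ∨ v.1 = a := by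
    intro v hv
    rcases hIJ with ⟨h1, h2⟩ | ⟨h1, h2⟩
    · rw [h1, h2] at hv
      rcases hv with hv | hv
      · exact Or.inl hv.1
      · exact Or.inr hv.1
    · rw [h1, h2] at hv
      rcases hv with hv | hv
      · exact Or.inr hv.1
      · exact Or.inl hv.1
  refine ⟨fun e => if e ∈ RE (-(M:ℤ)) M (-(m:ℤ)) m then 1 / 2 else if e ∈ O then 1 else 0,
    {v | v.2 = -b - 1}, {v | v.2 = b}, ⟨?_, hbox.trans hsub, ?_, ?_, ?_, ?_⟩,
    Finset.union_subset hsub hO, ?_, ?_, ?_⟩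
  · intro e
    simp only
    split_ifs <;> norm_num
  · intro e he
    exact if_pos (hbox he)
  · have h := rect_dual (a := -a) (b := a) (c := -b) (d := b) (by omega) (by omega)
    rcases hIJ with ⟨h1, h2⟩ | ⟨h1, h2⟩
    · rw [h1, h2]; exact h
    · rw [h1, h2]
      intro G hG
      rw [D2_Cn_symm]
      exact h G hG
  · intro v hv
    left
    rcases hf v hv with h | h <;> rw [h] <;> simp only [sub_zero]
    · rw [abs_neg, abs_of_nonneg (by omega)]; omega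
    · rw [abs_of_nonneg (by omega)]; omega
  · intro v hv
    right
    have h : v.2 = -b - 1 ∨ v.2 = b := hv
    push_cast
    rcases h with h | h <;> rw [h] <;> simp only [sub_zero]
    · rw [abs_of_nonpos (by omega)]; omega
    · rw [abs_of_nonneg (by omega)]; omega
  · intro e he
    simp only
    rw [if_pos he]
  · intro e he
    simp only
    rw [if_neg (fun h => (Finset.disjoint_left.1 hd) h he), if_pos he]
  · intro e he
    rw [Finset.mem_sdiff, Finset.mem_union, not_or] at he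
    simp only
    rw [if_neg he.2.1, if_neg he.2.2]

/-- D2b: the same for pivotal blocks. -/
theorem env_blk {L m r ρ : ℕ} (hL : 2 ≤ L) (hr : 1 ≤ r) (hρ : 8 * r ≤ ρ) (hm : 64 * ρ ≤ m)
    (σ σ' : Bool) (k k' : ℤ) (hk : |2 * (r:ℤ) * k| ≤ (L * m : ℕ) + (r:ℤ))
    (hk' : |2 * (r:ℤ) * k'| ≤ (L * m : ℕ) + (r:ℤ))
    (hfar : σ = σ' → 4 * (r:ℤ) < |2 * (r:ℤ) * k - 2 * (r:ℤ) * k'|) :
    ∃ (p : Edg → ℝ) (S O : Finset Edg) (I J I' J' : Set Vtx), DomN p S I J I' J' m ∧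
      SR L m ∪ O ⊆ S ∧ Disjoint (SR L m) O ∧ (∀ e ∈ SR L m, p e = 1 / 2) ∧ (∀ e ∈ O, p e = 1) ∧
      (∀ e ∈ S \ (SR L m ∪ O), p e = 0) ∧
      ∀ F : Set Edg, F ⊆ ↑(SR L m) →
        (Cn I J (F ∪ ↑O) ↔ Cn (cell σ m (2 * r * k) r) (cell σ' m (2 * r * k') r) F) := by
  have hLm : m * 2 ≤ L * m := by rw [mul_comm m 2]; exact Nat.mul_le_mul_right m hL
  have hM : m ≤ 2 * L * m := by
    calc m ≤ L * m := by omega
      _ ≤ 2 * L * m := by rw [mul_assoc]; omega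
  have hMe : ((2 * L * m : ℕ) : ℤ) = 2 * ((L * m : ℕ) : ℤ) := by push_cast; ring
  have h1 : |2 * (r:ℤ) * k| + r ≤ (2 * L * m : ℕ) := by
    rw [hMe]; omega
  have h2 : |2 * (r:ℤ) * k'| + r ≤ (2 * L * m : ℕ) := by
    rw [hMe]; omega
  have hSR : SR L m = RE (-((2 * L * m : ℕ):ℤ)) (2 * L * m : ℕ) (-(m:ℤ)) m := rfl
  rw [hSR]
  generalize hMM : 2 * L * m = M at *
  generalize hX : 2 * (r:ℤ) * k = X at *
  generalize hX' : 2 * (r:ℤ) * k' = X' at *
  obtain ⟨a, ha⟩ : ∃ a : ℤ, a = M + 1 := ⟨_, rfl⟩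
  obtain ⟨b, hb⟩ : ∃ b : ℤ, b = m + 1 := ⟨_, rfl⟩
  have hx := abs_le.1 (show |X| ≤ (M:ℤ) - r by linarith)
  have hx' := abs_le.1 (show |X'| ≤ (M:ℤ) - r by linarith)
  by_cases hc : σ = σ' ∧ X' < X
  · -- the second cell is on the left
    obtain ⟨hs, hlt⟩ := hc
    have hsep : X' + r < X - r := by
      have h := hfar hs
      rw [abs_of_pos (by omega)] at h
      omega
    obtain ⟨p, I', J', hdom, hsub, hp1, hp2, hp3⟩ := D2_pack (M := M) (m := m) ha hb hM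
      (O := D2_W m r σ' X' (-a) (X' + r) ∪ D2_W m r σ X (X - r) a)
      (Finset.union_subset (D2_W_sub ha hb h2 le_rfl (by omega))
        (D2_W_sub ha hb h1 (by omega) le_rfl))
      (Finset.disjoint_union_right.2 ⟨D2_W_disj, D2_W_disj⟩) (Or.inr ⟨rfl, rfl⟩)
    refine ⟨p, RE (-a) a (-b) b, _, _, _, I', J', hdom, hsub,
      Finset.disjoint_union_right.2 ⟨D2_W_disj, D2_W_disj⟩, hp1, hp2, hp3, ?_⟩
    intro F hF
    rw [Finset.coe_union, D2_Cn_symm, D2_core ha hb h2 h1 (fun _ => hsep) hF]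
    exact D2_Cn_symm
  · have hsep : σ = σ' → X + r < X' - r := by
      intro hs
      have h := hfar hs
      have h3 : X ≤ X' := not_lt.1 (fun h4 => hc ⟨hs, h4⟩)
      rw [abs_of_nonpos (by omega)] at h
      omega
    obtain ⟨p, I', J', hdom, hsub, hp1, hp2, hp3⟩ := D2_pack (M := M) (m := m) ha hb hM
      (O := D2_W m r σ X (-a) (X + r) ∪ D2_W m r σ' X' (X' - r) a)
      (Finset.union_subset (D2_W_sub ha hb h1 le_rfl (by omega))
        (D2_W_sub ha hb h2 (by omega) le_rfl))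
      (Finset.disjoint_union_right.2 ⟨D2_W_disj, D2_W_disj⟩) (Or.inl ⟨rfl, rfl⟩)
    refine ⟨p, RE (-a) a (-b) b, _, _, _, I', J', hdom, hsub,
      Finset.disjoint_union_right.2 ⟨D2_W_disj, D2_W_disj⟩, hp1, hp2, hp3, ?_⟩
    intro F hF
    rw [Finset.coe_union, D2_core ha hb h1 h2 hsep hF]

/-- D2 -/
theorem env_rect {L m r ρ : ℕ} (hL : 2 ≤ L) (hr : 1 ≤ r) (hρ : 8 * r ≤ ρ) (hm : 64 * ρ ≤ m)
    (σ σ' : Bool) (k k' : ℤ) (hk : |2 * (r:ℤ) * k| ≤ (L * m : ℕ) + (r:ℤ))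
    (hk' : |2 * (r:ℤ) * k'| ≤ (L * m : ℕ) + (r:ℤ)) :
    ∃ (p : Edg → ℝ) (S O : Finset Edg) (I J I' J' : Set Vtx), DomN p S I J I' J' m ∧
      SR L m ∪ O ⊆ S ∧ Disjoint (SR L m) O ∧ (∀ e ∈ SR L m, p e = 1 / 2) ∧ (∀ e ∈ O, p e = 1) ∧
      (∀ e ∈ S \ (SR L m ∪ O), p e = 0) ∧
      ∀ e ∈ SR L m, ∀ F : Finset Edg, F ⊆ SR L m →
        Sev L m r ρ σ (2 * r * k) σ' (2 * r * k') e ↑F → Pv I J e (↑(F ∪ O) : Set Edg) := by
  by_cases hfar : σ = σ' → 4 * (r:ℤ) < |2 * (r:ℤ) * k - 2 * (r:ℤ) * k'|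
  · obtain ⟨p, S, O, I, J, I', J', hdom, hsub, hd, hp1, hp2, hp3, hF⟩ :=
      env_blk hL hr hρ hm σ σ' k k' hk hk' hfar
    refine ⟨p, S, O, I, J, I', J', hdom, hsub, hd, hp1, hp2, hp3, ?_⟩
    intro e he F hFs hS
    have hP := Qev_Pv (show r ≤ 2 * ρ by omega) hS.1
    have heO : e ∉ O := fun h => (Finset.disjoint_left.1 hd) he h
    refine ⟨?_, ?_⟩
    · have h1 : (insert e (↑(F ∪ O) : Set Edg)) = (insert e (↑F : Set Edg)) ∪ ↑O := by
        rw [Finset.coe_union, Set.insert_union]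
      rw [h1, hF _ (Set.insert_subset (Finset.mem_coe.2 he) (Finset.coe_subset.2 hFs))]
      exact hP.1
    · have h1 : ((↑(F ∪ O) : Set Edg) \ {e}) = ((↑F : Set Edg) \ {e}) ∪ ↑O := by
        ext z
        simp only [Finset.coe_union, Set.mem_sdiff, Set.mem_union, Finset.mem_coe,
          Set.mem_singleton_iff]
        constructor
        · rintro ⟨h2 | h2, h3⟩
          · exact Or.inl ⟨h2, h3⟩
          · exact Or.inr h2
        · rintro (⟨h2, h3⟩ | h2)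
          · exact ⟨Or.inl h2, h3⟩
          · exact ⟨Or.inr h2, fun h3 => heO (h3 ▸ h2)⟩
      rw [h1, hF _ (Set.sdiff_subset.trans (Finset.coe_subset.2 hFs))]
      exact hP.2
  · rw [Classical.not_imp, not_lt] at hfar
    obtain ⟨hs, hle⟩ := hfar
    have hLm : m * 2 ≤ L * m := by rw [mul_comm m 2]; exact Nat.mul_le_mul_right m hL
    have hM : m ≤ 2 * L * m := by
      calc m ≤ L * m := by omega
        _ ≤ 2 * L * m := by rw [mul_assoc]; omega
    obtain ⟨p, I', J', hdom, hsub, hp1, hp2, hp3⟩ := D2_pack (M := 2 * L * m) (m := m) rfl rfl hM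
      (O := ∅) (Finset.empty_subset _) (Finset.disjoint_empty_right _) (Or.inl ⟨rfl, rfl⟩)
    refine ⟨p, _, ∅, _, _, I', J', hdom, hsub, Finset.disjoint_empty_right _, hp1, hp2, hp3, ?_⟩
    intro e _ F _ hS
    exfalso
    obtain ⟨⟨u, hu, -⟩, -, h3, -⟩ := hS.1
    refine h3 u hu u ?_ (Reach.refl _ _)
    rw [mem_cell] at hu ⊢
    rw [hs] at hu
    have h4 := abs_le.1 hle
    push_cast
    refine ⟨hu.1, ?_, ?_⟩ <;> omega

end H389NS
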