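import Pool.Agent.H389R2.NS.FewBase
import Pool.Agent.H12R2.Sep.Win2
import Pool.Agent.H12R2.Sep.WinHalf

/-! The exploration of a box from outside (P8b). -/

set_option autoImplicit false

namespace H389NS

open H974 H12S Finset

namespace FI708

/-- outside of the open square of radius `ρ` -/
def Out (ρ : ℕ) (v : Vtx) : Prop :=
  v.1 ≤ -(ρ:ℤ) ∨ (ρ:ℤ) ≤ v.1 ∨ v.2 ≤ -(ρ:ℤ) ∨ (ρ:ℤ) ≤ v.2

/-- joined to the outside -/
def Kc (ρ : ℕ) (Y : Finset Edg) (v : Vtx) : Prop := ∃ w, Out ρ w ∧ Reach (↑Y : Set Edg) w v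

/-- the revealed set -/
noncomputable def Rv (ρ b : ℕ) (Y : Finset Edg) : Finset Edg := by
  classical exact (boxE ρ).filter (fun e => ∃ e' ∈ boxE ρ, cel b e' = cel b e ∧
    (Kc ρ Y (src e') ∨ Kc ρ Y (tgt e')))

theorem mem_Rv {ρ b : ℕ} {Y : Finset Edg} {e : Edg} : e ∈ Rv ρ b Y ↔ e ∈ boxE ρ ∧
    ∃ e' ∈ boxE ρ, cel b e' = cel b e ∧ (Kc ρ Y (src e') ∨ Kc ρ Y (tgt e')) := by
  classical
  unfold Rv
  simp only [Finset.mem_filter]

theorem out_of_notMem {ρ : ℕ} {e : Edg} (he : e ∉ boxE ρ) : Out ρ (src e) ∧ Out ρ (tgt e) := by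
  obtain ⟨x, y, _ | _⟩ := e
  · unfold boxE at he
    rw [mem_RE_false] at he
    unfold Out
    simp only [src_mk, tgt_false]
    omega
  · unfold boxE at he
    rw [mem_RE_true] at he
    unfold Out
    simp only [src_mk, tgt_true]
    omega

theorem Kc_out {ρ : ℕ} {Y : Finset Edg} {v : Vtx} (h : Out ρ v) : Kc ρ Y v :=
  ⟨v, h, Reach.refl _ _⟩

/-- an edge of `Y` with an end in the explored cluster is revealed -/
theorem mem_Rv_of {ρ b : ℕ} {Y : Finset Edg} {e : Edg} {u u' : Vtx} (he : e ∈ boxE ρ)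
    (hK : Kc ρ Y u) (h : (src e = u ∧ tgt e = u') ∨ (src e = u' ∧ tgt e = u)) :
    e ∈ Rv ρ b Y := by
  rw [mem_Rv]
  refine ⟨he, e, he, rfl, ?_⟩
  rcases h with ⟨h, -⟩ | ⟨-, h⟩
  · left; rw [h]; exact hK
  · right; rw [h]; exact hK

theorem Kc_step {ρ : ℕ} {Y : Finset Edg} {e : Edg} {u u' : Vtx} (he : e ∈ Y) (hK : Kc ρ Y u)
    (h : (src e = u ∧ tgt e = u') ∨ (src e = u' ∧ tgt e = u)) : Kc ρ Y u' := by
  obtain ⟨w, hw, hr⟩ := hK
  exact ⟨w, hw, hr.trans (Relation.ReflTransGen.single ⟨e, by exact_mod_cast he, h⟩)⟩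

theorem Kc_eq {ρ b : ℕ} {Y Y' : Finset Edg} (hY : Y ⊆ boxE ρ) (hY' : Y' ⊆ boxE ρ)
    (h : Y ∩ Rv ρ b Y = Y' ∩ Rv ρ b Y) (v : Vtx) : Kc ρ Y' v ↔ Kc ρ Y v := by
  constructor
  · rintro ⟨w, hw, hr⟩
    induction hr with
    | refl => exact Kc_out hw
    | @tail u u' _ hs ih =>
      obtain ⟨e, he, hc⟩ := hs
      have he' : e ∈ Y' := by exact_mod_cast he
      have h1 : e ∈ Rv ρ b Y := mem_Rv_of (hY' he') ih hc
      have h2 : e ∈ Y ∩ Rv ρ b Y := by rw [h]; exact Finset.mem_inter.mpr ⟨he', h1⟩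
      exact Kc_step (Finset.mem_inter.mp h2).1 ih hc
  · rintro ⟨w, hw, hr⟩
    have key : Kc ρ Y v ∧ Kc ρ Y' v := by
      induction hr with
      | refl => exact ⟨Kc_out hw, Kc_out hw⟩
      | @tail u u' _ hs ih =>
        obtain ⟨e, he, hc⟩ := hs
        have he' : e ∈ Y := by exact_mod_cast he
        have h1 : e ∈ Rv ρ b Y := mem_Rv_of (hY he') ih.1 hc
        have h2 : e ∈ Y' ∩ Rv ρ b Y := by rw [← h]; exact Finset.mem_inter.mpr ⟨he', h1⟩
        exact ⟨Kc_step he' ih.1 hc, Kc_step (Finset.mem_inter.mp h2).1 ih.2 hc⟩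
    exact key.2

theorem Rv_eq {ρ b : ℕ} {Y Y' : Finset Edg} (hY : Y ⊆ boxE ρ) (hY' : Y' ⊆ boxE ρ)
    (h : Y ∩ Rv ρ b Y = Y' ∩ Rv ρ b Y) : Rv ρ b Y' = Rv ρ b Y := by
  ext e
  rw [mem_Rv, mem_Rv]
  constructor
  · rintro ⟨h1, e', h2, h3, h4⟩
    refine ⟨h1, e', h2, h3, ?_⟩
    rw [← Kc_eq hY hY' h, ← Kc_eq hY hY' h]
    exact h4
  · rintro ⟨h1, e', h2, h3, h4⟩
    refine ⟨h1, e', h2, h3, ?_⟩
    rw [Kc_eq hY hY' h, Kc_eq hY hY' h]
    exact h4

theorem cn_imp {ρ b : ℕ} {Y Y' G : Finset Edg} {I J : Set Vtx} (hI : ∀ v ∈ I, Out ρ v)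
    (hY : Y ⊆ boxE ρ) (hG : ∀ e ∈ G, e ∉ boxE ρ) (h : Y ∩ Rv ρ b Y = Y' ∩ Rv ρ b Y)
    (hc : Cn I J (↑(G ∪ Y) : Set Edg)) : Cn I J (↑(G ∪ Y') : Set Edg) := by
  obtain ⟨u, hu, v, hv, hr⟩ := hc
  refine ⟨u, hu, v, hv, ?_⟩
  have key : Kc ρ Y v ∧ Reach (↑(G ∪ Y') : Set Edg) u v := by
    clear hv
    induction hr with
    | refl => exact ⟨Kc_out (hI u hu), Reach.refl _ _⟩
    | @tail x x' _ hs ih =>
      obtain ⟨e, he, hcc⟩ := hs
      have he' : e ∈ G ∪ Y := by exact_mod_cast he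
      rcases Finset.mem_union.mp he' with he' | he'
      · have h1 := out_of_notMem (hG e he')
        have hx' : Out ρ x' := by
          rcases hcc with ⟨-, h2⟩ | ⟨h2, -⟩
          · rw [← h2]; exact h1.2
          · rw [← h2]; exact h1.1
        refine ⟨Kc_out hx', ih.2.trans (Relation.ReflTransGen.single ⟨e, ?_, hcc⟩)⟩
        rw [Finset.mem_coe, Finset.mem_union]
        left; exact he'
      · have h1 : e ∈ Rv ρ b Y := mem_Rv_of (hY he') ih.1 hcc
        have h2 : e ∈ Y' ∩ Rv ρ b Y := by rw [← h]; exact Finset.mem_inter.mpr ⟨he', h1⟩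
        refine ⟨Kc_step he' ih.1 hcc, ih.2.trans (Relation.ReflTransGen.single ⟨e, ?_, hcc⟩)⟩
        rw [Finset.mem_coe, Finset.mem_union]
        right; exact (Finset.mem_inter.mp h2).1
  exact key.2

/-- a revealed cell gives a crossing -/
theorem crs_of {ρ m b : ℕ} (hb : 1 ≤ b) {Y : Finset Edg} {e e' : Edg}
    (he : e ∈ boxE m) (hmρ : m ≤ ρ) (hcel : cel b e' = cel b e)
    (hK : Kc ρ Y (src e') ∨ Kc ρ Y (tgt e')) :
    Crs e.1 e.2.1 b (ρ - m) (↑Y : Set Edg) := by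
  have hb' : (0:ℤ) < b := by exact_mod_cast hb
  obtain ⟨x, y, d⟩ := e
  obtain ⟨x', y', d'⟩ := e'
  unfold cel at hcel
  simp only [Prod.mk.injEq] at hcel
  have h1 : |x' - x| < b := by
    have a1 := Int.emod_add_mul_ediv x' b
    have a2 := Int.emod_add_mul_ediv x b
    have a3 := Int.emod_nonneg x' hb'.ne'
    have a4 := Int.emod_nonneg x hb'.ne'
    have a5 := Int.emod_lt_of_pos x' hb'
    have a6 := Int.emod_lt_of_pos x hb'
    rw [hcel.1] at a1
    rw [abs_lt]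
    constructor <;> linarith
  have h2 : |y' - y| < b := by
    have a1 := Int.emod_add_mul_ediv y' b
    have a2 := Int.emod_add_mul_ediv y b
    have a3 := Int.emod_nonneg y' hb'.ne'
    have a4 := Int.emod_nonneg y hb'.ne'
    have a5 := Int.emod_lt_of_pos y' hb'
    have a6 := Int.emod_lt_of_pos y hb'
    rw [hcel.2] at a1
    rw [abs_lt]
    constructor <;> linarith
  rw [abs_lt] at h1 h2
  have hx : -(m:ℤ) ≤ x ∧ x ≤ m ∧ -(m:ℤ) ≤ y ∧ y ≤ m := by
    unfold boxE at he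
    cases d
    · rw [mem_RE_false] at he; omega
    · rw [mem_RE_true] at he; omega
  have hsub : ((ρ - m : ℕ) : ℤ) = ρ - m := by omega
  have fin : ∀ z : Vtx, inR (x - b) (x + b) (y - b) (y + b) z → Kc ρ Y z →
      Crs x y b (ρ - m) (↑Y : Set Edg) := by
    rintro z hz ⟨w, hw, hr⟩
    refine ⟨z, w, hz, ?_, hr.symm⟩
    unfold Out at hw
    rw [hsub]
    omega
  rcases hK with hK | hK
  · refine fin _ ?_ hK
    unfold inR
    simp only [src_mk]
    omega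
  · refine fin _ ?_ hK
    unfold inR
    cases d'
    · simp only [tgt_false]; omega
    · simp only [tgt_true]; omega

end FI708

open FI708

/-- P8b -/
theorem few_inner' : ∃ C c : ℝ, 0 < C ∧ 0 < c ∧ ∀ (p : Edg → ℝ) (S : Finset Edg)
    (I J : Set Vtx) (ρ m b j : ℕ), Ok p → boxE ρ ⊆ S → (∀ e ∈ boxE ρ, p e = 1 / 2) →
      FarS (I ∪ J) (0, 0) ρ → 1 ≤ b → 1 ≤ j → m + 8 * b ≤ ρ →
      ∑ T ∈ (boxE m).powerset.filter (fun T => (T.image (cel b)).card = j),
          sp p S (boxE ρ) (fC I J) T ≤ C * j * ((b:ℝ) / (ρ - m)) ^ c := by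
  classical
  obtain ⟨κ, hκ, hwin⟩ := win_half
  obtain ⟨C, c, hC, hc, harm⟩ := win_arm_of (fun {_ _ _} h {_} h1 h2 c1 c2 S =>
    win_blk h h1 h2 c1 c2 S) κ hκ
  refine ⟨C, c, hC, hc, ?_⟩
  intro p S I J ρ m b j hpok hS _ hfar hb hj hmρ
  have hmρ' : m ≤ ρ := by omega
  set V : Finset Edg := boxE ρ with hV
  set 𝓕 := (boxE m).powerset.filter (fun T => (T.image (cel b)).card = j) with h𝓕
  set δ : ℝ := C * j * ((b:ℝ) / (ρ - m)) ^ c with hδ
  have hRsub : ((ρ - m : ℕ) : ℝ) = (ρ:ℝ) - m := by rw [Nat.cast_sub hmρ']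
  have hpos : 0 ≤ ((b:ℝ) / (ρ - m)) ^ c := by
    apply Real.rpow_nonneg
    apply div_nonneg (by positivity)
    rw [← hRsub]; positivity
  have hδ0 : 0 ≤ δ := by positivity
  have hI : ∀ v ∈ I ∪ J, Out ρ v := by
    intro v hv
    have h1 := hfar v hv
    simp only [sub_zero, le_abs] at h1
    unfold Out
    omega
  -- the probability of revealing a cell
  have hprob : ∀ T ∈ 𝓕, Pr hp V (fun Y => ¬ Disjoint T (Rv ρ b Y)) ≤ δ := by
    intro T hT
    rw [h𝓕, Finset.mem_filter, Finset.mem_powerset] at hT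
    obtain ⟨hTm, hTj⟩ := hT
    have hrep : ∀ z ∈ T.image (cel b), ∃ e ∈ T, cel b e = z := fun z hz => Finset.mem_image.mp hz
    choose! rep hrepT hrepc using hrep
    have hok : Ok (hp : Edg → ℝ) := fun e => by unfold hp; norm_num
    have h1 : Pr hp V (fun Y => ¬ Disjoint T (Rv ρ b Y)) ≤
        ∑ z ∈ T.image (cel b), Pr hp V (fun Y => Crs (rep z).1 (rep z).2.1 b (ρ - m)
          (↑Y : Set Edg)) := by
      unfold Pr
      rw [← Ex_sum]
      apply Ex_mono hok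
      intro Y hY
      by_cases hd : Disjoint T (Rv ρ b Y)
      · rw [ind_not_of (not_not.mpr hd)]
        exact Finset.sum_nonneg (fun z _ => ind_nonneg _)
      · rw [ind_of hd]
        rw [Finset.not_disjoint_iff] at hd
        obtain ⟨e, heT, heR⟩ := hd
        rw [mem_Rv] at heR
        obtain ⟨-, e', -, hcel, hK⟩ := heR
        have hz : cel b e ∈ T.image (cel b) := Finset.mem_image_of_mem _ heT
        have hcrs : Crs (rep (cel b e)).1 (rep (cel b e)).2.1 b (ρ - m) (↑Y : Set Edg) :=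
          crs_of hb (hTm (hrepT _ hz)) hmρ' (hcel.trans (hrepc _ hz).symm) hK
        calc (1:ℝ) = ind (Crs (rep (cel b e)).1 (rep (cel b e)).2.1 b (ρ - m)
              (↑Y : Set Edg)) := (ind_of hcrs).symm
          _ ≤ _ := Finset.single_le_sum (f := fun z => ind (Crs (rep z).1 (rep z).2.1 b (ρ - m)
              (↑Y : Set Edg))) (fun z _ => ind_nonneg _) hz
    refine h1.trans ?_
    have h2 : ∀ z ∈ T.image (cel b), Pr hp V (fun Y => Crs (rep z).1 (rep z).2.1 b (ρ - m)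
          (↑Y : Set Edg)) ≤ C * ((b:ℝ) / (ρ - m)) ^ c := by
      intro z _
      have h3 := (harm (1/2) (ρ - m) (hwin (ρ - m)) b (ρ - m) hb (by omega) le_rfl
        (rep z).1 (rep z).2.1 V).1
      rw [hRsub] at h3
      exact h3
    refine (Finset.sum_le_sum h2).trans ?_
    rw [Finset.sum_const, hTj, nsmul_eq_mul, hδ]
    apply le_of_eq
    ring
  -- Schramm-Steif for a fixed configuration outside
  have hmain : ∀ G : Finset Edg, G ⊆ S \ V →
      ∑ T ∈ 𝓕, (wal V (fun Y => fC I J (G ∪ Y)) T) ^ 2 ≤ δ := by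
    intro G hG
    have hG' : ∀ e ∈ G, e ∉ boxE ρ := fun e he => (Finset.mem_sdiff.mp (hG he)).2
    refine schramm_steif (f := fun Y => fC I J (G ∪ Y)) ?_ (cel b) (Rv ρ b) ?_ ?_ ?_ ?_ hj ?_
      hδ0 hprob
    · intro F _
      unfold fC
      rw [abs_of_nonneg (ind_nonneg _)]
      exact ind_le_one _
    · intro Y _ e he
      exact (mem_Rv.mp he).1
    · intro Y _ e he e' he' hcel
      rw [mem_Rv] at he ⊢
      obtain ⟨-, e'', h1, h2, h3⟩ := he
      exact ⟨he', e'', h1, h2.trans hcel.symm, h3⟩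
    · intro Y Y' hY hY' h
      exact Rv_eq hY hY' h
    · intro Y Y' hY hY' h
      show ind _ = ind _
      apply ind_congr
      constructor
      · intro h1
        have h2 : Y' ∩ Rv ρ b Y' = Y ∩ Rv ρ b Y' := by
          rw [Rv_eq hY hY' h, h]
        exact cn_imp (fun v hv => hI v (Or.inl hv)) hY' hG' h2 h1
      · intro h1
        exact cn_imp (fun v hv => hI v (Or.inl hv)) hY hG' h h1
    · intro T hT
      rw [h𝓕, Finset.mem_filter, Finset.mem_powerset] at hT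
      exact ⟨hT.1.trans (boxE_mono hmρ'), hT.2⟩
  unfold sp
  rw [← Ex_sum]
  exact Ex_le_of_le hpok hmain

end H389NS
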