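import Pool.Agent.H389R2.NS.FewBase
import Pool.Agent.H389R2.NS.FewInner

/-! The spectral sample does not hit few cells. (`cel`, `sp_outer` and the reduction
`few_cells_of` are in `FewBase.lean`, `few_inner'` in `FewInner.lean`.) -/

set_option autoImplicit false

namespace H389NS

open H974 H12S Finset

/-- P8b: the exploration from outside of a box: spectral sets with exactly `j` cells, inside the
box of radius `m`, for the box of radius `ρ`. -/
theorem few_inner : ∃ C c : ℝ, 0 < C ∧ 0 < c ∧ ∀ (p : Edg → ℝ) (S : Finset Edg)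
    (I J : Set Vtx) (ρ m b j : ℕ), Ok p → boxE ρ ⊆ S → (∀ e ∈ boxE ρ, p e = 1 / 2) →
      FarS (I ∪ J) (0, 0) ρ → 1 ≤ b → 1 ≤ j → m + 8 * b ≤ ρ →
      ∑ T ∈ (boxE m).powerset.filter (fun T => (T.image (cel b)).card = j),
          sp p S (boxE ρ) (fC I J) T ≤ C * j * ((b:ℝ) / (ρ - m)) ^ c := few_inner'

/-- P8 -/
theorem few_cells : ∃ C c : ℝ, 0 < C ∧ 0 < c ∧ ∀ (n b J : ℕ), 1 ≤ n → 1 ≤ b → 1 ≤ J →
      ∀ (p : Edg → ℝ) (S : Finset Edg) (I J1 I' J' : Set Vtx), DomN p S I J1 I' J' n →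
      ∑ T ∈ (boxE n).powerset.filter (fun T => ¬ Disjoint T (boxE (n / 2)) ∧
          ((T ∩ boxE (3 * n / 4)).image (cel b)).card ≤ J),
          sp p S (boxE n) (fC I J1) T ≤ C * (J:ℝ) ^ 3 * ((J:ℝ) * b / n) ^ c :=
  few_cells_of few_inner

end H389NS
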