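import Pool.Agent.H389R2.NS.Defs

/-! Many blocks. -/

set_option autoImplicit false

namespace H389NS

open H974 H12S Finset

variable {E : Type*} [DecidableEq E]

theorem mb_avg (U S : Finset E) (hS : S ⊆ U) {p r : ℝ} (h : p + r = 1) :
    ∑ W ∈ U.powerset, (if Disjoint W S then p ^ W.card * r ^ (U.card - W.card) else 0) =
      r ^ S.card := by
  classical
  rw [← Finset.sum_filter]
  have e : U.powerset.filter (fun W => Disjoint W S) = (U \ S).powerset := by
    ext W
    simp only [Finset.mem_filter, Finset.mem_powerset]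
    constructor
    · rintro ⟨h1, h2⟩
      exact Finset.subset_sdiff.mpr ⟨h1, h2⟩
    · intro h1
      exact Finset.subset_sdiff.mp h1
  rw [e]
  have hc : (U \ S).card = U.card - S.card := Finset.card_sdiff_of_subset hS
  have hle : S.card ≤ U.card := Finset.card_le_card hS
  calc ∑ W ∈ (U \ S).powerset, p ^ W.card * r ^ (U.card - W.card)
      = ∑ W ∈ (U \ S).powerset, r ^ S.card * (p ^ W.card * r ^ ((U \ S).card - W.card)) := by
        refine Finset.sum_congr rfl (fun W hW => ?_)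
        have hW2 : W.card ≤ (U \ S).card := Finset.card_le_card (Finset.mem_powerset.mp hW)
        have : U.card - W.card = S.card + ((U \ S).card - W.card) := by omega
        rw [this, pow_add]
        ring
    _ = r ^ S.card := by
        rw [← Finset.mul_sum, Finset.sum_pow_mul_eq_add_pow, h, one_pow, mul_one]

theorem mb_half {K : ℝ} (hK : 1 ≤ K) (m : ℕ) (hm : K ≤ (m : ℝ)) : (1 - 1 / K) ^ m ≤ 1 / 2 := by
  have hK0 : 0 < K := by linarith
  have h1 : 1 - 1 / K ≤ Real.exp (-(1 / K)) := by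
    have := Real.add_one_le_exp (-(1 / K))
    linarith
  have h0 : 0 ≤ 1 - 1 / K := by
    have : 1 / K ≤ 1 := by
      rw [div_le_one hK0]; exact hK
    linarith
  calc (1 - 1 / K) ^ m ≤ (Real.exp (-(1 / K))) ^ m := pow_le_pow_left₀ h0 h1 m
    _ = Real.exp (-(m / K)) := by
        rw [← Real.exp_nat_mul]
        congr 1
        ring
    _ ≤ Real.exp (-1) := by
        apply Real.exp_le_exp.mpr
        have : 1 ≤ (m : ℝ) / K := by
          rw [le_div_iff₀ hK0]; linarith
        linarith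
    _ ≤ 1 / 2 := by
        have h2 : (2 : ℝ) ≤ Real.exp 1 := by
          have := Real.add_one_le_exp (1 : ℝ)
          linarith
        rw [Real.exp_neg, one_div]
        exact inv_anti₀ (by norm_num) h2

theorem mb_tel {ι : Type*} [DecidableEq ι] (Z : Finset ι) (m : ι → ℕ) {r : ℝ} (h0 : 0 ≤ r)
    (h1 : r ≤ 1) (N : ℕ) (hN : ∑ j ∈ Z, m j ≤ N) :
    ∑ j ∈ Z, (r ^ (N - m j) - r ^ N) ≤ 1 - r ^ (∑ j ∈ Z, m j) := by
  induction Z using Finset.induction_on with
  | empty => simp
  | insert a Z ha ih =>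
    rw [Finset.sum_insert ha] at hN
    rw [Finset.sum_insert ha, Finset.sum_insert ha]
    have ih' := ih (by omega)
    have e1 : r ^ N = r ^ (N - m a) * r ^ (m a) := by
      rw [← pow_add]
      congr 1
      omega
    have e2 : r ^ (N - m a) ≤ r ^ (∑ j ∈ Z, m j) :=
      pow_le_pow_of_le_one h0 h1 (by omega)
    have e3 : r ^ (m a) ≤ 1 := pow_le_one₀ h0 h1
    have e4 : r ^ (m a + ∑ j ∈ Z, m j) = r ^ (∑ j ∈ Z, m j) * r ^ (m a) := by
      rw [pow_add, mul_comm]
    have e5 : r ^ (N - m a) - r ^ N ≤ r ^ (∑ j ∈ Z, m j) - r ^ (∑ j ∈ Z, m j) * r ^ (m a) := by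
      rw [e1]
      have : r ^ (N - m a) * (1 - r ^ (m a)) ≤ r ^ (∑ j ∈ Z, m j) * (1 - r ^ (m a)) :=
        mul_le_mul_of_nonneg_right e2 (by linarith)
      linarith
    rw [e4]
    linarith

theorem mb_swap {V : Finset E} (μ : Finset E → ℝ) (Bj : Finset E) (P : Finset E → Prop)
    [DecidablePred P] {p r : ℝ} (h : p + r = 1) :
    ∑ W ∈ (V \ Bj).powerset, (p ^ W.card * r ^ ((V \ Bj).card - W.card)) *
      (∑ T ∈ (V \ W).powerset.filter P, μ T) =
    ∑ T ∈ V.powerset.filter P, μ T * r ^ (T \ Bj).card := by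
  classical
  have e1 : ∀ W ∈ (V \ Bj).powerset, (p ^ W.card * r ^ ((V \ Bj).card - W.card)) *
      (∑ T ∈ (V \ W).powerset.filter P, μ T) =
      ∑ T ∈ V.powerset.filter P, μ T * (if Disjoint W (T \ Bj) then
        p ^ W.card * r ^ ((V \ Bj).card - W.card) else 0) := by
    intro W hW
    have hW1 := Finset.mem_powerset.mp hW
    have e2 : (V \ W).powerset.filter P =
        (V.powerset.filter P).filter (fun T => Disjoint W (T \ Bj)) := by
      ext T
      simp only [Finset.mem_filter, Finset.mem_powerset]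
      constructor
      · rintro ⟨h1, h2⟩
        have h3 := Finset.subset_sdiff.mp h1
        exact ⟨⟨h3.1, h2⟩, (h3.2.symm).mono_right Finset.sdiff_subset⟩
      · rintro ⟨⟨h1, h2⟩, h3⟩
        refine ⟨Finset.subset_sdiff.mpr ⟨h1, ?_⟩, h2⟩
        rw [Finset.disjoint_left]
        intro e he1 he2
        have h4 := Finset.mem_sdiff.mp (hW1 he2)
        exact (Finset.disjoint_left.mp h3 he2) (Finset.mem_sdiff.mpr ⟨he1, h4.2⟩)
    rw [e2, Finset.sum_filter, Finset.mul_sum]
    refine Finset.sum_congr rfl (fun T _ => ?_)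
    split_ifs <;> ring
  rw [Finset.sum_congr rfl e1, Finset.sum_comm]
  refine Finset.sum_congr rfl (fun T hT => ?_)
  rw [← Finset.mul_sum, mb_avg _ _ _ h]
  exact Finset.sdiff_subset_sdiff (Finset.mem_powerset.mp (Finset.mem_filter.mp hT).1)
    (Finset.Subset.refl _)

/-- MB: the inequality for many blocks. -/
theorem many_blocks {ι : Type*} [DecidableEq ι] {V : Finset E} {μ : Finset E → ℝ}
    (h0 : ∀ T, T ⊆ V → 0 ≤ μ T) (h1 : ∑ T ∈ V.powerset, μ T ≤ 1) (Z : Finset ι)
    (A B : ι → Finset E) (hAB : ∀ j ∈ Z, A j ⊆ B j) (hB : ∀ j ∈ Z, B j ⊆ V)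
    (hd : ∀ i ∈ Z, ∀ j ∈ Z, i ≠ j → Disjoint (B i) (B j)) {K θ η : ℝ} (hK : 1 ≤ K) (hθ : 0 < θ)
    (hη : 0 ≤ η)
    (hq : ∀ j ∈ Z, ∀ W, W ⊆ V → Disjoint W (B j) →
      θ * ∑ T ∈ (V \ W).powerset.filter (fun T => ¬ Disjoint T (A j)), μ T - η ≤
        ∑ T ∈ (V \ W).powerset.filter (fun T => K ≤ ((T ∩ B j).card : ℝ)), μ T)
    {J : ℕ} (hJ : 1 ≤ J) :
    ∑ T ∈ V.powerset.filter (fun T => J ≤ (Z.filter (fun j => ¬ Disjoint T (A j))).card),
      μ T * (1 - 1 / K) ^ T.card ≤ (2 + Z.card * η) / (θ * J) := by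
  classical
  have hK0 : 0 < K := by linarith
  set p : ℝ := 1 / K with hp
  set r : ℝ := 1 - p with hr
  have hpr : p + r = 1 := by rw [hr]; ring
  have hp0 : 0 ≤ p := by rw [hp]; positivity
  have hr0 : 0 ≤ r := by
    have : p ≤ 1 := by rw [hp, div_le_one hK0]; exact hK
    rw [hr]; linarith
  have hr1 : r ≤ 1 := by rw [hr]; linarith
  -- one block
  have hone : ∀ j ∈ Z, θ * ∑ T ∈ V.powerset.filter (fun T => ¬ Disjoint T (A j)),
      μ T * r ^ T.card - η ≤
      2 * ∑ T ∈ V.powerset, μ T * (r ^ (T \ B j).card - r ^ T.card) := by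
    intro j hj
    have hsum1 : ∑ W ∈ (V \ B j).powerset, (p ^ W.card * r ^ ((V \ B j).card - W.card)) = 1 := by
      rw [Finset.sum_pow_mul_eq_add_pow, hpr, one_pow]
    have havg : ∑ W ∈ (V \ B j).powerset, (p ^ W.card * r ^ ((V \ B j).card - W.card)) *
        (θ * ∑ T ∈ (V \ W).powerset.filter (fun T => ¬ Disjoint T (A j)), μ T - η) ≤
        ∑ W ∈ (V \ B j).powerset, (p ^ W.card * r ^ ((V \ B j).card - W.card)) *
        ∑ T ∈ (V \ W).powerset.filter (fun T => K ≤ ((T ∩ B j).card : ℝ)), μ T := by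
      refine Finset.sum_le_sum (fun W hW => ?_)
      have hW1 := Finset.subset_sdiff.mp (Finset.mem_powerset.mp hW)
      exact mul_le_mul_of_nonneg_left (hq j hj W hW1.1 hW1.2)
        (mul_nonneg (pow_nonneg hp0 _) (pow_nonneg hr0 _))
    have hL : ∑ W ∈ (V \ B j).powerset, (p ^ W.card * r ^ ((V \ B j).card - W.card)) *
        (θ * ∑ T ∈ (V \ W).powerset.filter (fun T => ¬ Disjoint T (A j)), μ T - η) =
        θ * ∑ T ∈ V.powerset.filter (fun T => ¬ Disjoint T (A j)), μ T * r ^ (T \ B j).card -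
          η := by
      rw [← mb_swap μ (B j) (fun T => ¬ Disjoint T (A j)) hpr, Finset.mul_sum]
      have : η = ∑ W ∈ (V \ B j).powerset, (p ^ W.card * r ^ ((V \ B j).card - W.card)) * η := by
        rw [← Finset.sum_mul, hsum1, one_mul]
      conv_rhs => rw [this]
      rw [← Finset.sum_sub_distrib]
      refine Finset.sum_congr rfl (fun W _ => by ring)
    rw [hL, mb_swap μ (B j) (fun T => K ≤ ((T ∩ B j).card : ℝ)) hpr] at havg
    have hge : ∀ T ∈ V.powerset, μ T * r ^ T.card ≤ μ T * r ^ (T \ B j).card := by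
      intro T hT
      refine mul_le_mul_of_nonneg_left ?_ (h0 T (Finset.mem_powerset.mp hT))
      exact pow_le_pow_of_le_one hr0 hr1 (Finset.card_le_card Finset.sdiff_subset)
    have hA : ∑ T ∈ V.powerset.filter (fun T => ¬ Disjoint T (A j)), μ T * r ^ T.card ≤
        ∑ T ∈ V.powerset.filter (fun T => ¬ Disjoint T (A j)), μ T * r ^ (T \ B j).card :=
      Finset.sum_le_sum (fun T hT => hge T (Finset.mem_filter.mp hT).1)
    have hBd : ∑ T ∈ V.powerset.filter (fun T => K ≤ ((T ∩ B j).card : ℝ)),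
        μ T * r ^ (T \ B j).card ≤
        ∑ T ∈ V.powerset.filter (fun T => K ≤ ((T ∩ B j).card : ℝ)),
          2 * (μ T * (r ^ (T \ B j).card - r ^ T.card)) := by
      refine Finset.sum_le_sum (fun T hT => ?_)
      obtain ⟨hT1, hT2⟩ := Finset.mem_filter.mp hT
      have hμ := h0 T (Finset.mem_powerset.mp hT1)
      have hc : T.card = (T \ B j).card + (T ∩ B j).card :=
        (Finset.card_sdiff_add_card_inter T (B j)).symm
      have hh := mb_half hK _ hT2
      have e : r ^ T.card = r ^ (T \ B j).card * r ^ (T ∩ B j).card := by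
        rw [hc, pow_add]
      have hx : r ^ (T \ B j).card ≤ 2 * (r ^ (T \ B j).card - r ^ T.card) := by
        rw [e]
        have h3 : 0 ≤ r ^ (T \ B j).card := pow_nonneg hr0 _
        have h4 : r ^ (T \ B j).card * r ^ (T ∩ B j).card ≤ r ^ (T \ B j).card * (1 / 2) :=
          mul_le_mul_of_nonneg_left hh h3
        linarith
      calc μ T * r ^ (T \ B j).card ≤ μ T * (2 * (r ^ (T \ B j).card - r ^ T.card)) :=
            mul_le_mul_of_nonneg_left hx hμ
        _ = 2 * (μ T * (r ^ (T \ B j).card - r ^ T.card)) := by ring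
    have hC : ∑ T ∈ V.powerset.filter (fun T => K ≤ ((T ∩ B j).card : ℝ)),
          2 * (μ T * (r ^ (T \ B j).card - r ^ T.card)) ≤
        ∑ T ∈ V.powerset, 2 * (μ T * (r ^ (T \ B j).card - r ^ T.card)) := by
      refine Finset.sum_le_sum_of_subset_of_nonneg (Finset.filter_subset _ _) (fun T hT _ => ?_)
      have := hge T hT
      have : 0 ≤ μ T * (r ^ (T \ B j).card - r ^ T.card) := by
        rw [mul_sub]; linarith
      linarith
    rw [← Finset.mul_sum, ← Finset.mul_sum] at hC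
    rw [← Finset.mul_sum] at hBd
    have := mul_le_mul_of_nonneg_left hA hθ.le
    linarith
  -- sum over the blocks
  have htot := Finset.sum_le_sum hone
  rw [Finset.sum_sub_distrib, Finset.sum_const, nsmul_eq_mul, ← Finset.mul_sum,
    ← Finset.mul_sum] at htot
  have hR : ∑ j ∈ Z, ∑ T ∈ V.powerset, μ T * (r ^ (T \ B j).card - r ^ T.card) ≤ 1 := by
    rw [Finset.sum_comm]
    refine le_trans (Finset.sum_le_sum (fun T hT => ?_)) h1
    rw [← Finset.mul_sum]
    have hμ := h0 T (Finset.mem_powerset.mp hT)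
    have hcard : ∀ j ∈ Z, (T \ B j).card = T.card - (T ∩ B j).card := by
      intro j _
      have := Finset.card_sdiff_add_card_inter T (B j)
      omega
    have hle : ∑ j ∈ Z, (T ∩ B j).card ≤ T.card := by
      rw [← Finset.card_biUnion]
      · refine Finset.card_le_card ?_
        intro e he
        obtain ⟨j, _, hj⟩ := Finset.mem_biUnion.mp he
        exact (Finset.mem_inter.mp hj).1
      · intro i hi j hj hij
        exact (hd i hi j hj hij).mono Finset.inter_subset_right Finset.inter_subset_right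
    have htel := mb_tel Z (fun j => (T ∩ B j).card) hr0 hr1 T.card hle
    have h5 : ∑ j ∈ Z, (r ^ (T \ B j).card - r ^ T.card) ≤ 1 := by
      have e : ∑ j ∈ Z, (r ^ (T \ B j).card - r ^ T.card) =
          ∑ j ∈ Z, (r ^ (T.card - (T ∩ B j).card) - r ^ T.card) :=
        Finset.sum_congr rfl (fun j hj => by rw [hcard j hj])
      rw [e]
      have : 0 ≤ r ^ (∑ j ∈ Z, (T ∩ B j).card) := pow_nonneg hr0 _
      linarith
    calc μ T * ∑ j ∈ Z, (r ^ (T \ B j).card - r ^ T.card) ≤ μ T * 1 :=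
          mul_le_mul_of_nonneg_left h5 hμ
      _ = μ T := mul_one _
  have hL2 : (J : ℝ) * ∑ T ∈ V.powerset.filter
      (fun T => J ≤ (Z.filter (fun j => ¬ Disjoint T (A j))).card), μ T * r ^ T.card ≤
      ∑ j ∈ Z, ∑ T ∈ V.powerset.filter (fun T => ¬ Disjoint T (A j)), μ T * r ^ T.card := by
    have e1 : ∑ j ∈ Z, ∑ T ∈ V.powerset.filter (fun T => ¬ Disjoint T (A j)), μ T * r ^ T.card =
        ∑ T ∈ V.powerset, ((Z.filter (fun j => ¬ Disjoint T (A j))).card : ℝ) *
          (μ T * r ^ T.card) := by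
      simp only [Finset.sum_filter]
      rw [Finset.sum_comm]
      refine Finset.sum_congr rfl (fun T _ => ?_)
      rw [← Finset.sum_filter, Finset.sum_const, nsmul_eq_mul]
    rw [e1, Finset.mul_sum]
    have hnn : ∀ T ∈ V.powerset, 0 ≤ μ T * r ^ T.card := fun T hT =>
      mul_nonneg (h0 T (Finset.mem_powerset.mp hT)) (pow_nonneg hr0 _)
    calc ∑ T ∈ V.powerset.filter
          (fun T => J ≤ (Z.filter (fun j => ¬ Disjoint T (A j))).card), (J : ℝ) *
            (μ T * r ^ T.card)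
        ≤ ∑ T ∈ V.powerset.filter
          (fun T => J ≤ (Z.filter (fun j => ¬ Disjoint T (A j))).card),
            ((Z.filter (fun j => ¬ Disjoint T (A j))).card : ℝ) * (μ T * r ^ T.card) := by
          refine Finset.sum_le_sum (fun T hT => ?_)
          obtain ⟨hT1, hT2⟩ := Finset.mem_filter.mp hT
          exact mul_le_mul_of_nonneg_right (by exact_mod_cast hT2) (hnn T hT1)
      _ ≤ _ := by
          refine Finset.sum_le_sum_of_subset_of_nonneg (Finset.filter_subset _ _)
            (fun T hT _ => mul_nonneg (Nat.cast_nonneg _) (hnn T hT))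
  have hJ0 : (0 : ℝ) < J := by exact_mod_cast hJ
  rw [le_div_iff₀ (mul_pos hθ hJ0)]
  have h6 := mul_le_mul_of_nonneg_left hL2 hθ.le
  have h7 := mul_le_mul_of_nonneg_left hR (by norm_num : (0 : ℝ) ≤ 2)
  nlinarith [h6, h7, htot]

end H389NS
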