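import Pool.Agent.H389R2.NS.QScale
import Pool.Agent.H389R2.NS.FewCells
import Pool.Agent.H389R2.NS.Many

/-! Polynomial noise sensitivity. -/

set_option autoImplicit false

namespace H389NS

open H974 H12S Finset

/-- Centre of the cell of index `z` (cells of side `8 * a`). -/
def czN (a : ℕ) (z : ℤ × ℤ) : ℤ × ℤ := (8 * a * z.1 + 4 * a, 8 * a * z.2 + 4 * a)

theorem cel_bounds {a : ℕ} (ha : 1 ≤ a) (x : ℤ) :
    8 * (a : ℤ) * (x / ((8 * a : ℕ) : ℤ)) ≤ x ∧ x < 8 * (a : ℤ) * (x / ((8 * a : ℕ) : ℤ)) + 8 * a := by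
  have h8 : (0 : ℤ) < ((8 * a : ℕ) : ℤ) := by push_cast; omega
  have h1 := Int.mul_ediv_self_le (x := x) (k := ((8 * a : ℕ) : ℤ)) h8.ne'
  have h2 := Int.lt_mul_ediv_self_add (x := x) (k := ((8 * a : ℕ) : ℤ)) h8
  have h3 : ((8 * a : ℕ) : ℤ) = 8 * (a : ℤ) := by push_cast; ring
  constructor
  · calc 8 * (a : ℤ) * (x / ((8 * a : ℕ) : ℤ)) = ((8 * a : ℕ) : ℤ) * (x / ((8 * a : ℕ) : ℤ)) := by
          rw [← h3]
      _ ≤ x := h1
  · calc x < ((8 * a : ℕ) : ℤ) * (x / ((8 * a : ℕ) : ℤ)) + ((8 * a : ℕ) : ℤ) := h2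
      _ = 8 * (a : ℤ) * (x / ((8 * a : ℕ) : ℤ)) + 8 * a := by rw [← h3]

theorem mem_blk_cel {a : ℕ} (ha : 1 ≤ a) (e : Edg) :
    e ∈ blk (czN a (cel (8 * a) e)) (4 * a) := by
  obtain ⟨x, y, b⟩ := e
  have hx := cel_bounds ha x
  have hy := cel_bounds ha y
  have ha' : (1 : ℤ) ≤ a := by exact_mod_cast ha
  unfold blk czN cel
  simp only
  cases b
  · rw [mem_RE_false]
    push_cast at hx hy ⊢
    refine ⟨?_, ?_, ?_, ?_⟩ <;> linarith [hx.1, hx.2, hy.1, hy.2]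
  · rw [mem_RE_true]
    push_cast at hx hy ⊢
    refine ⟨?_, ?_, ?_, ?_⟩ <;> linarith [hx.1, hx.2, hy.1, hy.2]

theorem mem_blk_bd {c : ℤ × ℤ} {t : ℕ} {e : Edg} (h : e ∈ blk c t) :
    c.1 - t ≤ e.1 ∧ e.1 ≤ c.1 + t ∧ c.2 - t ≤ e.2.1 ∧ e.2.1 ≤ c.2 + t := by
  obtain ⟨x, y, b⟩ := e
  unfold blk at h
  cases b
  · rw [mem_RE_false] at h
    simp only
    omega
  · rw [mem_RE_true] at h
    simp only
    omega

theorem blk_disj1 {a P : ℕ} (ha : 1 ≤ a) {u v : ℤ} (h : u ≠ v)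
    (hm : u % ((P + 1 : ℕ) : ℤ) = v % ((P + 1 : ℕ) : ℤ)) {w : ℤ}
    (h1 : (8 * a * u + 4 * a) - ((4 * (P * a) : ℕ) : ℤ) ≤ w)
    (h2 : w ≤ (8 * a * u + 4 * a) + ((4 * (P * a) : ℕ) : ℤ))
    (h3 : (8 * a * v + 4 * a) - ((4 * (P * a) : ℕ) : ℤ) ≤ w)
    (h4 : w ≤ (8 * a * v + 4 * a) + ((4 * (P * a) : ℕ) : ℤ)) : False := by
  have hd : ((P + 1 : ℕ) : ℤ) ∣ u - v := Int.ModEq.dvd (show v % _ = u % _ from hm.symm)
  have hne : u - v ≠ 0 := sub_ne_zero.mpr h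
  have hab : ((P + 1 : ℕ) : ℤ) ≤ |u - v| := by
    have := Int.le_of_dvd (abs_pos.mpr hne) ((dvd_abs _ _).mpr hd)
    exact this
  have ha' : (1 : ℤ) ≤ a := by exact_mod_cast ha
  push_cast at h1 h2 h3 h4 hab
  have hmul : (a : ℤ) * ((P : ℤ) + 1) ≤ a * |u - v| :=
    mul_le_mul_of_nonneg_left hab (by linarith)
  rcases abs_cases (u - v) with ⟨h5, _⟩ | ⟨h5, _⟩
  · rw [h5] at hmul
    nlinarith
  · rw [h5] at hmul
    nlinarith

theorem blk_disj {a P : ℕ} (ha : 1 ≤ a) {z z' : ℤ × ℤ} (h : z ≠ z')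
    (h1 : z.1 % ((P + 1 : ℕ) : ℤ) = z'.1 % ((P + 1 : ℕ) : ℤ))
    (h2 : z.2 % ((P + 1 : ℕ) : ℤ) = z'.2 % ((P + 1 : ℕ) : ℤ)) :
    Disjoint (blk (czN a z) (4 * (P * a))) (blk (czN a z') (4 * (P * a))) := by
  rw [Finset.disjoint_left]
  intro e he he'
  have b1 := mem_blk_bd he
  have b2 := mem_blk_bd he'
  unfold czN at b1 b2
  simp only at b1 b2
  by_cases hz : z.1 = z'.1
  · have hz2 : z.2 ≠ z'.2 := fun h3 => h (Prod.ext hz h3)
    exact blk_disj1 ha hz2 h2 b1.2.2.1 b1.2.2.2 b2.2.2.1 b2.2.2.2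
  · exact blk_disj1 ha hz h1 b1.1 b1.2.1 b2.1 b2.2.1

theorem boxE_bd {m : ℕ} {e : Edg} (h : e ∈ boxE m) :
    -(m : ℤ) ≤ e.1 ∧ e.1 ≤ m ∧ -(m : ℤ) ≤ e.2.1 ∧ e.2.1 ≤ m := by
  obtain ⟨x, y, b⟩ := e
  unfold boxE at h
  cases b
  · rw [mem_RE_false] at h
    simp only
    omega
  · rw [mem_RE_true] at h
    simp only
    omega

theorem centre_bd {a n : ℕ} (ha : 1 ≤ a) {e : Edg} (he : e ∈ boxE (3 * n / 4)) :
    |(czN a (cel (8 * a) e)).1| ≤ ((3 * n / 4 : ℕ) : ℤ) + 4 * a ∧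
      |(czN a (cel (8 * a) e)).2| ≤ ((3 * n / 4 : ℕ) : ℤ) + 4 * a := by
  have h1 := mem_blk_bd (mem_blk_cel ha e)
  have h2 := boxE_bd he
  constructor
  · rw [abs_le]
    push_cast at h1 h2 ⊢
    constructor <;> linarith [h1.1, h1.2.1, h2.1, h2.2.1]
  · rw [abs_le]
    push_cast at h1 h2 ⊢
    constructor <;> linarith [h1.2.2.1, h1.2.2.2, h2.2.2.1, h2.2.2.2]

theorem blk_sub_boxE {c : ℤ × ℤ} {t n : ℕ} (h1 : |c.1| + t ≤ n) (h2 : |c.2| + t ≤ n) :
    blk c t ⊆ boxE n := by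
  unfold blk boxE
  have a1 := abs_le.mp (le_refl |c.1|)
  have a2 := abs_le.mp (le_refl |c.2|)
  apply RE_subset <;> omega

theorem far_shift {X : Set Vtx} {c : ℤ × ℤ} {n t : ℕ} (h1 : |c.1| + t ≤ n) (h2 : |c.2| + t ≤ n)
    (h : FarS X (0, 0) n) : FarS X c t := by
  intro v hv
  have h3 := h v hv
  simp only [sub_zero] at h3
  have b1 := abs_sub_abs_le_abs_sub v.1 c.1
  have b2 := abs_sub_abs_le_abs_sub v.2 c.2
  rcases h3 with h3 | h3
  · left; linarith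
  · right; linarith

theorem domB_of {p : Edg → ℝ} {S : Finset Edg} {I J I' J' : Set Vtx} {n : ℕ}
    (D : DomN p S I J I' J' n) {c : ℤ × ℤ} {t : ℕ} (h1 : |c.1| + t ≤ n) (h2 : |c.2| + t ≤ n) :
    DomB p S I J I' J' c t where
  ok := D.ok
  sub := (blk_sub_boxE h1 h2).trans D.sub
  fair := fun e he => D.fair e (blk_sub_boxE h1 h2 he)
  dom := D.dom
  far := far_shift h1 h2 D.far
  far' := far_shift (by push_cast; linarith) (by push_cast; linarith) D.far'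

theorem card_boxE_le {m n : ℕ} (hmn : m ≤ n) (hn : 1 ≤ n) : (boxE m).card ≤ 18 * n ^ 2 := by
  have h1 : (boxE m).card ≤ (Finset.Icc (-(m : ℤ)) m ×ˢ
      (Finset.Icc (-(m : ℤ)) m ×ˢ (Finset.univ : Finset Bool))).card := by
    unfold boxE RE
    exact Finset.card_filter_le _ _
  refine h1.trans ?_
  rw [Finset.card_product, Finset.card_product, Int.card_Icc, Finset.card_univ, Fintype.card_bool]
  have h2 : ((m : ℤ) + 1 - -(m : ℤ)).toNat = 2 * m + 1 := by omega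
  rw [h2]
  have h3 : 2 * m + 1 ≤ 3 * n := by omega
  calc (2 * m + 1) * ((2 * m + 1) * 2) ≤ (3 * n) * ((3 * n) * 2) :=
        Nat.mul_le_mul h3 (Nat.mul_le_mul_right 2 h3)
    _ = 18 * n ^ 2 := by ring

theorem sp_nonneg {E : Type*} [DecidableEq E] {p : E → ℝ} (hp : Ok p) (S V : Finset E)
    (f : Finset E → ℝ) (T : Finset E) : 0 ≤ sp p S V f T :=
  Ex_nonneg hp (fun _ _ => sq_nonneg _)

theorem sum_sp_le_one {p : Edg → ℝ} (hp : Ok p) {S V : Finset Edg} (hV : V ⊆ S)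
    (hp2 : ∀ e ∈ V, p e = 1 / 2) (I J : Set Vtx) :
    ∑ T ∈ V.powerset, sp p S V (fC I J) T ≤ 1 := by
  have h := sum_sp (p := p) hV hp2 (Finset.empty_subset V) (fC I J)
  rw [Finset.sdiff_empty] at h
  rw [h]
  unfold UU
  refine Ex_le_of_le hp (fun F _ => ?_)
  rw [Ex_empty, Finset.union_empty]
  have h0 : 0 ≤ fC I J F := ind_nonneg _
  have h1 : fC I J F ≤ 1 := ind_le_one _
  nlinarith

/-- The combination of the two estimates (no asymptotics). -/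
theorem ns_core {n a P J1 : ℕ} (ha : 1 ≤ a) (hP : 1 ≤ P) (hJ1 : 1 ≤ J1)
    (hn : 4 * (4 * a + 4 * (P * a)) ≤ n) {p : Edg → ℝ} {S : Finset Edg} {I J I' J' : Set Vtx}
    (D : DomN p S I J I' J' n) {K θ η : ℝ} (hK : 1 ≤ K) (hθ : 0 < θ) (hη : 0 ≤ η)
    (hq : ∀ c : ℤ × ℤ, DomB p S I J I' J' c (4 * (P * a)) → blk c (4 * (P * a)) ⊆ boxE n →
      ∀ W, W ⊆ boxE n → Disjoint W (blk c (4 * (P * a))) →
      θ * ∑ T ∈ (boxE n \ W).powerset.filter (fun T => ¬ Disjoint T (blk c (4 * a))),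
          sp p S (boxE n) (fC I J) T - η ≤
        ∑ T ∈ (boxE n \ W).powerset.filter (fun T =>
          K ≤ ((T ∩ blk c (4 * (P * a))).card : ℝ)), sp p S (boxE n) (fC I J) T)
    {B : ℝ} (hB : ∑ T ∈ (boxE n).powerset.filter (fun T => ¬ Disjoint T (boxE (n / 2)) ∧
          ((T ∩ boxE (3 * n / 4)).image (cel (8 * a))).card ≤ (P + 1) ^ 2 * J1),
          sp p S (boxE n) (fC I J) T ≤ B)
    {x : ℝ} (hx0 : 0 ≤ x) (hx1 : x ≤ 1 - 1 / K) :
    ∑ T ∈ (boxE n).powerset.filter (fun T => ¬ Disjoint T (boxE (n / 2))),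
        sp p S (boxE n) (fC I J) T * x ^ T.card
      ≤ B + ((P : ℝ) + 1) ^ 2 * ((2 + 18 * (n : ℝ) ^ 2 * η) / (θ * J1)) := by
  classical
  have hn1 : 1 ≤ n := by omega
  have hK0 : 0 < K := by linarith
  have h1K : 1 / K ≤ 1 := by rw [div_le_one hK0]; exact hK
  have h0K : 0 ≤ 1 - 1 / K := by linarith
  have hx1' : x ≤ 1 := by
    have : 0 ≤ 1 / K := by positivity
    linarith
  have hsp0 : ∀ T, 0 ≤ sp p S (boxE n) (fC I J) T := fun T => sp_nonneg D.ok _ _ _ _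
  set Zall : Finset (ℤ × ℤ) := (boxE (3 * n / 4)).image (cel (8 * a)) with hZall
  set R : Finset (ℤ × ℤ) := Finset.Ico (0 : ℤ) ((P + 1 : ℕ) : ℤ) ×ˢ Finset.Ico (0 : ℤ) ((P + 1 : ℕ) : ℤ)
    with hR
  set res : ℤ × ℤ → ℤ × ℤ := fun z => (z.1 % ((P + 1 : ℕ) : ℤ), z.2 % ((P + 1 : ℕ) : ℤ)) with hres
  have hP1 : (0 : ℤ) < ((P + 1 : ℕ) : ℤ) := by push_cast; omega
  have hRcard : R.card = (P + 1) ^ 2 := by
    rw [hR, Finset.card_product, Int.card_Ico]
    have : (((P + 1 : ℕ) : ℤ) - 0).toNat = P + 1 := by omega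
    rw [this]; ring
  have hresR : ∀ z, res z ∈ R := by
    intro z
    simp only [hR, hres, Finset.mem_product, Finset.mem_Ico]
    exact ⟨⟨Int.emod_nonneg _ hP1.ne', Int.emod_lt_of_pos _ hP1⟩,
      ⟨Int.emod_nonneg _ hP1.ne', Int.emod_lt_of_pos _ hP1⟩⟩
  -- bounds for the centres
  have hcen : ∀ z ∈ Zall, |(czN a z).1| + ((4 * (P * a) : ℕ) : ℤ) ≤ n ∧
      |(czN a z).2| + ((4 * (P * a) : ℕ) : ℤ) ≤ n := by
    intro z hz
    rw [hZall, Finset.mem_image] at hz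
    obtain ⟨e, he, rfl⟩ := hz
    have h1 := centre_bd ha he
    have h2 : ((3 * n / 4 : ℕ) : ℤ) + 4 * a + ((4 * (P * a) : ℕ) : ℤ) ≤ n := by
      have h3 : 3 * n / 4 + 4 * a + 4 * (P * a) ≤ n := by omega
      exact_mod_cast h3
    constructor <;> linarith [h1.1, h1.2]
  have hZcard : (Zall.card : ℝ) ≤ 18 * (n : ℝ) ^ 2 := by
    have h1 : Zall.card ≤ (boxE (3 * n / 4)).card := Finset.card_image_le
    have h2 : (boxE (3 * n / 4)).card ≤ 18 * n ^ 2 := card_boxE_le (by omega) hn1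
    exact_mod_cast h1.trans h2
  -- one class
  have hclass : ∀ κ ∈ R, ∑ T ∈ (boxE n).powerset.filter (fun T => J1 ≤
      ((Zall.filter (fun z => res z = κ)).filter
        (fun z => ¬ Disjoint T (blk (czN a z) (4 * a)))).card),
      sp p S (boxE n) (fC I J) T * (1 - 1 / K) ^ T.card
      ≤ (2 + 18 * (n : ℝ) ^ 2 * η) / (θ * J1) := by
    intro κ _
    have hmb := many_blocks (V := boxE n) (μ := sp p S (boxE n) (fC I J))
      (fun T _ => hsp0 T) (sum_sp_le_one D.ok D.sub D.fair I J)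
      (Zall.filter (fun z => res z = κ)) (fun z => blk (czN a z) (4 * a))
      (fun z => blk (czN a z) (4 * (P * a)))
      (by
        intro z _
        unfold blk
        have h1 : a ≤ P * a := Nat.le_mul_of_pos_left a hP
        have h2 : ((4 * a : ℕ) : ℤ) ≤ ((4 * (P * a) : ℕ) : ℤ) := by exact_mod_cast (by omega)
        apply RE_subset <;> linarith)
      (by
        intro z hz
        have hc := hcen z (Finset.mem_filter.mp hz).1
        exact blk_sub_boxE hc.1 hc.2)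
      (by
        intro z hz z' hz' hzz
        have e1 := (Finset.mem_filter.mp hz).2
        have e2 := (Finset.mem_filter.mp hz').2
        have e3 : res z = res z' := e1.trans e2.symm
        simp only [hres, Prod.mk.injEq] at e3
        exact blk_disj ha hzz e3.1 e3.2)
      hK hθ hη
      (by
        intro z hz W hW hWd
        have hc := hcen z (Finset.mem_filter.mp hz).1
        exact hq (czN a z) (domB_of D hc.1 hc.2) (blk_sub_boxE hc.1 hc.2) W hW hWd)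
      hJ1
    refine hmb.trans ?_
    have hJ0 : (0 : ℝ) < J1 := by exact_mod_cast hJ1
    refine div_le_div_of_nonneg_right ?_ (by positivity)
    have h1 : (((Zall.filter (fun z => res z = κ)).card : ℕ) : ℝ) ≤ 18 * (n : ℝ) ^ 2 := by
      refine le_trans ?_ hZcard
      exact_mod_cast Finset.card_filter_le _ _
    have := mul_le_mul_of_nonneg_right h1 hη
    linarith
  -- splitting
  have hsplit : ∀ T ∈ (boxE n).powerset.filter (fun T => ¬ Disjoint T (boxE (n / 2))),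
      sp p S (boxE n) (fC I J) T * x ^ T.card ≤
        (if ((T ∩ boxE (3 * n / 4)).image (cel (8 * a))).card ≤ (P + 1) ^ 2 * J1 then
          sp p S (boxE n) (fC I J) T else 0) +
        ∑ κ ∈ R, (if J1 ≤ ((Zall.filter (fun z => res z = κ)).filter
          (fun z => ¬ Disjoint T (blk (czN a z) (4 * a)))).card then
            sp p S (boxE n) (fC I J) T * (1 - 1 / K) ^ T.card else 0) := by
    intro T hT
    have hterm0 : ∀ κ ∈ R, 0 ≤ (if J1 ≤ ((Zall.filter (fun z => res z = κ)).filter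
          (fun z => ¬ Disjoint T (blk (czN a z) (4 * a)))).card then
            sp p S (boxE n) (fC I J) T * (1 - 1 / K) ^ T.card else 0) := by
      intro κ _
      split_ifs
      · exact mul_nonneg (hsp0 T) (pow_nonneg h0K _)
      · exact le_refl _
    have hxT : x ^ T.card ≤ 1 := pow_le_one₀ hx0 hx1'
    by_cases hc : ((T ∩ boxE (3 * n / 4)).image (cel (8 * a))).card ≤ (P + 1) ^ 2 * J1
    · rw [if_pos hc]
      have h1 : sp p S (boxE n) (fC I J) T * x ^ T.card ≤ sp p S (boxE n) (fC I J) T :=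
        mul_le_of_le_one_right (hsp0 T) hxT
      have h2 := Finset.sum_nonneg hterm0
      linarith
    · rw [if_neg hc, zero_add]
      push Not at hc
      have hpg := Finset.exists_lt_card_fiber_of_mul_lt_card_of_maps_to
        (s := (T ∩ boxE (3 * n / 4)).image (cel (8 * a))) (t := R) (f := res) (n := J1)
        (fun z _ => hresR z) (by rw [hRcard]; exact hc)
      obtain ⟨κ, hκ, hlt⟩ := hpg
      have hsub : ((T ∩ boxE (3 * n / 4)).image (cel (8 * a))).filter (fun z => res z = κ) ⊆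
          (Zall.filter (fun z => res z = κ)).filter
            (fun z => ¬ Disjoint T (blk (czN a z) (4 * a))) := by
        intro z hz
        rw [Finset.mem_filter, Finset.mem_image] at hz
        obtain ⟨⟨e, he, hez⟩, hzκ⟩ := hz
        rw [Finset.mem_inter] at he
        rw [Finset.mem_filter, Finset.mem_filter]
        refine ⟨⟨?_, hzκ⟩, ?_⟩
        · rw [hZall, Finset.mem_image]
          exact ⟨e, he.2, hez⟩
        · rw [Finset.not_disjoint_iff]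
          refine ⟨e, he.1, ?_⟩
          rw [← hez]
          exact mem_blk_cel ha e
      have hcard := Finset.card_le_card hsub
      have hJle : J1 ≤ ((Zall.filter (fun z => res z = κ)).filter
            (fun z => ¬ Disjoint T (blk (czN a z) (4 * a)))).card := by omega
      refine le_trans ?_ (Finset.single_le_sum hterm0 hκ)
      rw [if_pos hJle]
      exact mul_le_mul_of_nonneg_left (pow_le_pow_left₀ hx0 hx1 _) (hsp0 T)
  refine (Finset.sum_le_sum hsplit).trans ?_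
  rw [Finset.sum_add_distrib]
  refine add_le_add ?_ ?_
  · refine le_trans (le_of_eq ?_) hB
    rw [← Finset.sum_filter, Finset.filter_filter]
  · rw [Finset.sum_comm]
    have h1 : ∀ κ ∈ R, ∑ T ∈ (boxE n).powerset.filter (fun T => ¬ Disjoint T (boxE (n / 2))),
        (if J1 ≤ ((Zall.filter (fun z => res z = κ)).filter
          (fun z => ¬ Disjoint T (blk (czN a z) (4 * a)))).card then
            sp p S (boxE n) (fC I J) T * (1 - 1 / K) ^ T.card else 0)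
        ≤ (2 + 18 * (n : ℝ) ^ 2 * η) / (θ * J1) := by
      intro κ hκ
      refine le_trans ?_ (hclass κ hκ)
      rw [← Finset.sum_filter]
      refine Finset.sum_le_sum_of_subset_of_nonneg ?_
        (fun T _ _ => mul_nonneg (hsp0 T) (pow_nonneg h0K _))
      intro T hT
      rw [Finset.mem_filter, Finset.mem_filter] at hT
      rw [Finset.mem_filter]
      exact ⟨hT.1.1, hT.2⟩
    refine (Finset.sum_le_sum h1).trans ?_
    rw [Finset.sum_const, hRcard, nsmul_eq_mul]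
    push_cast
    exact le_refl _

/-- NS -/
theorem noise_sens : ∃ C c : ℝ, 0 < C ∧ 0 < c ∧ ∀ n : ℕ, 1 ≤ n →
    ∀ (p : Edg → ℝ) (S : Finset Edg) (I J I' J' : Set Vtx), DomN p S I J I' J' n →
    ∀ x : ℝ, 0 ≤ x → x ≤ 1 - (n:ℝ) ^ (-(3/10) : ℝ) →
      ∑ T ∈ (boxE n).powerset.filter (fun T => ¬ Disjoint T (boxE (n / 2))),
        sp p S (boxE n) (fC I J) T * x ^ T.card ≤ C * (n:ℝ) ^ (-c) := by
  classical
  obtain ⟨Cf, cf, hCf, hcf, hfew⟩ := few_cells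
  obtain ⟨ε, hεdef⟩ : ∃ ε : ℝ, ε = min (1 / 100) (cf / 100) := ⟨_, rfl⟩
  have hε : 0 < ε := by rw [hεdef]; exact lt_min (by norm_num) (by positivity)
  have hε1 : ε ≤ 1 / 100 := by rw [hεdef]; exact min_le_left _ _
  have hε2 : 100 * ε ≤ cf := by
    have : ε ≤ cf / 100 := by rw [hεdef]; exact min_le_right _ _
    linarith
  obtain ⟨A, r0, c2, c3, hA, hr0, hc2, hc3, hc31, hqs⟩ := q_scale ε hε
  obtain ⟨Q, hQdef⟩ : ∃ Q : ℝ, Q = 1 + 1 / c2 + r0 + 400 * A := ⟨_, rfl⟩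
  have hA1 : (1 : ℝ) ≤ A := by exact_mod_cast hA
  have hr01 : (1 : ℝ) ≤ r0 := by exact_mod_cast hr0
  have hc2i : 0 < 1 / c2 := by positivity
  have hQ1 : 1 ≤ Q := by rw [hQdef]; linarith
  have hQr : (r0 : ℝ) ≤ Q := by rw [hQdef]; linarith
  have hQA : 400 * (A : ℝ) ≤ Q := by rw [hQdef]; linarith
  have hQc : 1 ≤ c2 * Q := by
    have h1 : c2 * (1 / c2) = 1 := by field_simp
    have h2 : 1 / c2 ≤ Q := by rw [hQdef]; linarith
    calc (1 : ℝ) = c2 * (1 / c2) := h1.symm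
      _ ≤ c2 * Q := mul_le_mul_of_nonneg_left h2 hc2.le
  obtain ⟨n0, hn0⟩ : ∃ n0 : ℕ, n0 = ⌈Q ^ (400 / 3 : ℝ)⌉₊ := ⟨_, rfl⟩
  have hn0Q : Q ^ (400 / 3 : ℝ) ≤ (n0 : ℝ) := by rw [hn0]; exact Nat.le_ceil _
  have hn01 : (1 : ℝ) ≤ n0 := le_trans (Real.one_le_rpow hQ1 (by norm_num)) hn0Q
  obtain ⟨C1, hC1⟩ : ∃ C1 : ℝ, C1 = Cf * 72 ^ 3 * (1152 * (A : ℝ)) ^ cf := ⟨_, rfl⟩
  have hC1p : 0 < C1 := by rw [hC1]; positivity
  refine ⟨(n0 : ℝ) ^ ε + C1 + 720 / c3, ε, by positivity, hε, ?_⟩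
  intro n hn p S I J I' J' D x hx0 hx1
  have hsp0 : ∀ T, 0 ≤ sp p S (boxE n) (fC I J) T := fun T => sp_nonneg D.ok _ _ _ _
  obtain ⟨L, hL⟩ : ∃ L : ℝ, L = (n : ℝ) := ⟨_, rfl⟩
  have hL1 : 1 ≤ L := by rw [hL]; exact_mod_cast hn
  have hL0 : 0 < L := by linarith
  have hLε : 0 < L ^ (-ε) := Real.rpow_pos_of_pos hL0 _
  by_cases hbig : n < n0
  · -- small n
    have hx1' : x ≤ 1 := by
      have : 0 ≤ (n : ℝ) ^ (-(3/10) : ℝ) := by positivity
      linarith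
    have h1 : ∑ T ∈ (boxE n).powerset.filter (fun T => ¬ Disjoint T (boxE (n / 2))),
        sp p S (boxE n) (fC I J) T * x ^ T.card ≤ 1 := by
      have e1 : ∑ T ∈ (boxE n).powerset.filter (fun T => ¬ Disjoint T (boxE (n / 2))),
          sp p S (boxE n) (fC I J) T * x ^ T.card ≤
          ∑ T ∈ (boxE n).powerset.filter (fun T => ¬ Disjoint T (boxE (n / 2))),
          sp p S (boxE n) (fC I J) T :=
        Finset.sum_le_sum (fun T _ => mul_le_of_le_one_right (hsp0 T) (pow_le_one₀ hx0 hx1'))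
      have e2 : ∑ T ∈ (boxE n).powerset.filter (fun T => ¬ Disjoint T (boxE (n / 2))),
          sp p S (boxE n) (fC I J) T ≤ ∑ T ∈ (boxE n).powerset, sp p S (boxE n) (fC I J) T :=
        Finset.sum_le_sum_of_subset_of_nonneg (Finset.filter_subset _ _) (fun T _ _ => hsp0 T)
      exact e1.trans (e2.trans (sum_sp_le_one D.ok D.sub D.fair I J))
    have h2 : 1 ≤ (n0 : ℝ) ^ ε * L ^ (-ε) := by
      rw [Real.rpow_neg hL0.le, ← div_eq_mul_inv, le_div_iff₀ (Real.rpow_pos_of_pos hL0 _), one_mul]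
      apply Real.rpow_le_rpow hL0.le _ hε.le
      rw [hL]
      exact_mod_cast hbig.le
    rw [← hL]
    have h3 : 0 ≤ (C1 + 720 / c3) * L ^ (-ε) := by positivity
    calc _ ≤ (1 : ℝ) := h1
      _ ≤ (n0 : ℝ) ^ ε * L ^ (-ε) := h2
      _ ≤ ((n0 : ℝ) ^ ε + C1 + 720 / c3) * L ^ (-ε) := by linarith
  -- large n
  push Not at hbig
  have hLQ : Q ≤ L ^ (3 / 400 : ℝ) := by
    have h1 : Q ^ (400 / 3 : ℝ) ≤ L := by
      refine hn0Q.trans ?_
      rw [hL]; exact_mod_cast hbig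
    have h2 := Real.rpow_le_rpow (by positivity) h1 (show (0 : ℝ) ≤ 3 / 400 by norm_num)
    rw [← Real.rpow_mul (by linarith)] at h2
    norm_num at h2
    exact h2
  obtain ⟨R, hR⟩ : ∃ R : ℝ, R = L ^ (41 / 100 : ℝ) := ⟨_, rfl⟩
  have hR1 : 1 ≤ R := by rw [hR]; exact Real.one_le_rpow hL1 (by norm_num)
  obtain ⟨r, hr⟩ : ∃ r : ℕ, r = ⌈R⌉₊ := ⟨_, rfl⟩
  have hrR : R ≤ r := by rw [hr]; exact Nat.le_ceil _
  have hrR2 : (r : ℝ) ≤ 2 * R := by
    have : (r : ℝ) < R + 1 := by rw [hr]; exact Nat.ceil_lt_add_one (by linarith)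
    linarith
  have hr1 : (1 : ℝ) ≤ r := hR1.trans hrR
  have hr1' : 1 ≤ r := by exact_mod_cast hr1
  obtain ⟨E, hE⟩ : ∃ E : ℝ, E = L ^ ε := ⟨_, rfl⟩
  have hE1 : 1 ≤ E := by rw [hE]; exact Real.one_le_rpow hL1 hε.le
  obtain ⟨k, hk1, hk2⟩ := exists_nat_pow_near hE1 (show (1 : ℝ) < 5 by norm_num)
  obtain ⟨P, hP⟩ : ∃ P : ℕ, P = 5 ^ (k + 1) := ⟨_, rfl⟩
  have hPr : (P : ℝ) = 5 ^ (k + 1) := by rw [hP]; push_cast; ring
  have hPE : E ≤ P := by rw [hPr]; exact hk2.le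
  have hPE2 : (P : ℝ) ≤ 5 * E := by rw [hPr, pow_succ]; linarith
  have hP1 : 1 ≤ P := by rw [hP]; exact Nat.one_le_pow _ _ (by norm_num)
  obtain ⟨J1, hJ1⟩ : ∃ J1 : ℕ, J1 = ⌈E ^ 3⌉₊ := ⟨_, rfl⟩
  have hE3 : 1 ≤ E ^ 3 := one_le_pow₀ hE1
  have hJE : E ^ 3 ≤ J1 := by rw [hJ1]; exact Nat.le_ceil _
  have hJE2 : (J1 : ℝ) ≤ 2 * E ^ 3 := by
    have : (J1 : ℝ) < E ^ 3 + 1 := by rw [hJ1]; exact Nat.ceil_lt_add_one (by linarith)
    linarith
  have hJ11 : 1 ≤ J1 := by exact_mod_cast hE3.trans hJE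
  have ha1 : 1 ≤ A * r := Nat.one_le_iff_ne_zero.mpr (Nat.mul_ne_zero (by omega) (by omega))
  -- (i)
  have hi : r0 ≤ r := by
    have h1 : (r0 : ℝ) ≤ r := by
      refine hQr.trans (hLQ.trans (le_trans ?_ hrR))
      rw [hR]
      exact Real.rpow_le_rpow_of_exponent_le hL1 (by norm_num)
    exact_mod_cast h1
  -- (ii)
  obtain ⟨K, hK⟩ : ∃ K : ℝ, K = c2 * ((A * r : ℕ) : ℝ) ^ (3/4 : ℝ) := ⟨_, rfl⟩
  have hKL : L ^ (3 / 10 : ℝ) ≤ K := by
    have h1 : R ≤ ((A * r : ℕ) : ℝ) := by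
      push_cast
      calc R ≤ r := hrR
        _ = 1 * r := (one_mul _).symm
        _ ≤ A * r := mul_le_mul_of_nonneg_right hA1 (by linarith)
    have h2 : R ^ (3/4 : ℝ) ≤ ((A * r : ℕ) : ℝ) ^ (3/4 : ℝ) :=
      Real.rpow_le_rpow (by linarith) h1 (by norm_num)
    have h3 : R ^ (3/4 : ℝ) = L ^ (3 / 10 : ℝ) * L ^ (3 / 400 : ℝ) := by
      rw [hR, ← Real.rpow_mul hL0.le, ← Real.rpow_add hL0]
      norm_num
    have h4 : 0 ≤ L ^ (3 / 10 : ℝ) := by positivity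
    rw [hK]
    calc L ^ (3 / 10 : ℝ) = L ^ (3 / 10 : ℝ) * 1 := (mul_one _).symm
      _ ≤ L ^ (3 / 10 : ℝ) * (c2 * Q) := mul_le_mul_of_nonneg_left hQc h4
      _ ≤ L ^ (3 / 10 : ℝ) * (c2 * L ^ (3 / 400 : ℝ)) :=
        mul_le_mul_of_nonneg_left (mul_le_mul_of_nonneg_left hLQ hc2.le) h4
      _ = c2 * (L ^ (3 / 10 : ℝ) * L ^ (3 / 400 : ℝ)) := by ring
      _ = c2 * R ^ (3/4 : ℝ) := by rw [h3]
      _ ≤ c2 * ((A * r : ℕ) : ℝ) ^ (3/4 : ℝ) := mul_le_mul_of_nonneg_left h2 hc2.le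
  have hK1 : 1 ≤ K := le_trans (Real.one_le_rpow hL1 (by norm_num)) hKL
  have hK0 : 0 < K := by linarith
  -- (iii)
  have hR58 : 192 * (A : ℝ) * (R * E) ≤ L := by
    have h1 : R * E ≤ L ^ (42 / 100 : ℝ) := by
      rw [hR, hE, ← Real.rpow_add hL0]
      exact Real.rpow_le_rpow_of_exponent_le hL1 (by linarith)
    have h2 : 192 * (A : ℝ) ≤ L ^ (58 / 100 : ℝ) := by
      calc 192 * (A : ℝ) ≤ Q := by linarith
        _ ≤ L ^ (3 / 400 : ℝ) := hLQ
        _ ≤ L ^ (58 / 100 : ℝ) := Real.rpow_le_rpow_of_exponent_le hL1 (by norm_num)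
    have h3 : L ^ (58 / 100 : ℝ) * L ^ (42 / 100 : ℝ) = L := by
      rw [← Real.rpow_add hL0]; norm_num
    calc 192 * (A : ℝ) * (R * E) ≤ L ^ (58 / 100 : ℝ) * L ^ (42 / 100 : ℝ) :=
          mul_le_mul h2 h1 (by positivity) (by positivity)
      _ = L := h3
  have hiii : 4 * (4 * (A * r) + 4 * (P * (A * r))) ≤ n := by
    have h1 : (16 : ℝ) * ((A : ℝ) * r) * (1 + P) ≤ L := by
      have h2 : (A : ℝ) * r ≤ A * (2 * R) := mul_le_mul_of_nonneg_left hrR2 (by linarith)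
      have h3 : 1 + (P : ℝ) ≤ 6 * E := by linarith
      calc (16 : ℝ) * ((A : ℝ) * r) * (1 + P) ≤ 16 * (A * (2 * R)) * (6 * E) := by
            apply mul_le_mul _ h3 (by positivity) (by positivity)
            linarith
        _ = 192 * (A : ℝ) * (R * E) := by ring
        _ ≤ L := hR58
    have h4 : ((4 * (4 * (A * r) + 4 * (P * (A * r))) : ℕ) : ℝ) ≤ (n : ℝ) := by
      rw [← hL]
      refine le_trans (le_of_eq ?_) h1
      push_cast; ring
    exact_mod_cast h4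
  -- (iv)
  have hx1K : x ≤ 1 - 1 / K := by
    have h1 : 1 / K ≤ L ^ (-(3/10) : ℝ) := by
      rw [Real.rpow_neg hL0.le, ← one_div]
      exact one_div_le_one_div_of_le (by positivity) hKL
    rw [← hL] at hx1
    linarith
  -- the estimates
  have hfc := hfew n (8 * (A * r)) ((P + 1) ^ 2 * J1) hn (by omega)
    (Nat.one_le_iff_ne_zero.mpr (Nat.mul_ne_zero (by positivity) (by omega))) p S I J I' J' D
  have hmain := ns_core (a := A * r) (P := P) (J1 := J1) ha1 hP1 hJ11 hiii D hK1 hc3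
    (η := (n : ℝ) ^ (-4 : ℝ)) (by positivity)
    (by
      intro c hDB hbc W hW hWd
      have h5 : 4 * (5 ^ (k + 1) * (A * r)) = 4 * (P * (A * r)) := by rw [hP]
      have h := hqs n r (k + 1) hn hi (by omega) (by rw [← hL, ← hE]; exact hk2.le) p S I J I' J' c
        (by rw [h5]; exact hDB) (boxE n) W D.sub D.fair (by rw [h5]; exact hbc) hW
        (by rw [h5]; exact hWd)
      rw [h5, ← hK] at h
      exact h)
    hfc hx0 hx1K
  refine hmain.trans ?_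
  have hJ1r : (0 : ℝ) < J1 := by exact_mod_cast hJ11
  -- first term
  have hterm1 : Cf * ((((P + 1) ^ 2 * J1 : ℕ) : ℝ)) ^ 3 *
      ((((P + 1) ^ 2 * J1 : ℕ) : ℝ) * ((8 * (A * r) : ℕ) : ℝ) / n) ^ cf ≤ C1 * L ^ (-ε) := by
    obtain ⟨W, hW⟩ : ∃ W : ℝ, W = (((P + 1) ^ 2 * J1 : ℕ) : ℝ) := ⟨_, rfl⟩
    rw [← hW, ← hL]
    have hW0 : 0 ≤ W := by rw [hW]; positivity
    have hWE : W ≤ 72 * E ^ 5 := by
      rw [hW]
      push_cast
      have h1 : ((P : ℝ) + 1) ^ 2 ≤ (6 * E) ^ 2 := pow_le_pow_left₀ (by positivity) (by linarith) 2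
      calc ((P : ℝ) + 1) ^ 2 * J1 ≤ (6 * E) ^ 2 * (2 * E ^ 3) :=
            mul_le_mul h1 hJE2 (by positivity) (by positivity)
        _ = 72 * E ^ 5 := by ring
    have hbR : ((8 * (A * r) : ℕ) : ℝ) ≤ 16 * A * R := by
      push_cast
      have h2 : (A : ℝ) * r ≤ A * (2 * R) := mul_le_mul_of_nonneg_left hrR2 (by linarith)
      linarith
    have h3 : W ^ 3 ≤ 72 ^ 3 * L ^ (15 * ε) := by
      have h4 : W ^ 3 ≤ (72 * E ^ 5) ^ 3 := pow_le_pow_left₀ hW0 hWE 3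
      have h5 : (72 * E ^ 5) ^ 3 = 72 ^ 3 * L ^ (15 * ε) := by
        have h51 : (72 * E ^ 5) ^ 3 = 72 ^ 3 * E ^ 15 := by ring
        have h52 : E ^ 15 = L ^ (15 * ε) := by
          rw [hE, ← Real.rpow_natCast (L ^ ε) 15, ← Real.rpow_mul hL0.le]
          congr 1
          push_cast
          ring
        rw [h51, h52]
      rw [← h5]; exact h4
    have h6 : W * ((8 * (A * r) : ℕ) : ℝ) / L ≤ 1152 * A * L ^ (5 * ε - 59 / 100) := by
      have h7 : W * ((8 * (A * r) : ℕ) : ℝ) ≤ (72 * E ^ 5) * (16 * A * R) :=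
        mul_le_mul hWE hbR (by positivity) (by positivity)
      have h8 : E ^ 5 * R / L = L ^ (5 * ε - 59 / 100) := by
        rw [hE, hR, ← Real.rpow_natCast (L ^ ε), ← Real.rpow_mul hL0.le, ← Real.rpow_add hL0]
        have h9 : L ^ (ε * ((5 : ℕ) : ℝ) + 41 / 100) / L
            = L ^ (ε * ((5 : ℕ) : ℝ) + 41 / 100) / L ^ (1 : ℝ) := by rw [Real.rpow_one]
        rw [h9, ← Real.rpow_sub hL0]
        congr 1
        push_cast
        ring
      calc W * ((8 * (A * r) : ℕ) : ℝ) / L ≤ (72 * E ^ 5) * (16 * A * R) / L :=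
            div_le_div_of_nonneg_right h7 hL0.le
        _ = 1152 * A * (E ^ 5 * R / L) := by ring
        _ = 1152 * A * L ^ (5 * ε - 59 / 100) := by rw [h8]
    have h10 : (W * ((8 * (A * r) : ℕ) : ℝ) / L) ^ cf
        ≤ (1152 * (A : ℝ)) ^ cf * L ^ ((5 * ε - 59 / 100) * cf) := by
      have h11 := Real.rpow_le_rpow (by positivity) h6 hcf.le
      rw [Real.mul_rpow (by positivity) (by positivity), ← Real.rpow_mul hL0.le] at h11
      exact h11
    have h12 : L ^ (15 * ε) * L ^ ((5 * ε - 59 / 100) * cf) ≤ L ^ (-ε) := by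
      rw [← Real.rpow_add hL0]
      apply Real.rpow_le_rpow_of_exponent_le hL1
      have h13 : (5 * ε - 59 / 100) * cf ≤ -(54 / 100) * cf :=
        mul_le_mul_of_nonneg_right (by linarith) hcf.le
      linarith
    calc Cf * W ^ 3 * (W * ((8 * (A * r) : ℕ) : ℝ) / L) ^ cf
        ≤ Cf * (72 ^ 3 * L ^ (15 * ε)) * ((1152 * (A : ℝ)) ^ cf * L ^ ((5 * ε - 59 / 100) * cf)) := by
          apply mul_le_mul _ h10 (by positivity) (by positivity)
          exact mul_le_mul_of_nonneg_left h3 hCf.le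
      _ = C1 * (L ^ (15 * ε) * L ^ ((5 * ε - 59 / 100) * cf)) := by rw [hC1]; ring
      _ ≤ C1 * L ^ (-ε) := mul_le_mul_of_nonneg_left h12 hC1p.le
  have hterm2 : ((P : ℝ) + 1) ^ 2 * ((2 + 18 * (n : ℝ) ^ 2 * (n : ℝ) ^ (-4 : ℝ)) / (c3 * J1))
      ≤ 720 / c3 * L ^ (-ε) := by
    rw [← hL]
    have h1 : ((P : ℝ) + 1) ^ 2 ≤ (6 * E) ^ 2 := pow_le_pow_left₀ (by positivity) (by linarith) 2
    have h2 : L ^ 2 * L ^ (-4 : ℝ) ≤ 1 := by
      rw [← Real.rpow_natCast L 2, ← Real.rpow_add hL0]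
      exact Real.rpow_le_one_of_one_le_of_nonpos hL1 (by norm_num)
    have h3 : 2 + 18 * L ^ 2 * L ^ (-4 : ℝ) ≤ 20 := by linarith
    have h4 : (2 + 18 * L ^ 2 * L ^ (-4 : ℝ)) / (c3 * J1) ≤ 20 / (c3 * E ^ 3) := by
      apply div_le_div₀ (by norm_num) h3 (by positivity)
      exact mul_le_mul_of_nonneg_left hJE hc3.le
    have h5 : E * L ^ (-ε) = 1 := by
      rw [hE, ← Real.rpow_add hL0]; simp
    have hE0 : 0 < E := by linarith
    have h6 : L ^ (-ε) = 1 / E := by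
      field_simp
      linarith
    calc ((P : ℝ) + 1) ^ 2 * ((2 + 18 * L ^ 2 * L ^ (-4 : ℝ)) / (c3 * J1))
        ≤ (6 * E) ^ 2 * (20 / (c3 * E ^ 3)) :=
          mul_le_mul h1 h4 (by positivity) (by positivity)
      _ = 720 / c3 * (1 / E) := by field_simp; ring
      _ = 720 / c3 * L ^ (-ε) := by rw [h6]
  have h0 : 0 ≤ (n0 : ℝ) ^ ε * L ^ (-ε) := by positivity
  rw [← hL] at hterm1 hterm2 ⊢
  linarith

end H389NS
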