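import Pool.Agent.H389R2.NS.D0
import Pool.Agent.H389R2.NS.D2
import Pool.Agent.H389R2.NS.NoiseS

/-! Two-layer separated four-arm events in the thin box. -/

set_option autoImplicit false

namespace H389NS

open H974 H12S Finset

/-- integration of a sum of monomials -/
theorem d3_int {E : Type*} [DecidableEq E] {V B : Finset E} {w : Finset E → ℝ}
    (hw : ∀ T, T ⊆ V → 0 ≤ w T) {x : ℝ} (hx : 0 ≤ x) {h : E → ℝ → ℝ}
    (hc : ∀ e ∈ B, Continuous (h e))
    (hle : ∀ e ∈ B, ∀ y, 0 ≤ y → y ≤ x →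
      h e y ≤ 4 * ∑ T ∈ V.powerset.filter (fun T => e ∈ T), w T * y ^ (T.card - 1)) :
    (∫ y in (0:ℝ)..x, ∑ e ∈ B, h e y) ≤
      4 * ∑ T ∈ V.powerset.filter (fun T => ¬ Disjoint T B), w T * x ^ T.card := by
  have hcont : Continuous fun y : ℝ =>
      ∑ e ∈ B, 4 * ∑ T ∈ V.powerset.filter (fun T => e ∈ T), w T * y ^ (T.card - 1) := by
    fun_prop
  have h1 : (∫ y in (0:ℝ)..x, ∑ e ∈ B, h e y) ≤ ∫ y in (0:ℝ)..x,
      ∑ e ∈ B, 4 * ∑ T ∈ V.powerset.filter (fun T => e ∈ T), w T * y ^ (T.card - 1) := by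
    apply intervalIntegral.integral_mono_on hx
    · exact (continuous_finsetSum _ hc).intervalIntegrable _ _
    · exact hcont.intervalIntegrable _ _
    · intro y hy
      exact Finset.sum_le_sum fun e he => hle e he y hy.1 hy.2
  have h2 : (∫ y in (0:ℝ)..x,
      ∑ e ∈ B, 4 * ∑ T ∈ V.powerset.filter (fun T => e ∈ T), w T * y ^ (T.card - 1)) =
      ∑ e ∈ B, 4 * ∑ T ∈ V.powerset.filter (fun T => e ∈ T), w T * (x ^ T.card / T.card) := by
    rw [intervalIntegral.integral_finsetSum]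
    · apply Finset.sum_congr rfl
      intro e _
      rw [intervalIntegral.integral_const_mul, intervalIntegral.integral_finsetSum]
      · congr 1
        apply Finset.sum_congr rfl
        intro T hT
        have heT : e ∈ T := (Finset.mem_filter.mp hT).2
        have hpos : 0 < T.card := Finset.card_pos.mpr ⟨e, heT⟩
        rw [intervalIntegral.integral_const_mul, integral_pow, Nat.sub_add_cancel hpos,
          zero_pow hpos.ne', sub_zero]
        congr 2
        rw [Nat.cast_sub hpos]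
        push_cast
        ring
      · intro T _
        exact Continuous.intervalIntegrable (by fun_prop) _ _
    · intro e _
      exact Continuous.intervalIntegrable (by fun_prop) _ _
  rw [h2] at h1
  refine h1.trans ?_
  rw [← Finset.mul_sum]
  apply mul_le_mul_of_nonneg_left _ (by norm_num)
  have h3 : ∑ e ∈ B, ∑ T ∈ V.powerset.filter (fun T => e ∈ T), w T * (x ^ T.card / T.card) =
      ∑ T ∈ V.powerset, ((B ∩ T).card : ℝ) * (w T * (x ^ T.card / T.card)) := by
    simp only [Finset.sum_filter]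
    rw [Finset.sum_comm]
    apply Finset.sum_congr rfl
    intro T _
    rw [← Finset.sum_filter, Finset.sum_const, nsmul_eq_mul, Finset.filter_mem_eq_inter]
  rw [h3, Finset.sum_filter]
  apply Finset.sum_le_sum
  intro T hT
  have hTV := Finset.mem_powerset.mp hT
  by_cases hd : Disjoint T B
  · rw [if_neg (not_not.mpr hd), Finset.disjoint_iff_inter_eq_empty.mp hd.symm]
    simp
  · rw [if_pos hd]
    have hpos : 0 < T.card := by
      apply Finset.card_pos.mpr
      rw [Finset.nonempty_iff_ne_empty]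
      rintro rfl
      exact hd (Finset.disjoint_empty_left _)
    have hposR : (0:ℝ) < T.card := by exact_mod_cast hpos
    have hle : ((B ∩ T).card : ℝ) ≤ T.card := by
      exact_mod_cast Finset.card_le_card Finset.inter_subset_right
    have h0 : 0 ≤ w T * (x ^ T.card / T.card) :=
      mul_nonneg (hw T hTV) (div_nonneg (pow_nonneg hx _) hposR.le)
    calc ((B ∩ T).card : ℝ) * (w T * (x ^ T.card / T.card))
        ≤ (T.card : ℝ) * (w T * (x ^ T.card / T.card)) := mul_le_mul_of_nonneg_right hle h0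
      _ = w T * x ^ T.card := by field_simp

theorem d3_boxE_sub {L m : ℕ} (hL : 2 ≤ L) : boxE m ⊆ SR L m := by
  have h : m ≤ 2 * L * m := by nlinarith
  have h' : (m:ℤ) ≤ ((2 * L * m : ℕ) : ℤ) := by exact_mod_cast h
  unfold boxE SR
  apply RE_subset
  · linarith
  · linarith
  · exact le_refl _
  · exact le_refl _

theorem d3_dif_nonneg (I J : Set Vtx) (O : Finset Edg) (e : Edg) (F : Finset Edg) :
    0 ≤ dif e (fun F => fC I J (F ∪ O)) F := by
  have : ind (Cn I J (↑(F.erase e ∪ O) : Set Edg)) ≤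
      ind (Cn I J (↑(insert e F ∪ O) : Set Edg)) := by
    apply ind_mono
    intro h
    refine BS_Cn_mono ?_ h
    have h2 : F.erase e ∪ O ⊆ insert e F ∪ O :=
      Finset.union_subset_union_left ((Finset.erase_subset _ _).trans (Finset.subset_insert _ _))
    exact_mod_cast h2
  simp only [dif, fC]
  linarith

theorem d3_dif_of {I J : Set Vtx} {O : Finset Edg} {e : Edg} {F : Finset Edg} (he : e ∉ O)
    (h : Pv I J e (↑(F ∪ O) : Set Edg)) : dif e (fun F => fC I J (F ∪ O)) F = 1 := by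
  obtain ⟨h1, h2⟩ := h
  have e1 : (↑(insert e F ∪ O) : Set Edg) = insert e (↑(F ∪ O) : Set Edg) := by
    ext z; simp
  have e2 : (↑(F.erase e ∪ O) : Set Edg) = (↑(F ∪ O) : Set Edg) \ {e} := by
    ext z
    simp only [Finset.coe_union, Finset.coe_erase, Set.mem_union, Set.mem_sdiff, Finset.mem_coe,
      Set.mem_singleton_iff]
    constructor
    · rintro (⟨a, b⟩ | a)
      · exact ⟨Or.inl a, b⟩
      · exact ⟨Or.inr a, fun hb => he (hb ▸ a)⟩
    · rintro ⟨a | a, b⟩
      · exact Or.inl ⟨a, b⟩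
      · exact Or.inr a
  simp only [dif, fC]
  rw [e1, e2, ind_of h1, ind_not_of h2]
  norm_num

/-- Two-layer pivotality bound in terms of spectral weights. -/
theorem d3_point {p : Edg → ℝ} {S R O V : Finset Edg} {I J : Set Vtx} (hRO : Disjoint R O)
    (hS : R ∪ O ⊆ S) (hR : ∀ e ∈ R, p e = 1 / 2) (hO : ∀ e ∈ O, p e = 1)
    (hC : ∀ e ∈ S \ (R ∪ O), p e = 0) (hV : V ⊆ R) {A : Finset Edg → Prop} {e : Edg}
    (heV : e ∈ V) (hA : ∀ F : Finset Edg, F ⊆ R → A F → Pv I J e (↑(F ∪ O) : Set Edg))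
    {y : ℝ} (h0 : 0 ≤ y) (h1 : y ≤ 1) :
    P2 (fun _ => y) R A A ≤
      4 * ∑ T ∈ V.powerset.filter (fun T => e ∈ T), sp p S V (fC I J) T * y ^ (T.card - 1) := by
  have heO : e ∉ O := Finset.disjoint_left.mp hRO (hV heV)
  have s1 : P2 (fun _ => y) R A A ≤ P2 (fun e => if e ∈ V then y else 1) R A A := by
    apply P2_mono_param
    · intro _ _; exact h0
    · intro e' _
      split_ifs
      · exact le_refl _
      · exact h1
  have s2 : P2 (fun e => if e ∈ V then y else 1) R A A ≤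
      E2 (fun e => if e ∈ V then y else 1) R
        (fun F F' => dif e (fun F => fC I J (F ∪ O)) F * dif e (fun F => fC I J (F ∪ O)) F') := by
    apply E2_mono
    · intro e' _
      split_ifs
      · exact ⟨h0, h1⟩
      · exact ⟨zero_le_one, le_refl _⟩
    · intro F F' hF hF'
      have key : ∀ G : Finset Edg, G ⊆ R →
          ind (A G) ≤ dif e (fun F => fC I J (F ∪ O)) G := by
        intro G hG
        by_cases hAG : A G
        · rw [ind_of hAG, d3_dif_of heO (hA G hG hAG)]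
        · rw [ind_not_of hAG]; exact d3_dif_nonneg I J O e G
      exact mul_le_mul (key F hF) (key F' hF') (ind_nonneg _) (d3_dif_nonneg I J O e F)
  have s3 := E2_dif (S := R) (V := V) hV (fun F => fC I J (F ∪ O)) y heV
  refine (s1.trans s2).trans (le_of_eq ?_)
  rw [s3]
  congr 1
  apply Finset.sum_congr rfl
  intro T _
  rw [sp_env hRO hS hR hO hC hV (fC I J) T]

theorem d3_sp_nonneg {p : Edg → ℝ} (hp : Ok p) (S V : Finset Edg) (f : Finset Edg → ℝ)
    (T : Finset Edg) : 0 ≤ sp p S V f T := by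
  unfold sp
  exact Ex_nonneg hp (fun _ _ => sq_nonneg _)

theorem d3_sum_le_one {p : Edg → ℝ} (hp : Ok p) {S V : Finset Edg} (hV : V ⊆ S)
    (hp2 : ∀ e ∈ V, p e = 1 / 2) (I J : Set Vtx) :
    ∑ T ∈ V.powerset, sp p S V (fC I J) T ≤ 1 := by
  have h := sum_sp (p := p) (S := S) (V := V) (W := ∅) hV hp2 (Finset.empty_subset _) (fC I J)
  rw [Finset.sdiff_empty] at h
  rw [h]
  unfold UU
  apply Ex_le_of_le hp
  intro G _
  rw [Ex_empty]
  unfold fC
  have a := ind_nonneg (Cn I J (↑(G ∪ ∅ : Finset Edg) : Set Edg))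
  have b := ind_le_one (Cn I J (↑(G ∪ ∅ : Finset Edg) : Set Edg))
  nlinarith

/-- D3 -/
theorem pair_bound : ∃ C c : ℝ, 0 < C ∧ 0 < c ∧ ∀ (L m r ρ : ℕ), 2 ≤ L → 1 ≤ r → 8 * r ≤ ρ →
    64 * ρ ≤ m → ∀ (σ σ' : Bool) (k k' : ℤ), |2 * (r:ℤ) * k| ≤ (L * m : ℕ) + (r:ℤ) →
    |2 * (r:ℤ) * k'| ≤ (L * m : ℕ) + (r:ℤ) → ∀ x : ℝ, 0 ≤ x → x ≤ 1 →
      (∫ y in (0:ℝ)..x, ∑ e ∈ boxE (m / 4), P2 (fun _ => y) (SR L m)
          (fun F => Sev L m r ρ σ (2 * r * k) σ' (2 * r * k') e ↑F)
          (fun F => Sev L m r ρ σ (2 * r * k) σ' (2 * r * k') e ↑F)) ≤ 4 ∧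
      (x ≤ 1 - (m:ℝ) ^ (-(3/10) : ℝ) →
        (∫ y in (0:ℝ)..x, ∑ e ∈ boxE (m / 4), P2 (fun _ => y) (SR L m)
          (fun F => Sev L m r ρ σ (2 * r * k) σ' (2 * r * k') e ↑F)
          (fun F => Sev L m r ρ σ (2 * r * k) σ' (2 * r * k') e ↑F)) ≤ C * (m:ℝ) ^ (-c)) := by
  obtain ⟨C, c, hC, hc, hNS⟩ := noise_sens
  refine ⟨4 * C, c, by positivity, hc, ?_⟩
  intro L m r ρ hL hr hρ hm σ σ' k k' hk hk' x hx0 hx1
  obtain ⟨p, S, O, I, J, I', J', hD, hSub, hDis, hR, hO, hZ, hPv⟩ :=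
    env_rect hL hr hρ hm σ σ' k k' hk hk'
  have hV : boxE m ⊆ SR L m := d3_boxE_sub hL
  have hB : boxE (m / 4) ⊆ boxE m := boxE_mono (Nat.div_le_self _ _)
  have hm1 : 1 ≤ m := by omega
  have main : (∫ y in (0:ℝ)..x, ∑ e ∈ boxE (m / 4), P2 (fun _ => y) (SR L m)
          (fun F => Sev L m r ρ σ (2 * r * k) σ' (2 * r * k') e ↑F)
          (fun F => Sev L m r ρ σ (2 * r * k) σ' (2 * r * k') e ↑F)) ≤
      4 * ∑ T ∈ (boxE m).powerset.filter (fun T => ¬ Disjoint T (boxE (m / 4))),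
        sp p S (boxE m) (fC I J) T * x ^ T.card := by
    refine d3_int (h := fun e y => P2 (fun _ => y) (SR L m)
          (fun F => Sev L m r ρ σ (2 * r * k) σ' (2 * r * k') e ↑F)
          (fun F => Sev L m r ρ σ (2 * r * k) σ' (2 * r * k') e ↑F)) ?_ hx0 ?_ ?_
    · intro T _
      exact d3_sp_nonneg hD.ok _ _ _ _
    · intro e _
      exact P2_cont (fun y _ => y) (fun _ => continuous_id) _ _ _
    · intro e he y hy0 hy1
      exact d3_point hDis hSub hR hO hZ hV (hB he)
        (fun F hF hS => hPv e (hV (hB he)) F hF hS) hy0 (hy1.trans hx1)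
  refine ⟨main.trans ?_, fun hx => main.trans ?_⟩
  · have h1 : ∑ T ∈ (boxE m).powerset.filter (fun T => ¬ Disjoint T (boxE (m / 4))),
        sp p S (boxE m) (fC I J) T * x ^ T.card ≤ 1 := by
      refine le_trans ?_ (d3_sum_le_one hD.ok hD.sub hD.fair I J)
      refine le_trans (Finset.sum_le_sum (g := fun T => sp p S (boxE m) (fC I J) T) ?_) ?_
      · intro T _
        have := pow_le_one₀ hx0 hx1 (n := T.card)
        have h2 := d3_sp_nonneg hD.ok S (boxE m) (fC I J) T
        nlinarith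
      · exact Finset.sum_le_sum_of_subset_of_nonneg (Finset.filter_subset _ _)
          (fun T _ _ => d3_sp_nonneg hD.ok _ _ _ _)
    linarith
  · have h1 := hNS m hm1 p S I J I' J' hD x hx0 hx
    have h2 : ∑ T ∈ (boxE m).powerset.filter (fun T => ¬ Disjoint T (boxE (m / 4))),
        sp p S (boxE m) (fC I J) T * x ^ T.card ≤
        ∑ T ∈ (boxE m).powerset.filter (fun T => ¬ Disjoint T (boxE (m / 2))),
        sp p S (boxE m) (fC I J) T * x ^ T.card := by
      apply Finset.sum_le_sum_of_subset_of_nonneg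
      · intro T hT
        rw [Finset.mem_filter] at hT ⊢
        refine ⟨hT.1, fun hd => hT.2 ?_⟩
        exact Finset.disjoint_of_subset_right (boxE_mono (by omega)) hd
      · intro T _ _
        exact mul_nonneg (d3_sp_nonneg hD.ok _ _ _ _) (pow_nonneg hx0 _)
    nlinarith

end H389NS
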