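import Pool.Agent.H389R2.NS.D1
import Pool.Agent.H389R2.NS.D3
import Pool.Agent.H12R2.Sep.Key1

/-! Integrated two-layer four-arm probability. -/

set_option autoImplicit false

namespace H389NS

open H974 H12S Finset

namespace D4w

/-! ### Two-layer probabilities under embeddings -/

theorem sum_pow_map {E E' : Type*} [DecidableEq E] [DecidableEq E'] (φ : E ↪ E')
    (S : Finset E) (h : Finset E' → ℝ) :
    ∑ F ∈ (S.map φ).powerset, h F = ∑ F ∈ S.powerset, h (F.map φ) := by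
  symm
  refine Finset.sum_bij (fun F _ => F.map φ) ?_ ?_ ?_ ?_
  · intro F hF
    rw [Finset.mem_powerset] at hF ⊢
    exact Finset.map_subset_map.mpr hF
  · intro F _ F' _ hFF
    exact Finset.map_injective φ hFF
  · intro G hG
    rw [Finset.mem_powerset, Finset.subset_map_iff] at hG
    obtain ⟨F, hF, hFG⟩ := hG
    exact ⟨F, Finset.mem_powerset.mpr hF, hFG.symm⟩
  · intro F _
    rfl

theorem P2_map {E E' : Type*} [DecidableEq E] [DecidableEq E'] (ρ : E' → ℝ) (φ : E ↪ E')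
    (S : Finset E) (A B : Finset E' → Prop) :
    P2 ρ (S.map φ) A B =
      P2 (fun e => ρ (φ e)) S (fun F => A (F.map φ)) (fun F => B (F.map φ)) := by
  classical
  unfold P2 E2
  rw [sum_pow_map]
  refine Finset.sum_congr rfl (fun F _ => ?_)
  rw [sum_pow_map]
  refine Finset.sum_congr rfl (fun F' _ => ?_)
  congr 1
  rw [Finset.prod_map]
  refine Finset.prod_congr rfl (fun e _ => ?_)
  simp only [Finset.mem_map']

theorem P2_mono_ev {E : Type*} [DecidableEq E] {ρ : E → ℝ} {S : Finset E}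
    (hρ : ∀ e ∈ S, 0 ≤ ρ e ∧ ρ e ≤ 1) {A A' B B' : Finset E → Prop}
    (hA : ∀ F, F ⊆ S → A F → A' F) (hB : ∀ F, F ⊆ S → B F → B' F) :
    P2 ρ S A B ≤ P2 ρ S A' B' := by
  classical
  unfold P2
  apply E2_mono hρ
  intro F F' hF hF'
  exact mul_le_mul (ind_mono (hA F hF)) (ind_mono (hB F' hF')) (ind_nonneg _) (ind_nonneg _)

theorem P2_congr_ev {E : Type*} [DecidableEq E] {ρ : E → ℝ} {S : Finset E}
    {A A' B B' : Finset E → Prop}
    (hA : ∀ F, F ⊆ S → (A F ↔ A' F)) (hB : ∀ F, F ⊆ S → (B F ↔ B' F)) :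
    P2 ρ S A B = P2 ρ S A' B' := by
  classical
  unfold P2 E2
  refine Finset.sum_congr rfl (fun F hF => ?_)
  refine Finset.sum_congr rfl (fun F' hF' => ?_)
  rw [Finset.mem_powerset] at hF hF'
  have h1 : A F = A' F := propext (hA F hF)
  have h2 : B F' = B' F' := propext (hB F' hF')
  beta_reduce
  rw [h1, h2]

theorem P2_nonneg' {E : Type*} [DecidableEq E] {ρ : E → ℝ} {S : Finset E}
    (hρ : ∀ e ∈ S, 0 ≤ ρ e ∧ ρ e ≤ 1) (A B : Finset E → Prop) : 0 ≤ P2 ρ S A B := by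
  unfold P2
  apply E2_nonneg hρ
  intro F F' _ _
  exact mul_nonneg (ind_nonneg _) (ind_nonneg _)

/-- Half of `a42`. -/
noncomputable def a42b (x : ℝ) (k : ℕ) (b : Bool) : ℝ :=
  P2 (fun _ => x) (boxE k) (fun F => A4 (-k) k (-k) k (e0 b) ↑F)
      (fun F => A4 (-k) k (-k) k (e0 b) ↑F)

theorem a42_eq (x : ℝ) (k : ℕ) : a42 x k = a42b x k true + a42b x k false := rfl

theorem a42b_nonneg {x : ℝ} (h0 : 0 ≤ x) (h1 : x ≤ 1) (k : ℕ) (b : Bool) : 0 ≤ a42b x k b :=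
  P2_nonneg' (fun _ _ => ⟨h0, h1⟩) _ _

/-- Two-layer four-arm events in a ball around an edge. -/
theorem P2_A4_ball {q : ℝ} {x y : ℤ} {k : ℕ} {b : Bool} {S : Finset Edg}
    (hS : RE (x - k) (x + k) (y - k) (y + k) ⊆ S) :
    P2 (fun _ => q) S (fun F => A4 (x - k) (x + k) (y - k) (y + k) (x, y, b) ↑F)
      (fun F => A4 (x - k) (x + k) (y - k) (y + k) (x, y, b) ↑F) = a42b q k b := by
  have e0' : P2 (fun _ => q) S (fun F => A4 (x - k) (x + k) (y - k) (y + k) (x, y, b) ↑F)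
      (fun F => A4 (x - k) (x + k) (y - k) (y + k) (x, y, b) ↑F) =
      P2 (fun _ => q) (RE (x - k) (x + k) (y - k) (y + k))
        (fun F => A4 (x - k) (x + k) (y - k) (y + k) (x, y, b) ↑F)
        (fun F => A4 (x - k) (x + k) (y - k) (y + k) (x, y, b) ↑F) :=
    P2_local hS (fun F _ => A4_inter (Finset.Subset.refl _))
      (fun F _ => A4_inter (Finset.Subset.refl _))
  have e1 : RE (x - k) (x + k) (y - k) (y + k) = (trl x y).mp (boxE k) := by
    unfold boxE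
    rw [trl_RE]
    congr 1 <;> ring
  have e2 : P2 (fun _ => q) (RE (x - k) (x + k) (y - k) (y + k))
        (fun F => A4 (x - k) (x + k) (y - k) (y + k) (x, y, b) ↑F)
        (fun F => A4 (x - k) (x + k) (y - k) (y + k) (x, y, b) ↑F) =
      P2 (fun _ => q) (boxE k)
        (fun F => A4 (x - k) (x + k) (y - k) (y + k) (x, y, b) ↑((trl x y).mp F))
        (fun F => A4 (x - k) (x + k) (y - k) (y + k) (x, y, b) ↑((trl x y).mp F)) := by
    rw [e1]
    exact P2_map _ _ _ _ _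
  rw [e0', e2]
  unfold a42b
  apply P2_congr_ev
  · intro F _
    rw [LSym.coe_mp]
    exact A4_trl
  · intro F _
    rw [LSym.coe_mp]
    exact A4_trl

/-- The two-layer four-arm probability in the thin box dominates the one in a large ball. -/
theorem thin_ge2 {q : ℝ} (h0 : 0 ≤ q) (h1 : q ≤ 1) {L m : ℕ} (hL : 2 ≤ L) (hm : 64 ≤ m)
    {x y : ℤ} {b : Bool} (he : (x, y, b) ∈ boxE (m / 4)) :
    a42b q (4 * L * m) b ≤ P2 (fun _ => q) (SR L m)
      (fun F => A4 (-(2 * L * m : ℕ)) (2 * L * m : ℕ) (-m) m (x, y, b) ↑F)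
      (fun F => A4 (-(2 * L * m : ℕ)) (2 * L * m : ℕ) (-m) m (x, y, b) ↑F) := by
  obtain ⟨N, hN⟩ : ∃ N : ℕ, N = L * m := ⟨_, rfl⟩
  have hN2 : 2 * L * m = 2 * N := by rw [hN]; ring
  have hN4 : 4 * L * m = 4 * N := by rw [hN]; ring
  have hNm : 2 * m ≤ N := by rw [hN]; exact Nat.mul_le_mul_right _ hL
  unfold SR
  rw [hN2, hN4]
  have hb := mem_boxE_bounds he
  have hsub : RE (-((2 * N : ℕ) : ℤ)) ((2 * N : ℕ) : ℤ) (-m) m ⊆
      RE (x - (4 * N : ℕ)) (x + (4 * N : ℕ)) (y - (4 * N : ℕ)) (y + (4 * N : ℕ)) :=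
    RE_subset (by omega) (by omega) (by omega) (by omega)
  have hmem : (x, y, b) ∈ RE (-((2 * N : ℕ) : ℤ)) ((2 * N : ℕ) : ℤ) (-m) m := by
    unfold boxE at he
    cases b
    · rw [mem_RE_false] at he ⊢; omega
    · rw [mem_RE_true] at he ⊢; omega
  have e1 : P2 (fun _ => q)
        (RE (x - (4 * N : ℕ)) (x + (4 * N : ℕ)) (y - (4 * N : ℕ)) (y + (4 * N : ℕ)))
      (fun F => A4 (-((2 * N : ℕ) : ℤ)) ((2 * N : ℕ) : ℤ) (-m) m (x, y, b) ↑F)
      (fun F => A4 (-((2 * N : ℕ) : ℤ)) ((2 * N : ℕ) : ℤ) (-m) m (x, y, b) ↑F) =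
      P2 (fun _ => q) (RE (-((2 * N : ℕ) : ℤ)) ((2 * N : ℕ) : ℤ) (-m) m)
      (fun F => A4 (-((2 * N : ℕ) : ℤ)) ((2 * N : ℕ) : ℤ) (-m) m (x, y, b) ↑F)
      (fun F => A4 (-((2 * N : ℕ) : ℤ)) ((2 * N : ℕ) : ℤ) (-m) m (x, y, b) ↑F) :=
    P2_local hsub (fun F _ => A4_inter (Finset.Subset.refl _))
      (fun F _ => A4_inter (Finset.Subset.refl _))
  have e2 : a42b q (4 * N) b = _ :=
    (P2_A4_ball (q := q) (x := x) (y := y) (k := 4 * N) (b := b) (Finset.Subset.refl _)).symm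
  rw [e2, ← e1]
  apply P2_mono_ev (fun _ _ => ⟨h0, h1⟩)
  · intro F _ hF
    exact A4_sub (by omega) (by omega) (by omega) (by omega) hmem hF
  · intro F _ hF
    exact A4_sub (by omega) (by omega) (by omega) (by omega) hmem hF

theorem a42_sum_ge {q : ℝ} (h0 : 0 ≤ q) (h1 : q ≤ 1) {L m : ℕ} (hL : 2 ≤ L) (hm : 64 ≤ m) :
    (2 * ((m / 4 : ℕ) : ℝ)) ^ 2 * a42 q (4 * L * m) ≤ ∑ e ∈ boxE (m / 4),
      P2 (fun _ => q) (SR L m)
      (fun F => A4 (-(2 * L * m : ℕ)) (2 * L * m : ℕ) (-m) m e ↑F)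
      (fun F => A4 (-(2 * L * m : ℕ)) (2 * L * m : ℕ) (-m) m e ↑F) := by
  have h3 := sum_orient_ge (n := m / 4) (f := a42b q (4 * L * m)) (a42b_nonneg h0 h1 _)
  calc (2 * ((m / 4 : ℕ) : ℝ)) ^ 2 * a42 q (4 * L * m)
      ≤ ∑ e ∈ boxE (m / 4), a42b q (4 * L * m) e.2.2 := h3
    _ ≤ _ := by
        apply Finset.sum_le_sum
        rintro ⟨x, y, b⟩ he
        exact thin_ge2 h0 h1 hL hm he

theorem card_boxE2 (n : ℕ) : ((boxE n).card : ℝ) ≤ 2 * (2 * (n:ℝ) + 1) ^ 2 := by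
  have h1 : (boxE n).card ≤ (2 * n + 1) * ((2 * n + 1) * 2) := by
    unfold boxE RE
    refine (Finset.card_filter_le _ _).trans ?_
    rw [Finset.card_product, Finset.card_product, Int.card_Icc]
    have e1 : ((n : ℤ) + 1 - (-(n : ℤ))).toNat = 2 * n + 1 := by omega
    rw [e1]
    simp
  have h2 : ((boxE n).card : ℝ) ≤ (2 * (n : ℝ) + 1) * ((2 * (n : ℝ) + 1) * 2) := by
    exact_mod_cast h1
  linarith [h2, sq (2 * (n:ℝ) + 1)]

theorem card_prs (L m r N : ℕ) : ((prs L m r N).card : ℝ) ≤ (2 * (2 * (N:ℝ) + 1)) ^ 2 := by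
  have h1 : (prs L m r N).card ≤ (2 * (2 * N + 1)) * (2 * (2 * N + 1)) := by
    unfold prs
    refine (Finset.card_filter_le _ _).trans ?_
    rw [Finset.card_product, Finset.card_product, Int.card_Icc]
    have e1 : ((N : ℤ) + 1 - (-(N : ℤ))).toNat = 2 * N + 1 := by omega
    rw [e1]
    simp
  have h2 : ((prs L m r N).card : ℝ) ≤ (2 * (2 * (N:ℝ) + 1)) * (2 * (2 * (N:ℝ) + 1)) := by
    exact_mod_cast h1
  linarith [h2, sq (2 * (2 * (N:ℝ) + 1))]

/-- The integrated two-layer four-arm sum. -/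
noncomputable def gsq (x : ℝ) (j : ℕ) : ℝ := (j:ℝ) ^ 2 * ∫ y in (0:ℝ)..x, a42 y j

theorem a42_int (x : ℝ) (j : ℕ) : IntervalIntegrable (fun y => a42 y j) MeasureTheory.volume 0 x :=
  (a42_cont j).intervalIntegrable _ _

theorem int_nonneg {x : ℝ} (h0 : 0 ≤ x) (h1 : x ≤ 1) (j : ℕ) :
    0 ≤ ∫ y in (0:ℝ)..x, a42 y j :=
  intervalIntegral.integral_nonneg h0 (fun _ hy => a42_nonneg hy.1 (hy.2.trans h1) j)

theorem int_le_two {x : ℝ} (h0 : 0 ≤ x) (h1 : x ≤ 1) (j : ℕ) :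
    (∫ y in (0:ℝ)..x, a42 y j) ≤ 2 := by
  have h : (∫ y in (0:ℝ)..x, a42 y j) ≤ ∫ _y in (0:ℝ)..x, (2:ℝ) :=
    intervalIntegral.integral_mono_on h0 (a42_int x j) (by simp)
      (fun _ hy => a42_le_two hy.1 (hy.2.trans h1) j)
  rw [intervalIntegral.integral_const, smul_eq_mul] at h
  linarith

theorem int_anti {x : ℝ} (h0 : 0 ≤ x) (h1 : x ≤ 1) {i j : ℕ} (hi : 1 ≤ i) (hij : i ≤ j) :
    (∫ y in (0:ℝ)..x, a42 y j) ≤ ∫ y in (0:ℝ)..x, a42 y i :=
  intervalIntegral.integral_mono_on h0 (a42_int x j) (a42_int x i)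
      (fun _ hy => a42_anti hy.1 (hy.2.trans h1) hi hij)

theorem gsq_nonneg {x : ℝ} (h0 : 0 ≤ x) (h1 : x ≤ 1) (j : ℕ) : 0 ≤ gsq x j :=
  mul_nonneg (by positivity) (int_nonneg h0 h1 j)

/-- One step of the recursion. -/
theorem step : ∃ (L M : ℕ) (C c : ℝ), 2 ≤ L ∧ 512 ≤ M ∧ 0 < C ∧ 0 < c ∧ ∀ m : ℕ, M ≤ m →
    ∀ x : ℝ, 0 ≤ x → x ≤ 1 → ∀ j : ℕ, 4 * L * m ≤ j → j ≤ 4 * L * (m + 1) →
      gsq x j ≤ C + 3 / 5 * gsq x (m / 8) ∧
      (x ≤ 1 - (m:ℝ) ^ (-(3/10) : ℝ) → gsq x j ≤ C * (m:ℝ) ^ (-c) + 3 / 5 * gsq x (m / 8)) := by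
  obtain ⟨L, M1, M2, N, K, hL, hM1, hM2, hK, HX⟩ := two_exit
  obtain ⟨C, c, hC, hc, HP⟩ := pair_bound
  set Q : ℝ := (2 * (2 * (N:ℝ) + 1)) ^ 2 with hQ
  have hQ0 : 0 < Q := by positivity
  have hLp : (0:ℝ) < L := by exact_mod_cast (by omega : 0 < L)
  refine ⟨L, M2, 80 * (L:ℝ) ^ 2 * K * Q * (4 + C), c, hL, by omega, by positivity, hc, ?_⟩
  intro m hm x h0 h1 j hj1 hj2
  have hm512 : 512 ≤ m := by omega
  have hM2pos : 0 < M2 := by omega
  have hM1pos : 0 < M1 := by omega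
  have hr : 1 ≤ m / M2 := (Nat.one_le_div_iff hM2pos).mpr hm
  have hrρ : 8 * (m / M2) ≤ m / M1 := by
    rw [Nat.le_div_iff_mul_le hM1pos]
    calc 8 * (m / M2) * M1 = (8 * M1) * (m / M2) := by ring
      _ ≤ M2 * (m / M2) := Nat.mul_le_mul_right _ hM2
      _ ≤ m := Nat.mul_div_le m M2
  have hρm : 64 * (m / M1) ≤ m := by
    calc 64 * (m / M1) ≤ M1 * (m / M1) := Nat.mul_le_mul_right _ hM1
      _ ≤ m := Nat.mul_div_le m M1
  -- the sums of the separated events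
  set SV : ((Bool × ℤ) × (Bool × ℤ)) → ℝ → ℝ := fun p y =>
    ∑ e ∈ boxE (m / 4), P2 (fun _ => y) (SR L m)
          (fun F => Sev L m (m / M2) (m / M1) p.1.1 (2 * (m / M2 : ℕ) * p.1.2) p.2.1
            (2 * (m / M2 : ℕ) * p.2.2) e ↑F)
          (fun F => Sev L m (m / M2) (m / M1) p.1.1 (2 * (m / M2 : ℕ) * p.1.2) p.2.1
            (2 * (m / M2 : ℕ) * p.2.2) e ↑F) with hSV
  have hSVc : ∀ p, Continuous (SV p) := by
    intro p
    rw [hSV]
    exact continuous_finsetSum _ (fun e _ => P2_cont (fun y _ => y) (fun _ => continuous_id) _ _ _)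
  set D : ℝ := ((boxE (m / 4)).card : ℝ) * (1 / (4096 * (L:ℝ) ^ 2)) with hD
  have hD0 : 0 ≤ D := by positivity
  have hpt : ∀ y ∈ Set.Icc (0:ℝ) x, (2 * ((m / 4 : ℕ) : ℝ)) ^ 2 * a42 y (4 * L * m) ≤
      K * (∑ p ∈ prs L m (m / M2) N, SV p y) + D * a42 y (m / 8) := by
    intro y hy
    have hy1 : y ≤ 1 := hy.2.trans h1
    refine (a42_sum_ge hy.1 hy1 hL (by omega)).trans ?_
    refine (Finset.sum_le_sum (fun e he => HX m hm y hy.1 hy1 e he)).trans (le_of_eq ?_)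
    rw [Finset.sum_add_distrib, Finset.sum_const, nsmul_eq_mul, ← Finset.mul_sum,
      Finset.sum_comm, hD, hSV]
    ring
  have hint : (2 * ((m / 4 : ℕ) : ℝ)) ^ 2 * (∫ y in (0:ℝ)..x, a42 y (4 * L * m)) ≤
      K * (∑ p ∈ prs L m (m / M2) N, ∫ y in (0:ℝ)..x, SV p y) +
        D * (∫ y in (0:ℝ)..x, a42 y (m / 8)) := by
    have hi1 : IntervalIntegrable (fun y => K * (∑ p ∈ prs L m (m / M2) N, SV p y))
        MeasureTheory.volume 0 x :=
      (continuous_const.mul (continuous_finsetSum _ (fun p _ => hSVc p))).intervalIntegrable _ _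
    have hi2 : IntervalIntegrable (fun y => D * a42 y (m / 8)) MeasureTheory.volume 0 x :=
      (continuous_const.mul (a42_cont _)).intervalIntegrable _ _
    have hi0 : IntervalIntegrable (fun y => (2 * ((m / 4 : ℕ) : ℝ)) ^ 2 * a42 y (4 * L * m))
        MeasureTheory.volume 0 x :=
      (continuous_const.mul (a42_cont (4 * L * m))).intervalIntegrable 0 x
    have h : (∫ y in (0:ℝ)..x, (2 * ((m / 4 : ℕ) : ℝ)) ^ 2 * a42 y (4 * L * m)) ≤
        ∫ y in (0:ℝ)..x, (K * (∑ p ∈ prs L m (m / M2) N, SV p y) + D * a42 y (m / 8)) :=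
      intervalIntegral.integral_mono_on h0 hi0 (hi1.add hi2) hpt
    rw [intervalIntegral.integral_add hi1 hi2, intervalIntegral.integral_const_mul,
      intervalIntegral.integral_const_mul, intervalIntegral.integral_const_mul,
      intervalIntegral.integral_finsetSum
        (fun p _ => (hSVc p).intervalIntegrable _ _)] at h
    exact h
  have main : ∀ H : ℝ, 0 ≤ H → (∀ p ∈ prs L m (m / M2) N, (∫ y in (0:ℝ)..x, SV p y) ≤ H) →
      gsq x j ≤ 80 * (L:ℝ) ^ 2 * K * Q * H + 3 / 5 * gsq x (m / 8) := by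
    intro H hH hp
    have hsum : (∑ p ∈ prs L m (m / M2) N, ∫ y in (0:ℝ)..x, SV p y) ≤ Q * H := by
      calc (∑ p ∈ prs L m (m / M2) N, ∫ y in (0:ℝ)..x, SV p y)
          ≤ ∑ _p ∈ prs L m (m / M2) N, H := Finset.sum_le_sum hp
        _ = ((prs L m (m / M2) N).card : ℝ) * H := by rw [Finset.sum_const, nsmul_eq_mul]
        _ ≤ Q * H := mul_le_mul_of_nonneg_right (card_prs L m (m / M2) N) hH
    set n : ℝ := ((m / 4 : ℕ) : ℝ) with hn
    set i : ℝ := ((m / 8 : ℕ) : ℝ) with hi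
    have hn1 : (m:ℝ) ≤ 4 * n + 3 := by
      have : m ≤ 4 * (m / 4) + 3 := by omega
      rw [hn]
      exact_mod_cast this
    have hn128 : 128 ≤ n := by
      have : 128 ≤ m / 4 := by omega
      rw [hn]
      exact_mod_cast this
    have hi64 : 64 ≤ i := by
      have : 64 ≤ m / 8 := by omega
      rw [hi]
      exact_mod_cast this
    have hi1 : (m:ℝ) + 1 ≤ 8 * (i + 1) := by
      have : m + 1 ≤ 8 * (m / 8 + 1) := by omega
      rw [hi]
      exact_mod_cast this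
    have hmR : (512:ℝ) ≤ m := by exact_mod_cast hm512
    set X := ∫ y in (0:ℝ)..x, a42 y (4 * L * m) with hX
    set Z := ∫ y in (0:ℝ)..x, a42 y (m / 8) with hZ
    have hX0 : 0 ≤ X := int_nonneg h0 h1 _
    have hZ0 : 0 ≤ Z := int_nonneg h0 h1 _
    have hcard : D ≤ 2 * (2 * n + 1) ^ 2 * (1 / (4096 * (L:ℝ) ^ 2)) :=
      mul_le_mul_of_nonneg_right (card_boxE2 (m / 4)) (by positivity)
    have hX1 : (2 * n) ^ 2 * X ≤ K * (Q * H) + 2 * (2 * n + 1) ^ 2 * (1 / (4096 * (L:ℝ) ^ 2)) * Z := by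
      refine hint.trans ?_
      exact add_le_add (mul_le_mul_of_nonneg_left hsum hK.le) (mul_le_mul_of_nonneg_right hcard hZ0)
    have hjR : (j:ℝ) ≤ 4 * L * (m + 1) := by exact_mod_cast hj2
    have h4L : 1 ≤ 4 * L * m := by
      have : 0 < L * m := Nat.mul_pos (by omega) (by omega)
      nlinarith
    have hG : gsq x j ≤ (4 * L * (m + 1)) ^ 2 * X := by
      unfold gsq
      refine mul_le_mul ?_ (int_anti h0 h1 h4L hj1) (int_nonneg h0 h1 j) (by positivity)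
      exact pow_le_pow_left₀ (by positivity) hjR 2
    have hn2 : (0:ℝ) < (2 * n) ^ 2 := by positivity
    -- first factor
    have hf1 : ((m:ℝ) + 1) ^ 2 ≤ 5 * (2 * n) ^ 2 := by nlinarith
    have hf2 : ((m:ℝ) + 1) ^ 2 * (2 * n + 1) ^ 2 ≤ 384 / 5 * ((2 * n) ^ 2 * i ^ 2) := by
      have g1 : (m:ℝ) + 1 ≤ 65 / 8 * i := by linarith
      have g2 : 2 * n + 1 ≤ 257 / 256 * (2 * n) := by linarith
      have g3 : ((m:ℝ) + 1) ^ 2 ≤ (65 / 8 * i) ^ 2 := pow_le_pow_left₀ (by positivity) g1 2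
      have g4 : (2 * n + 1) ^ 2 ≤ (257 / 256 * (2 * n)) ^ 2 := pow_le_pow_left₀ (by positivity) g2 2
      calc ((m:ℝ) + 1) ^ 2 * (2 * n + 1) ^ 2 ≤ (65 / 8 * i) ^ 2 * (257 / 256 * (2 * n)) ^ 2 :=
            mul_le_mul g3 g4 (by positivity) (by positivity)
        _ = (65 / 8) ^ 2 * (257 / 256) ^ 2 * ((2 * n) ^ 2 * i ^ 2) := by ring
        _ ≤ 384 / 5 * ((2 * n) ^ 2 * i ^ 2) :=
            mul_le_mul_of_nonneg_right (by norm_num) (by positivity)
    -- conclusion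
    have hfin : (2 * n) ^ 2 * gsq x j ≤ (2 * n) ^ 2 *
        (80 * (L:ℝ) ^ 2 * K * Q * H + 3 / 5 * (i ^ 2 * Z)) := by
      calc (2 * n) ^ 2 * gsq x j ≤ (2 * n) ^ 2 * ((4 * L * (m + 1)) ^ 2 * X) :=
            mul_le_mul_of_nonneg_left hG hn2.le
        _ = (4 * L * (m + 1)) ^ 2 * ((2 * n) ^ 2 * X) := by ring
        _ ≤ (4 * L * (m + 1)) ^ 2 * (K * (Q * H) +
              2 * (2 * n + 1) ^ 2 * (1 / (4096 * (L:ℝ) ^ 2)) * Z) :=
            mul_le_mul_of_nonneg_left hX1 (by positivity)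
        _ = 16 * (L:ℝ) ^ 2 * K * Q * H * ((m:ℝ) + 1) ^ 2 +
              1 / 128 * (((m:ℝ) + 1) ^ 2 * (2 * n + 1) ^ 2) * Z := by
            field_simp
            ring
        _ ≤ 16 * (L:ℝ) ^ 2 * K * Q * H * (5 * (2 * n) ^ 2) +
              1 / 128 * (384 / 5 * ((2 * n) ^ 2 * i ^ 2)) * Z := by
            apply add_le_add
            · exact mul_le_mul_of_nonneg_left hf1 (by positivity)
            · exact mul_le_mul_of_nonneg_right
                (mul_le_mul_of_nonneg_left hf2 (by norm_num)) hZ0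
        _ = (2 * n) ^ 2 * (80 * (L:ℝ) ^ 2 * K * Q * H + 3 / 5 * (i ^ 2 * Z)) := by ring
    have := le_of_mul_le_mul_left hfin hn2
    exact this
  have hmem : ∀ p ∈ prs L m (m / M2) N,
      |2 * ((m / M2 : ℕ):ℤ) * p.1.2| ≤ (L * m : ℕ) + ((m / M2 : ℕ):ℤ) ∧
      |2 * ((m / M2 : ℕ):ℤ) * p.2.2| ≤ (L * m : ℕ) + ((m / M2 : ℕ):ℤ) := by
    intro p hp
    unfold prs at hp
    rw [Finset.mem_filter] at hp
    exact hp.2
  constructor
  · refine (main 4 (by norm_num) ?_).trans ?_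
    · intro p hp
      obtain ⟨p1, p2⟩ := hmem p hp
      exact (HP L m (m / M2) (m / M1) hL hr hrρ hρm p.1.1 p.2.1 p.1.2 p.2.2 p1 p2 x h0 h1).1
    · have : 0 ≤ 80 * (L:ℝ) ^ 2 * K * Q * C := by positivity
      linarith
  · intro hx
    refine (main (C * (m:ℝ) ^ (-c)) (by positivity) ?_).trans ?_
    · intro p hp
      obtain ⟨p1, p2⟩ := hmem p hp
      exact (HP L m (m / M2) (m / M1) hL hr hrρ hρm p.1.1 p.2.1 p.1.2 p.2.2 p1 p2 x h0 h1).2 hx
    · have : 0 ≤ 80 * (L:ℝ) ^ 2 * K * Q * 4 * (m:ℝ) ^ (-c) := by positivity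
      linarith

theorem gsq_le {x : ℝ} (h0 : 0 ≤ x) (h1 : x ≤ 1) (j : ℕ) : gsq x j ≤ 2 * (j:ℝ) ^ 2 := by
  unfold gsq
  have h := mul_le_mul_of_nonneg_left (int_le_two h0 h1 j) (by positivity : (0:ℝ) ≤ (j:ℝ) ^ 2)
  linarith

/-- The scale below `j`. -/
theorem scale {L M j : ℕ} (hL : 2 ≤ L) (hM : 512 ≤ M) (hj : 4 * L * M ≤ j) :
    M ≤ j / (4 * L) ∧ 4 * L * (j / (4 * L)) ≤ j ∧ j ≤ 4 * L * (j / (4 * L) + 1) ∧
      1 ≤ j / (4 * L) / 8 ∧ j / (4 * L) / 8 < j := by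
  have hLp : 0 < 4 * L := by omega
  have h1 : M ≤ j / (4 * L) := by
    rw [Nat.le_div_iff_mul_le hLp]
    linarith
  have h2 : 4 * L * (j / (4 * L)) ≤ j := Nat.mul_div_le _ _
  have h3 : j < 4 * L * (j / (4 * L) + 1) := Nat.lt_mul_div_succ j hLp
  have h4 : j / (4 * L) ≤ j := Nat.div_le_self _ _
  exact ⟨h1, h2, h3.le, by omega, by omega⟩

end D4w

open D4w in
/-- D4 -/
theorem a42_bound : ∃ C c : ℝ, 0 < C ∧ 0 < c ∧ ∀ k : ℕ, 1 ≤ k → ∀ x : ℝ, 0 ≤ x → x ≤ 1 →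
    (k:ℝ) ^ 2 * (∫ y in (0:ℝ)..x, a42 y k) ≤ C ∧
    (x ≤ 1 - (k:ℝ) ^ (-(7/25) : ℝ) → (k:ℝ) ^ 2 * (∫ y in (0:ℝ)..x, a42 y k) ≤ C * (k:ℝ) ^ (-c)) := by
  obtain ⟨L, M, C, c, hL, hM, hC, hc, HS⟩ := step
  have hLp : (0:ℝ) < L := by exact_mod_cast (by omega : 0 < L)
  have hL2 : (2:ℝ) ≤ L := by exact_mod_cast hL
  have hMp : (512:ℝ) ≤ M := by exact_mod_cast hM
  -- first claim
  set J : ℝ := 4 * L * M with hJ
  have hJ1 : 1 ≤ J := by nlinarith
  set B : ℝ := 2 * J ^ 2 + 5 / 2 * C with hB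
  have hB0 : 0 < B := by positivity
  have first : ∀ x : ℝ, 0 ≤ x → x ≤ 1 → ∀ j : ℕ, 1 ≤ j → gsq x j ≤ B := by
    intro x h0 h1 j
    induction j using Nat.strong_induction_on with
    | _ j ih =>
      intro hj
      by_cases hjJ : 4 * L * M ≤ j
      · obtain ⟨s1, s2, s3, s4, s5⟩ := scale hL hM hjJ
        have h2 := (HS _ s1 x h0 h1 j s2 s3).1
        have h3 := ih _ s5 s4
        have : 0 ≤ J ^ 2 := by positivity
        linarith
      · have h2 := gsq_le h0 h1 j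
        have h3 : (j:ℝ) ≤ J := by
          have : j ≤ 4 * L * M := by omega
          rw [hJ]
          exact_mod_cast this
        have h4 : (j:ℝ) ^ 2 ≤ J ^ 2 := pow_le_pow_left₀ (by positivity) h3 2
        linarith
  -- the exponent
  have h64 : (1:ℝ) < 64 * L := by linarith
  obtain ⟨γ, hγ, hγ2⟩ : ∃ γ : ℝ, 0 < γ ∧ (64 * (L:ℝ)) ^ γ = 5 / 3 := by
    refine ⟨Real.log (5 / 3) / Real.log (64 * L), div_pos (Real.log_pos (by norm_num))
      (Real.log_pos h64), ?_⟩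
    rw [Real.rpow_def_of_pos (by linarith), mul_div_cancel₀ _ (Real.log_pos h64).ne',
      Real.exp_log (by norm_num)]
  set A : ℝ := B * J ^ γ + 5 / 2 * C with hA
  have hJγ : 1 ≤ J ^ γ := Real.one_le_rpow hJ1 hγ.le
  have hA0 : 0 < A := by positivity
  have hBA : B ≤ A := by nlinarith
  -- second claim
  have second : ∀ x : ℝ, 0 ≤ x → x ≤ 1 → ∀ T : ℝ, 1 ≤ T → x ≤ 1 - T ^ (-(3/10) : ℝ) →
      ∀ j : ℕ, 1 ≤ j → gsq x j ≤ A * (T ^ (-c) + (T / j) ^ γ) := by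
    intro x h0 h1 T hT hxT j
    have hT0 : 0 < T := by linarith
    have hTc : 0 < T ^ (-c) := Real.rpow_pos_of_pos hT0 _
    induction j using Nat.strong_induction_on with
    | _ j ih =>
      intro hj
      have hjp : (0:ℝ) < j := by exact_mod_cast hj
      -- the trivial case
      have triv : (j:ℝ) ≤ J * T → gsq x j ≤ A * (T ^ (-c) + (T / j) ^ γ) := by
        intro h
        have h2 : (1 / J) ≤ T / j := by
          rw [div_le_div_iff₀ (by linarith) hjp]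
          linarith
        have h3 : (1 / J) ^ γ ≤ (T / j) ^ γ :=
          Real.rpow_le_rpow (by positivity) h2 hγ.le
        have h4 : J ^ γ * (1 / J) ^ γ = 1 := by
          rw [← Real.mul_rpow (by linarith) (by positivity), mul_one_div_cancel (by linarith),
            Real.one_rpow]
        calc gsq x j ≤ B := first x h0 h1 j hj
          _ = B * (J ^ γ * (1 / J) ^ γ) := by rw [h4, mul_one]
          _ = (B * J ^ γ) * (1 / J) ^ γ := by ring
          _ ≤ A * (T / j) ^ γ := mul_le_mul (by linarith) h3 (by positivity) hA0.le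
          _ ≤ A * (T ^ (-c) + (T / j) ^ γ) :=
              mul_le_mul_of_nonneg_left (by linarith) hA0.le
      by_cases hjJ : 4 * L * M ≤ j
      · obtain ⟨s1, s2, s3, s4, s5⟩ := scale hL hM hjJ
        set m := j / (4 * L) with hm
        have hm512 : 512 ≤ m := by omega
        have hmR : (512:ℝ) ≤ m := by exact_mod_cast hm512
        have s3R : (j:ℝ) ≤ 4 * L * (m + 1) := by exact_mod_cast s3
        by_cases hmT : T ≤ (m:ℝ)
        · have hx : x ≤ 1 - (m:ℝ) ^ (-(3/10) : ℝ) := by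
            have : (m:ℝ) ^ (-(3/10) : ℝ) ≤ T ^ (-(3/10) : ℝ) :=
              Real.rpow_le_rpow_of_nonpos hT0 hmT (by norm_num)
            linarith
          have h2 := (HS m s1 x h0 h1 j s2 s3).2 hx
          have h3 := ih _ s5 s4
          have h4 : (m:ℝ) ^ (-c) ≤ T ^ (-c) :=
            Real.rpow_le_rpow_of_nonpos hT0 hmT (by linarith)
          set i : ℝ := ((m / 8 : ℕ) : ℝ) with hi
          have hi1 : (1:ℝ) ≤ i := by rw [hi]; exact_mod_cast s4
          have hi8 : (m:ℝ) + 1 ≤ 16 * i := by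
            have : m + 1 ≤ 16 * (m / 8) := by omega
            rw [hi]
            exact_mod_cast this
          have h5 : T / i ≤ (64 * L) * (T / j) := by
            rw [← mul_div_assoc, div_le_div_iff₀ (by linarith) hjp]
            have h6 : (j:ℝ) ≤ 64 * L * i := by
              calc (j:ℝ) ≤ 4 * L * (m + 1) := s3R
                _ ≤ 4 * L * (16 * i) := mul_le_mul_of_nonneg_left hi8 (by positivity)
                _ = 64 * L * i := by ring
            calc T * j ≤ T * (64 * L * i) := mul_le_mul_of_nonneg_left h6 hT0.le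
              _ = 64 * L * T * i := by ring
          have h7 : (T / i) ^ γ ≤ 5 / 3 * (T / j) ^ γ := by
            calc (T / i) ^ γ ≤ ((64 * L) * (T / j)) ^ γ :=
                  Real.rpow_le_rpow (by positivity) h5 hγ.le
              _ = 5 / 3 * (T / j) ^ γ := by
                  rw [Real.mul_rpow (by positivity) (by positivity), hγ2]
          have h8 : C * (m:ℝ) ^ (-c) ≤ 2 / 5 * A * T ^ (-c) := by
            have : C ≤ 2 / 5 * A := by
              have : 0 ≤ B * J ^ γ := by positivity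
              linarith
            exact mul_le_mul this h4 (by positivity) (by positivity)
          have h9 : A * (T / i) ^ γ ≤ A * (5 / 3 * (T / j) ^ γ) :=
            mul_le_mul_of_nonneg_left h7 hA0.le
          calc gsq x j ≤ C * (m:ℝ) ^ (-c) + 3 / 5 * gsq x (m / 8) := h2
            _ ≤ 2 / 5 * A * T ^ (-c) + 3 / 5 * (A * (T ^ (-c) + (T / i) ^ γ)) := by linarith
            _ ≤ A * (T ^ (-c) + (T / j) ^ γ) := by linarith
        · apply triv
          push Not at hmT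
          have hMT : 4 * (L:ℝ) * (m + 1) ≤ J * T := by
            calc 4 * (L:ℝ) * (m + 1) ≤ 4 * L * (2 * T) :=
                  mul_le_mul_of_nonneg_left (by linarith) (by positivity)
              _ ≤ 4 * L * (M * T) := mul_le_mul_of_nonneg_left
                  (mul_le_mul_of_nonneg_right (by linarith) hT0.le) (by positivity)
              _ = J * T := by rw [hJ]; ring
          linarith
      · apply triv
        have h3 : (j:ℝ) ≤ J := by
          have : j ≤ 4 * L * M := by omega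
          rw [hJ]
          exact_mod_cast this
        have : J ≤ J * T := le_mul_of_one_le_right (by linarith) hT
        linarith
  -- conclusion
  refine ⟨2 * A, min (14 * c / 15) (γ / 15), by positivity,
    lt_min (by positivity) (by positivity), ?_⟩
  intro k hk x h0 h1
  have hk1 : (1:ℝ) ≤ k := by exact_mod_cast hk
  have hk0 : (0:ℝ) < k := by linarith
  constructor
  · have := first x h0 h1 k hk
    unfold gsq at this
    linarith
  · intro hx
    set T : ℝ := (k:ℝ) ^ ((14:ℝ) / 15) with hTdef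
    have hT : 1 ≤ T := Real.one_le_rpow hk1 (by norm_num)
    have e1 : T ^ (-(3/10) : ℝ) = (k:ℝ) ^ (-(7/25) : ℝ) := by
      rw [hTdef, ← Real.rpow_mul hk0.le]
      norm_num
    have e2 : T ^ (-c) = (k:ℝ) ^ (-(14 * c / 15)) := by
      rw [hTdef, ← Real.rpow_mul hk0.le]
      congr 1
      ring
    have e3 : (T / k) ^ γ = (k:ℝ) ^ (-(γ / 15)) := by
      have : T / k = (k:ℝ) ^ (-(1:ℝ) / 15) := by
        rw [hTdef]
        nth_rw 2 [← Real.rpow_one (k:ℝ)]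
        rw [← Real.rpow_sub hk0]
        norm_num
      rw [this, ← Real.rpow_mul hk0.le]
      congr 1
      ring
    have h2 := second x h0 h1 T hT (by rw [e1]; exact hx) k hk
    rw [e2, e3] at h2
    set c' := min (14 * c / 15) (γ / 15) with hc'
    have g1 : (k:ℝ) ^ (-(14 * c / 15)) ≤ (k:ℝ) ^ (-c') :=
      Real.rpow_le_rpow_of_exponent_le hk1 (neg_le_neg (min_le_left _ _))
    have g2 : (k:ℝ) ^ (-(γ / 15)) ≤ (k:ℝ) ^ (-c') :=
      Real.rpow_le_rpow_of_exponent_le hk1 (neg_le_neg (min_le_right _ _))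
    unfold gsq at h2
    have g3 : A * ((k:ℝ) ^ (-(14 * c / 15)) + (k:ℝ) ^ (-(γ / 15))) ≤
        A * ((k:ℝ) ^ (-c') + (k:ℝ) ^ (-c')) :=
      mul_le_mul_of_nonneg_left (add_le_add g1 g2) hA0.le
    linarith

end H389NS
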