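import Pool.Agent.H12R2.Sep.InD
import Pool.Agent.H12R2.Sep.LocP
import Pool.Agent.H12R2.Sep.BlkSum

/-!
Noise sensitivity of critical bond percolation on `ℤ²`: definitions.
-/

set_option autoImplicit false

namespace H389NS

open H974 H12S Finset

section Abstract

variable {E : Type*} [DecidableEq E]

/-- The fair measure. -/
noncomputable def hp (_ : E) : ℝ := 1 / 2

/-- Walsh character. -/
def chi (T F : Finset E) : ℝ := (-1 : ℝ) ^ (F ∩ T).card

/-- Walsh coefficient of `f` at `T`, for the fair measure on the subsets of `V`. -/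
noncomputable def wal (V : Finset E) (f : Finset E → ℝ) (T : Finset E) : ℝ :=
  Ex hp V (fun F => chi T F * f F)

/-- Spectral weight of `T ⊆ V`, averaged over the configuration outside `V`. -/
noncomputable def sp (p : E → ℝ) (S V : Finset E) (f : Finset E → ℝ) (T : Finset E) : ℝ :=
  Ex p (S \ V) (fun G => (wal V (fun Y => f (G ∪ Y)) T) ^ 2)

/-- Second moment of the conditional expectation given the configuration outside `W`. -/
noncomputable def UU (p : E → ℝ) (S W : Finset E) (f : Finset E → ℝ) : ℝ :=
  Ex p (S \ W) (fun G => (Ex p W (fun Y => f (G ∪ Y))) ^ 2)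

/-- `UU` for events: the probability that the event holds in both layers, when the configuration
in `W` is resampled. -/
noncomputable def UA (p : E → ℝ) (S W : Finset E) (A : Finset E → Prop) : ℝ :=
  UU p S W (fun F => ind (A F))

/-- Discrete derivative. -/
def dif (e : E) (f : Finset E → ℝ) (F : Finset E) : ℝ := f (insert e F) - f (F.erase e)

/-- Pairs of configurations, correlation `ρ e` at `e` (`1`: equal, `0`: independent). -/
noncomputable def E2 (ρ : E → ℝ) (S : Finset E) (h : Finset E → Finset E → ℝ) : ℝ := by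
  classical exact
  ∑ F ∈ S.powerset, ∑ F' ∈ S.powerset,
    (∏ e ∈ S, if (e ∈ F ↔ e ∈ F') then (1 + ρ e) / 4 else (1 - ρ e) / 4) * h F F'

/-- Both layers satisfy the events. -/
noncomputable def P2 (ρ : E → ℝ) (S : Finset E) (A B : Finset E → Prop) : ℝ :=
  E2 ρ S (fun F F' => ind (A F) * ind (B F'))

end Abstract

/-- The indicator of the connection of `I` and `J`. -/
noncomputable def fC (I J : Set Vtx) (F : Finset Edg) : ℝ := ind (Cn I J (↑F : Set Edg))

/-- A domain with planar duality around the square of radius `n` (centre `0`), fair inside. -/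
structure DomN (p : Edg → ℝ) (S : Finset Edg) (I J I' J' : Set Vtx) (n : ℕ) : Prop where
  ok : Ok p
  sub : boxE n ⊆ S
  fair : ∀ e ∈ boxE n, p e = 1 / 2
  dom : DomD S I J I' J'
  far : FarS (I ∪ J) (0, 0) n
  far' : FarS (I' ∪ J') (0, 0) (n + 1)

/-- The same around a block of centre `c`. -/
structure DomB (p : Edg → ℝ) (S : Finset Edg) (I J I' J' : Set Vtx) (c : ℤ × ℤ) (t : ℕ) :
    Prop where
  ok : Ok p
  sub : blk c t ⊆ S
  fair : ∀ e ∈ blk c t, p e = 1 / 2
  dom : DomD S I J I' J'
  far : FarS (I ∪ J) c t
  far' : FarS (I' ∪ J') c (t + 1)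

end H389NS
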