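import Pool.Agent.H389R2.NS.D0
import Pool.Agent.H389R2.NS.A4aD
import Pool.Agent.H985R3.TA.Crit

/-! Pivotal edges for the two-arm event of an annulus (deterministic part): task E1a. -/

set_option autoImplicit false

namespace H389NS

open H974 H12S H985T Finset

/-- first exit of a dual path from a box -/
theorem E1a_dexit {a b N : ℕ} (hab : a ≤ b) (hN : b ≤ N) {F : Set Edg} {w w' : Vtx}
    (hw : nb a w) (hw' : nb N w') (h : DReach (↑(An a N) \ F) w w') :
    ∃ z, nb b z ∧ DReach (↑(An a b) \ F) w z := by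
  have key : ∀ x, DReach (↑(An a N) \ F) w x →
      (∃ z, nb b z ∧ DReach (↑(An a b) \ F) w z) ∨
      (((-(b:ℤ) ≤ x.1 ∧ x.1 < b) ∧ (-(b:ℤ) ≤ x.2 ∧ x.2 < b)) ∧
        DReach (↑(An a b) \ F) w x) := by
    intro x hx
    induction hx with
    | refl =>
      by_cases hin : (-(b:ℤ) ≤ w.1 ∧ w.1 < b) ∧ (-(b:ℤ) ≤ w.2 ∧ w.2 < b)
      · exact Or.inr ⟨hin, DReach.refl _ _⟩
      · left
        refine ⟨w, ?_, DReach.refl _ _⟩
        unfold nb at hw ⊢
        omega
    | @tail x y _ hs ih =>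
      rcases ih with ih | ⟨hx1, hx2⟩
      · exact Or.inl ih
      · obtain ⟨⟨p, q, β⟩, he, hcase⟩ := hs
        have heb : ((p, q, β) : Edg) ∈ boxE b := by
          unfold boxE
          cases β
          · rw [mem_RE_false]
            simp only [dtgt_mk, dsrc_false] at hcase
            rcases hcase with ⟨h1, _⟩ | ⟨_, h1⟩ <;> rw [← h1] at hx1 <;>
              simp only at hx1 <;> omega
          · rw [mem_RE_true]
            simp only [dtgt_mk, dsrc_true] at hcase
            rcases hcase with ⟨h1, _⟩ | ⟨_, h1⟩ <;> rw [← h1] at hx1 <;>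
              simp only at hx1 <;> omega
        have hadj : DAdj (↑(An a b) \ F) x y :=
          ⟨(p, q, β), ⟨mem_coe.2 (INDI_memAn.2 ⟨heb, (INDI_memAn.1 (mem_coe.1 he.1)).2⟩), he.2⟩,
            hcase⟩
        have hr : DReach (↑(An a b) \ F) w y := Relation.ReflTransGen.tail hx2 hadj
        by_cases hin : (-(b:ℤ) ≤ y.1 ∧ y.1 < b) ∧ (-(b:ℤ) ≤ y.2 ∧ y.2 < b)
        · exact Or.inr ⟨hin, hr⟩
        · left
          refine ⟨y, ?_, hr⟩
          unfold nb
          cases β
          · simp only [dtgt_mk, dsrc_false] at hcase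
            rcases hcase with ⟨h1, h2⟩ | ⟨h2, h1⟩ <;> rw [← h1] at hx1 <;> rw [← h2] at hin ⊢ <;>
              simp only at hx1 hin ⊢ <;> omega
          · simp only [dtgt_mk, dsrc_true] at hcase
            rcases hcase with ⟨h1, h2⟩ | ⟨h2, h1⟩ <;> rw [← h1] at hx1 <;> rw [← h2] at hin ⊢ <;>
              simp only at hx1 hin ⊢ <;> omega
  rcases key w' h with h1 | ⟨h1, _⟩
  · exact h1
  · exfalso
    unfold nb at hw'
    omega

/-- outer radius -/
theorem AA_outerA {a b N : ℕ} (hab : a ≤ b) (hN : b ≤ N) {F : Set Edg} (h : AA a N F) :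
    AA a b F := by
  obtain ⟨⟨u, u', hu, hu', hr⟩, w, w', hw, hw', hd⟩ := h
  constructor
  · have hin : inR (-(b:ℤ)) b (-(b:ℤ)) b u := by
      obtain ⟨h1, _⟩ := hu
      unfold inR at h1 ⊢
      omega
    obtain ⟨z, h1, h2, h3⟩ := first_exit hin hr (by
      obtain ⟨_, h1⟩ := hu'
      omega)
    refine ⟨u, z, hu, ⟨h1, h2⟩, h3.mono ?_⟩
    rintro x ⟨⟨k1, k2⟩, k3⟩
    exact ⟨k1, mem_coe.2 (INDI_memAn.2 ⟨mem_coe.1 k3, (INDI_memAn.1 (mem_coe.1 k2)).2⟩)⟩
  · obtain ⟨z, h1, h2⟩ := E1a_dexit hab hN hw hw' hd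
    exact ⟨w, z, hw, h1, h2⟩

/-- An edge whose flip changes the two-arm event. -/
theorem AA_flip1 {a N b1 b2 κ : ℕ} {e : Edg} (ha : 1 ≤ a) (h1 : a ≤ b1) (h2 : b2 ≤ N)
    (hκ : 1 ≤ κ) (he1 : Disjoint (ebx e (κ + 3)) (boxE b1)) (he2 : ebx e (κ + 3) ⊆ boxE b2)
    {F : Finset Edg}
    (h : ¬ (AA a N (↑(insert e F) : Set Edg) ↔ AA a N (↑(F.erase e) : Set Edg))) :
    (A4e κ e (↑F : Set Edg) ∨ A4d κ e F) ∧ AA a b1 (↑F : Set Edg) ∧ AA b2 N (↑F : Set Edg) := by
  -- geometry
  have heE : e ∈ ebx e (κ + 3) := mem_ebx (by omega)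
  have hebx2 : ∀ g : Edg, g ∈ ebx e (κ + 3) → g ∈ boxE b2 := fun g hg => he2 hg
  have hc1 : -(b2:ℤ) ≤ e.1 - (κ + 3) ∧ -(b2:ℤ) ≤ e.2.1 - (κ + 3) := by
    have := hebx2 (e.1 - (κ + 3), e.2.1 - (κ + 3), true) (by
      unfold ebx
      rw [mem_RE_true]
      push_cast
      omega)
    unfold boxE at this
    rw [mem_RE_true] at this
    omega
  have hc2 : e.1 + (κ + 3) ≤ (b2:ℤ) ∧ e.2.1 + (κ + 3) ≤ (b2:ℤ) := by
    have := hebx2 (e.1 + (κ + 2), e.2.1 + (κ + 3), true) (by
      unfold ebx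
      rw [mem_RE_true]
      push_cast
      omega)
    unfold boxE at this
    rw [mem_RE_true] at this
    omega
  have hsep : ∀ v : Vtx, -(b1:ℤ) ≤ v.1 → v.1 ≤ b1 → -(b1:ℤ) ≤ v.2 → v.2 ≤ b1 →
      ¬ ((e.1 - (κ + 2) ≤ v.1 ∧ v.1 ≤ e.1 + (κ + 2)) ∧
        (e.2.1 - (κ + 3) ≤ v.2 ∧ v.2 ≤ e.2.1 + (κ + 3))) := by
    intro v k1 k2 k3 k4 k5
    have hb1 : 1 ≤ b1 := le_trans ha h1
    by_cases hv : v.1 < b1
    · have m1 : ((v.1, v.2, true) : Edg) ∈ ebx e (κ + 3) := by
        unfold ebx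
        rw [mem_RE_true]
        push_cast
        omega
      have m2 : ((v.1, v.2, true) : Edg) ∈ boxE b1 := by
        unfold boxE
        rw [mem_RE_true]
        omega
      exact (Finset.disjoint_left.mp he1 m1) m2
    · have m1 : ((v.1 - 1, v.2, true) : Edg) ∈ ebx e (κ + 3) := by
        unfold ebx
        rw [mem_RE_true]
        push_cast
        omega
      have m2 : ((v.1 - 1, v.2, true) : Edg) ∈ boxE b1 := by
        unfold boxE
        rw [mem_RE_true]
        omega
      exact (Finset.disjoint_left.mp he1 m1) m2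
  have hb12 : b1 < b2 := by
    by_contra hcon
    push Not at hcon
    have hsub : e ∈ boxE b1 := by
      have := he2 heE
      unfold boxE at this ⊢
      exact RE_subset (by omega) (by omega) (by omega) (by omega) this
    exact (Finset.disjoint_left.mp he1 heE) hsub
  have hboxmono : ∀ {m n : ℕ}, m ≤ n → boxE m ⊆ boxE n := by
    intro m n hmn
    unfold boxE
    exact RE_subset (by omega) (by omega) (by omega) (by omega)
  have hebxmono : ∀ {m : ℕ}, m ≤ κ + 3 → ebx e m ⊆ ebx e (κ + 3) := by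
    intro m hm
    unfold ebx
    exact RE_subset (by omega) (by omega) (by omega) (by omega)
  have hAn : ∀ g ∈ ebx e (κ + 3), g ∈ An a N := by
    intro g hg
    refine INDI_memAn.2 ⟨hboxmono h2 (he2 hg), fun hga => ?_⟩
    exact (Finset.disjoint_left.mp he1 hg) (hboxmono h1 hga)
  have heAn : e ∈ An a N := hAn e heE
  have heb1 : e ∉ boxE b1 := Finset.disjoint_left.mp he1 heE
  have heb2 : e ∈ boxE b2 := he2 heE
  have hplus : (↑(insert e F) : Set Edg) = insert e (↑F : Set Edg) := Finset.coe_insert _ _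
  have hminus : (↑(F.erase e) : Set Edg) = (↑F : Set Edg) \ {e} := Finset.coe_erase _ _
  rw [hplus, hminus] at h
  -- one of the two configurations satisfies the event
  have hone : AA a N (insert e (↑F : Set Edg)) ∨ AA a N ((↑F : Set Edg) \ {e}) := by tauto
  have hinner : AA a b1 (↑F : Set Edg) := by
    rcases hone with hh | hh
    · have := AA_outerA h1 (by omega) hh
      refine (AA_congr ?_).mp this
      ext g
      simp only [Set.mem_inter_iff, Set.mem_insert_iff, mem_coe, INDI_memAn]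
      constructor
      · rintro ⟨rfl | h3, h4⟩
        · exact absurd h4.1 heb1
        · exact ⟨h3, h4⟩
      · rintro ⟨h3, h4⟩
        exact ⟨Or.inr h3, h4⟩
    · have := AA_outerA h1 (by omega) hh
      refine (AA_congr ?_).mp this
      ext g
      simp only [Set.mem_inter_iff, Set.mem_sdiff, Set.mem_singleton_iff, mem_coe, INDI_memAn]
      constructor
      · rintro ⟨⟨h3, _⟩, h4⟩
        exact ⟨h3, h4⟩
      · rintro ⟨h3, h4⟩
        refine ⟨⟨h3, ?_⟩, h4⟩
        rintro rfl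
        exact heb1 h4.1
  have houter : AA b2 N (↑F : Set Edg) := by
    rcases hone with hh | hh
    · have := AA_mono (show a ≤ b2 by omega) h2 hh
      refine (AA_congr ?_).mp this
      ext g
      simp only [Set.mem_inter_iff, Set.mem_insert_iff, mem_coe, INDI_memAn]
      constructor
      · rintro ⟨rfl | h3, h4⟩
        · exact absurd heb2 h4.2
        · exact ⟨h3, h4⟩
      · rintro ⟨h3, h4⟩
        exact ⟨Or.inr h3, h4⟩
    · have := AA_mono (show a ≤ b2 by omega) h2 hh
      refine (AA_congr ?_).mp this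
      ext g
      simp only [Set.mem_inter_iff, Set.mem_sdiff, Set.mem_singleton_iff, mem_coe, INDI_memAn]
      constructor
      · rintro ⟨⟨h3, _⟩, h4⟩
        exact ⟨h3, h4⟩
      · rintro ⟨h3, h4⟩
        refine ⟨⟨h3, ?_⟩, h4⟩
        rintro rfl
        exact h4.2 heb2
  refine ⟨?_, hinner, houter⟩
  by_cases hP : AA a N (insert e (↑F : Set Edg))
  · -- the open crossing needs `e`
    left
    have hM : ¬ AA a N ((↑F : Set Edg) \ {e}) := fun hh => h ⟨fun _ => hh, fun _ => hP⟩
    obtain ⟨⟨u, u', hu, hu', hr⟩, w, w', hw, hw', hd⟩ := hP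
    have hpv : Pv {v | onB a v} {v | onB N v} e ((↑F : Set Edg) ∩ ↑(An a N)) := by
      refine ⟨⟨u, hu, u', hu', ?_⟩, ?_⟩
      · refine hr.mono ?_
        rintro g ⟨rfl | k1, k2⟩
        · exact Or.inl rfl
        · exact Or.inr ⟨k1, k2⟩
      · rintro ⟨x, hx, y, hy, hxy⟩
        apply hM
        refine ⟨⟨x, y, hx, hy, hxy.mono ?_⟩, w, w', hw, hw', hd.mono ?_⟩
        · rintro g ⟨⟨k1, k2⟩, k3⟩
          exact ⟨⟨k1, k3⟩, k2⟩
        · rintro g ⟨k1, k2⟩
          exact ⟨k1, fun k3 => k2 (Or.inr k3.1)⟩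
    have hA : A4e κ e ((↑F : Set Edg) ∩ ↑(An a N)) := by
      unfold A4e
      refine loc_a4 (mem_ebx hκ) ?_ hpv
      rintro v (hv | hv) hin
      · obtain ⟨hv1, _⟩ := (show onB a v from hv)
        unfold inR at hv1
        exact hsep v (by omega) (by omega) (by omega) (by omega) (by omega)
      · obtain ⟨hv1, hv2⟩ := (show onB N v from hv)
        unfold inR at hv1
        omega
    refine (A4e_local ?_).mp hA
    ext g
    simp only [Set.mem_inter_iff, mem_coe]
    constructor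
    · rintro ⟨⟨k1, _⟩, k3⟩
      exact ⟨k1, k3⟩
    · rintro ⟨k1, k3⟩
      exact ⟨⟨k1, hAn g (hebxmono (by omega) k3)⟩, k3⟩
  · -- the dual crossing needs `e`
    right
    have hM : AA a N ((↑F : Set Edg) \ {e}) := hone.resolve_left hP
    obtain ⟨⟨u, u', hu, hu', hr⟩, w, w', hw, hw', hd⟩ := hM
    set H : Set Edg := dl '' (↑(An a N) \ (↑F : Set Edg)) with hH
    have hpv : Pv {v | nb a v} {v | nb N v} (dl e) H := by
      refine ⟨⟨w, hw, w', hw', ?_⟩, ?_⟩
      · refine (reach_dl.mpr hd).mono ?_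
        rintro _ ⟨g, ⟨k1, k2⟩, rfl⟩
        by_cases hg : g = e
        · exact Or.inl (by rw [hg])
        · exact Or.inr ⟨g, ⟨k1, fun k3 => k2 ⟨k3, hg⟩⟩, rfl⟩
      · rintro ⟨x, hx, y, hy, hxy⟩
        apply hP
        refine ⟨⟨u, u', hu, hu', hr.mono ?_⟩, x, y, hx, hy, ?_⟩
        · rintro g ⟨⟨k1, _⟩, k3⟩
          exact ⟨Or.inr k1, k3⟩
        · refine reach_dl.mp (hxy.mono ?_)
          rintro _ ⟨⟨g, ⟨k1, k2⟩, rfl⟩, k3⟩
          refine ⟨g, ⟨k1, ?_⟩, rfl⟩
          rintro (k4 | k4)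
          · exact k3 (by rw [k4]; rfl)
          · exact k2 k4
    have hdl1 : e.1 - 1 ≤ (dl e).1 ∧ (dl e).1 ≤ e.1 ∧ e.2.1 - 1 ≤ (dl e).2.1 ∧
        (dl e).2.1 ≤ e.2.1 := by
      obtain ⟨x, y, _ | _⟩ := e
      · simp
      · simp
    have hA : A4e κ (dl e) H := by
      unfold A4e
      refine loc_a4 (mem_ebx hκ) ?_ hpv
      rintro v (hv | hv) hin
      · have hv1 : nb a v := hv
        unfold nb at hv1
        rcases hv1 with ⟨hv2 | hv2, hv3, hv4⟩ | ⟨hv2 | hv2, hv3, hv4⟩
        · exact hsep (v.1, v.2) (by simp only; omega) (by simp only; omega) (by simp only; omega)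
            (by simp only; omega) (by simp only; omega)
        · exact hsep (v.1 + 1, v.2) (by simp only; omega) (by simp only; omega)
            (by simp only; omega) (by simp only; omega) (by simp only; omega)
        · exact hsep (v.1, v.2) (by simp only; omega) (by simp only; omega) (by simp only; omega)
            (by simp only; omega) (by simp only; omega)
        · exact hsep (v.1, v.2 + 1) (by simp only; omega) (by simp only; omega)
            (by simp only; omega) (by simp only; omega) (by simp only; omega)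
      · have hv1 : nb N v := hv
        unfold nb at hv1
        omega
    unfold A4d
    refine (A4e_local ?_).mp hA
    ext g
    simp only [Set.mem_inter_iff, mem_coe, hH]
    have hgsym : g ∈ ebx (dl e) κ → dl.symm g ∈ ebx e (κ + 2) := by
      intro hg
      unfold ebx at hg ⊢
      obtain ⟨x, y, _ | _⟩ := g
      · rw [mem_RE_false] at hg
        rw [dls_f, mem_RE_true]
        push_cast
        omega
      · rw [mem_RE_true] at hg
        rw [dls_t, mem_RE_false]
        push_cast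
        omega
    constructor
    · rintro ⟨⟨g', ⟨k1, k2⟩, rfl⟩, k3⟩
      refine ⟨?_, k3⟩
      rw [mem_dmp, mem_sdiff]
      exact ⟨hgsym k3, by simpa using k2⟩
    · rintro ⟨k1, k3⟩
      rw [mem_dmp, mem_sdiff] at k1
      refine ⟨⟨dl.symm g, ⟨mem_coe.2 (hAn _ (hebxmono (by omega) k1.1)), by simpa using k1.2⟩,
        by simp⟩, k3⟩

end H389NS
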