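import Pool.Agent.H985R3.TA.INDI
import Pool.Agent.H12R2.Sep.LocP
import Pool.Agent.H12R2.Sep.Defs5
import Pool.Agent.H974R2.Cross
import Pool.Agent.H389R2.NS.A4aD

/-! Task E1b: outer radius of the two-arm event; splitting of the four-arm event. -/

set_option autoImplicit false

namespace H389NS

open H974 H12S H985T Finset

namespace E1b

theorem bdB_iff {c : ℤ × ℤ} {s : ℕ} {v : Vtx} :
    v ∈ bdB c s ↔ inR (c.1 - s) (c.1 + s) (c.2 - s) (c.2 + s) v ∧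
      (v.1 = c.1 - s ∨ v.1 = c.1 + s ∨ v.2 = c.2 - s ∨ v.2 = c.2 + s) := by
  have h0 : (0:ℤ) ≤ s := Int.natCast_nonneg s
  have h1 : v ∈ bdB c s ↔ |v.1 - c.1| ≤ s ∧ |v.2 - c.2| ≤ s ∧
    (|v.1 - c.1| = s ∨ |v.2 - c.2| = s) := Iff.rfl
  rw [h1, abs_le, abs_le, abs_eq h0, abs_eq h0]
  unfold inR
  omega

/-- last exit of an open path from the square of radius `d` -/
theorem last_exit {c : ℤ × ℤ} {d k : ℕ} (hd : d ≤ k) {G F : Set Edg} (hG : G ⊆ F)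
    (hG2 : ∀ e ∈ G, e ∈ blk c k) {w : Vtx}
    (hw : w.1 ≤ c.1 - k ∨ c.1 + k ≤ w.1 ∨ w.2 ≤ c.2 - k ∨ c.2 + k ≤ w.2) {u : Vtx}
    (h : Reach G w u) (hu : inR (c.1 - d) (c.1 + d) (c.2 - d) (c.2 + d) u) :
    ∃ v, inR (c.1 - d) (c.1 + d) (c.2 - d) (c.2 + d) v ∧
      (v.1 = c.1 - d ∨ v.1 = c.1 + d ∨ v.2 = c.2 - d ∨ v.2 = c.2 + d) ∧
      Reach (F ∩ ↑(blk c k \ blk c d)) v w := by
  have key : ∀ x, Reach G w x → (∃ v, inR (c.1 - d) (c.1 + d) (c.2 - d) (c.2 + d) v ∧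
      (v.1 = c.1 - d ∨ v.1 = c.1 + d ∨ v.2 = c.2 - d ∨ v.2 = c.2 + d) ∧
      Reach (F ∩ ↑(blk c k \ blk c d)) v w) ∨
      (¬ inR (c.1 - d) (c.1 + d) (c.2 - d) (c.2 + d) x ∧
        Reach (F ∩ ↑(blk c k \ blk c d)) x w) := by
    intro x hx
    induction hx with
    | refl =>
      by_cases h1 : inR (c.1 - d) (c.1 + d) (c.2 - d) (c.2 + d) w
      · left
        refine ⟨w, h1, ?_, Reach.refl _ _⟩
        unfold inR at h1
        omega
      · exact Or.inr ⟨h1, Reach.refl _ _⟩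
    | @tail x y _ hs ih =>
      rcases ih with ih | ⟨hx1, hx2⟩
      · exact Or.inl ih
      · obtain ⟨e, he, hcase⟩ := hs
        have heb : e ∉ blk c d := by
          intro heb
          apply hx1
          obtain ⟨p, q, β⟩ := e
          unfold blk at heb
          unfold inR
          cases β
          · rw [mem_RE_false] at heb
            simp only [src_mk, tgt_false] at hcase
            rcases hcase with ⟨h1, _⟩ | ⟨_, h1⟩ <;> rw [← h1] <;> simp only <;> omega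
          · rw [mem_RE_true] at heb
            simp only [src_mk, tgt_true] at hcase
            rcases hcase with ⟨h1, _⟩ | ⟨_, h1⟩ <;> rw [← h1] <;> simp only <;> omega
        have hadj : Adj (F ∩ ↑(blk c k \ blk c d)) y x :=
          ⟨e, ⟨hG he, mem_coe.2 (mem_sdiff.2 ⟨hG2 e he, heb⟩)⟩, hcase.symm⟩
        have hr : Reach (F ∩ ↑(blk c k \ blk c d)) y w := Relation.ReflTransGen.head hadj hx2
        by_cases hy : inR (c.1 - d) (c.1 + d) (c.2 - d) (c.2 + d) y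
        · left
          refine ⟨y, hy, ?_, hr⟩
          obtain ⟨p, q, β⟩ := e
          unfold inR at hy hx1
          cases β
          · simp only [src_mk, tgt_false] at hcase
            rcases hcase with ⟨h1, h2⟩ | ⟨h2, h1⟩ <;> rw [← h1] at hx1 <;> rw [← h2] at hy ⊢ <;>
              simp only at hx1 hy ⊢ <;> omega
          · simp only [src_mk, tgt_true] at hcase
            rcases hcase with ⟨h1, h2⟩ | ⟨h2, h1⟩ <;> rw [← h1] at hx1 <;> rw [← h2] at hy ⊢ <;>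
              simp only at hx1 hy ⊢ <;> omega
        · exact Or.inr ⟨hy, hr⟩
  rcases key u h with h1 | ⟨h1, _⟩
  · exact h1
  · exact absurd hu h1

/-- first exit of a dual path from the box `b` -/
theorem dual_first {a b N : ℕ} (hN : b ≤ N) {F : Set Edg} {w w' : Vtx}
    (hw : (-(b:ℤ) ≤ w.1 ∧ w.1 < b) ∧ (-(b:ℤ) ≤ w.2 ∧ w.2 < b)) (hw' : nb N w')
    (h : DReach (↑(An a N) \ F) w w') : ∃ v, nb b v ∧ DReach (↑(An a b) \ F) w v := by
  have key : ∀ x, DReach (↑(An a N) \ F) w x → (∃ v, nb b v ∧ DReach (↑(An a b) \ F) w v) ∨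
      (((-(b:ℤ) ≤ x.1 ∧ x.1 < b) ∧ (-(b:ℤ) ≤ x.2 ∧ x.2 < b)) ∧
        DReach (↑(An a b) \ F) w x) := by
    intro x hx
    induction hx with
    | refl => exact Or.inr ⟨hw, DReach.refl _ _⟩
    | @tail x y _ hs ih =>
      rcases ih with ih | ⟨hx1, hx2⟩
      · exact Or.inl ih
      · obtain ⟨e, ⟨he, heF⟩, hcase⟩ := hs
        have hea := (INDI_memAn.1 (mem_coe.1 he)).2
        have heb : e ∈ boxE b := by
          obtain ⟨p, q, β⟩ := e
          unfold boxE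
          cases β
          · rw [mem_RE_false]
            simp only [dtgt_mk, dsrc_false] at hcase
            rcases hcase with ⟨h2, _⟩ | ⟨_, h2⟩ <;> rw [← h2] at hx1 <;>
              simp only at hx1 <;> omega
          · rw [mem_RE_true]
            simp only [dtgt_mk, dsrc_true] at hcase
            rcases hcase with ⟨h2, _⟩ | ⟨_, h2⟩ <;> rw [← h2] at hx1 <;>
              simp only at hx1 <;> omega
        have hadj : DAdj (↑(An a b) \ F) x y :=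
          ⟨e, ⟨mem_coe.2 (INDI_memAn.2 ⟨heb, hea⟩), heF⟩, hcase⟩
        have hr : DReach (↑(An a b) \ F) w y := Relation.ReflTransGen.tail hx2 hadj
        by_cases hy : (-(b:ℤ) ≤ y.1 ∧ y.1 < b) ∧ (-(b:ℤ) ≤ y.2 ∧ y.2 < b)
        · exact Or.inr ⟨hy, hr⟩
        · left
          refine ⟨y, ?_, hr⟩
          obtain ⟨p, q, β⟩ := e
          unfold nb
          cases β
          · simp only [dtgt_mk, dsrc_false] at hcase
            rcases hcase with ⟨h1, h2⟩ | ⟨h2, h1⟩ <;> rw [← h1] at hx1 <;> rw [← h2] at hy ⊢ <;>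
              simp only at hx1 hy ⊢ <;> omega
          · simp only [dtgt_mk, dsrc_true] at hcase
            rcases hcase with ⟨h1, h2⟩ | ⟨h2, h1⟩ <;> rw [← h1] at hx1 <;> rw [← h2] at hy ⊢ <;>
              simp only at hx1 hy ⊢ <;> omega
  rcases key w' h with h1 | ⟨h1, _⟩
  · exact h1
  · unfold nb at hw'
    omega

end E1b

open E1b

/-- outer radius -/
theorem AA_outer1 {a b N : ℕ} (hab : a ≤ b) (hN : b ≤ N) {F : Set Edg} (h : AA a N F) :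
    AA a b F := by
  obtain ⟨⟨u, u', hu, hu', hr⟩, w, w', hw, hw', hd⟩ := h
  constructor
  · obtain ⟨v, hv1, hv2, hv3⟩ := first_exit (a := -(b:ℤ)) (b := b) (c := -(b:ℤ)) (d := b)
      (u := u) (v := u') (by
        obtain ⟨h1, _⟩ := hu
        unfold inR at h1 ⊢
        omega) hr (by
        obtain ⟨_, h1⟩ := hu'
        omega)
    refine ⟨u, v, hu, ⟨hv1, hv2⟩, hv3.mono ?_⟩
    rintro e ⟨⟨he1, he2⟩, he3⟩
    exact ⟨he1, mem_coe.2 (INDI_memAn.2 ⟨mem_coe.1 he3, (INDI_memAn.1 (mem_coe.1 he2)).2⟩)⟩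
  · rcases hab.eq_or_lt with rfl | hlt
    · exact ⟨w, w, hw, hw, DReach.refl _ _⟩
    · obtain ⟨v, hv1, hv2⟩ := dual_first hN (F := F) (w := w) (w' := w') (by
        unfold nb at hw
        omega) hw' hd
      exact ⟨w, v, hw, hv1, hv2⟩

theorem blk_mono {c : ℤ × ℤ} {d k : ℕ} (h : d ≤ k) : blk c d ⊆ blk c k := by
  unfold blk
  exact RE_subset (by omega) (by omega) (by omega) (by omega)

/-- The four-arm event splits in the box and the annulus. -/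
theorem A4e_split1 {d κ : ℕ} {e : Edg} (hd : 1 ≤ d) (hdκ : d ≤ κ) {F : Set Edg}
    (h : A4e κ e F) : A4e d e F ∧ A4a (e.1, e.2.1) d κ F := by
  obtain ⟨⟨w, hw, h1⟩, ⟨w', hw', h2⟩, h3⟩ := h
  have heb : e ∈ blk (e.1, e.2.1) d := mem_ebx hd
  have hs : inR (e.1 - d) (e.1 + d) (e.2.1 - d) (e.2.1 + d) (src e) := by
    obtain ⟨x, y, b⟩ := e
    unfold inR
    simp only [src_mk]
    omega
  have ht : inR (e.1 - d) (e.1 + d) (e.2.1 - d) (e.2.1 + d) (tgt e) := by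
    obtain ⟨x, y, _ | _⟩ := e
    · unfold inR
      simp only [tgt_false]
      omega
    · unfold inR
      simp only [tgt_true]
      omega
  have hout : ∀ {w : Vtx}, w ∈ bdR (e.1 - κ) (e.1 + κ) (e.2.1 - κ) (e.2.1 + κ) →
      w.1 ≤ e.1 - κ ∨ e.1 + κ ≤ w.1 ∨ w.2 ≤ e.2.1 - κ ∨ e.2.1 + κ ≤ w.2 := by
    rintro w ⟨_, hw⟩
    omega
  have hout' : ∀ {w : Vtx}, w ∈ bdR (e.1 - κ) (e.1 + κ) (e.2.1 - κ) (e.2.1 + κ) →
      w.1 ≤ e.1 - d ∨ e.1 + d ≤ w.1 ∨ w.2 ≤ e.2.1 - d ∨ e.2.1 + d ≤ w.2 := by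
    rintro w ⟨_, hw⟩
    omega
  have hsub : ((F ∩ ↑(RE (e.1 - κ) (e.1 + κ) (e.2.1 - κ) (e.2.1 + κ))) \ {e}) ∩
      ↑(RE (e.1 - d) (e.1 + d) (e.2.1 - d) (e.2.1 + d)) ⊆
      (F ∩ ↑(RE (e.1 - d) (e.1 + d) (e.2.1 - d) (e.2.1 + d))) \ {e} := by
    rintro x ⟨⟨⟨hx1, _⟩, hx2⟩, hx3⟩
    exact ⟨⟨hx1, hx3⟩, hx2⟩
  have hsub2 : (F ∩ ↑(RE (e.1 - d) (e.1 + d) (e.2.1 - d) (e.2.1 + d))) \ {e} ⊆
      (F ∩ ↑(RE (e.1 - κ) (e.1 + κ) (e.2.1 - κ) (e.2.1 + κ))) \ {e} := by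
    rintro x ⟨⟨hx1, hx2⟩, hx3⟩
    exact ⟨⟨hx1, mem_coe.2 (RE_subset (by omega) (by omega) (by omega) (by omega)
      (mem_coe.1 hx2))⟩, hx3⟩
  have hsub3 : F ∩ ↑(blk (e.1, e.2.1) κ \ blk (e.1, e.2.1) d) ⊆
      (F ∩ ↑(RE (e.1 - κ) (e.1 + κ) (e.2.1 - κ) (e.2.1 + κ))) \ {e} := by
    rintro x ⟨hx1, hx2⟩
    obtain ⟨hx3, hx4⟩ := mem_sdiff.1 (mem_coe.1 hx2)
    refine ⟨⟨hx1, mem_coe.2 hx3⟩, ?_⟩
    rintro rfl
    exact hx4 heb
  constructor
  · refine ⟨?_, ?_, fun h => h3 (h.mono hsub2)⟩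
    · obtain ⟨v, hv1, hv2, hv3⟩ := first_exit hs h1 (hout' hw)
      exact ⟨v, ⟨hv1, hv2⟩, hv3.mono hsub⟩
    · obtain ⟨v, hv1, hv2, hv3⟩ := first_exit ht h2 (hout' hw')
      exact ⟨v, ⟨hv1, hv2⟩, hv3.mono hsub⟩
  · obtain ⟨v, hv1, hv2, hv3⟩ := last_exit (c := (e.1, e.2.1)) (d := d) (k := κ) hdκ
      (G := (F ∩ ↑(RE (e.1 - κ) (e.1 + κ) (e.2.1 - κ) (e.2.1 + κ))) \ {e}) (F := F)
      (fun x hx => hx.1.1) (fun x hx => mem_coe.1 hx.1.2) (hout hw) h1.symm hs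
    obtain ⟨v', hv1', hv2', hv3'⟩ := last_exit (c := (e.1, e.2.1)) (d := d) (k := κ) hdκ
      (G := (F ∩ ↑(RE (e.1 - κ) (e.1 + κ) (e.2.1 - κ) (e.2.1 + κ))) \ {e}) (F := F)
      (fun x hx => hx.1.1) (fun x hx => mem_coe.1 hx.1.2) (hout hw') h2.symm ht
    refine ⟨v, bdB_iff.2 ⟨hv1, hv2⟩, v', bdB_iff.2 ⟨hv1', hv2'⟩,
      ⟨w, bdB_iff.2 hw, hv3⟩, ⟨w', bdB_iff.2 hw', hv3'⟩, fun hr => h3 ?_⟩
    exact h1.trans ((hv3.mono hsub3).symm.trans ((hr.mono hsub3).trans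
      ((hv3'.mono hsub3).trans h2.symm)))

end H389NS
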