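import Pool.Agent.H389R2.NS.D0
import Pool.Agent.H389R2.NS.A4aD
import Pool.Agent.H985R3.TA.Crit
import Pool.Agent.H389R2.NS.E1a
import Pool.Agent.H389R2.NS.E1b

/-! Pivotal edges for the two-arm event of an annulus (deterministic part). -/

set_option autoImplicit false

namespace H389NS

open H974 H12S H985T Finset

/-- An edge whose flip changes the two-arm event. -/
theorem AA_flip {a N b1 b2 κ : ℕ} {e : Edg} (ha : 1 ≤ a) (h1 : a ≤ b1) (h2 : b2 ≤ N)
    (hκ : 1 ≤ κ) (he1 : Disjoint (ebx e (κ + 3)) (boxE b1)) (he2 : ebx e (κ + 3) ⊆ boxE b2)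
    {F : Finset Edg}
    (h : ¬ (AA a N (↑(insert e F) : Set Edg) ↔ AA a N (↑(F.erase e) : Set Edg))) :
    (A4e κ e (↑F : Set Edg) ∨ A4d κ e F) ∧ AA a b1 (↑F : Set Edg) ∧ AA b2 N (↑F : Set Edg) :=
  AA_flip1 ha h1 h2 hκ he1 he2 h

/-- outer radius -/
theorem AA_outer {a b N : ℕ} (hab : a ≤ b) (hN : b ≤ N) {F : Set Edg} (h : AA a N F) :
    AA a b F := AA_outer1 hab hN h

/-- The four-arm event splits in the box and the annulus. -/
theorem A4e_split {d κ : ℕ} {e : Edg} (hd : 1 ≤ d) (hdκ : d ≤ κ) {F : Set Edg}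
    (h : A4e κ e F) : A4e d e F ∧ A4a (e.1, e.2.1) d κ F := A4e_split1 hd hdκ h

end H389NS
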