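import Pool.Agent.H389R2.NS.A4aD
import Pool.Agent.H389R2.NS.D2
import Pool.Agent.H12R2.Sep.Key2
import Pool.Agent.H12R2.Sep.KeyC
import Pool.Agent.H12R2.Sep.Exit5

/-! Four arms in an annulus: exponent larger than one, from `blk_dom` and `exit_blk`. -/

set_option autoImplicit false

namespace H389NS

open H974 H12S Finset

/-! ### Deterministic edges -/

section Det

variable {E : Type*} [DecidableEq E]

theorem S4C_Ex_one {p : E → ℝ} {O : Finset E} (h : ∀ e ∈ O, p e = 1) (g : Finset E → ℝ) :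
    Ex p O g = g O := by
  induction O using Finset.induction_on generalizing g with
  | empty => exact Ex_empty p g
  | insert a O ha ih =>
    rw [Ex_insert p ha, h a (Finset.mem_insert_self _ _),
      ih (fun e he => h e (Finset.mem_insert_of_mem he))]
    ring

theorem S4C_Ex_zero {p : E → ℝ} {O : Finset E} (h : ∀ e ∈ O, p e = 0) (g : Finset E → ℝ) :
    Ex p O g = g ∅ := by
  induction O using Finset.induction_on generalizing g with
  | empty => exact Ex_empty p g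
  | insert a O ha ih =>
    rw [Ex_insert p ha, h a (Finset.mem_insert_self _ _),
      ih (fun e he => h e (Finset.mem_insert_of_mem he)) g]
    ring

theorem S4C_Ex_congr_p {p p' : E → ℝ} {S : Finset E} (h : ∀ e ∈ S, p e = p' e)
    (f : Finset E → ℝ) : Ex p S f = Ex p' S f := by
  unfold Ex
  apply Finset.sum_congr rfl
  intro F hF
  have hFS := Finset.mem_powerset.mp hF
  have h1 : ∏ e ∈ F, p e = ∏ e ∈ F, p' e := Finset.prod_congr rfl (fun e he => h e (hFS he))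
  have h2 : ∏ e ∈ S \ F, (1 - p e) = ∏ e ∈ S \ F, (1 - p' e) :=
    Finset.prod_congr rfl (fun e he => by rw [h e (Finset.mem_sdiff.mp he).1])
  rw [h1, h2]

/-- Deterministic edges can be removed. -/
theorem S4C_Pr_env {p : E → ℝ} {S R O : Finset E} (hRO : Disjoint R O) (hS : R ∪ O ⊆ S)
    (hR : ∀ e ∈ R, p e = 1 / 2) (hO : ∀ e ∈ O, p e = 1) (hC : ∀ e ∈ S \ (R ∪ O), p e = 0)
    (A : Finset E → Prop) :
    Pr p S A = Pr (fun _ => 1 / 2) R (fun F => A (F ∪ O)) := by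
  unfold Pr
  have hd : Disjoint (R ∪ O) (S \ (R ∪ O)) := Finset.disjoint_sdiff
  conv_lhs => rw [← Finset.union_sdiff_of_subset hS]
  rw [Ex_union hd, Ex_union hRO, S4C_Ex_congr_p (p' := fun _ => (1/2 : ℝ)) hR]
  apply Ex_congr
  intro F _
  rw [S4C_Ex_one hO, S4C_Ex_zero hC, Finset.union_empty]

end Det

/-! ### The event -/

theorem S4C_blk0 (k : ℕ) : blk (0, 0) k = boxE k := by
  unfold blk boxE
  simp

theorem S4C_inter {c : ℤ × ℤ} {d k : ℕ} {F G : Finset Edg} (h : blk c k ⊆ G) :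
    A4a c d k (↑F : Set Edg) ↔ A4a c d k (↑(F ∩ G) : Set Edg) := by
  have e : (↑F : Set Edg) ∩ ↑(blk c k \ blk c d) =
      (↑(F ∩ G) : Set Edg) ∩ ↑(blk c k \ blk c d) := by
    ext x
    simp only [Finset.coe_inter, Finset.coe_sdiff, Set.mem_inter_iff, Set.mem_sdiff,
      Finset.mem_coe]
    have := @h x
    tauto
  unfold A4a
  rw [e]

theorem S4C_bdB_inR {c : ℤ × ℤ} {d k : ℕ} (h : d ≤ k) {u : Vtx} (hu : u ∈ bdB c d) :
    inR (c.1 - k) (c.1 + k) (c.2 - k) (c.2 + k) u := by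
  obtain ⟨h1, h2, -⟩ := hu
  rw [abs_le] at h1 h2
  unfold inR
  omega

theorem S4C_bdB_far {c : ℤ × ℤ} {k k' : ℕ} (h : k ≤ k') {w : Vtx} (hw : w ∈ bdB c k') :
    w.1 ≤ c.1 - k ∨ c.1 + k ≤ w.1 ∨ w.2 ≤ c.2 - k ∨ c.2 + k ≤ w.2 := by
  obtain ⟨-, -, h3⟩ := hw
  rcases h3 with h3 | h3
  · rcases abs_choice (w.1 - c.1) with e | e <;> rw [e] at h3 <;> omega
  · rcases abs_choice (w.2 - c.2) with e | e <;> rw [e] at h3 <;> omega

theorem S4C_bdB_of {c : ℤ × ℤ} {k : ℕ} {w : Vtx}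
    (h1 : inR (c.1 - k) (c.1 + k) (c.2 - k) (c.2 + k) w)
    (h2 : w.1 = c.1 - k ∨ w.1 = c.1 + k ∨ w.2 = c.2 - k ∨ w.2 = c.2 + k) : w ∈ bdB c k := by
  unfold inR at h1
  refine ⟨by rw [abs_le]; omega, by rw [abs_le]; omega, ?_⟩
  rcases h2 with h | h | h | h
  · left; rw [h, show c.1 - (k:ℤ) - c.1 = -(k:ℤ) by ring, abs_neg, Nat.abs_cast]
  · left; rw [h, show c.1 + (k:ℤ) - c.1 = (k:ℤ) by ring, Nat.abs_cast]
  · right; rw [h, show c.2 - (k:ℤ) - c.2 = -(k:ℤ) by ring, abs_neg, Nat.abs_cast]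
  · right; rw [h, show c.2 + (k:ℤ) - c.2 = (k:ℤ) by ring, Nat.abs_cast]

/-- Monotonicity in the outer radius. -/
theorem S4C_anti {c : ℤ × ℤ} {d k k' : ℕ} (h1 : d ≤ k) (h2 : k ≤ k') {F : Set Edg}
    (h : A4a c d k' F) : A4a c d k F := by
  obtain ⟨u, hu, u', hu', ⟨w, hw, hr⟩, ⟨w', hw', hr'⟩, hn⟩ := h
  have hsub : (F ∩ ↑(blk c k' \ blk c d)) ∩ ↑(RE (c.1 - k) (c.1 + k) (c.2 - k) (c.2 + k)) ⊆
      F ∩ ↑(blk c k \ blk c d) := by
    rintro e ⟨⟨h3, h4⟩, h5⟩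
    refine ⟨h3, ?_⟩
    rw [Finset.mem_coe, Finset.mem_sdiff] at h4 ⊢
    exact ⟨h5, h4.2⟩
  have hsub2 : F ∩ ↑(blk c k \ blk c d) ⊆ F ∩ ↑(blk c k' \ blk c d) := by
    rintro e ⟨h3, h4⟩
    refine ⟨h3, ?_⟩
    rw [Finset.mem_coe, Finset.mem_sdiff] at h4 ⊢
    refine ⟨?_, h4.2⟩
    exact RE_subset (by omega) (by omega) (by omega) (by omega) h4.1
  obtain ⟨v, a1, a2, a3⟩ := first_exit (S4C_bdB_inR h1 hu) hr (S4C_bdB_far h2 hw)
  obtain ⟨v', b1, b2, b3⟩ := first_exit (S4C_bdB_inR h1 hu') hr' (S4C_bdB_far h2 hw')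
  exact ⟨u, hu, u', hu', ⟨v, S4C_bdB_of a1 a2, a3.mono hsub⟩, ⟨v', S4C_bdB_of b1 b2, b3.mono hsub⟩,
    fun hc => hn (hc.mono hsub2)⟩

/-- The event of `exit_blk`. -/
def S4C_Ev (L m d : ℕ) (F : Set Edg) : Prop :=
  ∃ u ∈ bdB (0, 0) d, ∃ u' ∈ bdB (0, 0) d,
    (∃ w ∈ bdR (-(2 * L * m : ℕ)) (2 * L * m : ℕ) (-m) m, Reach (F \ ↑(boxE d)) u w) ∧
    (∃ w ∈ bdR (-(2 * L * m : ℕ)) (2 * L * m : ℕ) (-m) m, Reach (F \ ↑(boxE d)) u' w) ∧
    ¬ Reach (F \ ↑(boxE d)) u u'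

theorem S4C_thin {L m d : ℕ} (hL : 2 ≤ L) (hd : d ≤ m) {F : Set Edg}
    (h : A4a (0, 0) d (4 * L * m) F) : S4C_Ev L m d (F ∩ ↑(SR L m)) := by
  obtain ⟨N, hN⟩ : ∃ N : ℕ, N = L * m := ⟨_, rfl⟩
  have hN2 : 2 * L * m = 2 * N := by rw [hN]; ring
  have hN4 : 4 * L * m = 4 * N := by rw [hN]; ring
  have hNm : 2 * m ≤ N := by rw [hN]; exact Nat.mul_le_mul_right _ hL
  unfold S4C_Ev SR
  rw [hN4] at h
  rw [hN2]
  obtain ⟨u, hu, u', hu', ⟨w, hw, hr⟩, ⟨w', hw', hr'⟩, hn⟩ := h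
  have hsub : (F ∩ ↑(blk (0, 0) (4 * N) \ blk (0, 0) d)) ∩
      ↑(RE (-((2 * N : ℕ) : ℤ)) ((2 * N : ℕ) : ℤ) (-m) m) ⊆
      (F ∩ ↑(RE (-((2 * N : ℕ) : ℤ)) ((2 * N : ℕ) : ℤ) (-m) m)) \ ↑(boxE d) := by
    rintro e ⟨⟨h3, h4⟩, h5⟩
    rw [Finset.mem_coe, Finset.mem_sdiff, S4C_blk0 d] at h4
    exact ⟨⟨h3, h5⟩, fun h => h4.2 (Finset.mem_coe.mp h)⟩
  have hsub2 : (F ∩ ↑(RE (-((2 * N : ℕ) : ℤ)) ((2 * N : ℕ) : ℤ) (-m) m)) \ ↑(boxE d) ⊆
      F ∩ ↑(blk (0, 0) (4 * N) \ blk (0, 0) d) := by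
    rintro e ⟨⟨h3, h4⟩, h5⟩
    refine ⟨h3, ?_⟩
    rw [Finset.mem_coe, Finset.mem_sdiff, S4C_blk0 d]
    refine ⟨?_, fun h => h5 (Finset.mem_coe.mpr h)⟩
    exact RE_subset (by push_cast; omega) (by push_cast; omega) (by push_cast; omega)
      (by push_cast; omega) (Finset.mem_coe.mp h4)
  have hin : ∀ v ∈ bdB (0, 0) d, inR (-((2 * N : ℕ) : ℤ)) ((2 * N : ℕ) : ℤ) (-m) m v := by
    intro v hv
    have := S4C_bdB_inR le_rfl hv
    unfold inR at this ⊢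
    push_cast at this ⊢
    omega
  have hout : ∀ v ∈ bdB (0, 0) (4 * N), v.1 ≤ -((2 * N : ℕ) : ℤ) ∨ ((2 * N : ℕ) : ℤ) ≤ v.1 ∨
      v.2 ≤ -(m:ℤ) ∨ (m:ℤ) ≤ v.2 := by
    intro v hv
    have := S4C_bdB_far le_rfl hv
    push_cast at this ⊢
    omega
  obtain ⟨v, a1, a2, a3⟩ := first_exit (hin u hu) hr (hout w hw)
  obtain ⟨v', b1, b2, b3⟩ := first_exit (hin u' hu') hr' (hout w' hw')
  exact ⟨u, hu, u', hu', ⟨v, ⟨a1, a2⟩, a3.mono hsub⟩, ⟨v', ⟨b1, b2⟩, b3.mono hsub⟩,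
    fun hc => hn (hc.mono hsub2)⟩

/-- Translation. -/
theorem S4C_trl {c : ℤ × ℤ} {d k : ℕ} {F : Finset Edg}
    (h : A4a c d k (↑((trl c.1 c.2).mp F) : Set Edg)) : A4a (0, 0) d k (↑F : Set Edg) := by
  have hblk : ∀ j : ℕ, (trl c.1 c.2).mp (blk (0, 0) j) = blk c j := by
    intro j
    unfold blk
    rw [trl_RE]
    congr 1 <;> ring
  have hset : (↑((trl c.1 c.2).mp F) : Set Edg) ∩ ↑(blk c k \ blk c d) =
      (trl c.1 c.2).φ '' ((↑F : Set Edg) ∩ ↑(blk (0, 0) k \ blk (0, 0) d)) := by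
    rw [← hblk k, ← hblk d, ← LSym.mp_sdiff, ← Finset.coe_inter, ← LSym.mp_inter, LSym.coe_mp,
      Finset.coe_inter]
  have hb : ∀ (j : ℕ) (w : Vtx), w ∈ bdB c j → ∃ w0 ∈ bdB (0, 0) j, (trl c.1 c.2).ψ w0 = w := by
    rintro j ⟨w1, w2⟩ ⟨g1, g2, g3⟩
    refine ⟨(w1 - c.1, w2 - c.2), ⟨?_, ?_, ?_⟩, ?_⟩
    · simpa using g1
    · simpa using g2
    · simpa using g3
    · rw [trl_ψ, sub_add_cancel, sub_add_cancel]
  unfold A4a at h ⊢
  rw [hset] at h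
  obtain ⟨u, hu, u', hu', ⟨w, hw, hr⟩, ⟨w', hw', hr'⟩, hn⟩ := h
  obtain ⟨u0, hu0, rfl⟩ := hb d u hu
  obtain ⟨u0', hu0', rfl⟩ := hb d u' hu'
  obtain ⟨w0, hw0, rfl⟩ := hb k w hw
  obtain ⟨w0', hw0', rfl⟩ := hb k w' hw'
  rw [LSym.reach_iff] at hr hr' hn
  exact ⟨u0, hu0, u0', hu0', ⟨w0, hw0, hr⟩, ⟨w0', hw0', hr'⟩, hn⟩

/-- The probability around the origin. -/
noncomputable def S4C_h (d k : ℕ) : ℝ := PQ (1/2) (boxE k) (fun F => A4a (0, 0) d k ↑F)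

theorem S4C_ok : Ok (fun _ : Edg => (1/2 : ℝ)) := fun _ => by norm_num

theorem S4C_h_nonneg (d k : ℕ) : 0 ≤ S4C_h d k := Pr_nonneg S4C_ok _ _

theorem S4C_h_le_one (d k : ℕ) : S4C_h d k ≤ 1 := Pr_le_one S4C_ok _ _

theorem S4C_le_h {c : ℤ × ℤ} {d k : ℕ} {S : Finset Edg} (hS : blk c k ⊆ S) :
    PQ (1/2) S (fun F => A4a c d k ↑F) ≤ S4C_h d k := by
  have e1 : PQ (1/2) S (fun F => A4a c d k ↑F) = PQ (1/2) (blk c k) (fun F => A4a c d k ↑F) :=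
    Pr_local hS (fun F _ => S4C_inter (Finset.Subset.refl _))
  rw [e1]
  have hblk : (trl c.1 c.2).mp (boxE k) = blk c k := by
    unfold blk boxE
    rw [trl_RE]
    congr 1 <;> ring
  rw [← hblk]
  unfold PQ
  rw [LSym.pr]
  exact Pr_mono S4C_ok (fun F _ hF => S4C_trl hF)

theorem S4C_h_anti {d k k' : ℕ} (h1 : d ≤ k) (h2 : k ≤ k') : S4C_h d k' ≤ S4C_h d k := by
  refine le_trans (Pr_mono S4C_ok (B := fun F => A4a (0, 0) d k ↑F)
    (fun F _ hF => S4C_anti h1 h2 hF)) ?_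
  apply S4C_le_h
  rw [S4C_blk0]
  unfold boxE
  exact RE_subset (by omega) (by omega) (by omega) (by omega)

theorem S4C_h_thin {L m d : ℕ} (hL : 2 ≤ L) (hd : d ≤ m) :
    S4C_h d (4 * L * m) ≤ PQ (1/2) (SR L m) (fun F => S4C_Ev L m d ↑F) := by
  have hsub : SR L m ⊆ boxE (4 * L * m) := by
    obtain ⟨N, hN⟩ : ∃ N : ℕ, N = L * m := ⟨_, rfl⟩
    have hN2 : 2 * L * m = 2 * N := by rw [hN]; ring
    have hN4 : 4 * L * m = 4 * N := by rw [hN]; ring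
    have hNm : 2 * m ≤ N := by rw [hN]; exact Nat.mul_le_mul_right _ hL
    unfold SR boxE
    rw [hN2, hN4]
    exact RE_subset (by omega) (by omega) (by omega) (by omega)
  have e1 : PQ (1/2) (boxE (4 * L * m)) (fun F => S4C_Ev L m d ↑(F ∩ SR L m)) =
      PQ (1/2) (SR L m) (fun F => S4C_Ev L m d ↑(F ∩ SR L m)) :=
    Pr_local hsub (fun F _ => by rw [Finset.inter_assoc, Finset.inter_self])
  have e2 : PQ (1/2) (SR L m) (fun F => S4C_Ev L m d ↑(F ∩ SR L m)) =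
      PQ (1/2) (SR L m) (fun F => S4C_Ev L m d ↑F) :=
    Pr_congr (fun F hF => by rw [Finset.inter_eq_left.mpr hF])
  rw [← e2, ← e1]
  apply Pr_mono S4C_ok
  intro F _ hF
  rw [Finset.coe_inter]
  exact S4C_thin hL hd hF

theorem S4C_sdiff_aux {F O D R : Finset Edg} (hD : D ⊆ R) (hRO : Disjoint R O) :
    ((↑(F ∪ O) : Set Edg)) \ ↑D = ((↑F : Set Edg) \ ↑D) ∪ ↑O := by
  ext x
  rw [Finset.coe_union]
  constructor
  · rintro ⟨h1 | h1, h2⟩
    · exact Or.inl ⟨h1, h2⟩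
    · exact Or.inr h1
  · rintro (⟨h1, h2⟩ | h1)
    · exact ⟨Or.inl h1, h2⟩
    · exact ⟨Or.inr h1, fun h => Finset.disjoint_left.mp hRO (hD (Finset.mem_coe.mp h))
        (Finset.mem_coe.mp h1)⟩

/-- One pair of cells. -/
theorem S4C_pair {C : ℝ}
    (hdom : ∀ (p : Edg → ℝ) (S : Finset Edg) (I J I' J' : Set Vtx)
      (c : ℤ × ℤ) (d k : ℕ), 1 ≤ d → d ≤ k → DomB p S I J I' J' c k →
        Pr p S (fun F => BPv I J (blk c d) ↑F) ≤ C * ((d:ℝ) / k) ^ (5/4 : ℝ))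
    {L m r d : ℕ} (hL : 2 ≤ L) (hr : 1 ≤ r) (hm : 512 * r ≤ m) (hd1 : 1 ≤ d) (hd : d ≤ m)
    (σ σ' : Bool) (k k' : ℤ) (hk : |2 * (r:ℤ) * k| ≤ (L * m : ℕ) + (r:ℤ))
    (hk' : |2 * (r:ℤ) * k'| ≤ (L * m : ℕ) + (r:ℤ))
    (hfar : σ = σ' → 4 * (r:ℤ) < |2 * (r:ℤ) * k - 2 * (r:ℤ) * k'|) :
    PQ (1/2) (SR L m) (fun F =>
      BPv (cell σ m (2 * r * k) r) (cell σ' m (2 * r * k') r) (boxE d) ↑F) ≤
      C * ((d:ℝ) / m) ^ (5/4 : ℝ) := by
  obtain ⟨p, S, O, I, J, I', J', hD, h1, h2, h3, h4, h5, h6⟩ :=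
    env_blk hL hr (le_refl (8 * r)) (by omega) σ σ' k k' hk hk' hfar
  have hB : DomB p S I J I' J' (0, 0) m := by
    refine ⟨hD.ok, ?_, ?_, hD.dom, hD.far, hD.far'⟩
    · rw [S4C_blk0]; exact hD.sub
    · rw [S4C_blk0]; exact hD.fair
  have h7 := hdom p S I J I' J' (0, 0) d m hd1 hd hB
  rw [S4C_blk0, S4C_Pr_env h2 h1 h3 h4 h5] at h7
  refine le_trans (le_of_eq ?_) h7
  apply Pr_congr
  intro F hF
  have hdSR : boxE d ⊆ SR L m := by
    obtain ⟨N, hN⟩ : ∃ N : ℕ, N = L * m := ⟨_, rfl⟩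
    have hN2 : 2 * L * m = 2 * N := by rw [hN]; ring
    have hNm : 2 * m ≤ N := by rw [hN]; exact Nat.mul_le_mul_right _ hL
    unfold SR boxE
    rw [hN2]
    exact RE_subset (by omega) (by omega) (by omega) (by omega)
  have g1 := h6 ((↑F : Set Edg) ∪ ↑(boxE d))
    (Set.union_subset (Finset.coe_subset.mpr hF) (Finset.coe_subset.mpr hdSR))
  have g2 := h6 ((↑F : Set Edg) \ ↑(boxE d))
    (Set.sdiff_subset.trans (Finset.coe_subset.mpr hF))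
  have e1 : ((↑(F ∪ O) : Set Edg)) ∪ ↑(boxE d) = ((↑F : Set Edg) ∪ ↑(boxE d)) ∪ ↑O := by
    rw [Finset.coe_union, Set.union_assoc, Set.union_assoc, Set.union_comm (↑O : Set Edg)]
  have e2 : ((↑(F ∪ O) : Set Edg)) \ ↑(boxE d) = ((↑F : Set Edg) \ ↑(boxE d)) ∪ ↑O :=
    S4C_sdiff_aux hdSR h2
  unfold BPv
  rw [e1, e2, g1, g2]

/-- **Four arms in an annulus**, from `blk_dom` and `exit_blk`. -/
theorem A4a_bound_of
    (hblk : ∃ C : ℝ, 0 < C ∧ ∀ (p : Edg → ℝ) (S : Finset Edg) (I J I' J' : Set Vtx)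
      (c : ℤ × ℤ) (d k : ℕ), 1 ≤ d → d ≤ k → DomB p S I J I' J' c k →
        Pr p S (fun F => BPv I J (blk c d) ↑F) ≤ C * ((d:ℝ) / k) ^ (5/4 : ℝ))
    (hexit : ∃ (C c : ℝ), 0 < C ∧ 0 < c ∧ ∀ (L : ℕ) (δ : ℝ), 2 ≤ L → 0 < δ →
      ∃ M1 M20 : ℕ, 64 ≤ M1 ∧ 8 * M1 ≤ M20 ∧ ∀ M2 : ℕ, M20 ≤ M2 → ∃ N : ℕ, ∀ m d : ℕ,
        64 * M2 ≤ m → 1 ≤ d → 64 * d ≤ m →
        PQ (1/2) (SR L m) (fun F => ∃ u ∈ bdB (0, 0) d, ∃ u' ∈ bdB (0, 0) d,
            (∃ w ∈ bdR (-(2 * L * m : ℕ)) (2 * L * m : ℕ) (-m) m,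
              Reach ((↑F : Set Edg) \ ↑(boxE d)) u w) ∧
            (∃ w ∈ bdR (-(2 * L * m : ℕ)) (2 * L * m : ℕ) (-m) m,
              Reach ((↑F : Set Edg) \ ↑(boxE d)) u' w) ∧
            ¬ Reach ((↑F : Set Edg) \ ↑(boxE d)) u u') ≤
          (∑ p ∈ prs L m (m / M2) N, PQ (1/2) (SR L m) (fun F =>
            (p.1.1 = p.2.1 → 4 * ((m / M2 : ℕ):ℤ) <
              |2 * ((m / M2 : ℕ):ℤ) * p.1.2 - 2 * ((m / M2 : ℕ):ℤ) * p.2.2|) ∧
            BPv (cell p.1.1 m (2 * (m / M2 : ℕ) * p.1.2) (m / M2))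
              (cell p.2.1 m (2 * (m / M2 : ℕ) * p.2.2) (m / M2)) (boxE d) ↑F)) +
          (δ + C * Real.exp (-c * L)) *
            PQ (1/2) (boxE (m / 8)) (fun F => A4a (0, 0) d (m / 8) ↑F)) :
    ∃ C c : ℝ, 0 < C ∧ 0 < c ∧ ∀ (c0 : ℤ × ℤ) (d k : ℕ), 1 ≤ d → d ≤ k →
      ∀ S : Finset Edg, blk c0 k ⊆ S →
        PQ (1/2) S (fun F => A4a c0 d k ↑F) ≤ C * ((d:ℝ) / k) ^ (1 + c) := by
  obtain ⟨Cb, hCb, hdom⟩ := hblk
  obtain ⟨C, c, hC, hc, hex⟩ := hexit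
  obtain ⟨L, hL, hLK⟩ := KY_choose_L C c (5/4) hc
  have hL0 : (0:ℝ) < L := by
    have : 0 < L := by omega
    exact_mod_cast this
  obtain ⟨K, hK⟩ : ∃ K : ℝ, K = (192 * L : ℝ) ^ (5/4 : ℝ) := ⟨_, rfl⟩
  have hK0 : 0 < K := by rw [hK]; positivity
  rw [show (64 * (3 * L : ℕ) : ℝ) = 192 * L by push_cast; ring, ← hK] at hLK
  obtain ⟨M1, M2, hM1, hM2, hex2⟩ := hex L (1 / (32 * K)) hL (by positivity)
  obtain ⟨N, hex3⟩ := hex2 M2 le_rfl
  clear hex2 hex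
  obtain ⟨cd, hcd⟩ : ∃ cd : ℕ, cd = (2 * (2 * N + 1)) * (2 * (2 * N + 1)) := ⟨_, rfl⟩
  have hcd0 : (0:ℝ) < cd := by
    have : 0 < cd := by rw [hcd]; positivity
    exact_mod_cast this
  have hM2p : 512 ≤ M2 := by omega
  obtain ⟨k0, hk0⟩ : ∃ k0 : ℕ, k0 = 256 * L * M2 := ⟨_, rfl⟩
  have hk0p : 0 < k0 := by rw [hk0]; positivity
  have hk0r : (0:ℝ) < k0 := by exact_mod_cast hk0p
  -- one step
  have step : ∀ m d : ℕ, 64 * M2 ≤ m → 1 ≤ d → 64 * d ≤ m →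
      S4C_h d (4 * L * m) ≤ cd * (Cb * ((d:ℝ) / m) ^ (5/4 : ℝ)) +
        2 / (32 * K) * S4C_h d (m / 8) := by
    intro m d hm hd1 hd
    have s1 := S4C_h_thin (L := L) (m := m) (d := d) hL (by omega)
    have s2 := hex3 m d hm hd1 hd
    have s3 : ∀ p ∈ prs L m (m / M2) N, PQ (1/2) (SR L m) (fun F =>
            (p.1.1 = p.2.1 → 4 * ((m / M2 : ℕ):ℤ) <
              |2 * ((m / M2 : ℕ):ℤ) * p.1.2 - 2 * ((m / M2 : ℕ):ℤ) * p.2.2|) ∧
            BPv (cell p.1.1 m (2 * (m / M2 : ℕ) * p.1.2) (m / M2))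
              (cell p.2.1 m (2 * (m / M2 : ℕ) * p.2.2) (m / M2)) (boxE d) ↑F) ≤
          Cb * ((d:ℝ) / m) ^ (5/4 : ℝ) := by
      intro p hp
      unfold prs at hp
      rw [Finset.mem_filter] at hp
      obtain ⟨-, g1, g2⟩ := hp
      by_cases hfar : (p.1.1 = p.2.1 → 4 * ((m / M2 : ℕ):ℤ) <
              |2 * ((m / M2 : ℕ):ℤ) * p.1.2 - 2 * ((m / M2 : ℕ):ℤ) * p.2.2|)
      · refine le_trans (Pr_mono S4C_ok (fun F _ hF => hF.2)) ?_
        have hr1 : 1 ≤ m / M2 := by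
          rw [Nat.le_div_iff_mul_le (by omega)]; omega
        have hr2 : 512 * (m / M2) ≤ m :=
          (Nat.mul_le_mul_right _ hM2p).trans (Nat.mul_div_le m M2)
        exact S4C_pair hdom hL hr1 hr2 hd1 (by omega) p.1.1 p.2.1 p.1.2 p.2.2 g1 g2 hfar
      · refine le_trans (Pr_mono S4C_ok (B := fun _ => False) (fun F _ hF => hfar hF.1)) ?_
        have e0 : Pr (fun _ => (1/2:ℝ)) (SR L m) (fun _ => False) = 0 := by
          unfold Pr
          rw [Ex_congr (g := fun _ => (0:ℝ)) (fun F _ => ind_not_of (fun h => h)), Ex_const]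
        rw [e0]
        positivity
    have s4 := Finset.sum_le_card_nsmul _ _ _ s3
    rw [nsmul_eq_mul] at s4
    have hcard : ((prs L m (m / M2) N).card : ℝ) ≤ cd := by
      rw [hcd]
      exact_mod_cast kc_prs_card L m (m / M2) N
    have s5 : ((prs L m (m / M2) N).card : ℝ) * (Cb * ((d:ℝ) / m) ^ (5/4 : ℝ)) ≤
        cd * (Cb * ((d:ℝ) / m) ^ (5/4 : ℝ)) :=
      mul_le_mul_of_nonneg_right hcard (by positivity)
    have e2 : C * Real.exp (-c * L) ≤ 1 / (32 * K) := by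
      rw [div_mul_eq_div_div, le_div_iff₀ hK0]
      exact hLK
    have e3 : (1 / (32 * K) + C * Real.exp (-c * L)) * S4C_h d (m / 8) ≤
        2 / (32 * K) * S4C_h d (m / 8) := by
      apply mul_le_mul_of_nonneg_right _ (S4C_h_nonneg _ _)
      have : 2 / (32 * K) = 1 / (32 * K) + 1 / (32 * K) := by ring
      rw [this]
      linarith
    have s6 := s1.trans s2
    exact s6.trans (add_le_add (s4.trans s5) e3)
  -- iteration
  set C0 : ℝ := 2 * (cd * Cb) * (8 * L : ℝ) ^ (5/4 : ℝ) + (k0:ℝ) ^ (5/4 : ℝ) with hC0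
  have hC0p : 0 < C0 := by positivity
  have main : ∀ d : ℕ, 1 ≤ d → ∀ k : ℕ, d ≤ k → S4C_h d k ≤ C0 * ((d:ℝ) / k) ^ (5/4 : ℝ) := by
    intro d hd k
    have hd0 : (0:ℝ) < d := by exact_mod_cast hd
    induction k using Nat.strong_induction_on with
    | _ k ih =>
      intro hk
      have hkr : (0:ℝ) < k := hd0.trans_le (by exact_mod_cast hk)
      rcases lt_or_ge k (k0 * d) with hlt | hge
      · have h1 := S4C_h_le_one d k
        have h2 : (1:ℝ) ≤ (k0:ℝ) ^ (5/4 : ℝ) * ((d:ℝ) / k) ^ (5/4 : ℝ) := by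
          rw [← Real.mul_rpow hk0r.le (by positivity)]
          apply Real.one_le_rpow _ (by norm_num)
          rw [← mul_div_assoc, le_div_iff₀ hkr, one_mul]
          exact_mod_cast hlt.le
        have h3 : 0 ≤ 2 * (cd * Cb) * (8 * L : ℝ) ^ (5/4 : ℝ) * ((d:ℝ) / k) ^ (5/4 : ℝ) := by
          positivity
        rw [hC0, add_mul]
        linarith
      · obtain ⟨m, hm⟩ : ∃ m : ℕ, m = k / (4 * L) := ⟨_, rfl⟩
        have hq : 0 < 4 * L := by omega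
        have h1 : 4 * L * m ≤ k := by rw [hm]; exact Nat.mul_div_le _ _
        have h2 : k < 4 * L * m + 4 * L := by
          rw [hm]
          have := Nat.lt_mul_div_succ k hq
          rw [Nat.mul_add, Nat.mul_one] at this
          exact this
        have hmb : 64 * M2 * d ≤ m := by
          rw [hm, Nat.le_div_iff_mul_le hq]
          calc 64 * M2 * d * (4 * L) = k0 * d := by rw [hk0]; ring
            _ ≤ k := hge
        have hmM : 64 * M2 ≤ m := by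
          calc 64 * M2 = 64 * M2 * 1 := by ring
            _ ≤ 64 * M2 * d := Nat.mul_le_mul_left _ hd
            _ ≤ m := hmb
        have hmd : 64 * d ≤ m := by
          calc 64 * d = 64 * 1 * d := by ring
            _ ≤ 64 * M2 * d := Nat.mul_le_mul_right _ (Nat.mul_le_mul_left _ (by omega))
            _ ≤ m := hmb
        have hm1 : 1 ≤ m := by omega
        have hkm : k ≤ 8 * L * m := by
          have h6 : 8 * L * m = 2 * (4 * L * m) := by ring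
          rw [h6]
          have h7 : 4 * L * 1 ≤ 4 * L * m := Nat.mul_le_mul_left _ hm1
          omega
        have hm0 : (0:ℝ) < m := by exact_mod_cast (show 0 < m by omega)
        have h4 := step m d hmM hd hmd
        have h5 : S4C_h d k ≤ S4C_h d (4 * L * m) := by
          apply S4C_h_anti _ h1
          have : 1 * m ≤ 4 * L * m := Nat.mul_le_mul_right _ (by omega)
          omega
        have hmk : m < k := by
          have : 1 * m < 4 * L * m := Nat.mul_lt_mul_of_pos_right (by omega) (by omega)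
          omega
        have h6 := ih (m / 8) (by omega) (by omega)
        have hmk2 : (k:ℝ) / (8 * L) ≤ m := by
          rw [div_le_iff₀ (by positivity)]
          have : (k:ℝ) ≤ ((8 * L * m : ℕ) : ℝ) := by exact_mod_cast hkm
          push_cast at this
          linarith
        have h7 : ((d:ℝ) / m) ^ (5/4 : ℝ) ≤ (8 * L : ℝ) ^ (5/4 : ℝ) * ((d:ℝ) / k) ^ (5/4 : ℝ) := by
          rw [← Real.mul_rpow (by positivity) (by positivity)]
          apply Real.rpow_le_rpow (by positivity) _ (by norm_num)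
          rw [div_le_iff₀ hm0]
          rw [div_le_iff₀ (by positivity)] at hmk2
          have e : 8 * (L:ℝ) * ((d:ℝ) / k) * m = d * ((m * (8 * L)) / k) := by ring
          rw [e]
          have : (1:ℝ) ≤ (m * (8 * L)) / k := by rw [le_div_iff₀ hkr]; linarith
          nlinarith
        have hm8 : (0:ℝ) < ((m / 8 : ℕ) : ℝ) := by
          have : 0 < m / 8 := by omega
          exact_mod_cast this
        have h8 : ((d:ℝ) / ((m / 8 : ℕ) : ℝ)) ^ (5/4 : ℝ) ≤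
            (192 * L : ℝ) ^ (5/4 : ℝ) * ((d:ℝ) / k) ^ (5/4 : ℝ) := by
          have e1 : (k:ℝ) ≤ ((m / 8 : ℕ) : ℝ) * (192 * L) := by
            have e2 : m ≤ 9 * (m / 8) + 0 := by omega
            have e3 : (m:ℝ) ≤ 9 * ((m / 8 : ℕ) : ℝ) := by exact_mod_cast e2
            rw [div_le_iff₀ (by positivity)] at hmk2
            nlinarith
          rw [← Real.mul_rpow (by positivity) (by positivity)]
          apply Real.rpow_le_rpow (by positivity) _ (by norm_num)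
          rw [div_le_iff₀ hm8]
          have e : 192 * (L:ℝ) * ((d:ℝ) / k) * ((m / 8 : ℕ) : ℝ) =
            d * ((((m / 8 : ℕ) : ℝ) * (192 * L)) / k) := by ring
          rw [e]
          have : (1:ℝ) ≤ (((m / 8 : ℕ) : ℝ) * (192 * L)) / k := by
            rw [le_div_iff₀ hkr]; linarith
          nlinarith
        have hkp : 0 < ((d:ℝ) / k) ^ (5/4 : ℝ) := by positivity
        have h9 : 2 / (32 * K) * S4C_h d (m / 8) ≤ C0 / 4 * ((d:ℝ) / k) ^ (5/4 : ℝ) := by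
          calc 2 / (32 * K) * S4C_h d (m / 8)
              ≤ 2 / (32 * K) * (C0 * ((d:ℝ) / ((m / 8 : ℕ) : ℝ)) ^ (5/4 : ℝ)) :=
                mul_le_mul_of_nonneg_left h6 (by positivity)
            _ ≤ 2 / (32 * K) * (C0 * (K * ((d:ℝ) / k) ^ (5/4 : ℝ))) := by
                rw [hK]; gcongr
            _ = 1 / 16 * (C0 * ((d:ℝ) / k) ^ (5/4 : ℝ)) := by
                field_simp; norm_num
            _ ≤ C0 / 4 * ((d:ℝ) / k) ^ (5/4 : ℝ) := by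
                have := mul_pos hC0p hkp
                linarith
        have h10 : cd * (Cb * ((d:ℝ) / m) ^ (5/4 : ℝ)) ≤ C0 / 2 * ((d:ℝ) / k) ^ (5/4 : ℝ) := by
          calc cd * (Cb * ((d:ℝ) / m) ^ (5/4 : ℝ)) ≤
                cd * (Cb * ((8 * L : ℝ) ^ (5/4 : ℝ) * ((d:ℝ) / k) ^ (5/4 : ℝ))) := by gcongr
            _ = (cd * Cb * (8 * L : ℝ) ^ (5/4 : ℝ)) * ((d:ℝ) / k) ^ (5/4 : ℝ) := by ring
            _ ≤ C0 / 2 * ((d:ℝ) / k) ^ (5/4 : ℝ) := by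
                apply mul_le_mul_of_nonneg_right _ hkp.le
                have : 0 ≤ (k0:ℝ) ^ (5/4 : ℝ) := by positivity
                rw [hC0]
                linarith
        calc S4C_h d k ≤ S4C_h d (4 * L * m) := h5
          _ ≤ cd * (Cb * ((d:ℝ) / m) ^ (5/4 : ℝ)) + 2 / (32 * K) * S4C_h d (m / 8) := h4
          _ ≤ C0 / 2 * ((d:ℝ) / k) ^ (5/4 : ℝ) + C0 / 4 * ((d:ℝ) / k) ^ (5/4 : ℝ) :=
              add_le_add h10 h9
          _ ≤ C0 * ((d:ℝ) / k) ^ (5/4 : ℝ) := by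
              have := mul_pos hC0p hkp
              linarith
  refine ⟨C0, 1/4, hC0p, by norm_num, ?_⟩
  intro c0 d k hd hk S hS
  refine (S4C_le_h hS).trans ((main d hd k hk).trans (le_of_eq ?_))
  norm_num

end H389NS
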