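import Pool.Agent.H389R2.NS.A4aD
import Pool.Agent.H389R2.NS.QHalf
import Pool.Agent.H389R2.NS.D2
import Pool.Agent.H12R2.Sep.Exit5
import Pool.Agent.H12R2.Sep.WinHalf

/-!
Task S4b (helper765): exit of a thin box for blocks, at `1/2`.
-/

set_option autoImplicit false
set_option maxHeartbeats 400000

namespace H389NS

open H974 H12S Finset

namespace SB

/-- Two distinct clusters outside the block `boxE d` join it to the boundary of the thin box. -/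
def Bev (L m d : ℕ) (F : Set Edg) : Prop :=
  ∃ u ∈ bdB (0, 0) d, ∃ u' ∈ bdB (0, 0) d,
    (∃ w ∈ bdR (-(2 * L * m : ℕ)) (2 * L * m : ℕ) (-m) m, Reach (F \ ↑(boxE d)) u w) ∧
    (∃ w ∈ bdR (-(2 * L * m : ℕ)) (2 * L * m : ℕ) (-m) m, Reach (F \ ↑(boxE d)) u' w) ∧
    ¬ Reach (F \ ↑(boxE d)) u u'

/-! ### Deterministic part -/

/-- Edges of the half balls are far from the middle of the strip. -/
theorem HB_box {σ : Bool} {m R d : ℕ} {x0 : ℤ} (hR : 2 * R ≤ m) (hm : 4 ≤ m) (hd : 4 * d ≤ m)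
    {e : Edg} (he : e ∈ (↑(HB σ m x0 R) : Set Edg)) : e ∉ (↑(boxE d) : Set Edg) := by
  intro h
  refine notMem_HB (σ := σ) (m := m) (R := R) (x0 := x0) (e := e) ?_ hR hm he
  rw [mem_coe] at h
  revert h
  unfold boxE
  apply RE_subset <;> omega

/-- If `H3s` does not hold, two vertices of the cell connected to the outside of the half ball are
connected. -/
theorem conn {A B : ℤ} {σ : Bool} {m R r d : ℕ} {x0 : ℤ} {F : Set Edg}
    (hF : F ⊆ ↑(RE A B (-m) m)) (hrR : r ≤ R) (hR : 2 * R ≤ m) (hm : 4 ≤ m)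
    (hd : 4 * d ≤ m) (hn : ¬ H3s σ m x0 r R F) {u v a b : Vtx}
    (hu : u ∈ cell σ m x0 r) (hv : v ∈ cell σ m x0 r) (hua : Reach (F \ ↑(boxE d)) u a)
    (hvb : Reach (F \ ↑(boxE d)) v b) (ha : OutS σ m x0 R a) (hb : OutS σ m x0 R b) :
    Reach (F \ ↑(boxE d)) u v := by
  have hsub : F ∩ ↑(HB σ m x0 R) ⊆ F \ ↑(boxE d) := by
    rintro x ⟨h1, h2⟩
    exact ⟨h1, HB_box hR hm hd h2⟩
  rw [H3s_iff] at hn
  by_contra hcon
  apply hn
  obtain ⟨b1, hb1, hr1⟩ := exit_half σ hF hrR hu (hua.mono Set.sdiff_subset) ha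
  obtain ⟨b2, hb2, hr2⟩ := exit_half σ hF hrR hv (hvb.mono Set.sdiff_subset) hb
  exact ⟨u, hu, v, hv, ⟨b1, hb1, hr1⟩, ⟨b2, hb2, hr2⟩, fun h => hcon (h.mono hsub)⟩

/-- All vertices of the square are connected in `boxE d`. -/
theorem box_conn {d : ℕ} {u v : Vtx} (hu : |u.1| ≤ d ∧ |u.2| ≤ d) (hv : |v.1| ≤ d ∧ |v.2| ≤ d) :
    Reach (↑(boxE d) : Set Edg) u v := by
  have key1 : ∀ (n : ℕ) (y : ℤ), -(d:ℤ) ≤ y → y ≤ d → (n:ℤ) ≤ 2 * d →
      Reach (↑(boxE d) : Set Edg) (-d, y) (-d + n, y) := by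
    intro n y hy1 hy2
    induction n with
    | zero =>
      intro _
      have : ((-(d:ℤ) + ((0:ℕ):ℤ), y) : Vtx) = (-(d:ℤ), y) := by simp
      rw [this]
      exact Reach.refl _ _
    | succ n ih =>
      intro hn
      push_cast at hn
      refine (ih (by omega)).trans (Adj.reach ⟨(-d + n, y, true), ?_, Or.inl ⟨?_, ?_⟩⟩)
      · unfold boxE
        rw [mem_coe, mem_RE_true]
        omega
      · rfl
      · rw [tgt_true]
        push_cast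
        congr 1
        ring
  have key2 : ∀ (n : ℕ), (n:ℤ) ≤ 2 * d →
      Reach (↑(boxE d) : Set Edg) (-d, -d) (-d, -d + n) := by
    intro n
    induction n with
    | zero =>
      intro _
      have : ((-(d:ℤ), -(d:ℤ) + ((0:ℕ):ℤ)) : Vtx) = (-(d:ℤ), -(d:ℤ)) := by simp
      rw [this]
      exact Reach.refl _ _
    | succ n ih =>
      intro hn
      push_cast at hn
      refine (ih (by omega)).trans (Adj.reach ⟨(-d, -d + n, false), ?_, Or.inl ⟨?_, ?_⟩⟩)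
      · unfold boxE
        rw [mem_coe, mem_RE_false]
        omega
      · rfl
      · rw [tgt_false]
        push_cast
        congr 1
        ring
  have key : ∀ w : Vtx, |w.1| ≤ d ∧ |w.2| ≤ d → Reach (↑(boxE d) : Set Edg) (-d, -d) w := by
    rintro ⟨x, y⟩ ⟨h1, h2⟩
    simp only [abs_le] at h1 h2
    have e1 := key1 (x + d).toNat y h2.1 h2.2 (by omega)
    have e2 := key2 (y + d).toNat (by omega)
    have e3 : (-(d:ℤ) + ((x + d).toNat : ℤ)) = x := by omega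
    have e4 : (-(d:ℤ) + ((y + d).toNat : ℤ)) = y := by omega
    rw [e3] at e1
    rw [e4] at e2
    exact e2.trans e1
  exact (key u hu).symm.trans (key v hv)

theorem bd_abs {d : ℕ} {u : Vtx} (hu : u ∈ bdB (0, 0) d) : |u.1| ≤ d ∧ |u.2| ≤ d := by
  obtain ⟨h1, h2, -⟩ := hu
  simp only [sub_zero] at h1 h2
  exact ⟨h1, h2⟩

/-- Deterministic exit lemma for blocks. -/
theorem exit_det_blk {L m r ρ d : ℕ} (hL : 2 ≤ L) (hr : 1 ≤ r) (hρ : 8 * r ≤ ρ)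
    (hm : 64 * ρ ≤ m) (hd : 64 * d ≤ m) {F : Set Edg}
    (hF : F ⊆ ↑(RE (-(2 * L * m : ℕ)) (2 * L * m : ℕ) (-m) m)) (hA : Bev L m d F)
    (hend : ∀ u v : Vtx, |u.1| ≤ m → |u.2| ≤ m → Reach (F \ ↑(boxE d)) u v → |v.1| < (L * m : ℕ))
    (h1 : ∀ (σ : Bool) (k : ℤ), |2 * r * k| ≤ (L * m : ℕ) + r →
      ¬ H3s σ m (2 * r * k) r ρ F)
    (h2 : ∀ (σ : Bool) (k : ℤ), |4 * ρ * k| ≤ (L * m : ℕ) + 8 * ρ →
      ¬ H3s σ m (4 * ρ * k) (8 * ρ) (m / 2) F) :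
    ∃ (σ σ' : Bool) (k k' : ℤ), |2 * r * k| ≤ (L * m : ℕ) + r ∧ |2 * r * k'| ≤ (L * m : ℕ) + r ∧
      (σ = σ' → 4 * (r:ℤ) < |2 * r * k - 2 * r * k'|) ∧
      BPv (cell σ m (2 * r * k) r) (cell σ' m (2 * r * k') r) (boxE d) F := by
  obtain ⟨N, hN⟩ : ∃ N : ℕ, N = L * m := ⟨_, rfl⟩
  have hN2 : 2 * L * m = 2 * N := by rw [hN]; ring
  have hNm : m ≤ N := by rw [hN]; exact Nat.le_mul_of_pos_left _ (by omega)
  unfold Bev at hA
  rw [hN2] at hF hA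
  simp only [← hN] at hend h1 h2 ⊢
  obtain ⟨s, hs, t, ht, ⟨u0, hu0, hru⟩, ⟨v0, hv0, hrv⟩, hne⟩ := hA
  obtain ⟨hs1, hs2⟩ := bd_abs hs
  obtain ⟨ht1, ht2⟩ := bd_abs ht
  have hst : Reach (↑(boxE d) : Set Edg) s t := box_conn ⟨hs1, hs2⟩ ⟨ht1, ht2⟩
  have hm4 : 4 ≤ m := by omega
  have hdm : (d:ℤ) ≤ m := by omega
  have hd4 : (d:ℤ) ≤ (m / 4 : ℕ) := by omega
  have s1 : |s.1| ≤ m := hs1.trans hdm
  have s2 : |s.2| ≤ m := hs2.trans hdm
  have t1 : |t.1| ≤ m := ht1.trans hdm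
  have t2 : |t.2| ≤ m := ht2.trans hdm
  have hs2' := hs2.trans hd4
  have ht2' := ht2.trans hd4
  -- Lemma A
  have lemA : ∀ (σ : Bool) (u v : Vtx), u.2 = sy σ m → v.2 = sy σ m → |u.1 - v.1| ≤ 6 * ρ →
      Reach (F \ ↑(boxE d)) s u → Reach (F \ ↑(boxE d)) t v → False := by
    intro σ u v hu hv huv hru hrv
    obtain ⟨k, hk1, hk2⟩ := round_cell u.1 (r := 2 * ρ) (by omega)
    have hk : 2 * ((2 * ρ : ℕ) : ℤ) * k = 4 * ρ * k := by push_cast; ring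
    rw [hk] at hk1 hk2
    have hub := hend _ _ s1 s2 hru
    rw [abs_lt] at hub
    rw [abs_le] at huv
    have hkb : |4 * ρ * k| ≤ ((N : ℕ) : ℤ) + 8 * ρ := by
      rw [abs_le]
      push_cast at hk1 hk2
      constructor <;> linarith
    apply hne
    refine hru.trans (Reach.trans ?_ hrv.symm)
    refine conn hF (by omega) (by omega) hm4 (by omega) (h2 σ k hkb) (u := u) (v := v)
      (a := s) (b := t) ?_ ?_ hru.symm hrv.symm (out_src hs2' (by omega))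
      (out_src ht2' (by omega))
    · rw [mem_cell]
      push_cast at hk1 hk2 ⊢
      exact ⟨hu, by linarith, by linarith⟩
    · rw [mem_cell]
      push_cast at hk1 hk2 ⊢
      exact ⟨hv, by linarith, by linarith⟩
  -- sides
  have side : ∀ v : Vtx, v ∈ bdR (-((2 * N : ℕ) : ℤ)) ((2 * N : ℕ) : ℤ) (-m) m → |v.1| < (N:ℤ) →
      ∃ σ : Bool, v.2 = sy σ m := by
    intro v hv hvN
    rw [abs_lt] at hvN
    obtain ⟨-, h4⟩ := hv
    push_cast at h4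
    rcases h4 with h4 | h4 | h4 | h4
    · omega
    · omega
    · exact ⟨false, by simpa [sy] using h4⟩
    · exact ⟨true, by simpa [sy] using h4⟩
  have huN := hend _ _ s1 s2 hru
  have hvN := hend _ _ t1 t2 hrv
  obtain ⟨σ, hσ⟩ := side u0 hu0 huN
  obtain ⟨σ', hσ'⟩ := side v0 hv0 hvN
  obtain ⟨k, hk1, hk2⟩ := round_cell u0.1 hr
  obtain ⟨k', hk1', hk2'⟩ := round_cell v0.1 hr
  have huN' := abs_lt.mp huN
  have hvN' := abs_lt.mp hvN
  have hkb : |2 * r * k| ≤ (N:ℤ) + r := by rw [abs_le]; constructor <;> linarith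
  have hkb' : |2 * r * k'| ≤ (N:ℤ) + r := by rw [abs_le]; constructor <;> linarith
  have hsep : σ = σ' → 6 * (ρ:ℤ) < |u0.1 - v0.1| := by
    intro hss
    subst hss
    by_contra hcon
    exact lemA σ u0 v0 hσ hσ' (not_lt.1 hcon) hru hrv
  refine ⟨σ, σ', k, k', hkb, hkb', ?_, ?_, ?_⟩
  · intro hss
    have h3 := hsep hss
    generalize (2 * r * k : ℤ) = x at *
    generalize (2 * r * k' : ℤ) = x' at *
    rw [lt_abs] at h3 ⊢
    omega
  · refine ⟨u0, ⟨hσ, hk1, hk2⟩, v0, ⟨hσ', hk1', hk2'⟩, ?_⟩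
    have hm1 : F \ ↑(boxE d) ⊆ F ∪ ↑(boxE d) :=
      Set.sdiff_subset.trans Set.subset_union_left
    exact (hru.symm.mono hm1).trans ((hst.mono Set.subset_union_right).trans (hrv.mono hm1))
  · rintro ⟨u, hu, w, hw, hr0⟩
    rw [mem_cell] at hu hw
    have hn1 := h1 σ k hkb
    generalize (2 * r * k : ℤ) = x at *
    generalize (2 * r * k' : ℤ) = x' at *
    have hout : OutS σ m x ρ w := by
      by_cases hss : σ = σ'
      · have h3 := hsep hss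
        rw [lt_abs] at h3
        unfold OutS
        omega
      · exact out_opp hss hw.1 (by omega)
    have hconn := conn (u := u0) (v := u) hF (by omega) (by omega) hm4 (by omega) hn1
      ⟨hσ, hk1, hk2⟩ hu hru.symm hr0 (out_src hs2' (by omega)) hout
    refine lemA σ' w v0 hw.1 hσ' ?_ (hru.trans (hconn.trans hr0)) hrv
    rw [abs_le]
    omega

/-! ### Independence -/

theorem Bev_A4a {L m d k : ℕ} (hdk : d ≤ k) (hk1 : k ≤ m) (hk2 : k ≤ 2 * L * m) {F : Set Edg}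
    (h : Bev L m d F) : A4a (0, 0) d k F := by
  obtain ⟨s, hs, t, ht, ⟨u0, hu0, hru⟩, ⟨v0, hv0, hrv⟩, hne⟩ := h
  have hset : (F \ ↑(boxE d)) ∩ ↑(RE (-(k:ℤ)) k (-k) k) =
      F ∩ ↑(blk (0, 0) k \ blk (0, 0) d) := by
    have e1 : blk (0, 0) k = RE (-(k:ℤ)) k (-k) k := by
      unfold blk
      congr 1 <;> ring
    have e2 : blk (0, 0) d = boxE d := by
      unfold blk boxE
      congr 1 <;> ring
    rw [e1, e2, Finset.coe_sdiff]
    ext x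
    simp only [Set.mem_inter_iff, Set.mem_sdiff]
    tauto
  have key : ∀ s ∈ bdB (0, 0) d, (∃ w ∈ bdR (-(2 * L * m : ℕ)) (2 * L * m : ℕ) (-m) m,
      Reach (F \ ↑(boxE d)) s w) → ∃ w ∈ bdB (0, 0) k,
      Reach (F ∩ ↑(blk (0, 0) k \ blk (0, 0) d)) s w := by
    rintro s hs ⟨w, ⟨-, hw⟩, hr⟩
    obtain ⟨hs1, hs2⟩ := bd_abs hs
    rw [abs_le] at hs1 hs2
    obtain ⟨w', h1, h2, h3⟩ := first_exit (a := -(k:ℤ)) (b := k) (c := -k) (d := k)
      (by unfold inR; omega) hr (by omega)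
    rw [hset] at h3
    refine ⟨w', ?_, h3⟩
    unfold inR at h1
    unfold bdB
    change |w'.1 - 0| ≤ (k:ℤ) ∧ |w'.2 - 0| ≤ (k:ℤ) ∧ (|w'.1 - 0| = (k:ℤ) ∨ |w'.2 - 0| = (k:ℤ))
    simp only [sub_zero]
    refine ⟨by rw [abs_le]; omega, by rw [abs_le]; omega, ?_⟩
    have h4 : (k:ℤ) ≥ 0 := by positivity
    rcases h2 with h2 | h2 | h2 | h2
    · left; rw [h2, abs_neg, abs_of_nonneg h4]
    · left; rw [h2, abs_of_nonneg h4]
    · right; rw [h2, abs_neg, abs_of_nonneg h4]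
    · right; rw [h2, abs_of_nonneg h4]
  refine ⟨s, hs, t, ht, key s hs ⟨u0, hu0, hru⟩, key t ht ⟨v0, hv0, hrv⟩, fun h => hne (h.mono ?_)⟩
  rw [← hset]
  exact Set.inter_subset_left

theorem A4a_loc {d k : ℕ} {F : Set Edg} :
    A4a (0, 0) d k F ↔ A4a (0, 0) d k (F ∩ ↑(boxE k)) := by
  have hset : F ∩ ↑(boxE k) ∩ ↑(blk (0, 0) k \ blk (0, 0) d) =
      F ∩ ↑(blk (0, 0) k \ blk (0, 0) d) := by
    have e1 : blk (0, 0) k = boxE k := by
      unfold blk boxE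
      congr 1 <;> ring
    rw [e1, Finset.coe_sdiff]
    ext x
    simp only [Set.mem_inter_iff, Set.mem_sdiff]
    tauto
  unfold A4a
  rw [hset]

/-- `Bev`, together with an event which depends only on edges outside `boxE (m/2 - 1)`. -/
theorem indep {q : ℝ} (h0 : 0 ≤ q) (h1 : q ≤ 1) {L m d : ℕ} (hL : 2 ≤ L) (hm : 64 ≤ m)
    (hd : 64 * d ≤ m) {B : Finset Edg → Prop}
    (hB : ∀ F, B F ↔ B (F \ boxE (m / 2 - 1))) :
    PQ q (SR L m) (fun F => Bev L m d ↑F ∧ B F) ≤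
      PQ q (boxE (m / 8)) (fun F => A4a (0, 0) d (m / 8) ↑F) * PQ q (SR L m) B := by
  have hok : Ok (fun _ : Edg => q) := okq h0 h1
  have hLm : m ≤ 2 * L * m := by
    have : m ≤ L * m := Nat.le_mul_of_pos_left _ (by omega)
    nlinarith
  have hRbox : boxE (m / 8) ⊆ boxE (m / 2 - 1) := by
    unfold boxE
    exact RE_subset (by omega) (by omega) (by omega) (by omega)
  have hboxS : boxE (m / 2 - 1) ⊆ SR L m := by
    unfold boxE SR
    exact RE_subset (by omega) (by omega) (by omega) (by omega)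
  have hRS := hRbox.trans hboxS
  have hstep : PQ q (SR L m) (fun F => Bev L m d ↑F ∧ B F) ≤
      PQ q (SR L m) (fun F => A4a (0, 0) d (m / 8) ↑F ∧ B F) := by
    apply Pr_mono hok
    rintro F - ⟨hF, hBF⟩
    exact ⟨Bev_A4a (by omega) (by omega) (by omega) hF, hBF⟩
  refine hstep.trans ?_
  have hind := Pr_indep (p := fun _ : Edg => q) (U := SR L m)
    (S := boxE (m / 8)) (T := SR L m \ boxE (m / 2 - 1))
    (A := fun F => A4a (0, 0) d (m / 8) ↑F) (B := B)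
    hRS Finset.sdiff_subset ?_ ?_ ?_
  · unfold PQ
    rw [hind]
    have hloc : Pr (fun _ : Edg => q) (SR L m) (fun F => A4a (0, 0) d (m / 8) ↑F) =
        Pr (fun _ : Edg => q) (boxE (m / 8)) (fun F => A4a (0, 0) d (m / 8) ↑F) :=
      Pr_local hRS (fun F _ => by rw [A4a_loc, Finset.coe_inter])
    rw [hloc]
  · rw [Finset.disjoint_left]
    intro f hf hf'
    exact (Finset.mem_sdiff.1 hf').2 (hRbox hf)
  · intro F _
    show A4a _ _ _ _ ↔ A4a _ _ _ _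
    rw [A4a_loc, Finset.coe_inter]
  · intro F hF
    have h2 : F ∩ (SR L m \ boxE (m / 2 - 1)) = F \ boxE (m / 2 - 1) := by
      ext f
      rw [Finset.mem_inter, Finset.mem_sdiff, Finset.mem_sdiff]
      constructor
      · rintro ⟨h3, -, h4⟩
        exact ⟨h3, h4⟩
      · rintro ⟨h3, h4⟩
        exact ⟨h3, hF h3, h4⟩
    rw [h2]
    exact hB F

/-- The end event, together with `Bev`. -/
theorem end_blk (κ : ℝ) (hκ : 0 < κ) : ∃ C c : ℝ, 0 < C ∧ 0 < c ∧ ∀ (q : ℝ) (n : ℕ),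
    Win q κ n → ∀ m L d : ℕ, 64 ≤ m → 2 ≤ L → 2 * m ≤ n → 64 * d ≤ m →
      PQ q (SR L m) (fun F => Bev L m d ↑F ∧
        ∃ u v : Vtx, |u.1| ≤ m ∧ |u.2| ≤ m ∧ Reach ((↑F : Set Edg) \ ↑(boxE d)) u v ∧
          (L * m : ℕ) ≤ |v.1|) ≤
      PQ q (boxE (m / 8)) (fun F => A4a (0, 0) d (m / 8) ↑F) * (C * Real.exp (-c * L)) := by
  obtain ⟨C, c, hC, hc, h⟩ := win_end_of
    (fun {q κ n} h {m} hm hmn c1 c2 S => win_blk h hm hmn c1 c2 S) κ hκ
  refine ⟨C, c, hC, hc, ?_⟩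
  intro q n hw m L d hm hL hmn hd
  set S0 : Finset Edg := RE (-(L * m : ℕ)) (L * m : ℕ) (-m) m \ boxE (m / 2 - 1) with hS0
  set B : Finset Edg → Prop := fun F => ∃ u v : Vtx, |u.1| ≤ m ∧ (L * m : ℕ) ≤ |v.1| ∧
    |u.2| ≤ m ∧ Reach (↑(F ∩ S0) : Set Edg) u v with hBdef
  have hB : ∀ F, B F ↔ B (F \ boxE (m / 2 - 1)) := by
    intro F
    have h1 : F ∩ S0 = (F \ boxE (m / 2 - 1)) ∩ S0 := by
      ext f
      simp only [Finset.mem_inter, Finset.mem_sdiff, hS0]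
      tauto
    show (∃ u v : Vtx, |u.1| ≤ m ∧ (L * m : ℕ) ≤ |v.1| ∧ |u.2| ≤ m ∧
      Reach (↑(F ∩ S0) : Set Edg) u v) ↔ ∃ u v : Vtx, |u.1| ≤ m ∧ (L * m : ℕ) ≤ |v.1| ∧
      |u.2| ≤ m ∧ Reach (↑((F \ boxE (m / 2 - 1)) ∩ S0) : Set Edg) u v
    rw [← h1]
  have hN : ∃ N : ℕ, N = L * m := ⟨_, rfl⟩
  obtain ⟨N, hNdef⟩ := hN
  have hNm : 2 * m ≤ N := by rw [hNdef]; exact Nat.mul_le_mul_right _ hL
  have h2N : 2 * L * m = 2 * N := by rw [hNdef]; ring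
  have hS0S : S0 ⊆ SR L m := by
    rw [hS0]
    refine Finset.sdiff_subset.trans ?_
    unfold SR
    rw [h2N, ← hNdef]
    exact RE_subset (by omega) (by omega) (by omega) (by omega)
  have hcross : ∀ F : Finset Edg, F ⊆ SR L m → (∃ u v : Vtx, |u.1| ≤ m ∧ |u.2| ≤ m ∧
      Reach ((↑F : Set Edg) \ ↑(boxE d)) u v ∧ (L * m : ℕ) ≤ |v.1|) → B F := by
    rintro F hFS ⟨u, v, hu1, hu2, hr, hv⟩
    obtain ⟨x', y', hx', hy', hr'⟩ := WA_cross (F := (↑F : Set Edg) \ ↑(boxE d)) src tgt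
      (P := fun v : Vtx => |v.1| ≤ m ∧ |v.2| ≤ m) (Q := fun v : Vtx => (L * m : ℕ) ≤ |v.1|)
      hr ⟨hu1, hu2⟩ hv
    refine ⟨x', y', hx'.1, hy', hx'.2, ?_⟩
    have hr'' : Reach (((↑F : Set Edg) \ ↑(boxE d)) ∩ WA_T src tgt
      (fun v : Vtx => |v.1| ≤ m ∧ |v.2| ≤ m) (fun v : Vtx => ((L * m : ℕ) : ℤ) ≤ |v.1|)) x' y' := hr'
    refine hr''.mono ?_
    rintro f ⟨⟨hf1, -⟩, hf2, hf3⟩
    have hfS := hFS hf1
    rw [Finset.coe_inter]
    refine ⟨hf1, ?_⟩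
    rw [Finset.mem_coe, hS0, Finset.mem_sdiff]
    rw [← hNdef] at hf3 ⊢
    unfold SR at hfS
    rw [h2N] at hfS
    obtain ⟨x, y, _ | _⟩ := f
    · simp only [src_mk, tgt_false, abs_le, le_abs, not_and_or, not_or, not_le] at hf2 hf3
      rw [mem_RE_false] at hfS ⊢
      unfold boxE
      rw [mem_RE_false]
      omega
    · simp only [src_mk, tgt_true, abs_le, le_abs, not_and_or, not_or, not_le] at hf2 hf3
      rw [mem_RE_true] at hfS ⊢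
      unfold boxE
      rw [mem_RE_true]
      omega
  have h1 : PQ q (SR L m) (fun F => Bev L m d ↑F ∧
        ∃ u v : Vtx, |u.1| ≤ m ∧ |u.2| ≤ m ∧ Reach ((↑F : Set Edg) \ ↑(boxE d)) u v ∧
          (L * m : ℕ) ≤ |v.1|) ≤
      PQ q (SR L m) (fun F => Bev L m d ↑F ∧ B F) := by
    apply Pr_mono hw.ok
    rintro F hF ⟨hA, hE⟩
    exact ⟨hA, hcross F hF hE⟩
  refine h1.trans ((indep hw.q0 hw.q1 hL hm hd hB).trans ?_)
  have h2 : PQ q (SR L m) B ≤ C * Real.exp (-c * L) := by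
    have h3 : PQ q (SR L m) B = PQ q S0 B := by
      unfold PQ
      apply Pr_local hS0S
      intro F _
      show (∃ u v : Vtx, |u.1| ≤ m ∧ (L * m : ℕ) ≤ |v.1| ∧ |u.2| ≤ m ∧
        Reach (↑(F ∩ S0) : Set Edg) u v) ↔ ∃ u v : Vtx, |u.1| ≤ m ∧ (L * m : ℕ) ≤ |v.1| ∧
        |u.2| ≤ m ∧ Reach (↑(F ∩ S0 ∩ S0) : Set Edg) u v
      rw [Finset.inter_assoc, Finset.inter_self]
    rw [h3]
    refine le_trans ?_ (h q n hw m L (by omega) hmn S0 Finset.sdiff_subset)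
    apply Pr_mono hw.ok
    rintro F - ⟨u, v, hu, hv, hu2, hr⟩
    refine ⟨u, v, hu, hv, hu2, hr.mono ?_⟩
    rw [Finset.coe_inter]
    exact Set.inter_subset_left
  exact mul_le_mul_of_nonneg_left h2 (Pr_nonneg hw.ok _ _)

/-- One `H3` event. -/
theorem term_blk {κ C c : ℝ} (H3 : EP2.H3B κ C c) {q : ℝ} {n : ℕ} (hW : Win q κ n)
    {L m d : ℕ} (hL : 2 ≤ L) (hm : 64 ≤ m) (hd : 64 * d ≤ m) {r R : ℕ} (hr : 1 ≤ r)
    (hrR : r ≤ R) (hR : 2 * R ≤ m) (hn : R ≤ n) (σ : Bool) {x0 : ℤ}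
    (hx : |x0| + R ≤ (2 * L * m : ℕ)) :
    PQ q (SR L m) (fun F => Bev L m d ↑F ∧ H3s σ m x0 r R ↑F) ≤
      PQ q (boxE (m / 8)) (fun F => A4a (0, 0) d (m / 8) ↑F) *
        (C * ((r:ℝ) / R) ^ (1 + c)) := by
  obtain ⟨h0, h1⟩ := EP2.win01 hW
  refine (indep h0 h1 hL hm hd (B := fun F => H3s σ m x0 r R ↑F) ?_).trans
    (mul_le_mul_of_nonneg_left (H3 q n hW r R hr hrR hn σ m x0 _ (EP2.HB_sub (by omega) hx))
      (Pr_nonneg (okq h0 h1) _ _))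
  intro F
  apply EP2.H3s_congr
  ext x
  simp only [Set.mem_inter_iff, Finset.mem_coe, Finset.mem_sdiff]
  constructor
  · rintro ⟨hxF, hxH⟩
    exact ⟨⟨hxF, EP2.HB_notMem hR (by omega) hxH⟩, hxH⟩
  · rintro ⟨⟨hxF, _⟩, hxH⟩
    exact ⟨hxF, hxH⟩

end SB

open EP2 SB

/-- S4b: exit for blocks. -/
theorem exit_blk' : ∃ (C c : ℝ), 0 < C ∧ 0 < c ∧ ∀ (L : ℕ) (δ : ℝ), 2 ≤ L → 0 < δ →
    ∃ M1 M20 : ℕ, 64 ≤ M1 ∧ 8 * M1 ≤ M20 ∧ ∀ M2 : ℕ, M20 ≤ M2 → ∃ N : ℕ, ∀ m d : ℕ,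
      64 * M2 ≤ m → 1 ≤ d → 64 * d ≤ m →
      PQ (1/2) (SR L m) (fun F => ∃ u ∈ bdB (0, 0) d, ∃ u' ∈ bdB (0, 0) d,
          (∃ w ∈ bdR (-(2 * L * m : ℕ)) (2 * L * m : ℕ) (-m) m,
            Reach ((↑F : Set Edg) \ ↑(boxE d)) u w) ∧
          (∃ w ∈ bdR (-(2 * L * m : ℕ)) (2 * L * m : ℕ) (-m) m,
            Reach ((↑F : Set Edg) \ ↑(boxE d)) u' w) ∧
          ¬ Reach ((↑F : Set Edg) \ ↑(boxE d)) u u') ≤
        (∑ p ∈ prs L m (m / M2) N, PQ (1/2) (SR L m) (fun F =>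
          (p.1.1 = p.2.1 → 4 * ((m / M2 : ℕ):ℤ) <
            |2 * ((m / M2 : ℕ):ℤ) * p.1.2 - 2 * ((m / M2 : ℕ):ℤ) * p.2.2|) ∧
          BPv (cell p.1.1 m (2 * (m / M2 : ℕ) * p.1.2) (m / M2))
            (cell p.2.1 m (2 * (m / M2 : ℕ) * p.2.2) (m / M2)) (boxE d) ↑F)) +
        (δ + C * Real.exp (-c * L)) *
          PQ (1/2) (boxE (m / 8)) (fun F => A4a (0, 0) d (m / 8) ↑F) := by
  classical
  obtain ⟨κ, hκ, hWall⟩ := win_half
  obtain ⟨C1, c1, hC1, hc1, H3⟩ := H3s_prob κ hκ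
  obtain ⟨C2, c2, hC2, hc2, HE⟩ := end_blk κ hκ
  refine ⟨C2, c2, hC2, hc2, ?_⟩
  intro L δ hL hδ
  obtain ⟨M1, hM1, hM1b⟩ := choose_M (4 * L) 10 C1 20 (by positivity) (by norm_num) hC1.le
    (by norm_num) hc1 (half_pos hδ) 64
  obtain ⟨M20, hM20, hM20b⟩ := choose_M_all (4 * L) 6 C1 (2 * M1) (by positivity) (by norm_num)
    hC1.le (by positivity) hc1 (half_pos hδ) (8 * M1)
  refine ⟨M1, M20, hM1, hM20, ?_⟩
  intro M2 hM2M
  have hM2 : 8 * M1 ≤ M2 := hM20.trans hM2M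
  have hM2b := hM20b M2 hM2M
  refine ⟨L * M2 + 1, ?_⟩
  intro m d hm64M hd1 hd
  have hm : M2 ≤ m := by omega
  obtain ⟨q, hq⟩ : ∃ q : ℝ, q = 1/2 := ⟨_, rfl⟩
  simp only [← hq] at hWall ⊢
  obtain ⟨n, hn⟩ : ∃ n : ℕ, 4 * L * m ≤ n := ⟨_, le_rfl⟩
  have hW := hWall n
  obtain ⟨h0, h1⟩ := win01 hW
  change PQ q (SR L m) (fun F => Bev L m d ↑F) ≤ _
  obtain ⟨h, hh⟩ : ∃ h : ℝ, h = PQ q (boxE (m / 8)) (fun F => A4a (0, 0) d (m / 8) ↑F) :=
    ⟨_, rfl⟩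
  have a4n : 0 ≤ h := by rw [hh]; exact Pr_nonneg (okq h0 h1) _ _
  obtain ⟨r, hr⟩ : ∃ r : ℕ, r = m / M2 := ⟨_, rfl⟩
  obtain ⟨ρ, hρ⟩ : ∃ ρ : ℕ, ρ = m / M1 := ⟨_, rfl⟩
  have hr1 : 1 ≤ r := by rw [hr]; exact (Nat.one_le_div_iff (by omega)).mpr hm
  have hρ1 : 1 ≤ ρ := by rw [hρ]; exact (Nat.one_le_div_iff (by omega)).mpr (by omega)
  have hmul1 : M1 * ρ ≤ m := by rw [hρ]; exact Nat.mul_div_le m M1
  have hmul2 : M2 * r ≤ m := by rw [hr]; exact Nat.mul_div_le m M2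
  have hlt1 : m < M1 * ρ + M1 := by
    rw [hρ]
    have := Nat.div_add_mod m M1
    have := Nat.mod_lt m (show M1 > 0 by omega)
    omega
  have hlt2 : m < M2 * r + M2 := by
    rw [hr]
    have := Nat.div_add_mod m M2
    have := Nat.mod_lt m (show M2 > 0 by omega)
    omega
  have h64 : 64 * ρ ≤ m := le_trans (Nat.mul_le_mul_right ρ hM1) hmul1
  have h8 : 8 * r ≤ ρ := by
    have : 8 * r * M1 ≤ m := by
      calc 8 * r * M1 = 8 * M1 * r := by ring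
        _ ≤ M2 * r := Nat.mul_le_mul_right r hM2
        _ ≤ m := hmul2
    rw [hρ]
    exact (Nat.le_div_iff_mul_le (by omega)).mpr this
  have hm64 : 64 ≤ m := by omega
  have hLm : 2 * m ≤ L * m := Nat.mul_le_mul_right m hL
  have hLm2 : 2 * L * m = 2 * (L * m) := by ring
  have hLm4 : 4 * L * m = 4 * (L * m) := by ring
  simp only [← hr, ← hh]
  set K1 : Finset ℤ := (Icc (-((L * M2 + 1 : ℕ) : ℤ)) ((L * M2 + 1 : ℕ) : ℤ)).filter
    (fun k => |2 * r * k| ≤ (L * m : ℕ) + (r:ℤ)) with hK1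
  set K2 : Finset ℤ := (Icc (-((L * M1 + 2 : ℕ) : ℤ)) ((L * M1 + 2 : ℕ) : ℤ)).filter
    (fun k => |4 * ρ * k| ≤ (L * m : ℕ) + 8 * (ρ:ℤ)) with hK2
  have mK1 : ∀ k : ℤ, |2 * r * k| ≤ (L * m : ℕ) + (r:ℤ) → k ∈ K1 := by
    intro k hk
    rw [hK1, Finset.mem_filter]
    refine ⟨?_, hk⟩
    rw [Finset.mem_Icc, ← abs_le]
    rw [abs_mul, abs_of_nonneg (by positivity : (0:ℤ) ≤ 2 * r)] at hk
    by_contra hcon
    push Not at hcon
    have h3 : ((L * M2 + 2 : ℕ) : ℤ) ≤ |k| := by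
      push_cast at hcon ⊢
      linarith
    have h4 : (2 * r : ℤ) * ((L * M2 + 2 : ℕ) : ℤ) ≤ 2 * r * |k| :=
      mul_le_mul_of_nonneg_left h3 (by positivity)
    have h5 : L * m ≤ L * (M2 * r + M2) := Nat.mul_le_mul_left L hlt2.le
    have h6 : L * M2 ≤ L * M2 * r := Nat.le_mul_of_pos_right _ (by omega)
    have h7 : (2 * r : ℤ) * ((L * M2 + 2 : ℕ) : ℤ) ≤ (L * m : ℕ) + (r:ℤ) := h4.trans hk
    have h8' : 2 * r * (L * M2 + 2) ≤ L * m + r := by exact_mod_cast h7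
    have h9 : 2 * r * (L * M2 + 2) = 2 * (L * M2 * r) + 4 * r := by ring
    have h10 : L * (M2 * r + M2) = L * M2 * r + L * M2 := by ring
    omega
  have mK2 : ∀ k : ℤ, |4 * ρ * k| ≤ (L * m : ℕ) + 8 * (ρ:ℤ) → k ∈ K2 := by
    intro k hk
    rw [hK2, Finset.mem_filter]
    refine ⟨?_, hk⟩
    rw [Finset.mem_Icc, ← abs_le]
    rw [abs_mul, abs_of_nonneg (by positivity : (0:ℤ) ≤ 4 * ρ)] at hk
    by_contra hcon
    push Not at hcon
    have h3 : ((L * M1 + 3 : ℕ) : ℤ) ≤ |k| := by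
      push_cast at hcon ⊢
      linarith
    have h4 : (4 * ρ : ℤ) * ((L * M1 + 3 : ℕ) : ℤ) ≤ 4 * ρ * |k| :=
      mul_le_mul_of_nonneg_left h3 (by positivity)
    have h5 : L * m ≤ L * (M1 * ρ + M1) := Nat.mul_le_mul_left L hlt1.le
    have h6 : L * M1 ≤ L * M1 * ρ := Nat.le_mul_of_pos_right _ (by omega)
    have h7 : (4 * ρ : ℤ) * ((L * M1 + 3 : ℕ) : ℤ) ≤ (L * m : ℕ) + 8 * (ρ:ℤ) := h4.trans hk
    have h8' : 4 * ρ * (L * M1 + 3) ≤ L * m + 8 * ρ := by exact_mod_cast h7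
    have h9 : 4 * ρ * (L * M1 + 3) = 4 * (L * M1 * ρ) + 12 * ρ := by ring
    have h10 : L * (M1 * ρ + M1) = L * M1 * ρ + L * M1 := by ring
    omega
  obtain ⟨T, hT⟩ : ∃ T : ((Bool × ℤ) × (Bool × ℤ)) → Finset Edg → Prop,
      T = fun (p : (Bool × ℤ) × (Bool × ℤ)) (F : Finset Edg) =>
      (p.1.1 = p.2.1 → 4 * (r:ℤ) < |2 * (r:ℤ) * p.1.2 - 2 * (r:ℤ) * p.2.2|) ∧
          BPv (cell p.1.1 m (2 * r * p.1.2) r) (cell p.2.1 m (2 * r * p.2.2) r) (boxE d) ↑F :=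
    ⟨_, rfl⟩
  obtain ⟨E1, hE1⟩ : ∃ E1 : Finset Edg → Prop, E1 = fun (F : Finset Edg) => Bev L m d ↑F ∧
          ∃ u v : Vtx, |u.1| ≤ m ∧ |u.2| ≤ m ∧ Reach ((↑F : Set Edg) \ ↑(boxE d)) u v ∧
          (L * m : ℕ) ≤ |v.1| := ⟨_, rfl⟩
  obtain ⟨E2, hE2⟩ : ∃ E2 : Finset Edg → Prop, E2 = fun (F : Finset Edg) => ∃ s ∈ (univ : Finset Bool) ×ˢ K1,
      Bev L m d ↑F ∧ H3s s.1 m (2 * r * s.2) r ρ ↑F := ⟨_, rfl⟩
  obtain ⟨E3, hE3⟩ : ∃ E3 : Finset Edg → Prop, E3 = fun (F : Finset Edg) => ∃ s ∈ (univ : Finset Bool) ×ˢ K2,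
      Bev L m d ↑F ∧ H3s s.1 m (4 * ρ * s.2) (8 * ρ) (m / 2) ↑F := ⟨_, rfl⟩
  -- union bound
  have hub : PQ q (SR L m) (fun F => Bev L m d ↑F) ≤
      PQ q (SR L m) (fun F => (∃ p ∈ prs L m r (L * M2 + 1), T p F) ∨ (E1 F ∨ (E2 F ∨ E3 F))) := by
    apply Pr_mono (okq h0 h1)
    intro F hF hA
    by_contra hcon
    push Not at hcon
    obtain ⟨hQ, hEnd, hS, hB⟩ := hcon
    rw [hT] at hQ
    rw [hE1] at hEnd
    rw [hE2] at hS
    rw [hE3] at hB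
    push Not at hEnd hS hB
    have hF' : (↑F : Set Edg) ⊆ ↑(RE (-(2 * L * m : ℕ)) (2 * L * m : ℕ) (-m) m) := by
      exact_mod_cast hF
    obtain ⟨σ, σ', k, k', hk, hk', hQe⟩ := exit_det_blk hL hr1 h8 h64 hd hF' hA
      (fun u v hu1 hu2 hr0 => by
        exact hEnd hA u v hu1 hu2 hr0)
      (fun σ k hk => hS (σ, k) (Finset.mem_product.mpr ⟨Finset.mem_univ _, mK1 k hk⟩) hA)
      (fun σ k hk => hB (σ, k) (Finset.mem_product.mpr ⟨Finset.mem_univ _, mK2 k hk⟩) hA)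
    refine hQ ((σ, k), (σ', k')) ?_ hQe
    have m1 := mK1 k hk
    have m2 := mK1 k' hk'
    rw [hK1, Finset.mem_filter] at m1 m2
    unfold prs
    rw [Finset.mem_filter, Finset.mem_product, Finset.mem_product, Finset.mem_product]
    exact ⟨⟨⟨Finset.mem_univ _, m1.1⟩, ⟨Finset.mem_univ _, m2.1⟩⟩, hk, hk'⟩
  have b1 := pr_biUnion h0 h1 (SR L m) (prs L m r (L * M2 + 1)) T
  have b2 : PQ q (SR L m) E1 ≤ h * (C2 * Real.exp (-c2 * L)) := by
    rw [hE1, hh]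
    exact HE q n hW m L d hm64 hL (by omega) hd
  -- small events
  have b3 : PQ q (SR L m) E2 ≤ δ / 2 * h := by
    rw [hE2]
    refine (pr_biUnion h0 h1 (SR L m) _ _).trans ?_
    have hterm : ∀ s ∈ (univ : Finset Bool) ×ˢ K1, PQ q (SR L m) (fun F =>
        Bev L m d ↑F ∧ H3s s.1 m (2 * r * s.2) r ρ ↑F) ≤
        h * (C1 * (2 * M1 / M2) ^ (1 + c1)) := by
      rintro ⟨σ, k⟩ hs
      rw [Finset.mem_product, hK1, Finset.mem_filter] at hs
      obtain ⟨-, -, hk⟩ := hs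
      rw [hh]
      refine (term_blk H3 hW hL hm64 hd hr1 (by omega) (by omega) (by omega) σ ?_).trans ?_
      · simp only at hk ⊢
        push_cast at hk ⊢
        have h3 : ((2 * m : ℕ) : ℤ) ≤ ((L * m : ℕ) : ℤ) := by exact_mod_cast hLm
        push_cast at h3
        have h4 : (64 * ρ : ℤ) ≤ m := by exact_mod_cast h64
        have h5 : (8 * r : ℤ) ≤ ρ := by exact_mod_cast h8
        have h6 : (0:ℤ) ≤ r := by positivity
        have h7 : (0:ℤ) ≤ ρ := by positivity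
        linarith
      · rw [← hh]
        refine mul_le_mul_of_nonneg_left (mul_le_mul_of_nonneg_left (ratio_le (by positivity) ?_ hc1)
          hC1.le) a4n
        have h3 : (r:ℝ) ≤ m / M2 := by rw [hr]; exact Nat.cast_div_le
        have h4 : (m:ℝ) / (2 * M1) ≤ ρ := by rw [hρ]; exact div_ge (by omega) (by omega)
        have hM1p : (0:ℝ) < M1 := by exact_mod_cast (by omega : 0 < M1)
        have hM2p : (0:ℝ) < M2 := by exact_mod_cast (by omega : 0 < M2)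
        have hmp : (0:ℝ) < m := by exact_mod_cast (by omega : 0 < m)
        have hρp : (0:ℝ) < ρ := by exact_mod_cast (by omega : 0 < ρ)
        calc (r:ℝ) / ρ ≤ (m / M2) / (m / (2 * M1)) :=
              div_le_div₀ (by positivity) h3 (by positivity) h4
          _ = 2 * M1 / M2 := by field_simp
    refine (Finset.sum_le_sum hterm).trans ?_
    rw [Finset.sum_const, nsmul_eq_mul]
    have hcard : ((((univ : Finset Bool) ×ˢ K1).card : ℕ) : ℝ) ≤ 4 * L * M2 + 6 := by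
      rw [Finset.card_product, Finset.card_univ, Fintype.card_bool]
      have h3 : K1.card ≤ 2 * (L * M2 + 1) + 1 := by
        refine (Finset.card_filter_le _ _).trans ?_
        rw [Int.card_Icc]
        omega
      calc (((2 * K1.card : ℕ)) : ℝ) ≤ ((2 * (2 * (L * M2 + 1) + 1) : ℕ) : ℝ) := by
            exact_mod_cast Nat.mul_le_mul_left 2 h3
        _ = 4 * L * M2 + 6 := by push_cast; ring
    have hpos : 0 ≤ h * (C1 * (2 * (M1:ℝ) / M2) ^ (1 + c1)) := by positivity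
    calc _ ≤ (4 * L * M2 + 6) * (h * (C1 * (2 * (M1:ℝ) / M2) ^ (1 + c1))) :=
          mul_le_mul_of_nonneg_right hcard hpos
      _ = ((4 * L * M2 + 6) * (C1 * (2 * (M1:ℝ) / M2) ^ (1 + c1))) * h := by ring
      _ ≤ δ / 2 * h := mul_le_mul_of_nonneg_right hM2b a4n
  -- big events
  have b4 : PQ q (SR L m) E3 ≤ δ / 2 * h := by
    rw [hE3]
    refine (pr_biUnion h0 h1 (SR L m) _ _).trans ?_
    have hterm : ∀ s ∈ (univ : Finset Bool) ×ˢ K2, PQ q (SR L m) (fun F =>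
        Bev L m d ↑F ∧ H3s s.1 m (4 * ρ * s.2) (8 * ρ) (m / 2) ↑F) ≤
        h * (C1 * (20 / M1) ^ (1 + c1)) := by
      rintro ⟨σ, k⟩ hs
      rw [Finset.mem_product, hK2, Finset.mem_filter] at hs
      obtain ⟨-, -, hk⟩ := hs
      rw [hh]
      refine (term_blk H3 hW hL hm64 hd (by omega) (by omega) (by omega) (by omega) σ ?_).trans
        ?_
      · simp only at hk ⊢
        have h2' : ((m / 2 : ℕ) : ℤ) ≤ m := by exact_mod_cast Nat.div_le_self m 2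
        have h3 : ((2 * m : ℕ) : ℤ) ≤ ((L * m : ℕ) : ℤ) := by exact_mod_cast hLm
        have h4 : (64 * ρ : ℤ) ≤ m := by exact_mod_cast h64
        have h7 : (0:ℤ) ≤ ρ := by positivity
        have h9 : ((2 * L * m : ℕ) : ℤ) = 2 * ((L * m : ℕ) : ℤ) := by push_cast; ring
        rw [h9]
        push_cast at hk h3 ⊢
        push_cast at h2'
        linarith
      · rw [← hh]
        refine mul_le_mul_of_nonneg_left (mul_le_mul_of_nonneg_left (ratio_le (by positivity) ?_ hc1)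
          hC1.le) a4n
        have h3 : (ρ:ℝ) ≤ m / M1 := by rw [hρ]; exact Nat.cast_div_le
        have h4 : (2:ℝ) / 5 * m ≤ ((m / 2 : ℕ) : ℝ) := by
          have h5 : 2 * m ≤ 5 * (m / 2) := by omega
          have h6 : (2:ℝ) * m ≤ 5 * ((m / 2 : ℕ) : ℝ) := by exact_mod_cast h5
          linarith
        have hM1p : (0:ℝ) < M1 := by exact_mod_cast (by omega : 0 < M1)
        have hmp : (0:ℝ) < m := by exact_mod_cast (by omega : 0 < m)
        have h5 : ((8 * ρ : ℕ) : ℝ) ≤ 8 * (m / M1) := by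
          push_cast
          linarith
        calc ((8 * ρ : ℕ) : ℝ) / ((m / 2 : ℕ) : ℝ) ≤ (8 * (m / M1)) / (2 / 5 * m) :=
              div_le_div₀ (by positivity) h5 (by positivity) h4
          _ = 20 / M1 := by field_simp; norm_num
    refine (Finset.sum_le_sum hterm).trans ?_
    rw [Finset.sum_const, nsmul_eq_mul]
    have hcard : ((((univ : Finset Bool) ×ˢ K2).card : ℕ) : ℝ) ≤ 4 * L * M1 + 10 := by
      rw [Finset.card_product, Finset.card_univ, Fintype.card_bool]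
      have h3 : K2.card ≤ 2 * (L * M1 + 2) + 1 := by
        refine (Finset.card_filter_le _ _).trans ?_
        rw [Int.card_Icc]
        omega
      calc (((2 * K2.card : ℕ)) : ℝ) ≤ ((2 * (2 * (L * M1 + 2) + 1) : ℕ) : ℝ) := by
            exact_mod_cast Nat.mul_le_mul_left 2 h3
        _ = 4 * L * M1 + 10 := by push_cast; ring
    have hpos : 0 ≤ h * (C1 * (20 / (M1:ℝ)) ^ (1 + c1)) := by positivity
    calc _ ≤ (4 * L * M1 + 10) * (h * (C1 * (20 / (M1:ℝ)) ^ (1 + c1))) :=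
          mul_le_mul_of_nonneg_right hcard hpos
      _ = ((4 * L * M1 + 10) * (C1 * (20 / (M1:ℝ)) ^ (1 + c1))) * h := by ring
      _ ≤ δ / 2 * h := mul_le_mul_of_nonneg_right hM1b a4n
  have c1' := Pr_or_le (okq h0 h1) (SR L m) (fun F => ∃ p ∈ prs L m r (L * M2 + 1), T p F)
    (fun F => E1 F ∨ (E2 F ∨ E3 F))
  have c2' := Pr_or_le (okq h0 h1) (SR L m) E1 (fun F => E2 F ∨ E3 F)
  have c3' := Pr_or_le (okq h0 h1) (SR L m) E2 E3
  have e1 : (δ + C2 * Real.exp (-c2 * L)) * h =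
      h * (C2 * Real.exp (-c2 * L)) + (δ / 2 * h + δ / 2 * h) := by
    ring
  rw [e1]
  rw [hT] at b1
  rw [hT] at hub c1'
  exact hub.trans (c1'.trans (add_le_add b1 (c2'.trans (add_le_add b2 (c3'.trans
    (add_le_add b3 b4))))))

end H389NS
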