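import Pool.Agent.H389R2.NS.QHalf
import Pool.Agent.H389R2.NS.D2
import Pool.Agent.H12R2.Sep.Exit5
import Pool.Agent.H389R2.NS.S4C
import Pool.Agent.H389R2.NS.S4a
import Pool.Agent.H389R2.NS.S4b

/-! Four arms in an annulus: exponent larger than one. -/

set_option autoImplicit false

namespace H389NS

open H974 H12S Finset

/-- S4a: pivotal blocks, uniformly in the domain. -/
theorem blk_dom : ∃ C : ℝ, 0 < C ∧ ∀ (p : Edg → ℝ) (S : Finset Edg) (I J I' J' : Set Vtx)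
    (c : ℤ × ℤ) (d k : ℕ), 1 ≤ d → d ≤ k → DomB p S I J I' J' c k →
      Pr p S (fun F => BPv I J (blk c d) ↑F) ≤ C * ((d:ℝ) / k) ^ (5/4 : ℝ) := blk_dom'

/-- S4b: exit for blocks. -/
theorem exit_blk : ∃ (C c : ℝ), 0 < C ∧ 0 < c ∧ ∀ (L : ℕ) (δ : ℝ), 2 ≤ L → 0 < δ →
    ∃ M1 M20 : ℕ, 64 ≤ M1 ∧ 8 * M1 ≤ M20 ∧ ∀ M2 : ℕ, M20 ≤ M2 → ∃ N : ℕ, ∀ m d : ℕ,
      64 * M2 ≤ m → 1 ≤ d → 64 * d ≤ m →
      PQ (1/2) (SR L m) (fun F => ∃ u ∈ bdB (0, 0) d, ∃ u' ∈ bdB (0, 0) d,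
          (∃ w ∈ bdR (-(2 * L * m : ℕ)) (2 * L * m : ℕ) (-m) m,
            Reach ((↑F : Set Edg) \ ↑(boxE d)) u w) ∧
          (∃ w ∈ bdR (-(2 * L * m : ℕ)) (2 * L * m : ℕ) (-m) m,
            Reach ((↑F : Set Edg) \ ↑(boxE d)) u' w) ∧
          ¬ Reach ((↑F : Set Edg) \ ↑(boxE d)) u u') ≤
        (∑ p ∈ prs L m (m / M2) N, PQ (1/2) (SR L m) (fun F =>
          (p.1.1 = p.2.1 → 4 * ((m / M2 : ℕ):ℤ) <
            |2 * ((m / M2 : ℕ):ℤ) * p.1.2 - 2 * ((m / M2 : ℕ):ℤ) * p.2.2|) ∧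
          BPv (cell p.1.1 m (2 * (m / M2 : ℕ) * p.1.2) (m / M2))
            (cell p.2.1 m (2 * (m / M2 : ℕ) * p.2.2) (m / M2)) (boxE d) ↑F)) +
        (δ + C * Real.exp (-c * L)) *
          PQ (1/2) (boxE (m / 8)) (fun F => A4a (0, 0) d (m / 8) ↑F) := exit_blk'

/-- S4 -/
theorem A4a_bound : ∃ C c : ℝ, 0 < C ∧ 0 < c ∧ ∀ (c0 : ℤ × ℤ) (d k : ℕ), 1 ≤ d → d ≤ k →
    ∀ S : Finset Edg, blk c0 k ⊆ S →
      PQ (1/2) S (fun F => A4a c0 d k ↑F) ≤ C * ((d:ℝ) / k) ^ (1 + c) :=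
  A4a_bound_of blk_dom exit_blk

end H389NS
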