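import Pool.Agent.H389R2.NS.E1
import Pool.Agent.H389R2.NS.D0
import Pool.Agent.H389R2.NS.S4
import Pool.Agent.H988R6.Up

/-! Two-layer four-arm events with a correlation profile. -/

set_option autoImplicit false

namespace H389NS

open H974 H12S H985T Finset

namespace E2a

theorem A4a_loc {c : ℤ × ℤ} {d k : ℕ} (F : Finset Edg) :
    A4a c d k (↑F : Set Edg) ↔ A4a c d k (↑(F ∩ (blk c k \ blk c d)) : Set Edg) := by
  have : (↑(F ∩ (blk c k \ blk c d)) : Set Edg) ∩ ↑(blk c k \ blk c d) =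
      (↑F : Set Edg) ∩ ↑(blk c k \ blk c d) := by
    rw [Finset.coe_inter, Set.inter_assoc, Set.inter_self]
  unfold A4a
  rw [this]

/-- the union of two events -/
theorem P2_or {ρ : Edg → ℝ} {S : Finset Edg} (hρ : ∀ e ∈ S, 0 ≤ ρ e ∧ ρ e ≤ 1)
    (A B : Finset Edg → Prop) :
    P2 ρ S (fun F => A F ∨ B F) (fun F => A F ∨ B F) ≤ 2 * P2 ρ S A A + 2 * P2 ρ S B B := by
  have h1 := P2_add_le hρ A B (fun F => A F ∨ B F)
  have h2 : P2 ρ S A (fun F => A F ∨ B F) ≤ P2 ρ S A A + P2 ρ S B A := by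
    rw [P2_comm]
    exact P2_add_le hρ A B A
  have h3 : P2 ρ S B (fun F => A F ∨ B F) ≤ P2 ρ S A B + P2 ρ S B B := by
    rw [P2_comm]
    exact P2_add_le hρ A B B
  have h4 := P2_cs hρ A B
  have h5 : P2 ρ S B A = P2 ρ S A B := P2_comm _ _ _ _
  linarith

/-- primal four arms -/
theorem prim {C c : ℝ}
    (hA : ∀ (c0 : ℤ × ℤ) (d k : ℕ), 1 ≤ d → d ≤ k → ∀ S : Finset Edg, blk c0 k ⊆ S →
      PQ (1/2) S (fun F => A4a c0 d k ↑F) ≤ C * ((d:ℝ) / k) ^ (1 + c))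
    {ρ : Edg → ℝ} {S : Finset Edg} {e : Edg} {d κ : ℕ} {y : ℝ}
    (hρ : ∀ e' ∈ S, 0 ≤ ρ e' ∧ ρ e' ≤ 1) (h0 : 0 ≤ y) (h1 : y ≤ 1) (hS : ebx e κ ⊆ S) (hd : 1 ≤ d)
    (hdκ : d ≤ κ) (hy : ∀ e' ∈ ebx e d, ρ e' = y) :
    P2 ρ S (fun F => A4e κ e ↑F) (fun F => A4e κ e ↑F) ≤ a42 y d * (C * ((d:ℝ) / κ) ^ (1 + c)) := by
  have hdS : ebx e d ⊆ S := by
    refine Finset.Subset.trans ?_ hS
    unfold ebx
    exact RE_subset (by omega) (by omega) (by omega) (by omega)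
  have hTS : blk (e.1, e.2.1) κ \ blk (e.1, e.2.1) d ⊆ S :=
    Finset.sdiff_subset.trans hS
  have hdis : Disjoint (ebx e d) (blk (e.1, e.2.1) κ \ blk (e.1, e.2.1) d) :=
    Finset.disjoint_sdiff
  calc P2 ρ S (fun F => A4e κ e ↑F) (fun F => A4e κ e ↑F)
      ≤ P2 ρ S (fun F => A4e d e ↑F ∧ A4a (e.1, e.2.1) d κ ↑F)
          (fun F => A4e d e ↑F ∧ A4a (e.1, e.2.1) d κ ↑F) :=
        D0.P2_mono hρ (fun F _ h => A4e_split hd hdκ h) (fun F _ h => A4e_split hd hdκ h)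
    _ = P2 ρ S (fun F => A4e d e ↑F) (fun F => A4e d e ↑F) *
          P2 ρ S (fun F => A4a (e.1, e.2.1) d κ ↑F) (fun F => A4a (e.1, e.2.1) d κ ↑F) :=
        P2_indep hdS hTS hdis
          (fun F _ => D0.A4_inter (Finset.Subset.refl _))
          (fun F _ => D0.A4_inter (Finset.Subset.refl _))
          (fun F _ => A4a_loc F) (fun F _ => A4a_loc F)
    _ ≤ a42 y d * (C * ((d:ℝ) / κ) ^ (1 + c)) := by
        apply mul_le_mul (P2_A4e hρ hdS hy) _ (D0.P2_nonneg hρ _ _) (a42_nonneg h0 h1 d)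
        exact (P2_le_Pr hρ _ _).trans (hA (e.1, e.2.1) d κ hd hdκ S hS)

/-- transport of the dual event -/
theorem dual_transport {ρ : Edg → ℝ} {S : Finset Edg} {e : Edg} {κ : ℕ}
    (hρ : ∀ e' ∈ S, 0 ≤ ρ e' ∧ ρ e' ≤ 1) (hS : ebx e (κ + 2) ⊆ S) :
    P2 ρ S (A4d κ e) (A4d κ e) ≤
      P2 (fun g => ρ (dl.symm g)) ((ebx e (κ + 2)).map dl.toEmbedding)
        (fun F => A4e κ (dl e) ↑F) (fun F => A4e κ (dl e) ↑F) := by
  have loc : ∀ F : Finset Edg, F ⊆ S → (A4d κ e F ↔ A4d κ e (F ∩ ebx e (κ + 2))) := by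
    intro F _
    unfold A4d
    have : ebx e (κ + 2) \ (F ∩ ebx e (κ + 2)) = ebx e (κ + 2) \ F := by
      ext x
      simp only [Finset.mem_sdiff, Finset.mem_inter]
      tauto
    rw [this]
  rw [P2_local hS loc loc, D0.P2_compl]
  have hm : ∀ F : Finset Edg, F ⊆ ebx e (κ + 2) → A4d κ e (ebx e (κ + 2) \ F) →
      A4e κ (dl e) (↑(F.map dl.toEmbedding) : Set Edg) := by
    intro F hF h
    unfold A4d at h
    rw [Finset.sdiff_sdiff_eq_self hF] at h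
    exact h
  refine (D0.P2_mono (fun e' he' => hρ e' (hS he')) hm hm).trans (le_of_eq ?_)
  have h3 := D0.P2_map dl.toEmbedding (fun g => ρ (dl.symm g)) (ebx e (κ + 2))
    (fun F => A4e κ (dl e) (↑F : Set Edg)) (fun F => A4e κ (dl e) (↑F : Set Edg))
  rw [h3]
  congr 1
  funext g
  simp

theorem sub_dual (e : Edg) (k : ℕ) : ebx (dl e) k ⊆ (ebx e (k + 2)).map dl.toEmbedding := by
  change ebx (dl e) k ⊆ dmp (ebx e (k + 2))
  unfold ebx
  rintro ⟨a, b, c⟩ h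
  rw [mem_dmp]
  obtain ⟨x, y, d⟩ := e
  cases c <;> cases d <;>
    simp only [dl_t, dl_f, dls_t, dls_f, mem_RE_true, mem_RE_false] at h ⊢ <;> push_cast <;> omega

end E2a

/-- E2: correlation `y` in the box of radius `d+2` around `e`, arbitrary elsewhere. -/
theorem P2_A4_outer1 : ∃ C c : ℝ, 0 < C ∧ 0 < c ∧ ∀ (ρ : Edg → ℝ) (S : Finset Edg) (e : Edg)
    (d κ : ℕ) (y : ℝ), (∀ e' ∈ S, 0 ≤ ρ e' ∧ ρ e' ≤ 1) → 0 ≤ y → y ≤ 1 → ebx e (κ + 2) ⊆ S →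
      1 ≤ d → d ≤ κ → (∀ e' ∈ ebx e (d + 2), ρ e' = y) →
      P2 ρ S (fun F => A4e κ e ↑F ∨ A4d κ e F) (fun F => A4e κ e ↑F ∨ A4d κ e F) ≤
        C * a42 y d * ((d:ℝ) / κ) ^ (1 + c) := by
  obtain ⟨C, c, hC, hc, hA⟩ := A4a_bound
  refine ⟨4 * C, c, by positivity, hc, ?_⟩
  intro ρ S e d κ y hρ h0 h1 hS hd hdκ hy
  have hS0 : ebx e κ ⊆ S := by
    refine Finset.Subset.trans ?_ hS
    unfold ebx
    exact RE_subset (by push_cast; omega) (by push_cast; omega) (by push_cast; omega)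
      (by push_cast; omega)
  have hy0 : ∀ e' ∈ ebx e d, ρ e' = y := by
    intro e' he'
    apply hy
    revert he'
    unfold ebx
    intro he'
    exact RE_subset (by push_cast; omega) (by push_cast; omega) (by push_cast; omega)
      (by push_cast; omega) he'
  have k1 := E2a.prim hA hρ h0 h1 hS0 hd hdκ hy0
  have hρ' : ∀ g ∈ (ebx e (κ + 2)).map dl.toEmbedding, 0 ≤ ρ (dl.symm g) ∧ ρ (dl.symm g) ≤ 1 := by
    intro g hg
    rw [Finset.mem_map] at hg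
    obtain ⟨x, hx, rfl⟩ := hg
    have : dl.symm (dl.toEmbedding x) = x := by simp
    rw [this]
    exact hρ x (hS hx)
  have hy' : ∀ g ∈ ebx (dl e) d, ρ (dl.symm g) = y := by
    intro g hg
    have := E2a.sub_dual e d hg
    rw [Finset.mem_map] at this
    obtain ⟨x, hx, rfl⟩ := this
    have : dl.symm (dl.toEmbedding x) = x := by simp
    rw [this]
    exact hy x hx
  have k2 := (E2a.dual_transport hρ hS).trans
    (E2a.prim hA hρ' h0 h1 (E2a.sub_dual e κ) hd hdκ hy')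
  have k3 := E2a.P2_or hρ (fun F => A4e κ e (↑F : Set Edg)) (A4d κ e)
  refine k3.trans ?_
  have : 4 * C * a42 y d * ((d:ℝ) / κ) ^ (1 + c) =
    2 * (a42 y d * (C * ((d:ℝ) / κ) ^ (1 + c))) + 2 * (a42 y d * (C * ((d:ℝ) / κ) ^ (1 + c))) := by
    ring
  rw [this]
  exact add_le_add (mul_le_mul_of_nonneg_left k1 (by norm_num))
    (mul_le_mul_of_nonneg_left k2 (by norm_num))

/-- E2': no information on the correlations. -/
theorem P2_A4_triv1 : ∃ C : ℝ, 0 < C ∧ ∀ (ρ : Edg → ℝ) (S : Finset Edg) (e : Edg)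
    (κ : ℕ), (∀ e' ∈ S, 0 ≤ ρ e' ∧ ρ e' ≤ 1) → ebx e (κ + 2) ⊆ S → 1 ≤ κ →
      P2 ρ S (fun F => A4e κ e ↑F ∨ A4d κ e F) (fun F => A4e κ e ↑F ∨ A4d κ e F) ≤
        C * (κ:ℝ) ^ (-(5/4) : ℝ) := by
  obtain ⟨c, C, hc, hC, hA⟩ := Pool.Agent.H988R6.a4_sharp
  refine ⟨4 * C, by positivity, ?_⟩
  intro ρ S e κ hρ hS hκ
  have hS0 : ebx e κ ⊆ S := by
    refine Finset.Subset.trans ?_ hS
    unfold ebx
    exact RE_subset (by push_cast; omega) (by push_cast; omega) (by push_cast; omega)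
      (by push_cast; omega)
  have hρ' : ∀ g ∈ (ebx e (κ + 2)).map dl.toEmbedding, 0 ≤ ρ (dl.symm g) ∧ ρ (dl.symm g) ≤ 1 := by
    intro g hg
    rw [Finset.mem_map] at hg
    obtain ⟨x, hx, rfl⟩ := hg
    have : dl.symm (dl.toEmbedding x) = x := by simp
    rw [this]
    exact hρ x (hS hx)
  have k1 : P2 ρ S (fun F => A4e κ e ↑F) (fun F => A4e κ e ↑F) ≤ C * (κ:ℝ) ^ (-(5/4) : ℝ) :=
    ((P2_le_Pr hρ _ _).trans (pr_A4e (q := 1/2) (by norm_num) (by norm_num) hS0)).trans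
      (hA κ hκ).2
  have k2 : P2 ρ S (A4d κ e) (A4d κ e) ≤ C * (κ:ℝ) ^ (-(5/4) : ℝ) :=
    (E2a.dual_transport hρ hS).trans (((P2_le_Pr hρ' _ _).trans
      (pr_A4e (q := 1/2) (by norm_num) (by norm_num) (E2a.sub_dual e κ))).trans (hA κ hκ).2)
  have k3 := E2a.P2_or hρ (fun F => A4e κ e (↑F : Set Edg)) (A4d κ e)
  refine k3.trans ?_
  linarith

end H389NS
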