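import Pool.Agent.H389R2.NS.D0
import Pool.Agent.H985R3.TA.Defs4

set_option autoImplicit false

namespace H389NS.E2x

/-- the exponent bound -/
theorem key_real (c1 c3 : ℝ) (h1 : 0 < c1) (h3 : 0 < c3) : ∃ c D : ℝ, 0 < c ∧ 0 < D ∧ 2 * c ≤ 1 / 4 ∧
    ∀ (R κ d : ℕ) (g x C3 : ℝ), 64 ≤ R → κ = R / 8 → 1 ≤ d → d ≤ κ → 0 ≤ g → 0 < C3 → g ≤ C3 →
      (x ≤ 1 - (d:ℝ) ^ (-(7/25) : ℝ) → g ≤ C3 * (d:ℝ) ^ (-c3)) →
      x ≤ 1 - (R:ℝ) ^ (-(5/19) : ℝ) →
      ((d:ℝ) / κ) ^ (1 + c1) * (g / (d:ℝ) ^ 2) ≤ D * C3 * (R:ℝ) ^ (-(2 * c)) / (R * d) := by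
  refine ⟨min (min (c3 / 4) (4 * c1 / 133)) (1 / 8), 9 * 9 ^ c1, ?_, by positivity, ?_, ?_⟩
  · refine lt_min (lt_min (by positivity) (by positivity)) (by norm_num)
  · have := min_le_right (min (c3 / 4) (4 * c1 / 133)) (1 / 8 : ℝ)
    linarith
  intro R κ d g x C3 hR hκ hd hdκ hg hC3 hgC hgc hx
  set c := min (min (c3 / 4) (4 * c1 / 133)) (1 / 8 : ℝ) with hc
  have hca : 2 * c ≤ c3 / 2 := by
    have := (min_le_left (min (c3 / 4) (4 * c1 / 133)) (1 / 8 : ℝ)).trans (min_le_left _ _)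
    linarith
  have hcb : 2 * c ≤ 8 * c1 / 133 := by
    have := (min_le_left (min (c3 / 4) (4 * c1 / 133)) (1 / 8 : ℝ)).trans (min_le_right _ _)
    linarith
  have hR1 : (1:ℝ) ≤ R := by exact_mod_cast (by omega : 1 ≤ R)
  have hR0 : (0:ℝ) < R := by linarith
  have hd1 : (1:ℝ) ≤ d := by exact_mod_cast hd
  have hd0 : (0:ℝ) < d := by linarith
  have hκ1 : 1 ≤ κ := by omega
  have hκ0 : (0:ℝ) < κ := by exact_mod_cast hκ1
  have hdκ' : (d:ℝ) ≤ κ := by exact_mod_cast hdκ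
  have hRκ : (R:ℝ) ≤ 9 * κ := by exact_mod_cast (by omega : R ≤ 9 * κ)
  have hdk : (d:ℝ) / κ ≤ 1 := by rw [div_le_one hκ0]; exact hdκ'
  have hdk0 : 0 < (d:ℝ) / κ := div_pos hd0 hκ0
  -- the main claim
  have claim : ((d:ℝ) / κ) ^ c1 * g ≤ 9 ^ c1 * C3 * (R:ℝ) ^ (-(2 * c)) := by
    by_cases hA : (d:ℝ) ^ (-(7/25) : ℝ) ≤ (R:ℝ) ^ (-(5/19) : ℝ)
    · have hg2 := hgc (by linarith)
      have e1 : (d:ℝ) ^ (-c3) ≤ (R:ℝ) ^ (-(2 * c)) := by
        have e2 : (d:ℝ) ^ (-c3) = ((d:ℝ) ^ (-(7/25) : ℝ)) ^ (c3 * (25 / 7)) := by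
          rw [← Real.rpow_mul hd0.le]
          congr 1
          ring
        have e3 : ((R:ℝ) ^ (-(5/19) : ℝ)) ^ (c3 * (25 / 7)) = (R:ℝ) ^ (-(c3 * (125 / 133))) := by
          rw [← Real.rpow_mul hR0.le]
          congr 1
          ring
        rw [e2]
        refine (Real.rpow_le_rpow (by positivity) hA (by positivity)).trans ?_
        rw [e3]
        apply Real.rpow_le_rpow_of_exponent_le hR1
        linarith
      have e4 : ((d:ℝ) / κ) ^ c1 ≤ 1 := Real.rpow_le_one hdk0.le hdk h1.le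
      have e5 : (1:ℝ) ≤ 9 ^ c1 := Real.one_le_rpow (by norm_num) h1.le
      calc ((d:ℝ) / κ) ^ c1 * g ≤ 1 * (C3 * (d:ℝ) ^ (-c3)) :=
            mul_le_mul e4 hg2 hg zero_le_one
        _ ≤ 9 ^ c1 * (C3 * (R:ℝ) ^ (-(2 * c))) :=
            mul_le_mul e5 (mul_le_mul_of_nonneg_left e1 hC3.le) (by positivity) (by positivity)
        _ = _ := by ring
    · push Not at hA
      have e1 : (d:ℝ) ≤ (R:ℝ) ^ (125 / 133 : ℝ) := by
        by_contra hcon
        push Not at hcon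
        have e2 : (d:ℝ) ^ (-(7/25) : ℝ) ≤ ((R:ℝ) ^ (125 / 133 : ℝ)) ^ (-(7/25) : ℝ) :=
          Real.rpow_le_rpow_of_nonpos (by positivity) hcon.le (by norm_num)
        rw [← Real.rpow_mul hR0.le] at e2
        have e3 : (125 / 133 : ℝ) * (-(7/25)) = -(5/19) := by norm_num
        rw [e3] at e2
        linarith
      have e2 : (d:ℝ) / κ ≤ 9 * (R:ℝ) ^ (-(8 / 133) : ℝ) := by
        rw [div_le_iff₀ hκ0]
        have e3 : (R:ℝ) ^ (125 / 133 : ℝ) = (R:ℝ) ^ (-(8 / 133) : ℝ) * R := by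
          have : (R:ℝ) ^ (-(8 / 133) : ℝ) * R = (R:ℝ) ^ (-(8 / 133) : ℝ) * (R:ℝ) ^ (1:ℝ) := by
            rw [Real.rpow_one]
          rw [this, ← Real.rpow_add hR0]
          norm_num
        rw [e3] at e1
        have e4 : 0 < (R:ℝ) ^ (-(8 / 133) : ℝ) := by positivity
        nlinarith
      have e3 : ((d:ℝ) / κ) ^ c1 ≤ 9 ^ c1 * (R:ℝ) ^ (-(2 * c)) := by
        refine (Real.rpow_le_rpow hdk0.le e2 h1.le).trans ?_
        rw [Real.mul_rpow (by norm_num) (by positivity), ← Real.rpow_mul hR0.le]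
        apply mul_le_mul_of_nonneg_left _ (by positivity)
        apply Real.rpow_le_rpow_of_exponent_le hR1
        linarith
      calc ((d:ℝ) / κ) ^ c1 * g ≤ (9 ^ c1 * (R:ℝ) ^ (-(2 * c))) * C3 :=
            mul_le_mul e3 hgC hg (by positivity)
        _ = _ := by ring
  have e1 : ((d:ℝ) / κ) ^ (1 + c1) * (g / (d:ℝ) ^ 2) =
      (((d:ℝ) / κ) ^ c1 * g) * (1 / (κ * d)) := by
    rw [Real.rpow_add hdk0, Real.rpow_one]
    field_simp
  rw [e1]
  have e2 : 1 / ((κ:ℝ) * d) ≤ 9 / (R * d) := by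
    rw [div_le_div_iff₀ (by positivity) (by positivity)]
    nlinarith
  calc (((d:ℝ) / κ) ^ c1 * g) * (1 / (κ * d)) ≤
      (9 ^ c1 * C3 * (R:ℝ) ^ (-(2 * c))) * (9 / (R * d)) :=
        mul_le_mul claim e2 (by positivity) (by positivity)
    _ = _ := by ring

/-- summing over the layers -/
theorem sum_layers (R : ℕ) (hR : 64 ≤ R) (c : ℝ) (hc : 0 < c) :
    ∑ s ∈ Finset.range (R + 1), (1:ℝ) / (s + 1) ≤ (3 + 3 / c) * (R:ℝ) ^ c := by
  have h := harmonic_le_one_add_log (R + 1)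
  have e : ((harmonic (R + 1) : ℚ) : ℝ) = ∑ s ∈ Finset.range (R + 1), (1:ℝ) / (s + 1) := by
    unfold harmonic
    push_cast
    simp
  rw [e] at h
  have hR1 : (1:ℝ) ≤ R := by exact_mod_cast (by omega : 1 ≤ R)
  have h2 : Real.log ((R + 1 : ℕ) : ℝ) ≤ 1 + Real.log R := by
    have h3 : ((R + 1 : ℕ) : ℝ) ≤ 2 * R := by
      push_cast
      linarith
    have h4 := Real.log_le_log (by positivity) h3
    rw [Real.log_mul (by norm_num) (by positivity)] at h4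
    have h5 : Real.log 2 ≤ 1 := by
      have := Real.log_two_lt_d9
      linarith
    linarith
  have h3 : Real.log R ≤ (R:ℝ) ^ c / c := Real.log_le_rpow_div (by positivity) hc
  have h4 : (1:ℝ) ≤ (R:ℝ) ^ c := Real.one_le_rpow hR1 hc.le
  have h5 : (R:ℝ) ^ c / c ≤ 3 / c * (R:ℝ) ^ c := by
    rw [div_mul_eq_mul_div]
    apply div_le_div_of_nonneg_right _ hc.le
    linarith
  nlinarith

open H974 H12S H985T Finset

/-- sup norm of the base vertex -/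
def mm (e : Edg) : ℕ := max e.1.natAbs e.2.1.natAbs

/-- depth in the annulus -/
def tt (R : ℕ) (e : Edg) : ℕ := min (mm e - R) (2 * R - mm e)

theorem mem_An {a N : ℕ} {e : Edg} : e ∈ An a N ↔ e ∈ boxE N ∧ e ∉ boxE a := by
  unfold An
  rw [Finset.mem_sdiff]

theorem mm_bounds {R : ℕ} {e : Edg} (he : e ∈ An R (2 * R)) : R ≤ mm e ∧ mm e ≤ 2 * R := by
  rw [mem_An] at he
  obtain ⟨h1, h2⟩ := he
  obtain ⟨x, y, _ | _⟩ := e
  · unfold boxE at h1 h2
    rw [mem_RE_false] at h1 h2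
    unfold mm
    simp only
    push_cast at h1 h2
    omega
  · unfold boxE at h1 h2
    rw [mem_RE_true] at h1 h2
    unfold mm
    simp only
    push_cast at h1 h2
    omega

theorem tt_le {R : ℕ} {e : Edg} (he : e ∈ An R (2 * R)) : tt R e ≤ R := by
  have := mm_bounds he
  unfold tt
  omega

theorem good {a' R N' d : ℕ} (ha : a' ≤ R) (hN : 2 * R ≤ N') {e : Edg} (he : e ∈ An R (2 * R))
    (hd : d + 3 ≤ tt R e) : ∀ e' ∈ ebx e (d + 2), e' ∈ An a' N' := by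
  intro e' he'
  have hb := mm_bounds he
  unfold tt mm at hd
  unfold mm at hb
  rw [mem_An]
  unfold ebx at he'
  unfold boxE
  obtain ⟨x, y, b⟩ := e
  obtain ⟨x', y', _ | _⟩ := e'
  · rw [mem_RE_false] at he' ⊢
    rw [mem_RE_false]
    simp only at he' hb hd
    push_cast at he'
    omega
  · rw [mem_RE_true] at he' ⊢
    rw [mem_RE_true]
    simp only at he' hb hd
    push_cast at he'
    omega

theorem layer_card {R : ℕ} (hR : 64 ≤ R) (s : ℕ) :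
    ((An R (2 * R)).filter (fun e => tt R e = s)).card ≤ 65 * R := by
  classical
  set T : Finset ℤ := {((R + s : ℕ) : ℤ), -((R + s : ℕ) : ℤ), ((2 * R - s : ℕ) : ℤ),
    -((2 * R - s : ℕ) : ℤ)} with hT
  set I : Finset ℤ := Finset.Icc (-((2 * R : ℕ) : ℤ)) ((2 * R : ℕ) : ℤ) with hI
  set A : Finset Edg := T ×ˢ (I ×ˢ (Finset.univ : Finset Bool)) with hA
  set B : Finset Edg := I ×ˢ (T ×ˢ (Finset.univ : Finset Bool)) with hB
  have hsub : (An R (2 * R)).filter (fun e => tt R e = s) ⊆ A ∪ B := by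
    intro e he
    rw [Finset.mem_filter] at he
    obtain ⟨he1, he2⟩ := he
    have hb := mm_bounds he1
    unfold tt mm at he2
    unfold mm at hb
    obtain ⟨x, y, b⟩ := e
    simp only at he2 hb
    rw [Finset.mem_union, hA, hB, Finset.mem_product, Finset.mem_product, Finset.mem_product,
      Finset.mem_product]
    simp only [Finset.mem_univ, and_true, hT, hI, Finset.mem_Icc, Finset.mem_insert,
      Finset.mem_singleton]
    omega
  have hTc : T.card ≤ 4 := Finset.card_le_four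
  have hIc : I.card = 4 * R + 1 := by
    rw [hI, Int.card_Icc]
    push_cast
    omega
  have hAc : A.card ≤ 4 * ((4 * R + 1) * 2) := by
    rw [hA, Finset.card_product, Finset.card_product, hIc, Finset.card_univ, Fintype.card_bool]
    exact Nat.mul_le_mul_right _ hTc
  have hBc : B.card ≤ (4 * R + 1) * (4 * 2) := by
    rw [hB, Finset.card_product, Finset.card_product, hIc, Finset.card_univ, Fintype.card_bool]
    exact Nat.mul_le_mul_left _ (Nat.mul_le_mul_right _ hTc)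
  have h1 := (Finset.card_le_card hsub).trans (Finset.card_union_le A B)
  omega

/-- summing a bound by the depth -/
theorem sum_depth {R : ℕ} (hR : 64 ≤ R) (f : Edg → ℝ) (K c : ℝ) (hK : 0 ≤ K) (hc : 0 < c)
    (hf : ∀ e ∈ An R (2 * R), f e ≤ K / ((tt R e : ℝ) + 1)) :
    ∑ e ∈ An R (2 * R), f e ≤ K * (65 * R) * ((3 + 3 / c) * (R:ℝ) ^ c) := by
  classical
  calc ∑ e ∈ An R (2 * R), f e ≤ ∑ e ∈ An R (2 * R), K / ((tt R e : ℝ) + 1) :=
        Finset.sum_le_sum hf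
    _ = ∑ s ∈ Finset.range (R + 1), ∑ e ∈ (An R (2 * R)).filter (fun e => tt R e = s),
          K / ((tt R e : ℝ) + 1) := by
        symm
        apply Finset.sum_fiberwise_of_maps_to
        intro e he
        rw [Finset.mem_range]
        have := tt_le he
        omega
    _ ≤ ∑ s ∈ Finset.range (R + 1), K * (65 * R) * (1 / ((s:ℝ) + 1)) := by
        apply Finset.sum_le_sum
        intro s _
        have h1 : ∑ e ∈ (An R (2 * R)).filter (fun e => tt R e = s), K / ((tt R e : ℝ) + 1) =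
            (((An R (2 * R)).filter (fun e => tt R e = s)).card : ℝ) * (K / ((s:ℝ) + 1)) := by
          rw [← nsmul_eq_mul, ← Finset.sum_const]
          apply Finset.sum_congr rfl
          intro e he
          rw [Finset.mem_filter] at he
          rw [he.2]
        rw [h1]
        have h2 : (((An R (2 * R)).filter (fun e => tt R e = s)).card : ℝ) ≤ 65 * R := by
          exact_mod_cast layer_card hR s
        have h3 : 0 ≤ K / ((s:ℝ) + 1) := by positivity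
        calc _ ≤ (65 * R) * (K / ((s:ℝ) + 1)) := mul_le_mul_of_nonneg_right h2 h3
          _ = _ := by ring
    _ = K * (65 * R) * ∑ s ∈ Finset.range (R + 1), 1 / ((s:ℝ) + 1) := by
        rw [Finset.mul_sum]
    _ ≤ _ := mul_le_mul_of_nonneg_left (sum_layers R hR c hc) (by positivity)

theorem triv_real (C c : ℝ) (hC : 0 < C) (hc : 2 * c ≤ 1 / 4) (R κ t : ℕ) (hR : 64 ≤ R)
    (hκ : κ = R / 8) (ht : t ≤ 3) :
    C * (κ:ℝ) ^ (-(5/4) : ℝ) ≤ (4 * 9 ^ (5/4 : ℝ) * C * (R:ℝ) ^ (-(2 * c)) / R) / ((t:ℝ) + 1) := by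
  have hR1 : (1:ℝ) ≤ R := by exact_mod_cast (by omega : 1 ≤ R)
  have hR0 : (0:ℝ) < R := by linarith
  have hκ0 : (0:ℝ) < κ := by exact_mod_cast (by omega : 0 < κ)
  have hRκ : (R:ℝ) ≤ 9 * κ := by exact_mod_cast (by omega : R ≤ 9 * κ)
  have e1 : (κ:ℝ) ^ (-(5/4) : ℝ) ≤ (R / 9 : ℝ) ^ (-(5/4) : ℝ) :=
    Real.rpow_le_rpow_of_nonpos (by positivity) (by linarith) (by norm_num)
  have e2 : (R / 9 : ℝ) ^ (-(5/4) : ℝ) = 9 ^ (5/4 : ℝ) * (R:ℝ) ^ (-(5/4) : ℝ) := by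
    rw [Real.div_rpow hR0.le (by norm_num), Real.rpow_neg (by norm_num : (0:ℝ) ≤ 9),
      div_inv_eq_mul]
    ring
  have e3 : (R:ℝ) ^ (-(5/4) : ℝ) ≤ (R:ℝ) ^ (-(2 * c)) / R := by
    have e4 : (R:ℝ) ^ (-(2 * c)) / R = (R:ℝ) ^ (-(2 * c) - 1) := by
      rw [Real.rpow_sub hR0, Real.rpow_one]
    rw [e4]
    apply Real.rpow_le_rpow_of_exponent_le hR1
    linarith
  have ht' : (t:ℝ) + 1 ≤ 4 := by
    have : (t:ℝ) ≤ 3 := by exact_mod_cast ht
    linarith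
  have ht0 : (0:ℝ) < (t:ℝ) + 1 := by positivity
  rw [le_div_iff₀ ht0]
  have h5 : C * (κ:ℝ) ^ (-(5/4) : ℝ) ≤ C * (9 ^ (5/4 : ℝ) * ((R:ℝ) ^ (-(2 * c)) / R)) := by
    apply mul_le_mul_of_nonneg_left _ hC.le
    rw [e2] at e1
    exact e1.trans (mul_le_mul_of_nonneg_left e3 (by positivity))
  calc C * (κ:ℝ) ^ (-(5/4) : ℝ) * ((t:ℝ) + 1) ≤
      (C * (9 ^ (5/4 : ℝ) * ((R:ℝ) ^ (-(2 * c)) / R))) * 4 :=
        mul_le_mul h5 ht' ht0.le (by positivity)
    _ = _ := by ring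

/-- the sum over an annulus, from the three inputs -/
theorem ann_sum_of
    (h_out : ∃ C c : ℝ, 0 < C ∧ 0 < c ∧ ∀ (ρ : Edg → ℝ) (S : Finset Edg) (e : Edg)
      (d κ : ℕ) (y : ℝ), (∀ e' ∈ S, 0 ≤ ρ e' ∧ ρ e' ≤ 1) → 0 ≤ y → y ≤ 1 → ebx e (κ + 2) ⊆ S →
      1 ≤ d → d ≤ κ → (∀ e' ∈ ebx e (d + 2), ρ e' = y) →
      P2 ρ S (fun F => A4e κ e ↑F ∨ A4d κ e F) (fun F => A4e κ e ↑F ∨ A4d κ e F) ≤
        C * a42 y d * ((d:ℝ) / κ) ^ (1 + c))
    (h_triv : ∃ C : ℝ, 0 < C ∧ ∀ (ρ : Edg → ℝ) (S : Finset Edg) (e : Edg)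
      (κ : ℕ), (∀ e' ∈ S, 0 ≤ ρ e' ∧ ρ e' ≤ 1) → ebx e (κ + 2) ⊆ S → 1 ≤ κ →
      P2 ρ S (fun F => A4e κ e ↑F ∨ A4d κ e F) (fun F => A4e κ e ↑F ∨ A4d κ e F) ≤
        C * (κ:ℝ) ^ (-(5/4) : ℝ))
    (h_bd : ∃ C c : ℝ, 0 < C ∧ 0 < c ∧ ∀ k : ℕ, 1 ≤ k → ∀ x : ℝ, 0 ≤ x → x ≤ 1 →
      (k:ℝ) ^ 2 * (∫ y in (0:ℝ)..x, a42 y k) ≤ C ∧
      (x ≤ 1 - (k:ℝ) ^ (-(7/25) : ℝ) →
        (k:ℝ) ^ 2 * (∫ y in (0:ℝ)..x, a42 y k) ≤ C * (k:ℝ) ^ (-c))) :
    ∃ C c : ℝ, 0 < C ∧ 0 < c ∧ ∀ (a' R N' : ℕ) (S : Finset Edg), 64 ≤ R →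
    a' ≤ R → 2 * R ≤ N' → (∀ e ∈ An R (2 * R), ebx e (R / 8 + 2) ⊆ S) →
    ∀ x : ℝ, 0 ≤ x → x ≤ 1 - (R:ℝ) ^ (-(5/19) : ℝ) →
      ∑ e ∈ An R (2 * R), (∫ y in (0:ℝ)..x,
        P2 (fun e' => if e' ∈ An a' N' then y else 1) S
          (fun F => A4e (R / 8) e ↑F ∨ A4d (R / 8) e F)
          (fun F => A4e (R / 8) e ↑F ∨ A4d (R / 8) e F)) ≤ C * (R:ℝ) ^ (-c) := by
  obtain ⟨C1, c1, hC1, hc1, H1⟩ := h_out
  obtain ⟨C2, hC2, H2⟩ := h_triv
  obtain ⟨C3, c3, hC3, hc3, H3⟩ := h_bd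
  obtain ⟨c, D, hc, hD, hc8, HR⟩ := key_real c1 c3 hc1 hc3
  set K0 : ℝ := 9 * C1 * D * C3 + 4 * 9 ^ (5/4 : ℝ) * C2 with hK0
  have hK00 : 0 < K0 := by positivity
  refine ⟨K0 * 65 * (3 + 3 / c), c, by positivity, hc, ?_⟩
  intro a' R N' S hR ha hN hS x hx0 hx
  have hR1 : (1:ℝ) ≤ R := by exact_mod_cast (by omega : 1 ≤ R)
  have hR0 : (0:ℝ) < R := by linarith
  have hx1 : x ≤ 1 := by
    have : 0 < (R:ℝ) ^ (-(5/19) : ℝ) := by positivity
    linarith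
  obtain ⟨κ, hκ⟩ : ∃ κ, κ = R / 8 := ⟨_, rfl⟩
  have hκ1 : 1 ≤ κ := by omega
  have hprof : ∀ y : ℝ, 0 ≤ y → y ≤ 1 → ∀ e' ∈ S,
      0 ≤ (fun e' : Edg => if e' ∈ An a' N' then y else 1) e' ∧
      (fun e' : Edg => if e' ∈ An a' N' then y else 1) e' ≤ 1 := by
    intro y h0 h1 e' _
    simp only
    split_ifs
    · exact ⟨h0, h1⟩
    · exact ⟨zero_le_one, le_rfl⟩
  have hcont : ∀ e : Edg, Continuous fun y : ℝ =>
      P2 (fun e' => if e' ∈ An a' N' then y else 1) S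
          (fun F => A4e κ e ↑F ∨ A4d κ e F) (fun F => A4e κ e ↑F ∨ A4d κ e F) := by
    intro e
    apply P2_cont (fun (y : ℝ) (e' : Edg) => if e' ∈ An a' N' then y else 1)
    intro e'
    by_cases h : e' ∈ An a' N'
    · simp only [if_pos h]
      exact continuous_id
    · simp only [if_neg h]
      exact continuous_const
  rw [← hκ]
  have main : ∀ e ∈ An R (2 * R), (∫ y in (0:ℝ)..x,
        P2 (fun e' => if e' ∈ An a' N' then y else 1) S
          (fun F => A4e κ e ↑F ∨ A4d κ e F)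
          (fun F => A4e κ e ↑F ∨ A4d κ e F)) ≤
      (K0 * (R:ℝ) ^ (-(2 * c)) / R) / ((tt R e : ℝ) + 1) := by
    intro e he
    have hSe : ebx e (κ + 2) ⊆ S := by
      rw [hκ]
      exact hS e he
    have ht0 : (0:ℝ) < (tt R e : ℝ) + 1 := by positivity
    by_cases ht : tt R e ≤ 3
    · have h1 : (∫ y in (0:ℝ)..x,
        P2 (fun e' => if e' ∈ An a' N' then y else 1) S
          (fun F => A4e κ e ↑F ∨ A4d κ e F)
          (fun F => A4e κ e ↑F ∨ A4d κ e F)) ≤ ∫ _ in (0:ℝ)..x, C2 * (κ:ℝ) ^ (-(5/4) : ℝ) := by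
        apply intervalIntegral.integral_mono_on hx0 ((hcont e).intervalIntegrable _ _)
          (continuous_const.intervalIntegrable _ _)
        intro y hy
        exact H2 _ S e κ (hprof y hy.1 (hy.2.trans hx1)) hSe hκ1
      have h2 : (∫ _ in (0:ℝ)..x, C2 * (κ:ℝ) ^ (-(5/4) : ℝ)) ≤ C2 * (κ:ℝ) ^ (-(5/4) : ℝ) := by
        rw [intervalIntegral.integral_const, sub_zero, smul_eq_mul]
        have : 0 ≤ C2 * (κ:ℝ) ^ (-(5/4) : ℝ) := by positivity
        exact mul_le_of_le_one_left this hx1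
      have h3 := triv_real C2 c hC2 hc8 R κ (tt R e) hR hκ ht
      refine (h1.trans h2).trans (h3.trans ?_)
      apply div_le_div_of_nonneg_right _ ht0.le
      apply div_le_div_of_nonneg_right _ hR0.le
      apply mul_le_mul_of_nonneg_right _ (by positivity)
      rw [hK0]
      have : 0 < 9 * C1 * D * C3 := by positivity
      linarith
    · obtain ⟨d, hd⟩ : ∃ d, d = min (tt R e - 3) κ := ⟨_, rfl⟩
      have hd1 : 1 ≤ d := by omega
      have hdκ : d ≤ κ := by omega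
      have hg := good (d := d) ha hN he (by omega)
      have hc2 : Continuous (fun y : ℝ => (C1 * ((d:ℝ) / κ) ^ (1 + c1)) * a42 y d) :=
        continuous_const.mul (a42_cont d)
      have h1 : (∫ y in (0:ℝ)..x,
        P2 (fun e' => if e' ∈ An a' N' then y else 1) S
          (fun F => A4e κ e ↑F ∨ A4d κ e F)
          (fun F => A4e κ e ↑F ∨ A4d κ e F)) ≤
          ∫ y in (0:ℝ)..x, (C1 * ((d:ℝ) / κ) ^ (1 + c1)) * a42 y d := by
        apply intervalIntegral.integral_mono_on hx0 ((hcont e).intervalIntegrable _ _)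
          (hc2.intervalIntegrable _ _)
        intro y hy
        have h2 := H1 (fun e' => if e' ∈ An a' N' then y else 1) S e d κ y
          (hprof y hy.1 (hy.2.trans hx1)) hy.1 (hy.2.trans hx1) hSe hd1 hdκ
          (fun e' he' => by simp only [if_pos (hg e' he')])
        refine h2.trans (le_of_eq ?_)
        ring
      rw [intervalIntegral.integral_const_mul] at h1
      have hI0 : 0 ≤ ∫ y in (0:ℝ)..x, a42 y d :=
        intervalIntegral.integral_nonneg hx0 (fun y hy => a42_nonneg hy.1 (hy.2.trans hx1) d)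
      obtain ⟨b1, b2⟩ := H3 d hd1 x hx0 hx1
      have hd0 : (0:ℝ) < d := by exact_mod_cast hd1
      have h2 := HR R κ d ((d:ℝ) ^ 2 * (∫ y in (0:ℝ)..x, a42 y d)) x C3 hR hκ hd1 hdκ
        (by positivity) hC3 b1 b2 hx
      have e1 : (d:ℝ) ^ 2 * (∫ y in (0:ℝ)..x, a42 y d) / (d:ℝ) ^ 2 =
          ∫ y in (0:ℝ)..x, a42 y d := by
        field_simp
      rw [e1] at h2
      have h3 : (1:ℝ) / d ≤ 9 / ((tt R e : ℝ) + 1) := by
        rw [div_le_div_iff₀ hd0 ht0, one_mul]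
        have := mm_bounds he
        have h4 : tt R e + 1 ≤ 9 * d := by
          unfold tt at hd ht ⊢
          omega
        exact_mod_cast h4
      calc _ ≤ C1 * ((d:ℝ) / κ) ^ (1 + c1) * ∫ y in (0:ℝ)..x, a42 y d := h1
        _ = C1 * (((d:ℝ) / κ) ^ (1 + c1) * ∫ y in (0:ℝ)..x, a42 y d) := by ring
        _ ≤ C1 * (D * C3 * (R:ℝ) ^ (-(2 * c)) / (R * d)) := mul_le_mul_of_nonneg_left h2 hC1.le
        _ = (C1 * D * C3 * (R:ℝ) ^ (-(2 * c)) / R) * (1 / d) := by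
            field_simp
        _ ≤ (C1 * D * C3 * (R:ℝ) ^ (-(2 * c)) / R) * (9 / ((tt R e : ℝ) + 1)) :=
            mul_le_mul_of_nonneg_left h3 (by positivity)
        _ = (9 * C1 * D * C3 * (R:ℝ) ^ (-(2 * c)) / R) / ((tt R e : ℝ) + 1) := by
            field_simp
        _ ≤ _ := by
            apply div_le_div_of_nonneg_right _ ht0.le
            apply div_le_div_of_nonneg_right _ hR0.le
            apply mul_le_mul_of_nonneg_right _ (by positivity)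
            rw [hK0]
            have : 0 < 4 * 9 ^ (5/4 : ℝ) * C2 := by positivity
            linarith
  have hsum := sum_depth hR _ (K0 * (R:ℝ) ^ (-(2 * c)) / R) c (by positivity) hc main
  refine hsum.trans (le_of_eq ?_)
  have e5 : (R:ℝ) ^ (-c) = (R:ℝ) ^ (-(2 * c)) * (R:ℝ) ^ c := by
    rw [← Real.rpow_add hR0]
    congr 1
    ring
  rw [e5]
  field_simp

end H389NS.E2x
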