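import Pool.Agent.H389R2.NS.E1
import Pool.Agent.H389R2.NS.E2a
import Pool.Agent.H389R2.NS.D4
import Pool.Agent.H389R2.NS.E2xT

/-! Two-layer four-arm events with a correlation profile. -/

set_option autoImplicit false

namespace H389NS

open H974 H12S H985T Finset

/-- E2: correlation `y` in the box of radius `d+2` around `e`, arbitrary elsewhere. -/
theorem P2_A4_outer : ∃ C c : ℝ, 0 < C ∧ 0 < c ∧ ∀ (ρ : Edg → ℝ) (S : Finset Edg) (e : Edg)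
    (d κ : ℕ) (y : ℝ), (∀ e' ∈ S, 0 ≤ ρ e' ∧ ρ e' ≤ 1) → 0 ≤ y → y ≤ 1 → ebx e (κ + 2) ⊆ S →
      1 ≤ d → d ≤ κ → (∀ e' ∈ ebx e (d + 2), ρ e' = y) →
      P2 ρ S (fun F => A4e κ e ↑F ∨ A4d κ e F) (fun F => A4e κ e ↑F ∨ A4d κ e F) ≤
        C * a42 y d * ((d:ℝ) / κ) ^ (1 + c) := P2_A4_outer1

/-- E2': no information on the correlations. -/
theorem P2_A4_triv : ∃ C : ℝ, 0 < C ∧ ∀ (ρ : Edg → ℝ) (S : Finset Edg) (e : Edg)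
    (κ : ℕ), (∀ e' ∈ S, 0 ≤ ρ e' ∧ ρ e' ≤ 1) → ebx e (κ + 2) ⊆ S → 1 ≤ κ →
      P2 ρ S (fun F => A4e κ e ↑F ∨ A4d κ e F) (fun F => A4e κ e ↑F ∨ A4d κ e F) ≤
        C * (κ:ℝ) ^ (-(5/4) : ℝ) := P2_A4_triv1

/-- E3: sum over an annulus inside (or at the boundary of) the zone `An a' N'` where the
correlation is `y`; it is `1` elsewhere. -/
theorem ann_sum : ∃ C c : ℝ, 0 < C ∧ 0 < c ∧ ∀ (a' R N' : ℕ) (S : Finset Edg), 64 ≤ R →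
    a' ≤ R → 2 * R ≤ N' → (∀ e ∈ An R (2 * R), ebx e (R / 8 + 2) ⊆ S) →
    ∀ x : ℝ, 0 ≤ x → x ≤ 1 - (R:ℝ) ^ (-(5/19) : ℝ) →
      ∑ e ∈ An R (2 * R), (∫ y in (0:ℝ)..x,
        P2 (fun e' => if e' ∈ An a' N' then y else 1) S
          (fun F => A4e (R / 8) e ↑F ∨ A4d (R / 8) e F)
          (fun F => A4e (R / 8) e ↑F ∨ A4d (R / 8) e F)) ≤ C * (R:ℝ) ^ (-c) :=
  E2x.ann_sum_of P2_A4_outer P2_A4_triv a42_bound

end H389NS
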