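import Pool.Agent.H389R2.NS.E1
import Pool.Agent.H389R2.NS.D0
import Pool.Agent.H389R2.NS.S4
import Pool.Agent.H988R6.Up

/-! E2a: two-layer four-arm events with a correlation profile (helper950). -/

set_option autoImplicit false

namespace H389NS

open H974 H12S H985T Finset

theorem E2a_or {ρ : Edg → ℝ} {S : Finset Edg} (hρ : ∀ e ∈ S, 0 ≤ ρ e ∧ ρ e ≤ 1)
    (A B : Finset Edg → Prop) :
    P2 ρ S (fun F => A F ∨ B F) (fun F => A F ∨ B F) ≤ 2 * P2 ρ S A A + 2 * P2 ρ S B B := by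
  have h1 := P2_add_le hρ A B (fun F => A F ∨ B F)
  have h2 := P2_add_le hρ A B A
  have h3 := P2_add_le hρ A B B
  have h4 := P2_comm ρ S A (fun F => A F ∨ B F)
  have h5 := P2_comm ρ S B (fun F => A F ∨ B F)
  have h6 := P2_cs hρ A B
  have h7 := P2_comm ρ S A B
  rw [h4, h5] at h1
  linarith

theorem E2a_sub (e : Edg) (k : ℕ) : ebx (dl e) k ⊆ dmp (ebx e (k + 2)) := by
  unfold ebx
  rintro ⟨a, b, c⟩ h
  rw [mem_dmp]
  obtain ⟨x, y, d⟩ := e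
  cases c <;> cases d <;>
    simp only [dl_t, dl_f, dls_t, dls_f, mem_RE_true, mem_RE_false] at h ⊢ <;> push_cast <;> omega

theorem E2a_mono (e : Edg) {j k : ℕ} (h : j ≤ k) : ebx e j ⊆ ebx e k := by
  unfold ebx
  exact RE_subset (by omega) (by omega) (by omega) (by omega)

theorem E2a_prim {C c : ℝ} (HA : ∀ (c0 : ℤ × ℤ) (d k : ℕ), 1 ≤ d → d ≤ k →
    ∀ S : Finset Edg, blk c0 k ⊆ S →
      PQ (1/2) S (fun F => A4a c0 d k ↑F) ≤ C * ((d:ℝ) / k) ^ (1 + c))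
    {ρ : Edg → ℝ} {S : Finset Edg} (hρ : ∀ e ∈ S, 0 ≤ ρ e ∧ ρ e ≤ 1) {e : Edg} {d κ : ℕ}
    {y : ℝ} (hy0 : 0 ≤ y) (hy1 : y ≤ 1) (hS : ebx e κ ⊆ S) (hd : 1 ≤ d) (hdκ : d ≤ κ)
    (hy : ∀ e' ∈ ebx e d, ρ e' = y) :
    P2 ρ S (fun F => A4e κ e ↑F) (fun F => A4e κ e ↑F) ≤
      a42 y d * (C * ((d:ℝ) / κ) ^ (1 + c)) := by
  have hm : ∀ F : Finset Edg, F ⊆ S → A4e κ e (↑F : Set Edg) →
      A4e d e (↑F : Set Edg) ∧ A4a (e.1, e.2.1) d κ (↑F : Set Edg) :=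
    fun F _ h => A4e_split hd hdκ h
  refine (D0.P2_mono hρ hm hm).trans ?_
  have hA : ∀ F, F ⊆ S → (A4e d e (↑F : Set Edg) ↔ A4e d e (↑(F ∩ ebx e d) : Set Edg)) := by
    intro F _
    apply A4e_local
    rw [Finset.coe_inter, Set.inter_assoc, Set.inter_self]
  have hB : ∀ F, F ⊆ S → (A4a (e.1, e.2.1) d κ (↑F : Set Edg) ↔
      A4a (e.1, e.2.1) d κ
        (↑(F ∩ (blk (e.1, e.2.1) κ \ blk (e.1, e.2.1) d)) : Set Edg)) := by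
    intro F _
    unfold A4a
    rw [Finset.coe_inter, Set.inter_assoc, Set.inter_self]
  have hsub : blk (e.1, e.2.1) κ ⊆ S := hS
  rw [P2_indep (ρ := ρ) (U := S) (S := ebx e d)
    (T := blk (e.1, e.2.1) κ \ blk (e.1, e.2.1) d)
    (A := fun F => A4e d e (↑F : Set Edg)) (A' := fun F => A4e d e (↑F : Set Edg))
    (B := fun F => A4a (e.1, e.2.1) d κ (↑F : Set Edg))
    (B' := fun F => A4a (e.1, e.2.1) d κ (↑F : Set Edg))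
    ((E2a_mono e hdκ).trans hS) (Finset.sdiff_subset.trans hsub) Finset.disjoint_sdiff
    hA hA hB hB]
  refine mul_le_mul (P2_A4e hρ ((E2a_mono e hdκ).trans hS) hy)
    ((P2_le_Pr hρ _ _).trans (HA (e.1, e.2.1) d κ hd hdκ S hsub)) (D0.P2_nonneg hρ _ _)
    (a42_nonneg hy0 hy1 d)

theorem E2a_dual {ρ : Edg → ℝ} {S : Finset Edg} (hρ : ∀ e ∈ S, 0 ≤ ρ e ∧ ρ e ≤ 1) {κ : ℕ}
    {e : Edg} (hS : ebx e (κ + 2) ⊆ S) :
    P2 ρ S (A4d κ e) (A4d κ e) ≤ P2 (fun f => ρ (dl.symm f)) (dmp S)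
      (fun F => A4e κ (dl e) ↑F) (fun F => A4e κ (dl e) ↑F) := by
  have h1 := D0.P2_map dl.toEmbedding (fun f => ρ (dl.symm f)) S
    (fun F => A4e κ (dl e) (↑F : Set Edg)) (fun F => A4e κ (dl e) (↑F : Set Edg))
  have h2 := D0.P2_compl ρ S (A4d κ e) (A4d κ e)
  have h3 : (fun f => (fun f => ρ (dl.symm f)) (dl.toEmbedding f)) = ρ := by
    funext f
    change ρ (dl.symm (dl f)) = ρ f
    rw [Equiv.symm_apply_apply]
  rw [h3] at h1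
  unfold dmp
  rw [h1, h2]
  have hm : ∀ F : Finset Edg, F ⊆ S → A4d κ e (S \ F) →
      A4e κ (dl e) (↑(F.map dl.toEmbedding) : Set Edg) := by
    intro F _ h
    unfold A4d at h
    refine (A4e_local ?_).1 h
    ext x
    rw [Set.mem_inter_iff, Set.mem_inter_iff, Finset.mem_coe, Finset.mem_coe, Finset.mem_coe]
    refine and_congr_left fun hx => ?_
    have hx2 : dl.symm x ∈ ebx e (κ + 2) := mem_dmp.1 (E2a_sub e κ hx)
    have hx3 : dl.symm x ∈ S := hS hx2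
    change x ∈ dmp _ ↔ x ∈ dmp F
    rw [mem_dmp, mem_dmp, Finset.mem_sdiff, Finset.mem_sdiff]
    constructor
    · rintro ⟨_, h5⟩
      by_contra h6
      exact h5 ⟨hx3, h6⟩
    · intro h5
      exact ⟨hx2, fun h6 => h6.2 h5⟩
  exact D0.P2_mono hρ hm hm

theorem E2a_dok {ρ : Edg → ℝ} {S : Finset Edg} (hρ : ∀ e ∈ S, 0 ≤ ρ e ∧ ρ e ≤ 1) :
    ∀ f ∈ dmp S, 0 ≤ (fun f => ρ (dl.symm f)) f ∧ (fun f => ρ (dl.symm f)) f ≤ 1 :=
  fun _ hf => hρ _ (mem_dmp.1 hf)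

theorem E2a_dS {S : Finset Edg} {κ : ℕ} {e : Edg} (hS : ebx e (κ + 2) ⊆ S) :
    ebx (dl e) κ ⊆ dmp S :=
  fun f hf => mem_dmp.2 (hS (mem_dmp.1 (E2a_sub e κ hf)))

/-- E2: correlation `y` in the box of radius `d+2` around `e`, arbitrary elsewhere. -/
theorem P2_A4_outer1 : ∃ C c : ℝ, 0 < C ∧ 0 < c ∧ ∀ (ρ : Edg → ℝ) (S : Finset Edg) (e : Edg)
    (d κ : ℕ) (y : ℝ), (∀ e' ∈ S, 0 ≤ ρ e' ∧ ρ e' ≤ 1) → 0 ≤ y → y ≤ 1 → ebx e (κ + 2) ⊆ S →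
      1 ≤ d → d ≤ κ → (∀ e' ∈ ebx e (d + 2), ρ e' = y) →
      P2 ρ S (fun F => A4e κ e ↑F ∨ A4d κ e F) (fun F => A4e κ e ↑F ∨ A4d κ e F) ≤
        C * a42 y d * ((d:ℝ) / κ) ^ (1 + c) := by
  obtain ⟨C, c, hC, hc, HA⟩ := A4a_bound
  refine ⟨4 * C, c, by positivity, hc, fun ρ S e d κ y hρ hy0 hy1 hS hd hdκ hy => ?_⟩
  have p1 := E2a_prim HA hρ (e := e) (d := d) (κ := κ) hy0 hy1
    ((E2a_mono e (by omega)).trans hS) hd hdκ (fun e' he' => hy e' (E2a_mono e (by omega) he'))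
  have p2 := (E2a_dual hρ hS).trans (E2a_prim HA (E2a_dok hρ) (e := dl e) (d := d) (κ := κ)
    hy0 hy1 (E2a_dS hS) hd hdκ (fun e' he' => hy (dl.symm e') (mem_dmp.1 (E2a_sub e d he'))))
  refine (E2a_or hρ (fun F => A4e κ e (↑F : Set Edg)) (A4d κ e)).trans ?_
  linarith

/-- E2': no information on the correlations. -/
theorem P2_A4_triv1 : ∃ C : ℝ, 0 < C ∧ ∀ (ρ : Edg → ℝ) (S : Finset Edg) (e : Edg)
    (κ : ℕ), (∀ e' ∈ S, 0 ≤ ρ e' ∧ ρ e' ≤ 1) → ebx e (κ + 2) ⊆ S → 1 ≤ κ →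
      P2 ρ S (fun F => A4e κ e ↑F ∨ A4d κ e F) (fun F => A4e κ e ↑F ∨ A4d κ e F) ≤
        C * (κ:ℝ) ^ (-(5/4) : ℝ) := by
  obtain ⟨_, C, _, hC, H4⟩ := Pool.Agent.H988R6.a4_sharp
  refine ⟨4 * C, by positivity, fun ρ S e κ hρ hS hκ => ?_⟩
  have q1 : P2 ρ S (fun F => A4e κ e (↑F : Set Edg)) (fun F => A4e κ e (↑F : Set Edg)) ≤
      a4 (1/2) κ :=
    (P2_le_Pr hρ _ _).trans (pr_A4e (q := 1/2) (by norm_num) (by norm_num)
      ((E2a_mono e (by omega)).trans hS))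
  have q2 : P2 ρ S (A4d κ e) (A4d κ e) ≤ a4 (1/2) κ :=
    (E2a_dual hρ hS).trans ((P2_le_Pr (E2a_dok hρ) _ _).trans
      (pr_A4e (q := 1/2) (by norm_num) (by norm_num) (E2a_dS hS)))
  have h4 := (H4 κ hκ).2
  refine (E2a_or hρ (fun F => A4e κ e (↑F : Set Edg)) (A4d κ e)).trans ?_
  linarith

end H389NS
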