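import Pool.Agent.H389R2.NS.E4a
import Pool.Agent.H985R3.TA.STA

/-! E4b: the two-layer two-arm probability, by a continuity argument. -/

set_option autoImplicit false

namespace H389NS

open H974 H12S H985T Finset

namespace E4b

theorem q2_zero (a N : ℕ) : q2 0 a N = pAA a N ^ 2 := by
  unfold q2 pAA
  rw [P2_zero (subset_refl (An a N)) (fun _ _ => rfl) (by simp)]
  unfold UA UU
  rw [Finset.sdiff_self, Ex_empty]
  simp only [Finset.empty_union]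
  rfl

theorem q2_cont (a N : ℕ) : Continuous fun y => q2 y a N := by
  unfold q2
  exact P2_cont (fun y _ => y) (fun _ => continuous_id) _ _ _

theorem q2_far_of
    (hup : ∃ C : ℝ, 0 < C ∧ ∀ a N : ℕ, 1 ≤ a → a ≤ N → pAA a N ≤ C * ((a:ℝ) / N) ^ (1/4 : ℝ))
    (hstep : ∃ (C1 C c : ℝ) (K1 : ℕ), 1 ≤ C1 ∧ 0 < C ∧ 0 < c ∧ 64 ≤ K1 ∧
    ∀ (k R : ℕ) (y M : ℝ), K1 ≤ k → 0 ≤ y → y ≤ 1 - (k:ℝ) ^ (-(5/19) : ℝ) → 1 ≤ M →
      (∀ k' N' : ℕ, k ≤ k' → k' ≤ N' → N' ≤ R → q2 y k' N' ≤ M * ((k':ℝ) / N') ^ (1/2 : ℝ)) →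
      ∀ k' N' : ℕ, k ≤ k' → k' ≤ N' → N' ≤ R →
        q2 y k' N' ≤ (C1 + C * (k:ℝ) ^ (-c) * M ^ 2) * ((k':ℝ) / N') ^ (1/2 : ℝ)) :
    ∃ (C1 : ℝ) (K1 : ℕ), 1 ≤ C1 ∧ 1 ≤ K1 ∧ ∀ (k R : ℕ) (y : ℝ), K1 ≤ k → k ≤ R →
    0 ≤ y → y ≤ 1 - (k:ℝ) ^ (-(5/19) : ℝ) → q2 y k R ≤ C1 * ((k:ℝ) / R) ^ (1/2 : ℝ) := by
  obtain ⟨C0, hC0, hup⟩ := hup
  obtain ⟨C1, C, c, K1, hC1, hC, hc, hK1, hstep⟩ := hstep
  set D : ℝ := max C1 (C0 ^ 2) with hD
  have hD1 : C1 ≤ D := le_max_left _ _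
  have hD0 : C0 ^ 2 ≤ D := le_max_right _ _
  have hDpos : 0 < D := by linarith
  -- choice of K
  have hlim : Filter.Tendsto (fun k : ℕ => (4 * C * D) * (k:ℝ) ^ (-c)) Filter.atTop (nhds 0) := by
    have h1 := (tendsto_rpow_neg_atTop hc).comp (tendsto_natCast_atTop_atTop (R := ℝ))
    have h2 := h1.const_mul (4 * C * D)
    rw [mul_zero] at h2
    exact h2
  obtain ⟨K2, hK2⟩ := Filter.eventually_atTop.1 (hlim.eventually_lt_const (show (0:ℝ) < 1 by norm_num))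
  refine ⟨2 * D, max K1 K2, by linarith, le_trans (by omega) (le_max_left _ _), ?_⟩
  intro k R y hk hkR hy0 hy1
  have hkK1 : K1 ≤ k := (le_max_left _ _).trans hk
  have hkK2 : K2 ≤ k := (le_max_right _ _).trans hk
  have hk2 := hK2 k hkK2
  have hkpos : (0:ℝ) < k := by
    have : 0 < k := by omega
    exact_mod_cast this
  have hgain : C1 + C * (k:ℝ) ^ (-c) * (2 * D) ^ 2 < 2 * D := by
    have : C * (k:ℝ) ^ (-c) * (2 * D) ^ 2 = (4 * C * D * (k:ℝ) ^ (-c)) * D := by ring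
    rw [this]
    have := mul_lt_mul_of_pos_right hk2 hDpos
    linarith
  set s : Set ℝ := {y | ∀ k' N' : ℕ, k ≤ k' → k' ≤ N' → N' ≤ R →
    q2 y k' N' ≤ (2 * D) * ((k':ℝ) / N') ^ (1/2 : ℝ)} with hs
  set Y : ℝ := 1 - (k:ℝ) ^ (-(5/19) : ℝ) with hY
  have hclosed : IsClosed s := by
    simp only [hs, Set.ofPred_forall]
    refine isClosed_iInter fun k' => isClosed_iInter fun N' => isClosed_iInter fun _ =>
      isClosed_iInter fun _ => isClosed_iInter fun _ => ?_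
    exact isClosed_le (q2_cont k' N') continuous_const
  have h0 : (0:ℝ) ∈ s := by
    intro k' N' h1 h2 h3
    rw [q2_zero]
    have hk' : (0:ℝ) < k' := by
      have : 0 < k' := by omega
      exact_mod_cast this
    have hN' : (0:ℝ) < N' := by
      have : 0 < N' := by omega
      exact_mod_cast this
    have h4 := hup k' N' (by omega) h2
    have h5 : 0 ≤ pAA k' N' := Pr_nonneg (okq (by norm_num) (by norm_num)) _ _
    have h6 : (((k':ℝ) / N') ^ (1/4 : ℝ)) ^ 2 = ((k':ℝ) / N') ^ (1/2 : ℝ) := by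
      rw [← Real.rpow_natCast, ← Real.rpow_mul (by positivity)]
      norm_num
    calc pAA k' N' ^ 2 ≤ (C0 * ((k':ℝ) / N') ^ (1/4 : ℝ)) ^ 2 := by gcongr
      _ = C0 ^ 2 * ((k':ℝ) / N') ^ (1/2 : ℝ) := by rw [mul_pow, h6]
      _ ≤ (2 * D) * ((k':ℝ) / N') ^ (1/2 : ℝ) := by
          gcongr
          linarith
  have hsub : Set.Icc 0 Y ⊆ s := by
    apply IsClosed.Icc_subset_of_forall_mem_nhdsWithin (hclosed.inter isClosed_Icc) h0
    rintro x ⟨hx, hx0, hxY⟩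
    apply mem_nhdsWithin_of_mem_nhds
    have h1 := hstep k R x (2 * D) hkK1 hx0 hxY.le (by linarith) hx
    have h2 : ∀ k' ∈ Finset.range (R + 1), ∀ᶠ z in nhds x, ∀ N' ∈ Finset.range (R + 1),
        (k ≤ k' → k' ≤ N' → N' ≤ R → q2 z k' N' ≤ (2 * D) * ((k':ℝ) / N') ^ (1/2 : ℝ)) := by
      intro k' _
      rw [Filter.eventually_all_finset]
      intro N' _
      by_cases hkk : k ≤ k' ∧ k' ≤ N' ∧ N' ≤ R
      · obtain ⟨a1, a2, a3⟩ := hkk
        have hk' : (0:ℝ) < k' := by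
          have : 0 < k' := by omega
          exact_mod_cast this
        have hN' : (0:ℝ) < N' := by
          have : 0 < N' := by omega
          exact_mod_cast this
        have h3 : q2 x k' N' < (2 * D) * ((k':ℝ) / N') ^ (1/2 : ℝ) := by
          refine (h1 k' N' a1 a2 a3).trans_lt ?_
          gcongr
        have h4 : ∀ᶠ z in nhds x, q2 z k' N' < (2 * D) * ((k':ℝ) / N') ^ (1/2 : ℝ) :=
          (q2_cont k' N').continuousAt.eventually (gt_mem_nhds h3)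
        filter_upwards [h4] with z hz _ _ _
        exact hz.le
      · filter_upwards with z a1 a2 a3
        exact absurd ⟨a1, a2, a3⟩ hkk
    rw [← Filter.eventually_all_finset] at h2
    filter_upwards [h2] with z hz
    intro k' N' a1 a2 a3
    exact hz k' (Finset.mem_range.2 (by omega)) N' (Finset.mem_range.2 (by omega)) a1 a2 a3
  exact hsub ⟨hy0, hy1⟩ k R le_rfl hkR le_rfl

end E4b

/-- E4b -/
theorem q2_far1 : ∃ (C1 : ℝ) (K1 : ℕ), 1 ≤ C1 ∧ 1 ≤ K1 ∧ ∀ (k R : ℕ) (y : ℝ), K1 ≤ k → k ≤ R →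
    0 ≤ y → y ≤ 1 - (k:ℝ) ^ (-(5/19) : ℝ) → q2 y k R ≤ C1 * ((k:ℝ) / R) ^ (1/2 : ℝ) :=
  E4b.q2_far_of AA_upper q2_step1

end H389NS
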