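import Pool.Agent.H389R2.NS.E40
import Pool.Agent.H389R2.NS.E4b
import Pool.Agent.H985R3.TA.STA

/-! Two-layer two-arm probabilities. -/

set_option autoImplicit false

namespace H389NS

open H974 H12S H985T Finset

/-- E4a: one step. -/
theorem q2_step : ∃ (C1 C c : ℝ) (K1 : ℕ), 1 ≤ C1 ∧ 0 < C ∧ 0 < c ∧ 64 ≤ K1 ∧
    ∀ (k R : ℕ) (y M : ℝ), K1 ≤ k → 0 ≤ y → y ≤ 1 - (k:ℝ) ^ (-(5/19) : ℝ) → 1 ≤ M →
      (∀ k' N' : ℕ, k ≤ k' → k' ≤ N' → N' ≤ R → q2 y k' N' ≤ M * ((k':ℝ) / N') ^ (1/2 : ℝ)) →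
      ∀ k' N' : ℕ, k ≤ k' → k' ≤ N' → N' ≤ R →
        q2 y k' N' ≤ (C1 + C * (k:ℝ) ^ (-c) * M ^ 2) * ((k':ℝ) / N') ^ (1/2 : ℝ) := q2_step1

/-- E4b -/
theorem q2_farE : ∃ (C1 : ℝ) (K1 : ℕ), 1 ≤ C1 ∧ 1 ≤ K1 ∧ ∀ (k R : ℕ) (y : ℝ), K1 ≤ k → k ≤ R →
    0 ≤ y → y ≤ 1 - (k:ℝ) ^ (-(5/19) : ℝ) → q2 y k R ≤ C1 * ((k:ℝ) / R) ^ (1/2 : ℝ) := q2_far1

theorem e5_local {a N : ℕ} {S : Finset Edg} (F : Finset Edg) (_hF : F ⊆ S) :
    AA a N (↑F : Set Edg) ↔ AA a N (↑(F ∩ An a N) : Set Edg) := by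
  apply AA_congr
  rw [Finset.coe_inter, Set.inter_assoc, Set.inter_self]

/-- submultiplicativity -/
theorem q2_submul {x : ℝ} (h0 : 0 ≤ x) (h1 : x ≤ 1) {a k R : ℕ} (hak : a ≤ k) (hkR : k ≤ R) :
    q2 x a R ≤ q2 x a k * q2 x k R := by
  have hS : An a k ⊆ An a R := by
    intro e he
    unfold An at he ⊢
    rw [Finset.mem_sdiff] at he ⊢
    exact ⟨boxE_mono hkR he.1, he.2⟩
  have hT : An k R ⊆ An a R := by
    intro e he
    unfold An at he ⊢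
    rw [Finset.mem_sdiff] at he ⊢
    exact ⟨he.1, fun h => he.2 (boxE_mono hak h)⟩
  have hST : Disjoint (An a k) (An k R) := by
    rw [Finset.disjoint_left]
    intro e he he'
    unfold An at he he'
    rw [Finset.mem_sdiff] at he he'
    exact he'.2 he.1
  have hρ : ∀ e ∈ An a R, 0 ≤ (fun _ : Edg => x) e ∧ (fun _ : Edg => x) e ≤ 1 :=
    fun _ _ => ⟨h0, h1⟩
  calc q2 x a R = P2 (fun _ => x) (An a R) (fun F => AA a R ↑F) (fun F => AA a R ↑F) := rfl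
    _ ≤ P2 (fun _ => x) (An a R) (fun F => AA a k ↑F ∧ AA k R ↑F)
          (fun F => AA a k ↑F ∧ AA k R ↑F) :=
        D0.P2_mono hρ (fun F _ h => ⟨AA_outer hak hkR h, AA_mono hak hkR h⟩)
          (fun F _ h => ⟨AA_outer hak hkR h, AA_mono hak hkR h⟩)
    _ = P2 (fun _ => x) (An a R) (fun F => AA a k ↑F) (fun F => AA a k ↑F) *
          P2 (fun _ => x) (An a R) (fun F => AA k R ↑F) (fun F => AA k R ↑F) :=
        P2_indep hS hT hST (fun F hF => e5_local F hF) (fun F hF => e5_local F hF)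
          (fun F hF => e5_local F hF) (fun F hF => e5_local F hF)
    _ = q2 x a k * q2 x k R := by
        unfold q2
        rw [P2_local hS (fun F hF => e5_local F hF) (fun F hF => e5_local F hF),
          P2_local hT (fun F hF => e5_local F hF) (fun F hF => e5_local F hF)]

theorem q2_nonnegE {x : ℝ} (h0 : 0 ≤ x) (h1 : x ≤ 1) (a k : ℕ) : 0 ≤ q2 x a k :=
  D0.P2_nonneg (fun _ _ => ⟨h0, h1⟩) _ _

theorem q2_le_pAA {x : ℝ} (h0 : 0 ≤ x) (h1 : x ≤ 1) (a k : ℕ) : q2 x a k ≤ pAA a k :=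
  P2_le_Pr (fun _ _ => ⟨h0, h1⟩) _ _

theorem e5_quarter {a R : ℝ} (ha : 0 < a) (hR : 0 < R) :
    (a / R) ^ (1/4 : ℝ) = (a / R) ^ (1/2 : ℝ) * (R / a) ^ (1/4 : ℝ) := by
  have h : R / a = (a / R)⁻¹ := by rw [inv_div]
  have hp : 0 < a / R := div_pos ha hR
  rw [h, Real.inv_rpow hp.le, ← Real.rpow_neg hp.le, ← Real.rpow_add hp]
  norm_num

/-- E5 -/
theorem q2_bound : ∃ C : ℝ, 0 < C ∧ ∀ (a R : ℕ) (x : ℝ), 1 ≤ a → a ≤ R → 0 ≤ x → x < 1 →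
    q2 x a R ≤ C * (1 - x) ^ (-(19/20) : ℝ) * ((a:ℝ) / R) ^ (1/2 : ℝ) := by
  obtain ⟨C1, K1, hC1, hK1, hfar⟩ := q2_farE
  obtain ⟨C0, hC0, hup⟩ := AA_upper
  refine ⟨(C0 + C0 * C1 + C1) * (K1 + 2), by positivity, ?_⟩
  intro a R x ha haR hx0 hx1
  have h1x : 0 < 1 - x := by linarith
  have h1x1 : 1 - x ≤ 1 := by linarith
  have hR1 : 1 ≤ R := ha.trans haR
  have ha0 : (0:ℝ) < a := by exact_mod_cast ha
  have ha1 : (1:ℝ) ≤ a := by exact_mod_cast ha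
  have hR0 : (0:ℝ) < R := by exact_mod_cast hR1
  have hR1' : (1:ℝ) ≤ R := by exact_mod_cast hR1
  set s : ℝ := (1 - x) ^ (-(19/20) : ℝ) with hs
  have hs1 : 1 ≤ s := Real.one_le_rpow_of_pos_of_le_one_of_nonpos h1x h1x1 (by norm_num)
  set k₀ : ℝ := (1 - x) ^ (-(19/5) : ℝ) with hk₀
  have hk₀1 : 1 ≤ k₀ := Real.one_le_rpow_of_pos_of_le_one_of_nonpos h1x h1x1 (by norm_num)
  have hk₀s : k₀ ^ (1/4 : ℝ) = s := by
    rw [hk₀, hs, ← Real.rpow_mul h1x.le]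
    norm_num
  have hk₀x : k₀ ^ (-(5/19) : ℝ) = 1 - x := by
    rw [hk₀, ← Real.rpow_mul h1x.le]
    norm_num
  obtain ⟨k, hk⟩ : ∃ k : ℕ, k = max K1 ⌈k₀⌉₊ := ⟨_, rfl⟩
  have hkK : K1 ≤ k := by rw [hk]; exact le_max_left _ _
  have hkk₀ : k₀ ≤ k := by
    refine (Nat.le_ceil k₀).trans ?_
    rw [hk]; exact_mod_cast le_max_right _ _
  have hk1 : (1:ℝ) ≤ k := hk₀1.trans hkk₀
  have hk0 : (0:ℝ) < k := by linarith
  have hkle : (k:ℝ) ≤ (K1 + 2) * k₀ := by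
    have h1 : k ≤ K1 + ⌈k₀⌉₊ := by rw [hk]; omega
    have h2 : (k:ℝ) ≤ K1 + (⌈k₀⌉₊ : ℝ) := by exact_mod_cast h1
    have h3 : (⌈k₀⌉₊ : ℝ) < k₀ + 1 := Nat.ceil_lt_add_one (by linarith)
    have h4 : (0:ℝ) ≤ K1 := Nat.cast_nonneg _
    nlinarith
  have hkx : x ≤ 1 - (k:ℝ) ^ (-(5/19) : ℝ) := by
    have : (k:ℝ) ^ (-(5/19) : ℝ) ≤ k₀ ^ (-(5/19) : ℝ) :=
      Real.rpow_le_rpow_of_nonpos (by linarith) hkk₀ (by norm_num)
    rw [hk₀x] at this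
    linarith
  have hk4 : (k:ℝ) ^ (1/4 : ℝ) ≤ (K1 + 2) * s := by
    have h4 : (0:ℝ) ≤ K1 := Nat.cast_nonneg _
    calc (k:ℝ) ^ (1/4 : ℝ) ≤ ((K1 + 2) * k₀) ^ (1/4 : ℝ) :=
          Real.rpow_le_rpow hk0.le hkle (by norm_num)
      _ = (K1 + 2 : ℝ) ^ (1/4 : ℝ) * s := by
          rw [Real.mul_rpow (by linarith) (by linarith), hk₀s]
      _ ≤ (K1 + 2) * s := by
          apply mul_le_mul_of_nonneg_right _ (by linarith)
          calc (K1 + 2 : ℝ) ^ (1/4 : ℝ) ≤ (K1 + 2 : ℝ) ^ (1 : ℝ) :=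
                Real.rpow_le_rpow_of_exponent_le (by linarith) (by norm_num)
            _ = K1 + 2 := Real.rpow_one _
  have hhalf : 0 ≤ ((a:ℝ) / R) ^ (1/2 : ℝ) := by positivity
  have hK2 : (1:ℝ) ≤ K1 + 2 := by
    have h4 : (0:ℝ) ≤ K1 := Nat.cast_nonneg _
    linarith
  -- it is enough to have the bound `D * ((K1 + 2) * s) * (a / R) ^ (1/2)`
  have fin : ∀ D : ℝ, 0 ≤ D → D ≤ C0 + C0 * C1 + C1 →
      q2 x a R ≤ D * (((K1:ℝ) + 2) * s) * ((a:ℝ) / R) ^ (1/2 : ℝ) →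
      q2 x a R ≤ (C0 + C0 * C1 + C1) * (K1 + 2) * s * ((a:ℝ) / R) ^ (1/2 : ℝ) := by
    intro D hD hD' h
    refine h.trans ?_
    have : D * (((K1:ℝ) + 2) * s) ≤ (C0 + C0 * C1 + C1) * (((K1:ℝ) + 2) * s) :=
      mul_le_mul_of_nonneg_right hD' (by positivity)
    have h2 := mul_le_mul_of_nonneg_right this hhalf
    linarith [h2]
  have hC01 : 0 ≤ C0 * C1 := by positivity
  by_cases hRk : R ≤ k
  · -- small `R`
    apply fin C0 hC0.le (by linarith)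
    have h1 := (q2_le_pAA hx0 hx1.le a R).trans (hup a R ha haR)
    rw [e5_quarter ha0 hR0] at h1
    have h2 : ((R:ℝ) / a) ^ (1/4 : ℝ) ≤ (K1 + 2) * s := by
      refine le_trans ?_ hk4
      apply Real.rpow_le_rpow (by positivity) _ (by norm_num)
      have h3 : (R:ℝ) ≤ k := by exact_mod_cast hRk
      rw [div_le_iff₀ ha0]
      nlinarith
    calc q2 x a R ≤ C0 * (((a:ℝ) / R) ^ (1/2 : ℝ) * ((R:ℝ) / a) ^ (1/4 : ℝ)) := h1
      _ ≤ C0 * (((a:ℝ) / R) ^ (1/2 : ℝ) * ((K1 + 2) * s)) :=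
          mul_le_mul_of_nonneg_left (mul_le_mul_of_nonneg_left h2 hhalf) hC0.le
      _ = _ := by ring
  · push Not at hRk
    by_cases hak : a ≤ k
    · apply fin (C0 * C1) hC01 (by linarith)
      have h1 := q2_submul hx0 hx1.le hak hRk.le
      have h2 := (q2_le_pAA hx0 hx1.le a k).trans (hup a k ha hak)
      have h3 := hfar k R x hkK hRk.le hx0 hkx
      rw [e5_quarter ha0 hk0] at h2
      have h4 : ((k:ℝ) / a) ^ (1/4 : ℝ) ≤ (K1 + 2) * s := by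
        refine le_trans ?_ hk4
        apply Real.rpow_le_rpow (by positivity) _ (by norm_num)
        rw [div_le_iff₀ ha0]
        nlinarith
      have h5 : ((a:ℝ) / k) ^ (1/2 : ℝ) * ((k:ℝ) / R) ^ (1/2 : ℝ) =
          ((a:ℝ) / R) ^ (1/2 : ℝ) := by
        rw [← Real.mul_rpow (by positivity) (by positivity)]
        congr 1
        field_simp
      calc q2 x a R ≤ q2 x a k * q2 x k R := h1
        _ ≤ (C0 * (((a:ℝ) / k) ^ (1/2 : ℝ) * ((k:ℝ) / a) ^ (1/4 : ℝ))) *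
            (C1 * ((k:ℝ) / R) ^ (1/2 : ℝ)) :=
            mul_le_mul h2 h3 (q2_nonnegE hx0 hx1.le _ _) (by positivity)
        _ = C0 * C1 * ((k:ℝ) / a) ^ (1/4 : ℝ) *
            (((a:ℝ) / k) ^ (1/2 : ℝ) * ((k:ℝ) / R) ^ (1/2 : ℝ)) := by ring
        _ = C0 * C1 * ((k:ℝ) / a) ^ (1/4 : ℝ) * ((a:ℝ) / R) ^ (1/2 : ℝ) := by rw [h5]
        _ ≤ C0 * C1 * ((K1 + 2) * s) * ((a:ℝ) / R) ^ (1/2 : ℝ) :=
            mul_le_mul_of_nonneg_right (mul_le_mul_of_nonneg_left h4 hC01) hhalf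
    · push Not at hak
      apply fin C1 (by linarith) (by linarith)
      have h6 : (k:ℝ) ≤ a := by exact_mod_cast hak.le
      have h7 : (a:ℝ) ^ (-(5/19) : ℝ) ≤ (k:ℝ) ^ (-(5/19) : ℝ) :=
        Real.rpow_le_rpow_of_nonpos hk0 h6 (by norm_num)
      have h3 := hfar a R x (hkK.trans hak.le) haR hx0 (by linarith)
      refine h3.trans ?_
      apply mul_le_mul_of_nonneg_right _ hhalf
      have h8 : 1 ≤ ((K1:ℝ) + 2) * s := by nlinarith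
      nlinarith

end H389NS
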