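import Pool.Agent.H389R2.NS.E2

/-! Two-layer two-arm probabilities: definition. -/

set_option autoImplicit false

namespace H389NS

open H974 H12S H985T Finset

/-- Two-layer two-arm probability. -/
noncomputable def q2 (x : ℝ) (a N : ℕ) : ℝ :=
  P2 (fun _ => x) (An a N) (fun F => AA a N ↑F) (fun F => AA a N ↑F)

end H389NS
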