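import Pool.Agent.H389R2.NS.E40
import Pool.Agent.H389R2.NS.D1
import Pool.Agent.H985R3.TA.STA

/-! E4a: one step for the two-layer two-arm probabilities (helper950). -/

set_option autoImplicit false

namespace H389NS

open H974 H12S H985T Finset

theorem E4_rho {ρ ρ' : Edg → ℝ} {S : Finset Edg} (h : ∀ e ∈ S, ρ e = ρ' e)
    (A B : Finset Edg → Prop) : P2 ρ S A B = P2 ρ' S A B := by
  unfold P2 E2
  refine Finset.sum_congr rfl fun F _ => Finset.sum_congr rfl fun F' _ => ?_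
  congr 1
  refine Finset.prod_congr rfl fun e he => ?_
  rw [h e he]

theorem E4_ok : Ok (hp : Edg → ℝ) := fun _ => by unfold hp; constructor <;> norm_num

theorem E4_le_one {ρ : Edg → ℝ} {S : Finset Edg} (hρ : ∀ e ∈ S, 0 ≤ ρ e ∧ ρ e ≤ 1)
    (A B : Finset Edg → Prop) : P2 ρ S A B ≤ 1 :=
  (P2_le_Pr hρ A B).trans (Pr_le_one E4_ok S A)

theorem E4_boxE {a b : ℕ} (h : a ≤ b) : boxE a ⊆ boxE b := by
  unfold boxE
  exact RE_subset (by omega) (by omega) (by omega) (by omega)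

theorem E4_An_sub {a b c d : ℕ} (h1 : c ≤ a) (h2 : b ≤ d) : An a b ⊆ An c d := by
  intro e he
  rw [INDI_memAn] at he ⊢
  exact ⟨E4_boxE h2 he.1, fun h => he.2 (E4_boxE h1 h)⟩

theorem E4_loc {a N : ℕ} {T : Finset Edg} (hT : An a N ⊆ T) (F : Finset Edg) :
    AA a N (↑F : Set Edg) ↔ AA a N (↑(F ∩ T) : Set Edg) := by
  apply AA_congr
  rw [Finset.coe_inter, Set.inter_assoc, Set.inter_eq_right.2 (Finset.coe_subset.2 hT)]

theorem E4_local {ρ : Edg → ℝ} {S : Finset Edg} {a N : ℕ} {z : ℝ} (hS : An a N ⊆ S)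
    (hz : ∀ e ∈ An a N, ρ e = z) :
    P2 ρ S (fun F => AA a N ↑F) (fun F => AA a N ↑F) = q2 z a N := by
  rw [P2_local hS (fun F _ => E4_loc (Finset.Subset.refl _) F)
    (fun F _ => E4_loc (Finset.Subset.refl _) F)]
  exact E4_rho hz _ _

theorem E4_q2_mono {z y : ℝ} (h0 : 0 ≤ z) (h : z ≤ y) (a N : ℕ) : q2 z a N ≤ q2 y a N :=
  P2_mono_param (fun _ _ => h0) (fun _ _ => h) _

/-- independent layers -/
theorem E4_zero (Z : Finset Edg) (A : Finset Edg → Prop) :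
    P2 (fun _ => 0) Z A A = (Pr hp Z A) ^ 2 := by
  rw [P2_zero (N := Z) (Finset.Subset.refl _) (fun _ _ => rfl) (fun e he => by
    rw [Finset.sdiff_self] at he
    exact absurd he (Finset.notMem_empty e))]
  unfold UA UU
  rw [Finset.sdiff_self, Ex_empty]
  unfold Pr
  congr 2
  funext F
  rw [Finset.empty_union]

/-- dyadic decomposition of an annulus -/
theorem E4_sum (f : Edg → ℝ) (a : ℕ) : ∀ I : ℕ, ∑ e ∈ An a (a * 2 ^ I), f e =
    ∑ i ∈ Finset.range I, ∑ e ∈ An (a * 2 ^ i) (2 * (a * 2 ^ i)), f e := by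
  intro I
  induction I with
  | zero =>
    rw [pow_zero, mul_one, Finset.sum_range_zero]
    unfold An
    rw [Finset.sdiff_self, Finset.sum_empty]
  | succ I ih =>
    rw [Finset.sum_range_succ, ← ih]
    have h1 : a ≤ a * 2 ^ I := Nat.le_mul_of_pos_right _ (by positivity)
    have h2 : a * 2 ^ (I + 1) = 2 * (a * 2 ^ I) := by ring
    rw [h2]
    have h3 : An a (2 * (a * 2 ^ I)) = An a (a * 2 ^ I) ∪ An (a * 2 ^ I) (2 * (a * 2 ^ I)) := by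
      ext e
      rw [Finset.mem_union, INDI_memAn, INDI_memAn, INDI_memAn]
      constructor
      · rintro ⟨h4, h5⟩
        by_cases h6 : e ∈ boxE (a * 2 ^ I)
        · exact Or.inl ⟨h6, h5⟩
        · exact Or.inr ⟨h4, h6⟩
      · rintro (⟨h4, h5⟩ | ⟨h4, h5⟩)
        · exact ⟨E4_boxE (by omega) h4, h5⟩
        · exact ⟨h4, fun h => h5 (E4_boxE h1 h)⟩
    rw [h3, Finset.sum_union]
    rw [Finset.disjoint_left]
    intro e h4 h5
    rw [INDI_memAn] at h4 h5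
    exact h5.2 h4.1

/-- edges far from the origin -/
theorem E4_far {R : ℕ} {e : Edg} (h : e ∉ boxE R) :
    (R:ℤ) ≤ |e.1| + 1 ∨ (R:ℤ) ≤ |e.2.1| + 1 := by
  unfold boxE at h
  obtain ⟨x, y, _ | _⟩ := e
  · rw [mem_RE_false] at h
    simp only
    by_contra hc
    push Not at hc
    obtain ⟨h1, h2⟩ := hc
    have h3 := abs_lt.1 (show |x| < (R:ℤ) by omega)
    have h4 := abs_lt.1 (show |y| < (R:ℤ) by omega)
    omega
  · rw [mem_RE_true] at h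
    simp only
    by_contra hc
    push Not at hc
    obtain ⟨h1, h2⟩ := hc
    have h3 := abs_lt.1 (show |x| < (R:ℤ) by omega)
    have h4 := abs_lt.1 (show |y| < (R:ℤ) by omega)
    omega

theorem E4_near {R : ℕ} {e : Edg} (h : e ∈ boxE R) : |e.1| ≤ (R:ℤ) ∧ |e.2.1| ≤ (R:ℤ) := by
  unfold boxE at h
  obtain ⟨x, y, _ | _⟩ := e
  · rw [mem_RE_false] at h
    simp only [abs_le]
    omega
  · rw [mem_RE_true] at h
    simp only [abs_le]
    omega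

theorem E4_ebx_sub {R k N : ℕ} {e : Edg} (h : e ∈ boxE R) (hk : R + k ≤ N) :
    ebx e k ⊆ boxE N := by
  obtain ⟨h1, h2⟩ := E4_near h
  rw [abs_le] at h1 h2
  unfold ebx boxE
  exact RE_subset (by omega) (by omega) (by omega) (by omega)

theorem E4_ebx_disj {R k N : ℕ} {e : Edg} (h : e ∉ boxE R) (hk : N + k + 1 < R) :
    Disjoint (ebx e k) (boxE N) := by
  rw [Finset.disjoint_left]
  intro f hf hf'
  have h1 := E4_far h
  obtain ⟨h2, h3⟩ := E4_near hf'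
  have h4 : |f.1 - e.1| ≤ (k:ℤ) ∧ |f.2.1 - e.2.1| ≤ (k:ℤ) := by
    unfold ebx at hf
    obtain ⟨x, y, _ | _⟩ := f
    · rw [mem_RE_false] at hf
      simp only [abs_le]
      omega
    · rw [mem_RE_true] at hf
      simp only [abs_le]
      omega
  have h5 : |e.1| ≤ |f.1| + |f.1 - e.1| := by
    have := abs_sub_abs_le_abs_sub e.1 f.1
    rw [abs_sub_comm] at this
    linarith
  have h6 : |e.2.1| ≤ |f.2.1| + |f.2.1 - e.2.1| := by
    have := abs_sub_abs_le_abs_sub e.2.1 f.2.1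
    rw [abs_sub_comm] at this
    linarith
  have h7 : (N:ℤ) + k + 1 < R := by exact_mod_cast hk
  rcases h1 with h1 | h1 <;> omega

/-- locality of the four-arm events -/
theorem E4_four_local {κ : ℕ} {e : Edg} {T : Finset Edg} (hT : ebx e (κ + 2) ⊆ T)
    (F : Finset Edg) : (A4e κ e (↑F : Set Edg) ∨ A4d κ e F) ↔
      (A4e κ e (↑(F ∩ T) : Set Edg) ∨ A4d κ e (F ∩ T)) := by
  have hsub : ebx e κ ⊆ ebx e (κ + 2) := by
    unfold ebx
    exact RE_subset (by push_cast; omega) (by push_cast; omega) (by push_cast; omega)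
      (by push_cast; omega)
  refine or_congr ?_ ?_
  · apply A4e_local
    rw [Finset.coe_inter, Set.inter_assoc, Set.inter_eq_right.2
      (Finset.coe_subset.2 (hsub.trans hT))]
  · unfold A4d
    have : ebx e (κ + 2) \ F = ebx e (κ + 2) \ (F ∩ T) := by
      ext f
      rw [Finset.mem_sdiff, Finset.mem_sdiff, Finset.mem_inter]
      constructor
      · rintro ⟨h1, h2⟩
        exact ⟨h1, fun h => h2 h.1⟩
      · rintro ⟨h1, h2⟩
        exact ⟨h1, fun h => h2 ⟨h, hT h1⟩⟩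
    rw [this]

/-- the zone of correlation `z` -/
noncomputable def E4r (a0 b0 : ℕ) (z : ℝ) (e : Edg) : ℝ := if e ∈ An a0 b0 then z else 1

theorem E4r_ok {a0 b0 : ℕ} {z : ℝ} (h0 : 0 ≤ z) (h1 : z ≤ 1) (S : Finset Edg) :
    ∀ e ∈ S, 0 ≤ E4r a0 b0 z e ∧ E4r a0 b0 z e ≤ 1 := by
  intro e _
  unfold E4r
  split_ifs
  · exact ⟨h0, h1⟩
  · exact ⟨zero_le_one, le_rfl⟩

/-- one edge: independence -/
theorem E4_edge {k' N' a0 b0 R : ℕ} (hk : 64 ≤ k') (ha0 : a0 = 4 * k') (hb0 : 4 * b0 ≤ N')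
    (hR : a0 ≤ R) (hR2 : 2 * R ≤ b0) {e : Edg} (he : e ∈ An R (2 * R)) {z : ℝ} (h0 : 0 ≤ z)
    (h1 : z ≤ 1) :
    P2 (E4r a0 b0 z) (An k' N')
      (fun F => ¬ (AA k' N' (↑(insert e F) : Set Edg) ↔ AA k' N' (↑(F.erase e) : Set Edg)))
      (fun F => ¬ (AA k' N' (↑(insert e F) : Set Edg) ↔ AA k' N' (↑(F.erase e) : Set Edg))) ≤
    P2 (E4r a0 b0 z) (An k' N') (fun F => A4e (R / 8) e ↑F ∨ A4d (R / 8) e F)
      (fun F => A4e (R / 8) e ↑F ∨ A4d (R / 8) e F) *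
    (P2 (E4r a0 b0 z) (An k' N') (fun F => AA k' (R / 2) ↑F) (fun F => AA k' (R / 2) ↑F) *
    P2 (E4r a0 b0 z) (An k' N') (fun F => AA (4 * R) N' ↑F) (fun F => AA (4 * R) N' ↑F)) := by
  have hρ := E4r_ok (a0 := a0) (b0 := b0) h0 h1 (An k' N')
  rw [INDI_memAn] at he
  have hd1 : Disjoint (ebx e (R / 8 + 3)) (boxE (R / 2)) := E4_ebx_disj he.2 (by omega)
  have hd2 : Disjoint (ebx e (R / 8 + 2)) (boxE (R / 2)) := E4_ebx_disj he.2 (by omega)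
  have hs1 : ebx e (R / 8 + 3) ⊆ boxE (4 * R) := E4_ebx_sub he.1 (by omega)
  have hs2 : ebx e (R / 8 + 2) ⊆ boxE (4 * R) := E4_ebx_sub he.1 (by omega)
  have hflip : ∀ F : Finset Edg, F ⊆ An k' N' →
      (¬ (AA k' N' (↑(insert e F) : Set Edg) ↔ AA k' N' (↑(F.erase e) : Set Edg))) →
      (A4e (R / 8) e (↑F : Set Edg) ∨ A4d (R / 8) e F) ∧
        (AA k' (R / 2) (↑F : Set Edg) ∧ AA (4 * R) N' (↑F : Set Edg)) := by
    intro F _ h
    exact AA_flip (by omega) (by omega) (by omega) (by omega) hd1 hs1 h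
  refine (D1_mono hρ hflip hflip).trans (le_of_eq ?_)
  have hS1 : ebx e (R / 8 + 2) ⊆ An k' N' := by
    intro f hf
    rw [INDI_memAn]
    refine ⟨E4_boxE (by omega) (hs2 hf), fun h => ?_⟩
    exact (Finset.disjoint_left.1 hd2) hf (E4_boxE (by omega) h)
  have hT1 : An k' (R / 2) ⊆ An k' N' \ ebx e (R / 8 + 2) := by
    intro f hf
    rw [Finset.mem_sdiff]
    refine ⟨E4_An_sub le_rfl (by omega) hf, fun h => ?_⟩
    exact (Finset.disjoint_left.1 hd2) h (INDI_memAn.1 hf).1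
  have hT2 : An (4 * R) N' ⊆ An k' N' \ ebx e (R / 8 + 2) := by
    intro f hf
    rw [Finset.mem_sdiff]
    refine ⟨E4_An_sub (by omega) le_rfl hf, fun h => ?_⟩
    exact (INDI_memAn.1 hf).2 (hs2 h)
  have hB : ∀ F, F ⊆ An k' N' →
      ((AA k' (R / 2) (↑F : Set Edg) ∧ AA (4 * R) N' (↑F : Set Edg)) ↔
      (AA k' (R / 2) (↑(F ∩ (An k' N' \ ebx e (R / 8 + 2))) : Set Edg) ∧
        AA (4 * R) N' (↑(F ∩ (An k' N' \ ebx e (R / 8 + 2))) : Set Edg))) := by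
    intro F _
    exact and_congr (E4_loc hT1 F) (E4_loc hT2 F)
  have hA : ∀ F, F ⊆ An k' N' →
      ((A4e (R / 8) e (↑F : Set Edg) ∨ A4d (R / 8) e F) ↔
      (A4e (R / 8) e (↑(F ∩ ebx e (R / 8 + 2)) : Set Edg) ∨
        A4d (R / 8) e (F ∩ ebx e (R / 8 + 2)))) := by
    intro F _
    exact E4_four_local (Finset.Subset.refl _) F
  rw [P2_indep (ρ := E4r a0 b0 z) (U := An k' N') (S := ebx e (R / 8 + 2))
    (T := An k' N' \ ebx e (R / 8 + 2))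
    (A := fun F => A4e (R / 8) e (↑F : Set Edg) ∨ A4d (R / 8) e F)
    (A' := fun F => A4e (R / 8) e (↑F : Set Edg) ∨ A4d (R / 8) e F)
    (B := fun F => AA k' (R / 2) (↑F : Set Edg) ∧ AA (4 * R) N' (↑F : Set Edg))
    (B' := fun F => AA k' (R / 2) (↑F : Set Edg) ∧ AA (4 * R) N' (↑F : Set Edg))
    hS1 Finset.sdiff_subset Finset.disjoint_sdiff hA hA hB hB]
  congr 1
  refine P2_indep (ρ := E4r a0 b0 z) (U := An k' N') (S := An k' (R / 2)) (T := An (4 * R) N')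
    (A := fun F => AA k' (R / 2) (↑F : Set Edg)) (A' := fun F => AA k' (R / 2) (↑F : Set Edg))
    (B := fun F => AA (4 * R) N' (↑F : Set Edg)) (B' := fun F => AA (4 * R) N' (↑F : Set Edg))
    (E4_An_sub le_rfl (by omega)) (E4_An_sub (by omega) le_rfl) ?_
    (fun F _ => E4_loc (Finset.Subset.refl _) F) (fun F _ => E4_loc (Finset.Subset.refl _) F)
    (fun F _ => E4_loc (Finset.Subset.refl _) F) (fun F _ => E4_loc (Finset.Subset.refl _) F)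
  rw [Finset.disjoint_left]
  intro f hf hf'
  exact (INDI_memAn.1 hf').2 (E4_boxE (by omega) (INDI_memAn.1 hf).1)

/-- the inner two-arm factor -/
theorem E4_inner {k k' N' a0 b0 R Rm : ℕ} (hk : 64 ≤ k') (hkk : k ≤ k') (ha0 : a0 = 4 * k')
    (hb0 : 4 * b0 ≤ N') (hNR : N' ≤ Rm) (hR : a0 ≤ R) (hR2 : 2 * R ≤ b0) {y M : ℝ} (hM : 1 ≤ M)
    (hy1 : y ≤ 1)
    (H : ∀ k' N' : ℕ, k ≤ k' → k' ≤ N' → N' ≤ Rm → q2 y k' N' ≤ M * ((k':ℝ) / N') ^ (1/2 : ℝ))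
    {z : ℝ} (h0 : 0 ≤ z) (h1 : z ≤ y) :
    P2 (E4r a0 b0 z) (An k' N') (fun F => AA k' (R / 2) ↑F) (fun F => AA k' (R / 2) ↑F) ≤
      M * (16 * (k':ℝ) / R) ^ (1/2 : ℝ) := by
  have hρ := E4r_ok (a0 := a0) (b0 := b0) h0 (h1.trans hy1) (An k' N')
  have hRp : (0:ℝ) < R := by exact_mod_cast (by omega : 0 < R)
  by_cases hc : a0 ≤ R / 2
  · have hm : ∀ F : Finset Edg, F ⊆ An k' N' → AA k' (R / 2) (↑F : Set Edg) →
        AA a0 (R / 2) (↑F : Set Edg) := fun F _ h => AA_mono (by omega) hc h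
    refine (D1_mono hρ hm hm).trans ?_
    rw [E4_local (z := z) (E4_An_sub (by omega) (by omega)) ?_]
    · refine (E4_q2_mono h0 h1 _ _).trans ((H a0 (R / 2) (by omega) hc (by omega)).trans ?_)
      refine mul_le_mul_of_nonneg_left ?_ (by linarith)
      refine Real.rpow_le_rpow (by positivity) ?_ (by norm_num)
      have h2 : 1 ≤ R / 2 := by omega
      have h3 : (1:ℝ) ≤ ((R / 2 : ℕ) : ℝ) := by exact_mod_cast h2
      rw [div_le_div_iff₀ (by linarith) hRp]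
      have h4 : R ≤ 4 * (R / 2) := by omega
      have h5 : (R:ℝ) ≤ 4 * ((R / 2 : ℕ) : ℝ) := by exact_mod_cast h4
      have h6 : (a0:ℝ) = 4 * k' := by rw [ha0]; push_cast; ring
      rw [h6]
      nlinarith [Nat.cast_nonneg (α := ℝ) k']
    · intro e he
      unfold E4r
      rw [if_pos (E4_An_sub le_rfl (by omega) he)]
  · refine (E4_le_one hρ _ _).trans ?_
    have h2 : (1:ℝ) ≤ 16 * (k':ℝ) / R := by
      rw [le_div_iff₀ hRp, one_mul]
      have h3 : R ≤ 16 * k' := by omega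
      exact_mod_cast h3
    have h3 : (1:ℝ) ≤ (16 * (k':ℝ) / R) ^ (1/2 : ℝ) := Real.one_le_rpow h2 (by norm_num)
    nlinarith

/-- the outer two-arm factor -/
theorem E4_outer {k k' N' a0 b0 R Rm : ℕ} (hk : 64 ≤ k') (hkk : k ≤ k') (ha0 : a0 = 4 * k')
    (hb0 : 4 * b0 ≤ N') (hb1 : N' < 8 * b0) (hNR : N' ≤ Rm) (hR : a0 ≤ R) (hR2 : 2 * R ≤ b0)
    {y M : ℝ} (hM : 1 ≤ M) (hy1 : y ≤ 1)
    (H : ∀ k' N' : ℕ, k ≤ k' → k' ≤ N' → N' ≤ Rm → q2 y k' N' ≤ M * ((k':ℝ) / N') ^ (1/2 : ℝ))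
    {z : ℝ} (h0 : 0 ≤ z) (h1 : z ≤ y) :
    P2 (E4r a0 b0 z) (An k' N') (fun F => AA (4 * R) N' ↑F) (fun F => AA (4 * R) N' ↑F) ≤
      M * (32 * (R:ℝ) / N') ^ (1/2 : ℝ) := by
  have hρ := E4r_ok (a0 := a0) (b0 := b0) h0 (h1.trans hy1) (An k' N')
  have hNp : (0:ℝ) < N' := by exact_mod_cast (by omega : 0 < N')
  have hbp : (0:ℝ) < b0 := by exact_mod_cast (by omega : 0 < b0)
  by_cases hc : 4 * R ≤ b0
  · have hm : ∀ F : Finset Edg, F ⊆ An k' N' → AA (4 * R) N' (↑F : Set Edg) →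
        AA (4 * R) b0 (↑F : Set Edg) := fun F _ h => AA_outer hc (by omega) h
    refine (D1_mono hρ hm hm).trans ?_
    rw [E4_local (z := z) (E4_An_sub (by omega) (by omega)) ?_]
    · refine (E4_q2_mono h0 h1 _ _).trans ((H (4 * R) b0 (by omega) hc (by omega)).trans ?_)
      refine mul_le_mul_of_nonneg_left ?_ (by linarith)
      refine Real.rpow_le_rpow (by positivity) ?_ (by norm_num)
      rw [div_le_div_iff₀ hbp hNp]
      have h5 : (N':ℝ) ≤ 8 * b0 := by exact_mod_cast hb1.le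
      push_cast
      nlinarith [Nat.cast_nonneg (α := ℝ) R]
    · intro e he
      unfold E4r
      rw [if_pos (E4_An_sub (by omega) le_rfl he)]
  · refine (E4_le_one hρ _ _).trans ?_
    have h2 : (1:ℝ) ≤ 32 * (R:ℝ) / N' := by
      rw [le_div_iff₀ hNp, one_mul]
      have h3 : N' ≤ 32 * R := by omega
      exact_mod_cast h3
    have h3 : (1:ℝ) ≤ (32 * (R:ℝ) / N') ^ (1/2 : ℝ) := Real.one_le_rpow h2 (by norm_num)
    nlinarith

theorem E4_geom (c : ℝ) (hc : 0 < c) {k a0 : ℕ} (hk : 1 ≤ k) (ha : k ≤ a0) (I : ℕ) :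
    ∑ i ∈ Finset.range I, ((a0 * 2 ^ i : ℕ) : ℝ) ^ (-c) ≤
      (k:ℝ) ^ (-c) * (1 / (1 - (2:ℝ) ^ (-c))) := by
  have hr0 : 0 < (2:ℝ) ^ (-c) := Real.rpow_pos_of_pos (by norm_num) _
  have hr1 : (2:ℝ) ^ (-c) < 1 := Real.rpow_lt_one_of_one_lt_of_neg (by norm_num) (by linarith)
  have hkp : (0:ℝ) < k := by exact_mod_cast (by omega : 0 < k)
  have hterm : ∀ i ∈ Finset.range I, ((a0 * 2 ^ i : ℕ) : ℝ) ^ (-c) ≤
      (k:ℝ) ^ (-c) * ((2:ℝ) ^ (-c)) ^ i := by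
    intro i _
    have h1 : ((a0 * 2 ^ i : ℕ) : ℝ) = (a0:ℝ) * (2:ℝ) ^ i := by push_cast; ring
    have h2 : ((2:ℝ) ^ i) ^ (-c) = ((2:ℝ) ^ (-c)) ^ i := by
      rw [← Real.rpow_natCast, ← Real.rpow_natCast, ← Real.rpow_mul (by norm_num),
        ← Real.rpow_mul (by norm_num), mul_comm]
    rw [h1, Real.mul_rpow (Nat.cast_nonneg _) (by positivity), h2]
    refine mul_le_mul_of_nonneg_right ?_ (by positivity)
    refine Real.rpow_le_rpow_of_nonpos hkp ?_ (by linarith)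
    exact_mod_cast ha
  refine (Finset.sum_le_sum hterm).trans ?_
  rw [← Finset.mul_sum]
  refine mul_le_mul_of_nonneg_left ?_ (Real.rpow_nonneg hkp.le _)
  rw [geom_sum_eq hr1.ne, ← neg_div_neg_eq, neg_sub, neg_sub]
  refine div_le_div_of_nonneg_right ?_ (by linarith)
  have : 0 ≤ ((2:ℝ) ^ (-c)) ^ I := by positivity
  linarith

/-- E4a -/
theorem q2_step1 : ∃ (C1 C c : ℝ) (K1 : ℕ), 1 ≤ C1 ∧ 0 < C ∧ 0 < c ∧ 64 ≤ K1 ∧
    ∀ (k R : ℕ) (y M : ℝ), K1 ≤ k → 0 ≤ y → y ≤ 1 - (k:ℝ) ^ (-(5/19) : ℝ) → 1 ≤ M →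
      (∀ k' N' : ℕ, k ≤ k' → k' ≤ N' → N' ≤ R → q2 y k' N' ≤ M * ((k':ℝ) / N') ^ (1/2 : ℝ)) →
      ∀ k' N' : ℕ, k ≤ k' → k' ≤ N' → N' ≤ R →
        q2 y k' N' ≤ (C1 + C * (k:ℝ) ^ (-c) * M ^ 2) * ((k':ℝ) / N') ^ (1/2 : ℝ) := by
  obtain ⟨CA, hCA, HA⟩ := AA_upper
  obtain ⟨C0, c, hC0, hc, HS⟩ := ann_sum
  have hr0 : 0 < (2:ℝ) ^ (-c) := Real.rpow_pos_of_pos (by norm_num) _
  have hr1 : (2:ℝ) ^ (-c) < 1 := Real.rpow_lt_one_of_one_lt_of_neg (by norm_num) (by linarith)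
  have h1r : 0 < 1 - (2:ℝ) ^ (-c) := by linarith
  refine ⟨64 + CA ^ 2 * 32 ^ (1/2:ℝ), 512 ^ (1/2:ℝ) * (C0 * (1 / (1 - (2:ℝ) ^ (-c)))), c, 64,
    ?_, by positivity, hc, le_rfl, ?_⟩
  · have : 0 ≤ CA ^ 2 * (32:ℝ) ^ (1/2:ℝ) := by positivity
    linarith
  intro k Rm y M hk hy0 hy1 hM H k' N' hkk hkN hNR
  have hkp : (0:ℝ) < k := by exact_mod_cast (by omega : 0 < k)
  have hk'p : (0:ℝ) < k' := by exact_mod_cast (by omega : 0 < k')
  have hN'p : (0:ℝ) < N' := by exact_mod_cast (by omega : 0 < N')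
  have hy1' : y ≤ 1 := by
    have := Real.rpow_nonneg hkp.le (-(5/19) : ℝ)
    linarith
  have hM2 : 0 ≤ M ^ 2 := by positivity
  have hCk : 0 ≤ 512 ^ (1/2:ℝ) * (C0 * (1 / (1 - (2:ℝ) ^ (-c)))) * (k:ℝ) ^ (-c) * M ^ 2 := by
    positivity
  have ht0 : 0 ≤ ((k':ℝ) / N') ^ (1/2 : ℝ) := by positivity
  by_cases hbig : N' < 4096 * k'
  · have h1 : q2 y k' N' ≤ 1 := E4_le_one (fun _ _ => ⟨hy0, hy1'⟩) _ _
    have h2 : (1/4096:ℝ) ^ (1/2 : ℝ) = 1 / 64 := by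
      rw [show (1/4096:ℝ) = (1/64) ^ 2 by norm_num, ← Real.rpow_natCast,
        ← Real.rpow_mul (by norm_num)]
      norm_num
    have h3 : (1/4096:ℝ) ^ (1/2 : ℝ) ≤ ((k':ℝ) / N') ^ (1/2 : ℝ) := by
      refine Real.rpow_le_rpow (by norm_num) ?_ (by norm_num)
      rw [div_le_div_iff₀ (by norm_num) hN'p]
      have : (N':ℝ) ≤ 4096 * k' := by exact_mod_cast hbig.le
      linarith
    rw [h2] at h3
    have h4 : 0 ≤ CA ^ 2 * (32:ℝ) ^ (1/2:ℝ) := by positivity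
    calc q2 y k' N' ≤ 1 := h1
      _ ≤ 64 * ((k':ℝ) / N') ^ (1/2 : ℝ) := by linarith
      _ ≤ _ := mul_le_mul_of_nonneg_right (by linarith) ht0
  push Not at hbig
  -- scales
  obtain ⟨q, hq⟩ : ∃ q : ℕ, q = N' / (16 * k') := ⟨_, rfl⟩
  have hq1 : 1 ≤ q := by
    rw [hq, Nat.one_le_div_iff (by omega)]
    omega
  obtain ⟨I, hI⟩ : ∃ I : ℕ, I = Nat.log 2 q := ⟨_, rfl⟩
  have hI1 : 2 ^ I ≤ q := by rw [hI]; exact Nat.pow_log_le_self 2 (by omega)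
  have hI2 : q < 2 ^ (I + 1) := by rw [hI]; exact Nat.lt_pow_succ_log_self (by norm_num) q
  obtain ⟨a0, ha0⟩ : ∃ a0 : ℕ, a0 = 4 * k' := ⟨_, rfl⟩
  obtain ⟨b0, hb0⟩ : ∃ b0 : ℕ, b0 = a0 * 2 ^ I := ⟨_, rfl⟩
  have hb4 : 4 * b0 ≤ N' := by
    calc 4 * b0 = 16 * k' * 2 ^ I := by rw [hb0, ha0]; ring
      _ ≤ 16 * k' * q := Nat.mul_le_mul_left _ hI1
      _ ≤ N' := by rw [hq]; exact Nat.mul_div_le _ _
  have hb8 : N' < 8 * b0 := by
    have h1 : N' < 16 * k' * (q + 1) := by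
      rw [hq]
      exact Nat.lt_mul_div_succ _ (by omega)
    calc N' < 16 * k' * (q + 1) := h1
      _ ≤ 16 * k' * 2 ^ (I + 1) := Nat.mul_le_mul_left _ hI2
      _ = 8 * b0 := by rw [hb0, ha0]; ring
  have hab : a0 ≤ b0 := by rw [hb0]; exact Nat.le_mul_of_pos_right _ (by positivity)
  have hb0p : (0:ℝ) < b0 := by exact_mod_cast (by omega : 0 < b0)
  have hZS : An a0 b0 ⊆ An k' N' := E4_An_sub (by omega) (by omega)
  -- decrease of the correlation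
  have s1 : q2 y k' N' ≤ P2 (E4r a0 b0 y) (An k' N') (fun F => AA k' N' ↑F)
      (fun F => AA k' N' ↑F) := by
    refine P2_mono_param (fun _ _ => hy0) (fun e _ => ?_) _
    unfold E4r
    split_ifs
    · exact le_rfl
    · exact hy1'
  have s2 := P2_deriv (ρ := fun _ => (1:ℝ)) (S := An k' N') (N := An a0 b0) hZS
    (fun _ _ => ⟨zero_le_one, le_rfl⟩) (fun F => AA k' N' (↑F : Set Edg)) hy0 hy1'
  -- the first term
  have s3 : P2 (E4r a0 b0 0) (An k' N') (fun F => AA k' N' ↑F) (fun F => AA k' N' ↑F) ≤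
      CA ^ 2 * 32 ^ (1/2:ℝ) * ((k':ℝ) / N') ^ (1/2 : ℝ) := by
    have hρ := E4r_ok (a0 := a0) (b0 := b0) le_rfl zero_le_one (An k' N')
    have hm : ∀ F : Finset Edg, F ⊆ An k' N' → AA k' N' (↑F : Set Edg) →
        AA a0 b0 (↑F : Set Edg) := fun F _ h => AA_outer hab (by omega) (AA_mono (by omega) (by omega) h)
    refine (D1_mono hρ hm hm).trans ?_
    rw [E4_local (z := 0) hZS (fun e he => by unfold E4r; rw [if_pos he])]
    unfold q2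
    rw [E4_zero]
    have h1 : Pr hp (An a0 b0) (fun F => AA a0 b0 (↑F : Set Edg)) ≤ CA * ((a0:ℝ) / b0) ^ (1/4 : ℝ) :=
      HA a0 b0 (by omega) hab
    have h2 : 0 ≤ Pr hp (An a0 b0) (fun F => AA a0 b0 (↑F : Set Edg)) := Pr_nonneg E4_ok _ _
    have h3 : (CA * ((a0:ℝ) / b0) ^ (1/4 : ℝ)) ^ 2 = CA ^ 2 * ((a0:ℝ) / b0) ^ (1/2 : ℝ) := by
      rw [mul_pow, ← Real.rpow_natCast (((a0:ℝ) / b0) ^ (1/4 : ℝ)) 2,
        ← Real.rpow_mul (by positivity)]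
      norm_num
    have h4 : ((a0:ℝ) / b0) ^ (1/2 : ℝ) ≤ 32 ^ (1/2:ℝ) * ((k':ℝ) / N') ^ (1/2 : ℝ) := by
      rw [← Real.mul_rpow (by norm_num) (by positivity)]
      refine Real.rpow_le_rpow (by positivity) ?_ (by norm_num)
      rw [← mul_div_assoc, div_le_div_iff₀ hb0p hN'p]
      have h5 : (N':ℝ) ≤ 8 * b0 := by exact_mod_cast hb8.le
      have h6 : (a0:ℝ) = 4 * k' := by rw [ha0]; push_cast; ring
      rw [h6]
      nlinarith
    calc (Pr hp (An a0 b0) (fun F => AA a0 b0 (↑F : Set Edg))) ^ 2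
        ≤ (CA * ((a0:ℝ) / b0) ^ (1/4 : ℝ)) ^ 2 := by gcongr
      _ = CA ^ 2 * ((a0:ℝ) / b0) ^ (1/2 : ℝ) := h3
      _ ≤ CA ^ 2 * (32 ^ (1/2:ℝ) * ((k':ℝ) / N') ^ (1/2 : ℝ)) := by gcongr
      _ = _ := by ring
  -- the second term
  set X : ℝ := M ^ 2 * (512 ^ (1/2:ℝ) * ((k':ℝ) / N') ^ (1/2 : ℝ)) with hX
  have hX0 : 0 ≤ X := by positivity
  have s4 : ∀ R : ℕ, a0 ≤ R → 2 * R ≤ b0 → ∀ e ∈ An R (2 * R),
      (∫ z in (0:ℝ)..y, P2 (E4r a0 b0 z) (An k' N')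
      (fun F => ¬ (AA k' N' (↑(insert e F) : Set Edg) ↔ AA k' N' (↑(F.erase e) : Set Edg)))
      (fun F => ¬ (AA k' N' (↑(insert e F) : Set Edg) ↔ AA k' N' (↑(F.erase e) : Set Edg)))) ≤
      X * ∫ z in (0:ℝ)..y, P2 (E4r a0 b0 z) (An k' N')
        (fun F => A4e (R / 8) e ↑F ∨ A4d (R / 8) e F) (fun F => A4e (R / 8) e ↑F ∨ A4d (R / 8) e F) := by
    intro R hR hR2 e he
    have hRp : (0:ℝ) < R := by exact_mod_cast (by omega : 0 < R)
    rw [← intervalIntegral.integral_const_mul]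
    have hcont : ∀ A : Finset Edg → Prop, Continuous fun z => P2 (E4r a0 b0 z) (An k' N') A A := by
      intro A
      refine P2_cont _ (fun e => ?_) _ _ _
      unfold E4r
      split_ifs
      · exact continuous_id
      · exact continuous_const
    refine intervalIntegral.integral_mono_on hy0 ((hcont _).intervalIntegrable _ _)
      (((hcont _).const_mul _).intervalIntegrable _ _) fun z hz => ?_
    have hz1 : z ≤ 1 := hz.2.trans hy1'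
    refine (E4_edge (by omega) ha0 hb4 hR hR2 he hz.1 hz1).trans ?_
    have i1 := E4_inner (k := k) (k' := k') (Rm := Rm) (by omega) hkk ha0 hb4 hNR hR hR2 hM hy1' H
      hz.1 hz.2
    have i2 := E4_outer (k := k) (k' := k') (Rm := Rm) (by omega) hkk ha0 hb4 hb8 hNR hR hR2 hM
      hy1' H hz.1 hz.2
    have hρ := E4r_ok (a0 := a0) (b0 := b0) hz.1 hz1 (An k' N')
    have n1 := D1_nonneg hρ (fun F => A4e (R / 8) e (↑F : Set Edg) ∨ A4d (R / 8) e F)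
      (fun F => A4e (R / 8) e (↑F : Set Edg) ∨ A4d (R / 8) e F)
    have n3 := D1_nonneg hρ (fun F => AA (4 * R) N' (↑F : Set Edg))
      (fun F => AA (4 * R) N' (↑F : Set Edg))
    rw [mul_comm X]
    refine mul_le_mul_of_nonneg_left ?_ n1
    refine (mul_le_mul i1 i2 n3 (by positivity)).trans (le_of_eq ?_)
    rw [hX]
    have h5 : (16 * (k':ℝ) / R) ^ (1/2 : ℝ) * (32 * (R:ℝ) / N') ^ (1/2 : ℝ) =
        512 ^ (1/2:ℝ) * ((k':ℝ) / N') ^ (1/2 : ℝ) := by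
      rw [← Real.mul_rpow (by positivity) (by positivity),
        ← Real.mul_rpow (by norm_num) (by positivity)]
      congr 1
      field_simp
      norm_num
    calc M * (16 * (k':ℝ) / R) ^ (1/2 : ℝ) * (M * (32 * (R:ℝ) / N') ^ (1/2 : ℝ))
        = M ^ 2 * ((16 * (k':ℝ) / R) ^ (1/2 : ℝ) * (32 * (R:ℝ) / N') ^ (1/2 : ℝ)) := by ring
      _ = _ := by rw [h5]
  have s5 : ∑ e ∈ An a0 b0, (∫ z in (0:ℝ)..y, P2 (E4r a0 b0 z) (An k' N')
      (fun F => ¬ (AA k' N' (↑(insert e F) : Set Edg) ↔ AA k' N' (↑(F.erase e) : Set Edg)))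
      (fun F => ¬ (AA k' N' (↑(insert e F) : Set Edg) ↔ AA k' N' (↑(F.erase e) : Set Edg)))) ≤
      X * (C0 * ((k:ℝ) ^ (-c) * (1 / (1 - (2:ℝ) ^ (-c))))) := by
    have e1 : An a0 b0 = An a0 (a0 * 2 ^ I) := by rw [hb0]
    rw [e1, E4_sum]
    have hterm : ∀ i ∈ Finset.range I, ∑ e ∈ An (a0 * 2 ^ i) (2 * (a0 * 2 ^ i)),
        (∫ z in (0:ℝ)..y, P2 (E4r a0 b0 z) (An k' N')
      (fun F => ¬ (AA k' N' (↑(insert e F) : Set Edg) ↔ AA k' N' (↑(F.erase e) : Set Edg)))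
      (fun F => ¬ (AA k' N' (↑(insert e F) : Set Edg) ↔ AA k' N' (↑(F.erase e) : Set Edg)))) ≤
      X * (C0 * ((a0 * 2 ^ i : ℕ) : ℝ) ^ (-c)) := by
      intro i hi
      rw [Finset.mem_range] at hi
      obtain ⟨R, hR⟩ : ∃ R : ℕ, R = a0 * 2 ^ i := ⟨_, rfl⟩
      rw [← hR]
      have hR1 : a0 ≤ R := by rw [hR]; exact Nat.le_mul_of_pos_right _ (by positivity)
      have hR2 : 2 * R ≤ b0 := by
        calc 2 * R = a0 * 2 ^ (i + 1) := by rw [hR]; ring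
          _ ≤ a0 * 2 ^ I := Nat.mul_le_mul_left _ (Nat.pow_le_pow_right (by norm_num) (by omega))
          _ = b0 := hb0.symm
      refine (Finset.sum_le_sum (s4 R hR1 hR2)).trans ?_
      rw [← Finset.mul_sum]
      refine mul_le_mul_of_nonneg_left ?_ hX0
      refine HS a0 R b0 (An k' N') (by omega) hR1 hR2 ?_ y hy0 ?_
      · intro e he
        rw [INDI_memAn] at he
        intro f hf
        rw [INDI_memAn]
        refine ⟨E4_boxE (by omega) (E4_ebx_sub (N := 4 * R) he.1 (by omega) hf), fun h => ?_⟩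
        have hd2 : Disjoint (ebx e (R / 8 + 2)) (boxE (R / 2)) := E4_ebx_disj he.2 (by omega)
        exact (Finset.disjoint_left.1 hd2) hf (E4_boxE (by omega) h)
      · refine hy1.trans (sub_le_sub_left ?_ _)
        refine Real.rpow_le_rpow_of_nonpos hkp ?_ (by norm_num)
        exact_mod_cast (by omega : k ≤ R)
    refine (Finset.sum_le_sum hterm).trans ?_
    rw [← Finset.mul_sum, ← Finset.mul_sum]
    refine mul_le_mul_of_nonneg_left (mul_le_mul_of_nonneg_left ?_ hC0.le) hX0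
    exact E4_geom c hc (by omega) (by omega) I
  have s6 : q2 y k' N' ≤ CA ^ 2 * 32 ^ (1/2:ℝ) * ((k':ℝ) / N') ^ (1/2 : ℝ) +
      X * (C0 * ((k:ℝ) ^ (-c) * (1 / (1 - (2:ℝ) ^ (-c))))) :=
    s1.trans (s2.trans (add_le_add s3 s5))
  refine s6.trans ?_
  rw [hX]
  have h64 : 0 ≤ 64 * ((k':ℝ) / N') ^ (1/2 : ℝ) := by positivity
  calc CA ^ 2 * 32 ^ (1/2:ℝ) * ((k':ℝ) / N') ^ (1/2 : ℝ) +
      M ^ 2 * (512 ^ (1/2:ℝ) * ((k':ℝ) / N') ^ (1/2 : ℝ)) *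
        (C0 * ((k:ℝ) ^ (-c) * (1 / (1 - (2:ℝ) ^ (-c)))))
      ≤ 64 * ((k':ℝ) / N') ^ (1/2 : ℝ) + (CA ^ 2 * 32 ^ (1/2:ℝ) * ((k':ℝ) / N') ^ (1/2 : ℝ) +
      M ^ 2 * (512 ^ (1/2:ℝ) * ((k':ℝ) / N') ^ (1/2 : ℝ)) *
        (C0 * ((k:ℝ) ^ (-c) * (1 / (1 - (2:ℝ) ^ (-c)))))) := by linarith
    _ = _ := by ring

end H389NS
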