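import Pool.Agent.H389R2.NS.Defs

/-! Deterministic edges. -/

set_option autoImplicit false

namespace H389NS

open H974 H12S Finset

variable {E : Type*} [DecidableEq E]

theorem env_zero {p : E → ℝ} {C : Finset E} (hC : ∀ e ∈ C, p e = 0) (g : Finset E → ℝ) :
    Ex p C g = g ∅ := by
  induction C using Finset.induction_on with
  | empty => rw [Ex_empty]
  | insert a C ha ih =>
    rw [Ex_insert p ha, hC a (Finset.mem_insert_self a C),
      ih (fun e he => hC e (Finset.mem_insert_of_mem he))]
    ring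

theorem env_one {p : E → ℝ} {O : Finset E} (hO : ∀ e ∈ O, p e = 1) (g : Finset E → ℝ) :
    Ex p O g = g O := by
  induction O using Finset.induction_on generalizing g with
  | empty => rw [Ex_empty]
  | insert a O ha ih =>
    rw [Ex_insert p ha, hO a (Finset.mem_insert_self a O),
      ih (fun e he => hO e (Finset.mem_insert_of_mem he))]
    ring

theorem env_param {p q : E → ℝ} {S : Finset E} (h : ∀ e ∈ S, p e = q e) (f : Finset E → ℝ) :
    Ex p S f = Ex q S f := by
  unfold Ex
  apply Finset.sum_congr rfl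
  intro F hF
  have hFS := Finset.mem_powerset.mp hF
  have h1 : ∏ e ∈ F, p e = ∏ e ∈ F, q e := Finset.prod_congr rfl (fun e he => h e (hFS he))
  have h2 : ∏ e ∈ S \ F, (1 - p e) = ∏ e ∈ S \ F, (1 - q e) :=
    Finset.prod_congr rfl (fun e he => by rw [h e (Finset.mem_sdiff.1 he).1])
  rw [h1, h2]

/-- EN: deterministic edges can be removed. -/
theorem sp_env {p : E → ℝ} {S R O V : Finset E} (hRO : Disjoint R O) (hS : R ∪ O ⊆ S)
    (hR : ∀ e ∈ R, p e = 1 / 2) (hO : ∀ e ∈ O, p e = 1) (hC : ∀ e ∈ S \ (R ∪ O), p e = 0)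
    (hV : V ⊆ R) (f : Finset E → ℝ) (T : Finset E) :
    sp p S V f T = sp hp R V (fun F => f (F ∪ O)) T := by
  have hsplit : S \ V = (R \ V) ∪ (O ∪ (S \ (R ∪ O))) := by
    ext x
    have h1 : x ∈ V → x ∈ R := fun h => hV h
    have h2 : x ∈ R → x ∉ O := fun h h' => (Finset.disjoint_left.1 hRO) h h'
    have h3 : x ∈ R ∨ x ∈ O → x ∈ S := fun h => hS (Finset.mem_union.2 h)
    simp only [Finset.mem_sdiff, Finset.mem_union]
    tauto
  have hd1 : Disjoint (R \ V) (O ∪ (S \ (R ∪ O))) := by
    rw [Finset.disjoint_left]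
    intro x hx hx'
    have h2 : x ∈ R → x ∉ O := fun h h' => (Finset.disjoint_left.1 hRO) h h'
    simp only [Finset.mem_sdiff, Finset.mem_union] at hx hx'
    tauto
  have hd2 : Disjoint O (S \ (R ∪ O)) := by
    rw [Finset.disjoint_left]
    intro x hx hx'
    simp only [Finset.mem_sdiff, Finset.mem_union] at hx'
    tauto
  unfold sp
  rw [hsplit, Ex_union hd1, env_param (q := hp) (fun e he => hR e (Finset.mem_sdiff.1 he).1)]
  apply Ex_congr
  intro A _
  rw [Ex_union hd2, env_one hO, env_zero hC]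
  simp only [Finset.union_empty]
  have h1 : (fun Y => f (A ∪ O ∪ Y)) = fun Y => f (A ∪ Y ∪ O) := by
    funext Y
    rw [Finset.union_right_comm]
  rw [h1]

end H389NS
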