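import Pool.Agent.H389R2.NS.Defs
import Pool.Agent.H12R2.Sep.Defs5
import Pool.Agent.H12R2.Sep.InD
import Pool.Agent.H12R2.Sep.Ext1
import Pool.Agent.H12R2.Sep.Ext2

/-! Exterior exit lemma, inhomogeneous measure. -/

set_option autoImplicit false

namespace H389NS

open H974 H12S Finset

/-- Union bound. -/
theorem I5_biUnion {w : Edg → ℝ} (hw : Ok w) {ι : Type*} (S : Finset Edg) (T : Finset ι)
    (A : ι → Finset Edg → Prop) :
    Pr w S (fun F => ∃ i ∈ T, A i F) ≤ ∑ i ∈ T, Pr w S (A i) := by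
  classical
  induction T using Finset.induction_on with
  | empty =>
    simp only [Finset.notMem_empty, false_and, exists_false, Finset.sum_empty]
    have := Pr_true (p := w) S (A := fun _ => True) (fun _ _ => trivial)
    have h2 := Pr_not (p := w) S (fun _ => True)
    simp only [not_true_eq_false] at h2
    rw [this] at h2
    linarith
  | insert a T ha ih =>
    rw [Finset.sum_insert ha]
    refine le_trans (Pr_mono hw (B := fun F => A a F ∨ ∃ i ∈ T, A i F) ?_)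
      ((Pr_or_le hw S _ _).trans (add_le_add le_rfl ih))
    rintro F _ ⟨i, hi, hA⟩
    rcases Finset.mem_insert.mp hi with rfl | hi
    · exact Or.inl hA
    · exact Or.inr ⟨i, hi, hA⟩

theorem I5_congr {w v : Edg → ℝ} {S : Finset Edg} (h : ∀ e ∈ S, w e = v e)
    (A : Finset Edg → Prop) : Pr w S A = Pr v S A := by
  unfold Pr Ex
  apply Finset.sum_congr rfl
  intro F hF
  rw [Finset.mem_powerset] at hF
  have h1 : ∏ e ∈ F, w e = ∏ e ∈ F, v e := Finset.prod_congr rfl (fun e he => h e (hF he))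
  have h2 : ∏ e ∈ S \ F, (1 - w e) = ∏ e ∈ S \ F, (1 - v e) :=
    Finset.prod_congr rfl (fun e he => by rw [h e (Finset.mem_sdiff.mp he).1])
  rw [h1, h2]

theorem I5_loc {w : Edg → ℝ} {q : ℝ} {S B : Finset Edg} (hB : B ⊆ S) (hq : ∀ e ∈ B, w e = q)
    {X : Finset Edg → Prop} (hX : ∀ F, X F ↔ X (F ∩ B)) : Pr w S X = PQ q S X := by
  have h1 : Pr w S X = Pr w B X := Pr_local hB fun F _ => hX F
  have h2 : PQ q S X = PQ q B X := Pr_local hB fun F _ => hX F
  rw [h1, h2]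
  exact I5_congr hq X

theorem I5_term_le {w : Edg → ℝ} (hw : Ok w) {q : ℝ} {S B : Finset Edg} (hB : B ⊆ S)
    (hq : ∀ e ∈ B, w e = q) {I J : Set Vtx} {X : Finset Edg → Prop}
    (hX : ∀ F, X F ↔ X (F ∩ B)) {a : ℝ} (ha : PQ q S X ≤ a) :
    Pr w S (fun F => BPv I J B ↑F ∧ X F) ≤ a * Pr w S (fun F => BPv I J B ↑F) := by
  have h1 : Pr w S (fun F => BPv I J B ↑F ∧ X F) = Pr w S (fun F => BPv I J B ↑F) * Pr w S X :=
    Pr_indep Finset.sdiff_subset hB Finset.sdiff_disjoint (fun _ hF => XP.BPv_loc hF)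
      (fun F _ => hX F)
  rw [h1, mul_comm, I5_loc hB hq hX]
  exact mul_le_mul_of_nonneg_right ha (Pr_nonneg hw _ _)

open XP in
/-- EXT_p: exterior exit lemma (cf. the hypothesis `hext` of `H12S.inward_of`, proved in `Ext1`,
`Ext2`). -/
theorem ext_p (κ : ℝ) (hκ : 0 < κ) :
    ∃ C c0 : ℝ, 0 < C ∧ 0 < c0 ∧ ∀ (q : ℝ) (n : ℕ),
    Win q κ n → ∀ (c : ℤ × ℤ) (s r ρ1 ρ2 : ℕ), 1 ≤ r → 8 * r ≤ ρ1 → 64 * ρ1 ≤ ρ2 → 64 * ρ2 ≤ s →
      s ≤ n → ∀ (p : Edg → ℝ) (S : Finset Edg) (I J : Set Vtx), Ok p → blk c (3 * s) ⊆ S →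
      (∀ e ∈ blk c (3 * s), p e = q) → FarS (I ∪ J) c (3 * s) →
      Pr p S (fun F => BPv I J (boI c s) ↑F) ≤
        (∑ d : Dir, ∑ d' : Dir, ∑ k ∈ Icc (-(s / r : ℕ) : ℤ) (s / r : ℕ),
          ∑ k' ∈ Icc (-(s / r : ℕ) : ℤ) (s / r : ℕ),
            Pr p S (fun F => ESev I J c s r ρ1 ρ2 d k d' k' ((↑F : Set Edg) \ ↑(boI c s)))) +
        C * (((ρ2:ℝ) / s) ^ c0 + ((s:ℝ) / ρ1) * ((ρ1:ℝ) / ρ2) ^ (1 + c0) +
          ((s:ℝ) / r) * ((r:ℝ) / ρ1) ^ (1 + c0)) *
          Pr p S (fun F => BPv I J (blk c (3 * s)) ↑F) := by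
  obtain ⟨Ca, ca, hCa, hca, HA⟩ := win_arm_of
    (fun {q κ n} h {m} hm hmn c1 c2 S => win_blk h hm hmn c1 c2 S) κ hκ
  obtain ⟨Ch, ch, hCh, hch, HH⟩ := H4_bound κ hκ
  refine ⟨4 * Ca * 16 ^ ca + 12 * Ch + 12 * Ch * 8 ^ (1 + ch), min ca ch, by positivity,
    lt_min hca hch, ?_⟩
  intro q n hW c s r ρ1 ρ2 hr h8 h64 hs hsn w S I J hw hS hwq hI
  obtain ⟨h0, h1⟩ := win01 hW
  set B := blk c (3 * s) with hB
  set P := Pr w S (fun F => BPv I J B ↑F) with hP
  have hP0 : 0 ≤ P := Pr_nonneg hw _ _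
  set c0 := min ca ch with hc0
  have hc0a : c0 ≤ ca := min_le_left _ _
  have hc0h : c0 ≤ ch := min_le_right _ _
  have hc0p : 0 < c0 := lt_min hca hch
  -- the index sets
  set IK := Icc (-(s / r : ℕ) : ℤ) (s / r : ℕ) with hIK
  set IK2 := Icc (-(s / ρ1 : ℕ) : ℤ) (s / ρ1 : ℕ) with hIK2
  set CO : Finset (ℤ × ℤ) := {c.1 + s, c.1 - s} ×ˢ {c.2 + s, c.2 - s} with hCO
  set D1 : Finset (Dir × ℤ) := ((univ : Finset Dir) ×ˢ IK).filter
    (fun p => |2 * (r:ℤ) * p.2| ≤ s) with hD1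
  set D2 : Finset (Dir × ℤ) := ((univ : Finset Dir) ×ˢ IK2).filter
    (fun p => |4 * (ρ1:ℤ) * p.2| ≤ s) with hD2
  have key : Pr w S (fun F => BPv I J (boI c s) ↑F) ≤
      Pr w S (fun F => (∃ d ∈ (univ : Finset Dir), ∃ d' ∈ (univ : Finset Dir), ∃ k ∈ IK, ∃ k' ∈ IK,
        ESev I J c s r ρ1 ρ2 d k d' k' ((↑F : Set Edg) \ ↑(boI c s))) ∨
        ((∃ p ∈ CO, BPv I J B ↑F ∧ Crs p.1 p.2 (4 * ρ2) (s / 2) (↑(F ∩ B) : Set Edg)) ∨
        ((∃ p ∈ D1, BPv I J B ↑F ∧ H4 p.1 (cenB c s p.1 (2 * r * p.2)).1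
          (cenB c s p.1 (2 * r * p.2)).2 r ρ1 (↑F : Set Edg)) ∨
        (∃ p ∈ D2, BPv I J B ↑F ∧ H4 p.1 (cenB c s p.1 (4 * ρ1 * p.2)).1
          (cenB c s p.1 (4 * ρ1 * p.2)).2 (8 * ρ1) ρ2 (↑F : Set Edg))))) := by
    apply Pr_mono hw
    intro F _ hF
    have hFB : BPv I J B (↑F : Set Edg) := BPv_up (boI_sub (by omega)) hF
    by_cases b0 : ∃ p ∈ CO, Crs p.1 p.2 (4 * ρ2) (s / 2) (↑(F ∩ B) : Set Edg)
    · obtain ⟨p, hp, hp2⟩ := b0
      exact Or.inr (Or.inl ⟨p, hp, hFB, hp2⟩)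
    by_cases b1 : ∃ p ∈ D1, H4 p.1 (cenB c s p.1 (2 * r * p.2)).1
          (cenB c s p.1 (2 * r * p.2)).2 r ρ1 (↑F : Set Edg)
    · obtain ⟨p, hp, hp2⟩ := b1
      exact Or.inr (Or.inr (Or.inl ⟨p, hp, hFB, hp2⟩))
    by_cases b2 : ∃ p ∈ D2, H4 p.1 (cenB c s p.1 (4 * ρ1 * p.2)).1
          (cenB c s p.1 (4 * ρ1 * p.2)).2 (8 * ρ1) ρ2 (↑F : Set Edg)
    · obtain ⟨p, hp, hp2⟩ := b2
      exact Or.inr (Or.inr (Or.inr ⟨p, hp, hFB, hp2⟩))
    left
    push Not at b0 b1 b2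
    obtain ⟨d, k, d', k', hE⟩ := ext_det hr h8 h64 hs (I := I) (J := J) (c := c)
      (F := (↑F : Set Edg) \ ↑(boI c s))
      (by
        intro v hv
        have := hI v hv
        push_cast at this ⊢
        omega)
      Set.disjoint_sdiff_left (by rw [Set.sdiff_union_self]; exact hF.1) hF.2 (by
        intro x y hx hy hC
        have hmem : (x, y) ∈ CO := by
          rw [hCO, Finset.mem_product]
          simp only [Finset.mem_insert, Finset.mem_singleton]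
          exact ⟨hx, hy⟩
        apply b0 (x, y) hmem
        rw [Finset.coe_inter]
        apply BS_crs_mono (F := ((↑F : Set Edg) \ ↑(boI c s)) ∩ ↑B)
        · exact Set.inter_subset_inter_left _ Set.sdiff_subset
        · apply crs_loc (by omega) _ hC
          rw [hB]
          unfold blk
          apply RE_subset <;> push_cast <;> omega) (by
        intro d k hk hC
        refine b1 (d, k) ?_ ((H4_ext F).1 hC)
        rw [hD1, Finset.mem_filter, Finset.mem_product]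
        refine ⟨⟨Finset.mem_univ _, ?_⟩, hk⟩
        exact mem_range hr (a := 2 * r) (by omega) (by push_cast; exact hk)) (by
        intro d k hk hC
        refine b2 (d, k) ?_ ((H4_ext F).1 hC)
        rw [hD2, Finset.mem_filter, Finset.mem_product]
        refine ⟨⟨Finset.mem_univ _, ?_⟩, hk⟩
        exact mem_range (by omega) (a := 4 * ρ1) (by omega) (by push_cast; exact hk))
    have hk1 : k ∈ IK := by
      have := hE.1.1
      refine mem_range hr (a := 2 * r) (by omega) ?_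
      push_cast
      omega
    have hk2 : k' ∈ IK := by
      have := hE.1.2
      refine mem_range hr (a := 2 * r) (by omega) ?_
      push_cast
      omega
    exact ⟨d, Finset.mem_univ _, d', Finset.mem_univ _, k, hk1, k', hk2, hE⟩
  refine key.trans ((Pr_or_le hw S _ _).trans (add_le_add ?_ ?_))
  · refine (I5_biUnion hw S univ _).trans (Finset.sum_le_sum fun d _ => ?_)
    refine (I5_biUnion hw S univ _).trans (Finset.sum_le_sum fun d' _ => ?_)
    refine (I5_biUnion hw S IK _).trans (Finset.sum_le_sum fun k _ => ?_)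
    exact I5_biUnion hw S IK _
  · -- numbers
    have hr0 : (0 : ℝ) < r := by exact_mod_cast hr
    have hρ10 : (0 : ℝ) < ρ1 := by exact_mod_cast (by omega : 0 < ρ1)
    have hρ20 : (0 : ℝ) < ρ2 := by exact_mod_cast (by omega : 0 < ρ2)
    have hs0 : (0 : ℝ) < s := by exact_mod_cast (by omega : 0 < s)
    have h8r : 8 * (r:ℝ) ≤ ρ1 := by exact_mod_cast h8
    have h64r : 64 * (ρ1:ℝ) ≤ ρ2 := by exact_mod_cast h64
    have hsr : 64 * (ρ2:ℝ) ≤ s := by exact_mod_cast hs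
    -- corners
    have T0 : Pr w S (fun F => ∃ p ∈ CO, BPv I J B ↑F ∧
        Crs p.1 p.2 (4 * ρ2) (s / 2) (↑(F ∩ B) : Set Edg)) ≤
        (4 * Ca * 16 ^ ca * ((ρ2:ℝ) / s) ^ c0) * P := by
      have hone : ∀ p ∈ CO, Pr w S (fun F => BPv I J B ↑F ∧
          Crs p.1 p.2 (4 * ρ2) (s / 2) (↑(F ∩ B) : Set Edg)) ≤
          (Ca * 16 ^ ca * ((ρ2:ℝ) / s) ^ c0) * P := by
        intro p _
        apply I5_term_le hw hS hwq
        · intro F
          rw [Finset.inter_assoc, Finset.inter_self]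
        · have e1 : PQ q S (fun F => Crs p.1 p.2 (4 * ρ2) (s / 2) (↑(F ∩ B) : Set Edg)) ≤
              PQ q S (fun F => Crs p.1 p.2 (4 * ρ2) (s / 2) (↑F : Set Edg)) := by
            apply Pr_mono (okq h0 h1)
            intro F _ hF
            exact BS_crs_mono (by rw [Finset.coe_inter]; exact Set.inter_subset_left) hF
          have e2 := (HA q n hW (4 * ρ2) (s / 2) (by omega) (by omega) (by omega) p.1 p.2 S).1
          refine (e1.trans e2).trans ?_
          have hs2 : (0 : ℝ) < ((s / 2 : ℕ) : ℝ) := by exact_mod_cast (by omega : 0 < s / 2)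
          have hs4 : (s:ℝ) / 4 ≤ ((s / 2 : ℕ) : ℝ) := by
            have h5 : s ≤ 4 * (s / 2) := by omega
            have h6 : (s:ℝ) ≤ 4 * ((s / 2 : ℕ) : ℝ) := by exact_mod_cast h5
            linarith
          have e3 : ((4 * ρ2 : ℕ) : ℝ) / ((s / 2 : ℕ) : ℝ) ≤ 16 * ((ρ2:ℝ) / s) := by
            rw [div_le_iff₀ hs2]
            push_cast
            calc 4 * (ρ2:ℝ) = 16 * ((ρ2:ℝ) / s) * (s / 4) := by field_simp; norm_num
              _ ≤ 16 * ((ρ2:ℝ) / s) * ((s / 2 : ℕ) : ℝ) :=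
                mul_le_mul_of_nonneg_left hs4 (by positivity)
          have e4 : (((4 * ρ2 : ℕ) : ℝ) / ((s / 2 : ℕ) : ℝ)) ^ ca ≤
              16 ^ ca * ((ρ2:ℝ) / s) ^ c0 := by
            calc (((4 * ρ2 : ℕ) : ℝ) / ((s / 2 : ℕ) : ℝ)) ^ ca ≤ (16 * ((ρ2:ℝ) / s)) ^ ca :=
                  Real.rpow_le_rpow (by positivity) e3 hca.le
              _ = 16 ^ ca * ((ρ2:ℝ) / s) ^ ca := Real.mul_rpow (by norm_num) (by positivity)
              _ ≤ 16 ^ ca * ((ρ2:ℝ) / s) ^ c0 := by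
                apply mul_le_mul_of_nonneg_left _ (by positivity)
                apply Real.rpow_le_rpow_of_exponent_ge (by positivity) _ hc0a
                rw [div_le_one hs0]
                linarith
          calc Ca * (((4 * ρ2 : ℕ) : ℝ) / ((s / 2 : ℕ) : ℝ)) ^ ca
              ≤ Ca * (16 ^ ca * ((ρ2:ℝ) / s) ^ c0) := mul_le_mul_of_nonneg_left e4 hCa.le
            _ = _ := by ring
      have hcard : (CO.card : ℝ) ≤ 4 := by
        have : CO.card ≤ 4 := by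
          rw [hCO, Finset.card_product]
          calc _ ≤ 2 * 2 := Nat.mul_le_mul Finset.card_le_two Finset.card_le_two
            _ = 4 := rfl
        exact_mod_cast this
      refine (I5_biUnion hw S CO _).trans ((Finset.sum_le_sum hone).trans ?_)
      rw [Finset.sum_const, nsmul_eq_mul]
      have hnn : 0 ≤ (Ca * 16 ^ ca * ((ρ2:ℝ) / s) ^ c0) * P := by positivity
      calc (CO.card : ℝ) * ((Ca * 16 ^ ca * ((ρ2:ℝ) / s) ^ c0) * P)
          ≤ 4 * ((Ca * 16 ^ ca * ((ρ2:ℝ) / s) ^ c0) * P) := mul_le_mul_of_nonneg_right hcard hnn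
        _ = _ := by ring
    have hdir : ((univ : Finset Dir).card : ℝ) = 4 := by
      have : (univ : Finset Dir).card = 4 := rfl
      rw [this]
      norm_num
    -- small cells
    have T1 : Pr w S (fun F => ∃ p ∈ D1, BPv I J B ↑F ∧ H4 p.1 (cenB c s p.1 (2 * r * p.2)).1
          (cenB c s p.1 (2 * r * p.2)).2 r ρ1 (↑F : Set Edg)) ≤
        (12 * Ch * (((s:ℝ) / r) * ((r:ℝ) / ρ1) ^ (1 + c0))) * P := by
      have hone : ∀ p ∈ D1, Pr w S (fun F => BPv I J B ↑F ∧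
          H4 p.1 (cenB c s p.1 (2 * r * p.2)).1 (cenB c s p.1 (2 * r * p.2)).2 r ρ1
            (↑F : Set Edg)) ≤ (Ch * ((r:ℝ) / ρ1) ^ (1 + c0)) * P := by
        intro p hp
        have hp2 := (Finset.mem_filter.1 hp).2
        have hsub : hbE p.1 (cenB c s p.1 (2 * r * p.2)).1 (cenB c s p.1 (2 * r * p.2)).2 ρ1 ⊆ B :=
          hbE_sub hp2 (by omega)
        apply I5_term_le hw hS hwq (fun F => H4_loc hsub F)
        refine (HH q n hW r ρ1 hr (by omega) (by omega) _ _ _ S (hsub.trans hS)).trans ?_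
        apply mul_le_mul_of_nonneg_left _ hCh.le
        apply Real.rpow_le_rpow_of_exponent_ge (by positivity) _ (by linarith)
        rw [div_le_one hρ10]
        linarith
      have hcard : (D1.card : ℝ) ≤ 12 * ((s:ℝ) / r) := by
        have e1 : D1.card ≤ (univ : Finset Dir).card * IK.card := by
          rw [← Finset.card_product]
          exact Finset.card_filter_le _ _
        have e2 : (D1.card : ℝ) ≤ ((univ : Finset Dir).card : ℝ) * (IK.card : ℝ) := by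
          exact_mod_cast e1
        have e3 := card_range hr (s := s) (by omega)
        rw [hdir] at e2
        linarith
      refine (I5_biUnion hw S D1 _).trans ((Finset.sum_le_sum hone).trans ?_)
      rw [Finset.sum_const, nsmul_eq_mul]
      have hnn : 0 ≤ (Ch * ((r:ℝ) / ρ1) ^ (1 + c0)) * P := by positivity
      calc (D1.card : ℝ) * ((Ch * ((r:ℝ) / ρ1) ^ (1 + c0)) * P)
          ≤ (12 * ((s:ℝ) / r)) * ((Ch * ((r:ℝ) / ρ1) ^ (1 + c0)) * P) :=
            mul_le_mul_of_nonneg_right hcard hnn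
        _ = _ := by ring
    -- large cells
    have T2 : Pr w S (fun F => ∃ p ∈ D2, BPv I J B ↑F ∧ H4 p.1 (cenB c s p.1 (4 * ρ1 * p.2)).1
          (cenB c s p.1 (4 * ρ1 * p.2)).2 (8 * ρ1) ρ2 (↑F : Set Edg)) ≤
        (12 * Ch * 8 ^ (1 + ch) * (((s:ℝ) / ρ1) * ((ρ1:ℝ) / ρ2) ^ (1 + c0))) * P := by
      have hone : ∀ p ∈ D2, Pr w S (fun F => BPv I J B ↑F ∧
          H4 p.1 (cenB c s p.1 (4 * ρ1 * p.2)).1 (cenB c s p.1 (4 * ρ1 * p.2)).2 (8 * ρ1) ρ2
            (↑F : Set Edg)) ≤ (Ch * 8 ^ (1 + ch) * ((ρ1:ℝ) / ρ2) ^ (1 + c0)) * P := by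
        intro p hp
        have hp2 := (Finset.mem_filter.1 hp).2
        have hsub : hbE p.1 (cenB c s p.1 (4 * ρ1 * p.2)).1 (cenB c s p.1 (4 * ρ1 * p.2)).2 ρ2 ⊆
          B := hbE_sub hp2 (by omega)
        apply I5_term_le hw hS hwq (fun F => H4_loc hsub F)
        refine (HH q n hW (8 * ρ1) ρ2 (by omega) (by omega) (by omega) _ _ _ S
          (hsub.trans hS)).trans ?_
        have e1 : ((8 * ρ1 : ℕ) : ℝ) / (ρ2:ℝ) = 8 * ((ρ1:ℝ) / ρ2) := by
          push_cast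
          ring
        rw [e1, Real.mul_rpow (by norm_num) (by positivity)]
        have e2 : ((ρ1:ℝ) / ρ2) ^ (1 + ch) ≤ ((ρ1:ℝ) / ρ2) ^ (1 + c0) := by
          apply Real.rpow_le_rpow_of_exponent_ge (by positivity) _ (by linarith)
          rw [div_le_one hρ20]
          linarith
        calc Ch * (8 ^ (1 + ch) * ((ρ1:ℝ) / ρ2) ^ (1 + ch))
            ≤ Ch * (8 ^ (1 + ch) * ((ρ1:ℝ) / ρ2) ^ (1 + c0)) := by
              apply mul_le_mul_of_nonneg_left _ hCh.le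
              exact mul_le_mul_of_nonneg_left e2 (by positivity)
          _ = _ := by ring
      have hcard : (D2.card : ℝ) ≤ 12 * ((s:ℝ) / ρ1) := by
        have e1 : D2.card ≤ (univ : Finset Dir).card * IK2.card := by
          rw [← Finset.card_product]
          exact Finset.card_filter_le _ _
        have e2 : (D2.card : ℝ) ≤ ((univ : Finset Dir).card : ℝ) * (IK2.card : ℝ) := by
          exact_mod_cast e1
        have e3 := card_range (r := ρ1) (by omega) (s := s) (by omega)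
        rw [hdir] at e2
        linarith
      refine (I5_biUnion hw S D2 _).trans ((Finset.sum_le_sum hone).trans ?_)
      rw [Finset.sum_const, nsmul_eq_mul]
      have hnn : 0 ≤ (Ch * 8 ^ (1 + ch) * ((ρ1:ℝ) / ρ2) ^ (1 + c0)) * P := by positivity
      calc (D2.card : ℝ) * ((Ch * 8 ^ (1 + ch) * ((ρ1:ℝ) / ρ2) ^ (1 + c0)) * P)
          ≤ (12 * ((s:ℝ) / ρ1)) * ((Ch * 8 ^ (1 + ch) * ((ρ1:ℝ) / ρ2) ^ (1 + c0)) * P) :=
            mul_le_mul_of_nonneg_right hcard hnn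
        _ = _ := by ring
    refine (Pr_or_le hw S _ _).trans ?_
    refine (add_le_add T0 (Pr_or_le hw S _ _)).trans ?_
    refine (add_le_add le_rfl (add_le_add T1 T2)).trans ?_
    set X0 := ((ρ2:ℝ) / s) ^ c0 with hX0
    set X1 := ((s:ℝ) / r) * ((r:ℝ) / ρ1) ^ (1 + c0) with hX1
    set X2 := ((s:ℝ) / ρ1) * ((ρ1:ℝ) / ρ2) ^ (1 + c0) with hX2
    have p0 : 0 ≤ X0 := by positivity
    have p1 : 0 ≤ X1 := by positivity
    have p2 : 0 ≤ X2 := by positivity
    set A0 := 4 * Ca * 16 ^ ca with hA0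
    set A1 := 12 * Ch with hA1
    set A2 := 12 * Ch * 8 ^ (1 + ch) with hA2
    have a0 : 0 ≤ A0 := by positivity
    have a1 : 0 ≤ A1 := by positivity
    have a2 : 0 ≤ A2 := by positivity
    have hfin : A0 * X0 + (A1 * X1 + A2 * X2) ≤ (A0 + A1 + A2) * (X0 + X2 + X1) := by
      have e : (A0 + A1 + A2) * (X0 + X2 + X1) - (A0 * X0 + (A1 * X1 + A2 * X2)) =
        A0 * X2 + A0 * X1 + A1 * X0 + A1 * X2 + A2 * X0 + A2 * X1 := by ring
      have : 0 ≤ A0 * X2 + A0 * X1 + A1 * X0 + A1 * X2 + A2 * X0 + A2 * X1 := by positivity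
      linarith
    calc A0 * X0 * P + (A1 * X1 * P + A2 * X2 * P) = (A0 * X0 + (A1 * X1 + A2 * X2)) * P := by ring
      _ ≤ (A0 + A1 + A2) * (X0 + X2 + X1) * P := mul_le_mul_of_nonneg_right hfin hP0

end H389NS
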