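import Pool.Agent.H389R2.NS.Defs
import Pool.Agent.H985R3.TA.Crit

/-! Dynamical percolation: definitions. -/

set_option autoImplicit false

namespace H389NS

open H974 H12S H985T Finset MeasureTheory

/-- Dynamical percolation at the parameter `1/2`: every edge is refreshed at rate `1` by an
independent fair coin; the process is characterised by its finite-dimensional distributions and
the regularity of the paths. -/
structure IsDP {Ω : Type*} [MeasurableSpace Ω] (μ : Measure Ω) (ω : ℝ → Ω → Edg → Bool) :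
    Prop where
  meas : ∀ (t : ℝ) (x : Edg), Measurable (fun w => ω t w x)
  fdd : ∀ (F : Finset Edg) (n : ℕ) (t : Fin (n + 1) → ℝ) (a : Edg → Fin (n + 1) → Bool),
      0 ≤ t 0 → Monotone t →
      μ {w | ∀ x ∈ F, ∀ i, ω (t i) w x = a x i} =
        ENNReal.ofReal (∏ x ∈ F, ((1 / 2 : ℝ) * ∏ i : Fin n,
          (if a x i.castSucc = a x i.succ
            then (1 + Real.exp (-(t i.succ - t i.castSucc))) / 2
            else (1 - Real.exp (-(t i.succ - t i.castSucc))) / 2)))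
  cadlag : ∀ᵐ w ∂μ, ∀ x : Edg,
      (∀ t : ℝ, 0 ≤ t → ∃ ε > 0, ∀ s : ℝ, t ≤ s → s < t + ε → ω s w x = ω t w x) ∧
      (∀ t : ℝ, 0 < t → ∃ ε > 0, ε ≤ t ∧ ∀ s s' : ℝ,
        t - ε < s → s < t → t - ε < s' → s' < t → ω s w x = ω s' w x)

/-- Open edges at time `t`. -/
def opE {Ω : Type*} (ω : ℝ → Ω → Edg → Bool) (t : ℝ) (w : Ω) : Set Edg := {e | ω t w e = true}

/-- Open edges just before time `t`. -/
def opL {Ω : Type*} (ω : ℝ → Ω → Edg → Bool) (t : ℝ) (w : Ω) : Set Edg :=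
  {e | ∃ ε > 0, ∀ s : ℝ, t - ε < s → s < t → ω s w e = true}

/-- Some dyadic time of `[0,1)` with the two arms. -/
def VV {Ω : Type*} (ω : ℝ → Ω → Edg → Bool) (a R : ℕ) : Set Ω :=
  {w | ∃ n i : ℕ, i < 2 ^ n ∧ AA a R (opE ω ((i:ℝ) / 2 ^ n) w)}

end H389NS
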