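import Pool.Agent.H389R2.NS.Defs

/-! Pairs of correlated configurations. -/

set_option autoImplicit false

namespace H389NS

open H974 H12S Finset

variable {E : Type*} [DecidableEq E]

noncomputable def A6_ker (r : ℝ) (P Q : Prop) : ℝ := by
  classical exact if (P ↔ Q) then (1 + r) / 4 else (1 - r) / 4

theorem A6_ker_iff {r : ℝ} {P Q : Prop} (h : P ↔ Q) : A6_ker r P Q = (1 + r) / 4 := by
  simp [A6_ker, h]

theorem A6_ker_not {r : ℝ} {P Q : Prop} (h : ¬ (P ↔ Q)) : A6_ker r P Q = (1 - r) / 4 := by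
  simp [A6_ker, h]

theorem A6_ker_comm (r : ℝ) (P Q : Prop) : A6_ker r P Q = A6_ker r Q P := by
  by_cases h : P ↔ Q
  · rw [A6_ker_iff h, A6_ker_iff h.symm]
  · rw [A6_ker_not h, A6_ker_not (fun h' => h h'.symm)]

theorem A6_ker_nonneg {r : ℝ} (P Q : Prop) (h : 0 ≤ r ∧ r ≤ 1) : 0 ≤ A6_ker r P Q := by
  by_cases hP : P ↔ Q
  · rw [A6_ker_iff hP]; linarith [h.1]
  · rw [A6_ker_not hP]; linarith [h.2]

theorem A6_ker_congr {r : ℝ} {P Q P' Q' : Prop} (h : P ↔ P') (h' : Q ↔ Q') :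
    A6_ker r P Q = A6_ker r P' Q' := by
  rw [propext h, propext h']

theorem A6_E2 (ρ : E → ℝ) (S : Finset E) (h : Finset E → Finset E → ℝ) :
    E2 ρ S h = ∑ F ∈ S.powerset, ∑ F' ∈ S.powerset,
      (∏ e ∈ S, A6_ker (ρ e) (e ∈ F) (e ∈ F')) * h F F' := by
  unfold E2
  apply Finset.sum_congr rfl
  intro F _
  apply Finset.sum_congr rfl
  intro F' _
  congr 1
  apply Finset.prod_congr rfl
  intro e _
  by_cases hP : (e ∈ F ↔ e ∈ F')
  · rw [A6_ker_iff hP, if_pos hP]
  · rw [A6_ker_not hP, if_neg hP]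

theorem A6_empty (ρ : E → ℝ) (h : Finset E → Finset E → ℝ) : E2 ρ ∅ h = h ∅ ∅ := by
  rw [A6_E2]; simp

theorem A6_insert (ρ : E → ℝ) {a : E} {S : Finset E} (ha : a ∉ S)
    (h : Finset E → Finset E → ℝ) :
    E2 ρ (insert a S) h =
      (1 + ρ a) / 4 * (E2 ρ S (fun F F' => h (insert a F) (insert a F')) + E2 ρ S h)
      + (1 - ρ a) / 4 * (E2 ρ S (fun F F' => h (insert a F) F')
        + E2 ρ S (fun F F' => h F (insert a F'))) := by
  simp only [A6_E2]
  rw [Finset.sum_powerset_insert ha]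
  have e1 : ∀ F ∈ S.powerset, ∑ F' ∈ (insert a S).powerset,
      (∏ e ∈ insert a S, A6_ker (ρ e) (e ∈ F) (e ∈ F')) * h F F'
      = (1 + ρ a) / 4 * (∑ F' ∈ S.powerset, (∏ e ∈ S, A6_ker (ρ e) (e ∈ F) (e ∈ F')) * h F F')
      + (1 - ρ a) / 4 * (∑ F' ∈ S.powerset, (∏ e ∈ S, A6_ker (ρ e) (e ∈ F) (e ∈ F'))
          * h F (insert a F')) := by
    intro F hF
    have haF : a ∉ F := fun h => ha (Finset.mem_powerset.mp hF h)
    rw [Finset.sum_powerset_insert ha, Finset.mul_sum, Finset.mul_sum]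
    congr 1
    · apply Finset.sum_congr rfl
      intro F' hF'
      have haF' : a ∉ F' := fun h => ha (Finset.mem_powerset.mp hF' h)
      rw [Finset.prod_insert ha, A6_ker_iff (by simp [haF, haF'])]
      ring
    · apply Finset.sum_congr rfl
      intro F' hF'
      rw [Finset.prod_insert ha, A6_ker_not (by simp [haF])]
      have : ∏ e ∈ S, A6_ker (ρ e) (e ∈ F) (e ∈ insert a F')
          = ∏ e ∈ S, A6_ker (ρ e) (e ∈ F) (e ∈ F') := by
        apply Finset.prod_congr rfl
        intro e he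
        have hea : e ≠ a := fun h => ha (h ▸ he)
        exact A6_ker_congr Iff.rfl (by simp [hea])
      rw [this]
      ring
  have e2 : ∀ F ∈ S.powerset, ∑ F' ∈ (insert a S).powerset,
      (∏ e ∈ insert a S, A6_ker (ρ e) (e ∈ insert a F) (e ∈ F')) * h (insert a F) F'
      = (1 - ρ a) / 4 * (∑ F' ∈ S.powerset, (∏ e ∈ S, A6_ker (ρ e) (e ∈ F) (e ∈ F'))
          * h (insert a F) F')
      + (1 + ρ a) / 4 * (∑ F' ∈ S.powerset, (∏ e ∈ S, A6_ker (ρ e) (e ∈ F) (e ∈ F'))
          * h (insert a F) (insert a F')) := by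
    intro F hF
    rw [Finset.sum_powerset_insert ha, Finset.mul_sum, Finset.mul_sum]
    congr 1
    · apply Finset.sum_congr rfl
      intro F' hF'
      have haF' : a ∉ F' := fun h => ha (Finset.mem_powerset.mp hF' h)
      rw [Finset.prod_insert ha, A6_ker_not (by simp [haF'])]
      have : ∏ e ∈ S, A6_ker (ρ e) (e ∈ insert a F) (e ∈ F')
          = ∏ e ∈ S, A6_ker (ρ e) (e ∈ F) (e ∈ F') := by
        apply Finset.prod_congr rfl
        intro e he
        have hea : e ≠ a := fun h => ha (h ▸ he)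
        exact A6_ker_congr (by simp [hea]) Iff.rfl
      rw [this]
      ring
    · apply Finset.sum_congr rfl
      intro F' hF'
      rw [Finset.prod_insert ha, A6_ker_iff (by simp)]
      have : ∏ e ∈ S, A6_ker (ρ e) (e ∈ insert a F) (e ∈ insert a F')
          = ∏ e ∈ S, A6_ker (ρ e) (e ∈ F) (e ∈ F') := by
        apply Finset.prod_congr rfl
        intro e he
        have hea : e ≠ a := fun h => ha (h ▸ he)
        exact A6_ker_congr (by simp [hea]) (by simp [hea])
      rw [this]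
      ring
  rw [Finset.sum_congr rfl e1, Finset.sum_congr rfl e2, Finset.sum_add_distrib,
    Finset.sum_add_distrib, ← Finset.mul_sum, ← Finset.mul_sum, ← Finset.mul_sum,
    ← Finset.mul_sum]
  ring

theorem A6_chi_insert {a : E} {T F : Finset E} (hT : a ∉ T) (hF : a ∉ F) :
    chi T (insert a F) = chi T F ∧ chi (insert a T) F = chi T F ∧
      chi (insert a T) (insert a F) = - chi T F := by
  unfold chi
  refine ⟨?_, ?_, ?_⟩
  · rw [Finset.insert_inter_of_notMem hT]
  · rw [Finset.inter_insert_of_notMem hF]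
  · rw [← Finset.insert_inter_distrib, Finset.card_insert_of_notMem (by simp [hT]), pow_succ]
    ring

theorem A6_wal_insert {a : E} {S T : Finset E} (ha : a ∉ S) (hT : T ⊆ S)
    (f : Finset E → ℝ) :
    wal (insert a S) f T = 1 / 2 * (wal S (fun F => f (insert a F)) T + wal S f T) ∧
    wal (insert a S) f (insert a T) =
      1 / 2 * (- wal S (fun F => f (insert a F)) T + wal S f T) := by
  have haT : a ∉ T := fun h => ha (hT h)
  unfold wal
  constructor
  · rw [Ex_insert hp ha]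
    have e1 : Ex hp S (fun F => chi T (insert a F) * f (insert a F))
        = Ex hp S (fun F => chi T F * f (insert a F)) := by
      apply Ex_congr
      intro F hF
      rw [(A6_chi_insert haT (fun h => ha (hF h))).1]
    rw [e1]
    simp only [hp]
    ring
  · rw [Ex_insert hp ha]
    have e1 : Ex hp S (fun F => chi (insert a T) (insert a F) * f (insert a F))
        = Ex hp S (fun F => (-1) * (chi T F * f (insert a F))) := by
      apply Ex_congr
      intro F hF
      rw [(A6_chi_insert haT (fun h => ha (hF h))).2.2]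
      ring
    have e2 : Ex hp S (fun F => chi (insert a T) F * f F)
        = Ex hp S (fun F => chi T F * f F) := by
      apply Ex_congr
      intro F hF
      rw [(A6_chi_insert haT (fun h => ha (hF h))).2.1]
    rw [e1, e2, Ex_mul_left]
    simp only [hp]
    ring

/-- E2 in terms of Walsh coefficients. -/
theorem E2_wal (ρ : E → ℝ) (S : Finset E) (f g : Finset E → ℝ) :
    E2 ρ S (fun F F' => f F * g F') =
      ∑ T ∈ S.powerset, wal S f T * wal S g T * ∏ e ∈ T, ρ e := by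
  induction S using Finset.induction_on generalizing f g with
  | empty => simp [A6_empty, wal, Ex_empty, chi]
  | insert a S ha ih =>
    rw [A6_insert ρ ha, ih, ih, ih (fun F => f (insert a F)) g, ih f (fun F => g (insert a F)),
      Finset.sum_powerset_insert ha]
    rw [← Finset.sum_add_distrib, ← Finset.sum_add_distrib, ← Finset.sum_add_distrib,
      Finset.mul_sum, Finset.mul_sum, ← Finset.sum_add_distrib]
    apply Finset.sum_congr rfl
    intro T hT
    have hTS := Finset.mem_powerset.mp hT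
    have haT : a ∉ T := fun h => ha (hTS h)
    rw [Finset.prod_insert haT, (A6_wal_insert ha hTS f).1, (A6_wal_insert ha hTS f).2,
      (A6_wal_insert ha hTS g).1, (A6_wal_insert ha hTS g).2]
    ring

theorem E2_nonneg {ρ : E → ℝ} {S : Finset E} (hρ : ∀ e ∈ S, 0 ≤ ρ e ∧ ρ e ≤ 1)
    {h : Finset E → Finset E → ℝ} (hh : ∀ F F', F ⊆ S → F' ⊆ S → 0 ≤ h F F') :
    0 ≤ E2 ρ S h := by
  rw [A6_E2]
  apply Finset.sum_nonneg
  intro F hF
  apply Finset.sum_nonneg
  intro F' hF'
  apply mul_nonneg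
  · exact Finset.prod_nonneg (fun e he => A6_ker_nonneg _ _ (hρ e he))
  · exact hh F F' (Finset.mem_powerset.mp hF) (Finset.mem_powerset.mp hF')

theorem E2_mono {ρ : E → ℝ} {S : Finset E} (hρ : ∀ e ∈ S, 0 ≤ ρ e ∧ ρ e ≤ 1)
    {h h' : Finset E → Finset E → ℝ} (hh : ∀ F F', F ⊆ S → F' ⊆ S → h F F' ≤ h' F F') :
    E2 ρ S h ≤ E2 ρ S h' := by
  rw [A6_E2, A6_E2]
  apply Finset.sum_le_sum
  intro F hF
  apply Finset.sum_le_sum
  intro F' hF'
  apply mul_le_mul_of_nonneg_left (hh F F' (Finset.mem_powerset.mp hF)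
    (Finset.mem_powerset.mp hF'))
  exact Finset.prod_nonneg (fun e he => A6_ker_nonneg _ _ (hρ e he))

theorem A6_add (ρ : E → ℝ) (S : Finset E) (h h' : Finset E → Finset E → ℝ) :
    E2 ρ S (fun F F' => h F F' + h' F F') = E2 ρ S h + E2 ρ S h' := by
  rw [A6_E2, A6_E2, A6_E2, ← Finset.sum_add_distrib]
  apply Finset.sum_congr rfl
  intro F _
  rw [← Finset.sum_add_distrib]
  apply Finset.sum_congr rfl
  intro F' _
  ring

theorem P2_add_le {ρ : E → ℝ} {S : Finset E} (hρ : ∀ e ∈ S, 0 ≤ ρ e ∧ ρ e ≤ 1)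
    (A A' B : Finset E → Prop) :
    P2 ρ S (fun F => A F ∨ A' F) B ≤ P2 ρ S A B + P2 ρ S A' B := by
  unfold P2
  rw [← A6_add]
  apply E2_mono hρ
  intro F F' _ _
  have h1 := ind_or_le (A F) (A' F)
  have h2 := ind_nonneg (B F')
  nlinarith

theorem P2_comm (ρ : E → ℝ) (S : Finset E) (A B : Finset E → Prop) :
    P2 ρ S A B = P2 ρ S B A := by
  unfold P2
  rw [A6_E2, A6_E2, Finset.sum_comm]
  apply Finset.sum_congr rfl
  intro F _
  apply Finset.sum_congr rfl
  intro F' _
  have : ∏ e ∈ S, A6_ker (ρ e) (e ∈ F') (e ∈ F) = ∏ e ∈ S, A6_ker (ρ e) (e ∈ F) (e ∈ F') :=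
    Finset.prod_congr rfl (fun e _ => A6_ker_comm _ _ _)
  rw [this]
  ring

theorem A6_left (ρ : E → ℝ) (S : Finset E) (f : Finset E → ℝ) :
    E2 ρ S (fun F _ => f F) = Ex hp S f := by
  induction S using Finset.induction_on generalizing f with
  | empty => simp [A6_empty, Ex_empty]
  | insert a S ha ih =>
    rw [A6_insert ρ ha, ih, ih, Ex_insert hp ha]
    simp only [hp]
    ring

/-- single layer bound -/
theorem P2_le_Pr {ρ : E → ℝ} {S : Finset E} (hρ : ∀ e ∈ S, 0 ≤ ρ e ∧ ρ e ≤ 1)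
    (A B : Finset E → Prop) : P2 ρ S A B ≤ Pr hp S A := by
  unfold P2 Pr
  rw [← A6_left ρ]
  apply E2_mono hρ
  intro F F' _ _
  have h1 := ind_nonneg (A F)
  have h2 := ind_le_one (B F')
  nlinarith

/-- Cauchy-Schwarz -/
theorem P2_cs {ρ : E → ℝ} {S : Finset E} (hρ : ∀ e ∈ S, 0 ≤ ρ e ∧ ρ e ≤ 1)
    (A B : Finset E → Prop) : 2 * P2 ρ S A B ≤ P2 ρ S A A + P2 ρ S B B := by
  unfold P2
  rw [E2_wal, E2_wal, E2_wal, Finset.mul_sum, ← Finset.sum_add_distrib]
  apply Finset.sum_le_sum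
  intro T hT
  have h1 : 0 ≤ ∏ e ∈ T, ρ e :=
    Finset.prod_nonneg (fun e he => (hρ e (Finset.mem_powerset.mp hT he)).1)
  nlinarith [mul_nonneg h1 (sq_nonneg (wal S (fun F => ind (A F)) T
    - wal S (fun F => ind (B F)) T))]

/-- monotonicity in the correlations -/
theorem P2_mono_param {ρ ρ' : E → ℝ} {S : Finset E} (h0 : ∀ e ∈ S, 0 ≤ ρ e)
    (h : ∀ e ∈ S, ρ e ≤ ρ' e) (A : Finset E → Prop) : P2 ρ S A A ≤ P2 ρ' S A A := by
  unfold P2
  rw [E2_wal, E2_wal]
  apply Finset.sum_le_sum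
  intro T hT
  have hT' := Finset.mem_powerset.mp hT
  apply mul_le_mul_of_nonneg_left
  · exact Finset.prod_le_prod (fun e he => h0 e (hT' he)) (fun e he => h e (hT' he))
  · exact mul_self_nonneg _

end H389NS
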