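import Pool.Agent.H389R2.NS.F0
import Pool.Agent.H389R2.NS.Pair1

/-! Dynamical percolation: one and two times, locality (task F1, helper653). -/

set_option autoImplicit false

namespace H389NS

open H974 H12S H985T Finset MeasureTheory

section

/-- A finitely valued function. -/
theorem F1a_fin {Ω α : Type*} [MeasurableSpace Ω] {μ : Measure Ω} [IsProbabilityMeasure μ]
    (f : Ω → α) (P : Finset α) (hf : ∀ w, f w ∈ P)
    (hm : ∀ a ∈ P, MeasurableSet {w | f w = a}) (Q : α → Prop) :
    μ.real {w | Q (f w)} = ∑ a ∈ P, μ.real {w | f w = a} * ind (Q a) := by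
  classical
  have h1 : {w | Q (f w)} = ⋃ a ∈ P.filter Q, {w | f w = a} := by
    ext w
    simp only [Set.mem_setOf_eq, Set.mem_iUnion, Finset.mem_filter, exists_prop]
    constructor
    · intro h
      exact ⟨f w, ⟨hf w, h⟩, rfl⟩
    · rintro ⟨a, ⟨_, h⟩, rfl⟩
      exact h
  rw [h1, measureReal_biUnion_finset]
  · rw [Finset.sum_filter]
    apply Finset.sum_congr rfl
    intro a _
    by_cases hq : Q a
    · rw [if_pos hq, ind_of hq, mul_one]
    · rw [if_neg hq, ind_not_of hq, mul_zero]
  · intro a _ b _ hab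
    simp only [Function.onFun]
    rw [Set.disjoint_left]
    intro w hw hw'
    simp only [Set.mem_setOf_eq] at hw hw'
    exact hab (hw.symm.trans hw')
  · intro a ha
    exact hm a (Finset.mem_filter.mp ha).1

theorem F1a_filter_eq (S F : Finset Edg) (hF : F ⊆ S) (b : Edg → Bool) :
    S.filter (fun e => b e = true) = F ↔ ∀ x ∈ S, b x = decide (x ∈ F) := by
  constructor
  · intro h x hx
    rw [← h]
    by_cases hb : b x = true
    · rw [hb]; symm; rw [decide_eq_true_iff]; simp [hx, hb]
    · have hb' : b x = false := by simpa using hb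
      rw [hb']; symm; rw [decide_eq_false_iff_not]; simp [hb']
  · intro h
    ext x
    rw [Finset.mem_filter]
    constructor
    · rintro ⟨hx, hb⟩
      rw [h x hx] at hb
      exact of_decide_eq_true hb
    · intro hx
      refine ⟨hF hx, ?_⟩
      rw [h x (hF hx)]
      exact decide_eq_true hx

variable {Ω : Type*} [MeasurableSpace Ω] {μ : Measure Ω} [IsProbabilityMeasure μ]
  {ω : ℝ → Ω → Edg → Bool}

theorem F1a_meas (h : IsDP μ ω) (t : ℝ) (S : Finset Edg) (a : Edg → Bool) :
    MeasurableSet {w | ∀ x ∈ S, ω t w x = a x} := by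
  have : {w | ∀ x ∈ S, ω t w x = a x} = ⋂ x ∈ S, {w | ω t w x = a x} := by
    ext w; simp
  rw [this]
  apply Finset.measurableSet_biInter
  intro x _
  exact h.meas t x (measurableSet_singleton (a x))

theorem dp_one1 (h : IsDP μ ω) {t : ℝ} (ht : 0 ≤ t) (S : Finset Edg) (A : Finset Edg → Prop) :
    μ.real {w | A (S.filter (fun e => ω t w e = true))} = Pr hp S A := by
  classical
  have hset : ∀ F ∈ S.powerset, {w | S.filter (fun e => ω t w e = true) = F} =
      {w | ∀ x ∈ S, ω t w x = decide (x ∈ F)} := by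
    intro F hF
    ext w
    exact F1a_filter_eq S F (Finset.mem_powerset.mp hF) (ω t w)
  rw [F1a_fin (μ := μ) (fun w => S.filter (fun e => ω t w e = true)) S.powerset
    (fun w => Finset.mem_powerset.mpr (Finset.filter_subset _ _))
    (fun F hF => by rw [hset F hF]; exact F1a_meas h t S _) A]
  unfold Pr Ex
  apply Finset.sum_congr rfl
  intro F hF
  congr 1
  rw [hset F hF]
  have h2 := h.fdd S 0 (fun _ => t) (fun x _ => decide (x ∈ F)) ht (fun _ _ _ => le_rfl)
  have h3 : {w | ∀ x ∈ S, ∀ _i : Fin 1, ω t w x = decide (x ∈ F)} =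
      {w | ∀ x ∈ S, ω t w x = decide (x ∈ F)} := by
    ext w
    simp
  have h4 : μ {w | ∀ x ∈ S, ω t w x = decide (x ∈ F)} = ENNReal.ofReal ((1 / 2 : ℝ) ^ S.card) := by
    rw [← h3]
    refine h2.trans ?_
    congr 1
    simp
  rw [Measure.real, h4, ENNReal.toReal_ofReal (by positivity)]
  have h5 : ∏ e ∈ F, hp e = (1 / 2 : ℝ) ^ F.card := by
    simp [hp]
  have h6 : ∏ e ∈ S \ F, (1 - hp e) = (1 / 2 : ℝ) ^ (S \ F).card := by
    have : ∀ e ∈ S \ F, (1 - hp e) = (1 / 2 : ℝ) := by
      intro e _; unfold hp; norm_num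
    rw [Finset.prod_congr rfl this, Finset.prod_const]
  rw [h5, h6, ← pow_add]
  congr 1
  rw [add_comm]
  exact (Finset.card_sdiff_add_card_eq_card (Finset.mem_powerset.mp hF)).symm

theorem dp_two1 (h : IsDP μ ω) {s t : ℝ} (hs : 0 ≤ s) (hst : s ≤ t) (S : Finset Edg)
    (A B : Finset Edg → Prop) :
    μ.real {w | A (S.filter (fun e => ω s w e = true)) ∧
        B (S.filter (fun e => ω t w e = true))} =
      P2 (fun _ => Real.exp (-(t - s))) S A B := by
  classical
  have hset : ∀ p ∈ S.powerset ×ˢ S.powerset,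
      {w | (S.filter (fun e => ω s w e = true), S.filter (fun e => ω t w e = true)) = p} =
      {w | ∀ x ∈ S, ω s w x = decide (x ∈ p.1)} ∩ {w | ∀ x ∈ S, ω t w x = decide (x ∈ p.2)} := by
    rintro ⟨F, F'⟩ hp
    rw [Finset.mem_product] at hp
    ext w
    simp only [Set.mem_setOf_eq, Set.mem_inter_iff, Prod.mk.injEq]
    rw [F1a_filter_eq S F (Finset.mem_powerset.mp hp.1) (ω s w),
      F1a_filter_eq S F' (Finset.mem_powerset.mp hp.2) (ω t w)]
  have h0 := F1a_fin (μ := μ)
    (fun w => (S.filter (fun e => ω s w e = true), S.filter (fun e => ω t w e = true)))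
    (S.powerset ×ˢ S.powerset)
    (fun w => Finset.mem_product.mpr ⟨Finset.mem_powerset.mpr (Finset.filter_subset _ _),
      Finset.mem_powerset.mpr (Finset.filter_subset _ _)⟩)
    (fun p hp => by
      rw [hset p hp]
      exact (F1a_meas h s S _).inter (F1a_meas h t S _)) (fun p => A p.1 ∧ B p.2)
  refine h0.trans ?_
  unfold P2 E2
  rw [Finset.sum_product]
  apply Finset.sum_congr rfl
  intro F hF
  apply Finset.sum_congr rfl
  intro F' hF'
  have hind : ind (A F ∧ B F') = ind (A F) * ind (B F') := by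
    by_cases h1 : A F
    · by_cases h2 : B F'
      · rw [ind_of ⟨h1, h2⟩, ind_of h1, ind_of h2, one_mul]
      · rw [ind_not_of (fun h => h2 h.2), ind_not_of h2, mul_zero]
    · rw [ind_not_of (fun h => h1 h.1), ind_not_of h1, zero_mul]
  show _ * ind (A F ∧ B F') = _
  rw [hind]
  congr 1
  rw [hset (F, F') (Finset.mem_product.mpr ⟨hF, hF'⟩)]
  have h2 := h.fdd S 1 ![s, t] (fun x => ![decide (x ∈ F), decide (x ∈ F')]) (by simpa using hs)
    (by
      intro i j hij
      fin_cases i <;> fin_cases j <;> simp_all)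
  have h3 : {w | ∀ x ∈ S, ∀ i : Fin (1 + 1), ω (![s, t] i) w x =
      (![decide (x ∈ F), decide (x ∈ F')] : Fin 2 → Bool) i} =
      {w | ∀ x ∈ S, ω s w x = decide (x ∈ F)} ∩ {w | ∀ x ∈ S, ω t w x = decide (x ∈ F')} := by
    ext w
    constructor
    · intro hw
      exact ⟨fun x hx => by simpa using hw x hx 0, fun x hx => by simpa using hw x hx 1⟩
    · rintro ⟨hw1, hw2⟩ x hx i
      have e1 : ω s w x = decide (x ∈ F) := hw1 x hx
      have e2 : ω t w x = decide (x ∈ F') := hw2 x hx
      fin_cases i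
      · simpa using e1
      · simpa using e2
  have h4 := h2
  rw [h3] at h4
  show μ.real ({w | ∀ x ∈ S, ω s w x = decide (x ∈ F)} ∩
    {w | ∀ x ∈ S, ω t w x = decide (x ∈ F')}) = _
  rw [Measure.real, h4, ENNReal.toReal_ofReal]
  · apply Finset.prod_congr rfl
    intro x _
    rw [Fin.prod_univ_one]
    by_cases hx : (x ∈ F ↔ x ∈ F')
    · rw [if_pos hx]
      have : decide (x ∈ F) = decide (x ∈ F') := by simpa using hx
      rw [if_pos (by simpa using this)]
      have hst2 : -((![s, t] : Fin 2 → ℝ) (Fin.succ (0 : Fin 1)) - (![s, t] : Fin 2 → ℝ)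
        (Fin.castSucc (0 : Fin 1))) = -(t - s) := by simp
      rw [hst2]
      ring
    · rw [if_neg hx]
      have : ¬ (decide (x ∈ F) = decide (x ∈ F')) := by
        intro h'
        apply hx
        simpa using h'
      rw [if_neg (by simpa using this)]
      have hst2 : -((![s, t] : Fin 2 → ℝ) (Fin.succ (0 : Fin 1)) - (![s, t] : Fin 2 → ℝ)
        (Fin.castSucc (0 : Fin 1))) = -(t - s) := by simp
      rw [hst2]
      ring
  · apply Finset.prod_nonneg
    intro x _
    rw [Fin.prod_univ_one]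
    have hexp : Real.exp (-(t - s)) ≤ 1 := by
      rw [Real.exp_le_one_iff]; linarith
    have hexp0 := Real.exp_pos (-(t - s))
    have hst2 : -((![s, t] : Fin 2 → ℝ) (Fin.succ (0 : Fin 1)) - (![s, t] : Fin 2 → ℝ)
        (Fin.castSucc (0 : Fin 1))) = -(t - s) := by simp
    apply mul_nonneg (by norm_num)
    rw [hst2]
    split_ifs
    · linarith
    · linarith

theorem AA_opE1 (a R : ℕ) (t : ℝ) (w : Ω) :
    AA a R (opE ω t w) ↔
      AA a R (↑((An a R).filter (fun e => ω t w e = true)) : Set Edg) := by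
  apply AA_congr
  ext e
  simp only [opE, Set.mem_inter_iff, Set.mem_setOf_eq, Finset.coe_filter, Finset.mem_coe]
  tauto

end

end H389NS
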