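import Pool.Agent.H389R2.NS.F0
import Pool.Agent.H389R2.NS.F1a
import Pool.Agent.H389R2.NS.E4
import Pool.Agent.H766R2.SecMom

/-! Dynamical percolation: two times, second moment. -/

set_option autoImplicit false

namespace H389NS

open H974 H12S H985T Finset MeasureTheory

section

variable {Ω : Type*} [MeasurableSpace Ω] {μ : Measure Ω} [IsProbabilityMeasure μ]
  {ω : ℝ → Ω → Edg → Bool}

/-- F1a: one time. -/
theorem dp_one (h : IsDP μ ω) {t : ℝ} (ht : 0 ≤ t) (S : Finset Edg) (A : Finset Edg → Prop) :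
    μ.real {w | A (S.filter (fun e => ω t w e = true))} = Pr hp S A := dp_one1 h ht S A

/-- F1b: two times. -/
theorem dp_two (h : IsDP μ ω) {s t : ℝ} (hs : 0 ≤ s) (hst : s ≤ t) (S : Finset Edg)
    (A B : Finset Edg → Prop) :
    μ.real {w | A (S.filter (fun e => ω s w e = true)) ∧
        B (S.filter (fun e => ω t w e = true))} =
      P2 (fun _ => Real.exp (-(t - s))) S A B := dp_two1 h hs hst S A B

/-- F1c: locality of the two-arm event. -/
theorem AA_opE (a R : ℕ) (t : ℝ) (w : Ω) :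
    AA a R (opE ω t w) ↔
      AA a R (↑((An a R).filter (fun e => ω t w e = true)) : Set Edg) := AA_opE1 a R t w

end

theorem F1c_exp {δ : ℝ} (h0 : 0 ≤ δ) (h1 : δ ≤ 1) : δ / 2 ≤ 1 - Real.exp (-δ) := by
  have h2 : Real.exp (-δ) ≤ (1 + δ)⁻¹ := by
    rw [Real.exp_neg]
    exact inv_anti₀ (by linarith) (by linarith [Real.add_one_le_exp δ])
  have h3 : (1 + δ)⁻¹ ≤ 1 - δ / 2 := by
    rw [inv_le_iff_one_le_mul₀ (by linarith)]
    nlinarith
  linarith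

section

variable {Ω : Type*} [MeasurableSpace Ω] {μ : Measure Ω} [IsProbabilityMeasure μ]
  {ω : ℝ → Ω → Edg → Bool}

theorem F1c_meas (h : IsDP μ ω) (a R : ℕ) (t : ℝ) :
    MeasurableSet {w | AA a R (opE ω t w)} := by
  classical
  have h1 : {w | AA a R (opE ω t w)} =
      (fun w => fun x : {x // x ∈ An a R} => ω t w x) ⁻¹'
        {g | AA a R (↑((An a R).filter (fun e => ∃ hx : e ∈ An a R, g ⟨e, hx⟩ = true)) :
          Set Edg)} := by
    ext w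
    rw [Set.mem_preimage]
    show AA a R (opE ω t w) ↔ AA a R _
    rw [AA_opE]
    have : (An a R).filter (fun e => ω t w e = true) =
        (An a R).filter (fun e => ∃ _ : e ∈ An a R, ω t w e = true) :=
      Finset.filter_congr (fun e he => ⟨fun h => ⟨he, h⟩, fun ⟨_, h⟩ => h⟩)
    rw [this]
  rw [h1]
  have hm : Measurable (fun w => fun x : {x // x ∈ An a R} => ω t w x) :=
    measurable_pi_iff.2 fun x => h.meas t x
  exact hm (Set.Finite.measurableSet (Set.toFinite _))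

theorem F1c_one (h : IsDP μ ω) {t : ℝ} (ht : 0 ≤ t) (a R : ℕ) :
    μ.real {w | AA a R (opE ω t w)} = pAA a R := by
  have h1 := dp_one h ht (An a R) (fun F => H985T.AA a R (↑F : Set Edg))
  have h2 : {w | AA a R (opE ω t w)} =
      {w | (fun F : Finset Edg => H985T.AA a R (↑F : Set Edg)) ((An a R).filter (fun e => ω t w e = true))} := by
    ext w
    exact AA_opE a R t w
  rw [h2, h1]
  rfl

theorem F1c_two (h : IsDP μ ω) {s t : ℝ} (hs : 0 ≤ s) (hst : s ≤ t) (a R : ℕ) :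
    μ.real ({w | AA a R (opE ω s w)} ∩ {w | AA a R (opE ω t w)}) =
      q2 (Real.exp (-(t - s))) a R := by
  have h1 := dp_two h hs hst (An a R) (fun F => H985T.AA a R (↑F : Set Edg)) (fun F => H985T.AA a R (↑F : Set Edg))
  have h2 : {w | AA a R (opE ω s w)} ∩ {w | AA a R (opE ω t w)} =
      {w | (fun F : Finset Edg => H985T.AA a R (↑F : Set Edg)) ((An a R).filter (fun e => ω s w e = true)) ∧
        (fun F : Finset Edg => H985T.AA a R (↑F : Set Edg)) ((An a R).filter (fun e => ω t w e = true))} := by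
    ext w
    exact and_congr (AA_opE a R s w) (AA_opE a R t w)
  rw [h2, h1]
  rfl

theorem F1c_VV_meas (h : IsDP μ ω) (a R : ℕ) : MeasurableSet (VV ω a R) := by
  have h1 : VV ω a R = ⋃ n : ℕ, ⋃ i : ℕ, ⋃ _ : i < 2 ^ n,
      {w | AA a R (opE ω ((i:ℝ) / 2 ^ n) w)} := by
    ext w
    simp [VV]
  rw [h1]
  exact MeasurableSet.iUnion fun n => MeasurableSet.iUnion fun i => MeasurableSet.iUnion fun _ =>
    F1c_meas h a R _

end

/-- F2: second moment at the dyadic times of order `n`. -/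
theorem dp_second : ∃ c : ℝ, 0 < c ∧ ∀ (Ω : Type) [MeasurableSpace Ω] (μ : Measure Ω)
    [IsProbabilityMeasure μ] (ω : ℝ → Ω → Edg → Bool), IsDP μ ω → ∀ a R : ℕ, 1 ≤ a → a ≤ R →
      ∃ n : ℕ, c ≤ μ.real {w | ∃ i : ℕ, i < 2 ^ n ∧ AA a R (opE ω ((i:ℝ) / 2 ^ n) w)} := by
  obtain ⟨C, hC, hq⟩ := q2_bound
  obtain ⟨c0, hc0, hlow⟩ := pAA_lower
  have hD : 0 < 1 + 80 * C / c0 ^ 2 := by positivity
  refine ⟨1 / (1 + 80 * C / c0 ^ 2), by positivity, ?_⟩
  intro Ω _ μ _ ω h a R ha haR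
  have ha0 : (0:ℝ) < a := by exact_mod_cast ha
  have hR0 : (0:ℝ) < R := by exact_mod_cast (ha.trans haR)
  have hr : 0 < (a:ℝ) / R := div_pos ha0 hR0
  have hp1 := hlow a R ha haR
  have hp0 : 0 < pAA a R := lt_of_lt_of_le (by positivity) hp1
  obtain ⟨n, hn⟩ := pow_unbounded_of_one_lt (1 / pAA a R) (one_lt_two (α := ℝ))
  have hn1 : 1 ≤ (2:ℝ)^n * pAA a R := by
    rw [div_lt_iff₀ hp0] at hn
    exact hn.le
  refine ⟨n, ?_⟩
  set N : ℕ := 2 ^ n with hN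
  have hNr : (N:ℝ) = 2 ^ n := by rw [hN]; push_cast; rfl
  have hN0 : (0:ℝ) < N := by rw [hNr]; positivity
  rw [← hNr] at hn1
  set G : ℕ → ℝ := fun d => C * ((d:ℝ) ^ (-(19/20) : ℝ) * (2 * N) ^ (19/20 : ℝ)) *
    ((a:ℝ) / R) ^ (1/2 : ℝ) with hG
  have hGn : ∀ d, 0 ≤ G d := fun d => by rw [hG]; positivity
  have hpair : ∀ i j : ℕ, i < j → j < N →
      μ.real ({w | AA a R (opE ω ((i:ℝ) / 2 ^ n) w)} ∩ {w | AA a R (opE ω ((j:ℝ) / 2 ^ n) w)}) ≤
        G (j - i) := by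
    intro i j hij hj
    have hs : (0:ℝ) ≤ (i:ℝ) / 2 ^ n := by positivity
    have hst : (i:ℝ) / 2 ^ n ≤ (j:ℝ) / 2 ^ n := by
      have : (i:ℝ) ≤ j := by exact_mod_cast hij.le
      gcongr
    rw [F1c_two h hs hst]
    have hd1 : (1:ℝ) ≤ ((j - i : ℕ) : ℝ) := by exact_mod_cast (by omega : 1 ≤ j - i)
    have hd2 : ((j - i : ℕ) : ℝ) ≤ N := by exact_mod_cast (by omega : j - i ≤ N)
    have he : (j:ℝ) / 2 ^ n - (i:ℝ) / 2 ^ n = ((j - i : ℕ) : ℝ) / N := by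
      rw [hNr, Nat.cast_sub hij.le]; ring
    rw [he]
    set δ : ℝ := ((j - i : ℕ) : ℝ) / N with hδ
    have hδ0 : 0 < δ := by positivity
    have hδ1 : δ ≤ 1 := (div_le_one hN0).2 hd2
    have h1 := F1c_exp hδ0.le hδ1
    have hx1 : Real.exp (-δ) < 1 := by rw [Real.exp_lt_one_iff]; linarith
    have h2 := hq a R (Real.exp (-δ)) ha haR (Real.exp_pos _).le hx1
    refine h2.trans ?_
    rw [hG]
    simp only
    have h3 : (1 - Real.exp (-δ)) ^ (-(19/20) : ℝ) ≤ (δ / 2) ^ (-(19/20) : ℝ) :=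
      Real.rpow_le_rpow_of_nonpos (by positivity) h1 (by norm_num)
    have h4 : (δ / 2) ^ (-(19/20) : ℝ) =
        ((j - i : ℕ) : ℝ) ^ (-(19/20) : ℝ) * (2 * N) ^ (19/20 : ℝ) := by
      have : δ / 2 = ((j - i : ℕ) : ℝ) * (2 * (N:ℝ))⁻¹ := by
        rw [hδ]; field_simp
      rw [this, Real.mul_rpow (by positivity) (by positivity), Real.inv_rpow (by positivity),
        Real.rpow_neg (by positivity : (0:ℝ) ≤ 2 * N), inv_inv]
    rw [← h4]
    gcongr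
  have hsum : ∑ i ∈ range N, ∑ j ∈ range N,
      μ.real ({w | AA a R (opE ω ((i:ℝ) / 2 ^ n) w)} ∩ {w | AA a R (opE ω ((j:ℝ) / 2 ^ n) w)}) ≤
      (1 + 80 * C / c0 ^ 2) * (N * pAA a R) ^ 2 := by
    have h1 := H766SM.pair_sum N (fun i j =>
      μ.real ({w | AA a R (opE ω ((i:ℝ) / 2 ^ n) w)} ∩ {w | AA a R (opE ω ((j:ℝ) / 2 ^ n) w)}))
      G (pAA a R) hGn (fun i _ => by
        simp only [Set.inter_self]
        rw [F1c_one h (by positivity)]) (fun i j hij hj => ⟨hpair i j hij hj, by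
          rw [Set.inter_comm]; exact hpair i j hij hj⟩)
    refine h1.trans ?_
    have h2 : ∑ d ∈ Icc 1 N, G d ≤ C * (20 * (N:ℝ) ^ (1/20 : ℝ) * (2 * N) ^ (19/20 : ℝ)) *
        ((a:ℝ) / R) ^ (1/2 : ℝ) := by
      rw [hG]
      simp only
      rw [← Finset.sum_mul, ← Finset.mul_sum, ← Finset.sum_mul]
      have := H766SM.sum_pow N
      gcongr
    have h3 : (2 * (N:ℝ)) ^ (19/20 : ℝ) ≤ 2 * (N:ℝ) ^ (19/20 : ℝ) := by
      rw [Real.mul_rpow (by norm_num) hN0.le]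
      have : (2:ℝ) ^ (19/20 : ℝ) ≤ 2 ^ (1:ℝ) :=
        Real.rpow_le_rpow_of_exponent_le (by norm_num) (by norm_num)
      rw [Real.rpow_one] at this
      gcongr
    have h4 : (N:ℝ) ^ (1/20 : ℝ) * (N:ℝ) ^ (19/20 : ℝ) = N := by
      rw [← Real.rpow_add hN0]; norm_num
    have h5 : ((a:ℝ) / R) ^ (1/2 : ℝ) ≤ pAA a R ^ 2 / c0 ^ 2 := by
      rw [le_div_iff₀ (by positivity)]
      have e : ((a:ℝ) / R) ^ (1/2 : ℝ) = (((a:ℝ) / R) ^ (1/4 : ℝ)) ^ 2 := by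
        rw [← Real.rpow_natCast, ← Real.rpow_mul hr.le]; norm_num
      rw [e, ← mul_pow, mul_comm]
      exact pow_le_pow_left₀ (by positivity) hp1 2
    have h6 : C * (20 * (N:ℝ) ^ (1/20 : ℝ) * (2 * N) ^ (19/20 : ℝ)) * ((a:ℝ) / R) ^ (1/2 : ℝ) ≤
        C * (40 * N) * (pAA a R ^ 2 / c0 ^ 2) := by
      have : 20 * (N:ℝ) ^ (1/20 : ℝ) * (2 * N) ^ (19/20 : ℝ) ≤ 40 * N := by
        calc 20 * (N:ℝ) ^ (1/20 : ℝ) * (2 * N) ^ (19/20 : ℝ)
            ≤ 20 * (N:ℝ) ^ (1/20 : ℝ) * (2 * (N:ℝ) ^ (19/20 : ℝ)) := by gcongr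
          _ = 40 * ((N:ℝ) ^ (1/20 : ℝ) * (N:ℝ) ^ (19/20 : ℝ)) := by ring
          _ = 40 * N := by rw [h4]
      gcongr
    have h7 : ∑ d ∈ Icc 1 N, G d ≤ C * (40 * N) * (pAA a R ^ 2 / c0 ^ 2) := h2.trans h6
    have h8 : (N:ℝ) * pAA a R ≤ (N * pAA a R) ^ 2 := by nlinarith
    have h9 : 2 * (N:ℝ) * ∑ d ∈ Icc 1 N, G d ≤ 2 * N * (C * (40 * N) * (pAA a R ^ 2 / c0 ^ 2)) := by
      gcongr
    have h10 : 2 * (N:ℝ) * (C * (40 * N) * (pAA a R ^ 2 / c0 ^ 2)) =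
        80 * C / c0 ^ 2 * (N * pAA a R) ^ 2 := by
      field_simp; ring
    rw [h10] at h9
    linarith
  have hA : ∑ i ∈ range N, μ.real {w | AA a R (opE ω ((i:ℝ) / 2 ^ n) w)} = N * pAA a R := by
    rw [Finset.sum_congr rfl (fun i _ => F1c_one h (by positivity) a R), Finset.sum_const,
      Finset.card_range, nsmul_eq_mul]
  have hNp : 0 < (N:ℝ) * pAA a R := by positivity
  have h3 := H766SM.second_moment μ N (fun i => {w | AA a R (opE ω ((i:ℝ) / 2 ^ n) w)})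
    (fun i => F1c_meas h a R _) _ _ hA hsum (by positivity)
  have h4 : ((N:ℝ) * pAA a R) ^ 2 / ((1 + 80 * C / c0 ^ 2) * (N * pAA a R) ^ 2) =
      1 / (1 + 80 * C / c0 ^ 2) := by
    field_simp
  rw [h4] at h3
  exact h3

/-- F3: with positive probability all the outer radii. -/
theorem dp_pos : ∃ c : ℝ, 0 < c ∧ ∀ (Ω : Type) [MeasurableSpace Ω] (μ : Measure Ω)
    [IsProbabilityMeasure μ] (ω : ℝ → Ω → Edg → Bool), IsDP μ ω → ∀ a : ℕ, 1 ≤ a →
      c ≤ μ.real (⋂ R : ℕ, VV ω a (a + R)) := by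
  obtain ⟨c, hc, h2⟩ := dp_second
  refine ⟨c, hc, ?_⟩
  intro Ω _ μ _ ω h a ha
  have hle : ∀ R, c ≤ μ.real (VV ω a (a + R)) := by
    intro R
    obtain ⟨n, hn⟩ := h2 Ω μ ω h a (a + R) ha (by omega)
    refine hn.trans (measureReal_mono ?_)
    rintro w ⟨i, hi, hw⟩
    exact ⟨n, i, hi, hw⟩
  have hanti : Antitone (fun R : ℕ => VV ω a (a + R)) := by
    intro R R' hRR w hw
    obtain ⟨n, i, hi, hw⟩ := hw
    exact ⟨n, i, hi, AA_outer (by omega) (by omega) hw⟩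
  have h3 := tendsto_measure_iInter_atTop (μ := μ) (s := fun R : ℕ => VV ω a (a + R))
    (fun R => (F1c_VV_meas h a (a + R)).nullMeasurableSet) hanti ⟨0, measure_ne_top _ _⟩
  have h4 := (ENNReal.tendsto_toReal (measure_ne_top μ (⋂ R : ℕ, VV ω a (a + R)))).comp h3
  exact ge_of_tendsto' h4 hle

end H389NS
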