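import Pool.Agent.H389R2.NS.F0
import Pool.Agent.H389R2.NS.E1b
import Mathlib.Probability.Independence.Process.Basic
import Mathlib.Probability.Independence.ZeroOne

/-! Dynamical percolation: the zero-one law (second attempt, helper294). -/

set_option autoImplicit false

namespace H389NS

open H974 H12S H985T Finset MeasureTheory

/-- The event depends on the trajectories of the edges in the annulus. -/
theorem F2x_VV_meas {Ω : Type*} [MeasurableSpace Ω] {ω : ℝ → Ω → Edg → Bool} (a R : ℕ)
    (h : ∀ e ∈ An a R, ∀ t : ℝ, 0 ≤ t → Measurable (fun w => ω t w e)) :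
    MeasurableSet (VV ω a R) := by
  classical
  have key : ∀ t : ℝ, 0 ≤ t → MeasurableSet {w : Ω | AA a R (opE ω t w)} := by
    intro t ht
    have e1 : {w : Ω | AA a R (opE ω t w)} =
        ⋃ G ∈ (An a R).powerset.filter (fun G : Finset Edg => AA a R (↑G : Set Edg)),
          ⋂ e ∈ An a R, {w : Ω | ω t w e = decide (e ∈ G)} := by
      ext w
      simp only [Set.mem_iUnion, Set.mem_iInter, Set.mem_ofPred_eq, exists_prop,
        Finset.mem_filter, Finset.mem_powerset]
      constructor
      · intro hw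
        refine ⟨(An a R).filter (fun e => ω t w e = true), ⟨Finset.filter_subset _ _, ?_⟩, ?_⟩
        · refine (AA_congr ?_).1 hw
          ext e
          simp only [opE, Set.mem_inter_iff, Set.mem_ofPred_eq, Finset.mem_coe,
            Finset.mem_filter]
          tauto
        · intro e he
          by_cases h1 : ω t w e = true
          · rw [h1]
            simp [he, h1]
          · simp [he, h1]
      · rintro ⟨G, ⟨hG1, hG2⟩, hG3⟩
        refine (AA_congr ?_).2 hG2
        ext e
        simp only [opE, Set.mem_inter_iff, Set.mem_ofPred_eq, Finset.mem_coe]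
        constructor
        · rintro ⟨h1, h2⟩
          refine ⟨?_, h2⟩
          have h3 := hG3 e h2
          rw [h1] at h3
          exact of_decide_eq_true h3.symm
        · rintro ⟨h1, h2⟩
          refine ⟨?_, h2⟩
          rw [hG3 e h2]
          exact decide_eq_true h1
    rw [e1]
    refine Finset.measurableSet_biUnion _ fun G _ => Finset.measurableSet_biInter _ fun e he => ?_
    exact h e he t ht (measurableSet_singleton _)
  have e2 : VV ω a R = ⋃ n : ℕ, ⋃ i : ℕ, ⋃ (_ : i < 2 ^ n),
      {w : Ω | AA a R (opE ω ((i : ℝ) / 2 ^ n) w)} := by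
    ext w
    simp only [VV, Set.mem_iUnion, Set.mem_ofPred_eq, exists_prop]
  rw [e2]
  refine MeasurableSet.iUnion fun n => MeasurableSet.iUnion fun i => MeasurableSet.iUnion fun _ => ?_
  exact key _ (by positivity)

/-- every finite set of edges is contained in a box -/
theorem F2x_box (u : Finset Edg) : ∃ m : ℕ, ∀ e ∈ u, e ∈ boxE m := by
  induction u using Finset.induction_on with
  | empty => exact ⟨0, by simp⟩
  | insert e s _ ih =>
    obtain ⟨m, hm⟩ := ih
    obtain ⟨x, y, b⟩ := e
    refine ⟨m + x.natAbs + y.natAbs + 1, ?_⟩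
    intro e' he'
    rcases Finset.mem_insert.1 he' with rfl | h1
    · unfold boxE
      cases b
      · rw [mem_RE_false]
        omega
      · rw [mem_RE_true]
        omega
    · exact boxE_mono (by omega) (hm e' h1)

section

variable {Ω : Type*} [MeasurableSpace Ω] {μ : Measure Ω} [IsProbabilityMeasure μ]
  {ω : ℝ → Ω → Edg → Bool}

omit [IsProbabilityMeasure μ] in
theorem VV_meas1 (h : IsDP μ ω) (a R : ℕ) : MeasurableSet (VV ω a R) :=
  F2x_VV_meas a R fun e _ t _ => h.meas t e

omit [MeasurableSpace Ω] in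
theorem VV_inner1 {a b R : ℕ} (hab : a ≤ b) (hR : b ≤ R) : VV ω a R ⊆ VV ω b R := by
  rintro w ⟨n, i, hi, h⟩
  exact ⟨n, i, hi, AA_mono hab hR h⟩

omit [MeasurableSpace Ω] in
theorem VV_outer1 {a R R' : ℕ} (ha : a ≤ R) (hR : R ≤ R') : VV ω a R' ⊆ VV ω a R := by
  rintro w ⟨n, i, hi, h⟩
  exact ⟨n, i, hi, AA_outer1 ha hR h⟩

theorem F2x_full (h : IsDP μ ω) (I : Finset Edg) (n : ℕ) (t : Fin (n + 1) → ℝ) (h0 : 0 ≤ t 0)
    (ht : Monotone t) :
    ProbabilityTheory.iIndepFun (fun (x : I) (w : Ω) (i : Fin (n + 1)) => ω (t i) w x) μ := by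
  classical
  have hm : ∀ x : I, Measurable (fun (w : Ω) (i : Fin (n + 1)) => ω (t i) w x) := fun x =>
    measurable_pi_iff.2 fun i => h.meas (t i) x
  rw [ProbabilityTheory.iIndepFun_iff_map_fun_eq_pi_map (fun x => (hm x).aemeasurable)]
  have hprob : ∀ x : I, IsProbabilityMeasure (μ.map (fun (w : Ω) (i : Fin (n + 1)) =>
      ω (t i) w x)) := fun x => Measure.isProbabilityMeasure_map (hm x).aemeasurable
  refine Measure.ext_of_singleton fun a => ?_
  rw [Measure.map_apply (measurable_pi_iff.2 hm) (measurableSet_singleton _), Measure.pi_singleton]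
  set g : (Fin (n + 1) → Bool) → ℝ := fun b => (1 / 2 : ℝ) * ∏ i : Fin n,
          (if b i.castSucc = b i.succ
            then (1 + Real.exp (-(t i.succ - t i.castSucc))) / 2
            else (1 - Real.exp (-(t i.succ - t i.castSucc))) / 2) with hg
  have hg0 : ∀ b, 0 ≤ g b := by
    intro b
    rw [hg]
    refine mul_nonneg (by norm_num) (Finset.prod_nonneg fun i _ => ?_)
    have h1 : t i.castSucc ≤ t i.succ := ht (Fin.castSucc_le_succ i)
    have h2 : Real.exp (-(t i.succ - t i.castSucc)) ≤ 1 := by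
      rw [Real.exp_le_one_iff]
      linarith
    have h3 := Real.exp_pos (-(t i.succ - t i.castSucc))
    split_ifs <;> linarith
  have e1 : (fun (w : Ω) (x : I) (i : Fin (n + 1)) => ω (t i) w x) ⁻¹' {a} =
      {w | ∀ x ∈ I, ∀ i, ω (t i) w x = (fun (y : Edg) (i : Fin (n + 1)) =>
        if hy : y ∈ I then a ⟨y, hy⟩ i else false) x i} := by
    ext w
    simp only [Set.mem_preimage, Set.mem_singleton_iff, Set.mem_ofPred_eq]
    constructor
    · intro hw x hx i
      rw [dif_pos hx, ← hw]
    · intro hw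
      funext x i
      have := hw x.1 x.2 i
      rw [dif_pos x.2] at this
      exact this
  rw [e1, h.fdd I n t _ h0 ht]
  have e2 : ∀ x : I, (μ.map (fun (w : Ω) (i : Fin (n + 1)) => ω (t i) w x)) {a x} =
      ENNReal.ofReal (g (a x)) := by
    intro x
    rw [Measure.map_apply (hm x) (measurableSet_singleton _)]
    have e3 : (fun (w : Ω) (i : Fin (n + 1)) => ω (t i) w x) ⁻¹' {a x} =
        {w | ∀ y ∈ ({x.1} : Finset Edg), ∀ i, ω (t i) w y =
          (fun (_ : Edg) (i : Fin (n + 1)) => a x i) y i} := by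
      ext w
      simp only [Set.mem_preimage, Set.mem_singleton_iff, Set.mem_ofPred_eq,
        Finset.mem_singleton, forall_eq]
      exact funext_iff
    rw [e3, h.fdd {x.1} n t _ h0 ht, Finset.prod_singleton]
  simp only [e2]
  rw [← ENNReal.ofReal_prod_of_nonneg (fun x _ => hg0 _)]
  congr 1
  rw [← Finset.prod_coe_sort I]
  refine Finset.prod_congr rfl fun x _ => ?_
  simp only [dif_pos x.2, hg]

theorem F2x_fin (h : IsDP μ ω) (I : Finset Edg) (J : I → Finset {t : ℝ // 0 ≤ t}) :
    ProbabilityTheory.iIndepFun (fun (x : I) (w : Ω) (j : J x) => ω (j : {t : ℝ // 0 ≤ t}) w x)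
      μ := by
  classical
  set U : Finset ℝ := insert 0 ((Finset.univ.biUnion J).image Subtype.val) with hU
  have hU0 : ∀ u ∈ U, 0 ≤ u := by
    intro u hu
    rw [hU, Finset.mem_insert, Finset.mem_image] at hu
    rcases hu with rfl | ⟨v, -, rfl⟩
    · exact le_rfl
    · exact v.2
  obtain ⟨n, hn⟩ : ∃ n, U.card = n + 1 := by
    have h0 : (0 : ℝ) ∈ U := by
      rw [hU]
      exact Finset.mem_insert_self _ _
    have := Finset.card_pos.2 ⟨0, h0⟩
    exact ⟨U.card - 1, by omega⟩
  set t := U.orderEmbOfFin hn with ht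
  have hk : ∀ (x : I) (j : J x), ∃ k : Fin (n + 1), t k = ((j : {t : ℝ // 0 ≤ t}) : ℝ) := by
    intro x j
    have hj : ((j : {t : ℝ // 0 ≤ t}) : ℝ) ∈ U := by
      rw [hU]
      refine Finset.mem_insert_of_mem (Finset.mem_image.2 ⟨j, ?_, rfl⟩)
      exact Finset.mem_biUnion.2 ⟨x, Finset.mem_univ _, j.2⟩
    have : ((j : {t : ℝ // 0 ≤ t}) : ℝ) ∈ Set.range t := by
      rw [ht, Finset.range_orderEmbOfFin]
      exact hj
    exact this
  choose k hk using hk
  have h1 := F2x_full h I n t (hU0 _ (Finset.orderEmbOfFin_mem U hn 0)) t.monotone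
  have h2 := h1.comp (fun (x : I) (f : Fin (n + 1) → Bool) (j : J x) => f (k x j))
    (fun x => measurable_pi_iff.2 fun j => measurable_pi_apply _)
  refine cast ?_ h2
  congr 1
  funext x w j
  simp only [Function.comp_apply, hk]

/-- The trajectories of the edges at nonnegative times are independent. -/
theorem dp_indep1 (h : IsDP μ ω) :
    ProbabilityTheory.iIndepFun (fun (e : Edg) (w : Ω) (t : {t : ℝ // 0 ≤ t}) => ω t w e) μ :=
  ProbabilityTheory.iIndepFun.iIndepFun_process (T := fun _ : Edg => {t : ℝ // 0 ≤ t})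
    (𝓧 := fun _ _ => Bool) (X := fun e t w => ω t w e) (fun e t => h.meas t e)
    (fun I J => F2x_fin h I J)

/-- F4: zero-one law. -/
theorem dp_zero_one1 (h : IsDP μ ω) :
    μ (⋃ a : ℕ, ⋂ R : ℕ, VV ω (a + 1) (a + 1 + R)) = 0 ∨
      μ (⋃ a : ℕ, ⋂ R : ℕ, VV ω (a + 1) (a + 1 + R)) = 1 := by
  classical
  set s : Edg → MeasurableSpace Ω := fun e =>
    MeasurableSpace.comap (fun (w : Ω) (t : {t : ℝ // 0 ≤ t}) => ω t w e) MeasurableSpace.pi with hs
  have hle : ∀ e, s e ≤ ‹MeasurableSpace Ω› := fun e =>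
    (measurable_pi_iff.2 fun t : {t : ℝ // 0 ≤ t} => h.meas t e).comap_le
  have hind : ProbabilityTheory.iIndep s μ := dp_indep1 h
  refine ProbabilityTheory.measure_zero_or_one_of_measurableSet_limsup (s := s)
    (f := Filter.cofinite) (p := Set.Finite) (ns := fun u : Finset Edg => (↑u : Set Edg)) hle hind
    (fun t ht => ht.compl_mem_cofinite) ?_ (fun u => u.finite_toSet)
    (fun e => ⟨{e}, by simp⟩) ?_
  · intro u v
    exact ⟨u ∪ v, by simp, by simp⟩
  · rw [Filter.limsup_eq_iInf_iSup]
    rw [MeasurableSpace.measurableSet_iInf]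
    intro u
    rw [MeasurableSpace.measurableSet_iInf]
    intro hu
    have hfin : (uᶜ).Finite := by
      simpa using hu
    obtain ⟨m, hm⟩ := F2x_box hfin.toFinset
    have hE : (⋃ a : ℕ, ⋂ R : ℕ, VV ω (a + 1) (a + 1 + R)) =
        ⋃ a : ℕ, ⋂ R : ℕ, VV ω (m + a + 1) (m + a + 1 + R) := by
      apply Set.Subset.antisymm
      · intro w hw
        rw [Set.mem_iUnion] at hw ⊢
        obtain ⟨a, ha⟩ := hw
        refine ⟨a, ?_⟩
        rw [Set.mem_iInter] at ha ⊢
        intro R
        have h1 := ha (m + R)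
        rw [show a + 1 + (m + R) = m + a + 1 + R by ring] at h1
        exact VV_inner1 (by omega) (by omega) h1
      · intro w hw
        rw [Set.mem_iUnion] at hw ⊢
        obtain ⟨a, ha⟩ := hw
        exact ⟨m + a, ha⟩
    rw [hE]
    refine @MeasurableSet.iUnion Ω ℕ (⨆ i ∈ u, s i) _ _ fun a => ?_
    refine @MeasurableSet.iInter Ω ℕ (⨆ i ∈ u, s i) _ _ fun R => ?_
    refine @F2x_VV_meas Ω (⨆ i ∈ u, s i) ω _ _ fun e he t ht => ?_
    have heu : e ∈ u := by
      by_contra hcon
      have h1 : e ∈ hfin.toFinset := by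
        rw [Set.Finite.mem_toFinset]
        exact hcon
      have h2 := hm e h1
      rw [INDI_memAn] at he
      exact he.2 (boxE_mono (by omega) h2)
    have h3 : s e ≤ ⨆ i ∈ u, s i := le_iSup₂ (f := fun i (_ : i ∈ u) => s i) e heu
    refine Measurable.mono ?_ h3 le_rfl
    have h4 : @Measurable Ω ({t : ℝ // 0 ≤ t} → Bool) (s e) MeasurableSpace.pi
        (fun (w : Ω) (t : {t : ℝ // 0 ≤ t}) => ω t w e) := comap_measurable _
    exact (measurable_pi_apply (⟨t, ht⟩ : {t : ℝ // 0 ≤ t})).comp h4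

end

end H389NS
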