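import Pool.Agent.H389R2.NS.F0
import Pool.Agent.H389R2.NS.F2x

/-! Dynamical percolation: the zero-one law. -/

set_option autoImplicit false

namespace H389NS

open H974 H12S H985T Finset MeasureTheory

section

variable {Ω : Type*} [MeasurableSpace Ω] {μ : Measure Ω} [IsProbabilityMeasure μ]
  {ω : ℝ → Ω → Edg → Bool}

theorem VV_meas (h : IsDP μ ω) (a R : ℕ) : MeasurableSet (VV ω a R) := VV_meas1 h a R

/-- F4: zero-one law. -/
theorem dp_zero_one (h : IsDP μ ω) :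
    μ (⋃ a : ℕ, ⋂ R : ℕ, VV ω (a + 1) (a + 1 + R)) = 0 ∨
      μ (⋃ a : ℕ, ⋂ R : ℕ, VV ω (a + 1) (a + 1 + R)) = 1 := dp_zero_one1 h

end

end H389NS
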