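import Pool.Agent.H389R2.NS.Defs

/-! Pairs: locality and independence. -/

set_option autoImplicit false

namespace H389NS

open H974 H12S Finset

variable {E : Type*} [DecidableEq E]

namespace A7

/-- the weight of a pair -/
noncomputable def wg (ρ : E → ℝ) (S F F' : Finset E) : ℝ :=
  ∏ e ∈ S, if (e ∈ F ↔ e ∈ F') then (1 + ρ e) / 4 else (1 - ρ e) / 4

theorem E2_eq (ρ : E → ℝ) (S : Finset E) (h : Finset E → Finset E → ℝ) :
    E2 ρ S h = ∑ F ∈ S.powerset, ∑ F' ∈ S.powerset, wg ρ S F F' * h F F' := rfl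

theorem wg_congr (ρ : E → ℝ) (S F F' G G' : Finset E)
    (h : ∀ e ∈ S, (e ∈ F ↔ e ∈ G)) (h' : ∀ e ∈ S, (e ∈ F' ↔ e ∈ G')) :
    wg ρ S F F' = wg ρ S G G' := by
  unfold wg
  refine Finset.prod_congr rfl fun e he => ?_
  simp only [h e he, h' e he]

theorem wg_insert (ρ : E → ℝ) {a : E} {S : Finset E} (ha : a ∉ S) (F F' G G' : Finset E)
    (h : ∀ e ∈ S, (e ∈ F ↔ e ∈ G)) (h' : ∀ e ∈ S, (e ∈ F' ↔ e ∈ G')) :
    wg ρ (insert a S) F F' =
      (if (a ∈ F ↔ a ∈ F') then (1 + ρ a) / 4 else (1 - ρ a) / 4) * wg ρ S G G' := by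
  rw [← wg_congr ρ S F F' G G' h h']
  unfold wg
  rw [Finset.prod_insert ha]

theorem E2_empty (ρ : E → ℝ) (h : Finset E → Finset E → ℝ) : E2 ρ ∅ h = h ∅ ∅ := by
  simp [E2_eq, wg]

theorem E2_insert (ρ : E → ℝ) {a : E} {S : Finset E} (ha : a ∉ S)
    (h : Finset E → Finset E → ℝ) :
    E2 ρ (insert a S) h =
      (1 + ρ a) / 4 * (E2 ρ S h + E2 ρ S (fun F F' => h (insert a F) (insert a F'))) +
      (1 - ρ a) / 4 * (E2 ρ S (fun F F' => h (insert a F) F') +
        E2 ρ S (fun F F' => h F (insert a F'))) := by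
  have hne : ∀ e ∈ S, e ≠ a := fun e he hea => ha (hea ▸ he)
  have hs : ∀ F : Finset E, ∀ e ∈ S, (e ∈ insert a F ↔ e ∈ F) := by
    intro F e he
    rw [Finset.mem_insert]
    exact ⟨fun h => h.resolve_left (hne e he), Or.inr⟩
  simp only [E2_eq]
  rw [Finset.sum_powerset_insert ha]
  have e1 : ∀ F ∈ S.powerset, ∑ F' ∈ (insert a S).powerset, wg ρ (insert a S) F F' * h F F' =
      (1 + ρ a) / 4 * ∑ F' ∈ S.powerset, wg ρ S F F' * h F F' +
      (1 - ρ a) / 4 * ∑ F' ∈ S.powerset, wg ρ S F F' * h F (insert a F') := by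
    intro F hF
    have haF : a ∉ F := fun h => ha (Finset.mem_powerset.1 hF h)
    rw [Finset.sum_powerset_insert ha, Finset.mul_sum, Finset.mul_sum]
    congr 1
    · refine Finset.sum_congr rfl fun F' hF' => ?_
      have haF' : a ∉ F' := fun h => ha (Finset.mem_powerset.1 hF' h)
      rw [wg_insert ρ ha F F' F F' (fun _ _ => Iff.rfl) (fun _ _ => Iff.rfl),
        if_pos (by simp [haF, haF'])]
      ring
    · refine Finset.sum_congr rfl fun F' hF' => ?_
      rw [wg_insert ρ ha F (insert a F') F F' (fun _ _ => Iff.rfl) (hs F'),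
        if_neg (by simp [haF])]
      ring
  have e2 : ∀ F ∈ S.powerset,
      ∑ F' ∈ (insert a S).powerset, wg ρ (insert a S) (insert a F) F' * h (insert a F) F' =
      (1 + ρ a) / 4 * ∑ F' ∈ S.powerset, wg ρ S F F' * h (insert a F) (insert a F') +
      (1 - ρ a) / 4 * ∑ F' ∈ S.powerset, wg ρ S F F' * h (insert a F) F' := by
    intro F _
    rw [Finset.sum_powerset_insert ha, Finset.mul_sum, Finset.mul_sum, add_comm]
    congr 1
    · refine Finset.sum_congr rfl fun F' _ => ?_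
      rw [wg_insert ρ ha (insert a F) (insert a F') F F' (hs F) (hs F'),
        if_pos (by simp)]
      ring
    · refine Finset.sum_congr rfl fun F' hF' => ?_
      have haF' : a ∉ F' := fun h => ha (Finset.mem_powerset.1 hF' h)
      rw [wg_insert ρ ha (insert a F) F' F F' (hs F) (fun _ _ => Iff.rfl),
        if_neg (by simp [haF'])]
      ring
  rw [Finset.sum_congr rfl e1, Finset.sum_congr rfl e2]
  simp only [Finset.sum_add_distrib, ← Finset.mul_sum]
  ring

theorem E2_congr {ρ : E → ℝ} {S : Finset E} {h g : Finset E → Finset E → ℝ}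
    (hh : ∀ F F', F ⊆ S → F' ⊆ S → h F F' = g F F') : E2 ρ S h = E2 ρ S g := by
  rw [E2_eq, E2_eq]
  refine Finset.sum_congr rfl fun F hF => Finset.sum_congr rfl fun F' hF' => ?_
  rw [hh F F' (Finset.mem_powerset.1 hF) (Finset.mem_powerset.1 hF')]

theorem E2_mul_left (ρ : E → ℝ) (S : Finset E) (c : ℝ) (h : Finset E → Finset E → ℝ) :
    E2 ρ S (fun F F' => c * h F F') = c * E2 ρ S h := by
  rw [E2_eq, E2_eq, Finset.mul_sum]
  refine Finset.sum_congr rfl fun F _ => ?_
  rw [Finset.mul_sum]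
  refine Finset.sum_congr rfl fun F' _ => ?_
  ring

theorem E2_mul_right (ρ : E → ℝ) (S : Finset E) (c : ℝ) (h : Finset E → Finset E → ℝ) :
    E2 ρ S (fun F F' => h F F' * c) = E2 ρ S h * c := by
  rw [mul_comm, ← E2_mul_left]
  exact E2_congr fun F F' _ _ => mul_comm _ _

theorem E2_const (ρ : E → ℝ) (S : Finset E) (c : ℝ) : E2 ρ S (fun _ _ => c) = c := by
  induction S using Finset.induction_on with
  | empty => rw [E2_empty]
  | insert a S ha ih => rw [E2_insert ρ ha, ih]; ring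

theorem E2_union {ρ : E → ℝ} {S T : Finset E} (hd : Disjoint S T)
    (h : Finset E → Finset E → ℝ) :
    E2 ρ (S ∪ T) h = E2 ρ S (fun F F' => E2 ρ T (fun Y Y' => h (F ∪ Y) (F' ∪ Y'))) := by
  induction S using Finset.induction_on generalizing h with
  | empty => simp [E2_empty]
  | insert a S ha ih =>
    rw [Finset.disjoint_insert_left] at hd
    rw [Finset.insert_union, E2_insert ρ (by simp [ha, hd.1]), E2_insert ρ ha,
      ih hd.2, ih hd.2, ih hd.2, ih hd.2]
    simp only [Finset.insert_union]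

theorem E2_local {ρ : E → ℝ} {S S' : Finset E} (hS : S' ⊆ S) {h : Finset E → Finset E → ℝ}
    (hf : ∀ F F', F ⊆ S → F' ⊆ S → h F F' = h (F ∩ S') (F' ∩ S')) : E2 ρ S h = E2 ρ S' h := by
  have h1 : S = S' ∪ (S \ S') := by rw [Finset.union_sdiff_of_subset hS]
  have hd : Disjoint S' (S \ S') := Finset.disjoint_sdiff
  conv_lhs => rw [h1]
  rw [E2_union hd]
  apply E2_congr
  intro A A' hA hA'
  have hint : ∀ A B : Finset E, A ⊆ S' → B ⊆ S \ S' → (A ∪ B) ∩ S' = A := by
    intro A B hA hB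
    ext x
    simp only [Finset.mem_inter, Finset.mem_union]
    constructor
    · rintro ⟨h | h, h2⟩
      · exact h
      · exact absurd h2 (Finset.mem_sdiff.mp (hB h)).2
    · intro h
      exact ⟨Or.inl h, hA h⟩
  have : ∀ B B', B ⊆ S \ S' → B' ⊆ S \ S' → h (A ∪ B) (A' ∪ B') = h A A' := by
    intro B B' hB hB'
    rw [hf (A ∪ B) (A' ∪ B') (Finset.union_subset (hA.trans hS) (hB.trans Finset.sdiff_subset))
      (Finset.union_subset (hA'.trans hS) (hB'.trans Finset.sdiff_subset)), hint A B hA hB,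
      hint A' B' hA' hB']
  rw [E2_congr this, E2_const]

theorem E2_mul_indep {ρ : E → ℝ} {U S T : Finset E} (hS : S ⊆ U) (hT : T ⊆ U)
    (hd : Disjoint S T) {f g : Finset E → Finset E → ℝ}
    (hf : ∀ F F', F ⊆ U → F' ⊆ U → f F F' = f (F ∩ S) (F' ∩ S))
    (hg : ∀ F F', F ⊆ U → F' ⊆ U → g F F' = g (F ∩ T) (F' ∩ T)) :
    E2 ρ U (fun F F' => f F F' * g F F') = E2 ρ U f * E2 ρ U g := by
  rw [E2_local hS hf, E2_local hT hg]
  have hST : S ∪ T ⊆ U := Finset.union_subset hS hT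
  rw [E2_local (S := U) (S' := S ∪ T) hST]
  · rw [E2_union hd]
    have e1 : ∀ A B : Finset E, A ⊆ S → B ⊆ T → (A ∪ B) ∩ S = A ∩ S := by
      intro A B hA hB
      ext x
      simp only [Finset.mem_inter, Finset.mem_union]
      constructor
      · rintro ⟨h | h, h2⟩
        · exact ⟨h, h2⟩
        · exact absurd h2 (fun h3 => (Finset.disjoint_left.mp hd) h3 (hB h))
      · rintro ⟨h, h2⟩
        exact ⟨Or.inl h, h2⟩
    have e2 : ∀ A B : Finset E, A ⊆ S → B ⊆ T → (A ∪ B) ∩ T = B ∩ T := by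
      intro A B hA hB
      ext x
      simp only [Finset.mem_inter, Finset.mem_union]
      constructor
      · rintro ⟨h | h, h2⟩
        · exact absurd h2 (fun h3 => (Finset.disjoint_left.mp hd) (hA h) h3)
        · exact ⟨h, h2⟩
      · rintro ⟨h, h2⟩
        exact ⟨Or.inr h, h2⟩
    have : ∀ A A', A ⊆ S → A' ⊆ S →
        E2 ρ T (fun B B' => f (A ∪ B) (A' ∪ B') * g (A ∪ B) (A' ∪ B')) = f A A' * E2 ρ T g := by
      intro A A' hA hA'
      rw [← E2_mul_left]
      apply E2_congr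
      intro B B' hB hB'
      have hU : A ∪ B ⊆ U := Finset.union_subset (hA.trans hS) (hB.trans hT)
      have hU' : A' ∪ B' ⊆ U := Finset.union_subset (hA'.trans hS) (hB'.trans hT)
      rw [hf _ _ hU hU', hg _ _ hU hU', hf A A' (hA.trans hS) (hA'.trans hS),
        hg B B' (hB.trans hT) (hB'.trans hT), e1 A B hA hB, e1 A' B' hA' hB', e2 A B hA hB,
        e2 A' B' hA' hB']
    rw [E2_congr this, E2_mul_right]
  · intro F F' hF hF'
    have e1 : ∀ F : Finset E, F ∩ (S ∪ T) ∩ S = F ∩ S := by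
      intro F; ext x; simp only [Finset.mem_inter, Finset.mem_union]; tauto
    have e2 : ∀ F : Finset E, F ∩ (S ∪ T) ∩ T = F ∩ T := by
      intro F; ext x; simp only [Finset.mem_inter, Finset.mem_union]; tauto
    have hU : F ∩ (S ∪ T) ⊆ U := (Finset.inter_subset_left).trans hF
    have hU' : F' ∩ (S ∪ T) ⊆ U := (Finset.inter_subset_left).trans hF'
    rw [hf F F' hF hF', hg F F' hF hF', hf _ _ hU hU', hg _ _ hU hU', e1, e1, e2, e2]

theorem E2_one {ρ : E → ℝ} {S : Finset E} (h1 : ∀ e ∈ S, ρ e = 1)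
    (h : Finset E → Finset E → ℝ) : E2 ρ S h = Ex hp S (fun F => h F F) := by
  induction S using Finset.induction_on generalizing h with
  | empty => rw [E2_empty, Ex_empty]
  | insert a S ha ih =>
    have hS : ∀ e ∈ S, ρ e = 1 := fun e he => h1 e (Finset.mem_insert_of_mem he)
    rw [E2_insert ρ ha, Ex_insert hp ha, ih hS, ih hS, h1 a (Finset.mem_insert_self a S)]
    simp only [hp]
    ring

theorem E2_zero {ρ : E → ℝ} {S : Finset E} (h0 : ∀ e ∈ S, ρ e = 0)
    (h : Finset E → Finset E → ℝ) :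
    E2 ρ S h = Ex hp S (fun F => Ex hp S (fun F' => h F F')) := by
  induction S using Finset.induction_on generalizing h with
  | empty => rw [E2_empty, Ex_empty, Ex_empty]
  | insert a S ha ih =>
    have hS : ∀ e ∈ S, ρ e = 0 := fun e he => h0 e (Finset.mem_insert_of_mem he)
    rw [E2_insert ρ ha, Ex_insert hp ha, ih hS, ih hS, ih hS, ih hS,
      h0 a (Finset.mem_insert_self a S)]
    simp only [Ex_insert hp ha, Ex_add, Ex_mul_left]
    simp only [hp]
    ring

end A7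

open A7

/-- locality -/
theorem P2_local {ρ : E → ℝ} {S S' : Finset E} (hS : S' ⊆ S) {A B : Finset E → Prop}
    (hA : ∀ F, F ⊆ S → (A F ↔ A (F ∩ S'))) (hB : ∀ F, F ⊆ S → (B F ↔ B (F ∩ S'))) :
    P2 ρ S A B = P2 ρ S' A B := by
  unfold P2
  apply E2_local hS
  intro F F' hF hF'
  rw [ind_congr (hA F hF), ind_congr (hB F' hF')]

/-- independence of disjoint sets -/
theorem P2_indep {ρ : E → ℝ} {U S T : Finset E} (hS : S ⊆ U) (hT : T ⊆ U) (hST : Disjoint S T)
    {A A' B B' : Finset E → Prop} (hA : ∀ F, F ⊆ U → (A F ↔ A (F ∩ S)))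
    (hA' : ∀ F, F ⊆ U → (A' F ↔ A' (F ∩ S))) (hB : ∀ F, F ⊆ U → (B F ↔ B (F ∩ T)))
    (hB' : ∀ F, F ⊆ U → (B' F ↔ B' (F ∩ T))) :
    P2 ρ U (fun F => A F ∧ B F) (fun F => A' F ∧ B' F) = P2 ρ U A A' * P2 ρ U B B' := by
  unfold P2
  rw [← E2_mul_indep hS hT hST]
  · apply E2_congr
    intro F F' _ _
    rw [ind_and, ind_and]
    ring
  · intro F F' hF hF'
    rw [ind_congr (hA F hF), ind_congr (hA' F' hF')]
  · intro F F' hF hF'
    rw [ind_congr (hB F hF), ind_congr (hB' F' hF')]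

/-- independent layers -/
theorem P2_zero {ρ : E → ℝ} {S N : Finset E} (hN : N ⊆ S) (h0 : ∀ e ∈ N, ρ e = 0)
    (h1 : ∀ e ∈ S \ N, ρ e = 1) (A : Finset E → Prop) : P2 ρ S A A = UA hp S N A := by
  unfold P2 UA UU
  have h2 : S = (S \ N) ∪ N := by rw [Finset.sdiff_union_of_subset hN]
  conv_lhs => rw [h2]
  rw [E2_union Finset.sdiff_disjoint, E2_one h1]
  apply Ex_congr
  intro G _
  rw [E2_zero h0, sq, ← Ex_mul_right]
  apply Ex_congr
  intro Y _
  rw [Ex_mul_left]

end H389NS
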