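import Pool.Agent.H389R2.NS.F1
import Pool.Agent.H389R2.NS.Pair1
import Pool.Agent.H389R2.NS.Pair2
import Pool.Agent.H985R3.TA.STA

/-! Dynamical percolation: no arms just before a jump. -/

set_option autoImplicit false

namespace H389NS

open H974 H12S H985T Finset MeasureTheory

section core

variable {E : Type*} [DecidableEq E]

theorem f3_flip (r : ℝ) {e : E} {T : Finset E} (he : e ∉ T) (B : Finset E → Prop) :
    P2 (fun _ => r) (insert e T) (fun F => e ∈ F ∧ B F) (fun F => e ∉ F) +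
      P2 (fun _ => r) (insert e T) (fun F => e ∉ F ∧ B F) (fun F => e ∈ F) =
      (1 - r) / 2 * Pr hp (insert e T) B := by
  have z1 : ∀ {P : Prop}, ¬ P → ind P = 0 := fun h => ind_not_of h
  have h1 : P2 (fun _ => r) (insert e T) (fun F => e ∈ F ∧ B F) (fun F => e ∉ F) =
      (1 - r) / 4 * Ex hp T (fun F => ind (B (insert e F))) := by
    unfold P2
    rw [A6_insert _ he]
    have a1 : E2 (fun _ : E => r) T (fun F F' => ind (e ∈ insert e F ∧ B (insert e F)) *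
        ind (e ∉ insert e F')) = 0 := by
      rw [A7.E2_congr (g := fun _ _ => 0) (fun F F' _ _ => by
        rw [z1 (P := e ∉ insert e F') (by simp), mul_zero])]
      exact A7.E2_const _ _ _
    have a2 : E2 (fun _ : E => r) T (fun F F' => ind (e ∈ F ∧ B F) * ind (e ∉ F')) = 0 := by
      rw [A7.E2_congr (g := fun _ _ => 0) (fun F F' hF _ => by
        rw [z1 (P := e ∈ F ∧ B F) (fun h => he (hF h.1)), zero_mul])]
      exact A7.E2_const _ _ _
    have a3 : E2 (fun _ : E => r) T (fun F F' => ind (e ∈ insert e F ∧ B (insert e F)) *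
        ind (e ∉ F')) = Ex hp T (fun F => ind (B (insert e F))) := by
      rw [← A6_left (fun _ : E => r)]
      refine A7.E2_congr (fun F F' _ hF' => ?_)
      rw [ind_of (P := e ∉ F') (fun h => he (hF' h)), mul_one]
      exact ind_congr (by simp)
    have a4 : E2 (fun _ : E => r) T (fun F F' => ind (e ∈ F ∧ B F) *
        ind (e ∉ insert e F')) = 0 := by
      rw [A7.E2_congr (g := fun _ _ => 0) (fun F F' _ _ => by
        rw [z1 (P := e ∉ insert e F') (by simp), mul_zero])]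
      exact A7.E2_const _ _ _
    rw [a1, a2, a3, a4]
    ring
  have h2 : P2 (fun _ => r) (insert e T) (fun F => e ∉ F ∧ B F) (fun F => e ∈ F) =
      (1 - r) / 4 * Ex hp T (fun F => ind (B F)) := by
    unfold P2
    rw [A6_insert _ he]
    have a1 : E2 (fun _ : E => r) T (fun F F' => ind (e ∉ insert e F ∧ B (insert e F)) *
        ind (e ∈ insert e F')) = 0 := by
      rw [A7.E2_congr (g := fun _ _ => 0) (fun F F' _ _ => by
        rw [z1 (P := e ∉ insert e F ∧ B (insert e F)) (by simp), zero_mul])]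
      exact A7.E2_const _ _ _
    have a2 : E2 (fun _ : E => r) T (fun F F' => ind (e ∉ F ∧ B F) * ind (e ∈ F')) = 0 := by
      rw [A7.E2_congr (g := fun _ _ => 0) (fun F F' _ hF' => by
        rw [z1 (P := e ∈ F') (fun h => he (hF' h)), mul_zero])]
      exact A7.E2_const _ _ _
    have a3 : E2 (fun _ : E => r) T (fun F F' => ind (e ∉ insert e F ∧ B (insert e F)) *
        ind (e ∈ F')) = 0 := by
      rw [A7.E2_congr (g := fun _ _ => 0) (fun F F' _ _ => by
        rw [z1 (P := e ∉ insert e F ∧ B (insert e F)) (by simp), zero_mul])]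
      exact A7.E2_const _ _ _
    have a4 : E2 (fun _ : E => r) T (fun F F' => ind (e ∉ F ∧ B F) *
        ind (e ∈ insert e F')) = Ex hp T (fun F => ind (B F)) := by
      rw [← A6_left (fun _ : E => r)]
      refine A7.E2_congr (fun F F' hF _ => ?_)
      rw [ind_of (P := e ∈ insert e F') (by simp), mul_one]
      exact ind_congr ⟨fun h => h.2, fun h => ⟨fun h' => he (hF h'), h⟩⟩
    rw [a1, a2, a3, a4]
    ring
  rw [h1, h2]
  unfold Pr
  rw [Ex_insert hp he]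
  unfold hp
  ring

theorem f3_Pr_insert {e : E} {S : Finset E} {A : Set E → Prop}
    (hA : ∀ F G : Set E, F ∩ ↑S = G ∩ ↑S → (A F ↔ A G)) :
    Pr hp (insert e S) (fun F => A ↑F) = Pr hp S (fun F => A ↑F) := by
  by_cases he : e ∈ S
  · rw [insert_eq_of_mem he]
  · unfold Pr
    rw [Ex_insert hp he]
    have h1 : Ex hp S (fun F => ind (A (↑(insert e F) : Set E))) =
        Ex hp S (fun F => ind (A (↑F : Set E))) := by
      refine Ex_congr fun F _ => ind_congr (hA _ _ ?_)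
      ext x
      simp only [coe_insert, Set.mem_inter_iff, Set.mem_insert_iff, mem_coe]
      constructor
      · rintro ⟨h1 | h1, h2⟩
        · exact absurd (h1 ▸ h2) he
        · exact ⟨h1, h2⟩
      · rintro ⟨h1, h2⟩
        exact ⟨Or.inr h1, h2⟩
    rw [h1]
    unfold hp
    ring

end core

section

variable {Ω : Type*} [MeasurableSpace Ω] {μ : Measure Ω} [IsProbabilityMeasure μ]
  {ω : ℝ → Ω → Edg → Bool}

/-- probability of the event at one pair of times -/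
theorem f3_pair (e : Edg) {S : Finset Edg} {A : Set Edg → Prop}
    (hA : ∀ F G : Set Edg, F ∩ ↑S = G ∩ ↑S → (A F ↔ A G)) {s t : ℝ}
    (two : ∀ (T : Finset Edg) (A B : Finset Edg → Prop),
      μ.real {w | A (T.filter (fun e => ω s w e = true)) ∧
        B (T.filter (fun e => ω t w e = true))} =
      P2 (fun _ => Real.exp (-(t - s))) T A B) :
    μ.real {w | ω s w e ≠ ω t w e ∧ A (opE ω s w)} ≤
      (1 - Real.exp (-(t - s))) / 2 * Pr hp S (fun F => A ↑F) := by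
  classical
  set T := insert e S with hT
  have he : e ∈ T := mem_insert_self _ _
  have hloc : ∀ w, A (opE ω s w) ↔
      A (↑(T.filter (fun e => ω s w e = true)) : Set Edg) := by
    intro w
    apply hA
    ext x
    simp only [opE, Set.mem_inter_iff, Set.mem_setOf_eq, mem_coe, mem_filter]
    constructor
    · rintro ⟨h1, h2⟩
      exact ⟨⟨mem_insert_of_mem h2, h1⟩, h2⟩
    · rintro ⟨⟨_, h1⟩, h2⟩
      exact ⟨h1, h2⟩
  have hsub : {w | ω s w e ≠ ω t w e ∧ A (opE ω s w)} ⊆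
      {w | (e ∈ (T.filter (fun e => ω s w e = true)) ∧
          A (↑(T.filter (fun e => ω s w e = true)) : Set Edg)) ∧
          e ∉ (T.filter (fun e => ω t w e = true))} ∪
      {w | (e ∉ (T.filter (fun e => ω s w e = true)) ∧
          A (↑(T.filter (fun e => ω s w e = true)) : Set Edg)) ∧
          e ∈ (T.filter (fun e => ω t w e = true))} := by
    rintro w ⟨h1, h2⟩
    rw [hloc] at h2
    simp only [Set.mem_union, Set.mem_setOf_eq, mem_filter, he, true_and]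
    rcases hs : ω s w e with _ | _ <;> rcases ht : ω t w e with _ | _
    · exact absurd (hs.trans ht.symm) h1
    · right; exact ⟨⟨by simp, h2⟩, rfl⟩
    · left; exact ⟨⟨rfl, h2⟩, by simp⟩
    · exact absurd (hs.trans ht.symm) h1
  have e1 := two T (fun F => e ∈ F ∧ A (↑F : Set Edg)) (fun F => e ∉ F)
  have e2 := two T (fun F => e ∉ F ∧ A (↑F : Set Edg)) (fun F => e ∈ F)
  calc μ.real {w | ω s w e ≠ ω t w e ∧ A (opE ω s w)} ≤ _ := measureReal_mono hsub
    _ ≤ _ := measureReal_union_le _ _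
    _ = P2 (fun _ => Real.exp (-(t - s))) T (fun F => e ∈ F ∧ A (↑F : Set Edg))
          (fun F => e ∉ F) +
        P2 (fun _ => Real.exp (-(t - s))) T (fun F => e ∉ F ∧ A (↑F : Set Edg))
          (fun F => e ∈ F) := by rw [← e1, ← e2]
    _ = (1 - Real.exp (-(t - s))) / 2 * Pr hp T (fun F => A ↑F) := by
        have hT' : T = insert e (T.erase e) := (insert_erase he).symm
        rw [hT']
        exact f3_flip _ (notMem_erase e T) _
    _ = _ := by rw [hT, f3_Pr_insert hA]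

/-- the event at the dyadic times of order `n` -/
def f3E (ω : ℝ → Ω → Edg → Bool) (e : Edg) (A : Set Edg → Prop) (n : ℕ) : Set Ω :=
  {w | ∃ i : ℕ, i < 2 ^ n ∧ ω ((i:ℝ) / 2 ^ n) w e ≠ ω (((i:ℝ) + 1) / 2 ^ n) w e ∧
    A (opE ω ((i:ℝ) / 2 ^ n) w)}

theorem f3_En (e : Edg) {S : Finset Edg} {A : Set Edg → Prop}
    (hA : ∀ F G : Set Edg, F ∩ ↑S = G ∩ ↑S → (A F ↔ A G))
    (two : ∀ s t : ℝ, 0 ≤ s → s ≤ t → ∀ (T : Finset Edg) (A B : Finset Edg → Prop),
      μ.real {w | A (T.filter (fun e => ω s w e = true)) ∧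
        B (T.filter (fun e => ω t w e = true))} =
      P2 (fun _ => Real.exp (-(t - s))) T A B)
    (hp0 : 0 ≤ Pr hp S (fun F => A ↑F)) (n : ℕ) :
    μ.real (f3E ω e A n) ≤ Pr hp S (fun F => A ↑F) / 2 := by
  have hpos : (0:ℝ) < 2 ^ n := by positivity
  have hsub : f3E ω e A n ⊆ ⋃ i ∈ range (2 ^ n),
      {w | ω ((i:ℝ) / 2 ^ n) w e ≠ ω (((i:ℝ) + 1) / 2 ^ n) w e ∧
        A (opE ω ((i:ℝ) / 2 ^ n) w)} := by
    rintro w ⟨i, hi, h⟩
    simp only [Set.mem_iUnion, mem_range, exists_prop]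
    exact ⟨i, hi, h⟩
  have hone : ∀ i ∈ range (2 ^ n),
      μ.real {w | ω ((i:ℝ) / 2 ^ n) w e ≠ ω (((i:ℝ) + 1) / 2 ^ n) w e ∧
        A (opE ω ((i:ℝ) / 2 ^ n) w)} ≤ (1 / 2 ^ n) / 2 * Pr hp S (fun F => A ↑F) := by
    intro i _
    have hle : (i:ℝ) / 2 ^ n ≤ ((i:ℝ) + 1) / 2 ^ n := by
      apply div_le_div_of_nonneg_right _ hpos.le
      linarith
    refine (f3_pair (μ := μ) e hA (two _ _ (by positivity) hle)).trans ?_
    apply mul_le_mul_of_nonneg_right _ hp0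
    have hd : ((i:ℝ) + 1) / 2 ^ n - (i:ℝ) / 2 ^ n = 1 / 2 ^ n := by
      rw [← sub_div]; ring
    rw [hd]
    have := Real.add_one_le_exp (-(1 / 2 ^ n : ℝ))
    linarith
  calc μ.real (f3E ω e A n) ≤ _ := measureReal_mono hsub (measure_ne_top _ _)
    _ ≤ ∑ i ∈ range (2 ^ n), μ.real {w | ω ((i:ℝ) / 2 ^ n) w e ≠ ω (((i:ℝ) + 1) / 2 ^ n) w e ∧
        A (opE ω ((i:ℝ) / 2 ^ n) w)} := measureReal_biUnion_finset_le _ _
    _ ≤ ∑ i ∈ range (2 ^ n), (1 / 2 ^ n) / 2 * Pr hp S (fun F => A ↑F) := sum_le_sum hone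
    _ = Pr hp S (fun F => A ↑F) / 2 := by
        rw [sum_const, card_range, nsmul_eq_mul]
        push_cast
        field_simp

omit [MeasurableSpace Ω] in
/-- deterministic part -/
theorem f3_det {w : Ω} (hw : ∀ x : Edg,
      (∀ t : ℝ, 0 ≤ t → ∃ ε > 0, ∀ s : ℝ, t ≤ s → s < t + ε → ω s w x = ω t w x) ∧
      (∀ t : ℝ, 0 < t → ∃ ε > 0, ε ≤ t ∧ ∀ s s' : ℝ,
        t - ε < s → s < t → t - ε < s' → s' < t → ω s w x = ω s' w x))
    (e : Edg) {S : Finset Edg} {A : Set Edg → Prop}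
    (hA : ∀ F G : Set Edg, F ∩ ↑S = G ∩ ↑S → (A F ↔ A G)) {τ : ℝ} (h0 : 0 < τ) (h1 : τ ≤ 1)
    (hj : ¬ (e ∈ opL ω τ w ↔ e ∈ opE ω τ w)) (hAL : A (opL ω τ w)) :
    ∃ N : ℕ, ∀ n ≥ N, w ∈ f3E ω e A n := by
  classical
  choose ε hε0 hετ hε using fun x => (hw x).2 τ h0
  obtain ⟨ε', hε'0, hε'⟩ := (hw e).1 τ h0.le
  have hmem : ∀ (x : Edg) (s : ℝ), τ - ε x < s → s < τ →
      (x ∈ opL ω τ w ↔ ω s w x = true) := by
    intro x s hs1 hs2
    constructor
    · rintro ⟨δ, hδ, hδ2⟩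
      have hm : max (τ - δ) (τ - ε x) < τ := max_lt (by linarith) (by have := hε0 x; linarith)
      obtain ⟨u, hu1, hu2⟩ := exists_between hm
      rw [hε x s u hs1 hs2 (lt_of_le_of_lt (le_max_right _ _) hu1) hu2]
      exact hδ2 u (lt_of_le_of_lt (le_max_left _ _) hu1) hu2
    · intro h
      exact ⟨ε x, hε0 x, fun u hu1 hu2 => by rw [hε x u s hu1 hu2 hs1 hs2]; exact h⟩
  -- a common scale
  obtain ⟨δ, hδ0, hδ⟩ : ∃ δ > 0, ∀ x ∈ insert e S, δ ≤ ε x := by
    refine ⟨(insert e S).inf' ⟨e, mem_insert_self _ _⟩ ε, ?_, fun x hx => inf'_le _ hx⟩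
    exact (lt_inf'_iff _).2 fun x _ => hε0 x
  obtain ⟨N, hN⟩ := exists_pow_lt_of_lt_one (lt_min hδ0 hε'0) (by norm_num : (1/2 : ℝ) < 1)
  refine ⟨N, fun n hn => ?_⟩
  have hpos : (0:ℝ) < 2 ^ n := by positivity
  have hsmall : 1 / 2 ^ n < min δ ε' := by
    refine lt_of_le_of_lt ?_ hN
    rw [← one_div_pow]
    exact pow_le_pow_of_le_one (by norm_num) (by norm_num) hn
  have hs1 := lt_of_lt_of_le hsmall (min_le_left _ _)
  have hs2 := lt_of_lt_of_le hsmall (min_le_right _ _)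
  obtain ⟨i, hi1, hi2⟩ : ∃ i : ℕ, (i:ℝ) < τ * 2 ^ n ∧ τ * 2 ^ n ≤ (i:ℝ) + 1 := by
    have hp1 : 0 < ⌈τ * 2 ^ n⌉₊ := Nat.ceil_pos.2 (by positivity)
    refine ⟨⌈τ * 2 ^ n⌉₊ - 1, ?_, ?_⟩
    · have := Nat.ceil_lt_add_one (by positivity : 0 ≤ τ * 2 ^ n)
      rw [Nat.cast_sub hp1]
      push_cast
      linarith
    · have := Nat.le_ceil (τ * 2 ^ n)
      rw [Nat.cast_sub hp1]
      push_cast
      linarith
  have hs : (i:ℝ) / 2 ^ n < τ := by rwa [div_lt_iff₀ hpos]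
  have ht : τ ≤ ((i:ℝ) + 1) / 2 ^ n := by rwa [le_div_iff₀ hpos]
  have hst : ((i:ℝ) + 1) / 2 ^ n = (i:ℝ) / 2 ^ n + 1 / 2 ^ n := by rw [add_div]
  have hs' : τ - δ < (i:ℝ) / 2 ^ n := by linarith
  have ht' : ((i:ℝ) + 1) / 2 ^ n < τ + ε' := by linarith
  have hi : i < 2 ^ n := by
    have : (i:ℝ) < 2 ^ n := by nlinarith
    exact_mod_cast this
  refine ⟨i, hi, ?_, ?_⟩
  · intro heq
    apply hj
    rw [hmem e _ (by have := hδ e (mem_insert_self _ _); linarith) hs]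
    rw [heq, hε' _ ht ht']
    rfl
  · refine (hA _ _ ?_).1 hAL
    ext x
    simp only [Set.mem_inter_iff, mem_coe]
    constructor
    · rintro ⟨h2, h3⟩
      refine ⟨?_, h3⟩
      exact (hmem x _ (by have := hδ x (mem_insert_of_mem h3); linarith) hs).1 h2
    · rintro ⟨h2, h3⟩
      refine ⟨?_, h3⟩
      exact (hmem x _ (by have := hδ x (mem_insert_of_mem h3); linarith) hs).2 h2

theorem f3_core (h : IsDP μ ω) (e : Edg) (S : ℕ → Finset Edg) (A : ℕ → Set Edg → Prop)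
    (hA : ∀ R, ∀ F G : Set Edg, F ∩ ↑(S R) = G ∩ ↑(S R) → (A R F ↔ A R G))
    (two : ∀ s t : ℝ, 0 ≤ s → s ≤ t → ∀ (T : Finset Edg) (A B : Finset Edg → Prop),
      μ.real {w | A (T.filter (fun e => ω s w e = true)) ∧
        B (T.filter (fun e => ω t w e = true))} =
      P2 (fun _ => Real.exp (-(t - s))) T A B)
    (hp0 : ∀ R, 0 ≤ Pr hp (S R) (fun F => A R ↑F))
    (hlim : Filter.Tendsto (fun R => Pr hp (S R) (fun F => A R ↑F)) Filter.atTop (nhds 0)) :
    ∀ᵐ w ∂μ, ∀ τ : ℝ, 0 < τ → τ ≤ 1 → ¬ (e ∈ opL ω τ w ↔ e ∈ opE ω τ w) →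
      ∃ R : ℕ, ¬ A R (opL ω τ w) := by
  set good : Ω → Prop := fun w => ∀ x : Edg,
      (∀ t : ℝ, 0 ≤ t → ∃ ε > 0, ∀ s : ℝ, t ≤ s → s < t + ε → ω s w x = ω t w x) ∧
      (∀ t : ℝ, 0 < t → ∃ ε > 0, ε ≤ t ∧ ∀ s s' : ℝ,
        t - ε < s → s < t → t - ε < s' → s' < t → ω s w x = ω s' w x) with hgood
  set bad : Set Ω := {w | good w ∧ ∃ τ : ℝ, 0 < τ ∧ τ ≤ 1 ∧
    ¬ (e ∈ opL ω τ w ↔ e ∈ opE ω τ w) ∧ ∀ R, A R (opL ω τ w)} with hbad
  have key : ∀ R, μ bad ≤ ENNReal.ofReal (Pr hp (S R) (fun F => A R ↑F) / 2) := by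
    intro R
    have hsub : bad ⊆ ⋃ N : ℕ, ⋂ n ≥ N, f3E ω e (A R) n := by
      rintro w ⟨hw, τ, h0, h1, hj, hR⟩
      obtain ⟨N, hN⟩ := f3_det hw e (hA R) h0 h1 hj (hR R)
      simp only [Set.mem_iUnion, Set.mem_iInter]
      exact ⟨N, hN⟩
    have hmono : Monotone (fun N : ℕ => ⋂ n ≥ N, f3E ω e (A R) n) := by
      intro N M hNM w hw
      simp only [Set.mem_iInter] at hw ⊢
      exact fun n hn => hw n (hNM.trans hn)
    refine (measure_mono hsub).trans ?_
    rw [hmono.measure_iUnion]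
    refine iSup_le fun N => ?_
    have h2 : (⋂ n ≥ N, f3E ω e (A R) n) ⊆ f3E ω e (A R) N := by
      intro w hw
      simp only [Set.mem_iInter] at hw
      exact hw N le_rfl
    refine (measure_mono h2).trans ?_
    rw [← ofReal_measureReal]
    exact ENNReal.ofReal_le_ofReal (f3_En e (hA R) two (hp0 R) N)
  have hzero : μ bad = 0 := by
    have hl : Filter.Tendsto (fun R => ENNReal.ofReal (Pr hp (S R) (fun F => A R ↑F) / 2))
        Filter.atTop (nhds 0) := by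
      have := ENNReal.tendsto_ofReal (hlim.div_const 2)
      simpa using this
    exact nonpos_iff_eq_zero.1 (ge_of_tendsto' hl key)
  have hae : ∀ᵐ w ∂μ, w ∉ bad := measure_eq_zero_iff_ae_notMem.1 hzero
  filter_upwards [h.cadlag, hae] with w hw hb τ h0 h1 hj
  by_contra hcon
  push Not at hcon
  exact hb ⟨hw, τ, h0, h1, hj, hcon⟩

end

variable {Ω : Type*} [MeasurableSpace Ω] {μ : Measure Ω} [IsProbabilityMeasure μ]
  {ω : ℝ → Ω → Edg → Bool}

/-- F5: almost surely the configuration just before a jump of an edge does not have the two arms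
to infinity. -/
theorem dp_nojump (h : IsDP μ ω) (e : Edg) (a : ℕ) (ha : 1 ≤ a) :
    ∀ᵐ w ∂μ, ∀ τ : ℝ, 0 < τ → τ ≤ 1 → ¬ (e ∈ opL ω τ w ↔ e ∈ opE ω τ w) →
      ∃ R : ℕ, ¬ AA a (a + R) (opL ω τ w) := by
  obtain ⟨C, hC0, hC⟩ := H985T.AA_upper
  have hok : H974.Ok (hp : Edg → ℝ) := fun _ => by unfold hp; norm_num
  have hPr : ∀ R, Pr hp (An a (a + R)) (fun F => H985T.AA a (a + R) ↑F) = pAA a (a + R) :=
    fun R => rfl
  have hnn : ∀ R, 0 ≤ Pr hp (An a (a + R)) (fun F => H985T.AA a (a + R) ↑F) :=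
    fun R => H974.Pr_nonneg hok _ _
  have hlim : Filter.Tendsto (fun R => Pr hp (An a (a + R)) (fun F => H985T.AA a (a + R) ↑F))
      Filter.atTop (nhds 0) := by
    refine squeeze_zero hnn (g := fun R : ℕ => C * ((a:ℝ) / ((a + R : ℕ) : ℝ)) ^ (1/4 : ℝ))
      (fun R => by rw [hPr]; exact hC a (a + R) ha (Nat.le_add_right _ _)) ?_
    have h1 : Filter.Tendsto (fun R : ℕ => ((a + R : ℕ) : ℝ)) Filter.atTop Filter.atTop :=
      tendsto_natCast_atTop_atTop.comp (Filter.tendsto_atTop_mono (fun R => Nat.le_add_left R a)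
        Filter.tendsto_id)
    have h2 : Filter.Tendsto (fun R : ℕ => (a:ℝ) / ((a + R : ℕ) : ℝ)) Filter.atTop (nhds 0) :=
      Filter.Tendsto.div_atTop tendsto_const_nhds h1
    have h3 := h2.rpow_const (p := (1/4 : ℝ)) (Or.inr (by norm_num))
    rw [Real.zero_rpow (by norm_num)] at h3
    simpa using h3.const_mul C
  exact f3_core h e (fun R => An a (a + R)) (fun R => H985T.AA a (a + R))
    (fun R F G hFG => H985T.AA_congr hFG)
    (fun s t hs hst T A B => dp_two h hs hst T A B) hnn hlim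

end H389NS
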