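import Pool.Agent.H389R2.NS.F0
import Pool.Agent.H389R2.NS.F2

/-! Dynamical percolation: deterministic part. -/

set_option autoImplicit false

namespace H389NS

open H974 H12S H985T Finset MeasureTheory

/-- first exit of a dual path from a box -/
theorem F4_dexit {a b N : ℕ} (hab : a ≤ b) (hN : b ≤ N) {F : Set Edg} {w w' : Vtx}
    (hw : nb a w) (hw' : nb N w') (h : DReach (↑(An a N) \ F) w w') :
    ∃ z, nb b z ∧ DReach (↑(An a b) \ F) w z := by
  have key : ∀ x, DReach (↑(An a N) \ F) w x →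
      (∃ z, nb b z ∧ DReach (↑(An a b) \ F) w z) ∨
      (((-(b:ℤ) ≤ x.1 ∧ x.1 < b) ∧ (-(b:ℤ) ≤ x.2 ∧ x.2 < b)) ∧
        DReach (↑(An a b) \ F) w x) := by
    intro x hx
    induction hx with
    | refl =>
      by_cases hin : (-(b:ℤ) ≤ w.1 ∧ w.1 < b) ∧ (-(b:ℤ) ≤ w.2 ∧ w.2 < b)
      · exact Or.inr ⟨hin, DReach.refl _ _⟩
      · left
        refine ⟨w, ?_, DReach.refl _ _⟩
        unfold nb at hw ⊢
        omega
    | @tail x y _ hs ih =>
      rcases ih with ih | ⟨hx1, hx2⟩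
      · exact Or.inl ih
      · obtain ⟨⟨p, q, β⟩, he, hcase⟩ := hs
        have heb : ((p, q, β) : Edg) ∈ boxE b := by
          unfold boxE
          cases β
          · rw [mem_RE_false]
            simp only [dtgt_mk, dsrc_false] at hcase
            rcases hcase with ⟨h1, _⟩ | ⟨_, h1⟩ <;> rw [← h1] at hx1 <;>
              simp only at hx1 <;> omega
          · rw [mem_RE_true]
            simp only [dtgt_mk, dsrc_true] at hcase
            rcases hcase with ⟨h1, _⟩ | ⟨_, h1⟩ <;> rw [← h1] at hx1 <;>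
              simp only at hx1 <;> omega
        have hadj : DAdj (↑(An a b) \ F) x y :=
          ⟨(p, q, β), ⟨mem_coe.2 (INDI_memAn.2 ⟨heb, (INDI_memAn.1 (mem_coe.1 he.1)).2⟩), he.2⟩,
            hcase⟩
        have hr : DReach (↑(An a b) \ F) w y := Relation.ReflTransGen.tail hx2 hadj
        by_cases hin : (-(b:ℤ) ≤ y.1 ∧ y.1 < b) ∧ (-(b:ℤ) ≤ y.2 ∧ y.2 < b)
        · exact Or.inr ⟨hin, hr⟩
        · left
          refine ⟨y, ?_, hr⟩
          unfold nb
          cases β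
          · simp only [dtgt_mk, dsrc_false] at hcase
            rcases hcase with ⟨h1, h2⟩ | ⟨h2, h1⟩ <;> rw [← h1] at hx1 <;> rw [← h2] at hin ⊢ <;>
              simp only at hx1 hin ⊢ <;> omega
          · simp only [dtgt_mk, dsrc_true] at hcase
            rcases hcase with ⟨h1, h2⟩ | ⟨h2, h1⟩ <;> rw [← h1] at hx1 <;> rw [← h2] at hin ⊢ <;>
              simp only at hx1 hin ⊢ <;> omega
  rcases key w' h with h1 | ⟨h1, _⟩
  · exact h1
  · exfalso
    unfold nb at hw'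
    omega

/-- outer radius -/
theorem F4_AA_outer {a b N : ℕ} (hab : a ≤ b) (hN : b ≤ N) {F : Set Edg} (h : AA a N F) :
    AA a b F := by
  obtain ⟨⟨u, u', hu, hu', hr⟩, w, w', hw, hw', hd⟩ := h
  constructor
  · have hin : inR (-(b:ℤ)) b (-(b:ℤ)) b u := by
      obtain ⟨h1, _⟩ := hu
      unfold inR at h1 ⊢
      omega
    obtain ⟨z, h1, h2, h3⟩ := first_exit hin hr (by
      obtain ⟨_, h1⟩ := hu'
      omega)
    refine ⟨u, z, hu, ⟨h1, h2⟩, h3.mono ?_⟩
    rintro x ⟨⟨k1, k2⟩, k3⟩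
    exact ⟨k1, mem_coe.2 (INDI_memAn.2 ⟨mem_coe.1 k3, (INDI_memAn.1 (mem_coe.1 k2)).2⟩)⟩
  · obtain ⟨z, h1, h2⟩ := F4_dexit hab hN hw hw' hd
    exact ⟨w, z, hw, h1, h2⟩

/-- The two-arm event of an annulus is local. -/
theorem AA_congr408 {a N : ℕ} {F G : Set Edg} (hFG : ∀ e ∈ An a N, e ∈ F ↔ e ∈ G)
    (h : AA a N F) : AA a N G := by
  have h1 : F ∩ ↑(An a N) = G ∩ ↑(An a N) := by
    ext e
    simp only [Set.mem_inter_iff, Finset.mem_coe]
    constructor
    · rintro ⟨h1, h2⟩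
      exact ⟨(hFG e h2).mp h1, h2⟩
    · rintro ⟨h1, h2⟩
      exact ⟨(hFG e h2).mpr h1, h2⟩
  have h2 : (↑(An a N) : Set Edg) \ F = ↑(An a N) \ G := by
    ext e
    simp only [Set.mem_sdiff, Finset.mem_coe]
    constructor
    · rintro ⟨h1, h2⟩
      exact ⟨h1, fun h3 => h2 ((hFG e h1).mpr h3)⟩
    · rintro ⟨h1, h2⟩
      exact ⟨h1, fun h3 => h2 ((hFG e h1).mp h3)⟩
  unfold H985T.AA at h ⊢
  rw [← h1, ← h2]
  exact h

/-- a common `ε` for finitely many edges -/
theorem common_eps408 (S : Finset Edg) (P : Edg → ℝ → Prop)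
    (hP : ∀ e, ∃ ε > 0, P e ε) (hm : ∀ e ε ε', P e ε → 0 < ε' → ε' ≤ ε → P e ε') :
    ∃ ε > 0, ∀ e ∈ S, P e ε := by
  classical
  induction S using Finset.induction_on with
  | empty => exact ⟨1, one_pos, by simp⟩
  | insert e S _ ih =>
    obtain ⟨ε1, h1, h2⟩ := ih
    obtain ⟨ε2, h3, h4⟩ := hP e
    refine ⟨min ε1 ε2, lt_min h1 h3, fun e' he' => ?_⟩
    rcases Finset.mem_insert.mp he' with rfl | he'
    · exact hm _ _ _ h4 (lt_min h1 h3) (min_le_right _ _)
    · exact hm _ _ _ (h2 e' he') (lt_min h1 h3) (min_le_left _ _)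

/-- F6: compactness. -/
theorem dp_compact {Ω : Type*} {ω : ℝ → Ω → Edg → Bool} {w : Ω}
    (hc : ∀ x : Edg,
      (∀ t : ℝ, 0 ≤ t → ∃ ε > 0, ∀ s : ℝ, t ≤ s → s < t + ε → ω s w x = ω t w x) ∧
      (∀ t : ℝ, 0 < t → ∃ ε > 0, ε ≤ t ∧ ∀ s s' : ℝ,
        t - ε < s → s < t → t - ε < s' → s' < t → ω s w x = ω s' w x))
    {a : ℕ} (hV : ∀ R : ℕ, w ∈ VV ω a (a + R))
    (hj : ∀ (e : Edg) (τ : ℝ), 0 < τ → τ ≤ 1 → ¬ (e ∈ opL ω τ w ↔ e ∈ opE ω τ w) →
      ∃ R : ℕ, ¬ AA a (a + R) (opL ω τ w)) :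
    ∃ t : ℝ, 0 ≤ t ∧ t ≤ 1 ∧ ∀ R : ℕ, AA a (a + R) (opE ω t w) := by
  have h0 : ∀ R : ℕ, ∃ t : ℝ, t ∈ Set.Icc (0:ℝ) 1 ∧ AA a (a + R) (opE ω t w) := by
    intro R
    obtain ⟨n, i, hi, h⟩ := hV R
    refine ⟨(i:ℝ) / 2 ^ n, ⟨by positivity, ?_⟩, h⟩
    rw [div_le_one (by positivity)]
    exact_mod_cast hi.le
  choose T hT hA using h0
  obtain ⟨t, ht, φ, hφ, hlim⟩ := isCompact_Icc.tendsto_subseq hT
  have hφR : ∀ R0 : ℕ, ∀ᶠ k in Filter.atTop, R0 ≤ φ k := fun R0 =>
    hφ.tendsto_atTop.eventually_ge_atTop R0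
  have hclose : ∀ ε : ℝ, 0 < ε → ∀ᶠ k in Filter.atTop, t - ε < T (φ k) ∧ T (φ k) < t + ε := by
    intro ε hε
    exact hlim.eventually (Ioo_mem_nhds (by linarith) (by linarith))
  by_cases hcase : ∃ᶠ k in Filter.atTop, t ≤ T (φ k)
  · refine ⟨t, ht.1, ht.2, fun R0 => ?_⟩
    obtain ⟨ε, hε, hE⟩ := common_eps408 (An a (a + R0))
      (fun e ε => ∀ s : ℝ, t ≤ s → s < t + ε → ω s w e = ω t w e)
      (fun e => (hc e).1 t ht.1)
      (fun e ε ε' h _ h2 s hs1 hs2 => h s hs1 (by linarith))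
    obtain ⟨k, hk1, hk2, hk3⟩ :=
      (hcase.and_eventually ((hclose ε hε).and (hφR R0))).exists
    have h1 : AA a (a + R0) (opE ω (T (φ k)) w) :=
      F4_AA_outer (by omega) (by omega) (hA (φ k))
    refine AA_congr408 (fun e he => ?_) h1
    have h2 := hE e he (T (φ k)) hk1 hk2.2
    show ω (T (φ k)) w e = true ↔ ω t w e = true
    rw [h2]
  · rw [Filter.not_frequently] at hcase
    have ht0 : 0 < t := by
      obtain ⟨k, hk⟩ := hcase.exists
      exact lt_of_le_of_lt (hT (φ k)).1 (not_le.mp hk)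
    have hL : ∀ R0 : ℕ, AA a (a + R0) (opL ω t w) := by
      intro R0
      obtain ⟨ε, hε, hE⟩ := common_eps408 (An a (a + R0))
        (fun e ε => ∀ s s' : ℝ, t - ε < s → s < t → t - ε < s' → s' < t → ω s w e = ω s' w e)
        (fun e => by
          obtain ⟨ε, h1, _, h2⟩ := (hc e).2 t ht0
          exact ⟨ε, h1, h2⟩)
        (fun e ε ε' h _ h2 s s' hs1 hs2 hs3 hs4 => h s s' (by linarith) hs2 (by linarith) hs4)
      obtain ⟨k, hk1, hk2, hk3⟩ := (hcase.and ((hclose ε hε).and (hφR R0))).exists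
      have h1 : AA a (a + R0) (opE ω (T (φ k)) w) :=
        F4_AA_outer (by omega) (by omega) (hA (φ k))
      refine AA_congr408 (fun e he => ?_) h1
      have hlt : T (φ k) < t := not_le.mp hk1
      show ω (T (φ k)) w e = true ↔ ∃ ε > 0, ∀ s : ℝ, t - ε < s → s < t → ω s w e = true
      constructor
      · intro h
        refine ⟨ε, hε, fun s hs1 hs2 => ?_⟩
        rw [hE e he s (T (φ k)) hs1 hs2 hk2.1 hlt]
        exact h
      · rintro ⟨ε', hε', h⟩
        set s := t - min ε ε' / 2 with hs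
        have hm : 0 < min ε ε' := lt_min hε hε'
        have hm1 : min ε ε' ≤ ε := min_le_left _ _
        have hm2 : min ε ε' ≤ ε' := min_le_right _ _
        rw [hE e he (T (φ k)) s hk2.1 hlt (by linarith) (by linarith)]
        exact h s (by linarith) (by linarith)
    by_cases hall : ∀ e : Edg, (e ∈ opL ω t w ↔ e ∈ opE ω t w)
    · refine ⟨t, ht.1, ht.2, fun R => ?_⟩
      exact AA_congr408 (fun e _ => hall e) (hL R)
    · push Not at hall
      obtain ⟨e, he⟩ := hall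
      have he' : ¬ (e ∈ opL ω t w ↔ e ∈ opE ω t w) := by
        intro h
        rcases he with ⟨h1, h2⟩ | ⟨h1, h2⟩
        · exact h2 (h.mp h1)
        · exact h1 (h.mpr h2)
      obtain ⟨R, hR⟩ := hj e t ht0 ht.2 he'
      exact absurd (hL R) hR

theorem onB_finite408 (a : ℕ) : {u : Vtx | onB a u}.Finite := by
  refine (Set.Finite.prod (Set.finite_Icc (-(a:ℤ)) a) (Set.finite_Icc (-(a:ℤ)) a)).subset ?_
  rintro ⟨x, y⟩ h
  have h1 := h.1
  unfold inR at h1
  simp only [Set.mem_prod, Set.mem_Icc]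
  simp only at h1
  omega

theorem onB_inj408 {m n : ℕ} {u : Vtx} (h : onB m u) (h' : onB n u) : m = n := by
  unfold onB inR at h h'
  omega

theorem nb_finite408 (a : ℕ) : {u : Vtx | nb a u}.Finite := by
  refine (Set.Finite.prod (Set.finite_Icc (-(a:ℤ) - 1) a) (Set.finite_Icc (-(a:ℤ) - 1) a)).subset ?_
  rintro ⟨x, y⟩ h
  have h1 : nb a (x, y) := h
  unfold nb at h1
  simp only [Set.mem_prod, Set.mem_Icc]
  simp only at h1
  omega

theorem nb_inj408 {m n : ℕ} {u : Vtx} (h : nb m u) (h' : nb n u) : m = n := by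
  unfold nb at h h'
  omega

/-- F7: two arms to infinity give infinite clusters. -/
theorem AA_infinite {a : ℕ} {F : Set Edg} (h : ∀ R : ℕ, AA a (a + R) F) :
    (∃ v : Vtx, {u | Reach F v u}.Infinite) ∧ ∃ f : Vtx, {g | DReach Fᶜ f g}.Infinite := by
  constructor
  · by_contra hcon
    push Not at hcon
    have hfin : (⋃ v ∈ {u : Vtx | onB a u}, {u | Reach F v u}).Finite :=
      (onB_finite408 a).biUnion fun v _ => hcon v
    choose u u' hu hu' hr using fun R => (h R).1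
    have hinj : Function.Injective u' := by
      intro R R' he
      have h1 := hu' R
      rw [he] at h1
      have := onB_inj408 h1 (hu' R')
      omega
    refine (Set.infinite_of_injective_forall_mem hinj fun R => ?_) hfin
    simp only [Set.mem_iUnion]
    exact ⟨u R, hu R, (hr R).mono Set.inter_subset_left⟩
  · by_contra hcon
    push Not at hcon
    have hfin : (⋃ v ∈ {u : Vtx | nb a u}, {u | DReach Fᶜ v u}).Finite :=
      (nb_finite408 a).biUnion fun v _ => hcon v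
    choose u u' hu hu' hr using fun R => (h R).2
    have hinj : Function.Injective u' := by
      intro R R' he
      have h1 := hu' R
      rw [he] at h1
      have := nb_inj408 h1 (hu' R')
      omega
    refine (Set.infinite_of_injective_forall_mem hinj fun R => ?_) hfin
    simp only [Set.mem_iUnion]
    exact ⟨u R, hu R, (hr R).mono fun e he => he.2⟩

end H389NS
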