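import Pool.Agent.H389R2.NS.Defs

/-! The Schramm-Steif inequality. -/

set_option autoImplicit false

namespace H389NS

open H974 H12S Finset

variable {E : Type*} [DecidableEq E]

namespace SSx

theorem hp_ok : Ok (hp : E → ℝ) := fun e => by unfold hp; norm_num

theorem Ex_hp (V : Finset E) (F : Finset E → ℝ) :
    Ex hp V F = (1 / 2 : ℝ) ^ V.card * ∑ Y ∈ V.powerset, F Y := by
  unfold Ex
  rw [Finset.mul_sum]
  refine Finset.sum_congr rfl fun Y hY => ?_
  have hY' := Finset.mem_powerset.1 hY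
  have h1 : (∏ e ∈ Y, (hp e : ℝ)) * (∏ e ∈ V \ Y, (1 - hp e)) = (1 / 2 : ℝ) ^ V.card := by
    have e1 : ∏ e ∈ Y, (hp e : ℝ) = (1 / 2 : ℝ) ^ Y.card := by
      simp [hp, Finset.prod_const]
    have e2 : ∏ e ∈ V \ Y, (1 - hp e : ℝ) = (1 / 2 : ℝ) ^ (V \ Y).card := by
      rw [← Finset.prod_const]
      refine Finset.prod_congr rfl fun e _ => ?_
      unfold hp
      norm_num
    rw [e1, e2, ← pow_add]
    congr 1
    rw [add_comm, Finset.card_sdiff_add_card_eq_card hY']
  rw [h1]

/-! ### characters -/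

theorem chi_insert {a : E} {F : Finset E} (ha : a ∉ F) (T : Finset E) :
    chi T (insert a F) = (if a ∈ T then -1 else 1) * chi (T.erase a) F := by
  have h0 : F ∩ T = F ∩ T.erase a := by
    ext x
    simp only [Finset.mem_inter, Finset.mem_erase]
    constructor
    · rintro ⟨h1, h2⟩
      exact ⟨h1, fun h => ha (h ▸ h1), h2⟩
    · rintro ⟨h1, _, h2⟩
      exact ⟨h1, h2⟩
  unfold chi
  by_cases h : a ∈ T
  · rw [if_pos h, Finset.insert_inter_of_mem h, Finset.card_insert_of_notMem (by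
      simp [ha]), pow_succ, h0]
    ring
  · rw [if_neg h, Finset.insert_inter_of_notMem h, h0, one_mul]

theorem chi_erase {a : E} {F : Finset E} (ha : a ∉ F) (T : Finset E) :
    chi T F = chi (T.erase a) F := by
  have h0 : F ∩ T = F ∩ T.erase a := by
    ext x
    simp only [Finset.mem_inter, Finset.mem_erase]
    constructor
    · rintro ⟨h1, h2⟩
      exact ⟨h1, fun h => ha (h ▸ h1), h2⟩
    · rintro ⟨h1, _, h2⟩
      exact ⟨h1, h2⟩
  unfold chi
  rw [h0]

theorem orth (W : Finset E) : ∀ S T : Finset E, S ⊆ W → T ⊆ W →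
    Ex hp W (fun F => chi S F * chi T F) = if S = T then 1 else 0 := by
  induction W using Finset.induction_on with
  | empty =>
    intro S T hS hT
    have h1 := Finset.subset_empty.1 hS
    have h2 := Finset.subset_empty.1 hT
    subst h1
    subst h2
    rw [Ex_empty]
    simp [chi]
  | insert a W ha ih =>
    intro S T hS hT
    have hS' : S.erase a ⊆ W := by
      intro x hx
      rw [Finset.mem_erase] at hx
      exact (Finset.mem_insert.1 (hS hx.2)).resolve_left hx.1
    have hT' : T.erase a ⊆ W := by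
      intro x hx
      rw [Finset.mem_erase] at hx
      exact (Finset.mem_insert.1 (hT hx.2)).resolve_left hx.1
    have h := ih _ _ hS' hT'
    rw [Ex_insert hp ha]
    have e1 : Ex hp W (fun F => chi S (insert a F) * chi T (insert a F)) =
        ((if a ∈ S then -1 else 1) * (if a ∈ T then -1 else 1)) *
          (if S.erase a = T.erase a then 1 else 0) := by
      rw [← h, ← Ex_mul_left]
      refine Ex_congr fun F hF => ?_
      have haF : a ∉ F := fun h => ha (hF h)
      rw [chi_insert haF, chi_insert haF]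
      ring
    have e2 : Ex hp W (fun F => chi S F * chi T F) =
        (if S.erase a = T.erase a then 1 else 0) := by
      rw [← h]
      refine Ex_congr fun F hF => ?_
      have haF : a ∉ F := fun h => ha (hF h)
      rw [chi_erase haF S, chi_erase haF T]
    rw [e1, e2]
    have hp2 : hp a = 1 / 2 := rfl
    rw [hp2]
    by_cases h1 : a ∈ S <;> by_cases h2 : a ∈ T
    · have : (S.erase a = T.erase a) ↔ S = T := by
        constructor
        · intro h
          rw [← Finset.insert_erase h1, ← Finset.insert_erase h2, h]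
        · rintro rfl; rfl
      simp only [this, h1, h2, if_true]
      split_ifs <;> norm_num
    · have : S ≠ T := by rintro rfl; exact h2 h1
      rw [if_neg this, if_pos h1, if_neg h2]
      ring
    · have : S ≠ T := by rintro rfl; exact h1 h2
      rw [if_neg this, if_neg h1, if_pos h2]
      ring
    · have : (S.erase a = T.erase a) ↔ S = T := by
        rw [Finset.erase_eq_of_notMem h1, Finset.erase_eq_of_notMem h2]
      simp only [this, h1, h2, if_false]
      split_ifs <;> norm_num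

theorem Ex_chi {W T : Finset E} (hT : T ⊆ W) (h : T.Nonempty) : Ex hp W (chi T) = 0 := by
  have h1 := orth W ∅ T (Finset.empty_subset _) hT
  rw [if_neg (Ne.symm h.ne_empty)] at h1
  rw [← h1]
  refine Ex_congr fun F _ => ?_
  simp [chi]

theorem chi_union {A B T r : Finset E} (hA : A ⊆ r) (hB : Disjoint B r) :
    chi T (A ∪ B) = chi T A * chi (T \ r) B := by
  unfold chi
  rw [← pow_add]
  congr 1
  have h1 : (A ∪ B) ∩ T = (A ∩ T) ∪ (B ∩ (T \ r)) := by
    ext x
    simp only [Finset.mem_inter, Finset.mem_union, Finset.mem_sdiff]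
    constructor
    · rintro ⟨h | h, h2⟩
      · exact Or.inl ⟨h, h2⟩
      · exact Or.inr ⟨h, h2, fun h3 => Finset.disjoint_left.1 hB h h3⟩
    · rintro (⟨h, h2⟩ | ⟨h, h2, _⟩)
      · exact ⟨Or.inl h, h2⟩
      · exact ⟨Or.inr h, h2⟩
  rw [h1, Finset.card_union_of_disjoint]
  rw [Finset.disjoint_left]
  intro x hx hx'
  rw [Finset.mem_inter] at hx hx'
  exact Finset.disjoint_left.1 hB hx'.1 (hA hx.1)

/-- orthogonality for linear combinations -/
theorem orth_sum {W : Finset E} {ι κ : Type*} (s : Finset ι) (t : Finset κ) (u : ι → ℝ)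
    (v : κ → ℝ) (U : ι → Finset E) (U' : κ → Finset E) (hU : ∀ i ∈ s, U i ⊆ W)
    (hU' : ∀ k ∈ t, U' k ⊆ W) :
    Ex hp W (fun F => (∑ i ∈ s, u i * chi (U i) F) * (∑ k ∈ t, v k * chi (U' k) F)) =
      ∑ i ∈ s, ∑ k ∈ t, u i * v k * (if U i = U' k then 1 else 0) := by
  have h1 : ∀ F, (∑ i ∈ s, u i * chi (U i) F) * (∑ k ∈ t, v k * chi (U' k) F) =
      ∑ i ∈ s, ∑ k ∈ t, u i * v k * (chi (U i) F * chi (U' k) F) := by
    intro F
    rw [Finset.sum_mul_sum]
    refine Finset.sum_congr rfl fun i _ => Finset.sum_congr rfl fun k _ => ?_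
    ring
  rw [Ex_congr (fun F _ => h1 F), Ex_sum]
  refine Finset.sum_congr rfl fun i hi => ?_
  rw [Ex_sum]
  refine Finset.sum_congr rfl fun k hk => ?_
  rw [Ex_mul_left, orth W _ _ (hU i hi) (hU' k hk)]

/-! ### atoms -/

/-- the atoms of a stopping set -/
def atoms (V : Finset E) (R : Finset E → Finset E) : Finset (Finset E) :=
  V.powerset.filter fun A => A ⊆ R A

theorem R_atom {V : Finset E} {R : Finset E → Finset E}
    (hRs : ∀ Y Y', Y ⊆ V → Y' ⊆ V → Y ∩ R Y = Y' ∩ R Y → R Y' = R Y) {A B : Finset E}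
    (hA : A ∈ atoms V R) (hB : B ⊆ V \ R A) : R (A ∪ B) = R A := by
  obtain ⟨h1, h2⟩ := Finset.mem_filter.1 hA
  have hAV := Finset.mem_powerset.1 h1
  refine hRs A (A ∪ B) hAV (Finset.union_subset hAV (hB.trans Finset.sdiff_subset)) ?_
  rw [Finset.union_inter_distrib_right]
  have : B ∩ R A = ∅ := by
    rw [← Finset.disjoint_iff_inter_eq_empty]
    exact Finset.disjoint_of_subset_left hB Finset.sdiff_disjoint
  rw [this, Finset.union_empty]

theorem decomp {V : Finset E} {R : Finset E → Finset E} (hRV : ∀ Y, Y ⊆ V → R Y ⊆ V)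
    (hRs : ∀ Y Y', Y ⊆ V → Y' ⊆ V → Y ∩ R Y = Y' ∩ R Y → R Y' = R Y) (F : Finset E → ℝ) :
    Ex hp V F = ∑ A ∈ atoms V R, (1 / 2 : ℝ) ^ (R A).card *
      Ex hp (V \ R A) (fun B => F (A ∪ B)) := by
  have hcls : ∀ Y, Y ⊆ V → R (Y ∩ R Y) = R Y := by
    intro Y hY
    refine hRs Y (Y ∩ R Y) hY (Finset.inter_subset_left.trans hY) ?_
    rw [Finset.inter_assoc, Finset.inter_self]
  rw [Ex_hp, ← Finset.sum_fiberwise_of_maps_to (t := atoms V R) (g := fun Y => Y ∩ R Y)
    (by
      intro Y hY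
      have hY' := Finset.mem_powerset.1 hY
      refine Finset.mem_filter.2 ⟨Finset.mem_powerset.2 (Finset.inter_subset_left.trans hY'), ?_⟩
      rw [hcls Y hY']
      exact Finset.inter_subset_right), Finset.mul_sum]
  refine Finset.sum_congr rfl fun A hA => ?_
  obtain ⟨h1, h2⟩ := Finset.mem_filter.1 hA
  have hAV := Finset.mem_powerset.1 h1
  rw [Ex_hp, ← mul_assoc, ← pow_add]
  have hcard : (R A).card + (V \ R A).card = V.card := by
    rw [add_comm, Finset.card_sdiff_add_card_eq_card (hRV A hAV)]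
  rw [hcard]
  congr 1
  refine Finset.sum_bij' (fun Y _ => Y \ R A) (fun B _ => A ∪ B) ?_ ?_ ?_ ?_ ?_
  · intro Y hY
    obtain ⟨h3, _⟩ := Finset.mem_filter.1 hY
    exact Finset.mem_powerset.2 (Finset.sdiff_subset_sdiff (Finset.mem_powerset.1 h3)
      (Finset.Subset.refl _))
  · intro B hB
    have hB' := Finset.mem_powerset.1 hB
    refine Finset.mem_filter.2 ⟨Finset.mem_powerset.2 (Finset.union_subset hAV
      (hB'.trans Finset.sdiff_subset)), ?_⟩
    show (A ∪ B) ∩ R (A ∪ B) = A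
    rw [R_atom hRs hA hB', Finset.union_inter_distrib_right]
    have : B ∩ R A = ∅ := by
      rw [← Finset.disjoint_iff_inter_eq_empty]
      exact Finset.disjoint_of_subset_left hB' Finset.sdiff_disjoint
    rw [this, Finset.union_empty]
    exact Finset.inter_eq_left.2 h2
  · intro Y hY
    obtain ⟨h3, h4⟩ := Finset.mem_filter.1 hY
    have h5 : R A = R Y := by
      rw [← h4]
      exact hcls Y (Finset.mem_powerset.1 h3)
    show A ∪ Y \ R A = Y
    rw [h5]
    conv_lhs => rw [← h4]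
    ext x
    simp only [Finset.mem_union, Finset.mem_inter, Finset.mem_sdiff]
    tauto
  · intro B hB
    have hB' := Finset.mem_powerset.1 hB
    show (A ∪ B) \ R A = B
    rw [Finset.union_sdiff_distrib, Finset.sdiff_eq_empty_iff_subset.2 h2, Finset.empty_union]
    exact Finset.sdiff_eq_self_of_disjoint
      (Finset.disjoint_of_subset_left hB' Finset.sdiff_disjoint)
  · intro Y hY
    obtain ⟨h3, h4⟩ := Finset.mem_filter.1 hY
    have h5 : R A = R Y := by
      rw [← h4]
      exact hcls Y (Finset.mem_powerset.1 h3)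
    show F Y = F (A ∪ Y \ R A)
    congr 1
    rw [h5]
    conv_rhs => rw [← h4]
    ext x
    simp only [Finset.mem_union, Finset.mem_inter, Finset.mem_sdiff]
    tauto

theorem sq_Ex_le (W : Finset E) (b : Finset E → ℝ) :
    (Ex hp W b) ^ 2 ≤ Ex hp W (fun F => b F ^ 2) := by
  have h := Ex_nonneg (hp_ok (E := E)) (S := W) (f := fun F => (b F - Ex hp W b) ^ 2)
    (fun F _ => sq_nonneg _)
  have e : Ex hp W (fun F => (b F - Ex hp W b) ^ 2) =
      Ex hp W (fun F => b F ^ 2) - 2 * Ex hp W b * Ex hp W b + (Ex hp W b) ^ 2 := by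
    have h1 : ∀ F, (b F - Ex hp W b) ^ 2 =
        (b F ^ 2 - (2 * Ex hp W b) * b F) + (Ex hp W b) ^ 2 := by intro F; ring
    rw [Ex_congr (fun F _ => h1 F), Ex_add, Ex_const, Ex_sub, Ex_mul_left]
  rw [e] at h
  nlinarith

end SSx

/-- SS: the Schramm-Steif inequality for block families and stopping sets. -/
theorem schramm_steif {ι : Type*} [DecidableEq ι] {V : Finset E} {f : Finset E → ℝ}
    (hf : ∀ F, F ⊆ V → |f F| ≤ 1) (β : E → ι) (R : Finset E → Finset E)
    (hRV : ∀ Y, Y ⊆ V → R Y ⊆ V)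
    (hRb : ∀ Y, Y ⊆ V → ∀ e ∈ R Y, ∀ e' ∈ V, β e' = β e → e' ∈ R Y)
    (hRs : ∀ Y Y', Y ⊆ V → Y' ⊆ V → Y ∩ R Y = Y' ∩ R Y → R Y' = R Y)
    (hRf : ∀ Y Y', Y ⊆ V → Y' ⊆ V → Y ∩ R Y = Y' ∩ R Y → f Y' = f Y)
    {j : ℕ} (hj : 1 ≤ j) {𝓕 : Finset (Finset E)} (hF : ∀ T ∈ 𝓕, T ⊆ V ∧ (T.image β).card = j)
    {δ : ℝ} (hδ0 : 0 ≤ δ) (hδ : ∀ T ∈ 𝓕, Pr hp V (fun Y => ¬ Disjoint T (R Y)) ≤ δ) :
    ∑ T ∈ 𝓕, (wal V f T) ^ 2 ≤ δ := by
  classical
  set w : Finset E → ℝ := fun T => wal V f T with hw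
  set g : Finset E → ℝ := fun F => ∑ T ∈ 𝓕, w T * chi T F with hg
  set S : ℝ := ∑ T ∈ 𝓕, (w T) ^ 2 with hS
  have hS0 : 0 ≤ S := Finset.sum_nonneg fun T _ => sq_nonneg _
  have hFne : ∀ T ∈ 𝓕, T.Nonempty := by
    intro T hT
    rw [Finset.nonempty_iff_ne_empty]
    rintro rfl
    have := (hF _ hT).2
    simp at this
    omega
  -- (1)
  have h1 : Ex hp V (fun F => f F * g F) = S := by
    have e : ∀ F, f F * g F = ∑ T ∈ 𝓕, w T * (chi T F * f F) := by
      intro F
      rw [hg, Finset.mul_sum]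
      refine Finset.sum_congr rfl fun T _ => ?_
      ring
    rw [Ex_congr (fun F _ => e F), Ex_sum, hS]
    refine Finset.sum_congr rfl fun T _ => ?_
    rw [Ex_mul_left]
    show w T * wal V f T = w T ^ 2
    rw [hw]
    ring
  -- (2)
  have h2 : Ex hp V (fun F => g F ^ 2) = S := by
    have e : ∀ F, g F ^ 2 = (∑ T ∈ 𝓕, w T * chi T F) * (∑ T ∈ 𝓕, w T * chi T F) := by
      intro F
      rw [hg]
      ring
    rw [Ex_congr (fun F _ => e F), SSx.orth_sum 𝓕 𝓕 w w (fun T => T) (fun T => T)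
      (fun T hT => (hF T hT).1) (fun T hT => (hF T hT).1), hS]
    refine Finset.sum_congr rfl fun T hT => ?_
    simp only [mul_ite, mul_one, mul_zero]
    rw [Finset.sum_ite_eq, if_pos hT]
    ring
  set At := SSx.atoms V R with hAt
  set p : Finset E → ℝ := fun A => (1 / 2 : ℝ) ^ (R A).card with hpdef
  set c : Finset E → ℝ := fun A => Ex hp (V \ R A) (fun B => g (A ∪ B)) with hc
  have hp0 : ∀ A, 0 ≤ p A := fun A => by rw [hpdef]; positivity
  have hAtm : ∀ A ∈ At, A ⊆ V ∧ A ⊆ R A := by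
    intro A hA
    obtain ⟨h3, h4⟩ := Finset.mem_filter.1 hA
    exact ⟨Finset.mem_powerset.1 h3, h4⟩
  have hfA : ∀ A ∈ At, ∀ B, B ⊆ V \ R A → f (A ∪ B) = f A := by
    intro A hA B hB
    obtain ⟨h3, h4⟩ := hAtm A hA
    refine hRf A (A ∪ B) h3 (Finset.union_subset h3 (hB.trans Finset.sdiff_subset)) ?_
    rw [Finset.union_inter_distrib_right]
    have : B ∩ R A = ∅ := by
      rw [← Finset.disjoint_iff_inter_eq_empty]
      exact Finset.disjoint_of_subset_left hB Finset.sdiff_disjoint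
    rw [this, Finset.union_empty]
  -- (3)
  have h3 : ∑ A ∈ At, p A * (f A * c A) = S := by
    rw [← h1, SSx.decomp hRV hRs]
    refine Finset.sum_congr rfl fun A hA => ?_
    congr 1
    rw [hc, ← Ex_mul_left]
    refine Ex_congr fun B hB => ?_
    rw [hfA A hA B hB]
  -- (4)
  have h4 : ∑ A ∈ At, p A = 1 := by
    have := SSx.decomp hRV hRs (fun _ => (1 : ℝ))
    rw [Ex_const] at this
    rw [this]
    refine Finset.sum_congr rfl fun A _ => ?_
    rw [Ex_const, mul_one]
  -- (5)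
  have h5 : ∀ A ∈ At, (c A) ^ 2 ≤ Ex hp (V \ R A) (fun B => g (A ∪ B) ^ 2) -
      ∑ T ∈ 𝓕, w T ^ 2 * ind (Disjoint T (R A)) := by
    intro A hA
    obtain ⟨hAV, hAR⟩ := hAtm A hA
    set r := R A with hr
    set F0 := 𝓕.filter fun T => Disjoint T r with hF0
    set F1 := 𝓕.filter fun T => ¬ Disjoint T r with hF1
    set a : Finset E → ℝ := fun B => ∑ T ∈ F0, w T * chi T B with ha
    set b : Finset E → ℝ := fun B => ∑ T ∈ F1, (w T * chi T A) * chi (T \ r) B with hb
    have hgab : ∀ B, B ⊆ V \ r → g (A ∪ B) = a B + b B := by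
      intro B hB
      have hBr : Disjoint B r := Finset.disjoint_of_subset_left hB Finset.sdiff_disjoint
      rw [hg, ha, hb, hF0, hF1]
      simp only
      rw [← Finset.sum_filter_add_sum_filter_not 𝓕 (fun T => Disjoint T r)]
      congr 1
      · refine Finset.sum_congr rfl fun T hT => ?_
        obtain ⟨_, h7⟩ := Finset.mem_filter.1 hT
        rw [SSx.chi_union hAR hBr, Finset.sdiff_eq_self_of_disjoint h7]
        have : chi T A = 1 := by
          unfold chi
          have : A ∩ T = ∅ := by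
            rw [← Finset.disjoint_iff_inter_eq_empty]
            exact Finset.disjoint_of_subset_left hAR h7.symm
          rw [this]
          simp
        rw [this, one_mul]
      · refine Finset.sum_congr rfl fun T _ => ?_
        rw [SSx.chi_union hAR hBr]
        ring
    have hsub0 : ∀ T ∈ F0, T ⊆ V \ r := by
      intro T hT
      obtain ⟨h6, h7⟩ := Finset.mem_filter.1 hT
      rw [Finset.subset_sdiff]
      exact ⟨(hF T h6).1, h7⟩
    have hsub1 : ∀ T ∈ F1, T \ r ⊆ V \ r := by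
      intro T hT
      obtain ⟨h6, h7⟩ := Finset.mem_filter.1 hT
      exact Finset.sdiff_subset_sdiff (hF T h6).1 (Finset.Subset.refl _)
    have haa : Ex hp (V \ r) (fun B => a B * a B) = ∑ T ∈ F0, w T ^ 2 := by
      rw [ha, SSx.orth_sum F0 F0 w w (fun T => T) (fun T => T) hsub0 hsub0]
      refine Finset.sum_congr rfl fun T hT => ?_
      simp only [mul_ite, mul_one, mul_zero]
      rw [Finset.sum_ite_eq, if_pos hT]
      ring
    have hab : Ex hp (V \ r) (fun B => a B * b B) = 0 := by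
      rw [ha, hb, SSx.orth_sum F0 F1 w (fun T => w T * chi T A) (fun T => T) (fun T => T \ r)
        hsub0 hsub1]
      refine Finset.sum_eq_zero fun T hT => Finset.sum_eq_zero fun T' hT' => ?_
      obtain ⟨h6, h7⟩ := Finset.mem_filter.1 hT
      obtain ⟨h8, h9⟩ := Finset.mem_filter.1 hT'
      rw [if_neg, mul_zero]
      intro heq
      apply h9
      -- the images are equal
      have himg : T.image β = T'.image β := by
        apply Finset.eq_of_subset_of_card_le
        · apply Finset.image_subset_image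
          rw [heq]
          exact Finset.sdiff_subset
        · rw [(hF T h6).2, (hF T' h8).2]
      rw [Finset.disjoint_left]
      intro e he her
      have h10 : β e ∈ T.image β := by
        rw [himg]
        exact Finset.mem_image_of_mem β he
      obtain ⟨e', he', hee'⟩ := Finset.mem_image.1 h10
      have h11 : e' ∈ r := hRb A hAV e her e' ((hF T h6).1 he') hee'
      exact Finset.disjoint_left.1 h7 he' h11
    have hEa : Ex hp (V \ r) a = 0 := by
      rw [ha, Ex_sum]
      refine Finset.sum_eq_zero fun T hT => ?_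
      obtain ⟨h6, _⟩ := Finset.mem_filter.1 hT
      rw [Ex_mul_left, SSx.Ex_chi (hsub0 T hT) (hFne T h6), mul_zero]
    have hcb : c A = Ex hp (V \ r) b := by
      show Ex hp (V \ R A) (fun B => g (A ∪ B)) = _
      rw [Ex_congr hgab, Ex_add, hEa, zero_add]
    have hgg : Ex hp (V \ r) (fun B => g (A ∪ B) ^ 2) =
        ∑ T ∈ F0, w T ^ 2 + Ex hp (V \ r) (fun B => b B ^ 2) := by
      have e : ∀ B, B ⊆ V \ r → g (A ∪ B) ^ 2 = (a B * a B + 2 * (a B * b B)) + b B ^ 2 := by
        intro B hB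
        rw [hgab B hB]
        ring
      rw [Ex_congr e, Ex_add, Ex_add, Ex_mul_left, haa, hab]
      ring
    have hind : ∑ T ∈ 𝓕, w T ^ 2 * ind (Disjoint T r) = ∑ T ∈ F0, w T ^ 2 := by
      rw [hF0, Finset.sum_filter]
      refine Finset.sum_congr rfl fun T _ => ?_
      by_cases h : Disjoint T r
      · rw [ind_of h, if_pos h, mul_one]
      · rw [ind_not_of h, if_neg h, mul_zero]
    rw [hgg, hind, hcb]
    have := SSx.sq_Ex_le (V \ r) b
    linarith
  -- (6)
  have h6 : ∀ T ∈ 𝓕, 1 - δ ≤ ∑ A ∈ At, p A * ind (Disjoint T (R A)) := by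
    intro T hT
    have e1 : Pr hp V (fun Y => ¬ Disjoint T (R Y)) =
        1 - ∑ A ∈ At, p A * ind (Disjoint T (R A)) := by
      unfold Pr
      rw [Ex_congr (fun F _ => ind_not (Disjoint T (R F))), Ex_sub, Ex_const,
        SSx.decomp hRV hRs (fun F => ind (Disjoint T (R F)))]
      congr 1
      refine Finset.sum_congr rfl fun A hA => ?_
      congr 1
      rw [← Ex_const hp (V \ R A) (ind (Disjoint T (R A)))]
      refine Ex_congr fun B hB => ?_
      rw [SSx.R_atom hRs hA hB]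
    have := hδ T hT
    rw [e1] at this
    linarith
  -- (7)
  have h7 : ∑ A ∈ At, p A * (c A) ^ 2 ≤ δ * S := by
    have e1 : ∑ A ∈ At, p A * (c A) ^ 2 ≤ ∑ A ∈ At, (p A *
        Ex hp (V \ R A) (fun B => g (A ∪ B) ^ 2) -
        p A * ∑ T ∈ 𝓕, w T ^ 2 * ind (Disjoint T (R A))) := by
      refine Finset.sum_le_sum fun A hA => ?_
      rw [← mul_sub]
      exact mul_le_mul_of_nonneg_left (h5 A hA) (hp0 A)
    rw [Finset.sum_sub_distrib] at e1
    have e2 : ∑ A ∈ At, p A * Ex hp (V \ R A) (fun B => g (A ∪ B) ^ 2) = S := by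
      rw [← h2, SSx.decomp hRV hRs (fun F => g F ^ 2)]
    have e3 : ∑ A ∈ At, p A * ∑ T ∈ 𝓕, w T ^ 2 * ind (Disjoint T (R A)) =
        ∑ T ∈ 𝓕, w T ^ 2 * ∑ A ∈ At, p A * ind (Disjoint T (R A)) := by
      simp_rw [Finset.mul_sum]
      rw [Finset.sum_comm]
      refine Finset.sum_congr rfl fun T _ => Finset.sum_congr rfl fun A _ => ?_
      ring
    have e4 : (1 - δ) * S ≤ ∑ T ∈ 𝓕, w T ^ 2 * ∑ A ∈ At, p A * ind (Disjoint T (R A)) := by
      rw [hS, Finset.mul_sum]
      refine Finset.sum_le_sum fun T hT => ?_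
      rw [mul_comm]
      exact mul_le_mul_of_nonneg_left (h6 T hT) (sq_nonneg _)
    rw [e2, e3] at e1
    linarith
  -- (8)
  have h8 : S ^ 2 ≤ ∑ A ∈ At, p A * (c A) ^ 2 := by
    have e0 : 0 ≤ ∑ A ∈ At, p A * (S * f A - c A) ^ 2 :=
      Finset.sum_nonneg fun A _ => mul_nonneg (hp0 A) (sq_nonneg _)
    have e1 : ∑ A ∈ At, p A * (S * f A - c A) ^ 2 =
        S ^ 2 * ∑ A ∈ At, p A * (f A) ^ 2 - 2 * S * ∑ A ∈ At, p A * (f A * c A) +
          ∑ A ∈ At, p A * (c A) ^ 2 := by
      rw [Finset.mul_sum, Finset.mul_sum, ← Finset.sum_sub_distrib, ← Finset.sum_add_distrib]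
      refine Finset.sum_congr rfl fun A _ => ?_
      ring
    have e2 : ∑ A ∈ At, p A * (f A) ^ 2 ≤ 1 := by
      rw [← h4]
      refine Finset.sum_le_sum fun A hA => ?_
      have h9 := hf A (hAtm A hA).1
      have h10 : (f A) ^ 2 ≤ 1 := by
        rw [← sq_abs]
        exact pow_le_one₀ (abs_nonneg _) h9
      calc p A * (f A) ^ 2 ≤ p A * 1 := mul_le_mul_of_nonneg_left h10 (hp0 A)
        _ = p A := mul_one _
    rw [e1, h3] at e0
    have e3 : S ^ 2 * ∑ A ∈ At, p A * (f A) ^ 2 ≤ S ^ 2 * 1 :=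
      mul_le_mul_of_nonneg_left e2 (sq_nonneg _)
    nlinarith
  have h9 : S ^ 2 ≤ δ * S := h8.trans h7
  rcases eq_or_lt_of_le hS0 with h | h
  · rw [← h]
    exact hδ0
  · have h10 : S * S ≤ δ * S := by rw [← sq]; exact h9
    exact le_of_mul_le_mul_right h10 h

end H389NS
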