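import Pool.Agent.H389R2.NS.SumSp
import Pool.Agent.H389R2.NS.SS

/-! P8a (helper86): freezing the outer part of the spectral set, and the reduction of `few_cells`
to `few_inner`. -/

set_option autoImplicit false

namespace H389NS

open H974 H12S Finset

/-- The cell (side `b`) of an edge. -/
def cel (b : ℕ) (e : Edg) : ℤ × ℤ := (e.1 / b, e.2.1 / b)

namespace P8aux

theorem cover_sum {α ι : Type*} (A : Finset α) (I : Finset ι)
    (Q : ι → α → Prop) [∀ i, DecidablePred (Q i)] (g : α → ℝ) (hg : ∀ a ∈ A, 0 ≤ g a)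
    (hc : ∀ a ∈ A, ∃ i ∈ I, Q i a) :
    ∑ a ∈ A, g a ≤ ∑ i ∈ I, ∑ a ∈ A.filter (Q i), g a := by
  simp only [Finset.sum_filter]
  rw [Finset.sum_comm]
  refine Finset.sum_le_sum fun a ha => ?_
  obtain ⟨i, hi, hQ⟩ := hc a ha
  have h1 : (if Q i a then g a else 0) ≤ ∑ i ∈ I, if Q i a then g a else 0 :=
    Finset.single_le_sum (f := fun i => if Q i a then g a else 0) (fun j _ => by
      show (0:ℝ) ≤ if Q j a then g a else 0
      split_ifs
      · exact hg a ha
      · exact le_refl _) hi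
  rwa [if_pos hQ] at h1

theorem split_sum {E : Type*} [DecidableEq E] (B : Finset (Finset E)) (N M R : Finset E)
    (P : Finset (Finset E))
    (hB : ∀ T ∈ B, T ⊆ N ∧ T ∩ R ⊆ M ∧ T ∩ M ∈ P) (g : Finset E → ℝ) (hg : ∀ T, 0 ≤ g T) :
    ∑ T ∈ B, g T ≤ ∑ T1 ∈ P, ∑ U ∈ (N \ R).powerset, g (T1 ∪ U) := by
  have hrec : ∀ T ∈ B, (T ∩ M) ∪ (T \ R) = T := by
    intro T hT
    obtain ⟨_, h2, _⟩ := hB T hT
    ext x
    simp only [Finset.mem_union, Finset.mem_inter, Finset.mem_sdiff]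
    constructor
    · rintro (h | h) <;> exact h.1
    · intro h
      by_cases hx : x ∈ R
      · exact Or.inl ⟨h, h2 (Finset.mem_inter.2 ⟨h, hx⟩)⟩
      · exact Or.inr ⟨h, hx⟩
  have hinj : Set.InjOn (fun T : Finset E => (T ∩ M, T \ R)) (B : Set (Finset E)) := by
    intro T hT T' hT' h
    have h1 : T ∩ M = T' ∩ M := (Prod.ext_iff.1 h).1
    have h2 : T \ R = T' \ R := (Prod.ext_iff.1 h).2
    rw [← hrec T hT, ← hrec T' hT', h1, h2]
  have e1 : ∑ T ∈ B, g T = ∑ x ∈ B.image (fun T : Finset E => (T ∩ M, T \ R)),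
      g (x.1 ∪ x.2) := by
    rw [Finset.sum_image hinj]
    refine Finset.sum_congr rfl fun T hT => ?_
    rw [hrec T hT]
  rw [e1, ← Finset.sum_product' P (N \ R).powerset (fun T1 U => g (T1 ∪ U))]
  refine Finset.sum_le_sum_of_subset_of_nonneg ?_ fun _ _ _ => hg _
  intro x hx
  obtain ⟨T, hT, rfl⟩ := Finset.mem_image.1 hx
  obtain ⟨h1, _, h3⟩ := hB T hT
  exact Finset.mem_product.2 ⟨h3, Finset.mem_powerset.2
    (Finset.sdiff_subset_sdiff h1 (Finset.Subset.refl _))⟩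

theorem div_close {b : ℕ} (hb : 1 ≤ b) {x x' : ℤ} (h : x / b = x' / b) :
    x' < x + b ∧ x - b < x' := by
  have hb' : (0 : ℤ) < b := by exact_mod_cast hb
  have e1 := Int.emod_add_mul_ediv x b
  have e2 := Int.emod_add_mul_ediv x' b
  have m1 := Int.emod_nonneg x (ne_of_gt hb')
  have m2 := Int.emod_nonneg x' (ne_of_gt hb')
  have l1 := Int.emod_lt_of_pos x hb'
  have l2 := Int.emod_lt_of_pos x' hb'
  rw [← h] at e2
  constructor <;> linarith

theorem cel_close {b ρ : ℕ} (hb : 1 ≤ b) {e e' : Edg} (he : e ∈ boxE ρ)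
    (h : cel b e = cel b e') : e' ∈ boxE (ρ + b) := by
  obtain ⟨x, y, β⟩ := e
  obtain ⟨x', y', β'⟩ := e'
  have hb' : -(ρ:ℤ) ≤ x ∧ x ≤ ρ ∧ -(ρ:ℤ) ≤ y ∧ y ≤ ρ := by
    unfold boxE at he
    cases β
    · rw [mem_RE_false] at he; omega
    · rw [mem_RE_true] at he; omega
  have h1 : x / (b : ℤ) = x' / b := (Prod.ext_iff.1 h).1
  have h2 : y / (b : ℤ) = y' / b := (Prod.ext_iff.1 h).2
  obtain ⟨a1, a2⟩ := div_close hb h1
  obtain ⟨a3, a4⟩ := div_close hb h2
  have hb2 : (1 : ℤ) ≤ b := by exact_mod_cast hb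
  unfold boxE
  cases β'
  · rw [mem_RE_false]
    push_cast
    omega
  · rw [mem_RE_true]
    push_cast
    omega

theorem sum_le_one {p : Edg → ℝ} {S V : Finset Edg} (hp : Ok p) (hV : V ⊆ S)
    (hp2 : ∀ e ∈ V, p e = 1 / 2) (I J : Set Vtx) :
    ∑ T ∈ V.powerset, sp p S V (fC I J) T ≤ 1 := by
  have h := sum_sp (p := p) hV hp2 (Finset.empty_subset V) (fC I J)
  rw [Finset.sdiff_empty] at h
  rw [h]
  unfold UU
  refine Ex_le_of_le hp fun G _ => ?_
  rw [Ex_empty]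
  unfold fC
  have h1 := ind_nonneg (Cn I J (↑(G ∪ ∅) : Set Edg))
  have h2 := ind_le_one (Cn I J (↑(G ∪ ∅) : Set Edg))
  nlinarith

theorem far_mono {X : Set Vtx} {c : ℤ × ℤ} {s t : ℕ} (h : FarS X c t) (hst : s ≤ t) :
    FarS X c s := by
  intro v hv
  have h' : (s : ℤ) ≤ t := by exact_mod_cast hst
  rcases h v hv with h1 | h1
  · exact Or.inl (h'.trans h1)
  · exact Or.inr (h'.trans h1)

/-- a missed window -/
theorem window {n b J u : ℕ} (hb : 1 ≤ b) (hub : b ≤ u) (hu : 64 * (J * u) ≤ n)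
    (hu2 : 64 * u ≤ n)
    {T : Finset Edg} (hT : ((T ∩ boxE (3 * n / 4)).image (cel b)).card ≤ J) :
    ∃ i ∈ Finset.range (J + 1),
      T ∩ boxE (n / 2 + (4 * i + 1) * u + u) ⊆ boxE (n / 2 + (4 * i + 1) * u) := by
  by_contra hcon
  push Not at hcon
  have hcon' : ∀ i ∈ Finset.range (J + 1), ∃ e, e ∈ T ∧ e ∈ boxE (n / 2 + (4 * i + 1) * u + u) ∧
      e ∉ boxE (n / 2 + (4 * i + 1) * u) := by
    intro i hi
    obtain ⟨e, he, he'⟩ := Finset.not_subset.1 (hcon i hi)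
    exact ⟨e, (Finset.mem_inter.1 he).1, (Finset.mem_inter.1 he).2, he'⟩
  choose! e he1 he2 he3 using hcon'
  have hrad : ∀ i ∈ Finset.range (J + 1), n / 2 + (4 * i + 1) * u + u ≤ 3 * n / 4 := by
    intro i hi
    have hi' : i ≤ J := Nat.lt_succ_iff.1 (Finset.mem_range.1 hi)
    have h1 : i * u ≤ J * u := Nat.mul_le_mul_right _ hi'
    have h2 : (4 * i + 1) * u = 4 * (i * u) + u := by ring
    rw [h2]
    omega
  have hlt : ∀ i i' : ℕ, i < i' → i ∈ Finset.range (J + 1) → i' ∈ Finset.range (J + 1) →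
      cel b (e i) ≠ cel b (e i') := by
    intro i i' hii hi hi' h
    have h1 := cel_close hb (he2 i hi) h
    refine he3 i' hi' (boxE_mono ?_ h1)
    have h3 : (i + 1) * u ≤ i' * u := Nat.mul_le_mul_right _ hii
    have h4 : (4 * i + 1) * u = 4 * (i * u) + u := by ring
    have h5 : (4 * i' + 1) * u = 4 * (i' * u) + u := by ring
    have h6 : (i + 1) * u = i * u + u := by ring
    rw [h4, h5]
    omega
  have hcard : (Finset.range (J + 1)).card ≤ ((T ∩ boxE (3 * n / 4)).image (cel b)).card := by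
    refine Finset.card_le_card_of_injOn (fun i => cel b (e i)) ?_ ?_
    · intro i hi
      have hi' : i ∈ Finset.range (J + 1) := hi
      exact Finset.mem_coe.2 (Finset.mem_image_of_mem _ (Finset.mem_inter.2
        ⟨he1 i hi', boxE_mono (hrad i hi') (he2 i hi')⟩))
    · intro i hi i' hi' h
      rcases lt_trichotomy i i' with h1 | h1 | h1
      · exact absurd h (hlt i i' h1 hi hi')
      · exact h1
      · exact absurd h.symm (hlt i' i h1 hi' hi)
  rw [Finset.card_range] at hcard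
  omega

theorem wal_outer {E : Type*} [DecidableEq E] {V V' T1 U : Finset E} (hV' : V' ⊆ V) (hT : T1 ⊆ V') (hU : U ⊆ V \ V')
    (g : Finset E → ℝ) :
    wal V g (T1 ∪ U) = wal (V \ V') (fun Y2 => wal V' (fun Y1 => g (Y2 ∪ Y1)) T1) U := by
  unfold wal
  rw [Ex_split hV']
  refine Ex_congr fun Y2 hY2 => ?_
  rw [← Ex_mul_left]
  refine Ex_congr fun Y1 hY1 => ?_
  have h1 : chi (T1 ∪ U) (Y2 ∪ Y1) = chi U Y2 * chi T1 Y1 := by
    unfold chi
    rw [← pow_add]
    congr 1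
    have e : (Y2 ∪ Y1) ∩ (T1 ∪ U) = (Y2 ∩ U) ∪ (Y1 ∩ T1) := by
      ext x
      simp only [Finset.mem_inter, Finset.mem_union]
      constructor
      · rintro ⟨h | h, h' | h'⟩
        · exact absurd (hT h') (Finset.mem_sdiff.1 (hY2 h)).2
        · exact Or.inl ⟨h, h'⟩
        · exact Or.inr ⟨h, h'⟩
        · exact absurd (hY1 h) (Finset.mem_sdiff.1 (hU h')).2
      · rintro (⟨h, h'⟩ | ⟨h, h'⟩)
        · exact ⟨Or.inl h, Or.inr h'⟩
        · exact ⟨Or.inr h, Or.inl h'⟩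
    rw [e, Finset.card_union_of_disjoint]
    rw [Finset.disjoint_left]
    intro x hx hx'
    rw [Finset.mem_inter] at hx hx'
    exact (Finset.mem_sdiff.1 (hY2 hx.1)).2 (hY1 hx'.1)
  rw [h1]
  ring

end P8aux

open P8aux SumSpAux

/-- P8a: freezing the outer part of the spectral set: `V' ⊆ V`, `T1 ⊆ V'`. -/
theorem sp_outer {E : Type*} [DecidableEq E] {p : E → ℝ} {S V V' : Finset E} (hV : V ⊆ S)
    (hp : ∀ e, 0 ≤ p e ∧ p e ≤ 1)
    (hp2 : ∀ e ∈ V, p e = 1 / 2) (hV' : V' ⊆ V) (f : Finset E → ℝ) {T1 : Finset E}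
    (hT : T1 ⊆ V') {𝓤 : Finset (Finset E)} (hU : 𝓤 ⊆ (V \ V').powerset) :
    ∑ U ∈ 𝓤, sp p S V f (T1 ∪ U) ≤ sp p S V' f T1 := by
  have hsp : ∀ T, 0 ≤ sp p S V f T := fun T => Ex_nonneg hp fun G _ => sq_nonneg _
  refine (Finset.sum_le_sum_of_subset_of_nonneg hU fun T _ _ => hsp _).trans ?_
  unfold sp
  rw [← Ex_sum]
  have hSV : S \ V' = (S \ V) ∪ (V \ V') := by
    ext x
    simp only [Finset.mem_sdiff, Finset.mem_union]
    constructor
    · rintro ⟨h1, h2⟩
      by_cases hx : x ∈ V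
      · exact Or.inr ⟨hx, h2⟩
      · exact Or.inl ⟨h1, hx⟩
    · rintro (⟨h1, h2⟩ | ⟨h1, h2⟩)
      · exact ⟨h1, fun h => h2 (hV' h)⟩
      · exact ⟨hV h1, h2⟩
  have hdis : Disjoint (S \ V) (V \ V') := by
    rw [Finset.disjoint_left]
    intro x hx hx'
    exact (Finset.mem_sdiff.1 hx).2 (Finset.mem_sdiff.1 hx').1
  rw [hSV, Ex_union hdis]
  refine le_of_eq (Ex_congr fun G _ => ?_)
  have h1 : ∑ U ∈ (V \ V').powerset, wal V (fun Y => f (G ∪ Y)) (T1 ∪ U) ^ 2 =
      ∑ U ∈ (V \ V').powerset,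
        wal (V \ V') (fun Y2 => wal V' (fun Y1 => f (G ∪ (Y2 ∪ Y1))) T1) U ^ 2 :=
    Finset.sum_congr rfl fun U hU => by
      rw [wal_outer hV' hT (Finset.mem_powerset.1 hU)]
  rw [h1, parseval]
  have hpe : ∀ e ∈ V \ V', (H389NS.hp e : ℝ) = p e := fun e he => by
    rw [hp2 e (Finset.mem_sdiff.1 he).1]; rfl
  rw [Ex_congr_p hpe]
  refine Ex_congr fun Y _ => ?_
  simp only [Finset.union_assoc]

/-- The statement of P8b (`few_inner`). -/
def S_few_inner : Prop := ∃ C c : ℝ, 0 < C ∧ 0 < c ∧ ∀ (p : Edg → ℝ) (S : Finset Edg)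
    (I J : Set Vtx) (ρ m b j : ℕ), Ok p → boxE ρ ⊆ S → (∀ e ∈ boxE ρ, p e = 1 / 2) →
      FarS (I ∪ J) (0, 0) ρ → 1 ≤ b → 1 ≤ j → m + 8 * b ≤ ρ →
      ∑ T ∈ (boxE m).powerset.filter (fun T => (T.image (cel b)).card = j),
          sp p S (boxE ρ) (fC I J) T ≤ C * j * ((b:ℝ) / (ρ - m)) ^ c

/-- P8, from P8b -/
theorem few_cells_of (few_inner : S_few_inner) : ∃ C c : ℝ, 0 < C ∧ 0 < c ∧ ∀ (n b J : ℕ), 1 ≤ n → 1 ≤ b → 1 ≤ J →
      ∀ (p : Edg → ℝ) (S : Finset Edg) (I J1 I' J' : Set Vtx), DomN p S I J1 I' J' n →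
      ∑ T ∈ (boxE n).powerset.filter (fun T => ¬ Disjoint T (boxE (n / 2)) ∧
          ((T ∩ boxE (3 * n / 4)).image (cel b)).card ≤ J),
          sp p S (boxE n) (fC I J1) T ≤ C * (J:ℝ) ^ 3 * ((J:ℝ) * b / n) ^ c := by
  obtain ⟨C0, c, hC0, hc, hin⟩ := few_inner
  refine ⟨2 * C0 * 128 ^ c + 1024 ^ c, c, by positivity, hc, ?_⟩
  intro n b J hn hb hJ p S I J1 I' J' hD
  have hnR : (0:ℝ) < n := by exact_mod_cast hn
  have hbR : (1:ℝ) ≤ b := by exact_mod_cast hb
  have hJR : (1:ℝ) ≤ J := by exact_mod_cast hJ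
  have hx0 : (0:ℝ) ≤ (J:ℝ) * b / n := by positivity
  have hxc : (0:ℝ) ≤ ((J:ℝ) * b / n) ^ c := Real.rpow_nonneg hx0 c
  have hJ3 : (1:ℝ) ≤ (J:ℝ) ^ 3 := one_le_pow₀ hJR
  have hsp : ∀ T, 0 ≤ sp p S (boxE n) (fC I J1) T := fun T =>
    Ex_nonneg hD.ok fun G _ => sq_nonneg _
  by_cases hbig : 1024 * (J * b) ≤ n
  · -- many windows
    obtain ⟨u, hu⟩ : ∃ u, u = n / (64 * J) := ⟨_, rfl⟩
    have h64J : 0 < 64 * J := by omega
    have hu1 : u * (64 * J) ≤ n := by rw [hu]; exact Nat.div_mul_le_self _ _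
    have hu2 : n < (u + 1) * (64 * J) := by
      rw [hu]
      have h1 := Nat.lt_mul_div_succ n h64J
      calc n < 64 * J * (n / (64 * J) + 1) := h1
        _ = _ := by ring
    have hu16 : 16 * b ≤ u := by
      rw [hu, Nat.le_div_iff_mul_le h64J]
      calc 16 * b * (64 * J) = 1024 * (J * b) := by ring
        _ ≤ n := hbig
    have hJb : 1 ≤ J * b := Nat.one_le_iff_ne_zero.2 (by positivity)
    have hn1024 : 1024 ≤ n := by omega
    have hJu : 64 * (J * u) ≤ n := by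
      calc 64 * (J * u) = u * (64 * J) := by ring
        _ ≤ n := hu1
    have huJ : u ≤ J * u := Nat.le_mul_of_pos_left _ hJ
    have h64u : 64 * u ≤ n := by omega
    set m : ℕ → ℕ := fun i => n / 2 + (4 * i + 1) * u with hm
    set I0 : Finset (ℕ × ℕ) := Finset.range (J + 1) ×ˢ Finset.Icc 1 J with hI0
    set A := (boxE n).powerset.filter (fun T => ¬ Disjoint T (boxE (n / 2)) ∧
          ((T ∩ boxE (3 * n / 4)).image (cel b)).card ≤ J) with hA
    have hrad : ∀ i ∈ Finset.range (J + 1), m i + u ≤ 3 * n / 4 := by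
      intro i hi
      have hi' : i ≤ J := Nat.lt_succ_iff.1 (Finset.mem_range.1 hi)
      have h1 : i * u ≤ J * u := Nat.mul_le_mul_right _ hi'
      have h2 : (4 * i + 1) * u = 4 * (i * u) + u := by ring
      show n / 2 + (4 * i + 1) * u + u ≤ 3 * n / 4
      rw [h2]
      omega
    let Q : ℕ × ℕ → Finset Edg → Prop := fun x T =>
      T ∩ boxE (m x.1 + u) ⊆ boxE (m x.1) ∧ ((T ∩ boxE (m x.1)).image (cel b)).card = x.2
    have hcov : ∀ T ∈ A, ∃ x ∈ I0, Q x T := by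
      intro T hT
      rw [hA, Finset.mem_filter] at hT
      obtain ⟨hT1, hT2, hT3⟩ := hT
      obtain ⟨i, hi, hwin⟩ := window hb (by omega) hJu h64u hT3
      refine ⟨(i, ((T ∩ boxE (m i)).image (cel b)).card), ?_, hwin, rfl⟩
      rw [hI0, Finset.mem_product, Finset.mem_Icc]
      refine ⟨hi, ?_, ?_⟩
      · rw [Nat.one_le_iff_ne_zero, ← Nat.pos_iff_ne_zero, Finset.card_pos,
          Finset.image_nonempty]
        rw [Finset.not_disjoint_iff] at hT2
        obtain ⟨e, he, he'⟩ := hT2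
        exact ⟨e, Finset.mem_inter.2 ⟨he, boxE_mono (by show n / 2 ≤ n / 2 + _; omega) he'⟩⟩
      · refine le_trans (Finset.card_le_card (Finset.image_subset_image
          (Finset.inter_subset_inter_left ?_))) hT3
        exact boxE_mono (by have := hrad i hi; omega)
    classical
    have h1 := cover_sum A I0 Q (fun T => sp p S (boxE n) (fC I J1) T) (fun T _ => hsp T) hcov
    refine h1.trans ?_
    have h2 : ∀ x ∈ I0, ∑ T ∈ A.filter (Q x), sp p S (boxE n) (fC I J1) T ≤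
        C0 * J * ((b:ℝ) / u) ^ c := by
      intro x hx
      obtain ⟨i, j⟩ := x
      rw [hI0, Finset.mem_product, Finset.mem_Icc] at hx
      obtain ⟨hi, hj1, hj2⟩ := hx
      simp only at hi hj1 hj2
      have hri := hrad i hi
      have hrn : m i + u ≤ n := by omega
      have hsub : boxE (m i + u) ⊆ boxE n := boxE_mono hrn
      have hVS : boxE (m i + u) ⊆ S := hsub.trans hD.sub
      refine (split_sum (A.filter (Q (i, j))) (boxE n) (boxE (m i)) (boxE (m i + u))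
        ((boxE (m i)).powerset.filter (fun T => (T.image (cel b)).card = j))
        ?_ (fun T => sp p S (boxE n) (fC I J1) T) hsp).trans ?_
      · intro T hT
        obtain ⟨hTA, hTQ1, hTQ2⟩ := Finset.mem_filter.1 hT
        rw [hA, Finset.mem_filter, Finset.mem_powerset] at hTA
        exact ⟨hTA.1, hTQ1, Finset.mem_filter.2 ⟨Finset.mem_powerset.2
          Finset.inter_subset_right, hTQ2⟩⟩
      · have h3 : ∀ T1 ∈ (boxE (m i)).powerset.filter (fun T => (T.image (cel b)).card = j),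
            ∑ U ∈ (boxE n \ boxE (m i + u)).powerset, sp p S (boxE n) (fC I J1) (T1 ∪ U) ≤
              sp p S (boxE (m i + u)) (fC I J1) T1 := by
          intro T1 hT1
          rw [Finset.mem_filter, Finset.mem_powerset] at hT1
          exact sp_outer hD.sub hD.ok hD.fair hsub _ (hT1.1.trans (boxE_mono (by omega)))
            (Finset.Subset.refl _)
        refine (Finset.sum_le_sum h3).trans ?_
        refine (hin p S I J1 (m i + u) (m i) b j hD.ok hVS (fun e he => hD.fair e (hsub he))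
          (far_mono hD.far hrn) hb hj1 (by omega)).trans ?_
        have e1 : (((m i + u : ℕ) : ℝ) - (m i : ℕ)) = u := by push_cast; ring
        rw [e1]
        have hjR : (j:ℝ) ≤ J := by exact_mod_cast hj2
        have hp0 : (0:ℝ) ≤ ((b:ℝ) / u) ^ c := Real.rpow_nonneg (by positivity) c
        exact mul_le_mul_of_nonneg_right (mul_le_mul_of_nonneg_left hjR hC0.le) hp0
    refine (Finset.sum_le_sum h2).trans ?_
    rw [Finset.sum_const, nsmul_eq_mul]
    have hcardI : ((I0.card : ℕ) : ℝ) ≤ 2 * (J:ℝ) ^ 2 := by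
      rw [hI0, Finset.card_product, Finset.card_range, Nat.card_Icc]
      push_cast [Nat.add_sub_cancel]
      nlinarith
    have huR : (0:ℝ) < u := by
      have : 0 < u := by omega
      exact_mod_cast this
    have hfrac : (b:ℝ) / u ≤ 128 * ((J:ℝ) * b / n) := by
      have h5 : (n:ℝ) ≤ 128 * J * u := by
        have h6 : (n:ℝ) < (u + 1) * (64 * J) := by exact_mod_cast hu2
        have h7 : (1:ℝ) ≤ u := by
          have : 1 ≤ u := by omega
          exact_mod_cast this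
        nlinarith
      rw [div_le_iff₀ huR]
      have : 128 * ((J:ℝ) * b / n) * u = b * ((128 * J * u) / n) := by ring
      rw [this]
      have h8 : (1:ℝ) ≤ (128 * J * u) / n := by rwa [le_div_iff₀ hnR, one_mul]
      nlinarith
    have hpow : ((b:ℝ) / u) ^ c ≤ 128 ^ c * ((J:ℝ) * b / n) ^ c := by
      rw [← Real.mul_rpow (by norm_num) hx0]
      exact Real.rpow_le_rpow (by positivity) hfrac hc.le
    calc (I0.card : ℝ) * (C0 * J * ((b:ℝ) / u) ^ c)
        ≤ (2 * (J:ℝ) ^ 2) * (C0 * J * (128 ^ c * ((J:ℝ) * b / n) ^ c)) := by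
          apply mul_le_mul hcardI _ (by positivity) (by positivity)
          exact mul_le_mul_of_nonneg_left hpow (by positivity)
      _ = (2 * C0 * 128 ^ c) * (J:ℝ) ^ 3 * ((J:ℝ) * b / n) ^ c := by ring
      _ ≤ (2 * C0 * 128 ^ c + 1024 ^ c) * (J:ℝ) ^ 3 * ((J:ℝ) * b / n) ^ c := by
          apply mul_le_mul_of_nonneg_right _ hxc
          apply mul_le_mul_of_nonneg_right _ (by positivity)
          have : (0:ℝ) ≤ 1024 ^ c := by positivity
          linarith
  · -- small `n`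
    push Not at hbig
    have h1 : ∑ T ∈ (boxE n).powerset.filter (fun T => ¬ Disjoint T (boxE (n / 2)) ∧
          ((T ∩ boxE (3 * n / 4)).image (cel b)).card ≤ J),
          sp p S (boxE n) (fC I J1) T ≤ 1 :=
      (Finset.sum_le_sum_of_subset_of_nonneg (Finset.filter_subset _ _)
        fun T _ _ => hsp T).trans (sum_le_one hD.ok hD.sub hD.fair I J1)
    refine h1.trans ?_
    have h2 : (1:ℝ) ≤ 1024 * ((J:ℝ) * b / n) := by
      have h3 : (n:ℝ) < 1024 * (J * b) := by exact_mod_cast hbig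
      have : 1024 * ((J:ℝ) * b / n) = (1024 * (J * b)) / n := by ring
      rw [this, le_div_iff₀ hnR, one_mul]
      exact h3.le
    have h4 : (1:ℝ) ≤ 1024 ^ c * ((J:ℝ) * b / n) ^ c := by
      rw [← Real.mul_rpow (by norm_num) hx0]
      exact Real.one_le_rpow h2 hc.le
    calc (1:ℝ) ≤ 1024 ^ c * ((J:ℝ) * b / n) ^ c := h4
      _ = 1024 ^ c * 1 * ((J:ℝ) * b / n) ^ c := by ring
      _ ≤ (2 * C0 * 128 ^ c + 1024 ^ c) * (J:ℝ) ^ 3 * ((J:ℝ) * b / n) ^ c := by
          apply mul_le_mul_of_nonneg_right _ hxc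
          apply mul_le_mul _ hJ3 (by norm_num) (by positivity)
          have : (0:ℝ) ≤ 2 * C0 * 128 ^ c := by positivity
          linarith

end H389NS
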