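import Pool.Agent.H389R2.NS.F3
import Pool.Agent.H389R2.NS.F4

/-! Dynamical percolation: exceptional times with infinite clusters of both colours. -/

set_option autoImplicit false

namespace H389NS

open H974 H12S H985T Finset MeasureTheory

theorem dp_main (Ω : Type) [MeasurableSpace Ω] (μ : Measure Ω) [IsProbabilityMeasure μ]
    (ω : ℝ → Ω → Edg → Bool) (h : IsDP μ ω) :
    ∀ᵐ w ∂μ, ∃ t : ℝ, 0 ≤ t ∧ t ≤ 1 ∧ (∃ v : Vtx, {u | Reach (opE ω t w) v u}.Infinite) ∧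
      ∃ f : Vtx, {g | DReach (opE ω t w)ᶜ f g}.Infinite := by
  obtain ⟨c, hc, hpos⟩ := dp_pos
  have hms : MeasurableSet (⋃ a : ℕ, ⋂ R : ℕ, VV ω (a + 1) (a + 1 + R)) :=
    MeasurableSet.iUnion fun a => MeasurableSet.iInter fun R => VV_meas h _ _
  have h1 : μ (⋃ a : ℕ, ⋂ R : ℕ, VV ω (a + 1) (a + 1 + R)) = 1 := by
    rcases dp_zero_one h with h0 | h1
    · exfalso
      have h2 := hpos Ω μ ω h 1 le_rfl
      have h3 : μ (⋂ R : ℕ, VV ω 1 (1 + R)) = 0 :=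
        measure_mono_null (Set.subset_iUnion (fun a : ℕ => ⋂ R : ℕ, VV ω (a + 1) (a + 1 + R)) 0
          |>.trans' (by simp)) h0
      rw [Measure.real, h3] at h2
      simp at h2
      linarith
    · exact h1
  have h4 : ∀ᵐ w ∂μ, w ∈ (⋃ a : ℕ, ⋂ R : ℕ, VV ω (a + 1) (a + 1 + R)) := by
    rw [← prob_compl_eq_zero_iff hms] at h1
    exact h1
  have h5 : ∀ᵐ w ∂μ, ∀ (e : Edg) (a : ℕ), ∀ τ : ℝ, 0 < τ → τ ≤ 1 →
      ¬ (e ∈ opL ω τ w ↔ e ∈ opE ω τ w) → ∃ R : ℕ, ¬ AA (a + 1) (a + 1 + R) (opL ω τ w) := by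
    rw [ae_all_iff]
    intro e
    rw [ae_all_iff]
    intro a
    exact dp_nojump h e (a + 1) (by omega)
  filter_upwards [h.cadlag, h4, h5] with w hw1 hw2 hw3
  rw [Set.mem_iUnion] at hw2
  obtain ⟨a, ha⟩ := hw2
  rw [Set.mem_iInter] at ha
  obtain ⟨t, ht0, ht1, ht⟩ := dp_compact hw1 ha (fun e τ => hw3 e a τ)
  obtain ⟨g1, g2⟩ := AA_infinite ht
  exact ⟨t, ht0, ht1, g1, g2⟩

end H389NS
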