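import Pool.Agent.H389R2.NS.TrapN
import Pool.Agent.H12R2.Sep.Defs5
import Pool.Agent.H12R2.Sep.Fail2P
import Pool.Agent.H12R2.Sep.Fail2
import Pool.Agent.H12R2.Sep.Unforce2

/-! The closing step (cf. `H12S.step2`), inhomogeneous measure. -/

set_option autoImplicit false

namespace H389NS

open H974 H12S Finset

/-- The probability depends on the parameters in `S` only. -/
theorem h796_Pr_congr_p {E : Type*} [DecidableEq E] {p p' : E → ℝ} {S : Finset E}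
    (h : ∀ e ∈ S, p e = p' e) (A : Finset E → Prop) : Pr p S A = Pr p' S A := by
  unfold Pr Ex
  apply Finset.sum_congr rfl
  intro F hF
  have hFS := Finset.mem_powerset.mp hF
  rw [Finset.prod_congr rfl (fun e he => h e (hFS he)),
    Finset.prod_congr rfl (fun e he => by rw [h e (Finset.mem_sdiff.1 he).1] :
      ∀ e ∈ S \ F, 1 - p e = 1 - p' e)]

/-- A local event has the same probability for two measures which agree near it. -/
theorem h796_Pr_loc {E : Type*} [DecidableEq E] {p p' : E → ℝ} {S T : Finset E} (hT : T ⊆ S)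
    (h : ∀ e ∈ T, p e = p' e) {A : Finset E → Prop} (hA : ∀ F, F ⊆ S → (A F ↔ A (F ∩ T))) :
    Pr p S A = Pr p' S A := by
  rw [Pr_local hT hA, h796_Pr_congr_p h, ← Pr_local hT hA]

open FP2 EP2 in
/-- The closing step, inhomogeneous measure. -/
theorem step2_p (κ : ℝ) (hκ : 0 < κ) (K B : ℕ) (δ : ℝ) (hδ : 0 < δ) : ∃ (Mr : ℕ) (c : ℝ), 1 ≤ Mr ∧
    0 < c ∧ ∀ (q : ℝ) (n : ℕ), Win q κ n → ∀ (r : ℕ) (Q : Finset (ℤ × ℤ))
      (S0 D O O' : Finset Edg) (I J : Set Vtx) (e : Edg), Env2 r K Q S0 D O O' I J e → Mr ≤ r →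
      2 * r ≤ n → ∀ (p : Edg → ℝ) (γ : ℤ × ℤ), Ok p →
      (∀ u ∈ FQ r Q, |u.1 - γ.1| ≤ B * r ∧ |u.2 - γ.2| ≤ B * r) →
      (∀ g ∈ RE (γ.1 - (2 * B + 3) * r) (γ.1 + (2 * B + 3) * r) (γ.2 - (2 * B + 3) * r)
        (γ.2 + (2 * B + 3) * r), p g = q) → ∀ M : ℝ, 0 ≤ M →
      (∀ B : Finset Edg → Prop, (∀ F G : Finset Edg, (∀ g, nearQ r Q g → (g ∈ F ↔ g ∈ G)) →
          (B F ↔ B G)) →
        Pr p (S0 ∪ D) (fun F => Ev1 I J S0 O O' e F ∧ B F) ≤ M * Pr p (S0 ∪ D) B) →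
      c * (Pr p (S0 ∪ D) (Ev1 I J S0 O O' e) - δ * M) ≤
        Pr p (S0 ∪ D) (Ev2 I J S0 O O' e) := by
  obtain ⟨M3, M4, hM3, hM4, hbad⟩ := bad2_prob κ hκ K δ hδ
  have hM3p : 0 < M3 := by omega
  have hM4p : 0 < M4 := by omega
  set N : ℕ := 2 * (B + 1) * M4 with hN
  refine ⟨M4, κ ^ (4 * (2 * N + 1) ^ 2), by omega, by positivity, ?_⟩
  intro q n hW r Q S0 D O O' I J e h hr hrn p γ ok hbox hpq M hM hloc
  have hr1 : 1 ≤ r := h.r1
  set ρ := r / M3 with hρ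
  set l := r / M4 with hl
  have hl1 : 1 ≤ l := (Nat.one_le_div_iff hM4p).2 hr
  have hlr : l * M4 ≤ r := Nat.div_mul_le_self r M4
  have hρr : ρ * M3 ≤ r := Nat.div_mul_le_self r M3
  have h32l : 32 * l ≤ ρ := by
    rw [hρ, Nat.le_div_iff_mul_le hM3p]
    calc 32 * l * M3 = l * (32 * M3) := by ring
      _ ≤ l * M4 := Nat.mul_le_mul_left _ hM4
      _ ≤ r := hlr
  have h32ρ : 32 * ρ ≤ r := by
    calc 32 * ρ = ρ * 32 := by ring
      _ ≤ ρ * M3 := Nat.mul_le_mul_left _ hM3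
      _ ≤ r := hρr
  have hr2l : r ≤ 2 * M4 * l := by
    have e1 := Nat.div_add_mod r M4
    have e2 := Nat.mod_lt r hM4p
    rw [← hl] at e1
    nlinarith
  have hNl : B * r + 1 ≤ N * l := by
    have e1 : (B + 1) * r ≤ (B + 1) * (2 * M4 * l) := Nat.mul_le_mul_left _ hr2l
    have e2 : N * l = (B + 1) * (2 * M4 * l) := by rw [hN]; ring
    have e3 : (B + 1) * r = B * r + r := by ring
    omega
  have hNl2 : (N + 8) * l ≤ (2 * B + 3) * r := by
    have e1 : (N + 8) * l = (2 * B + 2) * (l * M4) + 8 * l := by rw [hN]; ring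
    have e2 : (2 * B + 2) * (l * M4) ≤ (2 * B + 2) * r := Nat.mul_le_mul_left _ hlr
    have e3 : (2 * B + 3) * r = (2 * B + 2) * r + r := by ring
    omega
  -- the bad event
  have hB : Pr p (S0 ∪ D) (Bad2 r ρ l Q S0) ≤ δ := by
    classical
    have hc : Pr p (S0 ∪ D) (Bad2 r ρ l Q S0) = PQ q (S0 ∪ D) (Bad2 r ρ l Q S0) := by
      refine h796_Pr_loc (T := (S0 ∪ D).filter (fun g => nearQ r Q g))
        (Finset.filter_subset _ _) ?_ ?_
      · intro g hg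
        rw [Finset.mem_filter] at hg
        obtain ⟨u, hu, hN1, hN2⟩ := hg.2
        obtain ⟨b1, b2⟩ := hbox u hu
        apply hpq
        have e3 : (2 * (B:ℤ) + 3) * r = B * r + (B * r + 3 * r) := by ring
        have e4 : (0:ℤ) ≤ B * r := by positivity
        rw [abs_le] at hN1 hN2 b1 b2
        have hr1' : (1:ℤ) ≤ r := by exact_mod_cast hr1
        generalize (2 * (B:ℤ) + 3) * r = X at e3 ⊢
        generalize (B:ℤ) * r = Y at e3 e4 b1 b2
        obtain ⟨x, y, _ | _⟩ := g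
        · rw [mem_RE_false]
          simp only [src_mk] at hN1 hN2
          omega
        · rw [mem_RE_true]
          simp only [src_mk] at hN1 hN2
          omega
      · intro F hF
        apply bad2_local hl1 h32l h32ρ
        intro g hg
        rw [Finset.mem_inter, Finset.mem_filter]
        exact ⟨fun h => ⟨h, hF h, hg⟩, fun h => h.1⟩
    rw [hc]
    exact hbad q n hW r hr (by omega) Q h.box S0 (S0 ∪ D) Finset.subset_union_left
  have hB2 : Pr p (S0 ∪ D) (fun F => Ev1 I J S0 O O' e F ∧ Bad2 r ρ l Q S0 F) ≤ δ * M := by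
    refine (hloc _ fun F G hFG => bad2_local hl1 h32l h32ρ hFG).trans ?_
    rw [mul_comm]
    exact mul_le_mul_of_nonneg_right hB hM
  -- the good event
  set X : Finset Edg → Prop := fun F => (CnG src tgt I J (insert e ((↑(F ∩ S0) : Set Edg) ∪ ↑O')) ∧
        ¬ CnG src tgt I J (((↑(F ∩ S0) : Set Edg) ∪ ↑O) \ {e})) ∧
        NFar src tgt I J e (↑D : Set Edg) (Nr (4 * l)) ((↑(F ∩ S0) : Set Edg) ∪ ↑O) ∧
        (∀ g ∈ (↑O : Set Edg), src g ∈ Cl src tgt I (((↑(F ∩ S0) : Set Edg) ∪ ↑O) \ {e}) ∨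
          src g ∈ Cl src tgt J (((↑(F ∩ S0) : Set Edg) ∪ ↑O) \ {e})) with hX
  have heO : e ∉ O := fun h' => Finset.disjoint_left.1 h.dO h' (Finset.mem_union_left _ h.he)
  have hgood : Pr p (S0 ∪ D) (fun F => Ev1 I J S0 O O' e F ∧ ¬ Bad2 r ρ l Q S0 F) ≤
      Pr p (S0 ∪ D) X := by
    refine Pr_mono ok fun F hF hE => ?_
    obtain ⟨hE1, hE2⟩ := hE
    have hsub : (↑O : Set Edg) ⊆ ((↑(F ∩ S0) : Set Edg) ∪ ↑O) \ {e} := by
      intro g hg
      refine ⟨Or.inr hg, ?_⟩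
      rintro rfl
      exact heO hg
    refine ⟨hE1, fail2_det h hl1 h32l h32ρ hF hE1 hE2, fun g hg => ?_⟩
    rcases h.hO g hg with h3 | h3
    · exact Or.inl (uf_cl_mono hsub h3)
    · exact Or.inr (uf_cl_mono hsub h3)
  have hsplit : Pr p (S0 ∪ D) (Ev1 I J S0 O O' e) ≤
      Pr p (S0 ∪ D) (fun F => Ev1 I J S0 O O' e F ∧ Bad2 r ρ l Q S0 F) +
      Pr p (S0 ∪ D) (fun F => Ev1 I J S0 O O' e F ∧ ¬ Bad2 r ρ l Q S0 F) := by
    refine le_trans (Pr_mono ok (B := fun F => (Ev1 I J S0 O O' e F ∧ Bad2 r ρ l Q S0 F) ∨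
      (Ev1 I J S0 O O' e F ∧ ¬ Bad2 r ρ l Q S0 F)) fun F _ hE => ?_) (Pr_or_le ok _ _ _)
    by_cases hb : Bad2 r ρ l Q S0 F
    · exact Or.inl ⟨hE, hb⟩
    · exact Or.inr ⟨hE, hb⟩
  -- the trap
  have htrap : κ ^ (4 * (2 * N + 1) ^ 2) ≤ Pr p (S0 ∪ D)
      (fun F => TrapG src tgt (↑D : Set Edg) (Nr (4 * l)) (↑F : Set Edg) ∧ True) := by
    refine (trap_prob_p hW hl1 (by omega) γ.1 γ.2 (S0 ∪ D) (N := N) ok ?_).trans ?_
    · intro g hg
      have hNl2' : ((N:ℤ) + 8) * l ≤ (2 * B + 3) * r := by exact_mod_cast hNl2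
      exact hpq g (RE_subset (by linarith) (by linarith) (by linarith) (by linarith) hg)
    refine Pr_mono ok fun F _ hE => ⟨?_, trivial⟩
    intro v hv w _ hvw
    refine hE v w ?_ hvw
    obtain ⟨g, hg, hgv⟩ := hv
    have hT := h.hD g hg
    have hNl' : (B:ℤ) * r + 1 ≤ N * l := by exact_mod_cast hNl
    have hends : (|(src g).1 - γ.1| ≤ (B:ℤ) * r + 1 ∧ |(src g).2 - γ.2| ≤ (B:ℤ) * r + 1) ∧
        (|(tgt g).1 - γ.1| ≤ (B:ℤ) * r + 1 ∧ |(tgt g).2 - γ.2| ≤ (B:ℤ) * r + 1) := by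
      obtain ⟨x, y, _ | _⟩ := g
      · rcases hT with hT | hT
        · obtain ⟨b1, b2⟩ := hbox _ hT
          simp only [src_mk, tgt_false, abs_le] at *
          omega
        · obtain ⟨b1, b2⟩ := hbox _ hT
          simp only [src_mk, tgt_false, abs_le] at *
          omega
      · rcases hT with hT | hT
        · obtain ⟨b1, b2⟩ := hbox _ hT
          simp only [src_mk, tgt_true, abs_le] at *
          omega
        · obtain ⟨b1, b2⟩ := hbox _ hT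
          simp only [src_mk, tgt_true, abs_le] at *
          omega
    have hvb : |v.1 - γ.1| ≤ (B:ℤ) * r + 1 ∧ |v.2 - γ.2| ≤ (B:ℤ) * r + 1 := by
      rcases hgv with rfl | rfl
      · exact hends.1
      · exact hends.2
    obtain ⟨v1, v2⟩ := hvb
    rw [abs_le] at v1 v2
    unfold inR
    constructor <;> constructor <;> linarith
  have hun := unforceG ok src tgt h.dS (O := (↑O : Set Edg)) (O' := (↑O' : Set Edg))
    (Finset.coe_subset.2 h.hOO) (Finset.disjoint_coe.2 h.dO) (I := I) (J := J) h.he (Nr (4 * l))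
    (H := fun _ => True) (fun _ _ _ _ => trivial) (fun _ => Iff.rfl)
  have hXnn : 0 ≤ Pr p (S0 ∪ D) X := Pr_nonneg ok _ _
  have hfin : Pr p (S0 ∪ D) X * Pr p (S0 ∪ D)
      (fun F => TrapG src tgt (↑D : Set Edg) (Nr (4 * l)) (↑F : Set Edg) ∧ True) ≤
      Pr p (S0 ∪ D) (Ev2 I J S0 O O' e) := by
    refine hun.trans (Pr_mono ok fun F _ hE => ?_)
    exact hE.1
  calc κ ^ (4 * (2 * N + 1) ^ 2) * (Pr p (S0 ∪ D) (Ev1 I J S0 O O' e) - δ * M)
      ≤ κ ^ (4 * (2 * N + 1) ^ 2) * Pr p (S0 ∪ D) X :=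
        mul_le_mul_of_nonneg_left (by linarith) (by positivity)
    _ ≤ Pr p (S0 ∪ D) (fun F => TrapG src tgt (↑D : Set Edg) (Nr (4 * l)) (↑F : Set Edg) ∧ True) *
          Pr p (S0 ∪ D) X := mul_le_mul_of_nonneg_right htrap hXnn
    _ = Pr p (S0 ∪ D) X * Pr p (S0 ∪ D)
          (fun F => TrapG src tgt (↑D : Set Edg) (Nr (4 * l)) (↑F : Set Edg) ∧ True) := mul_comm _ _
    _ ≤ _ := hfin

end H389NS
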