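import Pool.Agent.H389R2.NS.Defs
import Pool.Agent.H12R2.Sep.TrapP

/-! Trap probability, inhomogeneous measure. -/

set_option autoImplicit false

namespace H389NS

open H974 H12S Finset

theorem TrapN_congr_param {p q : Edg → ℝ} {S : Finset Edg}
    (h : ∀ e ∈ S, p e = q e) (A : Finset Edg → Prop) : Pr p S A = Pr q S A := by
  unfold Pr Ex
  apply Finset.sum_congr rfl
  intro F hF
  rw [Finset.mem_powerset] at hF
  have h1 : ∏ e ∈ F, p e = ∏ e ∈ F, q e := Finset.prod_congr rfl (fun e he => h e (hF he))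
  have h2 : ∏ e ∈ S \ F, (1 - p e) = ∏ e ∈ S \ F, (1 - q e) :=
    Finset.prod_congr rfl (fun e he => by rw [h e (Finset.mem_sdiff.mp he).1])
  rw [h1, h2]

/-- The crossing event of an annulus depends on the edges of its box. -/
theorem TrapN_crs_local (a b : ℤ) (r R : ℕ) (hrR : r ≤ R) (F : Finset Edg) :
    Crs a b r R (↑F : Set Edg) ↔ Crs a b r R (↑F ∩ ↑(RE (a - R) (a + R) (b - R) (b + R)) :
      Set Edg) := by
  have hrR' : (r : ℤ) ≤ R := by exact_mod_cast hrR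
  constructor
  · rintro ⟨x, y, hx, hy, hr⟩
    have hu : inR (a - R) (a + R) (b - R) (b + R) x := by
      obtain ⟨⟨h1, h2⟩, h3, h4⟩ := hx
      refine ⟨⟨?_, ?_⟩, ?_, ?_⟩ <;> linarith
    obtain ⟨w, -, hw2, hw3⟩ := first_exit hu hr hy
    refine ⟨x, w, hx, ?_, hw3⟩
    rcases hw2 with h | h | h | h
    · left; exact h.le
    · right; left; exact h.ge
    · right; right; left; exact h.le
    · right; right; right; exact h.ge
  · intro h
    exact h.mono Set.inter_subset_left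

theorem TrapN_blk {q κ : ℝ} {n : ℕ} (h : Win q κ n) {l : ℕ} (hl : 1 ≤ l) (hln : 2 * l ≤ n)
    (a b : ℤ) (S : Finset Edg) {p : Edg → ℝ}
    (hpq : ∀ e ∈ RE (a - (3 * l : ℕ)) (a + (3 * l : ℕ)) (b - (3 * l : ℕ)) (b + (3 * l : ℕ)),
      p e = q) :
    κ ^ 4 ≤ Pr p S (fun F => ¬ Crs a b l (3 * l) ↑F) := by
  have h1 := win_blk_pri h hl hln a b
    (S ∩ RE (a - (3 * l : ℕ)) (a + (3 * l : ℕ)) (b - (3 * l : ℕ)) (b + (3 * l : ℕ)))
  refine h1.trans (le_of_eq ?_)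
  unfold PQ
  rw [Pr_local (p := p) (S := S) (S' := S ∩ RE (a - (3 * l : ℕ)) (a + (3 * l : ℕ))
    (b - (3 * l : ℕ)) (b + (3 * l : ℕ))) Finset.inter_subset_left]
  · symm
    apply TrapN_congr_param
    intro e he
    exact hpq e (Finset.mem_inter.mp he).2
  · intro F hF
    apply not_congr
    rw [TrapN_crs_local a b l (3 * l) (by omega) F,
      TrapN_crs_local a b l (3 * l) (by omega) (F ∩ _)]
    have e : ((↑F : Set Edg) ∩ ↑(RE (a - (3 * l : ℕ)) (a + (3 * l : ℕ)) (b - (3 * l : ℕ))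
        (b + (3 * l : ℕ)))) = (↑(F ∩ (S ∩ RE (a - (3 * l : ℕ)) (a + (3 * l : ℕ))
        (b - (3 * l : ℕ)) (b + (3 * l : ℕ)))) : Set Edg) ∩
        ↑(RE (a - (3 * l : ℕ)) (a + (3 * l : ℕ)) (b - (3 * l : ℕ)) (b + (3 * l : ℕ))) := by
      ext x
      simp only [Finset.coe_inter, Set.mem_inter_iff, Finset.mem_coe]
      have := @hF x
      tauto
    rw [e]

/-- TR_p: trap probability (cf. `H12S.trap_prob`). -/
theorem trap_prob_p {q κ : ℝ} {n : ℕ} (h : Win q κ n) {l N : ℕ} (hl : 1 ≤ l) (hln : 2 * l ≤ n)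
    (c1 c2 : ℤ) (S : Finset Edg) {p : Edg → ℝ} (hp : Ok p)
    (hpq : ∀ e ∈ RE (c1 - (N + 8) * l) (c1 + (N + 8) * l) (c2 - (N + 8) * l) (c2 + (N + 8) * l),
      p e = q) :
    κ ^ (4 * (2 * N + 1) ^ 2) ≤ Pr p S (fun F => ∀ v w : Vtx,
        inR (c1 - N * l) (c1 + N * l) (c2 - N * l) (c2 + N * l) v → Reach (↑F : Set Edg) v w →
        |v.1 - w.1| ≤ 4 * l ∧ |v.2 - w.2| ≤ 4 * l) := by
  have hκ : 0 ≤ κ ^ 4 := pow_nonneg h.kpos.le 4
  have hl0 : (0 : ℤ) ≤ l := by positivity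
  rw [pow_mul, ← trG_card N]
  refine le_trans (tr_inter_decr hp hκ (S := S) (trG N)
      (A := fun g F => ¬ Crs (c1 + g.1 * l) (c2 + g.2 * l) l (3 * l) ↑F) ?_ ?_) ?_
  · intro g _ F G h1 _ h3 h4
    apply h3
    intro h5
    exact h4 (h5.mono (by exact_mod_cast h1))
  · intro g hg
    apply TrapN_blk h hl hln
    intro e he
    apply hpq
    unfold trG at hg
    obtain ⟨hg1, hg2⟩ := Finset.mem_product.mp hg
    rw [Finset.mem_Icc] at hg1 hg2
    have k1 : -(N : ℤ) * l ≤ g.1 * l := mul_le_mul_of_nonneg_right hg1.1 hl0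
    have k2 : g.1 * l ≤ (N : ℤ) * l := mul_le_mul_of_nonneg_right hg1.2 hl0
    have k3 : -(N : ℤ) * l ≤ g.2 * l := mul_le_mul_of_nonneg_right hg2.1 hl0
    have k4 : g.2 * l ≤ (N : ℤ) * l := mul_le_mul_of_nonneg_right hg2.2 hl0
    refine RE_subset ?_ ?_ ?_ ?_ he
    · push_cast; linarith
    · push_cast; linarith
    · push_cast; linarith
    · push_cast; linarith
  · apply Pr_mono hp
    intro F _ h1 v w hv hR
    exact tr_det hl (R := Reach (↑F : Set Edg)) h1 v w hv hR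

end H389NS
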