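import Pool.Agent.H389R2.NS.Defs
import Pool.Agent.H389R2.NS.TrapN
import Pool.Agent.H12R2.Sep.Defs5
import Pool.Agent.H12R2.Sep.InD
import Pool.Agent.H12R2.Sep.In1F

/-! Inward step 1, inhomogeneous measure. -/

set_option autoImplicit false

namespace H389NS

open H974 H12S Finset

/-- Two measures which agree on the edges of `S` give the same probabilities on `S`. -/
theorem in1N_congr {p' p : Edg → ℝ} {S : Finset Edg} {A : Finset Edg → Prop}
    (h : ∀ e ∈ S, p' e = p e) : Pr p S A = Pr p' S A := by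
  unfold Pr Ex
  apply Finset.sum_congr rfl
  intro F hF
  rw [Finset.mem_powerset] at hF
  have h1 : ∏ e ∈ F, p' e = ∏ e ∈ F, p e := Finset.prod_congr rfl (fun e he => h e (hF he))
  have h2 : ∏ e ∈ S \ F, (1 - p' e) = ∏ e ∈ S \ F, (1 - p e) :=
    Finset.prod_congr rfl (fun e he => by rw [h e (Finset.mem_sdiff.mp he).1])
  rw [h1, h2]

/-- I1_p (cf. `H12S.in1`). -/
theorem in1_p (κ : ℝ) (hκ : 0 < κ) (L M1 M2 B P1 P2 : ℕ) : ∃ (Mr : ℕ) (c : ℝ), 1 ≤ Mr ∧ 0 < c ∧
    ∀ (q : ℝ) (n : ℕ), Win q κ n → ∀ (r m s : ℕ) (γ c0 : ℤ × ℤ),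
      InD L M1 M2 B P1 P2 r m s γ c0 → Mr ≤ r → s ≤ n →
      ∀ (p : Edg → ℝ) (S : Finset Edg) (I J : Set Vtx), Ok p → blk c0 (3 * s) ⊆ S →
      (∀ e ∈ blk c0 (3 * s), p e = q) → FarS (I ∪ J) c0 (3 * s) →
      ∀ (d d' : Dir) (k k' : ℤ) (σ σ' : Bool) (k1 k2 : ℤ) (Q1 Q3 : Finset (ℤ × ℤ)), SepQ Q1 Q3 →
      ((CorX L M2 B γ d k σ k1 Q1 ∧ CorX L M2 B γ d' k' σ' k2 Q3) ∨
        (CorX L M2 B γ d k σ' k2 Q1 ∧ CorX L M2 B γ d' k' σ k1 Q3)) →
      ∀ QV : Finset Edg, QV = QE r (Q1 ∪ Q3) → ∀ e ∈ boxE (m / 4),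
      c * (Pr p S (fun F => ESev I J c0 s r (P1 * r) (P2 * r) d k d' k'
            ((↑F : Set Edg) \ ↑(boI c0 s))) *
          PQ q (SR L m) (fun F => Sev L m r (m / M1) σ (2 * r * k1) σ' (2 * r * k2) e ↑F)) ≤
        Pr p (S \ QV) (fun F => Z1 I J QV e ↑F) := by
  refine ⟨16, κ ^ (4 * (2 * (32 * B) + 1) ^ 2), by norm_num, by positivity, ?_⟩
  intro q n hw r m s γ c0 hD hr hsn p S I J hp hS3 hpq hI3 d d' k k' σ σ' k1 k2 Q1 Q3 hsep hcor
    QV hQV e he
  have hS : blk c0 (2 * s) ⊆ S := by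
    refine subset_trans ?_ hS3
    unfold blk
    exact RE_subset (by push_cast; omega) (by push_cast; omega) (by push_cast; omega)
      (by push_cast; omega)
  have hI : FarS (I ∪ J) c0 (2 * s) := by
    intro v hv
    have := hI3 v hv
    push_cast at this ⊢
    omega
  have hr1 : 1 ≤ r := hD.hr
  set l : ℕ := r / 16 with hl
  have hl1 : 1 ≤ l := by omega
  have hlr : 16 * l ≤ r := by omega
  have hrl : r ≤ 32 * l := by omega
  have hM2 : 64 ≤ M2 := by
    have := hD.hM1
    have := hD.hM2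
    omega
  set S0 : Finset Edg := ((S \ boI c0 s) ∪ SR L m) \ QV with hS0
  set D : Finset Edg := boI c0 s \ (SR L m ∪ QV) with hDD
  -- geometry
  have hSRb : SR L m ⊆ boI c0 s := in1_SR hD
  have hboS : boI c0 s ⊆ S := by
    intro g hg
    apply hS
    have h1 := (in1_mem_boI.mp hg).1
    unfold blk at h1 ⊢
    exact RE_subset (by push_cast; omega) (by push_cast; omega) (by push_cast; omega)
      (by push_cast; omega) h1
  have heSR : e ∈ SR L m := by
    have h1 : boxE (m / 4) ⊆ SR L m := by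
      have hL := hD.hL
      have hLm : m ≤ 2 * L * m := by
        have : m ≤ L * m := Nat.le_mul_of_pos_left _ (by omega)
        nlinarith
      unfold boxE SR
      exact RE_subset (by omega) (by omega) (by omega) (by omega)
    exact h1 he
  have heQV : e ∉ QV := by
    intro hg
    rw [hQV] at hg
    unfold QE at hg
    rw [Finset.mem_biUnion] at hg
    obtain ⟨z, hz, hgz⟩ := hg
    rw [Finset.mem_union] at hz
    rcases hz with hz | hz <;> rcases hcor with ⟨h1, h3⟩ | ⟨h1, h3⟩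
    · exact in1_avo hD.hL hM2 hr1 hD.hm h1 he z hz hgz
    · exact in1_avo hD.hL hM2 hr1 hD.hm h1 he z hz hgz
    · exact in1_avo hD.hL hM2 hr1 hD.hm h3 he z hz hgz
    · exact in1_avo hD.hL hM2 hr1 hD.hm h3 he z hz hgz
  have he0 : e ∈ S0 := Finset.mem_sdiff.mpr ⟨Finset.mem_union_right _ heSR, heQV⟩
  have hSD : Disjoint S0 D := by
    rw [Finset.disjoint_left]
    intro g h1 h2
    have h3 := (Finset.mem_sdiff.mp h2).2
    have h4 := (Finset.mem_sdiff.mp h2).1
    rcases Finset.mem_union.mp (Finset.mem_sdiff.mp h1).1 with h5 | h5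
    · exact (Finset.mem_sdiff.mp h5).2 h4
    · exact h3 (Finset.mem_union_left _ h5)
  have hunion : S0 ∪ D = S \ QV := by
    ext g
    simp only [hS0, hDD, Finset.mem_union, Finset.mem_sdiff]
    constructor
    · rintro (⟨h1 | h1, h2⟩ | ⟨h1, h2⟩)
      · exact ⟨h1.1, h2⟩
      · exact ⟨hboS (hSRb h1), h2⟩
      · exact ⟨hboS h1, fun h => h2 (Or.inr h)⟩
    · rintro ⟨h1, h2⟩
      by_cases h3 : g ∈ SR L m
      · exact Or.inl ⟨Or.inr h3, h2⟩
      · by_cases h4 : g ∈ boI c0 s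
        · exact Or.inr ⟨h4, fun h => h.elim h3 h2⟩
        · exact Or.inl ⟨Or.inl ⟨h1, h4⟩, h2⟩
  have hS0S : S0 ⊆ S := by
    intro g hg
    have h1 : g ∈ S0 ∪ D := Finset.mem_union_left _ hg
    rw [hunion] at h1
    exact (Finset.mem_sdiff.mp h1).1
  have hO1 : Disjoint (↑QV : Set Edg) ↑(S0 ∪ D) := by
    rw [hunion, Set.disjoint_left]
    intro g h1 h2
    have h2' : g ∈ S \ QV := by exact_mod_cast h2
    exact (Finset.mem_sdiff.mp h2').2 (by exact_mod_cast h1)
  -- the gluing lemma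
  have hglue := unforceG hp src tgt hSD (subset_refl (↑QV : Set Edg)) hO1 (I := I) (J := J) he0
    (Nr (4 * l)) (H := fun _ => True) (fun _ _ _ _ => trivial) (fun _ => Iff.rfl)
  -- first factor
  have h1 : Pr p S (fun F => ESev I J c0 s r (P1 * r) (P2 * r) d k d' k'
            ((↑F : Set Edg) \ ↑(boI c0 s))) *
          PQ q (SR L m) (fun F => Sev L m r (m / M1) σ (2 * r * k1) σ' (2 * r * k2) e ↑F) ≤
      Pr p (S0 ∪ D) (fun F =>
        (CnG src tgt I J (insert e ((↑(F ∩ S0) : Set Edg) ∪ ↑QV)) ∧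
        ¬ CnG src tgt I J (((↑(F ∩ S0) : Set Edg) ∪ ↑QV) \ {e})) ∧
        NFar src tgt I J e ↑D (Nr (4 * l)) ((↑(F ∩ S0) : Set Edg) ∪ ↑QV) ∧
        (∀ g ∈ (↑QV : Set Edg), src g ∈ Cl src tgt I (((↑(F ∩ S0) : Set Edg) ∪ ↑QV) \ {e}) ∨
          src g ∈ Cl src tgt J (((↑(F ∩ S0) : Set Edg) ∪ ↑QV) \ {e}))) := by
    rw [Pr_local (S := S0 ∪ D) (S' := S0) Finset.subset_union_left (fun F _ => by
      simp only [Finset.inter_assoc, Finset.inter_self])]
    rw [← Pr_local (S := S) (S' := S0) hS0S (fun F _ => by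
      simp only [Finset.inter_assoc, Finset.inter_self])]
    have hloc : PQ q (SR L m) (fun F =>
          Sev L m r (m / M1) σ (2 * r * k1) σ' (2 * r * k2) e (↑F : Set Edg)) =
        Pr p S (fun F =>
          Sev L m r (m / M1) σ (2 * r * k1) σ' (2 * r * k2) e (↑(F ∩ SR L m) : Set Edg)) := by
      unfold PQ
      rw [in1N_congr (p' := p) (fun g hg => (hpq g (by
        have h1 := (in1_mem_boI.mp (hSRb hg)).1
        unfold blk at h1 ⊢
        exact RE_subset (by push_cast; omega) (by push_cast; omega) (by push_cast; omega)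
          (by push_cast; omega) h1)))]
      rw [Pr_local (S := S) (S' := SR L m) (hSRb.trans hboS) (fun F _ => by
        simp only [Finset.inter_assoc, Finset.inter_self])]
      apply Pr_congr
      intro F hF
      rw [Finset.inter_eq_left.mpr hF]
    rw [hloc]
    rw [← Pr_indep (p := p) (U := S) (S := S \ boI c0 s) (T := SR L m)
      (A := fun F => ESev I J c0 s r (P1 * r) (P2 * r) d k d' k'
            ((↑F : Set Edg) \ ↑(boI c0 s)))
      (B := fun F => Sev L m r (m / M1) σ (2 * r * k1) σ' (2 * r * k2) e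
        (↑(F ∩ SR L m) : Set Edg)) Finset.sdiff_subset (hSRb.trans hboS) ?_ ?_ ?_]
    · apply Pr_mono hp
      rintro F hF ⟨hE, hSev⟩
      obtain ⟨d1, d2, d3, d4⟩ := in1_det' hD hl1 hlr hS hI hsep hcor hQV he hF hE hSev
      exact ⟨⟨d1, d2⟩, d3, fun g hg => d4 g (by exact_mod_cast hg)⟩
    · rw [Finset.disjoint_left]
      intro g h1 h2
      exact (Finset.mem_sdiff.mp h1).2 (hSRb h2)
    · intro F hF
      have : ((↑(F ∩ (S \ boI c0 s)) : Set Edg) \ ↑(boI c0 s)) =
          (↑F : Set Edg) \ ↑(boI c0 s) := by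
        rw [← Finset.coe_sdiff, ← Finset.coe_sdiff]
        congr 1
        ext g
        simp only [Finset.mem_inter, Finset.mem_sdiff]
        constructor
        · rintro ⟨⟨h1, h2, h3⟩, h4⟩; exact ⟨h1, h4⟩
        · rintro ⟨h1, h2⟩; exact ⟨⟨h1, hF h1, h2⟩, h2⟩
      simp only [this]
    · intro F _
      simp only [Finset.inter_assoc, Finset.inter_self]
  -- second factor
  have h2 : κ ^ (4 * (2 * (32 * B) + 1) ^ 2) ≤
      Pr p (S0 ∪ D) (fun F => TrapG src tgt (↑D : Set Edg) (Nr (4 * l)) ↑F ∧ True) := by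
    have hrs : r ≤ s := by
      have hB := hD.hB
      have hP1 := hD.hP1
      have hP2 := hD.hP2
      have hL := hD.hL
      have : 1 ≤ 4 * L * M2 := by
        have : 0 < 4 * L * M2 := by positivity
        omega
      have hB1 : 1 ≤ B := by omega
      rw [hD.hs]
      nlinarith
    have hln : 2 * l ≤ n := by omega
    refine (trap_prob_p hw (N := 32 * B) hl1 hln c0.1 c0.2 (S0 ∪ D) hp ?_).trans (Pr_mono hp ?_)
    · intro g hg
      apply hpq
      have hB8 : 8 ≤ 16 * B := by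
        have hB := hD.hB
        have hP1 := hD.hP1
        have hP2 := hD.hP2
        have hL := hD.hL
        have : 1 ≤ 4 * L * M2 := by
          have : 0 < 4 * L * M2 := by positivity
          omega
        omega
      have hbl : (((32 * B : ℕ) : ℤ) + 8) * (l : ℤ) ≤ 3 * s := by
        have : (32 * B + 8) * l ≤ 3 * s := by
          rw [hD.hs]
          calc (32 * B + 8) * l ≤ (48 * B) * l := by gcongr; omega
            _ = 3 * B * (16 * l) := by ring
            _ ≤ 3 * B * r := by gcongr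
            _ = 3 * (B * r) := by ring
        exact_mod_cast this
      unfold blk
      generalize (((32 * B : ℕ) : ℤ) + 8) * (l : ℤ) = Z at *
      exact RE_subset (by push_cast; omega) (by push_cast; omega) (by push_cast; omega)
        (by push_cast; omega) hg
    intro F _ hF
    refine ⟨?_, trivial⟩
    intro v hv w _ hvw
    have hbl : (s:ℤ) ≤ ((32 * B : ℕ) : ℤ) * (l : ℤ) := by
      have : s ≤ 32 * B * l := by
        rw [hD.hs]
        calc B * r ≤ B * (32 * l) := by gcongr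
          _ = 32 * B * l := by ring
      exact_mod_cast this
    have hvb : inR (c0.1 - ((32 * B : ℕ) : ℤ) * l) (c0.1 + ((32 * B : ℕ) : ℤ) * l)
        (c0.2 - ((32 * B : ℕ) : ℤ) * l) (c0.2 + ((32 * B : ℕ) : ℤ) * l) v := by
      obtain ⟨g, hg, hgv⟩ := hv
      have hgD : g ∈ blk c0 s := by
        have h3 : g ∈ D := by exact_mod_cast hg
        exact (in1_mem_boI.mp (Finset.mem_sdiff.mp h3).1).1
      unfold inR
      generalize ((32 * B : ℕ) : ℤ) * (l : ℤ) = Z at *
      obtain ⟨x, y, _ | _⟩ := g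
      · unfold blk at hgD
        rw [mem_RE_false] at hgD
        rcases hgv with h | h
        · rw [← h]; simp only [src_mk]; omega
        · rw [← h]; simp only [tgt_false]; omega
      · unfold blk at hgD
        rw [mem_RE_true] at hgD
        rcases hgv with h | h
        · rw [← h]; simp only [src_mk]; omega
        · rw [← h]; simp only [tgt_true]; omega
    exact hF v w hvb hvw
  -- conclusion
  have h3 : Pr p (S0 ∪ D) (fun F =>
      (CnG src tgt I J (insert e ((↑(F ∩ S0) : Set Edg) ∪ ↑QV)) ∧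
        ¬ CnG src tgt I J (((↑F : Set Edg) ∪ ↑QV) \ {e})) ∧ True) ≤
      Pr p (S \ QV) (fun F => Z1 I J QV e ↑F) := by
    rw [hunion]
    apply Pr_mono hp
    rintro F hF ⟨⟨c1, c2⟩, -⟩
    refine ⟨?_, c2⟩
    refine uf2_cn_mono ?_ c1
    refine Set.insert_subset_insert ?_
    refine Set.union_subset_union_left _ ?_
    rw [Finset.coe_inter]
    exact Set.inter_subset_left
  have hnn : 0 ≤ Pr p S (fun F => ESev I J c0 s r (P1 * r) (P2 * r) d k d' k'
            ((↑F : Set Edg) \ ↑(boI c0 s))) *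
          PQ q (SR L m) (fun F => Sev L m r (m / M1) σ (2 * r * k1) σ' (2 * r * k2) e ↑F) :=
    mul_nonneg (Pr_nonneg hp _ _)
      (Pr_nonneg (okq (by linarith [hw.lo]) (by linarith [hw.hi])) _ _)
  have hpos : 0 ≤ κ ^ (4 * (2 * (32 * B) + 1) ^ 2) := by positivity
  rw [mul_comm]
  exact ((mul_le_mul h1 h2 hpos (hnn.trans h1)).trans hglue).trans h3


end H389NS
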