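import Pool.Agent.H389R2.NS.TrapN
import Pool.Agent.H12R2.Sep.Defs5
import Pool.Agent.H12R2.Sep.Fail2P
import Pool.Agent.H12R2.Sep.InD
import Pool.Agent.H12R2.Sep.In2
import Pool.Agent.H389R2.NS.H796Step2

/-! Inward step 2, inhomogeneous measure. -/

set_option autoImplicit false

namespace H389NS

open H974 H12S Finset

/-- Events of the closed edges, through duality. -/
theorem h796_pr_dual {p : Edg → ℝ} (S : Finset Edg) (A : Finset Edg → Prop) :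
    Pr p S (fun F => A (dmp (S \ F))) = Pr (fun g => 1 - p (dl.symm g)) (dmp S) A := by
  have h1 : Pr (fun g => 1 - p (dl.symm g)) (dmp S) A =
      Pr (fun e => (fun g => 1 - p (dl.symm g)) (dl.toEmbedding e)) S (fun F => A (dmp F)) :=
    Pr_map _ _ _ _
  rw [h1, ← Pr_compl p S (fun F => A (dmp F))]
  congr 1
  funext e
  simp

/-- The four-arm event around `e` and an event on disjoint edges. -/
theorem h796_A4e_and {q : ℝ} (h0 : 0 ≤ q) (h1 : q ≤ 1) {p : Edg → ℝ} (hp : Ok p)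
    {S T : Finset Edg} {k : ℕ} {e : Edg}
    (hS : ebx e k ⊆ S) (hpq : ∀ g ∈ ebx e k, p g = q)
    (hT : T ⊆ S) (hd : Disjoint (ebx e k) T) {B : Finset Edg → Prop}
    (hB : ∀ F, F ⊆ S → (B F ↔ B (F ∩ T))) :
    Pr p S (fun F => A4e k e ↑F ∧ B F) ≤ a4 q k * Pr p S B := by
  have hl : ∀ F : Finset Edg, F ⊆ S →
      (A4e k e (↑F : Set Edg) ↔ A4e k e (↑(F ∩ ebx e k) : Set Edg)) := by
    intro F _
    apply A4e_local
    rw [Finset.coe_inter, Set.inter_assoc, Set.inter_self]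
  have e1 : Pr p S (fun F => A4e k e ↑F ∧ B F) =
      Pr p S (fun F => A4e k e ↑F) * Pr p S B :=
    Pr_indep (A := fun F => A4e k e (↑F : Set Edg)) (B := B) hS hT hd hl hB
  have e2 : Pr p S (fun F => A4e k e ↑F) = PQ q S (fun F => A4e k e ↑F) :=
    h796_Pr_loc hS hpq hl
  rw [e1, e2]
  exact mul_le_mul_of_nonneg_right (pr_A4e h0 h1 hS) (Pr_nonneg hp _ _)

open I2 in
/-- The localised estimate. -/
theorem h796_loc {r m s : ℕ} {c0 : ℤ × ℤ} {Q : Finset (ℤ × ℤ)} {q κ : ℝ} {n : ℕ}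
    (hW : Win q κ n) (hr : 1 ≤ r) (hm : 512 * (r:ℤ) ≤ m)
    (hc : |c0.1| + 8 * m + 4 * r ≤ s ∧ |c0.2| + 8 * m + 4 * r ≤ s)
    (hp : Pos r m s c0 Q) {S : Finset Edg} (hS : blk c0 (3 * s) ⊆ S)
    {p : Edg → ℝ} (ok : Ok p) (hpq : ∀ g ∈ blk c0 (3 * s), p g = q) {I J : Set Vtx}
    (hIJ : FarS (I ∪ J) c0 (3 * s)) {e : Edg} (he : e ∈ boxE (m / 4)) {A : Finset Edg → Prop}
    (hA : ∀ F, F ⊆ S → A F → Z1 I J (QE r Q) e (↑F : Set Edg)) {B : Finset Edg → Prop}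
    (hB : ∀ F G : Finset Edg, (∀ g, nearQ r Q g → (g ∈ F ↔ g ∈ G)) → (B F ↔ B G)) :
    Pr p S (fun F => A F ∧ B (dmp (S \ F))) ≤
      a4 q (m / 8) * Pr p S (fun F => BPv I J (blk c0 (3 * s)) ↑F) *
        Pr p S (fun F => B (dmp (S \ F))) := by
  have hr1 : (1:ℤ) ≤ r := by exact_mod_cast hr
  have hk : 1 ≤ m / 8 := by omega
  have ea := e_abs he
  have i1 := abs_le.mp (le_refl |c0.1|)
  have i2 := abs_le.mp (le_refl |c0.2|)
  have b1 : |e.1 - c0.1| + ((m / 8 : ℕ) : ℤ) ≤ ((3 * s : ℕ) : ℤ) := by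
    have : |e.1 - c0.1| ≤ ((3 * s : ℕ) : ℤ) - ((m / 8 : ℕ) : ℤ) := by
      rw [abs_le]
      push_cast
      omega
    linarith
  have b2 : |e.2.1 - c0.2| + ((m / 8 : ℕ) : ℤ) ≤ ((3 * s : ℕ) : ℤ) := by
    have : |e.2.1 - c0.2| ≤ ((3 * s : ℕ) : ℤ) - ((m / 8 : ℕ) : ℤ) := by
      rw [abs_le]
      push_cast
      omega
    linarith
  have hsub : ebx e (m / 8) ⊆ blk c0 (3 * s) := ebx_sub b1 b2
  have hQs : QE r Q ⊆ blk c0 (3 * s) := (QE_sub hp).trans (blk_mono (by omega))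
  have hQd : Disjoint (QE r Q) (ebx e (m / 8)) := by
    rw [Finset.disjoint_left]
    intro g hg hg2
    have h1 := QE_far hr hm hp hg
    unfold ebx at hg2
    obtain ⟨x, y, _ | _⟩ := g
    · rw [mem_RE_false] at hg2
      simp only at h1
      omega
    · rw [mem_RE_true] at hg2
      simp only at h1
      omega
  have heb : e ∈ blk c0 (3 * s) := hsub (mem_ebx hk)
  have hout := ebx_out (I := I) (J := J) (c := c0) (s := 3 * s) (by
    intro v hv h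
    have := hIJ v hv
    omega) b1 b2
  have s1 : Pr p S (fun F => A F ∧ B (dmp (S \ F))) ≤ Pr p S (fun F => A4e (m / 8) e ↑F ∧
      (BPv I J (blk c0 (3 * s)) ↑F ∧ B (dmp (S \ F)))) := by
    apply Pr_mono ok
    rintro F hF ⟨h1, h2⟩
    obtain ⟨h3, h4⟩ := z1_imp hk hQs hQd heb hout (hA F hF h1)
    exact ⟨h3, h4, h2⟩
  have hBl : ∀ F, F ⊆ S → (BPv I J (blk c0 (3 * s)) (↑F : Set Edg) ↔
      BPv I J (blk c0 (3 * s)) (↑(F ∩ (S \ blk c0 (3 * s))) : Set Edg)) := by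
    intro F hF
    have := BPv_local (I := I) (J := J) (b := blk c0 (3 * s)) (O := ∅) F hF
    rwa [Set.union_empty, Set.union_empty] at this
  have s2 : Pr p S (fun F => A4e (m / 8) e ↑F ∧
      (BPv I J (blk c0 (3 * s)) ↑F ∧ B (dmp (S \ F)))) ≤
      a4 q (m / 8) * Pr p S (fun F => BPv I J (blk c0 (3 * s)) ↑F ∧ B (dmp (S \ F))) := by
    refine h796_A4e_and hW.q0 hW.q1 ok (hsub.trans hS) (fun g hg => hpq g (hsub hg))
      (T := S \ ebx e (m / 8)) Finset.sdiff_subset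
      Finset.disjoint_sdiff
      (B := fun F => BPv I J (blk c0 (3 * s)) ↑F ∧ B (dmp (S \ F))) ?_
    intro F hF
    refine and_congr ?_ ?_
    · rw [hBl F hF, hBl (F ∩ (S \ ebx e (m / 8))) (Finset.inter_subset_left.trans hF)]
      rw [LP_inter_aux2 hsub]
    · apply hB
      intro g hg
      rw [← Equiv.apply_symm_apply dl g] at hg
      have h1 := (near_out hr hm hc hp he hg).1
      rw [mem_dmp, mem_dmp, Finset.mem_sdiff, Finset.mem_sdiff, Finset.mem_inter,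
        Finset.mem_sdiff]
      tauto
  have s3 : Pr p S (fun F => BPv I J (blk c0 (3 * s)) ↑F ∧ B (dmp (S \ F))) =
      Pr p S (fun F => BPv I J (blk c0 (3 * s)) ↑F) * Pr p S (fun F => B (dmp (S \ F))) := by
    refine Pr_indep (A := fun F => BPv I J (blk c0 (3 * s)) (↑F : Set Edg))
      (B := fun F => B (dmp (S \ F))) (S := S \ blk c0 (3 * s)) (T := blk c0 (3 * s))
      Finset.sdiff_subset hS Finset.sdiff_disjoint hBl ?_
    intro F _
    apply hB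
    intro g hg
    rw [← Equiv.apply_symm_apply dl g] at hg
    have h1 := (near_out hr hm hc hp he hg).2
    rw [mem_dmp, mem_dmp, Finset.mem_sdiff, Finset.mem_sdiff, Finset.mem_inter]
    tauto
  rw [s3] at s2
  calc Pr p S (fun F => A F ∧ B (dmp (S \ F))) ≤ _ := s1
    _ ≤ _ := s2
    _ = _ := by ring

open I2 in
/-- I2_p (cf. `H12S.in2_of` and `H12S.step2`). -/
theorem in2_p (κ : ℝ) (hκ : 0 < κ) (L M1 M2 B P1 P2 : ℕ) (δ : ℝ) (hδ : 0 < δ) :
    ∃ (Mr : ℕ) (c : ℝ), 1 ≤ Mr ∧ 0 < c ∧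
    ∀ (q : ℝ) (n : ℕ), Win q κ n → ∀ (r m s : ℕ) (γ c0 : ℤ × ℤ),
      InD L M1 M2 B P1 P2 r m s γ c0 → Mr ≤ r → s ≤ n →
      ∀ (p : Edg → ℝ) (S : Finset Edg) (I J I' J' : Set Vtx), Ok p → blk c0 (4 * s) ⊆ S →
      (∀ e ∈ blk c0 (4 * s), p e = q) → DomD S I J I' J' →
      FarS (I ∪ J) c0 (4 * s) → FarS (I' ∪ J') c0 (4 * s) →
      ∀ (d d' : Dir) (k k' : ℤ) (σ σ' : Bool) (k1 k2 : ℤ) (Q1 Q3 : Finset (ℤ × ℤ)), SepQ Q1 Q3 →
      CorX L M2 B γ d k σ k1 Q1 → CorX L M2 B γ d' k' σ' k2 Q3 →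
      ∀ QV : Finset Edg, QV = QE r (Q1 ∪ Q3) → ∀ e ∈ boxE (m / 4),
      c * (Pr p (S \ QV) (fun F => Z1 I J QV e ↑F) -
          δ * (a4 q (m / 8) * Pr p S (fun F => BPv I J (blk c0 (3 * s)) ↑F))) ≤
        Pr p S (fun F => Pv I J e ↑F) := by
  obtain ⟨Mr, c, hMr, hc, H⟩ := step2_p κ hκ (2 * B) B δ hδ
  refine ⟨Mr, c, hMr, hc, ?_⟩
  intro q n hW r m s γ c0 hD hr hsn p S I J I' J' ok hS4 hpq hdom hIJ4 hIJ4' d d' k k' σ σ' k1 k2
    Q1 Q3 _ hc1 hc3 QV hQV e he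
  subst hQV
  have hr1 := hD.hr
  have hm := m_ge hD
  have hcl := c_le hD
  have hS : blk c0 (3 * s) ⊆ S := (blk_mono (by omega)).trans hS4
  have hpq3 : ∀ g ∈ blk c0 (3 * s), p g = q := fun g hg => hpq g (blk_mono (by omega) hg)
  have hfar : ∀ {X : Set Vtx}, FarS X c0 (4 * s) → FarS X c0 (3 * s) := by
    intro X hX v hv
    have h1 := hX v hv
    push_cast at h1 ⊢
    omega
  have hIJ := hfar hIJ4
  have hIJ' := hfar hIJ4'
  have hp : Pos r m s c0 (Q1 ∪ Q3) := by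
    intro z hz
    rcases Finset.mem_union.1 hz with h | h
    · exact FQ_pos hD hc1 h
    · exact FQ_pos hD hc3 h
  have hK : ∀ z ∈ Q1 ∪ Q3, |z.1| ≤ ((2 * B : ℕ) : ℤ) ∧ |z.2| ≤ ((2 * B : ℕ) : ℤ) := by
    have g1 := hD.g1
    have g2 := hD.g2
    have hpos : (0:ℤ) ≤ 4 * L * M2 := by positivity
    have i1 := abs_le.mp (le_refl |γ.1|)
    have i2 := abs_le.mp (le_refl |γ.2|)
    intro z hz
    have hb : γ.1 - B ≤ z.1 ∧ z.1 + 1 ≤ γ.1 + B ∧ γ.2 - B ≤ z.2 ∧ z.2 + 1 ≤ γ.2 + B := by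
      rcases Finset.mem_union.1 hz with h | h
      · exact hc1.inb z h
      · exact hc3.inb z h
    rw [abs_le, abs_le]
    push_cast
    obtain ⟨b1, b2, b3, b4⟩ := hb
    exact ⟨⟨by linarith, by linarith⟩, ⟨by linarith, by linarith⟩⟩
  have henv := env hr1 hm hcl hp hK hS hIJ' he
  have hsub : QE r (Q1 ∪ Q3) ⊆ S := (QE_sub hp).trans ((blk_mono (by omega)).trans hS)
  have heS : e ∈ S := hS (blk_mono (by omega) (e_blk hm hr1 hcl he))
  have hun : dmp (S \ QE r (Q1 ∪ Q3)) ∪ dmp (QE r (Q1 ∪ Q3)) = dmp S := by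
    ext g
    rw [Finset.mem_union, mem_dmp, mem_dmp, mem_dmp, Finset.mem_sdiff]
    have := @hsub (dl.symm g)
    tauto
  have hrn : 2 * r ≤ n := by
    have := rs_le hD
    omega
  have hM : 0 ≤ a4 q (m / 8) * Pr p S (fun F => BPv I J (blk c0 (3 * s)) ↑F) :=
    mul_nonneg (LP_a4_nonneg hW.q0 hW.q1 _) (Pr_nonneg ok _ _)
  have ok' : Ok (fun g => 1 - p (dl.symm g)) := by
    intro g
    have := ok (dl.symm g)
    constructor
    · linarith [this.2]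
    · linarith [this.1]
  have hsB := s_eq hD
  have hB64 : 64 ≤ B := by
    have h1 := hD.hB
    have h2 := hD.hP2
    have h3 := hD.hP1
    have h4 := hD.hL
    have h5 := hD.hM1
    have h6 := hD.hM2
    have h7 : 1 ≤ 4 * L * M2 := by nlinarith
    omega
  have hbox : ∀ u ∈ FQ r (Q1 ∪ Q3), |u.1 - c0.1| ≤ (B:ℤ) * r ∧ |u.2 - c0.2| ≤ (B:ℤ) * r := by
    intro u hu
    obtain ⟨⟨⟨a1, a2⟩, a3, a4⟩, -⟩ := FQ_far hr1 hp hu
    have e1 : (B:ℤ) * r = s := by rw [hsB]; ring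
    rw [e1, abs_le, abs_le]
    constructor <;> constructor <;> linarith
  have hpq' : ∀ g ∈ RE (c0.1 - (2 * B + 3) * r) (c0.1 + (2 * B + 3) * r)
      (c0.2 - (2 * B + 3) * r) (c0.2 + (2 * B + 3) * r),
      (fun g => 1 - p (dl.symm g)) g = 1 - q := by
    intro g hg
    have e1 : (2 * (B:ℤ) + 3) * r + 1 ≤ 4 * s := by
      rw [hsB]
      have h1 : (64:ℤ) * r ≤ B * r :=
        mul_le_mul_of_nonneg_right (by exact_mod_cast hB64) (by positivity)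
      have h2 : (1:ℤ) ≤ r := by exact_mod_cast hr1
      nlinarith
    have h2 : dl.symm g ∈ blk c0 (4 * s) := by
      apply mem_blk_of
      obtain ⟨x, y, _ | _⟩ := g
      · rw [mem_RE_false] at hg
        rw [dls_f]
        simp only
        push_cast
        omega
      · rw [mem_RE_true] at hg
        rw [dls_t]
        simp only
        push_cast
        omega
    show 1 - p (dl.symm g) = 1 - q
    rw [hpq _ h2]
  have key := H (1 - q) n hW.symm r (Q1 ∪ Q3) _ _ ∅ ∅ I' J' (dl e) henv hr hrn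
    (fun g => 1 - p (dl.symm g)) c0 ok' hbox hpq' _ hM (by
    intro A hA
    rw [hun, ← h796_pr_dual, ← h796_pr_dual]
    exact h796_loc hW hr1 hm hcl hp hS ok hpq3 hIJ he
      (A := fun F => Ev1 I' J' (dmp (S \ QE r (Q1 ∪ Q3))) ∅ ∅ (dl e) (dmp (S \ F)))
      (fun F hF h => (I2.ev1_iff hsub hdom heS hF).1 h) hA)
  rw [hun, ← h796_pr_dual, ← h796_pr_dual] at key
  have e1 : Pr p S (fun F => Ev1 I' J' (dmp (S \ QE r (Q1 ∪ Q3))) ∅ ∅ (dl e) (dmp (S \ F))) =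
      Pr p (S \ QE r (Q1 ∪ Q3)) (fun F => Z1 I J (QE r (Q1 ∪ Q3)) e ↑F) := by
    have e2 : Pr p S (fun F => Ev1 I' J' (dmp (S \ QE r (Q1 ∪ Q3))) ∅ ∅ (dl e) (dmp (S \ F))) =
        Pr p S (fun F => Z1 I J (QE r (Q1 ∪ Q3)) e ↑F) :=
      Pr_congr (fun F hF => I2.ev1_iff hsub hdom heS hF)
    rw [e2]
    exact Pr_local (A := fun F => Z1 I J (QE r (Q1 ∪ Q3)) e (↑F : Set Edg)) Finset.sdiff_subset
      (fun F hF => z1_local hF)
  rw [e1] at key
  exact key.trans (Pr_mono ok (fun F hF h => I2.ev2_imp hdom heS hF h))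

end H389NS
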