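import Pool.Agent.H389R2.NS.In1N
import Pool.Agent.H389R2.NS.In2N
import Pool.Agent.H12R2.Sep.InAll
import Pool.Agent.H12R2.Sep.InTop

/-! Inward inequality for given landing cells, inhomogeneous measure. -/

set_option autoImplicit false
set_option maxHeartbeats 400000

namespace H389NS

open H974 H12S Finset

/-- The measure `p` transported by a lattice symmetry. -/
theorem I4_pr (g : LSym) (p : Edg → ℝ) (S : Finset Edg) (A : Finset Edg → Prop) :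
    Pr (fun e => p (g.φ.symm e)) (g.mp S) A = Pr p S (fun F => A (g.mp F)) := by
  have h := Pr_map (fun e => p (g.φ.symm e)) g.φ.toEmbedding S A
  refine h.trans ?_
  have h1 : (fun e => p (g.φ.symm (g.φ.toEmbedding e))) = p := by
    funext e
    simp
  rw [h1]
  rfl

theorem I4_ok (g : LSym) {p : Edg → ℝ} (hp : Ok p) : Ok (fun e => p (g.φ.symm e)) :=
  fun e => hp _

/-- The inward inequality for landing cells on the side `d`; `t` is the distance of the dual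
sets. -/
def I4_In (c δ q K : ℝ) (r P1 P2 s t : ℕ) (d : Dir) : Prop :=
  ∀ (p : Edg → ℝ) (c0 : ℤ × ℤ) (S : Finset Edg) (I J I' J' : Set Vtx), Ok p →
      blk c0 (4 * s) ⊆ S → (∀ e ∈ blk c0 (4 * s), p e = q) →
      DomD S I J I' J' → FarS (I ∪ J) c0 (4 * s) → FarS (I' ∪ J') c0 t →
      ∀ (k : ℤ) (d' : Dir) (k' : ℤ),
      c * (Pr p S (fun F => ESev I J c0 s r (P1 * r) (P2 * r) d k d' k'
            ((↑F : Set Edg) \ ↑(boI c0 s))) -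
          δ * Pr p S (fun F => BPv I J (blk c0 (3 * s)) ↑F)) * K ≤
        ∑ e ∈ blk c0 s, Pr p S (fun F => Pv I J e ↑F)

theorem I4_mono {c δ q K : ℝ} {r P1 P2 s t t' : ℕ} {d : Dir} (h : t ≤ t')
    (hX : I4_In c δ q K r P1 P2 s t d) : I4_In c δ q K r P1 P2 s t' d := by
  intro p c0 S I J I' J' hp h1 hq h2 h3 h4
  exact hX p c0 S I J I' J' hp h1 hq h2 h3 (SY_far_mono h h4)

theorem I4_step (g g' : LSym) (hgg : ∀ e, dl (g.φ e) = g'.φ (dl e)) {s t t' r P1 P2 : ℕ}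
    (hblk : ∀ (c : ℤ × ℤ) (s : ℕ), g.mp (blk c s) = blk (g.ψ c) s)
    (hboI : ∀ (c : ℤ × ℤ) (s : ℕ), g.mp (boI c s) = boI (g.ψ c) s)
    (hfar : ∀ (X : Set Vtx) (c : ℤ × ℤ) (t : ℕ), FarS X c t → FarS (g.ψ '' X) (g.ψ c) t)
    (hfar' : ∀ (X : Set Vtx) (c : ℤ × ℤ), FarS X c t' → FarS (g'.ψ '' X) (g.ψ c) t)
    (hbd : ∀ (c : ℤ × ℤ) (v : Vtx), g.ψ v ∈ bdB (g.ψ c) s ↔ v ∈ bdB c s)
    (hNr : ∀ (ρ : ℤ) v v', Nr ρ (g.ψ v) (g.ψ v') ↔ Nr ρ v v')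
    (hcell : ∀ (d' : Dir) (k' : ℤ), ∃ (e' : Dir) (l' : ℤ), |l'| = |k'| ∧
      ∀ c : ℤ × ℤ, g.ψ '' cellB c s r d' k' = cellB (g.ψ c) s r e' l') {d e : Dir}
    (hd : ∀ k : ℤ, ∃ l : ℤ, |l| = |k| ∧ ∀ c : ℤ × ℤ,
      g.ψ '' cellB c s r d k = cellB (g.ψ c) s r e l)
    {c δ q K : ℝ} (hX : I4_In c δ q K r P1 P2 s t e) : I4_In c δ q K r P1 P2 s t' d := by
  intro p c0 S I J I' J' hp h1 hq h2 h3 h4 k d' k'
  obtain ⟨l, hl, hcl⟩ := hd k
  obtain ⟨e', l', hl', hcl'⟩ := hcell d' k'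
  have := hX (fun e => p (g.φ.symm e)) (g.ψ c0) (g.mp S) (g.ψ '' I) (g.ψ '' J) (g'.ψ '' I')
    (g'.ψ '' J') (I4_ok g hp)
    (by rw [← hblk]; exact g.mp_mono h1)
    (by
      intro e he
      rw [← hblk, LSym.mem_mp] at he
      exact hq _ he) (SY_dom g g' hgg h2)
    (by rw [← Set.image_union]; exact hfar _ _ _ h3)
    (by rw [← Set.image_union]; exact hfar' _ _ h4) l e' l'
  have e1 : Pr (fun e => p (g.φ.symm e)) (g.mp S) (fun F => ESev (g.ψ '' I) (g.ψ '' J) (g.ψ c0) s r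
      (P1 * r) (P2 * r) e l
      e' l' ((↑F : Set Edg) \ ↑(boI (g.ψ c0) s))) =
      Pr p S (fun F => ESev I J c0 s r (P1 * r) (P2 * r) d k d' k'
            ((↑F : Set Edg) \ ↑(boI c0 s))) := by
    rw [I4_pr]
    congr 1
    funext F
    rw [← hboI, LSym.coe_mp, LSym.coe_mp, ← Set.image_sdiff g.φ.injective]
    exact propext (SY_esev g (hcl c0) (hcl' c0) hl hl' (hbd c0) (hNr _))
  have e2 : Pr (fun e => p (g.φ.symm e)) (g.mp S)
      (fun F => BPv (g.ψ '' I) (g.ψ '' J) (blk (g.ψ c0) (3 * s)) ↑F) =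
      Pr p S (fun F => BPv I J (blk c0 (3 * s)) ↑F) := by
    rw [I4_pr]
    congr 1
    funext F
    rw [← hblk]
    exact propext (SY_bpv g)
  have e3 : (∑ e ∈ blk (g.ψ c0) s, Pr (fun e => p (g.φ.symm e)) (g.mp S)
      (fun F => Pv (g.ψ '' I) (g.ψ '' J) e ↑F)) =
      ∑ e ∈ blk c0 s, Pr p S (fun F => Pv I J e ↑F) := by
    rw [← hblk]
    have hs : ∀ f : Edg → ℝ, ∑ e ∈ g.mp (blk c0 s), f e = ∑ e ∈ blk c0 s, f (g.φ e) := by
      intro f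
      unfold LSym.mp
      rw [Finset.sum_map]
      rfl
    rw [hs]
    refine Finset.sum_congr rfl fun e _ => ?_
    rw [I4_pr]
    congr 1
    funext F
    exact propext (SY_pv g)
  rw [e1, e2, e3] at this
  exact this

theorem I4_up_dn {c δ q K : ℝ} {r P1 P2 s t : ℕ} (h : I4_In c δ q K r P1 P2 s t Dir.up) :
    I4_In c δ q K r P1 P2 s (t + 1) Dir.dn :=
  I4_step (rfy 0) (rfy (-1)) SY_rfy_dl SY_rfy_blk SY_rfy_boI SY_rfy_far
    (fun X c => SY_rfy_far' X c t) (SY_rfy_bd s) SY_rfy_nr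
    (fun d' k' => ⟨_, _, SY_ryk_abs d' k', fun c => SY_rfy_cell s r d' k' c⟩)
    (fun k => ⟨_, SY_ryk_abs Dir.dn k, fun c => SY_rfy_cell s r Dir.dn k c⟩) h

theorem I4_tps (d : Dir) {c δ q K : ℝ} {r P1 P2 s t : ℕ}
    (h : I4_In c δ q K r P1 P2 s t (SY_tr d)) : I4_In c δ q K r P1 P2 s t d :=
  I4_step tps tps SY_tps_dl SY_tps_blk SY_tps_boI SY_tps_far
    (fun X c => SY_tps_far X c t) (SY_tps_bd s) SY_tps_nr
    (fun d' k' => ⟨_, k', rfl, fun c => SY_tps_cell s r d' k' c⟩)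
    (fun k => ⟨k, rfl, fun c => SY_tps_cell s r d k c⟩) h

theorem I4_all {c δ q K : ℝ} {r P1 P2 s t : ℕ} (h : I4_In c δ q K r P1 P2 s t Dir.up) (d : Dir) :
    I4_In c δ q K r P1 P2 s (t + 1) d := by
  cases d
  · exact I4_mono (Nat.le_succ t) h
  · exact I4_up_dn h
  · exact I4_tps Dir.rt (I4_mono (Nat.le_succ t) h)
  · exact I4_tps Dir.lf (I4_up_dn h)

theorem I4_core (κ : ℝ) (hκ : 0 < κ) (L M1 M2 B P1 P2 : ℕ) (C1 δ : ℝ) (hC1 : 0 < C1)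
    (hδ : 0 < δ) : ∃ (Mr : ℕ) (c : ℝ), 1 ≤ Mr ∧ 0 < c ∧
    ∀ (q : ℝ) (n : ℕ), Win q κ n → ∀ (r m s : ℕ),
      InD L M1 M2 B P1 P2 r m s (0, 0) (0, 0) → Mr ≤ r → s ≤ n →
      a4 q (m / 8) ≤ C1 * a4 q (4 * L * m) →
      ∀ (σ1 σ2 : Bool) (k1 k2 : ℤ), |2 * k1| ≤ L * M2 + 1 → |2 * k2| ≤ L * M2 + 1 →
      (m:ℝ) ^ 2 * a4 q (4 * L * m) ≤ C1 * TS q L m r (m / M1) σ1 k1 σ2 k2 →
      ∀ (p : Edg → ℝ) (c0 : ℤ × ℤ) (S : Finset Edg) (I J I' J' : Set Vtx), Ok p →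
      blk c0 (4 * s) ⊆ S → (∀ e ∈ blk c0 (4 * s), p e = q) →
      DomD S I J I' J' → FarS (I ∪ J) c0 (4 * s) → FarS (I' ∪ J') c0 (4 * s) →
      ∀ (k : ℤ) (d' : Dir) (k' : ℤ), |2 * k| + 2 * P2 ≤ B → |2 * k'| + 2 * P2 ≤ B →
      (d' = Dir.up → (P1:ℤ) < |2 * k - 2 * k'|) →
      (σ1 = σ2 → 4 ≤ |k1 - k2|) →
      c0 = ((r:ℤ) * (-(2 * k)), (r:ℤ) * (4 * L * M2 + 8 - B)) →
      c * (Pr p S (fun F => ESev I J c0 s r (P1 * r) (P2 * r) Dir.up k d' k'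
            ((↑F : Set Edg) \ ↑(boI c0 s))) -
          δ * Pr p S (fun F => BPv I J (blk c0 (3 * s)) ↑F)) * ((m:ℝ) ^ 2 * a4 q (4 * L * m)) ≤
        ∑ e ∈ blk c0 s, Pr p S (fun F => Pv I J e ↑F) := by
  obtain ⟨Mr1, c1, hMr1, hc1, H1⟩ := in1_p κ hκ L M1 M2 B P1 P2
  have hδ' : 0 < δ * c1 / C1 ^ 2 := by positivity
  obtain ⟨Mr2, c2, hMr2, hc2, H2⟩ := in2_p κ hκ L M1 M2 B P1 P2 (δ * c1 / C1 ^ 2) hδ'
  refine ⟨max Mr1 Mr2, c1 * c2 / C1, le_max_of_le_left hMr1, by positivity, ?_⟩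
  intro q n hW r m s hD hr hsn ha4 σ1 σ2 k1 k2 hk1 hk2 hTS p c0 S I J I' J' hp hS hq hDom hI hI'
    k d' k' hk hk' hsep hσ hc0
  have hok := hW.ok
  have hL := hD.hL
  have hM1 := hD.hM1
  have hM2 := hD.hM2
  have hP1 := hD.hP1
  have hP2 := hD.hP2
  have hB := hD.hB
  have hr1 := hD.hr
  have hm := hD.hm
  have hs := hD.hs
  have hM64 : 64 ≤ M2 := by omega
  -- the block centre
  set γ : ℤ × ℤ := (-(2 * k), 4 * L * M2 + 8 - B) with hγ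
  have hLM : (L:ℤ) * M2 = ((L * M2 : ℕ) : ℤ) := by push_cast; ring
  have hP1' : 64 * (4 * (L * M2)) ≤ P1 := by rw [← mul_assoc 4]; exact hP1
  have h128 : 128 ≤ L * M2 := by nlinarith
  have hDγ : InD L M1 M2 B P1 P2 r m s γ c0 := by
    refine ⟨hL, hM1, hM2, hP1, hP2, hB, hr1, hm, hs, ?_, ?_, ?_, ?_⟩
    · rw [hc0]
    · rw [hc0]
    · rw [hγ]
      simp only
      rw [abs_neg, mul_assoc (4:ℤ), hLM]
      omega
    · rw [hγ]
      simp only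
      rw [mul_assoc (4:ℤ), hLM, abs_of_nonpos (by omega)]
      omega
  obtain ⟨Q1, Q3, hSep, hCor⟩ := corx_exists hL hM64 hP1 hP2 hB hk hk' hsep
    (γ := γ) rfl (by rw [hγ]; ring) hk1 hk2 hσ
  set QV : Finset Edg := QE r (Q1 ∪ Q3) with hQV
  have hS3 : blk c0 (3 * s) ⊆ S := (it_blk_mono (by omega)).trans hS
  have hq3 : ∀ e ∈ blk c0 (3 * s), p e = q := fun e he => hq e (it_blk_mono (by omega) he)
  have hI3 : FarS (I ∪ J) c0 (3 * s) := it_far_mono (by omega) hI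
  set PE : ℝ := Pr p S (fun F => ESev I J c0 s r (P1 * r) (P2 * r) Dir.up k d' k'
    ((↑F : Set Edg) \ ↑(boI c0 s))) with hPE
  set PB : ℝ := Pr p S (fun F => BPv I J (blk c0 (3 * s)) ↑F) with hPB
  have hPE0 : 0 ≤ PE := Pr_nonneg hp _ _
  have hPB0 : 0 ≤ PB := Pr_nonneg hp _ _
  have ha0 : 0 ≤ a4 q (4 * L * m) := a4_nonneg hW.q0 hW.q1 _
  have h1 : ∀ e ∈ boxE (m / 4), c1 * (PE * PQ q (SR L m) (fun F =>
      Sev L m r (m / M1) σ1 (2 * r * k1) σ2 (2 * r * k2) e ↑F)) ≤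
        Pr p (S \ QV) (fun F => Z1 I J QV e ↑F) := by
    intro e he
    exact H1 q n hW r m s γ c0 hDγ ((le_max_left _ _).trans hr) hsn p S I J hp hS3 hq3 hI3 Dir.up d' k k'
      σ1 σ2 k1 k2 Q1 Q3 hSep hCor QV hQV e he
  have h2 : ∀ e ∈ boxE (m / 4), c2 * (Pr p (S \ QV) (fun F => Z1 I J QV e ↑F) -
          (δ * c1 / C1 ^ 2) * (a4 q (m / 8) * PB)) ≤
        Pr p S (fun F => Pv I J e ↑F) := by
    intro e he
    rcases hCor with ⟨hA, hA'⟩ | ⟨hA, hA'⟩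
    · exact H2 q n hW r m s γ c0 hDγ ((le_max_right _ _).trans hr) hsn p S I J I' J' hp hS hq hDom hI hI'
        Dir.up d' k k' σ1 σ2 k1 k2 Q1 Q3 hSep hA hA' QV hQV e he
    · exact H2 q n hW r m s γ c0 hDγ ((le_max_right _ _).trans hr) hsn p S I J I' J' hp hS hq hDom hI hI'
        Dir.up d' k k' σ2 σ1 k2 k1 Q1 Q3 hSep hA hA' QV hQV e he
  have hm16 : 16 ≤ m := by rw [hm]; nlinarith
  have hcard := card_boxE_le hm16
  -- the sum over the edges in the middle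
  have hsum : c2 * (c1 * (PE * TS q L m r (m / M1) σ1 k1 σ2 k2) -
      (m:ℝ) ^ 2 * ((δ * c1 / C1 ^ 2) * (a4 q (m / 8) * PB))) ≤
      ∑ e ∈ boxE (m / 4), Pr p S (fun F => Pv I J e ↑F) := by
    have ha8 : 0 ≤ a4 q (m / 8) := a4_nonneg hW.q0 hW.q1 _
    have hX0 : 0 ≤ (δ * c1 / C1 ^ 2) * (a4 q (m / 8) * PB) := by positivity
    calc c2 * (c1 * (PE * TS q L m r (m / M1) σ1 k1 σ2 k2) -
          (m:ℝ) ^ 2 * ((δ * c1 / C1 ^ 2) * (a4 q (m / 8) * PB)))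
        ≤ c2 * (c1 * (PE * TS q L m r (m / M1) σ1 k1 σ2 k2) -
          ((boxE (m / 4)).card : ℝ) * ((δ * c1 / C1 ^ 2) * (a4 q (m / 8) * PB))) := by
          apply mul_le_mul_of_nonneg_left _ hc2.le
          have := mul_le_mul_of_nonneg_right hcard hX0
          linarith
      _ = ∑ e ∈ boxE (m / 4), c2 * (c1 * (PE * PQ q (SR L m) (fun F =>
            Sev L m r (m / M1) σ1 (2 * r * k1) σ2 (2 * r * k2) e ↑F)) -
            (δ * c1 / C1 ^ 2) * (a4 q (m / 8) * PB)) := by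
          rw [← Finset.mul_sum, Finset.sum_sub_distrib, Finset.sum_const, nsmul_eq_mul,
            ← Finset.mul_sum, ← Finset.mul_sum]
          rfl
      _ ≤ ∑ e ∈ boxE (m / 4), Pr p S (fun F => Pv I J e ↑F) := by
          apply Finset.sum_le_sum
          intro e he
          refine le_trans ?_ (h2 e he)
          apply mul_le_mul_of_nonneg_left _ hc2.le
          have := h1 e he
          linarith
  have hsub : boxE (m / 4) ⊆ blk c0 s := by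
    unfold boxE blk
    have hP2r : 2 * (P2 * r) ≤ s := by rw [hs]; nlinarith
    have hm4 : m / 4 ≤ P2 * r := by
      have : m ≤ P2 * r := by rw [hm]; exact Nat.mul_le_mul_right r (by nlinarith)
      omega
    have e1 : |(r:ℤ) * (2 * k)| + 2 * (P2 * r : ℕ) ≤ s := by
      rw [abs_mul, Nat.abs_cast, hs]
      push_cast
      have h3 := mul_le_mul_of_nonneg_left hk (show (0:ℤ) ≤ r by positivity)
      nlinarith
    have e2 := abs_le.1 (show |(r:ℤ) * (2 * k)| ≤ s - 2 * (P2 * r : ℕ) by linarith)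
    have e3 : (r:ℤ) * (4 * L * M2 + 8 - B) = 4 * (L * (M2 * r : ℕ)) + 8 * r - s := by
      rw [hs]; push_cast; ring
    have e4 : 4 * (L * (M2 * r)) + 8 * r ≤ P2 * r := by
      have h5 : 4 * (L * M2) + 8 ≤ P2 := by omega
      calc 4 * (L * (M2 * r)) + 8 * r = (4 * (L * M2) + 8) * r := by ring
        _ ≤ P2 * r := Nat.mul_le_mul_right r h5
    have e5 : (0:ℤ) ≤ 4 * ((L:ℤ) * (M2 * r : ℕ)) := by positivity
    have e6 : m ≤ 4 * (L * (M2 * r)) := by rw [← hm]; nlinarith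
    have e6' : (m:ℤ) ≤ 4 * ((L:ℤ) * (M2 * r : ℕ)) := by exact_mod_cast e6
    have e4' : 4 * ((L:ℤ) * (M2 * r : ℕ)) + 8 * r ≤ (P2 * r : ℕ) := by exact_mod_cast e4
    have e7 : (r:ℤ) * (-(2 * k)) = -((r:ℤ) * (2 * k)) := by ring
    rw [hc0]
    simp only
    rw [e3, e7]
    apply RE_subset <;> omega
  have hle : ∑ e ∈ boxE (m / 4), Pr p S (fun F => Pv I J e ↑F) ≤
      ∑ e ∈ blk c0 s, Pr p S (fun F => Pv I J e ↑F) :=
    Finset.sum_le_sum_of_subset_of_nonneg hsub fun e _ _ => Pr_nonneg hp _ _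
  refine le_trans ?_ (hsum.trans hle)
  -- real arithmetic
  set T := TS q L m r (m / M1) σ1 k1 σ2 k2 with hT
  set A := (m:ℝ) ^ 2 * a4 q (4 * L * m) with hA
  have hA0 : 0 ≤ A := by positivity
  have f1 : c1 * c2 / C1 * PE * A ≤ c2 * (c1 * (PE * T)) := by
    have : c1 * c2 / C1 * PE * A ≤ c1 * c2 / C1 * PE * (C1 * T) :=
      mul_le_mul_of_nonneg_left hTS (by positivity)
    refine this.trans (le_of_eq ?_)
    field_simp
  have f2 : c2 * ((m:ℝ) ^ 2 * ((δ * c1 / C1 ^ 2) * (a4 q (m / 8) * PB))) ≤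
      c1 * c2 / C1 * (δ * PB) * A := by
    have h3 : (m:ℝ) ^ 2 * a4 q (m / 8) ≤ C1 * A := by
      rw [hA]
      have := mul_le_mul_of_nonneg_left ha4 (show (0:ℝ) ≤ (m:ℝ) ^ 2 by positivity)
      linarith
    have h4 := mul_le_mul_of_nonneg_left h3 (show 0 ≤ c2 * (δ * c1 / C1 ^ 2) * PB by positivity)
    calc c2 * ((m:ℝ) ^ 2 * ((δ * c1 / C1 ^ 2) * (a4 q (m / 8) * PB)))
        = c2 * (δ * c1 / C1 ^ 2) * PB * ((m:ℝ) ^ 2 * a4 q (m / 8)) := by ring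
      _ ≤ c2 * (δ * c1 / C1 ^ 2) * PB * (C1 * A) := h4
      _ = c1 * c2 / C1 * (δ * PB) * A := by field_simp
  have f3 : c1 * c2 / C1 * (PE - δ * PB) * A =
      c1 * c2 / C1 * PE * A - c1 * c2 / C1 * (δ * PB) * A := by ring
  rw [f3]
  linarith

/-- The theorem for landing cells on the top side. -/
theorem I4_top (κ : ℝ) (hκ : 0 < κ) (L M1 M2 B P1 P2 : ℕ) (C1 δ : ℝ) (hC1 : 0 < C1) (hδ : 0 < δ) :
    ∃ (Mr : ℕ) (c : ℝ), 1 ≤ Mr ∧ 0 < c ∧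
    ∀ (q : ℝ) (n : ℕ), Win q κ n → ∀ (r m s : ℕ),
      InD L M1 M2 B P1 P2 r m s (0, 0) (0, 0) → Mr ≤ r → s ≤ n →
      a4 q (m / 8) ≤ C1 * a4 q (4 * L * m) →
      ∀ (σ1 σ2 : Bool) (k1 k2 : ℤ), |2 * k1| ≤ L * M2 + 1 → |2 * k2| ≤ L * M2 + 1 →
      (m:ℝ) ^ 2 * a4 q (4 * L * m) ≤ C1 * TS q L m r (m / M1) σ1 k1 σ2 k2 →
      ∀ (p : Edg → ℝ) (c0 : ℤ × ℤ) (S : Finset Edg) (I J I' J' : Set Vtx), Ok p →
      blk c0 (4 * s) ⊆ S → (∀ e ∈ blk c0 (4 * s), p e = q) →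
      DomD S I J I' J' → FarS (I ∪ J) c0 (4 * s) → FarS (I' ∪ J') c0 (4 * s) →
      ∀ (k : ℤ) (d' : Dir) (k' : ℤ),
      c * (Pr p S (fun F => ESev I J c0 s r (P1 * r) (P2 * r) Dir.up k d' k'
            ((↑F : Set Edg) \ ↑(boI c0 s))) -
          δ * Pr p S (fun F => BPv I J (blk c0 (3 * s)) ↑F)) * ((m:ℝ) ^ 2 * a4 q (4 * L * m)) ≤
        ∑ e ∈ blk c0 s, Pr p S (fun F => Pv I J e ↑F) := by
  obtain ⟨Mr, c, hMr, hc, H⟩ := I4_core κ hκ L M1 M2 B P1 P2 C1 δ hC1 hδ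
  refine ⟨Mr, c, hMr, hc, ?_⟩
  intro q n hW r m s hD hr hsn ha4 σ1 σ2 k1 k2 hk1 hk2 hTS p c0 S I J I' J' hp hS hq hDom hI hI' k d' k'
  have hok := hW.ok
  have hr1 := hD.hr
  have hs := hD.hs
  have hm := hD.hm
  have hM1 := hD.hM1
  have hM2 := hD.hM2
  have ha0 : 0 ≤ a4 q (4 * L * m) := a4_nonneg hW.q0 hW.q1 _
  have hA0 : 0 ≤ (m:ℝ) ^ 2 * a4 q (4 * L * m) := by positivity
  have hPB0 : 0 ≤ Pr p S (fun F => BPv I J (blk c0 (3 * s)) ↑F) := Pr_nonneg hp _ _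
  have hR0 : 0 ≤ ∑ e ∈ blk c0 s, Pr p S (fun F => Pv I J e ↑F) :=
    Finset.sum_nonneg fun e _ => Pr_nonneg hp _ _
  -- if the event is impossible there is nothing to prove
  have hzero : ∀ {p' : Edg → ℝ} {T : Finset Edg} {E : Finset Edg → Prop}, (∀ F, ¬ E F) →
      Pr p' T E = 0 := by
    intro p' T E hE
    have h1 : Pr p' T E = Pr p' T (fun _ => False) := Pr_congr fun F _ => by
      rw [iff_false]; exact hE F
    rw [h1]
    unfold Pr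
    have : (fun F : Finset Edg => ind False) = fun _ => (0:ℝ) := by
      funext F; exact ind_not_of (fun h => h)
    rw [this, Ex_const]
  have himp : (∀ F : Finset Edg, ¬ ESev I J c0 s r (P1 * r) (P2 * r) Dir.up k d' k'
      ((↑F : Set Edg) \ ↑(boI c0 s))) →
      c * (Pr p S (fun F => ESev I J c0 s r (P1 * r) (P2 * r) Dir.up k d' k'
            ((↑F : Set Edg) \ ↑(boI c0 s))) -
          δ * Pr p S (fun F => BPv I J (blk c0 (3 * s)) ↑F)) * ((m:ℝ) ^ 2 * a4 q (4 * L * m)) ≤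
        ∑ e ∈ blk c0 s, Pr p S (fun F => Pv I J e ↑F) := by
    intro h
    rw [hzero h]
    refine le_trans ?_ hR0
    have h1 : c * (0 - δ * Pr p S (fun F => BPv I J (blk c0 (3 * s)) ↑F)) ≤ 0 := by
      have : 0 ≤ c * (δ * Pr p S (fun F => BPv I J (blk c0 (3 * s)) ↑F)) := by positivity
      linarith
    exact mul_nonpos_of_nonpos_of_nonneg h1 hA0
  have hrZ : (0:ℤ) < r := by exact_mod_cast hr1
  have habs : ∀ z : ℤ, |2 * (r:ℤ) * z| = r * |2 * z| := by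
    intro z
    rw [show 2 * (r:ℤ) * z = r * (2 * z) by ring, abs_mul, Nat.abs_cast]
  by_cases hk : |2 * k| + 2 * P2 ≤ (B:ℤ)
  swap
  · apply himp
    rintro F ⟨⟨h1, _⟩, _⟩
    apply hk
    rw [habs, hs] at h1
    push_cast at h1
    have h2 : (r:ℤ) * (|2 * k| + 2 * P2) ≤ r * B := by linarith
    exact le_of_mul_le_mul_left h2 hrZ
  by_cases hk' : |2 * k'| + 2 * P2 ≤ (B:ℤ)
  swap
  · apply himp
    rintro F ⟨⟨_, h1⟩, _⟩
    apply hk'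
    rw [habs, hs] at h1
    push_cast at h1
    have h2 : (r:ℤ) * (|2 * k'| + 2 * P2) ≤ r * B := by linarith
    exact le_of_mul_le_mul_left h2 hrZ
  by_cases hsep : d' = Dir.up → (P1:ℤ) < |2 * k - 2 * k'|
  swap
  · push Not at hsep
    obtain ⟨rfl, hsep⟩ := hsep
    apply himp
    intro F
    apply it_no_esev
    rw [show 2 * (r:ℤ) * k - 2 * r * k' = r * (2 * k - 2 * k') by ring, abs_mul, Nat.abs_cast]
    push_cast
    nlinarith
  by_cases hσ : σ1 = σ2 → 4 ≤ |k1 - k2|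
  swap
  · push Not at hσ
    obtain ⟨rfl, hσ⟩ := hσ
    have hT : TS q L m r (m / M1) σ1 k1 σ1 k2 = 0 := by
      unfold TS
      refine Finset.sum_eq_zero fun e _ => hzero (p' := fun _ => q) fun F => it_no_sev ?_
      have h8 : 8 * r ≤ m / M1 := by
        rw [Nat.le_div_iff_mul_le (by omega), hm]
        nlinarith
      rw [show 2 * (r:ℤ) * k1 - 2 * r * k2 = r * (2 * (k1 - k2)) by ring, abs_mul, abs_mul,
        Nat.abs_cast]
      have h9 : (8:ℤ) * r ≤ (m / M1 : ℕ) := by exact_mod_cast h8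
      have h10 : |(2:ℤ)| = 2 := by norm_num
      rw [h10]
      nlinarith
    rw [hT, mul_zero] at hTS
    have hA : (m:ℝ) ^ 2 * a4 q (4 * L * m) = 0 := le_antisymm hTS hA0
    rw [hA, mul_zero]
    exact hR0
  -- translation
  set a : ℤ := (r:ℤ) * (-(2 * k)) - c0.1 with ha
  set b : ℤ := (r:ℤ) * (4 * L * M2 + 8 - B) - c0.2 with hb
  have hc : (c0.1 + a, c0.2 + b) = ((r:ℤ) * (-(2 * k)), (r:ℤ) * (4 * L * M2 + 8 - B)) := by
    rw [ha, hb]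
    congr 1 <;> ring
  have hmain := H q n hW r m s hD hr hsn ha4 σ1 σ2 k1 k2 hk1 hk2 hTS
    (fun e => p ((trl a b).φ.symm e)) (c0.1 + a, c0.2 + b) ((trl a b).mp S) ((trl a b).ψ '' I) ((trl a b).ψ '' J) ((trl a b).ψ '' I')
    ((trl a b).ψ '' J') (I4_ok _ hp) (by rw [it_blk]; exact LSym.mp_mono _ hS)
    (by
      intro e he
      rw [it_blk, LSym.mem_mp] at he
      exact hq _ he) (it_dom a b hDom)
    (by rw [← Set.image_union]; exact it_far a b hI)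
    (by rw [← Set.image_union]; exact it_far a b hI') k d' k' hk hk' hsep hσ hc
  have g1 : Pr (fun e => p ((trl a b).φ.symm e)) ((trl a b).mp S) (fun F => ESev ((trl a b).ψ '' I) ((trl a b).ψ '' J)
      (c0.1 + a, c0.2 + b) s r (P1 * r) (P2 * r) Dir.up k d' k'
      ((↑F : Set Edg) \ ↑(boI (c0.1 + a, c0.2 + b) s))) =
      Pr p S (fun F => ESev I J c0 s r (P1 * r) (P2 * r) Dir.up k d' k'
            ((↑F : Set Edg) \ ↑(boI c0 s))) := by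
    refine (I4_pr _ _ _ _).trans (Pr_congr fun F _ => ?_)
    rw [it_boI, LSym.coe_mp, LSym.coe_mp, ← Set.image_sdiff (trl a b).φ.injective, it_esev]
  have g2 : Pr (fun e => p ((trl a b).φ.symm e)) ((trl a b).mp S) (fun F => BPv ((trl a b).ψ '' I) ((trl a b).ψ '' J)
      (blk (c0.1 + a, c0.2 + b) (3 * s)) ↑F) =
      Pr p S (fun F => BPv I J (blk c0 (3 * s)) ↑F) := by
    refine (I4_pr _ _ _ _).trans (Pr_congr fun F _ => ?_)
    rw [it_blk, LSym.coe_mp, it_bpv]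
  have g3 : ∑ e ∈ blk (c0.1 + a, c0.2 + b) s, Pr (fun e => p ((trl a b).φ.symm e)) ((trl a b).mp S)
      (fun F => Pv ((trl a b).ψ '' I) ((trl a b).ψ '' J) e ↑F) =
      ∑ e ∈ blk c0 s, Pr p S (fun F => Pv I J e ↑F) := by
    rw [it_blk]
    have hs' : ∀ f : Edg → ℝ, ∑ e ∈ (trl a b).mp (blk c0 s), f e =
        ∑ e ∈ blk c0 s, f ((trl a b).φ e) := by
      intro f
      unfold LSym.mp
      rw [Finset.sum_map]
      rfl
    rw [hs']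
    refine Finset.sum_congr rfl fun e _ => ?_
    refine (I4_pr (trl a b) _ _ _).trans (Pr_congr fun F _ => ?_)
    rw [LSym.coe_mp]
    exact it_pv _
  rw [g1, g2, g3] at hmain
  exact hmain


/-- IT_p, SY_p (cf. `H12S.inTop_of`, `H12S.in_all_of`). -/
theorem in_all_p (κ : ℝ) (hκ : 0 < κ) (L M1 M2 B P1 P2 : ℕ) (C1 δ : ℝ) (hC1 : 0 < C1)
    (hδ : 0 < δ) :
    ∃ (Mr : ℕ) (c : ℝ), 1 ≤ Mr ∧ 0 < c ∧
    ∀ (q : ℝ) (n : ℕ), Win q κ n → ∀ (r m s : ℕ),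
      InD L M1 M2 B P1 P2 r m s (0, 0) (0, 0) → Mr ≤ r → s ≤ n →
      a4 q (m / 8) ≤ C1 * a4 q (4 * L * m) →
      ∀ (σ1 σ2 : Bool) (k1 k2 : ℤ), |2 * k1| ≤ L * M2 + 1 → |2 * k2| ≤ L * M2 + 1 →
      (m:ℝ) ^ 2 * a4 q (4 * L * m) ≤ C1 * TS q L m r (m / M1) σ1 k1 σ2 k2 →
      ∀ (p : Edg → ℝ) (c0 : ℤ × ℤ) (S : Finset Edg) (I J I' J' : Set Vtx), Ok p →
      blk c0 (4 * s) ⊆ S → (∀ e ∈ blk c0 (4 * s), p e = q) →
      DomD S I J I' J' → FarS (I ∪ J) c0 (4 * s) → FarS (I' ∪ J') c0 (4 * s + 1) →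
      ∀ (d : Dir) (k : ℤ) (d' : Dir) (k' : ℤ),
      c * (Pr p S (fun F => ESev I J c0 s r (P1 * r) (P2 * r) d k d' k'
            ((↑F : Set Edg) \ ↑(boI c0 s))) -
          δ * Pr p S (fun F => BPv I J (blk c0 (3 * s)) ↑F)) * ((m:ℝ) ^ 2 * a4 q (4 * L * m)) ≤
        ∑ e ∈ blk c0 s, Pr p S (fun F => Pv I J e ↑F) := by
  obtain ⟨Mr, c, h1, h2, h3⟩ := I4_top κ hκ L M1 M2 B P1 P2 C1 δ hC1 hδ
  refine ⟨Mr, c, h1, h2, ?_⟩
  intro q n hW r m s hD hr hs ha σ1 σ2 k1 k2 hk1 hk2 hTS p c0 S I J I' J' hp hS hq hdom hf hf' d k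
    d' k'
  have hup : I4_In c δ q ((m:ℝ) ^ 2 * a4 q (4 * L * m)) r P1 P2 s (4 * s) Dir.up :=
    h3 q n hW r m s hD hr hs ha σ1 σ2 k1 k2 hk1 hk2 hTS
  exact I4_all hup d p c0 S I J I' J' hp hS hq hdom hf hf' k d' k'

end H389NS
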