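import Pool.Agent.H389R2.NS.InAllN
import Pool.Agent.H389R2.NS.ExtN
import Pool.Agent.H12R2.Sep.Inward

/-! Inward inequality, inhomogeneous measure. -/

set_option autoImplicit false

namespace H389NS

open H974 H12S Finset

theorem blk_mono' {c : ℤ × ℤ} {s t : ℕ} (h : s ≤ t) : blk c s ⊆ blk c t := by
  unfold blk
  exact RE_subset (by omega) (by omega) (by omega) (by omega)

theorem FarS_mono' {X : Set Vtx} {c : ℤ × ℤ} {s t : ℕ} (h : s ≤ t) (hX : FarS X c t) :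
    FarS X c s := by
  intro v hv
  have := hX v hv
  have h' : (s : ℤ) ≤ t := by exact_mod_cast h
  omega

/-- INW_p: the inward inequality (cf. `H12S.inward_of`), for general domains. -/
theorem inward_p (κ : ℝ) (hκ : 0 < κ) (δ : ℝ) (hδ : 0 < δ) : ∃ t M20 : ℕ, 1 ≤ t ∧
    ∀ (L M1 M2 : ℕ), 2 ≤ L → 64 ≤ M1 → 8 * M1 ≤ M2 → M20 ≤ M2 → ∀ C1 : ℝ, 0 < C1 →
    ∃ (Mr : ℕ) (C : ℝ), 1 ≤ Mr ∧ 0 < C ∧ ∀ (q : ℝ) (n : ℕ), Win q κ n → ∀ (r m s : ℕ), Mr ≤ r →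
      m = M2 * r → s = 256 * t * L * m → s ≤ n → a4 q (m / 8) ≤ C1 * a4 q (4 * L * m) →
      ∀ (σ1 σ2 : Bool) (k1 k2 : ℤ), |2 * k1| ≤ L * M2 + 1 → |2 * k2| ≤ L * M2 + 1 →
      (m:ℝ) ^ 2 * a4 q (4 * L * m) ≤ C1 * TS q L m r (m / M1) σ1 k1 σ2 k2 →
      ∀ (p : Edg → ℝ) (c0 : ℤ × ℤ) (S : Finset Edg) (I J I' J' : Set Vtx), Ok p →
      blk c0 (4 * s) ⊆ S → (∀ e ∈ blk c0 (4 * s), p e = q) →
      DomD S I J I' J' → FarS (I ∪ J) c0 (4 * s) → FarS (I' ∪ J') c0 (4 * s + 1) →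
      (Pr p S (fun F => BPv I J (blk c0 (s - 1)) ↑F) -
        δ * Pr p S (fun F => BPv I J (blk c0 (3 * s)) ↑F)) * ((m:ℝ) ^ 2 * a4 q (4 * L * m)) ≤
        C * ∑ e ∈ blk c0 s, Pr p S (fun F => Pv I J e ↑F) := by
  classical
  obtain ⟨Ce, c0, hCe, hc0, hext⟩ := ext_p κ hκ
  obtain ⟨t3, ht3, H3'⟩ := IN_small (K := Ce) hc0 (by positivity : (0:ℝ) < δ / 6)
  have H3 := H3' t3 le_rfl
  obtain ⟨t2, ht2, H2'⟩ := IN_small (K := Ce * t3) hc0 (by positivity : (0:ℝ) < δ / 6)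
  have H2 := H2' t2 le_rfl
  obtain ⟨M20, hM20, H1⟩ := IN_small (K := Ce * t2 * t3) hc0 (by positivity : (0:ℝ) < δ / 6)
  refine ⟨t2 * t3, M20, Nat.mul_pos (by omega) (by omega), ?_⟩
  intro L M1 M2 hL hM1 hM2 hM C1 hC1
  set P1 : ℕ := 256 * L * M2 with hP1
  set P2 : ℕ := t2 * P1 with hP2
  set B : ℕ := t3 * P2 with hB
  have hM2pos : 1 ≤ M2 := by omega
  have hLM : 1 ≤ L * M2 := Nat.mul_pos (by omega) hM2pos
  have hP1pos : 256 ≤ P1 := by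
    rw [hP1, mul_assoc]; omega
  have hP2pos : 64 * P1 ≤ P2 := Nat.mul_le_mul_right _ ht2
  have hBpos : 64 * P2 ≤ B := Nat.mul_le_mul_right _ ht3
  set num : ℝ := 16 * (2 * (B:ℝ) + 1) ^ 2 with hnum
  have hnum0 : 0 < num := by positivity
  obtain ⟨Mr, c, hMr, hc, hin⟩ :=
    in_all_p κ hκ L M1 M2 B P1 P2 C1 (δ / (2 * num)) hC1 (by positivity)
  refine ⟨Mr, num / c, hMr, by positivity, ?_⟩
  intro q n hw r m s hr hm hs hsn ha4 σ1 σ2 k1 k2 hk1 hk2 hTS p cc S I J I' J' hok hblk4 hpq hdom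
    hfar4 hfar4'
  have hr1 : 1 ≤ r := hMr.trans hr
  have hsB : s = B * r := by
    rw [hs, hm, hB, hP2, hP1]; ring
  have hs1 : 1 ≤ s := by
    rw [hsB]; exact Nat.mul_pos (by omega) hr1
  have hsr : s / r = B := by
    rw [hsB]; exact Nat.mul_div_cancel _ hr1
  have hInD : InD L M1 M2 B P1 P2 r m s (0, 0) (0, 0) := by
    refine ⟨hL, hM1, hM2, ?_, hP2pos, hBpos, hr1, hm, hsB, by simp, by simp, ?_, ?_⟩
    · rw [hP1]; exact le_of_eq (by ring)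
    · have h1 : P1 = 256 * (L * M2) := by rw [hP1]; ring
      have h2 : ((B:ℕ):ℤ) ≥ 64 * (64 * (256 * (L * M2 : ℕ))) := by
        have : B ≥ 64 * (64 * (256 * (L * M2))) := by rw [← h1]; omega
        exact_mod_cast this
      push_cast at h2
      have h3 : (1:ℤ) ≤ (L:ℤ) * M2 := by exact_mod_cast hLM
      simp only [abs_zero, zero_add]
      nlinarith
    · have h1 : P1 = 256 * (L * M2) := by rw [hP1]; ring
      have h2 : ((B:ℕ):ℤ) ≥ 64 * (64 * (256 * (L * M2 : ℕ))) := by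
        have : B ≥ 64 * (64 * (256 * (L * M2))) := by rw [← h1]; omega
        exact_mod_cast this
      push_cast at h2
      have h3 : (1:ℤ) ≤ (L:ℤ) * M2 := by exact_mod_cast hLM
      simp only [abs_zero, zero_add]
      nlinarith
  have hbs : blk cc (3 * s) ⊆ blk cc (4 * s) := blk_mono' (by omega)
  have hblk : blk cc (3 * s) ⊆ S := hbs.trans hblk4
  have hfar : FarS (I ∪ J) cc (3 * s) := FarS_mono' (by omega) hfar4
  set A : ℝ := (m:ℝ) ^ 2 * a4 q (4 * L * m) with hA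
  have hA0 : 0 ≤ A := by
    refine mul_nonneg (by positivity) ?_
    exact add_nonneg (Pr_nonneg hw.ok _ _) (Pr_nonneg hw.ok _ _)
  set Pm : ℝ := Pr p S (fun F => BPv I J (blk cc (3 * s)) ↑F) with hPm
  have hPm0 : 0 ≤ Pm := Pr_nonneg hok _ _
  set Es : ℝ := ∑ e ∈ blk cc s, Pr p S (fun F => Pv I J e ↑F) with hEs
  set f : Dir → Dir → ℤ → ℤ → ℝ := fun d d' k k' =>
    Pr p S (fun F => ESev I J cc s r (P1 * r) (P2 * r) d k d' k' ((↑F : Set Edg) \ ↑(boI cc s)))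
    with hf
  have h1 : ∀ d d' k k', f d d' k k' * A ≤ Es / c + δ / (2 * num) * Pm * A := by
    intro d d' k k'
    have := hin q n hw r m s hInD hr hsn ha4 σ1 σ2 k1 k2 hk1 hk2 hTS p cc S I J I' J' hok hblk4 hpq
      hdom hfar4 hfar4' d k d' k'
    have h2 : (f d d' k k' - δ / (2 * num) * Pm) * A ≤ Es / c := by
      rw [le_div_iff₀ hc]
      calc _ = c * (f d d' k k' - δ / (2 * num) * Pm) * A := by ring
        _ ≤ Es := this
    linarith [h2, sub_mul (f d d' k k') (δ / (2 * num) * Pm) A]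
  have h2 := hext q n hw cc s r (P1 * r) (P2 * r) hr1 (Nat.mul_le_mul_right _ (by omega))
    (by rw [← mul_assoc]; exact Nat.mul_le_mul_right _ hP2pos)
    (by rw [hsB, ← mul_assoc]; exact Nat.mul_le_mul_right _ hBpos) hsn p S I J hok hblk
    (fun e he => hpq e (hbs he)) hfar
  rw [hsr] at h2
  have h3 : (∑ d : Dir, ∑ d' : Dir, ∑ k ∈ Icc (-(B : ℕ) : ℤ) (B : ℕ),
      ∑ k' ∈ Icc (-(B : ℕ) : ℤ) (B : ℕ), f d d' k k') * A ≤
      num * (Es / c + δ / (2 * num) * Pm * A) := by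
    have hcard : (Icc (-(B : ℕ) : ℤ) (B : ℕ)).card = 2 * B + 1 := by
      rw [Int.card_Icc]; omega
    simp only [Finset.sum_mul]
    calc _ ≤ ∑ d : Dir, ∑ d' : Dir, ∑ k ∈ Icc (-(B : ℕ) : ℤ) (B : ℕ),
          ∑ k' ∈ Icc (-(B : ℕ) : ℤ) (B : ℕ), (Es / c + δ / (2 * num) * Pm * A) :=
          Finset.sum_le_sum fun d _ => Finset.sum_le_sum fun d' _ => Finset.sum_le_sum fun k _ =>
            Finset.sum_le_sum fun k' _ => h1 d d' k k'
      _ = num * (Es / c + δ / (2 * num) * Pm * A) := by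
          simp only [Finset.sum_const, Finset.card_univ, IN_card_Dir, hcard, nsmul_eq_mul]
          push_cast
          rw [hnum]
          ring
  have h4 : Pr p S (fun F => BPv I J (blk cc (s - 1)) ↑F) ≤
      Pr p S (fun F => BPv I J (boI cc s) ↑F) :=
    Pr_mono hok fun F _ hF => IN_BPv_mono (IN_sub hs1) hF
  have hrR : (0:ℝ) < r := by exact_mod_cast hr1
  have hP1R : (0:ℝ) < P1 := by exact_mod_cast (by omega : 0 < P1)
  have ht2R : (0:ℝ) < t2 := by exact_mod_cast (by omega : 0 < t2)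
  have ht3R : (0:ℝ) < t3 := by exact_mod_cast (by omega : 0 < t3)
  have hM2R : (0:ℝ) < M2 := by exact_mod_cast (by omega : 0 < M2)
  have hP2e : (P2:ℝ) = t2 * P1 := by rw [hP2]; push_cast; rfl
  have hBe : (B:ℝ) = t3 * (t2 * P1) := by rw [hB]; push_cast; rw [hP2e]
  have hse : (s:ℝ) = t3 * (t2 * P1) * r := by rw [hsB]; push_cast; rw [hBe]
  have e1 : (((P2 * r : ℕ):ℝ) / s) = 1 / t3 := by
    rw [hse]; push_cast; rw [hP2e]; field_simp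
  have e2 : ((s:ℝ) / ((P1 * r : ℕ):ℝ)) = t2 * t3 := by
    rw [hse]; push_cast; field_simp
  have e3 : (((P1 * r : ℕ):ℝ) / ((P2 * r : ℕ):ℝ)) = 1 / t2 := by
    push_cast; rw [hP2e]; field_simp
  have e4 : ((s:ℝ) / r) = t3 * (t2 * P1) := by
    rw [hse]; field_simp
  have e5 : ((r:ℝ) / ((P1 * r : ℕ):ℝ)) = 1 / P1 := by
    push_cast; field_simp
  have h5 : Ce * ((((P2 * r : ℕ):ℝ) / s) ^ c0 +
      ((s:ℝ) / ((P1 * r : ℕ):ℝ)) * (((P1 * r : ℕ):ℝ) / ((P2 * r : ℕ):ℝ)) ^ (1 + c0) +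
      ((s:ℝ) / r) * ((r:ℝ) / ((P1 * r : ℕ):ℝ)) ^ (1 + c0)) ≤ δ / 2 := by
    rw [e1, e2, e3, e4, e5, Real.rpow_add (by positivity), Real.rpow_add (by positivity),
      Real.rpow_one, Real.rpow_one]
    have g1 : (1 / (P1:ℝ)) ^ c0 ≤ (1 / (M2:ℝ)) ^ c0 := by
      apply Real.rpow_le_rpow (by positivity) _ hc0.le
      apply one_div_le_one_div_of_le hM2R
      have : M2 ≤ P1 := by
        rw [hP1]; nlinarith
      exact_mod_cast this
    have g2 := H1 M2 hM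
    have g3 : Ce * t2 * t3 * (1 / (P1:ℝ)) ^ c0 ≤ Ce * t2 * t3 * (1 / (M2:ℝ)) ^ c0 :=
      mul_le_mul_of_nonneg_left g1 (by positivity)
    have g4 : Ce * ((1 / (t3:ℝ)) ^ c0 + (t2:ℝ) * t3 * (1 / (t2:ℝ) * (1 / (t2:ℝ)) ^ c0) +
        (t3:ℝ) * (t2 * P1) * (1 / (P1:ℝ) * (1 / (P1:ℝ)) ^ c0)) =
        Ce * (1 / (t3:ℝ)) ^ c0 + Ce * t3 * (1 / (t2:ℝ)) ^ c0 +
          Ce * t2 * t3 * (1 / (P1:ℝ)) ^ c0 := by
      field_simp
    rw [g4]
    linarith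
  have h6 : Pr p S (fun F => BPv I J (blk cc (s - 1)) ↑F) ≤
      (∑ d : Dir, ∑ d' : Dir, ∑ k ∈ Icc (-(B : ℕ) : ℤ) (B : ℕ),
      ∑ k' ∈ Icc (-(B : ℕ) : ℤ) (B : ℕ), f d d' k k') + δ / 2 * Pm := by
    refine (h4.trans h2).trans ?_
    gcongr
  have h7 : (Pr p S (fun F => BPv I J (blk cc (s - 1)) ↑F) - δ * Pm) * A ≤
      ((∑ d : Dir, ∑ d' : Dir, ∑ k ∈ Icc (-(B : ℕ) : ℤ) (B : ℕ),
      ∑ k' ∈ Icc (-(B : ℕ) : ℤ) (B : ℕ), f d d' k k') - δ / 2 * Pm) * A :=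
    mul_le_mul_of_nonneg_right (by linarith) hA0
  have h8 : num * (Es / c + δ / (2 * num) * Pm * A) = num / c * Es + δ / 2 * Pm * A := by
    field_simp
  rw [h8] at h3
  rw [sub_mul (∑ d : Dir, ∑ d' : Dir, ∑ k ∈ Icc (-(B : ℕ) : ℤ) (B : ℕ),
      ∑ k' ∈ Icc (-(B : ℕ) : ℤ) (B : ℕ), f d d' k k')] at h7
  linarith

end H389NS
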