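import Pool.Agent.H389R2.NS.Defs

/-! Pairs: derivative in the correlation. -/

set_option autoImplicit false

namespace H389NS

open H974 H12S Finset

variable {E : Type*} [DecidableEq E]

namespace P3x

/-- agreement sign of two configurations -/
noncomputable def sg (F F' : Finset E) (e : E) : ℝ := if (e ∈ F ↔ e ∈ F') then 1 else -1

theorem sg_or (F F' : Finset E) (e : E) : sg F F' e = 1 ∨ sg F F' e = -1 := by
  unfold sg
  split_ifs
  · exact Or.inl rfl
  · exact Or.inr rfl

theorem E2_eq (ρ : E → ℝ) (S : Finset E) (h : Finset E → Finset E → ℝ) :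
    E2 ρ S h = ∑ F ∈ S.powerset, ∑ F' ∈ S.powerset,
      (∏ e ∈ S, (1 + ρ e * sg F F' e) / 4) * h F F' := by
  unfold E2 sg
  refine sum_congr rfl fun F _ => sum_congr rfl fun F' _ => ?_
  congr 1
  refine prod_congr rfl fun e _ => ?_
  split_ifs
  · ring
  · ring

/-- splitting off one coordinate -/
theorem four {e : E} {S₀ : Finset E} (he : e ∉ S₀) (q : E → ℝ → ℝ) (w : ℝ → ℝ)
    (h : Finset E → Finset E → ℝ) :
    ∑ F ∈ (insert e S₀).powerset, ∑ F' ∈ (insert e S₀).powerset,
      ((∏ e' ∈ S₀, q e' (sg F F' e')) * w (sg F F' e)) * h F F' =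
    ∑ F ∈ S₀.powerset, ∑ F' ∈ S₀.powerset, (∏ e' ∈ S₀, q e' (sg F F' e')) *
      (w 1 * h F F' + w (-1) * h F (insert e F') + w (-1) * h (insert e F) F' +
        w 1 * h (insert e F) (insert e F')) := by
  rw [sum_powerset_insert he, ← sum_add_distrib]
  refine sum_congr rfl fun F hF => ?_
  rw [sum_powerset_insert he, sum_powerset_insert he, ← sum_add_distrib, ← sum_add_distrib,
    ← sum_add_distrib]
  refine sum_congr rfl fun F' hF' => ?_
  have hF1 : e ∉ F := fun h => he (mem_powerset.1 hF h)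
  have hF2 : e ∉ F' := fun h => he (mem_powerset.1 hF' h)
  have s1 : sg F F' e = 1 := by simp [sg, hF1, hF2]
  have s2 : sg F (insert e F') e = -1 := by simp [sg, hF1]
  have s3 : sg (insert e F) F' e = -1 := by simp [sg, hF2]
  have s4 : sg (insert e F) (insert e F') e = 1 := by simp [sg]
  have hne : ∀ e' ∈ S₀, e' ≠ e := fun e' h1 h2 => he (h2 ▸ h1)
  have t2 : ∏ e' ∈ S₀, q e' (sg F (insert e F') e') = ∏ e' ∈ S₀, q e' (sg F F' e') :=
    prod_congr rfl fun e' h1 => by simp only [sg, mem_insert, hne e' h1, false_or]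
  have t3 : ∏ e' ∈ S₀, q e' (sg (insert e F) F' e') = ∏ e' ∈ S₀, q e' (sg F F' e') :=
    prod_congr rfl fun e' h1 => by simp only [sg, mem_insert, hne e' h1, false_or]
  have t4 : ∏ e' ∈ S₀, q e' (sg (insert e F) (insert e F') e') = ∏ e' ∈ S₀, q e' (sg F F' e') :=
    prod_congr rfl fun e' h1 => by simp only [sg, mem_insert, hne e' h1, false_or]
  rw [s1, s2, s3, s4, t2, t3, t4]
  ring

/-- contribution of one coordinate to the derivative -/
noncomputable def De (ρ : E → ℝ) (S : Finset E) (f : Finset E → ℝ) (e : E) : ℝ :=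
  ∑ F ∈ S.powerset, ∑ F' ∈ S.powerset,
    ((∏ e' ∈ S.erase e, (1 + ρ e' * sg F F' e') / 4) * (sg F F' e / 4)) * (f F * f F')

theorem De_le {ρ : E → ℝ} {S : Finset E} {e : E} (he : e ∈ S)
    (hρ : ∀ e ∈ S, 0 ≤ ρ e ∧ ρ e ≤ 1) (A : Finset E → Prop) :
    De ρ S (fun F => ind (A F)) e ≤ P2 ρ S (fun F => ¬ (A (insert e F) ↔ A (F.erase e)))
      (fun F => ¬ (A (insert e F) ↔ A (F.erase e))) := by
  have hS : S = insert e (S.erase e) := (insert_erase he).symm
  have h0 : e ∉ S.erase e := notMem_erase e S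
  unfold De P2
  rw [E2_eq]
  have h1 : ∀ F F' : Finset E, ∏ e' ∈ S, (1 + ρ e' * sg F F' e') / 4 =
      (∏ e' ∈ S.erase e, (1 + ρ e' * sg F F' e') / 4) * ((1 + ρ e * sg F F' e) / 4) :=
    fun F F' => (prod_erase_mul S _ he).symm
  simp only [h1]
  have h2 := four h0 (fun e' s => (1 + ρ e' * s) / 4) (fun s => s / 4)
    (fun F F' => ind (A F) * ind (A F'))
  have h3 := four h0 (fun e' s => (1 + ρ e' * s) / 4) (fun s => (1 + ρ e * s) / 4)
    (fun F F' => ind (¬ (A (insert e F) ↔ A (F.erase e))) *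
      ind (¬ (A (insert e F') ↔ A (F'.erase e))))
  rw [insert_erase he] at h2 h3
  rw [h2, h3]
  refine sum_le_sum fun F hF => sum_le_sum fun F' hF' => ?_
  have hF1 : e ∉ F := fun h => h0 (mem_powerset.1 hF h)
  have hF2 : e ∉ F' := fun h => h0 (mem_powerset.1 hF' h)
  refine mul_le_mul_of_nonneg_left ?_ ?_
  · simp only [insert_idem, erase_insert_eq_erase, erase_eq_of_notMem hF1,
      erase_eq_of_notMem hF2]
    have k1 : ∀ P Q : Prop, |ind P - ind Q| = ind (¬ (P ↔ Q)) := by
      intro P Q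
      by_cases hP : P <;> by_cases hQ : Q <;> simp [ind, hP, hQ]
    rw [← k1, ← k1]
    set a := ind (A F)
    set b := ind (A (insert e F))
    set c := ind (A F')
    set d := ind (A (insert e F'))
    have k2 : (b - a) * (d - c) ≤ |b - a| * |d - c| := by
      rw [← abs_mul]; exact le_abs_self _
    have k3 : 0 ≤ |b - a| * |d - c| := by positivity
    nlinarith
  · refine prod_nonneg fun e' he' => ?_
    have h4 := hρ e' (mem_of_mem_erase he')
    rcases sg_or F F' e' with h5 | h5 <;> rw [h5]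
    · linarith [h4.1]
    · linarith [h4.2]

/-- the correlation is `x` on `N` and `ρ` elsewhere -/
noncomputable def mix (N : Finset E) (ρ : E → ℝ) (x : ℝ) (e : E) : ℝ := if e ∈ N then x else ρ e

theorem hasDeriv {ρ : E → ℝ} {S N : Finset E} (hN : N ⊆ S) (h : Finset E → ℝ) (x : ℝ) :
    HasDerivAt (fun y => E2 (mix N ρ y) S (fun F F' => h F * h F'))
      (∑ e ∈ N, De (mix N ρ x) S h e) x := by
  have h1 : (fun y => E2 (mix N ρ y) S (fun F F' => h F * h F')) =
      fun y => ∑ F ∈ S.powerset, ∑ F' ∈ S.powerset,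
        (∏ e ∈ S, (1 + mix N ρ y e * sg F F' e) / 4) * (h F * h F') := by
    funext y
    rw [E2_eq]
  rw [h1]
  have h2 : ∑ e ∈ N, De (mix N ρ x) S h e =
      ∑ F ∈ S.powerset, ∑ F' ∈ S.powerset,
        (∑ e ∈ S, (∏ e' ∈ S.erase e, (1 + mix N ρ x e' * sg F F' e') / 4) •
          (if e ∈ N then sg F F' e / 4 else 0)) * (h F * h F') := by
    unfold De
    rw [sum_comm]
    refine sum_congr rfl fun F _ => ?_
    rw [sum_comm]
    refine sum_congr rfl fun F' _ => ?_
    rw [← sum_mul]
    congr 1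
    rw [← sum_subset hN]
    · refine sum_congr rfl fun e he => ?_
      rw [if_pos he, smul_eq_mul]
    · intro e _ he
      rw [if_neg he, smul_zero]
  rw [h2]
  refine HasDerivAt.fun_sum fun F _ => HasDerivAt.fun_sum fun F' _ => ?_
  refine HasDerivAt.mul_const ?_ _
  refine HasDerivAt.fun_finsetProd fun e _ => ?_
  unfold mix
  by_cases he : e ∈ N
  · simp only [he, if_true]
    have h3 := (((hasDerivAt_id x).mul_const (sg F F' e)).const_add 1).div_const 4
    simpa using h3
  · simp only [he, if_false]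
    exact hasDerivAt_const x _

theorem cont (ρ : E → ℝ) (S N : Finset E) (h : Finset E → Finset E → ℝ) :
    Continuous (fun y => E2 (mix N ρ y) S h) := by
  have h1 : (fun y => E2 (mix N ρ y) S h) =
      fun y => ∑ F ∈ S.powerset, ∑ F' ∈ S.powerset,
        (∏ e ∈ S, (1 + mix N ρ y e * sg F F' e) / 4) * h F F' := by
    funext y
    rw [E2_eq]
  rw [h1]
  refine continuous_finsetSum _ fun F _ => continuous_finsetSum _ fun F' _ => ?_
  refine Continuous.mul (continuous_finsetProd _ fun e _ => ?_) continuous_const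
  unfold mix
  by_cases he : e ∈ N
  · simp only [he, if_true]
    fun_prop
  · simp only [he, if_false]
    exact continuous_const

theorem cont' (ρ : E → ℝ) (S N : Finset E) (h : Finset E → ℝ) (e₀ : E) :
    Continuous (fun y => De (mix N ρ y) S h e₀) := by
  unfold De
  refine continuous_finsetSum _ fun F _ => continuous_finsetSum _ fun F' _ => ?_
  refine Continuous.mul (Continuous.mul (continuous_finsetProd _ fun e _ => ?_)
    continuous_const) continuous_const
  unfold mix
  by_cases he : e ∈ N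
  · simp only [he, if_true]
    fun_prop
  · simp only [he, if_false]
    exact continuous_const

end P3x

open P3x

/-- derivative in the noise parameter: the correlation is `x` on `N` and `ρ` elsewhere. -/
theorem P2_deriv {ρ : E → ℝ} {S N : Finset E} (hN : N ⊆ S) (hρ : ∀ e ∈ S, 0 ≤ ρ e ∧ ρ e ≤ 1)
    (A : Finset E → Prop) {x : ℝ} (hx : 0 ≤ x) (hx1 : x ≤ 1) :
    P2 (fun e => if e ∈ N then x else ρ e) S A A ≤
      P2 (fun e => if e ∈ N then 0 else ρ e) S A A +
        ∑ e ∈ N, ∫ y in (0:ℝ)..x, P2 (fun e => if e ∈ N then y else ρ e) S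
          (fun F => ¬ (A (insert e F) ↔ A (F.erase e)))
          (fun F => ¬ (A (insert e F) ↔ A (F.erase e))) := by
  change P2 (mix N ρ x) S A A ≤ P2 (mix N ρ 0) S A A +
        ∑ e ∈ N, ∫ y in (0:ℝ)..x, P2 (mix N ρ y) S
          (fun F => ¬ (A (insert e F) ↔ A (F.erase e)))
          (fun F => ¬ (A (insert e F) ↔ A (F.erase e)))
  have h1 : ∫ y in (0:ℝ)..x, ∑ e ∈ N, De (mix N ρ y) S (fun F => ind (A F)) e =
      P2 (mix N ρ x) S A A - P2 (mix N ρ 0) S A A := by
    refine intervalIntegral.integral_eq_sub_of_hasDerivAt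
      (fun y _ => hasDeriv hN (fun F => ind (A F)) y) ?_
    exact (continuous_finsetSum _ fun e _ => cont' ρ S N _ e).intervalIntegrable _ _
  have h2 : ∑ e ∈ N, ∫ y in (0:ℝ)..x, De (mix N ρ y) S (fun F => ind (A F)) e =
      ∫ y in (0:ℝ)..x, ∑ e ∈ N, De (mix N ρ y) S (fun F => ind (A F)) e := by
    rw [intervalIntegral.integral_finsetSum]
    intro e _
    exact (cont' ρ S N _ e).intervalIntegrable _ _
  have h3 : ∑ e ∈ N, ∫ y in (0:ℝ)..x, De (mix N ρ y) S (fun F => ind (A F)) e ≤
      ∑ e ∈ N, ∫ y in (0:ℝ)..x, P2 (mix N ρ y) S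
          (fun F => ¬ (A (insert e F) ↔ A (F.erase e)))
          (fun F => ¬ (A (insert e F) ↔ A (F.erase e))) := by
    refine sum_le_sum fun e he => ?_
    refine intervalIntegral.integral_mono_on hx ((cont' ρ S N _ e).intervalIntegrable _ _)
      ((cont ρ S N _).intervalIntegrable _ _) fun y hy => ?_
    refine De_le (hN he) (fun e' he' => ?_) A
    unfold mix
    split_ifs
    · exact ⟨hy.1, hy.2.trans hx1⟩
    · exact hρ e' he'
  rw [h2, h1] at h3
  linarith

end H389NS
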