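import Pool.Agent.H389R2.NS.Defs
import Pool.Agent.H389R2.NS.Pair1

/-! Pairs and spectral weights. -/

set_option autoImplicit false

namespace H389NS

open H974 H12S Finset

variable {E : Type*} [DecidableEq E]

/-- one step of the recursion. -/
theorem E2_insert907 (ρ : E → ℝ) {a : E} {S : Finset E} (ha : a ∉ S)
    (h : Finset E → Finset E → ℝ) :
    E2 ρ (insert a S) h =
      (1 + ρ a) / 4 * (E2 ρ S h + E2 ρ S (fun F F' => h (insert a F) (insert a F'))) +
      (1 - ρ a) / 4 * (E2 ρ S (fun F F' => h F (insert a F')) +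
        E2 ρ S (fun F F' => h (insert a F) F')) := by
  classical
  have key : ∀ F F' : Finset E, F ⊆ S → F' ⊆ S →
      (∏ e ∈ insert a S, (if (e ∈ F ↔ e ∈ F') then (1 + ρ e) / 4 else (1 - ρ e) / 4)) =
        (1 + ρ a) / 4 * ∏ e ∈ S, (if (e ∈ F ↔ e ∈ F') then (1 + ρ e) / 4 else (1 - ρ e) / 4) := by
    intro F F' hF hF'
    rw [Finset.prod_insert ha, if_pos]
    exact ⟨fun h => absurd (hF h) ha, fun h => absurd (hF' h) ha⟩
  have pr : ∀ F F' G G' : Finset E, (∀ e ∈ S, (e ∈ F ↔ e ∈ G)) → (∀ e ∈ S, (e ∈ F' ↔ e ∈ G')) →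
      (∏ e ∈ S, (if (e ∈ F ↔ e ∈ F') then (1 + ρ e) / 4 else (1 - ρ e) / 4)) =
        ∏ e ∈ S, (if (e ∈ G ↔ e ∈ G') then (1 + ρ e) / 4 else (1 - ρ e) / 4) := by
    intro F F' G G' h1 h2
    apply Finset.prod_congr rfl
    intro e he
    exact if_congr (iff_congr (h1 e he) (h2 e he)) rfl rfl
  have mi : ∀ F : Finset E, ∀ e ∈ S, (e ∈ insert a F ↔ e ∈ F) := by
    intro F e he
    rw [Finset.mem_insert]
    exact ⟨fun h => h.resolve_left (fun h' => ha (h' ▸ he)), Or.inr⟩
  unfold E2
  rw [Finset.sum_powerset_insert ha]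
  simp_rw [Finset.sum_powerset_insert ha]
  rw [Finset.sum_add_distrib, Finset.sum_add_distrib]
  have s1 : ∀ c : ℝ, ∀ (u v : Finset E → Finset E), ∀ (w : Finset E → Finset E → ℝ),
      (∀ F ∈ S.powerset, ∀ F' ∈ S.powerset, w (u F) (v F') =
        c * ∏ e ∈ S, (if (e ∈ F ↔ e ∈ F') then (1 + ρ e) / 4 else (1 - ρ e) / 4)) →
      (∑ F ∈ S.powerset, ∑ F' ∈ S.powerset, w (u F) (v F') * h (u F) (v F')) =
        c * ∑ F ∈ S.powerset, ∑ F' ∈ S.powerset,
          (∏ e ∈ S, (if (e ∈ F ↔ e ∈ F') then (1 + ρ e) / 4 else (1 - ρ e) / 4)) *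
            h (u F) (v F') := by
    intro c u v w hw
    rw [Finset.mul_sum]
    apply Finset.sum_congr rfl
    intro F hF
    rw [Finset.mul_sum]
    apply Finset.sum_congr rfl
    intro F' hF'
    rw [hw F hF F' hF']
    ring
  have t1 := s1 ((1 + ρ a) / 4) (fun F => F) (fun F => F)
    (fun F F' => ∏ e ∈ insert a S, (if (e ∈ F ↔ e ∈ F') then (1 + ρ e) / 4 else (1 - ρ e) / 4))
    (fun F hF F' hF' => key F F' (Finset.mem_powerset.mp hF) (Finset.mem_powerset.mp hF'))
  have t2 := s1 ((1 - ρ a) / 4) (fun F => F) (fun F => insert a F)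
    (fun F F' => ∏ e ∈ insert a S, (if (e ∈ F ↔ e ∈ F') then (1 + ρ e) / 4 else (1 - ρ e) / 4))
    (fun F hF F' hF' => by
      have hF := Finset.mem_powerset.mp hF
      have haF : a ∉ F := fun h => ha (hF h)
      rw [Finset.prod_insert ha, if_neg (by simp [haF])]
      congr 1
      exact pr _ _ _ _ (fun e _ => Iff.rfl) (mi F'))
  have t3 := s1 ((1 - ρ a) / 4) (fun F => insert a F) (fun F => F)
    (fun F F' => ∏ e ∈ insert a S, (if (e ∈ F ↔ e ∈ F') then (1 + ρ e) / 4 else (1 - ρ e) / 4))
    (fun F hF F' hF' => by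
      have hF' := Finset.mem_powerset.mp hF'
      have haF : a ∉ F' := fun h => ha (hF' h)
      rw [Finset.prod_insert ha, if_neg (by simp [haF])]
      congr 1
      exact pr _ _ _ _ (mi F) (fun e _ => Iff.rfl))
  have t4 := s1 ((1 + ρ a) / 4) (fun F => insert a F) (fun F => insert a F)
    (fun F F' => ∏ e ∈ insert a S, (if (e ∈ F ↔ e ∈ F') then (1 + ρ e) / 4 else (1 - ρ e) / 4))
    (fun F hF F' hF' => by
      rw [Finset.prod_insert ha, if_pos (by simp)]
      congr 1
      exact pr _ _ _ _ (mi F) (mi F'))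
  rw [t1, t2, t3, t4]
  ring

theorem E2_empty907 (ρ : E → ℝ) (h : Finset E → Finset E → ℝ) : E2 ρ ∅ h = h ∅ ∅ := by
  unfold E2
  simp

theorem E2_congr907 {ρ : E → ℝ} {S : Finset E} {h h' : Finset E → Finset E → ℝ}
    (hh : ∀ F F', F ⊆ S → F' ⊆ S → h F F' = h' F F') : E2 ρ S h = E2 ρ S h' := by
  unfold E2
  apply Finset.sum_congr rfl
  intro F hF
  apply Finset.sum_congr rfl
  intro F' hF'
  rw [hh F F' (Finset.mem_powerset.mp hF) (Finset.mem_powerset.mp hF')]

theorem E2_congr_param907 {ρ ρ' : E → ℝ} {S : Finset E} (h : Finset E → Finset E → ℝ)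
    (hρ : ∀ e ∈ S, ρ e = ρ' e) : E2 ρ S h = E2 ρ' S h := by
  unfold E2
  apply Finset.sum_congr rfl
  intro F hF
  apply Finset.sum_congr rfl
  intro F' hF'
  congr 1
  apply Finset.prod_congr rfl
  intro e he
  rw [hρ e he]

theorem E2_union907 (ρ : E → ℝ) {S T : Finset E} (hd : Disjoint S T)
    (h : Finset E → Finset E → ℝ) :
    E2 ρ (S ∪ T) h = E2 ρ S (fun A A' => E2 ρ T (fun B B' => h (A ∪ B) (A' ∪ B'))) := by
  induction S using Finset.induction_on generalizing h with
  | empty => simp [E2_empty907]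
  | insert a S ha ih =>
    rw [Finset.disjoint_insert_left] at hd
    rw [Finset.insert_union, E2_insert907 ρ (by simp [ha, hd.1]), E2_insert907 ρ ha,
      ih hd.2, ih hd.2, ih hd.2, ih hd.2]
    simp only [Finset.insert_union]

/-- correlation one: equal configurations. -/
theorem E2_one907 {ρ : E → ℝ} {S : Finset E} (hρ : ∀ e ∈ S, ρ e = 1)
    (h : Finset E → Finset E → ℝ) : E2 ρ S h = Ex hp S (fun G => h G G) := by
  induction S using Finset.induction_on generalizing h with
  | empty => simp [E2_empty907, Ex_empty]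
  | insert a S ha ih =>
    have hS : ∀ e ∈ S, ρ e = 1 := fun e he => hρ e (Finset.mem_insert_of_mem he)
    rw [E2_insert907 ρ ha, Ex_insert _ ha, hρ a (Finset.mem_insert_self _ _), ih hS, ih hS]
    unfold hp
    ring

/-- spectral weights and noise: correlation `x` on `V` and `1` elsewhere. -/
theorem P2_sp {S V : Finset E} (hV : V ⊆ S) (f : Finset E → ℝ) (x : ℝ) :
    E2 (fun e => if e ∈ V then x else 1) S (fun F F' => f F * f F') =
      ∑ T ∈ V.powerset, sp hp S V f T * x ^ T.card := by
  have h1 : S = (S \ V) ∪ V := by rw [Finset.sdiff_union_of_subset hV]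
  have hd : Disjoint (S \ V) V := Finset.sdiff_disjoint
  conv_lhs => rw [h1]
  rw [E2_union907 _ hd, E2_one907 (fun e he => by
    rw [if_neg (Finset.mem_sdiff.mp he).2])]
  have e1 : ∀ G : Finset E, E2 (fun e => if e ∈ V then x else 1) V
      (fun B B' => f (G ∪ B) * f (G ∪ B')) =
      ∑ T ∈ V.powerset, (wal V (fun Y => f (G ∪ Y)) T) ^ 2 * x ^ T.card := by
    intro G
    rw [E2_wal _ V (fun Y => f (G ∪ Y)) (fun Y => f (G ∪ Y))]
    apply Finset.sum_congr rfl
    intro T hT
    have hT := Finset.mem_powerset.mp hT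
    have e2 : (∏ e ∈ T, (if e ∈ V then x else 1)) = x ^ T.card := by
      rw [Finset.prod_congr rfl (fun e he => if_pos (hT he)), Finset.prod_const]
    rw [e2]
    ring
  simp_rw [e1]
  rw [Ex_sum]
  apply Finset.sum_congr rfl
  intro T _
  unfold sp
  rw [Ex_mul_right]

theorem wal_dif907 {V : Finset E} {e : E} (he : e ∉ V) (g : Finset E → ℝ) {T : Finset E}
    (hT : T ⊆ V) :
    wal (insert e V) (dif e g) T = -2 * wal (insert e V) g (insert e T) ∧
      wal (insert e V) (dif e g) (insert e T) = 0 := by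
  have heT : e ∉ T := fun h => he (hT h)
  have c1 : ∀ F, F ⊆ V → chi T (insert e F) = chi T F := by
    intro F _
    unfold chi
    rw [Finset.insert_inter_of_notMem heT]
  have c2 : ∀ F, F ⊆ V → chi (insert e T) F = chi T F := by
    intro F hF
    have heF : e ∉ F := fun h => he (hF h)
    unfold chi
    rw [Finset.inter_insert_of_notMem heF]
  have c3 : ∀ F, F ⊆ V → chi (insert e T) (insert e F) = - chi T F := by
    intro F hF
    have heF : e ∉ F := fun h => he (hF h)
    unfold chi
    rw [← Finset.insert_inter_distrib, Finset.card_insert_of_notMem (by simp [heF]), pow_succ]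
    ring
  have d1 : ∀ F, F ⊆ V → dif e g (insert e F) = g (insert e F) - g F := by
    intro F hF
    have heF : e ∉ F := fun h => he (hF h)
    unfold dif
    rw [Finset.insert_idem, Finset.erase_insert heF]
  have d2 : ∀ F, F ⊆ V → dif e g F = g (insert e F) - g F := by
    intro F hF
    have heF : e ∉ F := fun h => he (hF h)
    unfold dif
    rw [Finset.erase_eq_of_notMem heF]
  constructor
  · unfold wal
    rw [Ex_insert _ he, Ex_insert _ he]
    have a1 : Ex hp V (fun F => chi T (insert e F) * dif e g (insert e F)) =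
        Ex hp V (fun F => chi T F * g (insert e F)) - Ex hp V (fun F => chi T F * g F) := by
      rw [← Ex_sub]
      apply Ex_congr
      intro F hF
      rw [c1 F hF, d1 F hF]
      ring
    have a2 : Ex hp V (fun F => chi T F * dif e g F) =
        Ex hp V (fun F => chi T F * g (insert e F)) - Ex hp V (fun F => chi T F * g F) := by
      rw [← Ex_sub]
      apply Ex_congr
      intro F hF
      rw [d2 F hF]
      ring
    have a3 : Ex hp V (fun F => chi (insert e T) (insert e F) * g (insert e F)) =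
        - Ex hp V (fun F => chi T F * g (insert e F)) := by
      have : ∀ F, F ⊆ V → chi (insert e T) (insert e F) * g (insert e F) =
          (-1) * (chi T F * g (insert e F)) := by
        intro F hF
        rw [c3 F hF]
        ring
      rw [Ex_congr this, Ex_mul_left]
      ring
    have a4 : Ex hp V (fun F => chi (insert e T) F * g F) = Ex hp V (fun F => chi T F * g F) := by
      apply Ex_congr
      intro F hF
      rw [c2 F hF]
    rw [a1, a2, a3, a4]
    unfold hp
    ring
  · unfold wal
    rw [Ex_insert _ he]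
    have a1 : Ex hp V (fun F => chi (insert e T) (insert e F) * dif e g (insert e F)) =
        (-1) * Ex hp V (fun F => chi T F * (g (insert e F) - g F)) := by
      rw [← Ex_mul_left]
      apply Ex_congr
      intro F hF
      rw [c3 F hF, d1 F hF]
      ring
    have a2 : Ex hp V (fun F => chi (insert e T) F * dif e g F) =
        Ex hp V (fun F => chi T F * (g (insert e F) - g F)) := by
      apply Ex_congr
      intro F hF
      rw [c2 F hF, d2 F hF]
    rw [a1, a2]
    unfold hp
    ring

/-- discrete derivatives in both layers -/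
theorem E2_dif {S V : Finset E} (hV : V ⊆ S) (f : Finset E → ℝ) (x : ℝ) {e : E} (he : e ∈ V) :
    E2 (fun e => if e ∈ V then x else 1) S (fun F F' => dif e f F * dif e f F') =
      4 * ∑ T ∈ V.powerset.filter (fun T => e ∈ T), sp hp S V f T * x ^ (T.card - 1) := by
  rw [P2_sp hV (dif e f) x]
  obtain ⟨V', he', rfl⟩ : ∃ V', e ∉ V' ∧ V = insert e V' :=
    ⟨V.erase e, Finset.notMem_erase e V, (Finset.insert_erase he).symm⟩
  have hsp : ∀ T, T ⊆ V' →
      sp hp S (insert e V') (dif e f) T = 4 * sp hp S (insert e V') f (insert e T) ∧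
      sp hp S (insert e V') (dif e f) (insert e T) = 0 := by
    intro T hT
    have hG : ∀ G, G ⊆ S \ insert e V' →
        (fun Y => dif e f (G ∪ Y)) = dif e (fun Y => f (G ∪ Y)) := by
      intro G hG
      have heG : e ∉ G := fun h => (Finset.mem_sdiff.mp (hG h)).2 (Finset.mem_insert_self _ _)
      funext Y
      show f (insert e (G ∪ Y)) - f ((G ∪ Y).erase e) = f (G ∪ insert e Y) - f (G ∪ Y.erase e)
      rw [Finset.union_insert]
      congr 2
      rw [Finset.erase_union_distrib, Finset.erase_eq_of_notMem heG]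
    constructor
    · unfold sp
      rw [← Ex_mul_left]
      apply Ex_congr
      intro G hG'
      rw [hG G hG', (wal_dif907 he' _ hT).1]
      ring
    · unfold sp
      rw [Ex_congr (g := fun _ => (0 : ℝ)) (fun G hG' => by
        rw [hG G hG', (wal_dif907 he' _ hT).2]
        ring), Ex_const]
  rw [Finset.sum_powerset_insert he', Finset.sum_filter, Finset.sum_powerset_insert he']
  have z1 : ∑ T ∈ V'.powerset, sp hp S (insert e V') (dif e f) (insert e T) *
      x ^ (insert e T).card = 0 := by
    apply Finset.sum_eq_zero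
    intro T hT
    rw [(hsp T (Finset.mem_powerset.mp hT)).2, zero_mul]
  have z2 : ∑ T ∈ V'.powerset, (if e ∈ T then sp hp S (insert e V') f T * x ^ (T.card - 1)
      else 0) = 0 := by
    apply Finset.sum_eq_zero
    intro T hT
    rw [if_neg (fun h => he' (Finset.mem_powerset.mp hT h))]
  rw [z1, z2, add_zero, zero_add, Finset.mul_sum]
  apply Finset.sum_congr rfl
  intro T hT
  have hT := Finset.mem_powerset.mp hT
  have heT : e ∉ T := fun h => he' (hT h)
  rw [if_pos (Finset.mem_insert_self _ _), (hsp T hT).1, Finset.card_insert_of_notMem heT,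
    Nat.add_sub_cancel]
  ring

end H389NS
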