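import Pool.Agent.H389R2.NS.Defs

/-! First and second moments. -/

set_option autoImplicit false

namespace H389NS

open H974 H12S Finset

variable {E : Type*} [DecidableEq E]

/-- PZ: first and second moments. -/
theorem paley {V W B : Finset E} {μ : Finset E → ℝ} (h0 : ∀ T, T ⊆ V → 0 ≤ μ T) (hB : B ⊆ V \ W)
    {u K m1 m2 : ℝ} (hK : 0 ≤ K) (hm : 0 < m2)
    (hu : ∑ T ∈ (V \ W).powerset.filter (fun T => ¬ Disjoint T B), μ T ≤ u)
    (h1 : m1 ≤ ∑ x ∈ B, ∑ T ∈ (V \ W).powerset.filter (fun T => x ∈ T), μ T)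
    (h2 : ∑ x ∈ B, ∑ y ∈ B, ∑ T ∈ (V \ W).powerset.filter (fun T => x ∈ T ∧ y ∈ T), μ T ≤ m2)
    (hKu : 2 * K * u ≤ m1) (hm1 : 0 ≤ m1) :
    m1 ^ 2 / (4 * m2) ≤
      ∑ T ∈ (V \ W).powerset.filter (fun T => K ≤ ((T ∩ B).card : ℝ)), μ T := by
  classical
  have hP : ∀ T ∈ (V \ W).powerset, 0 ≤ μ T := fun T hT =>
    h0 T ((Finset.mem_powerset.1 hT).trans Finset.sdiff_subset)
  set P := (V \ W).powerset with hPdef
  have e1 : ∑ x ∈ B, ∑ T ∈ P.filter (fun T => x ∈ T), μ T = ∑ T ∈ P, ((T ∩ B).card : ℝ) * μ T := by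
    simp_rw [Finset.sum_filter]
    rw [Finset.sum_comm]
    refine Finset.sum_congr rfl fun T _ => ?_
    rw [← Finset.sum_filter, Finset.sum_const, nsmul_eq_mul]
    congr 3
    ext x
    simp [and_comm]
  have e2 : ∑ x ∈ B, ∑ y ∈ B, ∑ T ∈ P.filter (fun T => x ∈ T ∧ y ∈ T), μ T
      = ∑ T ∈ P, ((T ∩ B).card : ℝ) ^ 2 * μ T := by
    simp_rw [Finset.sum_filter]
    have : ∀ x ∈ B, ∑ y ∈ B, ∑ T ∈ P, (if x ∈ T ∧ y ∈ T then μ T else 0)
        = ∑ T ∈ P, (if x ∈ T then ((T ∩ B).card : ℝ) * μ T else 0) := by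
      intro x _
      rw [Finset.sum_comm]
      refine Finset.sum_congr rfl fun T _ => ?_
      by_cases hx : x ∈ T
      · simp only [hx, true_and, if_true]
        rw [← Finset.sum_filter, Finset.sum_const, nsmul_eq_mul]
        congr 3
        ext y
        simp [and_comm]
      · simp [hx]
    rw [Finset.sum_congr rfl this, Finset.sum_comm]
    refine Finset.sum_congr rfl fun T _ => ?_
    rw [← Finset.sum_filter, Finset.sum_const, nsmul_eq_mul]
    have : (B.filter (fun x => x ∈ T)) = T ∩ B := by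
      ext x
      simp [and_comm]
    rw [this]
    ring
  rw [e1] at h1
  rw [e2] at h2
  set G := P.filter (fun T => K ≤ ((T ∩ B).card : ℝ)) with hG
  have hGP : ∀ T ∈ G, 0 ≤ μ T := fun T hT => hP T (Finset.mem_filter.1 hT).1
  -- small part
  have hsmall : ∑ T ∈ P.filter (fun T => ¬ K ≤ ((T ∩ B).card : ℝ)), ((T ∩ B).card : ℝ) * μ T ≤ K * u := by
    have : ∑ T ∈ P.filter (fun T => ¬ K ≤ ((T ∩ B).card : ℝ)), ((T ∩ B).card : ℝ) * μ T
        ≤ ∑ T ∈ P.filter (fun T => ¬ Disjoint T B), K * μ T := by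
      have a1 : ∑ T ∈ P.filter (fun T => ¬ K ≤ ((T ∩ B).card : ℝ)), ((T ∩ B).card : ℝ) * μ T
          = ∑ T ∈ (P.filter (fun T => ¬ K ≤ ((T ∩ B).card : ℝ))).filter (fun T => ¬ Disjoint T B),
              ((T ∩ B).card : ℝ) * μ T := by
        rw [Finset.sum_filter (p := fun T => ¬ Disjoint T B)]
        refine Finset.sum_congr rfl fun T _ => ?_
        by_cases hd : Disjoint T B
        · simp [hd, Finset.disjoint_iff_inter_eq_empty.1 hd]
        · simp [hd]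
      rw [a1]
      refine (Finset.sum_le_sum (g := fun T => K * μ T) fun T hT => ?_).trans ?_
      · simp only [Finset.mem_filter] at hT
        exact mul_le_mul_of_nonneg_right (not_le.1 hT.1.2).le (hP T hT.1.1)
      · refine Finset.sum_le_sum_of_subset_of_nonneg ?_ fun T hT _ => ?_
        · intro T hT
          simp only [Finset.mem_filter] at hT ⊢
          exact ⟨hT.1.1, hT.2⟩
        · exact mul_nonneg hK (hP T (Finset.mem_filter.1 hT).1)
    refine this.trans ?_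
    rw [← Finset.mul_sum]
    exact mul_le_mul_of_nonneg_left hu hK
  have hbig : m1 / 2 ≤ ∑ T ∈ G, ((T ∩ B).card : ℝ) * μ T := by
    have := Finset.sum_filter_add_sum_filter_not P (fun T => K ≤ ((T ∩ B).card : ℝ))
      (fun T => ((T ∩ B).card : ℝ) * μ T)
    linarith
  have hcs : (∑ T ∈ G, ((T ∩ B).card : ℝ) * μ T) ^ 2 ≤
      (∑ T ∈ G, ((T ∩ B).card : ℝ) ^ 2 * μ T) * ∑ T ∈ G, μ T := by
    have := Finset.sum_mul_sq_le_sq_mul_sq G (fun T => ((T ∩ B).card : ℝ) * Real.sqrt (μ T))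
      (fun T => Real.sqrt (μ T))
    have b1 : ∑ T ∈ G, ((T ∩ B).card : ℝ) * Real.sqrt (μ T) * Real.sqrt (μ T)
        = ∑ T ∈ G, ((T ∩ B).card : ℝ) * μ T :=
      Finset.sum_congr rfl fun T hT => by rw [mul_assoc, Real.mul_self_sqrt (hGP T hT)]
    have b2 : ∑ T ∈ G, (((T ∩ B).card : ℝ) * Real.sqrt (μ T)) ^ 2
        = ∑ T ∈ G, ((T ∩ B).card : ℝ) ^ 2 * μ T :=
      Finset.sum_congr rfl fun T hT => by rw [mul_pow, Real.sq_sqrt (hGP T hT)]
    have b3 : ∑ T ∈ G, (Real.sqrt (μ T)) ^ 2 = ∑ T ∈ G, μ T :=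
      Finset.sum_congr rfl fun T hT => Real.sq_sqrt (hGP T hT)
    rw [b1, b2, b3] at this
    exact this
  have hm2 : ∑ T ∈ G, ((T ∩ B).card : ℝ) ^ 2 * μ T ≤ m2 := by
    refine le_trans ?_ h2
    exact Finset.sum_le_sum_of_subset_of_nonneg (Finset.filter_subset _ _) fun T hT _ =>
      mul_nonneg (sq_nonneg _) (hP T hT)
  have hG0 : 0 ≤ ∑ T ∈ G, μ T := Finset.sum_nonneg hGP
  rw [div_le_iff₀ (by linarith)]
  have h3 : (m1 / 2) ^ 2 ≤ (∑ T ∈ G, ((T ∩ B).card : ℝ) * μ T) ^ 2 :=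
    pow_le_pow_left₀ (by linarith) hbig 2
  have h4 : (∑ T ∈ G, ((T ∩ B).card : ℝ) ^ 2 * μ T) * ∑ T ∈ G, μ T ≤ m2 * ∑ T ∈ G, μ T :=
    mul_le_mul_of_nonneg_right hm2 hG0
  nlinarith

end H389NS
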