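import Pool.Agent.H389R2.NS.BlkSumN
import Pool.Agent.H12R2.Sep.WinHalf

/-! Q2b (helper195): disjoint blocks inside a pivotal block. -/

set_option autoImplicit false

namespace H389NS

open H974 H12S Finset

namespace QB

theorem Ex_comm (p : Edg → ℝ) (S T : Finset Edg) (f : Finset Edg → Finset Edg → ℝ) :
    Ex p S (fun Y => Ex p T (fun Z => f Y Z)) = Ex p T (fun Z => Ex p S (fun Y => f Y Z)) := by
  unfold Ex
  simp only [mul_sum]
  rw [sum_comm]
  refine sum_congr rfl fun Z _ => sum_congr rfl fun Y _ => ?_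
  ring

theorem Ex_congr_p {p p' : Edg → ℝ} {S : Finset Edg} (h : ∀ e ∈ S, p e = p' e)
    (f : Finset Edg → ℝ) : Ex p S f = Ex p' S f := by
  unfold Ex
  refine sum_congr rfl fun F hF => ?_
  have hF' := mem_powerset.1 hF
  have e1 : ∏ e ∈ F, p e = ∏ e ∈ F, p' e := prod_congr rfl fun e he => h e (hF' he)
  have e2 : ∏ e ∈ S \ F, (1 - p e) = ∏ e ∈ S \ F, (1 - p' e) :=
    prod_congr rfl fun e he => by rw [h e (sdiff_subset he)]
  rw [e1, e2]

theorem Ex_one {p : Edg → ℝ} {S : Finset Edg} (h : ∀ e ∈ S, p e = 1)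
    (f : Finset Edg → ℝ) : Ex p S f = f S := by
  induction S using Finset.induction_on generalizing f with
  | empty => exact Ex_empty p f
  | insert a S ha ih =>
    rw [Ex_insert p ha, h a (mem_insert_self _ _), ih (fun e he => h e (mem_insert_of_mem he))]
    ring

theorem BPv_mono {I J : Set Vtx} {b b' : Finset Edg} (h : b ⊆ b') {F : Set Edg}
    (hF : BPv I J b F) : BPv I J b' F := by
  have hb : (↑b : Set Edg) ⊆ ↑b' := Finset.coe_subset.2 h
  refine ⟨Cn_mono (Set.union_subset_union_right _ hb) hF.1, fun h2 => hF.2 (Cn_mono ?_ h2)⟩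
  exact Set.sdiff_subset_sdiff_right hb

theorem BPv_drop {I J : Set Vtx} {b D Y : Finset Edg} (hY : Y ⊆ b) :
    BPv I J b (↑(D ∪ Y) : Set Edg) ↔ BPv I J b (↑D : Set Edg) := by
  have e1 : (↑(D ∪ Y) : Set Edg) ∪ ↑b = (↑D : Set Edg) ∪ ↑b := by
    ext x
    have := @hY x
    simp only [coe_union, Set.mem_union, mem_coe]
    tauto
  have e2 : (↑(D ∪ Y) : Set Edg) \ ↑b = (↑D : Set Edg) \ ↑b := by
    ext x
    have := @hY x
    simp only [coe_union, Set.mem_union, mem_coe, Set.mem_sdiff]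
    tauto
  unfold BPv
  rw [e1, e2]

theorem UA_nonneg {p : Edg → ℝ} (hp : Ok p) (S W : Finset Edg) (A : Finset Edg → Prop) :
    0 ≤ UA p S W A := by
  unfold UA UU
  exact Ex_nonneg hp fun G _ => sq_nonneg _

theorem UA_mono {p : Edg → ℝ} (hp : Ok p) {S W : Finset Edg} {A B : Finset Edg → Prop}
    (h : ∀ F, A F → B F) : UA p S W A ≤ UA p S W B := by
  unfold UA UU
  refine Ex_mono hp fun G _ => ?_
  refine pow_le_pow_left₀ (Ex_nonneg hp fun Y _ => ind_nonneg _) ?_ 2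
  exact Ex_mono hp fun Y _ => ind_mono (h _)

/-- centre of a cell -/
def cz (c : ℤ × ℤ) (s d : ℕ) (z : ℕ × ℕ) : ℤ × ℤ :=
  (c.1 - s + (z.1 : ℤ) * d, c.2 - s + (z.2 : ℤ) * d)

/-- the cells -/
def ZZ (s d : ℕ) : Finset (ℕ × ℕ) := range (2 * s / d + 1) ×ˢ range (2 * s / d + 1)

theorem cz_near {c : ℤ × ℤ} {s d : ℕ} {z : ℕ × ℕ} (hz : z ∈ ZZ s d) :
    |(cz c s d z).1 - c.1| ≤ s ∧ |(cz c s d z).2 - c.2| ≤ s := by
  unfold ZZ at hz
  rw [mem_product, mem_range, mem_range] at hz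
  have h1 : z.1 * d ≤ 2 * s := le_trans (Nat.mul_le_mul_right d (by omega)) (Nat.div_mul_le_self _ _)
  have h2 : z.2 * d ≤ 2 * s := le_trans (Nat.mul_le_mul_right d (by omega)) (Nat.div_mul_le_self _ _)
  have h1' : (z.1 : ℤ) * d ≤ 2 * s := by exact_mod_cast h1
  have h2' : (z.2 : ℤ) * d ≤ 2 * s := by exact_mod_cast h2
  have h3 : (0 : ℤ) ≤ (z.1 : ℤ) * d := by positivity
  have h4 : (0 : ℤ) ≤ (z.2 : ℤ) * d := by positivity
  unfold cz
  constructor <;> rw [abs_le] <;> constructor <;> simp only <;> linarith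

theorem mem_blk_bd {c : ℤ × ℤ} {k : ℕ} {e : Edg} (h : e ∈ blk c k) :
    |e.1 - c.1| ≤ k ∧ |e.2.1 - c.2| ≤ k := by
  obtain ⟨x, y, b⟩ := e
  unfold blk at h
  cases b
  · rw [mem_RE_false] at h
    simp only [abs_le]
    omega
  · rw [mem_RE_true] at h
    simp only [abs_le]
    omega

theorem blk_sub' {c c' : ℤ × ℤ} {a b : ℕ} (h1 : |c'.1 - c.1| + a ≤ b) (h2 : |c'.2 - c.2| + a ≤ b) :
    blk c' a ⊆ blk c b := by
  have i1 := abs_le.mp (le_refl |c'.1 - c.1|)
  have i2 := abs_le.mp (le_refl |c'.2 - c.2|)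
  unfold blk
  apply RE_subset <;> omega

theorem cz_inj {c : ℤ × ℤ} {s d : ℕ} (hd : 1 ≤ d) : Function.Injective (cz c s d) := by
  intro z z' h
  unfold cz at h
  rw [Prod.mk.injEq] at h
  have hd' : (d : ℤ) ≠ 0 := by exact_mod_cast (by omega : d ≠ 0)
  have h1 : (z.1 : ℤ) * d = (z'.1 : ℤ) * d := by linarith [h.1]
  have h2 : (z.2 : ℤ) * d = (z'.2 : ℤ) * d := by linarith [h.2]
  have h3 := mul_right_cancel₀ hd' h1
  have h4 := mul_right_cancel₀ hd' h2
  ext
  · exact_mod_cast h3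
  · exact_mod_cast h4

theorem far_mul {a b : ℤ} {d : ℕ} (hd : 1 ≤ d) (h : a ≡ b [ZMOD 19]) (hne : a ≠ b) :
    18 * (d : ℤ) < |a * d - b * d| := by
  have h1 : (19 : ℤ) ∣ a - b := (Int.modEq_iff_dvd.1 h.symm)
  have h2 : (19 : ℤ) ≤ |a - b| := by
    have h3 : (19 : ℤ) ∣ |a - b| := (dvd_abs _ _).2 h1
    exact Int.le_of_dvd (abs_pos.2 (sub_ne_zero.2 hne)) h3
  have hd' : (1 : ℤ) ≤ d := by exact_mod_cast hd
  rw [← sub_mul, abs_mul, abs_of_nonneg (by linarith : (0 : ℤ) ≤ d)]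
  nlinarith

/-- the cells of one colour -/
theorem class_sum {κ : ℝ} (hκ : ∀ n : ℕ, Win (1 / 2) κ n) {p : Edg → ℝ} {I J : Set Vtx}
    {c : ℤ × ℤ} {s d : ℕ} (hd : 1 ≤ d) (hds : 8 * d ≤ s) (hfair : ∀ e ∈ blk c (4 * s), p e = 1 / 2)
    (hfar : FarS (I ∪ J) c (4 * s)) {D : Finset Edg} (hD : Disjoint D (blk c (4 * s)))
    (k : ℕ × ℕ) :
    ∑ z ∈ (ZZ s d).filter (fun z => (z.1 % 19, z.2 % 19) = k),
      Ex p (blk c (4 * s)) (fun Y => ind (BPv I J (blk (cz c s d z) (3 * d)) ↑(D ∪ Y))) ≤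
      2 * κ⁻¹ ^ 4 * (3 * s / d) := by
  classical
  set B := blk c (4 * s) with hB
  set T := (ZZ s d).filter (fun z => (z.1 % 19, z.2 % 19) = k) with hT
  set p' : Edg → ℝ := fun e => if e ∈ D then 1 else 1 / 2 with hp'
  have hok : Ok p' := by
    intro e
    simp only [hp']
    split_ifs <;> norm_num
  have hp1 : ∀ e ∈ D, p' e = 1 := fun e he => by simp only [hp', if_pos he]
  have hpB : ∀ e ∈ B, p' e = 1 / 2 := by
    intro e he
    have : e ∉ D := fun h => (Finset.disjoint_left.1 hD h) he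
    simp only [hp', if_neg this]
  have e1 : ∀ z ∈ T, Ex p B (fun Y => ind (BPv I J (blk (cz c s d z) (3 * d)) ↑(D ∪ Y))) =
      Pr p' (D ∪ B) (fun F => BPv I J (blk (cz c s d z) (3 * d)) ↑F) := by
    intro z _
    unfold Pr
    rw [Ex_union hD, Ex_one hp1]
    exact Ex_congr_p (fun e he => by rw [hfair e he, hpB e he]) _
  rw [sum_congr rfl e1]
  have e2 : ∑ z ∈ T, Pr p' (D ∪ B) (fun F => BPv I J (blk (cz c s d z) (3 * d)) ↑F) =
      ∑ c' ∈ T.image (cz c s d), Pr p' (D ∪ B) (fun F => BPv I J (blk c' (3 * d)) ↑F) := by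
    rw [sum_image (fun z _ z' _ h => cz_inj hd h)]
  rw [e2]
  have hTZ : T ⊆ ZZ s d := filter_subset _ _
  have hsub : ∀ c' ∈ T.image (cz c s d), blk c' (3 * (3 * d)) ⊆ B := by
    intro c' hc'
    obtain ⟨z, hz, rfl⟩ := mem_image.1 hc'
    obtain ⟨h1, h2⟩ := cz_near (c := c) (hTZ hz)
    apply blk_sub' <;> push_cast <;> omega
  have hmain := blk_sum_p (hκ (6 * d)) hok (S := D ∪ B) (I := I) (J := J)
    (T := T.image (cz c s d)) (ρ := fun _ => 3 * d) (fun _ _ => by constructor <;> omega)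
    (fun c' hc' => (hsub c' hc').trans subset_union_right)
    (fun c' hc' e he => hpB e (hsub c' hc' he))
    (by
      intro c1 hc1 c2 hc2 hne
      obtain ⟨z, hz, rfl⟩ := mem_image.1 hc1
      obtain ⟨z', hz', rfl⟩ := mem_image.1 hc2
      rw [hT, mem_filter] at hz hz'
      have hk : (z.1 % 19, z.2 % 19) = (z'.1 % 19, z'.2 % 19) := hz.2.trans hz'.2.symm
      rw [Prod.mk.injEq] at hk
      have hzz : z ≠ z' := fun h => hne (by rw [h])
      rw [Finset.disjoint_left]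
      intro e he he'
      have b1 := mem_blk_bd he
      have b2 := mem_blk_bd he'
      unfold cz at b1 b2
      simp only [abs_le] at b1 b2
      push_cast at b1 b2
      by_cases h1 : z.1 = z'.1
      · have h2 : z.2 ≠ z'.2 := fun h => hzz (Prod.ext h1 h)
        have h3 : (z.2 : ℤ) ≡ (z'.2 : ℤ) [ZMOD 19] := by
          have : z.2 ≡ z'.2 [MOD 19] := hk.2
          exact_mod_cast (Int.natCast_modEq_iff (n := 19)).2 this
        have h4 := far_mul hd h3 (by exact_mod_cast h2)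
        rcases lt_abs.1 h4 with h5 | h5 <;> linarith
      · have h3 : (z.1 : ℤ) ≡ (z'.1 : ℤ) [ZMOD 19] := by
          have : z.1 ≡ z'.1 [MOD 19] := hk.1
          exact_mod_cast (Int.natCast_modEq_iff (n := 19)).2 this
        have h4 := far_mul hd h3 (by exact_mod_cast h1)
        rcases lt_abs.1 h4 with h5 | h5 <;> linarith)
    (by
      intro c' hc' v hv h
      obtain ⟨z, hz, rfl⟩ := mem_image.1 hc'
      obtain ⟨h1, h2⟩ := cz_near (c := c) (hTZ hz)
      have h3 := hfar v hv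
      rw [abs_le] at h1 h2
      rw [abs_lt, abs_lt] at h
      push_cast at h h3
      have hds' : 8 * (d : ℤ) ≤ s := by exact_mod_cast hds
      have hd' : (1 : ℤ) ≤ d := by exact_mod_cast hd
      rcases h3 with h3 | h3
      · rcases le_abs.1 h3 with h5 | h5 <;> linarith
      · rcases le_abs.1 h3 with h5 | h5 <;> linarith)
  refine hmain.trans ?_
  have hκ0 := (hκ 1).kpos
  refine mul_le_mul_of_nonneg_left ?_ (by positivity)
  have hcard : (T.image (cz c s d)).card ≤ (2 * s / d + 1) ^ 2 := by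
    refine card_image_le.trans ((card_le_card hTZ).trans ?_)
    unfold ZZ
    rw [card_product, card_range, sq]
  have hN : ((2 * s / d + 1 : ℕ) : ℝ) ≤ 3 * s / d := by
    have hd0 : (0 : ℝ) < d := by exact_mod_cast hd
    have h1 : ((2 * s / d : ℕ) : ℝ) ≤ ((2 * s : ℕ) : ℝ) / d := Nat.cast_div_le
    push_cast at h1 ⊢
    have h2 : (8 : ℝ) * d ≤ s := by exact_mod_cast hds
    have h3 : (1 : ℝ) ≤ s / d := by rw [le_div_iff₀ hd0]; linarith
    have h4 : (3 : ℝ) * s / d = 2 * s / d + s / d := by ring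
    rw [h4]
    linarith
  calc Real.sqrt ((T.image (cz c s d)).card : ℝ)
      ≤ Real.sqrt (((2 * s / d + 1 : ℕ) : ℝ) ^ 2) := by
        apply Real.sqrt_le_sqrt
        exact_mod_cast hcard
    _ = ((2 * s / d + 1 : ℕ) : ℝ) := Real.sqrt_sq (Nat.cast_nonneg _)
    _ ≤ 3 * s / d := hN

/-- all cells -/
theorem cells_sum {κ : ℝ} (hκ : ∀ n : ℕ, Win (1 / 2) κ n) {p : Edg → ℝ} {I J : Set Vtx}
    {c : ℤ × ℤ} {s d : ℕ} (hd : 1 ≤ d) (hds : 8 * d ≤ s) (hfair : ∀ e ∈ blk c (4 * s), p e = 1 / 2)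
    (hfar : FarS (I ∪ J) c (4 * s)) {D : Finset Edg} (hD : Disjoint D (blk c (4 * s))) :
    ∑ z ∈ ZZ s d,
      Ex p (blk c (4 * s)) (fun Y => ind (BPv I J (blk (cz c s d z) (3 * d)) ↑(D ∪ Y))) ≤
      361 * (2 * κ⁻¹ ^ 4 * (3 * s / d)) * ind (BPv I J (blk c (4 * s)) ↑D) := by
  classical
  by_cases hA : BPv I J (blk c (4 * s)) (↑D : Set Edg)
  · rw [ind_of hA, mul_one]
    have hmap : ∀ z ∈ ZZ s d, (z.1 % 19, z.2 % 19) ∈ range 19 ×ˢ range 19 := by
      intro z _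
      rw [mem_product, mem_range, mem_range]
      exact ⟨Nat.mod_lt _ (by norm_num), Nat.mod_lt _ (by norm_num)⟩
    rw [← sum_fiberwise_of_maps_to hmap]
    calc ∑ k ∈ range 19 ×ˢ range 19, ∑ z ∈ (ZZ s d).filter (fun z => (z.1 % 19, z.2 % 19) = k),
          Ex p (blk c (4 * s)) (fun Y => ind (BPv I J (blk (cz c s d z) (3 * d)) ↑(D ∪ Y)))
        ≤ ∑ k ∈ range 19 ×ˢ range 19, 2 * κ⁻¹ ^ 4 * (3 * s / d) :=
          sum_le_sum fun k _ => class_sum hκ hd hds hfair hfar hD k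
      _ = 361 * (2 * κ⁻¹ ^ 4 * (3 * s / d)) := by
          rw [sum_const, card_product, card_range, nsmul_eq_mul]
          norm_num
  · rw [ind_not_of hA, mul_zero]
    refine le_of_eq (sum_eq_zero fun z hz => ?_)
    have h0 : ∀ Y, Y ⊆ blk c (4 * s) →
        ind (BPv I J (blk (cz c s d z) (3 * d)) (↑(D ∪ Y) : Set Edg)) = 0 := by
      intro Y hY
      apply ind_not_of
      intro h
      apply hA
      rw [← BPv_drop hY]
      refine BPv_mono ?_ h
      obtain ⟨h1, h2⟩ := cz_near (c := c) hz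
      apply blk_sub' <;> push_cast <;> omega
    rw [Ex_congr (g := fun _ => 0) h0, Ex_const]

end QB

open QB in
/-- Q2b: disjoint blocks inside a pivotal block. -/
theorem q_blocks' : ∃ C : ℝ, 0 < C ∧ ∀ (s : ℕ), 1 ≤ s → ∀ (p : Edg → ℝ) (S : Finset Edg)
    (I J I' J' : Set Vtx) (c : ℤ × ℤ), DomB p S I J I' J' c (4 * s) → ∀ W : Finset Edg, W ⊆ S →
      Disjoint W (blk c (4 * s)) → ∀ d : ℕ, 1 ≤ d → 8 * d ≤ s →
      ∑ x ∈ blk c s, UA p S W (fun F => BPv I J (ebx x (2 * d)) ↑F) ≤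
        C * d * s * UA p S W (fun F => BPv I J (blk c (4 * s)) ↑F) := by
  classical
  obtain ⟨κ, hκ0, hκ⟩ := win_half
  refine ⟨4332 * κ⁻¹ ^ 4, by positivity, ?_⟩
  intro s _ p S I J I' J' c hD W hWS hWb d hd hds
  have hp := hD.ok
  have hfair := hD.fair
  have hfar := hD.far
  have hd0 : (0 : ℝ) < d := by exact_mod_cast hd
  set B := blk c (4 * s) with hB
  set R := (S \ W) \ B with hR
  have hBSW : B ⊆ S \ W := by
    intro e he
    rw [mem_sdiff]
    exact ⟨hD.sub he, fun h => (Finset.disjoint_left.1 hWb h) he⟩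
  have hRB : S \ W = R ∪ B := by rw [hR, sdiff_union_of_subset hBSW]
  have hRBd : Disjoint R B := by rw [hR]; exact sdiff_disjoint
  set u : Finset Edg → ℝ := fun G => Ex p W (fun Z => ind (BPv I J B ↑(G ∪ Z))) with hu
  have hu0 : ∀ G, 0 ≤ u G := fun G => Ex_nonneg hp fun _ _ => ind_nonneg _
  have hloc : ∀ G Y Z : Finset Edg, Y ⊆ B →
      (BPv I J B (↑((G ∪ Y) ∪ Z) : Set Edg) ↔ BPv I J B (↑(G ∪ Z) : Set Edg)) := by
    intro G Y Z hY
    rw [union_right_comm]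
    exact BPv_drop hY
  -- the second moment of the large block
  have hL1 : UA p S W (fun F => BPv I J B ↑F) = Ex p R (fun G => (u G) ^ 2) := by
    unfold UA UU
    rw [hRB, Ex_union hRBd]
    refine Ex_congr fun G _ => ?_
    rw [Ex_congr (g := fun _ => (u G) ^ 2), Ex_const]
    intro Y hY
    congr 1
    exact Ex_congr fun Z _ => ind_congr (hloc G Y Z hY)
  -- the small blocks
  have hL2 : ∀ z ∈ ZZ s d, UA p S W (fun F => BPv I J (blk (cz c s d z) (3 * d)) ↑F) ≤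
      Ex p R (fun G => u G * Ex p W (fun Z => Ex p B (fun Y =>
        ind (BPv I J (blk (cz c s d z) (3 * d)) ↑((G ∪ Z) ∪ Y))))) := by
    intro z hz
    have hzB : blk (cz c s d z) (3 * d) ⊆ B := by
      obtain ⟨h1, h2⟩ := cz_near (c := c) hz
      apply blk_sub' <;> push_cast <;> omega
    unfold UA UU
    rw [hRB, Ex_union hRBd]
    refine Ex_mono hp fun G _ => ?_
    rw [← Ex_comm, ← Ex_mul_left]
    refine Ex_mono hp fun Y hY => ?_
    have e1 : Ex p W (fun Z => ind (BPv I J (blk (cz c s d z) (3 * d)) ↑((G ∪ Z) ∪ Y))) =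
        Ex p W (fun Z => ind (BPv I J (blk (cz c s d z) (3 * d)) ↑((G ∪ Y) ∪ Z))) :=
      Ex_congr fun Z _ => by rw [union_right_comm]
    rw [e1, sq]
    refine mul_le_mul_of_nonneg_right ?_ (Ex_nonneg hp fun _ _ => ind_nonneg _)
    refine Ex_mono hp fun Z _ => ind_mono fun h => ?_
    exact (hloc G Y Z hY).1 (BPv_mono hzB h)
  -- sum over the cells
  have hL3 : ∑ z ∈ ZZ s d, UA p S W (fun F => BPv I J (blk (cz c s d z) (3 * d)) ↑F) ≤
      361 * (2 * κ⁻¹ ^ 4 * (3 * s / d)) * UA p S W (fun F => BPv I J B ↑F) := by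
    refine (sum_le_sum hL2).trans ?_
    rw [← Ex_sum, hL1, ← Ex_mul_left]
    refine Ex_mono hp fun G hG => ?_
    rw [← mul_sum, ← Ex_sum]
    have h1 : Ex p W (fun Z => ∑ z ∈ ZZ s d, Ex p B (fun Y =>
        ind (BPv I J (blk (cz c s d z) (3 * d)) ↑((G ∪ Z) ∪ Y)))) ≤
        361 * (2 * κ⁻¹ ^ 4 * (3 * s / d)) * u G := by
      rw [hu]
      simp only
      rw [← Ex_mul_left]
      refine Ex_mono hp fun Z hZ => ?_
      refine cells_sum hκ hd hds hfair hfar ?_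
      rw [disjoint_union_left]
      exact ⟨disjoint_of_subset_left hG hRBd, disjoint_of_subset_left hZ hWb⟩
    have h2 := mul_le_mul_of_nonneg_left h1 (hu0 G)
    linarith
  -- from the edges to the cells
  set g : ℕ × ℕ → ℝ := fun z => UA p S W (fun F => BPv I J (blk (cz c s d z) (3 * d)) ↑F) with hg
  have hg0 : ∀ z, 0 ≤ g z := fun z => UA_nonneg hp _ _ _
  set cl : Edg → ℕ × ℕ := fun x => (((x.1 - (c.1 - s)).toNat) / d, ((x.2.1 - (c.2 - s)).toNat) / d)
    with hcl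
  have hmap : ∀ x ∈ blk c s, cl x ∈ ZZ s d := by
    intro x hx
    have h := mem_blk_bd hx
    simp only [abs_le] at h
    unfold ZZ
    rw [hcl, mem_product, mem_range, mem_range]
    constructor
    · exact Nat.lt_succ_of_le (Nat.div_le_div_right (by omega))
    · exact Nat.lt_succ_of_le (Nat.div_le_div_right (by omega))
  have hcell : ∀ x ∈ blk c s, (cz c s d (cl x)).1 ≤ x.1 ∧ x.1 < (cz c s d (cl x)).1 + d ∧
      (cz c s d (cl x)).2 ≤ x.2.1 ∧ x.2.1 < (cz c s d (cl x)).2 + d := by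
    intro x hx
    have h := mem_blk_bd hx
    simp only [abs_le] at h
    have a1 := Nat.div_add_mod ((x.1 - (c.1 - s)).toNat) d
    have a2 := Nat.mod_lt ((x.1 - (c.1 - s)).toNat) (show 0 < d by omega)
    have a3 := Nat.div_add_mod ((x.2.1 - (c.2 - s)).toNat) d
    have a4 := Nat.mod_lt ((x.2.1 - (c.2 - s)).toNat) (show 0 < d by omega)
    have t1 : (((x.1 - (c.1 - s)).toNat : ℕ) : ℤ) = x.1 - (c.1 - s) :=
      Int.toNat_of_nonneg (by omega)
    have t2 : (((x.2.1 - (c.2 - s)).toNat : ℕ) : ℤ) = x.2.1 - (c.2 - s) :=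
      Int.toNat_of_nonneg (by omega)
    have b1 : (d : ℤ) * (((x.1 - (c.1 - s)).toNat / d : ℕ) : ℤ) +
        (((x.1 - (c.1 - s)).toNat % d : ℕ) : ℤ) = x.1 - (c.1 - s) := by
      rw [← t1]; exact_mod_cast a1
    have b3 : (d : ℤ) * (((x.2.1 - (c.2 - s)).toNat / d : ℕ) : ℤ) +
        (((x.2.1 - (c.2 - s)).toNat % d : ℕ) : ℤ) = x.2.1 - (c.2 - s) := by
      rw [← t2]; exact_mod_cast a3
    have b2 : ((((x.1 - (c.1 - s)).toNat % d : ℕ) : ℤ)) < d := by exact_mod_cast a2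
    have b4 : ((((x.2.1 - (c.2 - s)).toNat % d : ℕ) : ℤ)) < d := by exact_mod_cast a4
    have b5 : (0 : ℤ) ≤ (((x.1 - (c.1 - s)).toNat % d : ℕ) : ℤ) := Int.natCast_nonneg _
    have b6 : (0 : ℤ) ≤ (((x.2.1 - (c.2 - s)).toNat % d : ℕ) : ℤ) := Int.natCast_nonneg _
    unfold cz
    rw [hcl]
    simp only
    refine ⟨?_, ?_, ?_, ?_⟩ <;> linarith
  have hxz : ∀ x ∈ blk c s, UA p S W (fun F => BPv I J (ebx x (2 * d)) ↑F) ≤ g (cl x) := by
    intro x hx
    refine UA_mono hp fun F hF => BPv_mono ?_ hF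
    obtain ⟨h1, h2, h3, h4⟩ := hcell x hx
    apply ebx_sub
    · rw [abs_of_nonneg (by linarith)]; push_cast; linarith
    · rw [abs_of_nonneg (by linarith)]; push_cast; linarith
  have hfib : ∀ z ∈ ZZ s d, (((blk c s).filter (fun x => cl x = z)).card : ℝ) ≤ 2 * (d : ℝ) ^ 2 := by
    intro z _
    have hsub : (blk c s).filter (fun x => cl x = z) ⊆
        Ico (cz c s d z).1 ((cz c s d z).1 + d) ×ˢ
          (Ico (cz c s d z).2 ((cz c s d z).2 + d) ×ˢ (univ : Finset Bool)) := by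
      intro x hx
      rw [mem_filter] at hx
      obtain ⟨h1, h2, h3, h4⟩ := hcell x hx.1
      rw [hx.2] at h1 h2 h3 h4
      rw [mem_product, mem_product, mem_Ico, mem_Ico]
      exact ⟨⟨h1, h2⟩, ⟨h3, h4⟩, mem_univ _⟩
    have h1 := card_le_card hsub
    rw [card_product, card_product, Int.card_Ico, Int.card_Ico, card_univ, Fintype.card_bool] at h1
    have h2 : ((cz c s d z).1 + (d : ℤ) - (cz c s d z).1).toNat = d := by
      rw [add_sub_cancel_left]; simp
    have h3 : ((cz c s d z).2 + (d : ℤ) - (cz c s d z).2).toNat = d := by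
      rw [add_sub_cancel_left]; simp
    rw [h2, h3] at h1
    have h4 : (((blk c s).filter (fun x => cl x = z)).card : ℝ) ≤ ((d * (d * 2) : ℕ) : ℝ) := by
      exact_mod_cast h1
    push_cast at h4
    linarith
  calc ∑ x ∈ blk c s, UA p S W (fun F => BPv I J (ebx x (2 * d)) ↑F)
      ≤ ∑ x ∈ blk c s, g (cl x) := sum_le_sum hxz
    _ = ∑ z ∈ ZZ s d, ∑ x ∈ (blk c s).filter (fun x => cl x = z), g (cl x) :=
        (sum_fiberwise_of_maps_to hmap _).symm
    _ = ∑ z ∈ ZZ s d, (((blk c s).filter (fun x => cl x = z)).card : ℝ) * g z := by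
        refine sum_congr rfl fun z _ => ?_
        rw [← nsmul_eq_mul, ← sum_const]
        refine sum_congr rfl fun x hx => ?_
        rw [(mem_filter.1 hx).2]
    _ ≤ ∑ z ∈ ZZ s d, 2 * (d : ℝ) ^ 2 * g z :=
        sum_le_sum fun z hz => mul_le_mul_of_nonneg_right (hfib z hz) (hg0 z)
    _ = 2 * (d : ℝ) ^ 2 * ∑ z ∈ ZZ s d, g z := by rw [mul_sum]
    _ ≤ 2 * (d : ℝ) ^ 2 * (361 * (2 * κ⁻¹ ^ 4 * (3 * s / d)) *
          UA p S W (fun F => BPv I J B ↑F)) := mul_le_mul_of_nonneg_left hL3 (by positivity)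
    _ = 4332 * κ⁻¹ ^ 4 * d * s * UA p S W (fun F => BPv I J B ↑F) := by
        field_simp
        ring

end H389NS
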