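import Pool.Agent.H389R2.NS.Defs

/-! Sums of spectral weights. -/

set_option autoImplicit false

namespace H389NS

open H974 H12S Finset

variable {E : Type*} [DecidableEq E]

/-- A0 -/
theorem Ex_split {p : E → ℝ} {S W : Finset E} (hW : W ⊆ S) (f : Finset E → ℝ) :
    Ex p S f = Ex p (S \ W) (fun G => Ex p W (fun Y => f (G ∪ Y))) := by
  conv_lhs => rw [← Finset.sdiff_union_of_subset hW]
  exact Ex_union Finset.sdiff_disjoint f

namespace SumSpAux

theorem Ex_congr_p {p q : E → ℝ} {S : Finset E} (h : ∀ e ∈ S, p e = q e) (f : Finset E → ℝ) :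
    Ex p S f = Ex q S f := by
  unfold Ex
  refine Finset.sum_congr rfl fun F hF => ?_
  have hFS := Finset.mem_powerset.mp hF
  congr 2
  · exact Finset.prod_congr rfl fun e he => h e (hFS he)
  · exact Finset.prod_congr rfl fun e he => by rw [h e (Finset.mem_sdiff.1 he).1]

theorem chi_insert_notMem {e : E} {T : Finset E} (he : e ∉ T) (F : Finset E) :
    chi T (insert e F) = chi T F := by
  unfold chi
  rw [Finset.insert_inter_of_notMem he]

theorem chi_insert_mem {e : E} {T F : Finset E} (he : e ∈ T) (hF : e ∉ F) :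
    chi T (insert e F) = - chi T F := by
  unfold chi
  rw [Finset.insert_inter_of_mem he, Finset.card_insert_of_notMem
    (fun h => hF (Finset.mem_inter.1 h).1), pow_succ]
  ring

theorem chi_erase {e : E} {T F : Finset E} (hF : e ∉ F) : chi T F = chi (T.erase e) F := by
  unfold chi
  congr 2
  ext x
  simp only [Finset.mem_inter, Finset.mem_erase]
  constructor
  · rintro ⟨h1, h2⟩
    exact ⟨h1, fun h => hF (h ▸ h1), h2⟩
  · rintro ⟨h1, _, h2⟩
    exact ⟨h1, h2⟩

theorem chi_union {T Y Z : Finset E} (h : Disjoint Z T) : chi T (Y ∪ Z) = chi T Y := by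
  unfold chi
  rw [Finset.union_inter_distrib_right, Finset.disjoint_iff_inter_eq_empty.1 h,
    Finset.union_empty]

theorem wal_insert_notMem {e : E} {V T : Finset E} (hV : e ∉ V) (hT : e ∉ T) (f : Finset E → ℝ) :
    wal (insert e V) f T = (wal V (fun F => f (insert e F)) T + wal V f T) / 2 := by
  unfold wal
  rw [Ex_insert _ hV]
  simp only [chi_insert_notMem hT, hp]
  ring

theorem wal_insert_mem {e : E} {V T : Finset E} (hV : e ∉ V) (hT : e ∈ T) (f : Finset E → ℝ) :
    wal (insert e V) f T = (wal V f (T.erase e) - wal V (fun F => f (insert e F)) (T.erase e)) / 2 := by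
  unfold wal
  rw [Ex_insert _ hV]
  have h1 : Ex hp V (fun F => chi T (insert e F) * f (insert e F)) =
      - Ex hp V (fun F => chi (T.erase e) F * f (insert e F)) := by
    rw [← neg_one_mul, ← Ex_mul_left]
    refine Ex_congr fun F hF => ?_
    have heF : e ∉ F := fun h => hV (hF h)
    rw [chi_insert_mem hT heF, chi_erase heF]
    ring
  have h2 : Ex hp V (fun F => chi T F * f F) = Ex hp V (fun F => chi (T.erase e) F * f F) := by
    refine Ex_congr fun F hF => ?_
    have heF : e ∉ F := fun h => hV (hF h)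
    rw [chi_erase heF]
  rw [h1, h2]
  simp only [hp]
  ring

theorem parseval (V : Finset E) (f : Finset E → ℝ) :
    ∑ T ∈ V.powerset, (wal V f T) ^ 2 = Ex hp V (fun F => (f F) ^ 2) := by
  induction V using Finset.induction_on generalizing f with
  | empty => simp [wal, Ex_empty, chi]
  | insert e V he ih =>
    rw [Finset.sum_powerset_insert he, ← Finset.sum_add_distrib, Ex_insert _ he,
      ← ih (fun F => f (insert e F)), ← ih f, Finset.mul_sum, Finset.mul_sum,
      ← Finset.sum_add_distrib]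
    refine Finset.sum_congr rfl fun T hT => ?_
    have heT : e ∉ T := fun h => he (Finset.mem_powerset.1 hT h)
    rw [wal_insert_notMem he heT, wal_insert_mem he (Finset.mem_insert_self e T),
      Finset.erase_insert heT]
    simp only [hp]
    ring

theorem wal_partial {V W T : Finset E} (hW : W ⊆ V) (hT : T ⊆ V \ W) (g : Finset E → ℝ) :
    wal V g T = wal (V \ W) (fun Y => Ex hp W (fun Z => g (Y ∪ Z))) T := by
  unfold wal
  rw [Ex_split hW]
  refine Ex_congr fun Y _ => ?_
  rw [← Ex_mul_left]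
  refine Ex_congr fun Z hZ => ?_
  rw [chi_union]
  rw [Finset.disjoint_left]
  intro x hxZ hxT
  exact (Finset.mem_sdiff.1 (hT hxT)).2 (hZ hxZ)

theorem wal_dif {V T : Finset E} {e : E} (he : e ∈ V) (hT : e ∈ T) (g : Finset E → ℝ) :
    wal V g T = -(1 / 2) * wal V (dif e g) (T.erase e) := by
  obtain ⟨V', hV', rfl⟩ : ∃ V', e ∉ V' ∧ insert e V' = V :=
    ⟨V.erase e, Finset.notMem_erase e V, Finset.insert_erase he⟩
  rw [wal_insert_mem hV' hT, wal_insert_notMem hV' (Finset.notMem_erase e T)]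
  have h1 : wal V' (fun F => dif e g (insert e F)) (T.erase e) =
      wal V' (fun F => g (insert e F)) (T.erase e) - wal V' g (T.erase e) := by
    unfold wal
    rw [← Ex_sub]
    refine Ex_congr fun F hF => ?_
    have heF : e ∉ F := fun h => hV' (hF h)
    simp only [dif]
    rw [Finset.insert_eq_of_mem (Finset.mem_insert_self e F), Finset.erase_insert heF]
    ring
  have h2 : wal V' (dif e g) (T.erase e) =
      wal V' (fun F => g (insert e F)) (T.erase e) - wal V' g (T.erase e) := by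
    unfold wal
    rw [← Ex_sub]
    refine Ex_congr fun F hF => ?_
    have heF : e ∉ F := fun h => hV' (hF h)
    simp only [dif]
    rw [Finset.erase_eq_of_notMem heF]
    ring
  rw [h1, h2]
  ring

theorem dif_union {e : E} {G : Finset E} (he : e ∉ G) (f : Finset E → ℝ) (Y : Finset E) :
    dif e (fun Y => f (G ∪ Y)) Y = dif e f (G ∪ Y) := by
  simp only [dif]
  have h1 : G ∪ insert e Y = insert e (G ∪ Y) := by
    ext x; simp only [Finset.mem_union, Finset.mem_insert]; tauto
  have h2 : G ∪ Y.erase e = (G ∪ Y).erase e := by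
    ext x
    simp only [Finset.mem_union, Finset.mem_erase]
    constructor
    · rintro (h | h)
      · exact ⟨fun hx => he (hx ▸ h), Or.inl h⟩
      · exact ⟨h.1, Or.inr h.2⟩
    · rintro ⟨h1, h | h⟩
      · exact Or.inl h
      · exact Or.inr ⟨h1, h⟩
  rw [h1, h2]

theorem dif_dif (e : E) (f : Finset E → ℝ) (F : Finset E) : dif e (dif e f) F = 0 := by
  unfold dif
  rw [Finset.insert_idem, Finset.erase_insert_eq_erase]
  have h1 : insert e (F.erase e) = insert e F := by
    ext x; simp only [Finset.mem_insert, Finset.mem_erase]; tauto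
  rw [h1, Finset.erase_idem]
  ring

theorem sp_dif {p : E → ℝ} {S V T : Finset E} {e : E} (he : e ∈ V) (hT : e ∈ T)
    (f : Finset E → ℝ) : sp p S V f T = (1 / 4) * sp p S V (dif e f) (T.erase e) := by
  unfold sp
  rw [← Ex_mul_left]
  refine Ex_congr fun G hG => ?_
  have heG : e ∉ G := fun h => (Finset.mem_sdiff.1 (hG h)).2 he
  rw [wal_dif he hT]
  have : dif e (fun Y => f (G ∪ Y)) = fun Y => dif e f (G ∪ Y) := by
    funext Y; exact dif_union heG f Y
  rw [this]
  ring

theorem sp_dif_zero {p : E → ℝ} {S V T : Finset E} {e : E} (he : e ∈ V) (hT : e ∈ T)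
    (f : Finset E → ℝ) : sp p S V (dif e f) T = 0 := by
  rw [sp_dif he hT]
  have : dif e (dif e f) = fun _ => (0 : ℝ) := by funext F; exact dif_dif e f F
  rw [this]
  unfold sp wal
  have : ∀ G : Finset E, Ex hp V (fun F => chi (T.erase e) F * (0 : ℝ)) ^ 2 = 0 := by
    intro _
    simp only [mul_zero]
    rw [Ex_const]; norm_num
  have h2 : Ex p (S \ V) (fun G : Finset E => Ex hp V (fun F => chi (T.erase e) F * (0 : ℝ)) ^ 2) =
      Ex p (S \ V) (fun _ => (0 : ℝ)) := Ex_congr fun G _ => this G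
  rw [h2, Ex_const, mul_zero]

/-- removing `e` from the sets containing `e` -/
theorem shift {p : E → ℝ} {S V W : Finset E} {e : E} (he : e ∈ V \ W) (Q : Finset E → Prop)
    [DecidablePred Q] (hQ : ∀ T, e ∉ T → (Q (insert e T) ↔ Q T)) (f : Finset E → ℝ) :
    ∑ T ∈ (V \ W).powerset.filter (fun T => e ∈ T ∧ Q T), sp p S V f T =
      (1 / 4) * ∑ T ∈ (V \ W).powerset.filter Q, sp p S V (dif e f) T := by
  have heV : e ∈ V := (Finset.mem_sdiff.1 he).1
  have h1 : ∑ T ∈ (V \ W).powerset.filter Q, sp p S V (dif e f) T =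
      ∑ T ∈ (V \ W).powerset.filter (fun T => e ∉ T ∧ Q T), sp p S V (dif e f) T := by
    symm
    refine Finset.sum_subset ?_ ?_
    · intro T hT
      rw [Finset.mem_filter] at hT ⊢
      exact ⟨hT.1, hT.2.2⟩
    · intro T hT hT'
      rw [Finset.mem_filter] at hT hT'
      refine sp_dif_zero heV ?_ f
      by_contra hc
      exact hT' ⟨hT.1, hc, hT.2⟩
  rw [h1, Finset.mul_sum]
  refine Finset.sum_nbij' (fun T => T.erase e) (fun T => insert e T) ?_ ?_ ?_ ?_ ?_
  · intro T hT
    rw [Finset.mem_filter, Finset.mem_powerset] at hT ⊢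
    refine ⟨(Finset.erase_subset _ _).trans hT.1, Finset.notMem_erase e T, ?_⟩
    rw [← hQ _ (Finset.notMem_erase e T), Finset.insert_erase hT.2.1]
    exact hT.2.2
  · intro T hT
    rw [Finset.mem_filter, Finset.mem_powerset] at hT ⊢
    refine ⟨Finset.insert_subset he hT.1, Finset.mem_insert_self e T, ?_⟩
    rw [hQ _ hT.2.1]
    exact hT.2.2
  · intro T hT
    rw [Finset.mem_filter] at hT
    exact Finset.insert_erase hT.2.1
  · intro T hT
    rw [Finset.mem_filter] at hT
    exact Finset.erase_insert hT.2.1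
  · intro T hT
    rw [Finset.mem_filter] at hT
    exact sp_dif heV hT.2.1 f

end SumSpAux

open SumSpAux

/-- A1 -/
theorem sum_sp {p : E → ℝ} {S V W : Finset E} (hV : V ⊆ S) (hp2 : ∀ e ∈ V, p e = 1 / 2)
    (hW : W ⊆ V) (f : Finset E → ℝ) :
    ∑ T ∈ (V \ W).powerset, sp p S V f T = UU p S W f := by
  unfold sp UU
  rw [← Ex_sum]
  have hSW : S \ W = (S \ V) ∪ (V \ W) := by
    ext x
    simp only [Finset.mem_sdiff, Finset.mem_union]
    constructor
    · rintro ⟨h1, h2⟩
      by_cases hx : x ∈ V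
      · exact Or.inr ⟨hx, h2⟩
      · exact Or.inl ⟨h1, hx⟩
    · rintro (⟨h1, h2⟩ | ⟨h1, h2⟩)
      · exact ⟨h1, fun h => h2 (hW h)⟩
      · exact ⟨hV h1, h2⟩
  have hdis : Disjoint (S \ V) (V \ W) := by
    rw [Finset.disjoint_left]
    intro x hx hx'
    exact (Finset.mem_sdiff.1 hx).2 (Finset.mem_sdiff.1 hx').1
  rw [hSW, Ex_union hdis]
  refine Ex_congr fun G _ => ?_
  have h1 : ∑ T ∈ (V \ W).powerset, wal V (fun Y => f (G ∪ Y)) T ^ 2 =
      ∑ T ∈ (V \ W).powerset,
        wal (V \ W) (fun Y => Ex hp W (fun Z => f (G ∪ (Y ∪ Z)))) T ^ 2 :=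
    Finset.sum_congr rfl fun T hT => by rw [wal_partial hW (Finset.mem_powerset.1 hT)]
  rw [h1, parseval]
  have hpe : ∀ e ∈ V, (hp e : ℝ) = p e := fun e he => by rw [hp2 e he]; rfl
  rw [Ex_congr_p (fun e he => hpe e (Finset.mem_sdiff.1 he).1)]
  refine Ex_congr fun Y _ => ?_
  rw [Ex_congr_p (fun e he => hpe e (hW he))]
  simp only [Finset.union_assoc]

/-- A3 -/
theorem sum_sp_mem {p : E → ℝ} {S V W : Finset E} (hV : V ⊆ S) (hp2 : ∀ e ∈ V, p e = 1 / 2)
    (hW : W ⊆ V) (f : Finset E → ℝ) {e : E} (he : e ∈ V \ W) :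
    ∑ T ∈ (V \ W).powerset.filter (fun T => e ∈ T), sp p S V f T =
      (1 / 4) * UU p S W (dif e f) := by
  have h := shift (p := p) (S := S) he (fun _ => True) (fun _ _ => Iff.rfl) f
  simp only [and_true, Finset.filter_true] at h
  rw [h, sum_sp hV hp2 hW]

/-- A4 -/
theorem sum_sp_two {p : E → ℝ} {S V W : Finset E} (hV : V ⊆ S) (hp2 : ∀ e ∈ V, p e = 1 / 2)
    (hW : W ⊆ V) (f : Finset E → ℝ) {x y : E} (hx : x ∈ V \ W) (hy : y ∈ V \ W) (hxy : x ≠ y) :
    ∑ T ∈ (V \ W).powerset.filter (fun T => x ∈ T ∧ y ∈ T), sp p S V f T =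
      (1 / 16) * UU p S W (dif x (dif y f)) := by
  have h := shift (p := p) (S := S) hy (fun T => x ∈ T) (fun T _ => by
    rw [Finset.mem_insert]
    constructor
    · rintro (h | h)
      · exact absurd h hxy
      · exact h
    · exact Or.inr) f
  have h2 : (V \ W).powerset.filter (fun T => x ∈ T ∧ y ∈ T) =
      (V \ W).powerset.filter (fun T => y ∈ T ∧ x ∈ T) := by
    ext T; simp only [Finset.mem_filter]; tauto
  rw [h2, h, sum_sp_mem hV hp2 hW _ hx]
  ring

/-- A5: if the block `B` is not pivotal then `f` does not depend on the configuration in `B`. -/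
theorem sum_sp_hit {p : E → ℝ} (hp : Ok p) {S V W B : Finset E} (hV : V ⊆ S)
    (hp2 : ∀ e ∈ V, p e = 1 / 2) (hW : W ⊆ V) (hB : B ⊆ V \ W) {f : Finset E → ℝ}
    {A : Finset E → Prop} (hA : ∀ F, F ⊆ S → (A F ↔ A (F \ B)))
    (hf : ∀ F F', F ⊆ S → F' ⊆ S → F \ B = F' \ B → |f F - f F'| ≤ ind (A F)) :
    ∑ T ∈ (V \ W).powerset.filter (fun T => ¬ Disjoint T B), sp p S V f T ≤ UA p S W A := by
  have hBV : B ⊆ V := hB.trans Finset.sdiff_subset
  have hWB : W ∪ B ⊆ V := Finset.union_subset hW hBV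
  have hBS : B ⊆ S := hBV.trans hV
  have hWS : W ⊆ S := hW.trans hV
  have hdBW : Disjoint B W := by
    rw [Finset.disjoint_left]
    intro x hx
    exact (Finset.mem_sdiff.1 (hB hx)).2
  -- the sum over the sets disjoint from `B`
  have hsplit : ∑ T ∈ (V \ W).powerset, sp p S V f T =
      ∑ T ∈ (V \ W).powerset.filter (fun T => ¬ Disjoint T B), sp p S V f T +
        ∑ T ∈ (V \ (W ∪ B)).powerset, sp p S V f T := by
    rw [← Finset.sum_filter_not_add_sum_filter (V \ W).powerset (fun T => Disjoint T B)]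
    congr 1
    refine Finset.sum_congr ?_ fun _ _ => rfl
    ext T
    simp only [Finset.mem_filter, Finset.mem_powerset]
    constructor
    · rintro ⟨h1, h2⟩ x hx
      have := Finset.mem_sdiff.1 (h1 hx)
      rw [Finset.mem_sdiff, Finset.mem_union]
      exact ⟨this.1, fun h => h.elim this.2 fun h => Finset.disjoint_left.1 h2 hx h⟩
    · intro h
      constructor
      · intro x hx
        have := Finset.mem_sdiff.1 (h hx)
        rw [Finset.mem_union] at this
        rw [Finset.mem_sdiff]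
        exact ⟨this.1, fun h => this.2 (Or.inl h)⟩
      · rw [Finset.disjoint_left]
        intro x hx hxB
        have := Finset.mem_sdiff.1 (h hx)
        rw [Finset.mem_union] at this
        exact this.2 (Or.inr hxB)
  rw [sum_sp hV hp2 hW, sum_sp hV hp2 hWB] at hsplit
  have hgoal : UU p S W f - UU p S (W ∪ B) f ≤ UA p S W A := by
    have hSW : S \ W = (S \ (W ∪ B)) ∪ B := by
      ext x
      simp only [Finset.mem_sdiff, Finset.mem_union]
      constructor
      · rintro ⟨h1, h2⟩
        by_cases hx : x ∈ B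
        · exact Or.inr hx
        · exact Or.inl ⟨h1, fun h => h.elim h2 hx⟩
      · rintro (⟨h1, h2⟩ | h)
        · exact ⟨h1, fun h => h2 (Or.inl h)⟩
        · exact ⟨hBS h, Finset.disjoint_left.1 hdBW h⟩
    have hdis : Disjoint (S \ (W ∪ B)) B := by
      rw [Finset.disjoint_left]
      intro x hx hx'
      exact (Finset.mem_sdiff.1 hx).2 (Finset.mem_union_right _ hx')
    have e1 : ∀ g : Finset E → ℝ, UU p S W g = Ex p (S \ (W ∪ B)) (fun G => Ex p B (fun b =>
        (Ex p W (fun Z => g (G ∪ b ∪ Z))) ^ 2)) := by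
      intro g
      unfold UU
      rw [hSW, Ex_union hdis]
    have e2 : UU p S (W ∪ B) f = Ex p (S \ (W ∪ B)) (fun G =>
        (Ex p B (fun b => Ex p W (fun Z => f (G ∪ b ∪ Z)))) ^ 2) := by
      unfold UU
      refine Ex_congr fun G _ => ?_
      congr 1
      rw [Finset.union_comm W B, Ex_union hdBW]
      simp only [Finset.union_assoc]
    unfold UA
    rw [e1 f, e1 (fun F => ind (A F)), e2, ← Ex_sub]
    refine Ex_mono hp fun G hG => ?_
    have hGS : G ⊆ S := hG.trans Finset.sdiff_subset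
    have hGB : Disjoint G B := by
      rw [Finset.disjoint_left]
      intro x hx hxB
      exact (Finset.mem_sdiff.1 (hG hx)).2 (Finset.mem_union_right _ hxB)
    set a : ℝ := Ex p W (fun Z => ind (A (G ∪ Z))) with ha
    have ha0 : 0 ≤ a := Ex_nonneg hp fun _ _ => ind_nonneg _
    have hsd : ∀ b Z : Finset E, b ⊆ B → (G ∪ b ∪ Z) \ B = (G ∪ Z) \ B := by
      intro b Z hb
      ext x
      simp only [Finset.mem_sdiff, Finset.mem_union]
      constructor
      · rintro ⟨(h1 | h1) | h1, h2⟩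
        · exact ⟨Or.inl h1, h2⟩
        · exact absurd (hb h1) h2
        · exact ⟨Or.inr h1, h2⟩
      · rintro ⟨h1 | h1, h2⟩
        · exact ⟨Or.inl (Or.inl h1), h2⟩
        · exact ⟨Or.inr h1, h2⟩
    have hS1 : ∀ Z : Finset E, Z ⊆ W → G ∪ Z ⊆ S := fun Z hZ =>
      Finset.union_subset hGS (hZ.trans hWS)
    have hS2 : ∀ b Z : Finset E, b ⊆ B → Z ⊆ W → G ∪ b ∪ Z ⊆ S := fun b Z hb hZ =>
      Finset.union_subset (Finset.union_subset hGS (hb.trans hBS)) (hZ.trans hWS)
    have hR : Ex p B (fun b => (Ex p W (fun Z => ind (A (G ∪ b ∪ Z)))) ^ 2) = a ^ 2 := by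
      have : ∀ b, b ⊆ B → (Ex p W (fun Z => ind (A (G ∪ b ∪ Z)))) ^ 2 = a ^ 2 := by
        intro b hb
        congr 1
        refine Ex_congr fun Z hZ => ?_
        refine ind_congr ?_
        rw [hA _ (hS2 b Z hb hZ), hA _ (hS1 Z hZ), hsd b Z hb]
      rw [Ex_congr this, Ex_const]
    rw [hR]
    set h : Finset E → ℝ := fun b => Ex p W (fun Z => f (G ∪ b ∪ Z)) with hh
    set h0 : ℝ := Ex p W (fun Z => f (G ∪ Z)) with hh0
    have hdiff : ∀ b, b ⊆ B → |h b - h0| ≤ a := by
      intro b hb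
      have k1 : h b - h0 ≤ a := by
        rw [hh, hh0, ha]
        simp only
        rw [← Ex_sub]
        refine Ex_mono hp fun Z hZ => ?_
        have := hf (G ∪ Z) (G ∪ b ∪ Z) (hS1 Z hZ) (hS2 b Z hb hZ) (hsd b Z hb).symm
        have := (abs_le.1 this).1
        linarith
      have k2 : -(h b - h0) ≤ a := by
        rw [hh, hh0, ha, neg_sub]
        simp only
        rw [← Ex_sub]
        refine Ex_mono hp fun Z hZ => ?_
        have := hf (G ∪ Z) (G ∪ b ∪ Z) (hS1 Z hZ) (hS2 b Z hb hZ) (hsd b Z hb).symm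
        exact (abs_le.1 this).2
      exact abs_le.2 ⟨by linarith, k1⟩
    have hvar : Ex p B (fun b => (h b) ^ 2) - (Ex p B h) ^ 2 ≤
        Ex p B (fun b => (h b - h0) ^ 2) := by
      have : Ex p B (fun b => (h b - h0) ^ 2) =
          Ex p B (fun b => (h b) ^ 2) - 2 * h0 * Ex p B h + h0 ^ 2 := by
        rw [← Ex_mul_left, ← Ex_sub]
        conv_rhs => rw [← Ex_const p B (h0 ^ 2), ← Ex_add]
        refine Ex_congr fun b _ => ?_
        ring
      rw [this]
      nlinarith [sq_nonneg (Ex p B h - h0)]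
    refine hvar.trans ?_
    refine Ex_le_of_le hp fun b hb => ?_
    have := hdiff b hb
    rw [← sq_abs (h b - h0)]
    exact pow_le_pow_left₀ (abs_nonneg _) this 2
  linarith

end H389NS
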