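import Pool.Agent.H389R2.NS.QHalf
import Pool.Agent.H389R2.NS.SumSp
import Pool.Agent.H988R6.Up

/-! First moment of the spectral sample in a block. -/

set_option autoImplicit false

namespace H389NS

open H974 H12S Finset

/-- The configuration on `N` is frozen. -/
noncomputable def qfz (p : Edg → ℝ) (N G : Finset Edg) (e : Edg) : ℝ :=
  if e ∈ N then (if e ∈ G then 1 else 0) else p e

theorem qfz_ok {p : Edg → ℝ} (hp : Ok p) (N G : Finset Edg) : Ok (qfz p N G) := by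
  intro e
  unfold qfz
  split_ifs
  · norm_num
  · norm_num
  · exact hp e

theorem qfz_det {p : Edg → ℝ} {N G : Finset Edg} (hG : G ⊆ N) (f : Finset Edg → ℝ) :
    Ex (qfz p N G) N f = f G := by
  unfold Ex
  rw [Finset.sum_eq_single_of_mem G (Finset.mem_powerset.mpr hG)]
  · have h1 : ∏ e ∈ G, qfz p N G e = 1 := by
      apply Finset.prod_eq_one
      intro e he
      unfold qfz
      rw [if_pos (hG he), if_pos he]
    have h2 : ∏ e ∈ N \ G, (1 - qfz p N G e) = 1 := by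
      apply Finset.prod_eq_one
      intro e he
      rw [Finset.mem_sdiff] at he
      unfold qfz
      rw [if_pos he.1, if_neg he.2, sub_zero]
    rw [h1, h2]
    ring
  · intro F hF hne
    rw [Finset.mem_powerset] at hF
    by_cases h : F ⊆ G
    · have h3 : ¬ G ⊆ F := fun h4 => hne (Finset.Subset.antisymm h h4)
      obtain ⟨e, he, heF⟩ := Finset.not_subset.mp h3
      have h5 : ∏ e ∈ N \ F, (1 - qfz p N G e) = 0 := by
        apply Finset.prod_eq_zero (i := e) (Finset.mem_sdiff.mpr ⟨hG he, heF⟩)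
        unfold qfz
        rw [if_pos (hG he), if_pos he, sub_self]
      rw [h5]
      ring
    · obtain ⟨e, he, heG⟩ := Finset.not_subset.mp h
      have h5 : ∏ e ∈ F, qfz p N G e = 0 := by
        apply Finset.prod_eq_zero (i := e) he
        unfold qfz
        rw [if_pos (hF he), if_neg heG]
      rw [h5]
      ring

theorem qf_param {p q : Edg → ℝ} {S : Finset Edg}
    (h : ∀ e ∈ S, p e = q e) (f : Finset Edg → ℝ) : Ex p S f = Ex q S f := by
  unfold Ex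
  apply Finset.sum_congr rfl
  intro F hF
  rw [Finset.mem_powerset] at hF
  have h1 : ∏ e ∈ F, p e = ∏ e ∈ F, q e := Finset.prod_congr rfl (fun e he => h e (hF he))
  have h2 : ∏ e ∈ S \ F, (1 - p e) = ∏ e ∈ S \ F, (1 - q e) :=
    Finset.prod_congr rfl (fun e he => by rw [h e (Finset.mem_sdiff.mp he).1])
  rw [h1, h2]

theorem qf_sub {S W B : Finset Edg} (hB : B ⊆ S) (hd : Disjoint W B) : B ⊆ S \ W := by
  intro e he
  rw [Finset.mem_sdiff]
  exact ⟨hB he, fun h => (Finset.disjoint_left.mp hd) h he⟩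

theorem qf_UU {p : Edg → ℝ} {S W B : Finset Edg} (hB : B ⊆ S) (hd : Disjoint W B)
    (f : Finset Edg → ℝ) :
    UU p S W f = Ex p ((S \ W) \ B) (fun G => Ex p B (fun Y =>
      (Ex p W (fun Z => f (G ∪ Y ∪ Z))) ^ 2)) := by
  unfold UU
  rw [Ex_split (qf_sub hB hd)]

theorem qf_Pr {p : Edg → ℝ} {S W B : Finset Edg} (hW : W ⊆ S) (hB : B ⊆ S) (hd : Disjoint W B)
    {G : Finset Edg} (hG : G ⊆ (S \ W) \ B) (f : Finset Edg → ℝ) :
    Ex (qfz p ((S \ W) \ B) G) S f =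
      Ex p B (fun Y => Ex p W (fun Z => f (G ∪ Y ∪ Z))) := by
  rw [Ex_split hW, Ex_split (qf_sub hB hd), qfz_det hG]
  have h1 : ∀ e ∈ B, qfz p ((S \ W) \ B) G e = p e := by
    intro e he
    unfold qfz
    rw [if_neg]
    intro h
    exact (Finset.mem_sdiff.mp h).2 he
  have h2 : ∀ e ∈ W, qfz p ((S \ W) \ B) G e = p e := by
    intro e he
    unfold qfz
    rw [if_neg]
    intro h
    exact (Finset.mem_sdiff.mp (Finset.mem_sdiff.mp h).1).2 he
  rw [qf_param h1]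
  apply Ex_congr
  intro Y _
  rw [qf_param h2]

theorem qf_bmono {I J : Set Vtx} {b b' : Finset Edg} (h : b ⊆ b') {F : Set Edg}
    (hF : BPv I J b F) : BPv I J b' F := by
  have hb : (↑b : Set Edg) ⊆ ↑b' := by exact_mod_cast h
  refine ⟨Cn_mono (Set.union_subset_union_right _ hb) hF.1, fun h3 => hF.2 (Cn_mono ?_ h3)⟩
  exact Set.sdiff_subset_sdiff_right hb

theorem qf_blk {c : ℤ × ℤ} {s t : ℕ} (h : s ≤ t) : blk c s ⊆ blk c t := by
  unfold blk
  apply RE_subset <;> omega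

theorem qf_bloc {I J : Set Vtx} {b G Y Z : Finset Edg} (hY : Y ⊆ b) :
    BPv I J b (↑(G ∪ Y ∪ Z) : Set Edg) ↔ BPv I J b (↑(G ∪ Z) : Set Edg) := by
  have e1 : (↑(G ∪ Y ∪ Z) : Set Edg) ∪ ↑b = ↑(G ∪ Z) ∪ ↑b := by
    ext x
    simp only [Finset.coe_union, Set.mem_union, Finset.mem_coe]
    have := @hY x
    tauto
  have e2 : (↑(G ∪ Y ∪ Z) : Set Edg) \ ↑b = ↑(G ∪ Z) \ ↑b := by
    ext x
    simp only [Finset.coe_union, Set.mem_sdiff, Set.mem_union, Finset.mem_coe]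
    have := @hY x
    tauto
  unfold BPv
  rw [e1, e2]

theorem qf_card {c : ℤ × ℤ} {s : ℕ} (hs : 1 ≤ s) : ((blk c s).card : ℝ) ≤ 18 * (s:ℝ) ^ 2 := by
  have h1 : (blk c s).card ≤ (2 * s + 1) * ((2 * s + 1) * 2) := by
    unfold blk RE
    refine (Finset.card_filter_le _ _).trans ?_
    rw [Finset.card_product, Finset.card_product, Int.card_Icc, Int.card_Icc]
    have e1 : (c.1 + (s : ℤ) + 1 - (c.1 - (s : ℤ))).toNat = 2 * s + 1 := by omega
    have e2 : (c.2 + (s : ℤ) + 1 - (c.2 - (s : ℤ))).toNat = 2 * s + 1 := by omega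
    rw [e1, e2]
    simp
  have h2 : ((blk c s).card : ℝ) ≤ (2 * (s : ℝ) + 1) * ((2 * (s : ℝ) + 1) * 2) := by
    exact_mod_cast h1
  have h3 : (1:ℝ) ≤ s := by exact_mod_cast hs
  nlinarith

/-- One edge, given the configuration `G`: Cauchy-Schwarz with the four-arm event. -/
theorem qf_edge {p : Edg → ℝ} {S : Finset Edg} {I J : Set Vtx} {c : ℤ × ℤ} {s : ℕ}
    (hs : 1 ≤ s) (hp : Ok p) (hB : blk c (4 * s) ⊆ S) (hfair : ∀ e ∈ blk c (4 * s), p e = 1 / 2)
    (hfar : FarS (I ∪ J) c (4 * s)) {W : Finset Edg} (hW : W ⊆ S)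
    (hd : Disjoint W (blk c (4 * s))) {G : Finset Edg} (hG : G ⊆ (S \ W) \ blk c (4 * s))
    {e : Edg} (he : e ∈ blk c s) :
    (Pr (qfz p ((S \ W) \ blk c (4 * s)) G) S (fun F => Pv I J e ↑F)) ^ 2 ≤
      Ex p (blk c (4 * s)) (fun Y => (Ex p W (fun Z => ind (Pv I J e ↑(G ∪ Y ∪ Z)))) ^ 2) *
        a4 (1/2) (2 * s) := by
  have hebx : ebx e (2 * s) ⊆ blk c (4 * s) := by
    unfold ebx blk
    unfold blk at he
    obtain ⟨x, y, _ | _⟩ := e
    · rw [mem_RE_false] at he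
      apply RE_subset <;> push_cast <;> omega
    · rw [mem_RE_true] at he
      apply RE_subset <;> push_cast <;> omega
  have hIJ : ∀ v ∈ I ∪ J, ¬ (e.1 - ((2 * s : ℕ) : ℤ) < v.1 ∧ v.1 < e.1 + ((2 * s : ℕ) : ℤ) ∧
      e.2.1 - ((2 * s : ℕ) : ℤ) < v.2 ∧ v.2 < e.2.1 + ((2 * s : ℕ) : ℤ)) := by
    intro v hv hc
    have hf := hfar v hv
    unfold blk at he
    obtain ⟨x, y, _ | _⟩ := e
    · rw [mem_RE_false] at he
      push_cast at hc hf
      rcases hf with hf | hf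
      · rw [le_abs] at hf; omega
      · rw [le_abs] at hf; omega
    · rw [mem_RE_true] at he
      push_cast at hc hf
      rcases hf with hf | hf
      · rw [le_abs] at hf; omega
      · rw [le_abs] at hf; omega
  have hmem : e ∈ ebx e (2 * s) := mem_ebx (by omega)
  have hloc : ∀ Y, Y ⊆ blk c (4 * s) → ∀ Z, Z ⊆ W → Pv I J e (↑(G ∪ Y ∪ Z) : Set Edg) →
      A4e (2 * s) e (↑Y : Set Edg) := by
    intro Y hY Z hZ h
    have h4 : A4e (2 * s) e (↑(G ∪ Y ∪ Z) : Set Edg) := loc_a4 hmem hIJ h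
    refine (A4e_local ?_).mp h4
    ext x
    simp only [Finset.coe_union, Set.mem_inter_iff, Set.mem_union, Finset.mem_coe]
    constructor
    · rintro ⟨(k1 | k1) | k1, k2⟩
      · exact absurd (hebx k2) (Finset.mem_sdiff.mp (hG k1)).2
      · exact ⟨k1, k2⟩
      · exact absurd (hebx k2) ((Finset.disjoint_left.mp hd) (hZ k1))
    · rintro ⟨k1, k2⟩
      exact ⟨Or.inl (Or.inr k1), k2⟩
  have h1 : Pr (qfz p ((S \ W) \ blk c (4 * s)) G) S (fun F => Pv I J e ↑F) =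
      Ex p (blk c (4 * s)) (fun Y => Ex p W (fun Z => ind (Pv I J e ↑(G ∪ Y ∪ Z))) *
        ind (A4e (2 * s) e (↑Y : Set Edg))) := by
    unfold Pr
    rw [qf_Pr hW hB hd hG]
    apply Ex_congr
    intro Y hY
    by_cases h : A4e (2 * s) e (↑Y : Set Edg)
    · rw [ind_of h, mul_one]
    · rw [ind_not_of h, mul_zero]
      have : Ex p W (fun Z => ind (Pv I J e ↑(G ∪ Y ∪ Z))) = Ex p W (fun _ => 0) := by
        apply Ex_congr
        intro Z hZ
        exact ind_not_of (fun h2 => h (hloc Y hY Z hZ h2))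
      rw [this, Ex_const]
  have h2 : Ex p (blk c (4 * s)) (fun Y => (ind (A4e (2 * s) e (↑Y : Set Edg))) ^ 2) ≤
      a4 (1/2) (2 * s) := by
    have h3 : Ex p (blk c (4 * s)) (fun Y => (ind (A4e (2 * s) e (↑Y : Set Edg))) ^ 2) =
        PQ (1/2) (blk c (4 * s)) (fun F => A4e (2 * s) e ↑F) := by
      unfold PQ Pr
      rw [qf_param hfair]
      apply Ex_congr
      intro Y _
      rw [sq, ind_sq]
    rw [h3]
    exact pr_A4e (by norm_num) (by norm_num) hebx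
  rw [h1]
  refine (Ex_cs hp _ _ _).trans ?_
  exact mul_le_mul_of_nonneg_left h2 (Ex_nonneg hp (fun Y _ => sq_nonneg _))

theorem qf_pow {s : ℕ} (hs : 1 ≤ s) :
    (s:ℝ) ^ 2 * ((2 * s : ℕ) : ℝ) ^ (-(5/4) : ℝ) ≤ (s:ℝ) ^ (3/4 : ℝ) := by
  have hs0 : (0:ℝ) < s := by exact_mod_cast hs
  have h1 : ((2 * s : ℕ) : ℝ) ^ (-(5/4) : ℝ) ≤ (s:ℝ) ^ (-(5/4) : ℝ) := by
    apply Real.rpow_le_rpow_of_nonpos hs0
    · push_cast; linarith
    · norm_num
  calc (s:ℝ) ^ 2 * ((2 * s : ℕ) : ℝ) ^ (-(5/4) : ℝ) ≤ (s:ℝ) ^ 2 * (s:ℝ) ^ (-(5/4) : ℝ) :=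
        mul_le_mul_of_nonneg_left h1 (by positivity)
    _ = (s:ℝ) ^ (3/4 : ℝ) := by
        rw [← Real.rpow_natCast (s:ℝ) 2, ← Real.rpow_add hs0]
        norm_num

/-- Q1 -/
theorem q_first (K0 : ℝ) (hK0 : 1 ≤ K0) : ∃ (A r0 : ℕ) (c1 : ℝ), 1 ≤ A ∧ 1 ≤ r0 ∧ 0 < c1 ∧
    ∀ r : ℕ, r0 ≤ r → ∀ (p : Edg → ℝ) (S : Finset Edg) (I J I' J' : Set Vtx) (c : ℤ × ℤ),
      DomB p S I J I' J' c (4 * (A * r)) → ∀ W : Finset Edg, W ⊆ S →
      Disjoint W (blk c (4 * (A * r))) →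
      UA p S W (fun F => BPv I J (blk c (4 * (A * r))) ↑F) ≤
        K0 * UA p S W (fun F => BPv I J (blk c (A * r - 1)) ↑F) →
      c1 * ((A * r : ℕ) : ℝ) ^ (3/4 : ℝ) * UA p S W (fun F => BPv I J (blk c (4 * (A * r))) ↑F) ≤
        ∑ e ∈ blk c (A * r), UA p S W (fun F => Pv I J e ↑F) := by
  have hK : (0:ℝ) < K0 := by linarith
  obtain ⟨A, r0, C, hA, hr0, hC, H⟩ := inward_half (1 / (2 * K0)) (by positivity)
  obtain ⟨_, C4, _, hC4, h4⟩ := Pool.Agent.H988R6.a4_sharp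
  refine ⟨A, r0, 1 / (4 * K0 ^ 2 * (C ^ 2 * 18 * C4)), hA, hr0, by positivity, ?_⟩
  intro r hr p S I J I' J' c hD W hW hd hU
  have hs : 1 ≤ A * r := Nat.mul_pos (by omega) (by omega)
  generalize hsdef : A * r = s at *
  have Hr : ∀ (p : Edg → ℝ) (S : Finset Edg) (I J I' J' : Set Vtx) (c : ℤ × ℤ),
      DomB p S I J I' J' c (4 * s) →
      (Pr p S (fun F => BPv I J (blk c (s - 1)) ↑F) -
        (1 / (2 * K0)) * Pr p S (fun F => BPv I J (blk c (3 * s)) ↑F)) * ((s : ℕ) : ℝ) ^ (3/4 : ℝ) ≤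
        C * ∑ e ∈ blk c s, Pr p S (fun F => Pv I J e ↑F) := by
    intro p S I J I' J' c h
    have := H r hr p S I J I' J' c (by rw [hsdef]; exact h)
    rw [hsdef] at this
    exact this
  clear H
  obtain ⟨hp, hBS, hfair, hdom, hfar, hfar'⟩ := hD
  set B := blk c (4 * s) with hB
  set N := (S \ W) \ B with hN
  have hNo : Ok p := hp
  set X := ((s : ℕ) : ℝ) ^ (3/4 : ℝ) with hX
  have hs0 : (0:ℝ) < s := by exact_mod_cast hs
  have hXp : 0 < X := Real.rpow_pos_of_pos hs0 _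
  -- quantities
  set u1 : Finset Edg → ℝ := fun G => Pr (qfz p N G) S (fun F => BPv I J (blk c (s - 1)) ↑F)
    with hu1
  set u3 : Finset Edg → ℝ := fun G => Pr (qfz p N G) S (fun F => BPv I J (blk c (3 * s)) ↑F)
    with hu3
  set u4 : Finset Edg → ℝ := fun G => Ex p W (fun Z => ind (BPv I J B ↑(G ∪ Z))) with hu4
  set Dp : Finset Edg → ℝ := fun G => max (u1 G - (1 / (2 * K0)) * u3 G) 0 with hDp
  set T : Finset Edg → Edg → ℝ := fun G e => Ex p B (fun Y =>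
    (Ex p W (fun Z => ind (Pv I J e ↑(G ∪ Y ∪ Z)))) ^ 2) with hT
  have hu4n : ∀ G, 0 ≤ u4 G := fun G => Ex_nonneg hp (fun Z _ => ind_nonneg _)
  have hu1n : ∀ G, 0 ≤ u1 G := fun G => Pr_nonneg (qfz_ok hp _ _) _ _
  have hu3n : ∀ G, 0 ≤ u3 G := fun G => Pr_nonneg (qfz_ok hp _ _) _ _
  have hDn : ∀ G, 0 ≤ Dp G := fun G => le_max_right _ _
  have hTn : ∀ G e, 0 ≤ T G e := fun G e => Ex_nonneg hp (fun Y _ => sq_nonneg _)
  -- the pivotal sums
  have hTU : ∑ e ∈ blk c s, UA p S W (fun F => Pv I J e ↑F) =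
      Ex p N (fun G => ∑ e ∈ blk c s, T G e) := by
    rw [Ex_sum]
    apply Finset.sum_congr rfl
    intro e _
    unfold UA
    rw [qf_UU hBS hd]
  -- pointwise inequality
  have hpt : ∀ G, G ⊆ N → X * (Dp G) ^ 2 ≤ (C ^ 2 * 18 * C4) * ∑ e ∈ blk c s, T G e := by
    intro G hG
    have hDG : DomB (qfz p N G) S I J I' J' c (4 * s) := by
      refine ⟨qfz_ok hp _ _, hBS, ?_, hdom, hfar, hfar'⟩
      intro e he
      unfold qfz
      rw [if_neg]
      · exact hfair e he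
      · intro h
        exact (Finset.mem_sdiff.mp h).2 he
    have i1 := Hr (qfz p N G) S I J I' J' c hDG
    set Sg := ∑ e ∈ blk c s, Pr (qfz p N G) S (fun F => Pv I J e ↑F) with hSg
    have hSgn : 0 ≤ Sg := Finset.sum_nonneg (fun e _ => Pr_nonneg (qfz_ok hp _ _) _ _)
    have i2 : Dp G * X ≤ C * Sg := by
      rw [hDp]
      simp only
      rcases le_total (u1 G - (1 / (2 * K0)) * u3 G) 0 with h | h
      · rw [max_eq_right h, zero_mul]
        positivity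
      · rw [max_eq_left h]
        exact i1
    have i3 : Sg ^ 2 ≤ ((blk c s).card : ℝ) * ∑ e ∈ blk c s,
        (Pr (qfz p N G) S (fun F => Pv I J e ↑F)) ^ 2 := sq_sum_le_card_mul_sum_sq
    have i4 : ∑ e ∈ blk c s, (Pr (qfz p N G) S (fun F => Pv I J e ↑F)) ^ 2 ≤
        (∑ e ∈ blk c s, T G e) * a4 (1/2) (2 * s) := by
      rw [Finset.sum_mul]
      apply Finset.sum_le_sum
      intro e he
      exact qf_edge hs hp hBS hfair hfar hW hd hG he
    have i5 : a4 (1/2) (2 * s) ≤ C4 * ((2 * s : ℕ) : ℝ) ^ (-(5/4) : ℝ) := (h4 (2 * s) (by omega)).2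
    have hTs : 0 ≤ ∑ e ∈ blk c s, T G e := Finset.sum_nonneg (fun e _ => hTn G e)
    have i6 : Sg ^ 2 ≤ (18 * C4 * X) * ∑ e ∈ blk c s, T G e := by
      calc Sg ^ 2 ≤ _ := i3
        _ ≤ (18 * (s:ℝ) ^ 2) * ((∑ e ∈ blk c s, T G e) *
            (C4 * ((2 * s : ℕ) : ℝ) ^ (-(5/4) : ℝ))) := by
          apply mul_le_mul (qf_card hs) _ (Finset.sum_nonneg (fun e _ => sq_nonneg _))
            (by positivity)
          exact i4.trans (mul_le_mul_of_nonneg_left i5 hTs)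
        _ = 18 * C4 * (∑ e ∈ blk c s, T G e) *
            ((s:ℝ) ^ 2 * ((2 * s : ℕ) : ℝ) ^ (-(5/4) : ℝ)) := by ring
        _ ≤ 18 * C4 * (∑ e ∈ blk c s, T G e) * X :=
          mul_le_mul_of_nonneg_left (qf_pow hs) (by positivity)
        _ = _ := by ring
    have i7 : (Dp G * X) ^ 2 ≤ (C * Sg) ^ 2 :=
      pow_le_pow_left₀ (mul_nonneg (hDn G) hXp.le) i2 2
    have i8 : X * (X * (Dp G) ^ 2) ≤ X * ((C ^ 2 * 18 * C4) * ∑ e ∈ blk c s, T G e) := by
      calc X * (X * (Dp G) ^ 2) = (Dp G * X) ^ 2 := by ring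
        _ ≤ (C * Sg) ^ 2 := i7
        _ = C ^ 2 * Sg ^ 2 := by ring
        _ ≤ C ^ 2 * ((18 * C4 * X) * ∑ e ∈ blk c s, T G e) :=
          mul_le_mul_of_nonneg_left i6 (by positivity)
        _ = _ := by ring
    exact le_of_mul_le_mul_left i8 hXp
  -- expectation
  have hE : X * Ex p N (fun G => (Dp G) ^ 2) ≤
      (C ^ 2 * 18 * C4) * ∑ e ∈ blk c s, UA p S W (fun F => Pv I J e ↑F) := by
    rw [hTU, ← Ex_mul_left, ← Ex_mul_left]
    exact Ex_mono hp hpt
  -- the block probabilities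
  have hU4 : UA p S W (fun F => BPv I J B ↑F) = Ex p N (fun G => (u4 G) ^ 2) := by
    unfold UA
    rw [qf_UU hBS hd]
    apply Ex_congr
    intro G hG
    have : Ex p B (fun Y => (Ex p W (fun Z => ind (BPv I J B ↑(G ∪ Y ∪ Z)))) ^ 2) =
        Ex p B (fun _ => (u4 G) ^ 2) := by
      apply Ex_congr
      intro Y hY
      rw [hu4]
      simp only
      congr 1
      apply Ex_congr
      intro Z _
      exact ind_congr (qf_bloc hY)
    rw [this, Ex_const]
  have hU1 : UA p S W (fun F => BPv I J (blk c (s - 1)) ↑F) ≤ Ex p N (fun G => u4 G * u1 G) := by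
    unfold UA
    rw [qf_UU hBS hd]
    apply Ex_mono hp
    intro G hG
    have e1 : u1 G = Ex p B (fun Y => Ex p W (fun Z =>
        ind (BPv I J (blk c (s - 1)) ↑(G ∪ Y ∪ Z)))) := by
      rw [hu1]
      simp only
      unfold Pr
      rw [qf_Pr hW hBS hd hG]
    rw [e1, ← Ex_mul_left]
    apply Ex_mono hp
    intro Y hY
    rw [sq]
    apply mul_le_mul_of_nonneg_right _ (Ex_nonneg hp (fun Z _ => ind_nonneg _))
    apply Ex_mono hp
    intro Z _
    apply ind_mono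
    intro h
    exact (qf_bloc hY).mp (qf_bmono (qf_blk (by omega)) h)
  have hu34 : ∀ G, G ⊆ N → u3 G ≤ u4 G := by
    intro G hG
    have e1 : u3 G = Ex p B (fun Y => Ex p W (fun Z =>
        ind (BPv I J (blk c (3 * s)) ↑(G ∪ Y ∪ Z)))) := by
      rw [hu3]
      simp only
      unfold Pr
      rw [qf_Pr hW hBS hd hG]
    rw [e1]
    apply Ex_le_of_le hp
    intro Y hY
    apply Ex_mono hp
    intro Z _
    apply ind_mono
    intro h
    exact (qf_bloc hY).mp (qf_bmono (qf_blk (by omega)) h)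
  set U := UA p S W (fun F => BPv I J B ↑F) with hUdef
  have hUn : 0 ≤ U := by rw [hU4]; exact Ex_nonneg hp (fun G _ => sq_nonneg _)
  have j1 : U / (2 * K0) ≤ Ex p N (fun G => u4 G * Dp G) := by
    have k1 : Ex p N (fun G => u4 G * u1 G - (1 / (2 * K0)) * (u4 G) ^ 2) ≤
        Ex p N (fun G => u4 G * Dp G) := by
      apply Ex_mono hp
      intro G hG
      have k2 : u1 G - (1 / (2 * K0)) * u3 G ≤ Dp G := le_max_left _ _
      have k3 := hu34 G hG
      have k4 : (1 / (2 * K0)) * u3 G ≤ (1 / (2 * K0)) * u4 G :=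
        mul_le_mul_of_nonneg_left k3 (by positivity)
      have k5 : u4 G * (u1 G - (1 / (2 * K0)) * u4 G) ≤ u4 G * Dp G :=
        mul_le_mul_of_nonneg_left (by linarith) (hu4n G)
      calc u4 G * u1 G - (1 / (2 * K0)) * (u4 G) ^ 2 =
          u4 G * (u1 G - (1 / (2 * K0)) * u4 G) := by ring
        _ ≤ _ := k5
    rw [Ex_sub, Ex_mul_left, ← hU4] at k1
    have k6 : U ≤ K0 * Ex p N (fun G => u4 G * u1 G) :=
      hU.trans (mul_le_mul_of_nonneg_left hU1 hK.le)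
    have k7 : U / K0 ≤ Ex p N (fun G => u4 G * u1 G) := by
      rw [div_le_iff₀ hK]
      linarith
    have k8 : U / (2 * K0) = U / K0 - 1 / (2 * K0) * U := by
      field_simp
      ring
    rw [k8]
    linarith
  have j2 := Ex_cs hp N u4 Dp
  rw [← hU4] at j2
  have j3 : U / (4 * K0 ^ 2) ≤ Ex p N (fun G => (Dp G) ^ 2) := by
    rcases hUn.eq_or_lt with h | h
    · rw [← h, zero_div]
      exact Ex_nonneg hp (fun G _ => sq_nonneg _)
    · have k1 : (U / (2 * K0)) ^ 2 ≤ U * Ex p N (fun G => (Dp G) ^ 2) :=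
        (pow_le_pow_left₀ (by positivity) j1 2).trans j2
      have k2 : U * (U / (4 * K0 ^ 2)) ≤ U * Ex p N (fun G => (Dp G) ^ 2) := by
        calc U * (U / (4 * K0 ^ 2)) = (U / (2 * K0)) ^ 2 := by
              field_simp
              ring
          _ ≤ _ := k1
      exact le_of_mul_le_mul_left k2 h
  calc 1 / (4 * K0 ^ 2 * (C ^ 2 * 18 * C4)) * X * U =
      1 / (C ^ 2 * 18 * C4) * (X * (U / (4 * K0 ^ 2))) := by
        field_simp
    _ ≤ 1 / (C ^ 2 * 18 * C4) * (X * Ex p N (fun G => (Dp G) ^ 2)) :=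
        mul_le_mul_of_nonneg_left (mul_le_mul_of_nonneg_left j3 hXp.le) (by positivity)
    _ ≤ 1 / (C ^ 2 * 18 * C4) * ((C ^ 2 * 18 * C4) *
        ∑ e ∈ blk c s, UA p S W (fun F => Pv I J e ↑F)) :=
        mul_le_mul_of_nonneg_left hE (by positivity)
    _ = _ := by
        field_simp

end H389NS
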