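import Pool.Agent.H389R2.NS.QOne
import Pool.Agent.H389R2.NS.QBlocks
import Pool.Agent.H389R2.NS.BlkSumN
import Pool.Agent.H389R2.NS.SumSp
import Pool.Agent.H12R2.Sep.Near
import Pool.Agent.H988R6.Up

/-! Second moment of the spectral sample in a block. -/

set_option autoImplicit false

namespace H389NS

open H974 H12S Finset

/-- Q2a: one edge. -/
theorem q_one : ∃ C : ℝ, 0 < C ∧ ∀ (s : ℕ), 1 ≤ s → ∀ (p : Edg → ℝ) (S : Finset Edg)
    (I J I' J' : Set Vtx) (c : ℤ × ℤ), DomB p S I J I' J' c (4 * s) → ∀ W : Finset Edg, W ⊆ S →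
      Disjoint W (blk c (4 * s)) →
      ∑ x ∈ blk c s, UA p S W (fun F => Pv I J x ↑F) ≤
        C * (s : ℝ) ^ (3/4 : ℝ) * UA p S W (fun F => BPv I J (blk c (4 * s)) ↑F) := q_one'

/-- Q2b: disjoint blocks inside a pivotal block. -/
theorem q_blocks : ∃ C : ℝ, 0 < C ∧ ∀ (s : ℕ), 1 ≤ s → ∀ (p : Edg → ℝ) (S : Finset Edg)
    (I J I' J' : Set Vtx) (c : ℤ × ℤ), DomB p S I J I' J' c (4 * s) → ∀ W : Finset Edg, W ⊆ S →
      Disjoint W (blk c (4 * s)) → ∀ d : ℕ, 1 ≤ d → 8 * d ≤ s →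
      ∑ x ∈ blk c s, UA p S W (fun F => BPv I J (ebx x (2 * d)) ↑F) ≤
        C * d * s * UA p S W (fun F => BPv I J (blk c (4 * s)) ↑F) := q_blocks'

/-- Q2c: two edges at distance `d`. -/
theorem q_pair {p : Edg → ℝ} {S : Finset Edg} {I J : Set Vtx} (hp : Ok p) {W : Finset Edg}
    (hW : W ⊆ S) {x y : Edg} {b : Finset Edg} (hxb : x ∈ b) (hyb : y ∈ b) (hbS : b ⊆ S)
    (hbW : Disjoint W b) (hfair : ∀ e ∈ b, p e = 1 / 2) {k : ℕ} (hk : 1 ≤ k)
    (hd : 2 * (k:ℤ) + 2 ≤ edist x y) (hx : ebx x k ⊆ b) (hy : ebx y k ⊆ b)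
    (hIJ : ∀ v ∈ I ∪ J, ¬ (x.1 - k < v.1 ∧ v.1 < x.1 + k ∧ x.2.1 - k < v.2 ∧ v.2 < x.2.1 + k))
    (hIJ' : ∀ v ∈ I ∪ J, ¬ (y.1 - k < v.1 ∧ v.1 < y.1 + k ∧ y.2.1 - k < v.2 ∧ v.2 < y.2.1 + k)) :
    UU p S W (dif x (dif y (fC I J))) ≤
      a4 (1/2) k ^ 2 * UA p S W (fun F => BPv I J b ↑F) :=
  q_pair1 hp hW hxb hyb hbS hbW hfair hk hd hx hy hIJ hIJ'

/-- Q2c': two edges in a block. -/
theorem q_pair' {p : Edg → ℝ} {S : Finset Edg} {I J : Set Vtx} (hp : Ok p) {W : Finset Edg}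
    (hW : W ⊆ S) {x y : Edg} {b : Finset Edg} (hxb : x ∈ b) (hyb : y ∈ b) (hxy : x ≠ y)
    (hbS : b ⊆ S) (hbW : Disjoint W b) :
    UU p S W (dif x (dif y (fC I J))) ≤ UA p S W (fun F => BPv I J b ↑F) :=
  q_pair2 hp hW hxb hyb hxy hbS hbW

theorem q2_nonneg {p : Edg → ℝ} (hp : Ok p) (S W : Finset Edg) (f : Finset Edg → ℝ) :
    0 ≤ UU p S W f := by
  unfold UU
  exact Ex_nonneg hp (fun G _ => sq_nonneg _)

theorem q2_mem {c : ℤ × ℤ} {s : ℕ} {x : Edg} (hx : x ∈ blk c s) :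
    c.1 - s ≤ x.1 ∧ x.1 ≤ c.1 + s ∧ c.2 - s ≤ x.2.1 ∧ x.2.1 ≤ c.2 + s := by
  unfold blk at hx
  obtain ⟨a, b, _ | _⟩ := x
  · rw [mem_RE_false] at hx
    simp only
    omega
  · rw [mem_RE_true] at hx
    simp only
    omega

theorem q2_card (c : ℤ × ℤ) (s : ℕ) : (blk c s).card ≤ 2 * (2 * s + 1) ^ 2 := by
  refine le_trans (card_le_card ?_) (NR_near s (blk c s) (c.1, c.2, true))
  intro x hx
  rw [mem_filter]
  refine ⟨hx, ?_⟩
  have h := q2_mem hx
  unfold H12S.edist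
  simp only
  rw [max_le_iff, abs_le, abs_le]
  omega

theorem q2_edist {x y : Edg} {D : ℕ} (h : edist x y ≤ D) :
    x.1 - D ≤ y.1 ∧ y.1 ≤ x.1 + D ∧ x.2.1 - D ≤ y.2.1 ∧ y.2.1 ≤ x.2.1 + D := by
  unfold H12S.edist at h
  rw [max_le_iff, abs_le, abs_le] at h
  omega

theorem q2_mem_ebx {x y : Edg} {D r : ℕ} (h : edist x y ≤ D) (hr : D + 1 ≤ r) : y ∈ ebx x r := by
  have h1 := q2_edist h
  obtain ⟨a, b, _ | _⟩ := y
  · unfold ebx
    rw [mem_RE_false]
    simp only at h1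
    omega
  · unfold ebx
    rw [mem_RE_true]
    simp only at h1
    omega

theorem q2_sub_ebx {x y : Edg} {D r k : ℕ} (h : edist x y ≤ D) (hr : D + k ≤ r) :
    ebx y k ⊆ ebx x r := by
  have h1 := q2_edist h
  unfold ebx
  apply RE_subset <;> omega

theorem q2_sub_blk {c : ℤ × ℤ} {s k t : ℕ} {x : Edg} (hx : x ∈ blk c s) (h : s + k ≤ t) :
    ebx x k ⊆ blk c t := by
  have h1 := q2_mem hx
  unfold ebx blk
  apply RE_subset <;> omega

theorem q2_far {X : Set Vtx} {c : ℤ × ℤ} {s k : ℕ} (hX : FarS X c (4 * s)) (hk : k ≤ 3 * s)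
    {x : Edg} (hx : x ∈ blk c s) :
    ∀ v ∈ X, ¬ (x.1 - k < v.1 ∧ v.1 < x.1 + k ∧ x.2.1 - k < v.2 ∧ v.2 < x.2.1 + k) := by
  intro v hv h
  have h1 := q2_mem hx
  have h2 := hX v hv
  rw [le_abs, le_abs] at h2
  push_cast at h2
  omega

theorem q2_rpow {x : ℝ} (hx : 0 < x) : (x ^ (-(5/4) : ℝ)) ^ 2 = 1 / (x ^ 2 * Real.sqrt x) := by
  rw [← Real.rpow_natCast, ← Real.rpow_mul hx.le, Real.sqrt_eq_rpow, ← Real.rpow_natCast x 2,
    ← Real.rpow_add hx, one_div, ← Real.rpow_neg hx.le]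
  congr 1
  norm_num

theorem q2_a4 {Ca : ℝ} (hCa : 0 < Ca)
    (h : ∀ k : ℕ, 1 ≤ k → a4 (1/2) k ≤ Ca * (k:ℝ) ^ (-(5/4) : ℝ)) {k : ℕ} {r : ℝ} (hr : 0 < r)
    (hk : 1 ≤ k) (hrk : r ≤ k) : a4 (1/2) k ^ 2 ≤ Ca ^ 2 / (r ^ 2 * Real.sqrt r) := by
  have h0 : 0 ≤ a4 (1/2) k := LP_a4_nonneg (by norm_num) (by norm_num) k
  have hk0 : (0:ℝ) < k := by exact_mod_cast hk
  calc a4 (1/2) k ^ 2 ≤ (Ca * (k:ℝ) ^ (-(5/4) : ℝ)) ^ 2 := by
        exact pow_le_pow_left₀ h0 (h k hk) 2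
    _ = Ca ^ 2 * (1 / ((k:ℝ) ^ 2 * Real.sqrt k)) := by rw [mul_pow, q2_rpow hk0]
    _ ≤ Ca ^ 2 * (1 / (r ^ 2 * Real.sqrt r)) := by
        apply mul_le_mul_of_nonneg_left _ (by positivity)
        apply one_div_le_one_div_of_le (by positivity)
        apply mul_le_mul _ (Real.sqrt_le_sqrt hrk) (by positivity) (by positivity)
        exact pow_le_pow_left₀ hr.le hrk 2
    _ = Ca ^ 2 / (r ^ 2 * Real.sqrt r) := by ring

theorem q2_geom (J : ℕ) : ∑ j ∈ range J, Real.sqrt 2 ^ j ≤ 3 * Real.sqrt 2 ^ J := by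
  have hq : (4:ℝ) / 3 ≤ Real.sqrt 2 := by
    apply Real.le_sqrt_of_sq_le
    norm_num
  induction J with
  | zero => simp
  | succ J ih =>
    rw [sum_range_succ, pow_succ]
    have hp : 0 ≤ Real.sqrt 2 ^ J := by positivity
    nlinarith

theorem q2_sqrt_pow (j : ℕ) : Real.sqrt ((2:ℝ) ^ j) = Real.sqrt 2 ^ j := by
  have h : (2:ℝ) ^ j = (Real.sqrt 2 ^ j) ^ 2 := by
    rw [← pow_mul, mul_comm, pow_mul, Real.sq_sqrt (by norm_num)]
  rw [h, Real.sqrt_sq (by positivity)]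

theorem q2_sum_if (U : Finset Edg) (x : Edg) (w : ℕ) {β : ℝ} (hβ : 0 ≤ β) :
    ∑ y ∈ U, (if edist x y ≤ w then β else 0) ≤ (2 * (2 * (w:ℝ) + 1) ^ 2) * β := by
  rw [← sum_filter, sum_const, nsmul_eq_mul]
  apply mul_le_mul_of_nonneg_right _ hβ
  have h := NR_near w U x
  exact_mod_cast h


theorem q2_point {p : Edg → ℝ} {S : Finset Edg} {I J I' J' : Set Vtx} {c : ℤ × ℤ} {s : ℕ}
    (hs : 64 ≤ s) (hD : DomB p S I J I' J' c (4 * s)) {W : Finset Edg} (hW : W ⊆ S)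
    (hdis : Disjoint W (blk c (4 * s))) {x y : Edg} (hx : x ∈ blk c s) (hy : y ∈ blk c s)
    (hxy : x ≠ y) :
    UU p S W (dif x (dif y (fC I J))) ≤
      (if edist x y ≤ (3 : ℕ) then UA p S W (fun F => BPv I J (ebx x (2 * 4)) ↑F) else 0) +
      (∑ j ∈ range (Nat.log 2 s - 5), if edist x y ≤ (2 ^ (j + 3) : ℕ) then
        a4 (1/2) (2 ^ (j + 1) - 1) ^ 2 *
          UA p S W (fun F => BPv I J (ebx x (2 * 2 ^ (j + 3))) ↑F) else 0) +
      a4 (1/2) (s / 64) ^ 2 * UA p S W (fun F => BPv I J (blk c (4 * s)) ↑F) := by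
  have hok := hD.ok
  have t1 : 0 ≤ (if edist x y ≤ (3 : ℕ) then
      UA p S W (fun F => BPv I J (ebx x (2 * 4)) ↑F) else 0) := by
    split_ifs
    · exact q2_nonneg hok _ _ _
    · exact le_rfl
  have t2' : ∀ j ∈ range (Nat.log 2 s - 5), 0 ≤ (if edist x y ≤ (2 ^ (j + 3) : ℕ) then
        a4 (1/2) (2 ^ (j + 1) - 1) ^ 2 *
          UA p S W (fun F => BPv I J (ebx x (2 * 2 ^ (j + 3))) ↑F) else 0) := by
    intro j _
    split_ifs
    · exact mul_nonneg (sq_nonneg _) (q2_nonneg hok _ _ _)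
    · exact le_rfl
  have t2 := sum_nonneg t2'
  have t3 : 0 ≤ a4 (1/2) (s / 64) ^ 2 * UA p S W (fun F => BPv I J (blk c (4 * s)) ↑F) :=
    mul_nonneg (sq_nonneg _) (q2_nonneg hok _ _ _)
  have hD0 : 0 ≤ edist x y := by
    unfold H12S.edist
    exact (abs_nonneg _).trans (le_max_left _ _)
  obtain ⟨D, hDD⟩ : ∃ D : ℕ, edist x y = D := ⟨(edist x y).toNat, by omega⟩
  have hlog1 : 2 ^ Nat.log 2 s ≤ s := Nat.pow_log_le_self 2 (by omega)
  have hlog2 : s < 2 ^ (Nat.log 2 s + 1) := Nat.lt_pow_succ_log_self (by norm_num) s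
  have hlog3 : 6 ≤ Nat.log 2 s := by
    by_contra hcon
    have : 2 ^ (Nat.log 2 s + 1) ≤ 2 ^ 6 := Nat.pow_le_pow_right (by norm_num) (by omega)
    omega
  by_cases h3 : D ≤ 3
  · have h4 : UU p S W (dif x (dif y (fC I J))) ≤
        UA p S W (fun F => BPv I J (ebx x (2 * 4)) ↑F) := by
      have hb : ebx x (2 * 4) ⊆ blk c (4 * s) := q2_sub_blk hx (by omega)
      exact q_pair' hok hW (mem_ebx (by norm_num))
        (q2_mem_ebx (D := D) hDD.le (by omega)) hxy (hb.trans hD.sub) (hdis.mono_right hb)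
    have e0 : edist x y ≤ (3 : ℕ) := by rw [hDD]; exact_mod_cast h3
    rw [if_pos e0]
    linarith
  · rw [not_le] at h3
    have hl1 : 2 ^ Nat.log 2 D ≤ D := Nat.pow_log_le_self 2 (by omega)
    have hl2 : D < 2 ^ (Nat.log 2 D + 1) := Nat.lt_pow_succ_log_self (by norm_num) D
    have hl3 : 2 ≤ Nat.log 2 D := by
      by_contra hcon
      have : 2 ^ (Nat.log 2 D + 1) ≤ 2 ^ 2 := Nat.pow_le_pow_right (by norm_num) (by omega)
      omega
    obtain ⟨j, hj⟩ : ∃ j, Nat.log 2 D = j + 2 := ⟨Nat.log 2 D - 2, by omega⟩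
    rw [hj] at hl1 hl2
    have e2 : (2:ℕ) ^ (j + 2) = 4 * 2 ^ j := by ring
    have e3 : (2:ℕ) ^ (j + 2 + 1) = 8 * 2 ^ j := by ring
    have e3' : (2:ℕ) ^ (j + 3) = 8 * 2 ^ j := by ring
    have e1 : (2:ℕ) ^ (j + 1) = 2 * 2 ^ j := by ring
    have e6 : (2:ℕ) ^ (j + 6) = 64 * 2 ^ j := by ring
    have hpos : 1 ≤ 2 ^ j := Nat.one_le_two_pow
    by_cases hjJ : j < Nat.log 2 s - 5
    · have hjs : 64 * 2 ^ j ≤ s := by
        rw [← e6]
        exact (Nat.pow_le_pow_right (by norm_num) (by omega)).trans hlog1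
      have hb : ebx x (2 * 2 ^ (j + 3)) ⊆ blk c (4 * s) := q2_sub_blk hx (by omega)
      have h4 : UU p S W (dif x (dif y (fC I J))) ≤
          a4 (1/2) (2 ^ (j + 1) - 1) ^ 2 *
            UA p S W (fun F => BPv I J (ebx x (2 * 2 ^ (j + 3))) ↑F) := by
        refine q_pair hok hW (mem_ebx (by omega))
          (q2_mem_ebx (D := D) hDD.le (by omega)) (hb.trans hD.sub) (hdis.mono_right hb)
          (fun e he => hD.fair e (hb he)) (by omega) ?_ ?_ ?_ ?_ ?_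
        · rw [hDD]
          omega
        · unfold ebx
          apply RE_subset <;> omega
        · exact q2_sub_ebx (D := D) hDD.le (by omega)
        · exact q2_far hD.far (by omega) hx
        · exact q2_far hD.far (by omega) hy
      have e0 : edist x y ≤ (2 ^ (j + 3) : ℕ) := by
        rw [hDD]
        exact_mod_cast (by omega : D ≤ 2 ^ (j + 3))
      have h5 := single_le_sum t2' (mem_range.mpr hjJ)
      rw [if_pos e0] at h5
      exact h4.trans (h5.trans ((le_add_of_nonneg_left t1).trans (le_add_of_nonneg_right t3)))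
    · have h6 : s < 16 * D := by
        have : 2 ^ (Nat.log 2 s + 1) ≤ 2 ^ (j + 6) := Nat.pow_le_pow_right (by norm_num) (by omega)
        omega
      have h4 : UU p S W (dif x (dif y (fC I J))) ≤ a4 (1/2) (s / 64) ^ 2 *
          UA p S W (fun F => BPv I J (blk c (4 * s)) ↑F) := by
        have hb : blk c s ⊆ blk c (4 * s) := by
          unfold blk
          apply RE_subset <;> push_cast <;> omega
        refine q_pair hok hW (hb hx) (hb hy) hD.sub hdis hD.fair (by omega) ?_ ?_ ?_ ?_ ?_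
        · rw [hDD]
          omega
        · exact q2_sub_blk hx (by omega)
        · exact q2_sub_blk hy (by omega)
        · exact q2_far hD.far (by omega) hx
        · exact q2_far hD.far (by omega) hy
      exact h4.trans (le_add_of_nonneg_left (add_nonneg t1 t2))

theorem q_second_of (ha : ∃ C : ℝ, 0 < C ∧ ∀ k : ℕ, 1 ≤ k →
      a4 (1/2) k ≤ C * (k:ℝ) ^ (-(5/4) : ℝ)) :
    ∃ C : ℝ, 0 < C ∧ ∀ (s : ℕ), 1 ≤ s → ∀ (p : Edg → ℝ) (S : Finset Edg)
    (I J I' J' : Set Vtx) (c : ℤ × ℤ), DomB p S I J I' J' c (4 * s) → ∀ W : Finset Edg, W ⊆ S →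
      Disjoint W (blk c (4 * s)) →
      ∑ x ∈ blk c s, ∑ y ∈ (blk c s).erase x, UU p S W (dif x (dif y (fC I J))) ≤
        C * (s : ℝ) ^ (3/2 : ℝ) * UA p S W (fun F => BPv I J (blk c (4 * s)) ↑F) := by
  obtain ⟨Ca, hCa, hsharp⟩ := ha
  obtain ⟨Cb, hCb, hblocks⟩ := q_blocks
  refine ⟨10 ^ 10 + 392 * Cb + 13872 * (Ca ^ 2 * Cb) + 10 ^ 9 * Ca ^ 2, by positivity, ?_⟩
  intro s hs1 p S I J I' J' c hD W hW hdis
  have hok := hD.ok
  set U4 := UA p S W (fun F => BPv I J (blk c (4 * s)) ↑F) with hU4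
  have hU0 : 0 ≤ U4 := q2_nonneg hok _ _ _
  have hsR : (1:ℝ) ≤ s := by exact_mod_cast hs1
  have hs0 : (0:ℝ) < s := by linarith
  have hpow : (s:ℝ) ^ (3/2 : ℝ) = s * Real.sqrt s := by
    rw [Real.sqrt_eq_rpow, show (3/2 : ℝ) = 1 + 1/2 by norm_num, Real.rpow_add hs0, Real.rpow_one]
  have hsq1 : 1 ≤ Real.sqrt s := Real.one_le_sqrt.mpr hsR
  have hpow1 : (s:ℝ) ≤ (s:ℝ) ^ (3/2 : ℝ) := by rw [hpow]; nlinarith
  have hcard : ((blk c s).card : ℝ) ≤ 18 * (s:ℝ) ^ 2 := by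
    have h1 := q2_card c s
    have h2 : 2 * (2 * s + 1) ^ 2 ≤ 18 * s ^ 2 := by nlinarith
    exact_mod_cast h1.trans h2
  have hcard0 : (0:ℝ) ≤ (blk c s).card := by positivity
  by_cases hs : s < 64
  · -- few edges
    have hb : blk c s ⊆ blk c (4 * s) := by
      unfold blk
      apply RE_subset <;> push_cast <;> omega
    have h1 : ∀ x ∈ blk c s, ∑ y ∈ (blk c s).erase x, UU p S W (dif x (dif y (fC I J))) ≤
        (blk c s).card * U4 := by
      intro x hx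
      calc ∑ y ∈ (blk c s).erase x, UU p S W (dif x (dif y (fC I J)))
          ≤ ∑ y ∈ (blk c s).erase x, U4 := by
            apply sum_le_sum
            intro y hy
            rw [mem_erase] at hy
            exact q_pair' hok hW (hb hx) (hb hy.2) (Ne.symm hy.1) hD.sub hdis
        _ = ((blk c s).erase x).card * U4 := by rw [sum_const, nsmul_eq_mul]
        _ ≤ (blk c s).card * U4 := by
            apply mul_le_mul_of_nonneg_right _ hU0
            exact_mod_cast card_le_card (erase_subset _ _)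
    calc ∑ x ∈ blk c s, ∑ y ∈ (blk c s).erase x, UU p S W (dif x (dif y (fC I J)))
        ≤ ∑ x ∈ blk c s, (blk c s).card * U4 := sum_le_sum h1
      _ = (blk c s).card * ((blk c s).card * U4) := by rw [sum_const, nsmul_eq_mul]
      _ ≤ 10 ^ 10 * U4 := by
          have h64 : (s:ℝ) ≤ 64 := by exact_mod_cast hs.le
          have h5 : ((blk c s).card : ℝ) ≤ 73728 := by nlinarith
          rw [← mul_assoc]
          apply mul_le_mul_of_nonneg_right _ hU0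
          nlinarith
      _ ≤ (10 ^ 10 + 392 * Cb + 13872 * (Ca ^ 2 * Cb) + 10 ^ 9 * Ca ^ 2) * (s:ℝ) ^ (3/2 : ℝ) *
            U4 := by
          apply mul_le_mul_of_nonneg_right _ hU0
          have h6 : (0:ℝ) ≤ 392 * Cb + 13872 * (Ca ^ 2 * Cb) + 10 ^ 9 * Ca ^ 2 := by positivity
          have h7 : (1:ℝ) ≤ (s:ℝ) ^ (3/2 : ℝ) := hsR.trans hpow1
          nlinarith
  · rw [not_lt] at hs
    have hlog1 : 2 ^ Nat.log 2 s ≤ s := Nat.pow_log_le_self 2 (by omega)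
    set JJ := Nat.log 2 s - 5 with hJJ
    -- sum over y
    have h1 : ∀ x ∈ blk c s, ∑ y ∈ (blk c s).erase x, UU p S W (dif x (dif y (fC I J))) ≤
        98 * UA p S W (fun F => BPv I J (ebx x (2 * 4)) ↑F) +
        (∑ j ∈ range JJ, (578 * ((2:ℝ) ^ j) ^ 2) * (Ca ^ 2 / (((2:ℝ) ^ j) ^ 2 *
          Real.sqrt ((2:ℝ) ^ j)) * UA p S W (fun F => BPv I J (ebx x (2 * 2 ^ (j + 3))) ↑F))) +
        (blk c s).card * (a4 (1/2) (s / 64) ^ 2 * U4) := by
      intro x hx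
      have hpt : ∀ y ∈ (blk c s).erase x, UU p S W (dif x (dif y (fC I J))) ≤
          (if edist x y ≤ (3 : ℕ) then UA p S W (fun F => BPv I J (ebx x (2 * 4)) ↑F) else 0) +
          (∑ j ∈ range JJ, if edist x y ≤ (2 ^ (j + 3) : ℕ) then
            a4 (1/2) (2 ^ (j + 1) - 1) ^ 2 *
              UA p S W (fun F => BPv I J (ebx x (2 * 2 ^ (j + 3))) ↑F) else 0) +
          a4 (1/2) (s / 64) ^ 2 * U4 := by
        intro y hy
        rw [mem_erase] at hy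
        exact q2_point hs hD hW hdis hx hy.2 (Ne.symm hy.1)
      refine (sum_le_sum hpt).trans ?_
      rw [sum_add_distrib, sum_add_distrib]
      refine add_le_add (add_le_add ?_ ?_) ?_
      · have h98 : (2 * (2 * ((3:ℕ):ℝ) + 1) ^ 2) = 98 := by norm_num
        have := q2_sum_if ((blk c s).erase x) x 3
          (β := UA p S W (fun F => BPv I J (ebx x (2 * 4)) ↑F)) (q2_nonneg hok _ _ _)
        rw [h98] at this
        exact this
      · rw [sum_comm]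
        apply sum_le_sum
        intro j hj
        have hr : (0:ℝ) < 2 ^ j := by positivity
        have hk1 : 1 ≤ 2 ^ (j + 1) - 1 := by
          have : 2 ≤ 2 ^ (j + 1) := by
            calc 2 = 2 ^ 1 := by norm_num
              _ ≤ 2 ^ (j + 1) := Nat.pow_le_pow_right (by norm_num) (by omega)
          omega
        have hk2 : 2 ^ j ≤ 2 ^ (j + 1) - 1 := by
          have e1 : (2:ℕ) ^ (j + 1) = 2 * 2 ^ j := by ring
          have : 1 ≤ 2 ^ j := Nat.one_le_two_pow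
          omega
        have hk2' : (2:ℝ) ^ j ≤ ((2 ^ (j + 1) - 1 : ℕ) : ℝ) := by exact_mod_cast hk2
        have ha4 := q2_a4 hCa hsharp hr hk1 hk2'
        have hA0 : 0 ≤ UA p S W (fun F => BPv I J (ebx x (2 * 2 ^ (j + 3))) ↑F) :=
          q2_nonneg hok _ _ _
        refine (q2_sum_if _ x (2 ^ (j + 3)) (mul_nonneg (sq_nonneg _) hA0)).trans ?_
        apply mul_le_mul _ (mul_le_mul_of_nonneg_right ha4 hA0)
          (mul_nonneg (sq_nonneg _) hA0) (by positivity)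
        have hr1 : (1:ℝ) ≤ 2 ^ j := one_le_pow₀ (by norm_num)
        have e3 : ((2 ^ (j + 3) : ℕ) : ℝ) = 8 * 2 ^ j := by push_cast; ring
        rw [e3]
        nlinarith
      · rw [sum_const, nsmul_eq_mul]
        apply mul_le_mul_of_nonneg_right _ (mul_nonneg (sq_nonneg _) hU0)
        exact_mod_cast card_le_card (erase_subset _ _)
    refine (sum_le_sum h1).trans ?_
    rw [sum_add_distrib, sum_add_distrib, ← mul_sum, sum_comm, sum_const, nsmul_eq_mul]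
    -- near
    have n1 : 98 * ∑ x ∈ blk c s, UA p S W (fun F => BPv I J (ebx x (2 * 4)) ↑F) ≤
        392 * Cb * (s:ℝ) ^ (3/2 : ℝ) * U4 := by
      have h2 := hblocks s hs1 p S I J I' J' c hD W hW hdis 4 (by norm_num) (by omega)
      have h3 : Cb * ((4:ℕ):ℝ) * s * U4 ≤ 4 * Cb * (s:ℝ) ^ (3/2 : ℝ) * U4 := by
        apply mul_le_mul_of_nonneg_right _ hU0
        push_cast
        nlinarith
      calc 98 * ∑ x ∈ blk c s, UA p S W (fun F => BPv I J (ebx x (2 * 4)) ↑F)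
          ≤ 98 * (Cb * ((4:ℕ):ℝ) * s * U4) := mul_le_mul_of_nonneg_left h2 (by norm_num)
        _ ≤ 98 * (4 * Cb * (s:ℝ) ^ (3/2 : ℝ) * U4) := mul_le_mul_of_nonneg_left h3 (by norm_num)
        _ = 392 * Cb * (s:ℝ) ^ (3/2 : ℝ) * U4 := by ring
    -- middle
    have n2 : ∑ j ∈ range JJ, ∑ x ∈ blk c s, (578 * ((2:ℝ) ^ j) ^ 2) * (Ca ^ 2 /
        (((2:ℝ) ^ j) ^ 2 * Real.sqrt ((2:ℝ) ^ j)) *
          UA p S W (fun F => BPv I J (ebx x (2 * 2 ^ (j + 3))) ↑F)) ≤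
        13872 * (Ca ^ 2 * Cb) * (s:ℝ) ^ (3/2 : ℝ) * U4 := by
      have h3 : ∀ j ∈ range JJ, ∑ x ∈ blk c s, (578 * ((2:ℝ) ^ j) ^ 2) * (Ca ^ 2 /
          (((2:ℝ) ^ j) ^ 2 * Real.sqrt ((2:ℝ) ^ j)) *
            UA p S W (fun F => BPv I J (ebx x (2 * 2 ^ (j + 3))) ↑F)) ≤
          4624 * (Ca ^ 2 * Cb) * s * U4 * Real.sqrt 2 ^ j := by
        intro j hj
        rw [mem_range] at hj
        have hjs : 8 * 2 ^ (j + 3) ≤ s := by
          have e6 : 8 * 2 ^ (j + 3) = 2 ^ (j + 6) := by ring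
          rw [e6]
          exact (Nat.pow_le_pow_right (by norm_num) (by omega)).trans hlog1
        have h2 := hblocks s hs1 p S I J I' J' c hD W hW hdis (2 ^ (j + 3))
          Nat.one_le_two_pow hjs
        have hr : (0:ℝ) < 2 ^ j := by positivity
        have hq : (0:ℝ) < Real.sqrt 2 ^ j := by positivity
        have hsq : Real.sqrt ((2:ℝ) ^ j) = Real.sqrt 2 ^ j := q2_sqrt_pow j
        have hsq2 : (2:ℝ) ^ j = Real.sqrt 2 ^ j * Real.sqrt 2 ^ j := by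
          rw [← hsq, Real.mul_self_sqrt hr.le]
        rw [← mul_sum, ← mul_sum]
        calc 578 * ((2:ℝ) ^ j) ^ 2 * (Ca ^ 2 / (((2:ℝ) ^ j) ^ 2 * Real.sqrt ((2:ℝ) ^ j)) *
              ∑ x ∈ blk c s, UA p S W (fun F => BPv I J (ebx x (2 * 2 ^ (j + 3))) ↑F))
            ≤ 578 * ((2:ℝ) ^ j) ^ 2 * (Ca ^ 2 / (((2:ℝ) ^ j) ^ 2 * Real.sqrt ((2:ℝ) ^ j)) *
              (Cb * ((2 ^ (j + 3) : ℕ) : ℝ) * s * U4)) := by
              apply mul_le_mul_of_nonneg_left _ (by positivity)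
              exact mul_le_mul_of_nonneg_left h2 (by positivity)
          _ = 4624 * (Ca ^ 2 * Cb) * s * U4 * Real.sqrt 2 ^ j := by
              rw [hsq]
              have e3 : ((2 ^ (j + 3) : ℕ) : ℝ) = 8 * 2 ^ j := by push_cast; ring
              rw [e3, hsq2]
              field_simp
              ring
      refine (sum_le_sum h3).trans ?_
      rw [← mul_sum]
      have hg := q2_geom JJ
      have hJs : Real.sqrt 2 ^ JJ ≤ Real.sqrt s := by
        rw [← q2_sqrt_pow]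
        apply Real.sqrt_le_sqrt
        have : 2 ^ JJ ≤ s := (Nat.pow_le_pow_right (by norm_num) (by omega)).trans hlog1
        exact_mod_cast this
      have hc0 : 0 ≤ 4624 * (Ca ^ 2 * Cb) * s * U4 := by positivity
      calc 4624 * (Ca ^ 2 * Cb) * s * U4 * ∑ j ∈ range JJ, Real.sqrt 2 ^ j
          ≤ 4624 * (Ca ^ 2 * Cb) * s * U4 * (3 * Real.sqrt s) := by
            apply mul_le_mul_of_nonneg_left _ hc0
            linarith
        _ = 13872 * (Ca ^ 2 * Cb) * (s:ℝ) ^ (3/2 : ℝ) * U4 := by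
            rw [hpow]
            ring
    -- far
    have n3 : ((blk c s).card : ℝ) * ((blk c s).card * (a4 (1/2) (s / 64) ^ 2 * U4)) ≤
        10 ^ 9 * Ca ^ 2 * (s:ℝ) ^ (3/2 : ℝ) * U4 := by
      have hk1 : 1 ≤ s / 64 := by omega
      have hk2 : (s:ℝ) / 128 ≤ ((s / 64 : ℕ) : ℝ) := by
        have : s ≤ 128 * (s / 64) := by omega
        have h' : (s:ℝ) ≤ 128 * ((s / 64 : ℕ) : ℝ) := by exact_mod_cast this
        linarith
      have ha4 := q2_a4 hCa hsharp (by positivity : (0:ℝ) < s / 128) hk1 hk2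
      have hss : Real.sqrt s ≤ 12 * Real.sqrt ((s:ℝ) / 128) := by
        rw [Real.sqrt_le_left (by positivity), mul_pow, Real.sq_sqrt (by positivity)]
        linarith
      have hsq0 : 0 < Real.sqrt ((s:ℝ) / 128) := by positivity
      have hb : Ca ^ 2 / (((s:ℝ) / 128) ^ 2 * Real.sqrt ((s:ℝ) / 128)) * (s:ℝ) ^ 4 ≤
          196608 * Ca ^ 2 * (s * Real.sqrt s) := by
        rw [div_mul_eq_mul_div, div_le_iff₀ (by positivity)]
        have hs3 : (0:ℝ) ≤ Ca ^ 2 * s ^ 3 := by positivity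
        have hmul : (Real.sqrt s) * Real.sqrt s = s := Real.mul_self_sqrt hs0.le
        have h8 : (s:ℝ) ≤ 12 * (Real.sqrt s * Real.sqrt ((s:ℝ) / 128)) := by
          nlinarith [Real.sqrt_nonneg (s:ℝ)]
        calc Ca ^ 2 * (s:ℝ) ^ 4 = (Ca ^ 2 * s ^ 3) * s := by ring
          _ ≤ (Ca ^ 2 * s ^ 3) * (12 * (Real.sqrt s * Real.sqrt ((s:ℝ) / 128))) :=
              mul_le_mul_of_nonneg_left h8 hs3
          _ = 196608 * Ca ^ 2 * (s * Real.sqrt s) *
                (((s:ℝ) / 128) ^ 2 * Real.sqrt ((s:ℝ) / 128)) := by ring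
      have hA0 : 0 ≤ a4 (1/2) (s / 64) ^ 2 := sq_nonneg _
      calc ((blk c s).card : ℝ) * ((blk c s).card * (a4 (1/2) (s / 64) ^ 2 * U4))
          = ((blk c s).card : ℝ) ^ 2 * (a4 (1/2) (s / 64) ^ 2) * U4 := by ring
        _ ≤ (18 * (s:ℝ) ^ 2) ^ 2 * (Ca ^ 2 / (((s:ℝ) / 128) ^ 2 * Real.sqrt ((s:ℝ) / 128))) *
              U4 := by
            apply mul_le_mul_of_nonneg_right _ hU0
            exact mul_le_mul (pow_le_pow_left₀ hcard0 hcard 2) ha4 hA0 (by positivity)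
        _ = 324 * (Ca ^ 2 / (((s:ℝ) / 128) ^ 2 * Real.sqrt ((s:ℝ) / 128)) * (s:ℝ) ^ 4) * U4 := by
            ring
        _ ≤ 324 * (196608 * Ca ^ 2 * (s * Real.sqrt s)) * U4 := by
            apply mul_le_mul_of_nonneg_right _ hU0
            linarith
        _ ≤ 10 ^ 9 * Ca ^ 2 * (s:ℝ) ^ (3/2 : ℝ) * U4 := by
            apply mul_le_mul_of_nonneg_right _ hU0
            rw [hpow]
            have : 0 ≤ Ca ^ 2 * (s * Real.sqrt s) := by positivity
            nlinarith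
    have n4 : 0 ≤ 10 ^ 10 * (s:ℝ) ^ (3/2 : ℝ) * U4 := by positivity
    linarith


/-- Q2: second moment. -/
theorem q_second : ∃ C : ℝ, 0 < C ∧ ∀ (s : ℕ), 1 ≤ s → ∀ (p : Edg → ℝ) (S : Finset Edg)
    (I J I' J' : Set Vtx) (c : ℤ × ℤ), DomB p S I J I' J' c (4 * s) → ∀ W : Finset Edg, W ⊆ S →
      Disjoint W (blk c (4 * s)) →
      ∑ x ∈ blk c s, ∑ y ∈ (blk c s).erase x, UU p S W (dif x (dif y (fC I J))) ≤
        C * (s : ℝ) ^ (3/2 : ℝ) * UA p S W (fun F => BPv I J (blk c (4 * s)) ↑F) := by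
  obtain ⟨_, C, _, hC, h⟩ := Pool.Agent.H988R6.a4_sharp
  exact q_second_of ⟨C, hC, fun k hk => (h k hk).2⟩

end H389NS
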