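import Pool.Agent.H389R2.NS.QFirst
import Pool.Agent.H389R2.NS.QSecond
import Pool.Agent.H389R2.NS.Paley

/-! The spectral sample is large in a block which it hits (one scale). -/

set_option autoImplicit false

namespace H389NS

open H974 H12S Finset

namespace QH

theorem sp_nonneg {p : Edg → ℝ} (hp : Ok p) (S V : Finset Edg) (f : Finset Edg → ℝ)
    (T : Finset Edg) : 0 ≤ sp p S V f T := by
  unfold sp
  exact Ex_nonneg hp fun G _ => sq_nonneg _

theorem UA_nonneg {p : Edg → ℝ} (hp : Ok p) (S W : Finset Edg) (A : Finset Edg → Prop) :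
    0 ≤ UA p S W A := by
  unfold UA UU
  exact Ex_nonneg hp fun G _ => sq_nonneg _

theorem UA_mono {p : Edg → ℝ} (hp : Ok p) {S W : Finset Edg} {A B : Finset Edg → Prop}
    (h : ∀ F, A F → B F) : UA p S W A ≤ UA p S W B := by
  unfold UA UU
  refine Ex_mono hp fun G _ => ?_
  refine pow_le_pow_left₀ (Ex_nonneg hp fun Y _ => ind_nonneg _) ?_ 2
  exact Ex_mono hp fun Y _ => ind_mono (h _)

theorem BPv_mono {I J : Set Vtx} {b b' : Finset Edg} (h : b ⊆ b') {F : Set Edg}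
    (hF : BPv I J b F) : BPv I J b' F := by
  have hb : (↑b : Set Edg) ⊆ ↑b' := Finset.coe_subset.2 h
  refine ⟨Cn_mono (Set.union_subset_union_right _ hb) hF.1, fun h2 => hF.2 (Cn_mono ?_ h2)⟩
  exact Set.sdiff_subset_sdiff_right hb

theorem dif_fC (I J : Set Vtx) (e : Edg) (F : Finset Edg) :
    dif e (fC I J) F = ind (Pv I J e (↑F : Set Edg)) := by
  unfold dif fC
  rw [Finset.coe_insert, Finset.coe_erase]
  have hmono : Cn I J ((↑F : Set Edg) \ {e}) → Cn I J (insert e (↑F : Set Edg)) := by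
    intro h
    exact Cn_mono (Set.sdiff_subset.trans (Set.subset_insert _ _)) h
  unfold Pv
  by_cases h1 : Cn I J (insert e (↑F : Set Edg))
  · by_cases h2 : Cn I J ((↑F : Set Edg) \ {e})
    · rw [ind_of h1, ind_of h2, ind_not_of (fun h => h.2 h2)]
      norm_num
    · rw [ind_of h1, ind_not_of h2, ind_of ⟨h1, h2⟩]
      norm_num
  · have h2 : ¬ Cn I J ((↑F : Set Edg) \ {e}) := fun h => h1 (hmono h)
    rw [ind_not_of h1, ind_not_of h2, ind_not_of (fun h => h1 h.1)]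
    norm_num

theorem UU_dif (p : Edg → ℝ) (S W : Finset Edg) (I J : Set Vtx) (e : Edg) :
    UU p S W (dif e (fC I J)) = UA p S W (fun F => Pv I J e ↑F) := by
  unfold UA
  congr 1
  funext F
  exact dif_fC I J e F

theorem blk_sub {c : ℤ × ℤ} {a b : ℕ} (h : a ≤ b) : blk c a ⊆ blk c b := by
  unfold blk
  apply RE_subset <;> push_cast <;> omega

theorem hit_A (I J : Set Vtx) (B F : Finset Edg) :
    BPv I J B (↑F : Set Edg) ↔ BPv I J B (↑(F \ B) : Set Edg) := by
  unfold BPv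
  rw [Finset.coe_sdiff, Set.sdiff_union_self, Set.sdiff_sdiff, Set.union_self]

theorem hit_f (I J : Set Vtx) (B F F' : Finset Edg) (h : F \ B = F' \ B) :
    |fC I J F - fC I J F'| ≤ ind (BPv I J B (↑F : Set Edg)) := by
  have hs : (↑F : Set Edg) \ ↑B = (↑F' : Set Edg) \ ↑B := by
    rw [← Finset.coe_sdiff, ← Finset.coe_sdiff, h]
  have hu : (↑F : Set Edg) ∪ ↑B = (↑F' : Set Edg) ∪ ↑B := by
    rw [← Set.sdiff_union_self, hs, Set.sdiff_union_self]
  unfold fC
  by_cases hb : BPv I J B (↑F : Set Edg)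
  · rw [ind_of hb, abs_le]
    have h1 := ind_nonneg (Cn I J (↑F : Set Edg))
    have h2 := ind_le_one (Cn I J (↑F : Set Edg))
    have h3 := ind_nonneg (Cn I J (↑F' : Set Edg))
    have h4 := ind_le_one (Cn I J (↑F' : Set Edg))
    constructor <;> linarith
  · rw [ind_not_of hb]
    have hcase : ¬ Cn I J ((↑F : Set Edg) ∪ ↑B) ∨ Cn I J ((↑F : Set Edg) \ ↑B) := by
      unfold BPv at hb
      tauto
    rcases hcase with h1 | h1
    · have a1 : ¬ Cn I J (↑F : Set Edg) := fun h => h1 (Cn_mono Set.subset_union_left h)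
      have a2 : ¬ Cn I J (↑F' : Set Edg) := by
        intro h
        rw [hu] at h1
        exact h1 (Cn_mono Set.subset_union_left h)
      rw [ind_not_of a1, ind_not_of a2]
      norm_num
    · have a1 : Cn I J (↑F : Set Edg) := Cn_mono Set.sdiff_subset h1
      have a2 : Cn I J (↑F' : Set Edg) := by
        rw [hs] at h1
        exact Cn_mono Set.sdiff_subset h1
      rw [ind_of a1, ind_of a2]
      norm_num

end QH

open QH in
/-- Q4 -/
theorem q_hit (K0 : ℝ) (hK0 : 1 ≤ K0) : ∃ (A r0 : ℕ) (c2 c3 : ℝ), 1 ≤ A ∧ 1 ≤ r0 ∧ 0 < c2 ∧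
    0 < c3 ∧ ∀ r : ℕ, r0 ≤ r → ∀ (p : Edg → ℝ) (S : Finset Edg) (I J I' J' : Set Vtx)
      (c : ℤ × ℤ), DomB p S I J I' J' c (4 * (A * r)) → ∀ V W : Finset Edg, V ⊆ S →
      (∀ e ∈ V, p e = 1 / 2) → blk c (4 * (A * r)) ⊆ V → W ⊆ V →
      Disjoint W (blk c (4 * (A * r))) →
      UA p S W (fun F => BPv I J (blk c (4 * (A * r))) ↑F) ≤
        K0 * UA p S W (fun F => BPv I J (blk c (A * r - 1)) ↑F) →
      c3 * UA p S W (fun F => BPv I J (blk c (4 * (A * r))) ↑F) ≤
        ∑ T ∈ (V \ W).powerset.filter (fun T =>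
          c2 * ((A * r : ℕ) : ℝ) ^ (3/4 : ℝ) ≤ ((T ∩ blk c (A * r)).card : ℝ)),
          sp p S V (fC I J) T := by
  classical
  obtain ⟨A, r0, c1, hA, hr0, hc1, hQ1⟩ := q_first K0 hK0
  obtain ⟨C1, hC1, hO⟩ := q_one
  obtain ⟨C2, hC2, hS2⟩ := q_second
  refine ⟨A, r0, c1 / 8, c1 ^ 2 / (64 * (C1 + C2)), hA, hr0, by positivity, by positivity, ?_⟩
  intro r hr p S I J I' J' c hD V W hVS hV2 hbV hWV hWb hU
  have hQ := hQ1 r hr p S I J I' J' c hD W (hWV.trans hVS) hWb hU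
  have hs1 : 1 ≤ A * r := Nat.mul_pos hA (by omega)
  have hO' := hO (A * r) hs1 p S I J I' J' c hD W (hWV.trans hVS) hWb
  have hS' := hS2 (A * r) hs1 p S I J I' J' c hD W (hWV.trans hVS) hWb
  have hp := hD.ok
  generalize A * r = s at *
  set U4 := UA p S W (fun F => BPv I J (blk c (4 * s)) ↑F) with hU4
  have hU40 : 0 ≤ U4 := UA_nonneg hp _ _ _
  set B := blk c s with hB
  have hB4 : B ⊆ blk c (4 * s) := blk_sub (by omega)
  have hBW : Disjoint W B := Finset.disjoint_of_subset_right hB4 hWb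
  have hBVW : B ⊆ V \ W := by
    intro x hx
    rw [mem_sdiff]
    exact ⟨hbV (hB4 hx), fun h => (Finset.disjoint_left.1 hBW h) hx⟩
  have hsR : (1 : ℝ) ≤ (s : ℝ) := by exact_mod_cast hs1
  set X : ℝ := (s : ℝ) ^ (3/4 : ℝ) with hX
  have hX1 : 1 ≤ X := Real.one_le_rpow hsR (by norm_num)
  have hX2 : (s : ℝ) ^ (3/2 : ℝ) = X ^ 2 := by
    rw [hX, ← Real.rpow_natCast, ← Real.rpow_mul (by linarith)]
    norm_num
  rw [hX2] at hS'
  rcases eq_or_lt_of_le hU40 with h0 | hpos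
  · rw [← h0, mul_zero]
    exact sum_nonneg fun T _ => sp_nonneg hp _ _ _ _
  -- the three hypotheses of `paley`
  have hu : ∑ T ∈ (V \ W).powerset.filter (fun T => ¬ Disjoint T B), sp p S V (fC I J) T ≤ U4 := by
    refine (sum_sp_hit hp hVS hV2 hWV hBVW (A := fun F => BPv I J B ↑F) ?_ ?_).trans ?_
    · intro F _
      exact hit_A I J B F
    · intro F F' _ _ h
      exact hit_f I J B F F' h
    · exact UA_mono hp fun F hF => BPv_mono hB4 hF
  have h1 : c1 / 4 * X * U4 ≤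
      ∑ x ∈ B, ∑ T ∈ (V \ W).powerset.filter (fun T => x ∈ T), sp p S V (fC I J) T := by
    have e1 : ∑ x ∈ B, ∑ T ∈ (V \ W).powerset.filter (fun T => x ∈ T), sp p S V (fC I J) T =
        ∑ x ∈ B, (1 / 4) * UA p S W (fun F => Pv I J x ↑F) := by
      refine sum_congr rfl fun x hx => ?_
      rw [sum_sp_mem hVS hV2 hWV (fC I J) (hBVW hx), UU_dif]
    rw [e1, ← mul_sum]
    linarith
  have h2 : ∑ x ∈ B, ∑ y ∈ B, ∑ T ∈ (V \ W).powerset.filter (fun T => x ∈ T ∧ y ∈ T),
      sp p S V (fC I J) T ≤ (C1 + C2) * X ^ 2 * U4 := by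
    have e1 : ∀ x ∈ B, ∑ y ∈ B, ∑ T ∈ (V \ W).powerset.filter (fun T => x ∈ T ∧ y ∈ T),
        sp p S V (fC I J) T = (1 / 4) * UA p S W (fun F => Pv I J x ↑F) +
          (1 / 16) * ∑ y ∈ B.erase x, UU p S W (dif x (dif y (fC I J))) := by
      intro x hx
      rw [← add_sum_erase _ _ hx, mul_sum]
      congr 1
      · have : (V \ W).powerset.filter (fun T => x ∈ T ∧ x ∈ T) =
            (V \ W).powerset.filter (fun T => x ∈ T) := by
          apply filter_congr
          intro T _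
          exact and_self_iff
        rw [this, sum_sp_mem hVS hV2 hWV (fC I J) (hBVW hx), UU_dif]
      · refine sum_congr rfl fun y hy => ?_
        rw [mem_erase] at hy
        exact sum_sp_two hVS hV2 hWV (fC I J) (hBVW hx) (hBVW hy.2) hy.1.symm
    rw [sum_congr rfl e1, sum_add_distrib, ← mul_sum, ← mul_sum]
    have hXX : X ≤ X ^ 2 := by nlinarith
    have b1 : C1 * X * U4 ≤ C1 * X ^ 2 * U4 := by
      have := mul_le_mul_of_nonneg_left hXX hC1.le
      exact mul_le_mul_of_nonneg_right this hU40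
    have b2 : 0 ≤ C1 * X ^ 2 * U4 := by positivity
    have b3 : 0 ≤ C2 * X ^ 2 * U4 := by positivity
    nlinarith
  have hP := paley (V := V) (W := W) (B := B) (μ := sp p S V (fC I J))
    (fun T _ => sp_nonneg hp _ _ _ _) hBVW (u := U4) (K := c1 / 8 * X)
    (m1 := c1 / 4 * X * U4) (m2 := (C1 + C2) * X ^ 2 * U4) (by positivity) (by positivity)
    hu h1 h2 (by nlinarith) (by positivity)
  refine le_trans (le_of_eq ?_) hP
  have hX0 : X ≠ 0 := by positivity
  have hU0 : U4 ≠ 0 := hpos.ne'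
  have hCC : C1 + C2 ≠ 0 := by positivity
  field_simp
  ring

end H389NS
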