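import Pool.Agent.H389R2.NS.QPair
import Pool.Agent.H988R6.Up

/-! One pivotal edge in a block, two layers (task Q2, `q_one`). -/

set_option autoImplicit false

namespace H389NS

open H974 H12S Finset

theorem q_one' : ∃ C : ℝ, 0 < C ∧ ∀ (s : ℕ), 1 ≤ s → ∀ (p : Edg → ℝ) (S : Finset Edg)
    (I J I' J' : Set Vtx) (c : ℤ × ℤ), DomB p S I J I' J' c (4 * s) → ∀ W : Finset Edg, W ⊆ S →
      Disjoint W (blk c (4 * s)) →
      ∑ x ∈ blk c s, UA p S W (fun F => Pv I J x ↑F) ≤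
        C * (s : ℝ) ^ (3/4 : ℝ) * UA p S W (fun F => BPv I J (blk c (4 * s)) ↑F) := by
  obtain ⟨c0, C0, _, hC0, h⟩ := Pool.Agent.H988R6.a4_sharp
  exact q_one_of C0 hC0 (fun k hk => (h k hk).2)

end H389NS
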