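import Pool.Agent.H389R2.NS.SumSp

/-! Two-layer estimates: one and two pivotal edges in a block (task Q2). -/

set_option autoImplicit false

namespace H389NS

open H974 H12S Finset

namespace QPairAux

theorem Ex_abs_le {p : Edg → ℝ} (hp : Ok p) {S : Finset Edg} {f g : Finset Edg → ℝ}
    (h : ∀ F, F ⊆ S → |f F| ≤ g F) : |Ex p S f| ≤ Ex p S g := by
  rw [abs_le]
  constructor
  · have h1 : Ex p S (fun F => -1 * g F) ≤ Ex p S f := by
      refine Ex_mono hp fun F hF => ?_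
      have := (abs_le.1 (h F hF)).1
      linarith
    rw [Ex_mul_left] at h1
    linarith
  · exact Ex_mono hp fun F hF => (abs_le.1 (h F hF)).2

theorem key {p : Edg → ℝ} {S W b K : Finset Edg} (hp : Ok p) (hW : W ⊆ S) (hbS : b ⊆ S)
    (hbW : Disjoint W b) (hK : K ⊆ b) {g : Finset Edg → ℝ} {L B : Finset Edg → Prop}
    (hL : ∀ F, L F ↔ L (F ∩ K)) (hB : ∀ F, F ⊆ S → (B F ↔ B (F \ b)))
    (hg : ∀ F, F ⊆ S → |g F| ≤ ind (L F) * ind (B F)) :
    UU p S W g ≤ Pr p (S \ W) L * UA p S W B := by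
  have hKW : Disjoint W K := Finset.disjoint_of_subset_right hK hbW
  have e1 : UU p S W g ≤ Ex p (S \ W) (fun G => ind (L G) *
      (Ex p W (fun Y => ind (B (G ∪ Y)))) ^ 2) := by
    unfold UU
    refine Ex_mono hp fun G hG => ?_
    have hGS : G ⊆ S := hG.trans Finset.sdiff_subset
    have h1 : |Ex p W (fun Y => g (G ∪ Y))| ≤
        Ex p W (fun Y => ind (L G) * ind (B (G ∪ Y))) := by
      refine Ex_abs_le hp fun Y hY => ?_
      have h2 := hg (G ∪ Y) (Finset.union_subset hGS (hY.trans hW))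
      have h3 : ind (L (G ∪ Y)) = ind (L G) := by
        refine ind_congr ?_
        rw [hL (G ∪ Y), hL G]
        have : (G ∪ Y) ∩ K = G ∩ K := by
          rw [Finset.union_inter_distrib_right]
          have : Y ∩ K = ∅ :=
            Finset.disjoint_iff_inter_eq_empty.1 (Finset.disjoint_of_subset_left hY hKW)
          rw [this, Finset.union_empty]
        rw [this]
      rwa [h3] at h2
    rw [Ex_mul_left] at h1
    have h4 : (Ex p W (fun Y => g (G ∪ Y))) ^ 2 ≤
        (ind (L G) * Ex p W (fun Y => ind (B (G ∪ Y)))) ^ 2 := by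
      rw [← sq_abs (Ex p W (fun Y => g (G ∪ Y)))]
      exact pow_le_pow_left₀ (abs_nonneg _) h1 2
    refine h4.trans (le_of_eq ?_)
    rw [mul_pow, sq (ind (L G)), ind_sq]
  refine e1.trans (le_of_eq ?_)
  have e2 := Ex_mul_indep (p := p) (U := S \ W) (S := K) (T := (S \ W) \ b)
    (f := fun G => ind (L G)) (g := fun G => (Ex p W (fun Y => ind (B (G ∪ Y)))) ^ 2)
    (by
      intro x hx
      exact Finset.mem_sdiff.2 ⟨hbS (hK hx), fun h => Finset.disjoint_left.1 hKW h hx⟩)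
    Finset.sdiff_subset
    (Finset.disjoint_of_subset_left hK Finset.disjoint_sdiff)
    (fun F _ => ind_congr (hL F))
    (by
      intro F hF
      have hFS : F ⊆ S := hF.trans Finset.sdiff_subset
      congr 1
      refine Ex_congr fun Y hY => ind_congr ?_
      have hYS : Y ⊆ S := hY.trans hW
      rw [hB (F ∪ Y) (Finset.union_subset hFS hYS),
        hB (F ∩ ((S \ W) \ b) ∪ Y) (Finset.union_subset (Finset.inter_subset_left.trans hFS) hYS)]
      have : (F ∪ Y) \ b = (F ∩ ((S \ W) \ b) ∪ Y) \ b := by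
        ext x
        simp only [Finset.mem_sdiff, Finset.mem_union, Finset.mem_inter]
        have := @hF x
        simp only [Finset.mem_sdiff] at this
        tauto
      rw [this])
  exact e2

theorem pr_A4e_N {p : Edg → ℝ} {S : Finset Edg} {k : ℕ} {e : Edg}
    (hS : ebx e k ⊆ S) (hfair : ∀ e' ∈ ebx e k, p e' = 1 / 2) :
    Pr p S (fun F => A4e k e ↑F) ≤ a4 (1/2) k := by
  have e1 : Pr p S (fun F => A4e k e ↑F) = Pr p (ebx e k) (fun F => A4e k e ↑F) := by
    apply Pr_local hS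
    intro F _
    apply A4e_local
    rw [Finset.coe_inter, Set.inter_assoc, Set.inter_self]
  have e2 : Pr p (ebx e k) (fun F => A4e k e ↑F) = PQ (1/2) (ebx e k) (fun F => A4e k e ↑F) := by
    unfold PQ Pr
    exact SumSpAux.Ex_congr_p (fun e' he' => hfair e' he') _
  rw [e1, e2]
  exact pr_A4e (by norm_num) (by norm_num) (le_refl _)

theorem A4e_loc (k : ℕ) (e : Edg) (F : Finset Edg) :
    A4e k e (↑F : Set Edg) ↔ A4e k e (↑(F ∩ ebx e k) : Set Edg) := by
  apply A4e_local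
  rw [Finset.coe_inter, Set.inter_assoc, Set.inter_self]

theorem BPv_out {I J : Set Vtx} {b : Finset Edg} (F : Finset Edg) :
    BPv I J b (↑F : Set Edg) ↔ BPv I J b (↑(F \ b) : Set Edg) := by
  have e1 : (↑F : Set Edg) ∪ ↑b = ↑(F \ b) ∪ ↑b := by
    ext x
    simp only [Finset.coe_sdiff, Set.mem_union, Set.mem_sdiff, Finset.mem_coe]
    tauto
  have e2 : (↑F : Set Edg) \ ↑b = ↑(F \ b) \ ↑b := by
    ext x
    simp only [Finset.coe_sdiff, Set.mem_sdiff, Finset.mem_coe]
    tauto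
  unfold BPv
  rw [e1, e2]

theorem fC_dif {I J : Set Vtx} (x : Edg) (F : Finset Edg) :
    fC I J (insert x F) - fC I J (F.erase x) = ind (Pv I J x (↑F : Set Edg)) := by
  unfold fC
  have c1 : (↑(insert x F) : Set Edg) = insert x (↑F : Set Edg) := Finset.coe_insert x F
  have c2 : (↑(F.erase x) : Set Edg) = (↑F : Set Edg) \ {x} := Finset.coe_erase x F
  rw [c1, c2]
  have hm : Cn I J ((↑F : Set Edg) \ {x}) → Cn I J (insert x (↑F : Set Edg)) :=
    Cn_mono (fun y hy => Or.inr hy.1)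
  by_cases h1 : Cn I J (insert x (↑F : Set Edg))
  · by_cases h2 : Cn I J ((↑F : Set Edg) \ {x})
    · rw [ind_of h1, ind_of h2, ind_not_of (fun h : Pv I J x (↑F : Set Edg) => h.2 h2)]
      norm_num
    · rw [ind_of h1, ind_not_of h2, ind_of (show Pv I J x (↑F : Set Edg) from ⟨h1, h2⟩)]
      norm_num
  · have h2 : ¬ Cn I J ((↑F : Set Edg) \ {x}) := fun h => h1 (hm h)
    rw [ind_not_of h1, ind_not_of h2, ind_not_of (fun h : Pv I J x (↑F : Set Edg) => h1 h.1)]
    norm_num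

theorem dif_flip {I J : Set Vtx} {x y : Edg} (hxy : x ≠ y) (F : Finset Edg) :
    |dif x (dif y (fC I J)) F| ≤ ind (Flip I J x y (↑F : Set Edg)) := by
  have h1 : insert y (insert x F) = insert x (insert y F) := Finset.insert_comm _ _ _
  have h2 : insert y (F.erase x) = (insert y F).erase x := by
    rw [Finset.erase_insert_of_ne hxy.symm]
  have h3 : (insert x F).erase y = insert x (F.erase y) := by
    rw [Finset.erase_insert_of_ne hxy]
  have h4 : (F.erase x).erase y = (F.erase y).erase x := Finset.erase_right_comm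
  have e1 : dif x (dif y (fC I J)) F =
      ind (Pv I J x (↑(insert y F) : Set Edg)) - ind (Pv I J x (↑(F.erase y) : Set Edg)) := by
    rw [← fC_dif x (insert y F), ← fC_dif x (F.erase y)]
    unfold dif
    rw [h1, h2, h3, h4]
    ring
  rw [e1]
  have c1 : (↑(insert y F) : Set Edg) = insert y (↑F : Set Edg) := Finset.coe_insert y F
  have c2 : (↑(F.erase y) : Set Edg) = (↑F : Set Edg) \ {y} := Finset.coe_erase y F
  rw [c1, c2]
  by_cases a1 : Pv I J x (insert y (↑F : Set Edg)) <;>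
    by_cases a2 : Pv I J x ((↑F : Set Edg) \ {y})
  · rw [ind_of a1, ind_of a2]
    simp only [sub_self, abs_zero]
    exact ind_nonneg _
  · have : Flip I J x y (↑F : Set Edg) := fun h => a2 (h.1 a1)
    rw [ind_of a1, ind_not_of a2, ind_of this]
    norm_num
  · have : Flip I J x y (↑F : Set Edg) := fun h => a1 (h.2 a2)
    rw [ind_not_of a1, ind_of a2, ind_of this]
    norm_num
  · rw [ind_not_of a1, ind_not_of a2]
    simp only [sub_self, abs_zero]
    exact ind_nonneg _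

theorem ebx_disj {x y : Edg} {k : ℕ} (hd : 2 * (k:ℤ) + 2 ≤ H12S.edist x y) :
    Disjoint (ebx x k) (ebx y k) := by
  have hdist : 2 * (k:ℤ) + 2 ≤ |x.1 - y.1| ∨ 2 * (k:ℤ) + 2 ≤ |x.2.1 - y.2.1| := by
    unfold H12S.edist at hd
    exact le_max_iff.mp hd
  rw [Finset.disjoint_left]
  unfold ebx
  rintro ⟨u, v, _ | _⟩ g1 g2
  · rw [mem_RE_false] at g1 g2
    rcases hdist with g | g
    · rw [le_abs] at g; omega
    · rw [le_abs] at g; omega
  · rw [mem_RE_true] at g1 g2
    rcases hdist with g | g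
    · rw [le_abs] at g; omega
    · rw [le_abs] at g; omega

theorem UA_nonneg {p : Edg → ℝ} (hp : Ok p) (S W : Finset Edg) (A : Finset Edg → Prop) :
    0 ≤ UA p S W A := by
  unfold UA UU
  exact Ex_nonneg hp fun _ _ => sq_nonneg _

theorem card_blk (c : ℤ × ℤ) {r : ℕ} (hr : 1 ≤ r) : ((blk c r).card : ℝ) ≤ 18 * (r:ℝ)^2 := by
  have h1 : (blk c r).card ≤ (2 * r + 1) * ((2 * r + 1) * 2) := by
    unfold blk RE
    refine (Finset.card_filter_le _ _).trans ?_
    rw [Finset.card_product, Finset.card_product, Int.card_Icc, Int.card_Icc]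
    have a1 : (c.1 + (r:ℤ) + 1 - (c.1 - r)).toNat = 2 * r + 1 := by omega
    have a2 : (c.2 + (r:ℤ) + 1 - (c.2 - r)).toNat = 2 * r + 1 := by omega
    rw [a1, a2]
    simp
  have h2 : ((blk c r).card : ℝ) ≤ (2 * (r:ℝ) + 1) * ((2 * (r:ℝ) + 1) * 2) := by exact_mod_cast h1
  have hr' : (1:ℝ) ≤ r := by exact_mod_cast hr
  nlinarith

end QPairAux

open QPairAux

theorem q_pair1 {p : Edg → ℝ} {S : Finset Edg} {I J : Set Vtx} (hp : Ok p) {W : Finset Edg}
    (hW : W ⊆ S) {x y : Edg} {b : Finset Edg} (hxb : x ∈ b) (hyb : y ∈ b) (hbS : b ⊆ S)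
    (hbW : Disjoint W b) (hfair : ∀ e ∈ b, p e = 1 / 2) {k : ℕ} (hk : 1 ≤ k)
    (hd : 2 * (k:ℤ) + 2 ≤ H12S.edist x y) (hx : ebx x k ⊆ b) (hy : ebx y k ⊆ b)
    (hIJ : ∀ v ∈ I ∪ J, ¬ (x.1 - k < v.1 ∧ v.1 < x.1 + k ∧ x.2.1 - k < v.2 ∧ v.2 < x.2.1 + k))
    (hIJ' : ∀ v ∈ I ∪ J, ¬ (y.1 - k < v.1 ∧ v.1 < y.1 + k ∧ y.2.1 - k < v.2 ∧ v.2 < y.2.1 + k)) :
    UU p S W (dif x (dif y (fC I J))) ≤
      a4 (1/2) k ^ 2 * UA p S W (fun F => BPv I J b ↑F) := by
  have hdis := ebx_disj hd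
  have hxy : x ≠ y := by
    rintro rfl
    exact (Finset.disjoint_left.mp hdis) (mem_ebx hk) (mem_ebx hk)
  have hn1 : y ∉ ebx x k := fun h => (Finset.disjoint_left.mp hdis) h (mem_ebx hk)
  have hn2 : x ∉ ebx y k := fun h => (Finset.disjoint_left.mp hdis) (mem_ebx hk) h
  have h1 := key (g := dif x (dif y (fC I J))) (L := fun F => A4e k x ↑F ∧ A4e k y ↑F)
    (B := fun F => BPv I J b ↑F) (K := ebx x k ∪ ebx y k) hp hW hbS hbW
    (Finset.union_subset hx hy)
    (by
      intro F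
      refine and_congr ?_ ?_
      · apply A4e_local
        ext u
        simp only [Finset.coe_inter, Finset.coe_union, Set.mem_inter_iff, Set.mem_union]
        tauto
      · apply A4e_local
        ext u
        simp only [Finset.coe_inter, Finset.coe_union, Set.mem_inter_iff, Set.mem_union]
        tauto)
    (fun F _ => BPv_out F)
    (by
      intro F _
      refine (dif_flip hxy F).trans ?_
      rw [← ind_and]
      refine ind_mono fun h => ⟨⟨?_, ?_⟩, ?_⟩
      · exact flip_1 hxy (mem_ebx hk) hn1 hIJ h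
      · exact flip_2 hxy (mem_ebx hk) hn2 hIJ' h
      · exact flip_blk hxy hxb hyb h)
  refine h1.trans (mul_le_mul_of_nonneg_right ?_ (UA_nonneg hp _ _ _))
  have hsx : ebx x k ⊆ S \ W := fun u hu =>
    Finset.mem_sdiff.2 ⟨hbS (hx hu), fun h => Finset.disjoint_left.1 hbW h (hx hu)⟩
  have hsy : ebx y k ⊆ S \ W := fun u hu =>
    Finset.mem_sdiff.2 ⟨hbS (hy hu), fun h => Finset.disjoint_left.1 hbW h (hy hu)⟩
  have h2 : Pr p (S \ W) (fun F => A4e k x ↑F ∧ A4e k y ↑F) =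
      Pr p (S \ W) (fun F => A4e k x ↑F) * Pr p (S \ W) (fun F => A4e k y ↑F) :=
    Pr_indep (A := fun F : Finset Edg => A4e k x (↑F : Set Edg))
      (B := fun F : Finset Edg => A4e k y (↑F : Set Edg)) hsx hsy hdis
      (fun F _ => A4e_loc k x F) (fun F _ => A4e_loc k y F)
  rw [h2, sq]
  exact mul_le_mul (pr_A4e_N hsx fun e he => hfair e (hx he))
    (pr_A4e_N hsy fun e he => hfair e (hy he)) (Pr_nonneg hp _ _)
    (LP_a4_nonneg (by norm_num) (by norm_num) k)

theorem q_pair2 {p : Edg → ℝ} {S : Finset Edg} {I J : Set Vtx} (hp : Ok p) {W : Finset Edg}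
    (hW : W ⊆ S) {x y : Edg} {b : Finset Edg} (hxb : x ∈ b) (hyb : y ∈ b) (hxy : x ≠ y)
    (hbS : b ⊆ S) (hbW : Disjoint W b) :
    UU p S W (dif x (dif y (fC I J))) ≤ UA p S W (fun F => BPv I J b ↑F) := by
  have h1 := key (g := dif x (dif y (fC I J))) (L := fun _ => True)
    (B := fun F => BPv I J b ↑F) (K := ∅) hp hW hbS hbW
    (Finset.empty_subset _) (fun _ => Iff.rfl) (fun F _ => BPv_out F)
    (by
      intro F _
      refine (dif_flip hxy F).trans ?_
      rw [← ind_and]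
      exact ind_mono fun h => ⟨trivial, flip_blk hxy hxb hyb h⟩)
  rw [Pr_true _ (fun _ _ => trivial), one_mul] at h1
  exact h1

/-- Q2a from the four-arm exponent. -/
theorem q_one_of (C0 : ℝ) (hC0 : 0 < C0)
    (ha : ∀ k : ℕ, 1 ≤ k → a4 (1/2) k ≤ C0 * (k:ℝ) ^ (-(5/4) : ℝ)) :
    ∃ C : ℝ, 0 < C ∧ ∀ (s : ℕ), 1 ≤ s → ∀ (p : Edg → ℝ) (S : Finset Edg)
    (I J I' J' : Set Vtx) (c : ℤ × ℤ), DomB p S I J I' J' c (4 * s) → ∀ W : Finset Edg, W ⊆ S →
      Disjoint W (blk c (4 * s)) →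
      ∑ x ∈ blk c s, UA p S W (fun F => Pv I J x ↑F) ≤
        C * (s : ℝ) ^ (3/4 : ℝ) * UA p S W (fun F => BPv I J (blk c (4 * s)) ↑F) := by
  refine ⟨18 * C0, by positivity, ?_⟩
  intro s hs p S I J I' J' c hD W hW hdis
  have hs1 : (1:ℝ) ≤ s := by exact_mod_cast hs
  have hU0 := UA_nonneg hD.ok S W (fun F => BPv I J (blk c (4 * s)) ↑F)
  have hone : ∀ x ∈ blk c s, UA p S W (fun F => Pv I J x ↑F) ≤
      (C0 * (s:ℝ) ^ (-(5/4) : ℝ)) * UA p S W (fun F => BPv I J (blk c (4 * s)) ↑F) := by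
    intro x hx
    have hx' : |x.1 - c.1| ≤ s ∧ |x.2.1 - c.2| ≤ s := by
      unfold blk at hx
      obtain ⟨u, v, _ | _⟩ := x
      · rw [mem_RE_false] at hx
        simp only
        rw [abs_le, abs_le]
        omega
      · rw [mem_RE_true] at hx
        simp only
        rw [abs_le, abs_le]
        omega
    have hsub : ebx x (2 * s) ⊆ blk c (4 * s) := by
      refine ebx_sub ?_ ?_
      · push_cast; linarith [hx'.1]
      · push_cast; linarith [hx'.2]
    have h2s : 1 ≤ 2 * s := by omega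
    have hout : ∀ v ∈ I ∪ J, ¬ (x.1 - (2 * s : ℕ) < v.1 ∧ v.1 < x.1 + (2 * s : ℕ) ∧
        x.2.1 - (2 * s : ℕ) < v.2 ∧ v.2 < x.2.1 + (2 * s : ℕ)) := by
      intro v hv hh
      have hf := hD.far v hv
      have i1 := abs_le.mp hx'.1
      have i2 := abs_le.mp hx'.2
      push_cast at hf hh
      rcases hf with hf | hf
      · rw [le_abs] at hf; omega
      · rw [le_abs] at hf; omega
    have h1 := key (g := fun F => ind (Pv I J x (↑F : Set Edg)))
      (L := fun F => A4e (2 * s) x ↑F)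
      (B := fun F => BPv I J (blk c (4 * s)) ↑F) (K := ebx x (2 * s)) hD.ok hW hD.sub hdis
      hsub (fun F => A4e_loc (2 * s) x F) (fun F _ => BPv_out F)
      (by
        intro F _
        rw [abs_of_nonneg (ind_nonneg _), ← ind_and]
        exact ind_mono fun h => ⟨loc_a4 (mem_ebx h2s) hout h, pv_blk (hsub (mem_ebx h2s)) h⟩)
    refine h1.trans (mul_le_mul_of_nonneg_right ?_ hU0)
    have hsx : ebx x (2 * s) ⊆ S \ W := fun u hu =>
      Finset.mem_sdiff.2 ⟨hD.sub (hsub hu), fun h => Finset.disjoint_left.1 hdis h (hsub hu)⟩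
    refine (pr_A4e_N hsx fun e he => hD.fair e (hsub he)).trans ?_
    refine (ha (2 * s) h2s).trans (mul_le_mul_of_nonneg_left ?_ hC0.le)
    refine Real.rpow_le_rpow_of_nonpos (by positivity) ?_ (by norm_num)
    push_cast; linarith
  calc ∑ x ∈ blk c s, UA p S W (fun F => Pv I J x ↑F)
      ≤ ∑ _x ∈ blk c s, (C0 * (s:ℝ) ^ (-(5/4) : ℝ)) *
          UA p S W (fun F => BPv I J (blk c (4 * s)) ↑F) := Finset.sum_le_sum hone
    _ = ((blk c s).card : ℝ) * ((C0 * (s:ℝ) ^ (-(5/4) : ℝ)) *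
          UA p S W (fun F => BPv I J (blk c (4 * s)) ↑F)) := by
        rw [Finset.sum_const, nsmul_eq_mul]
    _ ≤ (18 * (s:ℝ)^2) * ((C0 * (s:ℝ) ^ (-(5/4) : ℝ)) *
          UA p S W (fun F => BPv I J (blk c (4 * s)) ↑F)) :=
        mul_le_mul_of_nonneg_right (card_blk c hs) (by positivity)
    _ = 18 * C0 * ((s:ℝ)^(2:ℕ) * (s:ℝ) ^ (-(5/4) : ℝ)) *
          UA p S W (fun F => BPv I J (blk c (4 * s)) ↑F) := by ring
    _ = 18 * C0 * (s : ℝ) ^ (3/4 : ℝ) *
          UA p S W (fun F => BPv I J (blk c (4 * s)) ↑F) := by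
        congr 2
        rw [← Real.rpow_natCast, ← Real.rpow_add (by linarith)]
        norm_num

end H389NS
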