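import Pool.Agent.H389R2.NS.QHit

/-! The spectral sample is large near a block which it hits (many scales). -/

set_option autoImplicit false

namespace H389NS

open H974 H12S Finset

namespace QScaleAux

theorem blk_le {c : ℤ × ℤ} {s t : ℕ} (h : s ≤ t) : blk c s ⊆ blk c t := by
  unfold blk
  exact RE_subset (by omega) (by omega) (by omega) (by omega)

theorem UA_mono {p : Edg → ℝ} (hp : Ok p) {S W : Finset Edg} {A B : Finset Edg → Prop}
    (h : ∀ F, A F → B F) : UA p S W A ≤ UA p S W B := by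
  unfold UA UU
  refine Ex_mono hp fun G _ => ?_
  have h0 : 0 ≤ Ex p W (fun Y => ind (A (G ∪ Y))) := Ex_nonneg hp fun _ _ => ind_nonneg _
  have h1 : Ex p W (fun Y => ind (A (G ∪ Y))) ≤ Ex p W (fun Y => ind (B (G ∪ Y))) :=
    Ex_mono hp fun Y _ => ind_mono (h _)
  exact pow_le_pow_left₀ h0 h1 2

theorem UA_le_one {p : Edg → ℝ} (hp : Ok p) (S W : Finset Edg) (A : Finset Edg → Prop) :
    UA p S W A ≤ 1 := by
  unfold UA UU
  have h : Ex p (S \ W) (fun G => (Ex p W (fun Y => ind (A (G ∪ Y)))) ^ 2) ≤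
      Ex p (S \ W) (fun _ => (1:ℝ)) := by
    refine Ex_mono hp fun G _ => ?_
    have h0 : 0 ≤ Ex p W (fun Y => ind (A (G ∪ Y))) := Ex_nonneg hp fun _ _ => ind_nonneg _
    have h1 : Ex p W (fun Y => ind (A (G ∪ Y))) ≤ 1 := by
      have := Ex_mono hp (S := W) (f := fun Y => ind (A (G ∪ Y))) (g := fun _ => (1:ℝ))
        (fun Y _ => ind_le_one _)
      rwa [Ex_const] at this
    exact pow_le_one₀ h0 h1
  rwa [Ex_const] at h

theorem UA_nonneg {p : Edg → ℝ} (hp : Ok p) (S W : Finset Edg) (A : Finset Edg → Prop) :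
    0 ≤ UA p S W A := by
  unfold UA UU
  exact Ex_nonneg hp fun _ _ => sq_nonneg _

theorem sp_nonneg {p : Edg → ℝ} (hp : Ok p) (S V : Finset Edg) (f : Finset Edg → ℝ)
    (T : Finset Edg) : 0 ≤ sp p S V f T := by
  unfold sp
  exact Ex_nonneg hp fun _ _ => sq_nonneg _

theorem bpv_hA {I J : Set Vtx} (B F : Finset Edg) :
    BPv I J B (↑F : Set Edg) ↔ BPv I J B (↑(F \ B) : Set Edg) := by
  unfold BPv
  have e1 : (↑F : Set Edg) ∪ ↑B = ↑(F \ B) ∪ ↑B := by
    ext e
    simp only [Set.mem_union, Finset.mem_coe, Finset.mem_sdiff]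
    tauto
  have e2 : (↑F : Set Edg) \ ↑B = ↑(F \ B) \ ↑B := by
    ext e
    simp only [Set.mem_sdiff, Finset.mem_coe, Finset.mem_sdiff]
    tauto
  rw [e1, e2]

theorem fC_hit {I J : Set Vtx} (B F F' : Finset Edg) (h : F \ B = F' \ B) :
    |fC I J F - fC I J F'| ≤ ind (BPv I J B (↑F : Set Edg)) := by
  have key : ∀ G G' : Finset Edg, G \ B = G' \ B → Cn I J (↑G : Set Edg) →
      ¬ Cn I J (↑G' : Set Edg) → BPv I J B (↑G : Set Edg) ∧ BPv I J B (↑G' : Set Edg) := by
    intro G G' hG h1 h2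
    have hu : Cn I J ((↑G : Set Edg) ∪ ↑B) := Cn_mono Set.subset_union_left h1
    have hu2 : (↑G : Set Edg) ∪ ↑B = (↑G' : Set Edg) ∪ ↑B := by
      have e : G ∪ B = G' ∪ B := by
        rw [← Finset.sdiff_union_self_eq_union, hG, Finset.sdiff_union_self_eq_union]
      rw [← Finset.coe_union, ← Finset.coe_union, e]
    have hd2 : (↑G : Set Edg) \ ↑B = (↑G' : Set Edg) \ ↑B := by
      rw [← Finset.coe_sdiff, ← Finset.coe_sdiff, hG]
    have hd : ¬ Cn I J ((↑G' : Set Edg) \ ↑B) := fun h => h2 (Cn_mono Set.sdiff_subset h)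
    refine ⟨⟨hu, ?_⟩, ⟨?_, hd⟩⟩
    · rw [hd2]; exact hd
    · rw [← hu2]; exact hu
  unfold fC
  by_cases h1 : Cn I J (↑F : Set Edg) <;> by_cases h2 : Cn I J (↑F' : Set Edg)
  · rw [ind_of h1, ind_of h2, sub_self, abs_zero]; exact ind_nonneg _
  · rw [ind_of h1, ind_not_of h2, ind_of (key F F' h h1 h2).1]; norm_num
  · rw [ind_not_of h1, ind_of h2, ind_of (key F' F h.symm h2 h1).2]; norm_num
  · rw [ind_not_of h1, ind_not_of h2, sub_self, abs_zero]; exact ind_nonneg _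

theorem domB_le {p : Edg → ℝ} {S : Finset Edg} {I J I' J' : Set Vtx} {c : ℤ × ℤ} {s t : ℕ}
    (h : s ≤ t) (hD : DomB p S I J I' J' c t) : DomB p S I J I' J' c s where
  ok := hD.ok
  sub := (blk_le h).trans hD.sub
  fair := fun e he => hD.fair e (blk_le h he)
  dom := hD.dom
  far := by
    intro v hv
    rcases hD.far v hv with h1 | h1
    · left; omega
    · right; omega
  far' := by
    intro v hv
    rcases hD.far' v hv with h1 | h1
    · left; push_cast at h1 ⊢; omega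
    · right; push_cast at h1 ⊢; omega

end QScaleAux

open QScaleAux

/-- Q7 -/
theorem q_scale (ε : ℝ) (hε : 0 < ε) : ∃ (A r0 : ℕ) (c2 c3 : ℝ), 1 ≤ A ∧ 1 ≤ r0 ∧ 0 < c2 ∧
    0 < c3 ∧ c3 ≤ 1 ∧ ∀ (n r K : ℕ), 1 ≤ n → r0 ≤ r → 1 ≤ K → (n:ℝ) ^ ε ≤ (5:ℝ) ^ K →
      ∀ (p : Edg → ℝ) (S : Finset Edg) (I J I' J' : Set Vtx) (c : ℤ × ℤ),
      DomB p S I J I' J' c (4 * (5 ^ K * (A * r))) → ∀ V W : Finset Edg, V ⊆ S →
      (∀ e ∈ V, p e = 1 / 2) → blk c (4 * (5 ^ K * (A * r))) ⊆ V → W ⊆ V →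
      Disjoint W (blk c (4 * (5 ^ K * (A * r)))) →
      c3 * ∑ T ∈ (V \ W).powerset.filter (fun T => ¬ Disjoint T (blk c (4 * (A * r)))),
          sp p S V (fC I J) T - (n:ℝ) ^ (-4 : ℝ) ≤
        ∑ T ∈ (V \ W).powerset.filter (fun T =>
          c2 * ((A * r : ℕ) : ℝ) ^ (3/4 : ℝ) ≤
            ((T ∩ blk c (4 * (5 ^ K * (A * r)))).card : ℝ)),
          sp p S V (fC I J) T := by
  set K0 : ℝ := (5:ℝ) ^ (4 / ε) with hK0def
  have hK0 : 1 ≤ K0 := by
    rw [hK0def]
    exact Real.one_le_rpow (by norm_num) (by positivity)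
  obtain ⟨A, r0, c2, c3, hA, hr0, hc2, hc3, hq⟩ := q_hit K0 hK0
  refine ⟨A, r0, c2, min c3 1, hA, hr0, hc2, lt_min hc3 one_pos, min_le_right _ _, ?_⟩
  intro n r K hn hr hK hnK p S I J I' J' c hD V W hVS hV hB hWV hdis
  have hok := hD.ok
  have hr1 : 1 ≤ r := hr0.trans hr
  have hAr : 1 ≤ A * r := Nat.one_le_iff_ne_zero.2 (by positivity)
  -- the scales
  set s : ℕ → ℕ := fun k => 5 ^ k * (A * r) with hs
  have hs0 : s 0 = A * r := by simp [hs]
  have hs1 : ∀ k, 1 ≤ s k := fun k => Nat.one_le_iff_ne_zero.2 (by positivity)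
  have hsucc : ∀ k, s (k + 1) = 5 * s k := by
    intro k; simp only [hs, pow_succ]; ring
  have hmono : ∀ k l, k ≤ l → s k ≤ s l := by
    intro k l hkl
    exact Nat.mul_le_mul_right _ (Nat.pow_le_pow_right (by norm_num) hkl)
  set a : ℕ → ℝ := fun k => UA p S W (fun F => BPv I J (blk c (4 * s k)) ↑F) with ha
  have ha0 : ∀ k, 0 ≤ a k := fun k => UA_nonneg hok _ _ _
  have ha1 : ∀ k, a k ≤ 1 := fun k => UA_le_one hok _ _ _
  have hamono : ∀ k l, k ≤ l → a k ≤ a l := by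
    intro k l hkl
    refine UA_mono hok fun F hF => ?_
    exact IN_BPv_mono (blk_le (Nat.mul_le_mul_left 4 (hmono k l hkl))) hF
  -- the sum over the sets which hit the small block
  have hhit : ∑ T ∈ (V \ W).powerset.filter (fun T => ¬ Disjoint T (blk c (4 * (A * r)))),
      sp p S V (fC I J) T ≤ a 0 := by
    have hBs : blk c (4 * (A * r)) ⊆ V \ W := by
      have h1 : blk c (4 * (A * r)) ⊆ blk c (4 * (5 ^ K * (A * r))) :=
        blk_le (Nat.mul_le_mul_left 4 (by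
          calc A * r = s 0 := hs0.symm
            _ ≤ s K := hmono 0 K (Nat.zero_le _)))
      intro x hx
      rw [Finset.mem_sdiff]
      exact ⟨hB (h1 hx), fun h => Finset.disjoint_left.1 hdis h (h1 hx)⟩
    have := sum_sp_hit (p := p) hok (S := S) (V := V) (W := W) (B := blk c (4 * (A * r))) hVS hV hWV
      hBs (f := fC I J) (A := fun F => BPv I J (blk c (4 * (A * r))) ↑F)
      (fun F _ => bpv_hA _ F) (fun F F' _ _ h => fC_hit _ F F' h)
    simpa only [ha, hs0] using this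
  have hRnn : 0 ≤ ∑ T ∈ (V \ W).powerset.filter (fun T =>
          c2 * ((A * r : ℕ) : ℝ) ^ (3/4 : ℝ) ≤
            ((T ∩ blk c (4 * (5 ^ K * (A * r)))).card : ℝ)),
          sp p S V (fC I J) T := Finset.sum_nonneg fun T _ => sp_nonneg hok _ _ _ _
  have hc3' : 0 < min c3 1 := lt_min hc3 one_pos
  by_cases hex : ∃ k, 1 ≤ k ∧ k ≤ K ∧
      a k ≤ K0 * UA p S W (fun F => BPv I J (blk c (s k - 1)) ↑F)
  · obtain ⟨k, hk1, hkK, hk⟩ := hex
    have hAk : A * (5 ^ k * r) = s k := by simp only [hs]; ring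
    have hskK : 4 * s k ≤ 4 * (5 ^ K * (A * r)) := Nat.mul_le_mul_left 4 (hmono k K hkK)
    have h1 := hq (5 ^ k * r) (hr.trans (Nat.le_mul_of_pos_left r (by positivity))) p S I J I' J' c
      (by rw [hAk]; exact domB_le hskK hD) V W hVS hV
      (by rw [hAk]; exact (blk_le hskK).trans hB) hWV
      (by rw [hAk]; exact Finset.disjoint_of_subset_right (blk_le hskK) hdis)
      (by rw [hAk]; exact hk)
    rw [hAk] at h1
    have h2 : ∑ T ∈ (V \ W).powerset.filter (fun T =>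
          c2 * ((s k : ℕ) : ℝ) ^ (3/4 : ℝ) ≤ ((T ∩ blk c (s k)).card : ℝ)),
          sp p S V (fC I J) T ≤ ∑ T ∈ (V \ W).powerset.filter (fun T =>
          c2 * ((A * r : ℕ) : ℝ) ^ (3/4 : ℝ) ≤
            ((T ∩ blk c (4 * (5 ^ K * (A * r)))).card : ℝ)),
          sp p S V (fC I J) T := by
      refine Finset.sum_le_sum_of_subset_of_nonneg ?_ fun T _ _ => sp_nonneg hok _ _ _ _
      intro T hT
      rw [Finset.mem_filter] at hT ⊢
      refine ⟨hT.1, ?_⟩
      have h3 : ((A * r : ℕ) : ℝ) ^ (3/4 : ℝ) ≤ ((s k : ℕ) : ℝ) ^ (3/4 : ℝ) := by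
        refine Real.rpow_le_rpow (by positivity) ?_ (by norm_num)
        have h30 : A * r ≤ s k := by
          rw [← hs0]
          exact hmono 0 k (Nat.zero_le _)
        exact_mod_cast h30
      have h4 : ((T ∩ blk c (s k)).card : ℝ) ≤
          ((T ∩ blk c (4 * (5 ^ K * (A * r)))).card : ℝ) := by
        have : blk c (s k) ⊆ blk c (4 * (5 ^ K * (A * r))) :=
          blk_le (le_trans (by omega) hskK)
        exact_mod_cast Finset.card_le_card (Finset.inter_subset_inter_left this)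
      calc c2 * ((A * r : ℕ) : ℝ) ^ (3/4 : ℝ) ≤ c2 * ((s k : ℕ) : ℝ) ^ (3/4 : ℝ) :=
            mul_le_mul_of_nonneg_left h3 hc2.le
        _ ≤ _ := hT.2
        _ ≤ _ := h4
    have h5 : min c3 1 * ∑ T ∈ (V \ W).powerset.filter
        (fun T => ¬ Disjoint T (blk c (4 * (A * r)))), sp p S V (fC I J) T ≤ c3 * a k := by
      refine (mul_le_mul_of_nonneg_left hhit hc3'.le).trans ?_
      exact (mul_le_mul_of_nonneg_right (min_le_left _ _) (ha0 0)).trans
        (mul_le_mul_of_nonneg_left (hamono 0 k (Nat.zero_le _)) hc3.le)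
    have h6 : 0 ≤ (n:ℝ) ^ (-4 : ℝ) := by positivity
    linarith [h1, h2, h5, h6]
  · push Not at hex
    -- geometric growth
    have hgrow : ∀ k, k ≤ K → K0 ^ k * a 0 ≤ a k := by
      intro k
      induction k with
      | zero => intro _; simp
      | succ k ih =>
        intro hk
        have h1 := hex (k + 1) (by omega) hk
        have h2 : a k ≤ UA p S W (fun F => BPv I J (blk c (s (k + 1) - 1)) ↑F) := by
          refine UA_mono hok fun F hF => ?_
          refine IN_BPv_mono (blk_le ?_) hF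
          have := hs1 k
          rw [hsucc]
          omega
        have h3 := ih (by omega)
        calc K0 ^ (k + 1) * a 0 = K0 * (K0 ^ k * a 0) := by ring
          _ ≤ K0 * a k := mul_le_mul_of_nonneg_left h3 (by linarith)
          _ ≤ K0 * UA p S W (fun F => BPv I J (blk c (s (k + 1) - 1)) ↑F) :=
              mul_le_mul_of_nonneg_left h2 (by linarith)
          _ ≤ a (k + 1) := h1.le
    have h1 := (hgrow K le_rfl).trans (ha1 K)
    have hn0 : (0:ℝ) < n := by exact_mod_cast hn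
    have h2 : (n:ℝ) ^ (4:ℝ) ≤ K0 ^ K := by
      have e1 : K0 ^ K = ((5:ℝ) ^ K) ^ (4 / ε) := by
        rw [hK0def, ← Real.rpow_natCast, ← Real.rpow_natCast, ← Real.rpow_mul (by norm_num),
          ← Real.rpow_mul (by norm_num)]
        congr 1
        ring
      have e2 : (n:ℝ) ^ (4:ℝ) = ((n:ℝ) ^ ε) ^ (4 / ε) := by
        rw [← Real.rpow_mul hn0.le]
        congr 1
        field_simp
      rw [e1, e2]
      exact Real.rpow_le_rpow (by positivity) hnK (by positivity)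
    have h3 : a 0 ≤ (n:ℝ) ^ (-4:ℝ) := by
      rw [Real.rpow_neg hn0.le]
      have h4 : (0:ℝ) < (n:ℝ) ^ (4:ℝ) := by positivity
      rw [← one_div, le_div_iff₀ h4]
      calc a 0 * (n:ℝ) ^ (4:ℝ) ≤ a 0 * K0 ^ K := mul_le_mul_of_nonneg_left h2 (ha0 0)
        _ = K0 ^ K * a 0 := by ring
        _ ≤ 1 := h1
    have h5 : min c3 1 * ∑ T ∈ (V \ W).powerset.filter
        (fun T => ¬ Disjoint T (blk c (4 * (A * r)))), sp p S V (fC I J) T ≤ a 0 := by
      refine (mul_le_mul_of_nonneg_left hhit hc3'.le).trans ?_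
      exact (mul_le_mul_of_nonneg_right (min_le_right _ _) (ha0 0)).trans (one_mul _).le
    linarith

end H389NS
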