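import Pool.Agent.H389R2.NS.SumSp
import Pool.Agent.H389R2.NS.SS
import Pool.Agent.H389R2.NS.Many
import Pool.Agent.H389R2.NS.Paley
import Pool.Agent.H389R2.NS.Env
import Pool.Agent.H389R2.NS.Pair1
import Pool.Agent.H389R2.NS.Pair2
import Pool.Agent.H389R2.NS.Pair3
import Pool.Agent.H389R2.NS.Pair4

/-! Abstract part. -/
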