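import Pool.Agent.H389R2.NS.D4
import Pool.Agent.H389R2.NS.S4
/-! Two-layer four-arm bounds. -/
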