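import Pool.Agent.H389R2.NS.InwardN
import Pool.Agent.H389R2.NS.TSall
import Pool.Agent.H389R2.NS.BlkSumN

/-! Inhomogeneous measures. -/
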